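import Pool.Agent.Work.MP_1151e3_an.Basic

/-!
# Open intervals in shifted products: item D7 (claimBSG)
-/

set_option autoImplicit false

namespace Pool.Agent.Work.MP_1151e3_an

open MeasureTheory Set Aff
open scoped ENNReal

/-- The set of rich elements has small covering number at the scale `1 / (B R)`. -/
lemma D7_cnt {s B C : ℝ} {p : ℕ} (hB : 1 ≤ B) (hC : 1 ≤ C)
    (h : ∀ (K R w l0 : ℝ) (μ : Measure ℝ) (Q : Finset Aff), IsProbabilityMeasure μ → 1 ≤ K → 1 ≤ R →
    1 / R ≤ w → w ≤ 1 → μ (Icc 0 1)ᶜ = 0 → Fro μ K s (1 / R) →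
    (∀ g ∈ Q, g.bd B ∧ |g.s - l0| ≤ w) → Sep (1 / (B * R)) Q →
    (∀ g ∈ Q, R ^ (-s) / K ≤ mm μ (B / R) g 1) →
    (Q.card : ℝ) ≤ C * K ^ p * R * w ^ (1 - s))
    {K R : ℝ} {μ : Measure ℝ} (hμ : IsProbabilityMeasure μ) (hK : 1 ≤ K) (hR : 1 ≤ R)
    (hsupp : μ (Icc 0 1)ᶜ = 0) (hfro : Fro μ K s (1 / R)) :
    Cnt (1 / (B * R)) {q : Aff | q.bd B ∧ R ^ (-s) / K ≤ mm μ (B / R) q 1}
      ((B + 1) * (C * K ^ p * R)) := by
  classical
  intro Q hQ hsep
  have h1 : ∀ g ∈ Q, ⌊g.s⌋₊ ∈ Finset.range (⌊B⌋₊ + 1) := by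
    intro g hg
    rw [Finset.mem_range, Nat.lt_succ_iff]
    exact Nat.floor_le_floor (hQ g hg).1.2.1
  rw [Finset.card_eq_sum_card_fiberwise h1]
  push_cast
  have h2 : ∀ l ∈ Finset.range (⌊B⌋₊ + 1), ((Q.filter fun g => ⌊g.s⌋₊ = l).card : ℝ) ≤
      C * K ^ p * R := by
    intro l _
    have h3 := h K R 1 l μ (Q.filter fun g => ⌊g.s⌋₊ = l) hμ hK hR
      ((div_le_one (by linarith)).mpr hR) le_rfl hsupp hfro
      (fun g hg => by
        rw [Finset.mem_filter] at hg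
        refine ⟨(hQ g hg.1).1, ?_⟩
        have f1 := Nat.floor_le g.pos.le
        have f2 := Nat.lt_floor_add_one g.s
        rw [hg.2] at f1 f2
        rw [abs_le]
        constructor <;> linarith)
      (hsep.subset (Finset.filter_subset _ _))
      (fun g hg => (hQ g (Finset.mem_filter.mp hg).1).2)
    rw [Real.one_rpow, mul_one] at h3
    exact h3
  refine (Finset.sum_le_sum h2).trans ?_
  rw [Finset.sum_const, Finset.card_range, nsmul_eq_mul]
  refine mul_le_mul_of_nonneg_right ?_ (by positivity)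
  push_cast
  have := Nat.floor_le (by linarith : (0 : ℝ) ≤ B)
  linarith

theorem claimBSG (hGraph : ClaimGraph) (hRich : ClaimRich) (hPaths : ClaimPaths)
    (hQuot : ClaimQuot) : ClaimBSG := by
  classical
  intro s B hs0 hs1 hB
  obtain ⟨Cg, hCg, hG⟩ := hGraph s B hs0 hs1 hB
  obtain ⟨Cq, hCq, hQ⟩ := hQuot B hB
  have hB3 : (1 : ℝ) ≤ B ^ 3 := one_le_pow₀ hB
  set B1 : ℝ := 2 * B ^ 3 * Cq with hB1
  have hB1one : 1 ≤ B1 := by rw [hB1]; nlinarith
  obtain ⟨Cr, p, hCr, hR⟩ := hRich s B1 hs0 hs1 hB1one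
  set D : ℝ := (B1 + 1) ^ 4 * Cr ^ 4 * 2 ^ (4 * p) * 2 ^ 20 * Cg ^ 5 * Cq with hD
  have hD1 : 1 ≤ D := by
    rw [hD]
    have e1 : (1 : ℝ) ≤ (B1 + 1) ^ 4 := one_le_pow₀ (by linarith)
    have e2 : (1 : ℝ) ≤ Cr ^ 4 := one_le_pow₀ hCr
    have e3 : (1 : ℝ) ≤ 2 ^ (4 * p) := one_le_pow₀ (by norm_num)
    have e4 : (1 : ℝ) ≤ 2 ^ 20 := by norm_num
    have e5 : (1 : ℝ) ≤ Cg ^ 5 := one_le_pow₀ hCg
    have f1 := one_le_mul_of_one_le_of_one_le e1 e2
    have f2 := one_le_mul_of_one_le_of_one_le f1 e3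
    have f3 := one_le_mul_of_one_le_of_one_le f2 e4
    have f4 := one_le_mul_of_one_le_of_one_le f3 e5
    exact one_le_mul_of_one_le_of_one_le f4 hCq
  refine ⟨8 * Cg * D, 4 * p + 13, ?_, ?_⟩
  · have := one_le_mul_of_one_le_of_one_le hCg hD1
    nlinarith
  intro K R μ E hK hRR hE hEc
  have hμ := hE.prob
  have hK0 : 0 < K := by linarith
  have hR0 : 0 < R := by linarith
  have hB0 : 0 < B := by linarith
  obtain ⟨-, hdense⟩ := hG K R μ E hK hRR hE
  have hEpos : (0 : ℝ) < E.card := lt_of_lt_of_le (by positivity) hEc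
  have hEne : E.Nonempty := by
    rw [← Finset.card_pos]
    exact_mod_cast hEpos
  set Γ : Aff → Aff → Prop := fun g h => R ^ (-s) / (2 * K) ≤ mm μ (B / R) g h with hΓ
  set α : ℝ := 1 / (Cg * K ^ 2) with hα
  have hα0 : 0 < α := by rw [hα]; positivity
  have hα1 : α ≤ 1 := by
    rw [hα, div_le_one (by positivity)]
    exact one_le_mul_of_one_le_of_one_le hCg (one_le_pow₀ hK)
  have hdense' : α * (E.card : ℝ) ^ 2 ≤ (((E ×ˢ E).filter fun p => Γ p.1 p.2).card : ℝ) := by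
    have h1 : (((E ×ˢ E).filter fun p : Aff × Aff => Γ p.1 p.2).card : ℝ) =
      (((E ×ˢ E).filter fun p : Aff × Aff => R ^ (-s) / (2 * K) ≤ mm μ (B / R) p.1 p.2).card : ℝ) := by
      congr 2
    rw [h1, hα, one_div, inv_mul_le_iff₀ (by positivity)]
    convert hdense using 4
  obtain ⟨E', hE', hEE, hpaths⟩ := hPaths Aff E Γ α
    (fun x y hxy => by
      simp only [hΓ] at hxy ⊢
      rw [mm_symm]
      exact hxy) hα0 hα1 (by convert hdense' using 4)
  set δ : ℝ := 1 / (B * R) with hδ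
  have hδ0 : 0 < δ := by rw [hδ]; positivity
  have hδ1 : δ ≤ 1 := by
    rw [hδ, div_le_one (by positivity)]
    exact one_le_mul_of_one_le_of_one_le hB hRR
  set G : Set Aff := {q : Aff | q.bd B1 ∧ R ^ (-s) / (2 * K) ≤ mm μ (B1 / R) q 1} with hGdef
  set M : ℝ := (B1 + 1) * (Cr * (2 * K) ^ p * R) with hM
  have hM0 : 0 < M := by rw [hM]; positivity
  have hcnt : Cnt (1 / (B1 * R)) G M :=
    D7_cnt hB1one hCr hR hμ (by linarith) hRR hE.supp
      (hE.fro.mono (by linarith) le_rfl (by positivity))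
  have hcnt' : Cnt (δ / Cq) G M := by
    refine hcnt.mono ?_ le_rfl (fun _ h => h)
    rw [hδ, div_div]
    refine one_div_le_one_div_of_le (by positivity) ?_
    rw [hB1]
    have e0 : B ≤ B ^ 3 := le_self_pow₀ hB (by norm_num)
    have e1 : B ≤ 2 * B ^ 3 := by linarith
    have e2 : B * R * Cq = B * (Cq * R) := by ring
    have e3 : 2 * B ^ 3 * Cq * R = 2 * B ^ 3 * (Cq * R) := by ring
    rw [e2, e3]
    exact mul_le_mul_of_nonneg_right e1 (by positivity)
  have hquot := hQ δ M (α ^ 5 / 2 ^ 20) E E' Γ G hδ0 hδ1 hM0 (by positivity) hE.bd hE.sep hE' hEne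
    (fun g hg h hh hgh => by
      have hbg := hE.bd g hg
      have hbh := hE.bd h hh
      have hB2 : (1 : ℝ) ≤ B ^ 2 := one_le_pow₀ hB
      refine ⟨?_, ?_⟩
      · have h1 := bd_mul hB2 hB (bd_inv hB hbh) hbg
        refine bd_mono (by positivity) ?_ h1
        rw [hB1]
        have : 2 * B ^ 2 * B = 2 * B ^ 3 := by ring
        rw [this]
        exact le_mul_of_one_le_right (by positivity) hCq
      · refine le_trans hgh ((mm_le_quot μ hB hbh).trans (mm_mono μ ?_ _ _))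
        rw [← mul_div_assoc]
        refine div_le_div_of_nonneg_right ?_ hR0.le
        rw [hB1]
        nlinarith [mul_le_mul_of_nonneg_left hCq (by positivity : 0 ≤ 2 * B ^ 3)])
    hcnt' (by
      intro x hx x' hx'
      convert hpaths x hx x' hx' using 4)
  refine ⟨E', hE', ?_, ?_⟩
  · have h1 : (E.card : ℝ) ≤ 8 * Cg * K ^ 2 * E'.card := by
      rw [hα] at hEE
      have h2 : 1 / (Cg * K ^ 2) / 8 * (E.card : ℝ) = (E.card : ℝ) / (8 * Cg * K ^ 2) := by
        field_simp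
      rw [h2, div_le_iff₀ (by positivity)] at hEE
      linarith
    refine h1.trans (mul_le_mul_of_nonneg_right ?_ (by positivity))
    have h3 : K ^ 2 ≤ K ^ (4 * p + 13) := pow_le_pow_right₀ hK (by omega)
    calc 8 * Cg * K ^ 2 ≤ 8 * Cg * K ^ (4 * p + 13) :=
          mul_le_mul_of_nonneg_left h3 (by positivity)
      _ ≤ 8 * Cg * D * K ^ (4 * p + 13) :=
          mul_le_mul_of_nonneg_right (le_mul_of_one_le_right (by positivity) hD1) (by positivity)
  · refine hquot.mono le_rfl ?_ (fun _ h => h)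
    have h1 : (R / K) ^ 3 ≤ (E.card : ℝ) ^ 3 := pow_le_pow_left₀ (by positivity) hEc 3
    calc Cq * M ^ 4 / (α ^ 5 / 2 ^ 20 * (E.card : ℝ) ^ 3)
        ≤ Cq * M ^ 4 / (α ^ 5 / 2 ^ 20 * (R / K) ^ 3) := by
          refine div_le_div_of_nonneg_left (by positivity) (by positivity) ?_
          exact mul_le_mul_of_nonneg_left h1 (by positivity)
      _ = D * K ^ (4 * p + 13) * R := by
          rw [hM, hα, hD]
          field_simp
          ring
      _ ≤ 8 * Cg * D * K ^ (4 * p + 13) * R := by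
          have : 1 ≤ 8 * Cg := by linarith
          have h2 : D ≤ 8 * Cg * D := le_mul_of_one_le_left (by linarith) this
          exact mul_le_mul_of_nonneg_right (mul_le_mul_of_nonneg_right h2 (by positivity)) hR0.le

end Pool.Agent.Work.MP_1151e3_an
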