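import Pool.Agent.Work.MP_1151e3_an.Basic

/-!
# Open intervals in shifted products: the set of bad parameters is small (claimBad)
-/

set_option autoImplicit false

namespace Pool.Agent.Work.MP_1151e3_an

open MeasureTheory Set Aff
open scoped ENNReal

open Classical in
/-- The image under `toAff` of a separated set is hereditary. -/
theorem claimBad_hered {s U B1 B2 C1 B C : ℝ} (hU : ClaimHer) (hB1 : 1 ≤ B1) (hB2 : 1 ≤ B2)
    (hC1 : 1 ≤ C1) (hB1B : B1 ≤ B) (hB2B : B2 ≤ B) (hC1C : C1 ≤ C)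
    (hHer : ∀ (g : ℝ → ℝ) (A R x0 : ℝ) (μ : Measure ℝ) (F : Finset (ℝ × ℝ)), Measurable g → 0 ≤ A →
      ∫⁻ v, ENNReal.ofReal ((g v) ^ 2) ≤ ENNReal.ofReal A → IsProbabilityMeasure μ →
      μ (Icc 0 1)ᶜ = 0 → 1 ≤ R → 0 < x0 →
      (∀ p ∈ F, p.1 ∈ Icc (1 : ℝ) 2 ∧ |p.2| ≤ U ∧ x0 ≤ |∫ v, g v * Vh μ R p v|) →
      (∀ p ∈ F, (toAff p).bd B1) ∧
      x0 ^ 2 * (F.card : ℝ) ^ 2 ≤ A * C1 * R *
        ∑ p ∈ F, ∑ q ∈ F, mm μ (B1 / R) (toAff p) (toAff q))
    {R K A : ℝ} {μ : Measure ℝ} {g : ℝ → ℝ} (hR : 1 ≤ R) (hK : 1 ≤ K)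
    (hμ : IsProbabilityMeasure μ) (hsupp : μ (Icc 0 1)ᶜ = 0) (hfro : Fro μ K s (1 / R))
    (hg : Measurable g) (hA : 0 ≤ A)
    (hgA : ∫⁻ v, ENNReal.ofReal ((g v) ^ 2) ≤ ENNReal.ofReal A) (hAK : A ≤ K * R ^ (s - 1))
    (F : Finset (ℝ × ℝ))
    (hF : ∀ p ∈ F, p.1 ∈ Icc (1 : ℝ) 2 ∧ |p.2| ≤ U ∧ 1 / K ≤ |∫ v, g v * Vh μ R p v|)
    (hsep : ∀ p ∈ F, ∀ q ∈ F, p ≠ q → 1 / (B2 * R) ≤ (toAff p).ad (toAff q)) :
    Hered μ s B (2 * C ^ 2 * K ^ 3) R (F.image toAff) ∧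
      ((F.image toAff).card : ℝ) = F.card := by
  have hR0 : 0 < R := by linarith
  have hK0 : 0 < K := by linarith
  have hB10 : 0 < B1 := by linarith
  have hB20 : 0 < B2 := by linarith
  have hB0 : 0 < B := by linarith
  have hC0 : 0 < C := by linarith
  have hC1' : 1 ≤ C := by linarith
  have hinj : Set.InjOn toAff (F : Set (ℝ × ℝ)) := by
    intro p hp q hq hpq
    by_contra hne
    have h1 := hsep p hp q hq hne
    rw [hpq, ad_self] at h1
    have : 0 < 1 / (B2 * R) := by positivity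
    linarith
  have hKK : K ≤ 2 * C ^ 2 * K ^ 3 := by
    have h1 : (1 : ℝ) ≤ C ^ 2 := one_le_pow₀ hC1'
    have h2 : K ≤ K ^ 3 := by
      calc K = K * 1 := by ring
        _ ≤ K * K ^ 2 := mul_le_mul_of_nonneg_left (one_le_pow₀ hK) hK0.le
        _ = K ^ 3 := by ring
    calc K ≤ K ^ 3 := h2
      _ = 1 * K ^ 3 := by ring
      _ ≤ (2 * C ^ 2) * K ^ 3 := by
        apply mul_le_mul_of_nonneg_right _ (by positivity)
        linarith
  have hall := hHer g A R (1 / K) μ F hg hA hgA hμ hsupp hR (by positivity) hF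
  refine ⟨⟨hμ, hsupp, hfro.mono hKK le_rfl (by positivity), ?_, ?_, ?_⟩, ?_⟩
  · intro x hx
    obtain ⟨p, hp, rfl⟩ := Finset.mem_image.mp hx
    exact bd_mono hB10 hB1B (hall.1 p hp)
  · intro x hx y hy hne
    obtain ⟨p, hp, rfl⟩ := Finset.mem_image.mp hx
    obtain ⟨q, hq, rfl⟩ := Finset.mem_image.mp hy
    have hpq : p ≠ q := fun h => hne (by rw [h])
    refine le_trans ?_ (hsep p hp q hq hpq)
    exact one_div_le_one_div_of_le (by positivity) (mul_le_mul_of_nonneg_right hB2B hR0.le)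
  · intro F' hF'
    set F'' := F.filter (fun p => toAff p ∈ F') with hF''
    have him : F' = F''.image toAff := by
      ext x
      rw [Finset.mem_image]
      constructor
      · intro hx
        obtain ⟨p, hp, rfl⟩ := Finset.mem_image.mp (hF' hx)
        exact ⟨p, Finset.mem_filter.mpr ⟨hp, hx⟩, rfl⟩
      · rintro ⟨p, hp, rfl⟩
        exact (Finset.mem_filter.mp hp).2
    have hinj'' : Set.InjOn toAff (F'' : Set (ℝ × ℝ)) :=
      hinj.mono (by
        intro p hp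
        exact (Finset.mem_filter.mp (Finset.mem_coe.mp hp)).1)
    have hcard : (F'.card : ℝ) = F''.card := by
      rw [him, Finset.card_image_of_injOn hinj'']
    have h2 := (hHer g A R (1 / K) μ F'' hg hA hgA hμ hsupp hR (by positivity)
      (fun p hp => hF p (Finset.mem_filter.mp hp).1)).2
    have hsum : ∑ x ∈ F', ∑ y ∈ F', mm μ (B / R) x y =
        ∑ p ∈ F'', ∑ q ∈ F'', mm μ (B / R) (toAff p) (toAff q) := by
      rw [him, Finset.sum_image hinj'']
      refine Finset.sum_congr rfl (fun p _ => ?_)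
      rw [Finset.sum_image hinj'']
    have hle : ∑ p ∈ F'', ∑ q ∈ F'', mm μ (B1 / R) (toAff p) (toAff q) ≤
        ∑ p ∈ F'', ∑ q ∈ F'', mm μ (B / R) (toAff p) (toAff q) := by
      refine Finset.sum_le_sum fun p _ => Finset.sum_le_sum fun q _ => mm_mono μ ?_ _ _
      exact div_le_div_of_nonneg_right hB1B hR0.le
    rw [hsum, hcard]
    set S1 := ∑ p ∈ F'', ∑ q ∈ F'', mm μ (B1 / R) (toAff p) (toAff q) with hS1
    have hS1nn : 0 ≤ S1 := Finset.sum_nonneg fun p _ => Finset.sum_nonneg fun q _ => mm_nonneg _ _ _ _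
    refine le_trans ?_ hle
    have hRs : 0 < R ^ (-s) := Real.rpow_pos_of_pos hR0 _
    have hRR : R ^ (s - 1) * R = R ^ s := by
      rw [← Real.rpow_add_one hR0.ne']
      ring_nf
    have hRs' : R ^ (-s) * R ^ s = 1 := by
      rw [← Real.rpow_add hR0]
      simp
    -- main estimate
    have h3 : A * C1 * R * S1 ≤ K * R ^ s * C * S1 := by
      apply mul_le_mul_of_nonneg_right _ hS1nn
      calc A * C1 * R ≤ (K * R ^ (s - 1)) * C * R := by
            apply mul_le_mul_of_nonneg_right _ hR0.le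
            exact mul_le_mul hAK hC1C (by linarith) (by positivity)
        _ = K * (R ^ (s - 1) * R) * C := by ring
        _ = K * R ^ s * C := by rw [hRR]
    have h4 : (1 / K) ^ 2 * (F''.card : ℝ) ^ 2 ≤ K * R ^ s * C * S1 := h2.trans h3
    have h5 : (F''.card : ℝ) ^ 2 ≤ K ^ 3 * R ^ s * C * S1 := by
      have h6 := mul_le_mul_of_nonneg_left h4 (show (0 : ℝ) ≤ K ^ 2 by positivity)
      have h7 : K ^ 2 * (1 / K) ^ 2 = 1 := by
        rw [← mul_pow, mul_one_div_cancel hK0.ne', one_pow]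
      calc (F''.card : ℝ) ^ 2 = K ^ 2 * ((1 / K) ^ 2 * (F''.card : ℝ) ^ 2) := by
            rw [← mul_assoc, h7, one_mul]
        _ ≤ K ^ 2 * (K * R ^ s * C * S1) := h6
        _ = _ := by ring
    calc R ^ (-s) / (2 * C ^ 2 * K ^ 3) * (F''.card : ℝ) ^ 2
        ≤ R ^ (-s) / (2 * C ^ 2 * K ^ 3) * (K ^ 3 * R ^ s * C * S1) :=
          mul_le_mul_of_nonneg_left h5 (by positivity)
      _ = (R ^ (-s) * R ^ s) * S1 / (2 * C) := by
          field_simp
      _ = S1 / (2 * C) := by rw [hRs', one_mul]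
      _ ≤ S1 := div_le_self hS1nn (by linarith)
  · rw [Finset.card_image_of_injOn hinj]

theorem claimBad (h1 : ClaimK) (h2 : ClaimHer) (h3 : ClaimExtract) : ClaimBad := by
  classical
  intro s U hs0 hs1 hU
  obtain ⟨B1, C1, hB1, hC1, hHer⟩ := h2 U hU
  obtain ⟨B2, C2, hB2, hC2, hExt⟩ := h3 U hU
  set B := max B1 B2 with hB
  set C := max C1 C2 with hC
  have hB1B : B1 ≤ B := le_max_left _ _
  have hB2B : B2 ≤ B := le_max_right _ _
  have hC1C : C1 ≤ C := le_max_left _ _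
  have hC2C : C2 ≤ C := le_max_right _ _
  have hBone : 1 ≤ B := hB1.trans hB1B
  have hCone : 1 ≤ C := hC1.trans hC1C
  have hC0 : 0 < C := by linarith
  obtain ⟨κK, R0K, hκ, hR0K, hKey⟩ := h1 s B hs0 hs1 hBone
  refine ⟨κK / 4, max R0K ((2 * C ^ 2) ^ (4 / κK)), by positivity, hR0K.trans (le_max_left _ _), ?_⟩
  intro R K A μ g hR hK hKR hμ hsupp hfro hg hA hgA hAK
  have hR1 : 1 ≤ R := hR0K.trans ((le_max_left _ _).trans hR)
  have hR0 : 0 < R := by linarith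
  have hK0 : 0 < K := by linarith
  by_contra hcon
  push Not at hcon
  obtain ⟨F, hFS, hsep, hcard⟩ := hExt R (1 / (R * K))
    {p : ℝ × ℝ | p.1 ∈ Icc (1 : ℝ) 2 ∧ p.2 ∈ Icc (-U) U ∧ 1 / K ≤ |∫ v, g v * Vh μ R p v|}
    hR1 (by positivity) (fun p hp => ⟨hp.1, hp.2.1⟩) hcon.le
  obtain ⟨hH, hc⟩ := claimBad_hered (s := s) (U := U) (C := C) h2 hB1 hB2 hC1 hB1B hB2B hC1C hHer
    hR1 hK hμ hsupp hfro hg hA hgA hAK F
    (fun p hp => ⟨(hFS p hp).1, abs_le.mpr (hFS p hp).2.1, (hFS p hp).2.2⟩) hsep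
  have hK'1 : 1 ≤ 2 * C ^ 2 * K ^ 3 := by
    have h4 : (1 : ℝ) ≤ C ^ 2 := one_le_pow₀ hCone
    have h5 : (1 : ℝ) ≤ K ^ 3 := one_le_pow₀ hK
    nlinarith
  have hK'R : 2 * C ^ 2 * K ^ 3 ≤ R ^ κK := by
    have h4 : K ^ 3 ≤ R ^ (3 * (κK / 4)) := by
      calc K ^ 3 ≤ (R ^ (κK / 4)) ^ 3 := pow_le_pow_left₀ hK0.le hKR 3
        _ = R ^ (3 * (κK / 4)) := by
          rw [← Real.rpow_natCast, ← Real.rpow_mul hR0.le]
          congr 1
          push_cast
          ring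
    have h5 : 2 * C ^ 2 ≤ R ^ (κK / 4) := by
      have h6 : (2 * C ^ 2) ^ (4 / κK) ≤ R := (le_max_right _ _).trans hR
      have h7 := Real.rpow_le_rpow (by positivity) h6 (show 0 ≤ κK / 4 by positivity)
      rw [← Real.rpow_mul (by positivity)] at h7
      have h8 : 4 / κK * (κK / 4) = 1 := by field_simp
      rwa [h8, Real.rpow_one] at h7
    calc 2 * C ^ 2 * K ^ 3 ≤ R ^ (κK / 4) * R ^ (3 * (κK / 4)) :=
          mul_le_mul h5 h4 (by positivity) (by positivity)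
      _ = R ^ κK := by
          rw [← Real.rpow_add hR0]
          congr 1
          ring
  have hfin := hKey R (2 * C ^ 2 * K ^ 3) μ _ ((le_max_left _ _).trans hR) hK'1 hK'R hH
  rw [hc] at hfin
  have h9 : R / K ≤ C * F.card := by
    calc R / K = 1 / (R * K) * R ^ 2 := by field_simp
      _ ≤ C2 * F.card := hcard
      _ ≤ C * F.card := mul_le_mul_of_nonneg_right hC2C (Nat.cast_nonneg _)
  have h10 : R / K ≤ C * (R / (2 * C ^ 2 * K ^ 3)) :=
    h9.trans (mul_le_mul_of_nonneg_left hfin hC0.le)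
  have h11 : C * (R / (2 * C ^ 2 * K ^ 3)) = (R / K) * (1 / (2 * C * K ^ 2)) := by
    field_simp
  rw [h11] at h10
  have h12 : 1 / (2 * C * K ^ 2) < 1 := by
    rw [div_lt_one (by positivity)]
    have h4 : (1 : ℝ) ≤ K ^ 2 := one_le_pow₀ hK
    nlinarith
  have h13 : 0 < R / K := by positivity
  nlinarith

end Pool.Agent.Work.MP_1151e3_an
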