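import Pool.Agent.Work.MP_1151e3_an.Basic

/-!
MP_1151e3_an, item A3: compact subsets of analytic sets.
-/

set_option autoImplicit false

namespace Pool.Agent.Work.MP_1151e3_an

open MeasureTheory Set Filter Topology
open scoped ENNReal

/-- The set of an optional dyadic index. -/
def A3_set : Option (ℕ × ℤ) → Set ℝ
  | none => ∅
  | some q => dy q.1 q.2

/-- The weight of an optional dyadic index. -/
noncomputable def A3_wt (s : ℝ) : Option (ℕ × ℤ) → ℝ≥0∞
  | none => 0
  | some q => ENNReal.ofReal ((2 : ℝ) ^ (-(s * q.1)))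

lemma A3_cont_eq (s : ℝ) (X : Set ℝ) :
    cont s X = ⨅ (Q : ℕ → Option (ℕ × ℤ)) (_ : X ⊆ ⋃ i, A3_set (Q i)), ∑' i, A3_wt s (Q i) := rfl

lemma A3_cont_le (s : ℝ) (X : Set ℝ) (Q : ℕ → Option (ℕ × ℤ)) (h : X ⊆ ⋃ i, A3_set (Q i)) :
    cont s X ≤ ∑' i, A3_wt s (Q i) := by
  rw [A3_cont_eq]
  exact iInf₂_le Q h

/-- Shift of a dyadic index. -/
def A3_shift (r : ℤ) : Option (ℕ × ℤ) → Option (ℕ × ℤ)
  | none => none
  | some q => some (q.1, q.2 + r)

lemma A3_wt_shift (s : ℝ) (r : ℤ) (q : Option (ℕ × ℤ)) : A3_wt s (A3_shift r q) = A3_wt s q := by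
  cases q <;> rfl

/-- The open interval around a dyadic interval. -/
def A3_open : Option (ℕ × ℤ) → Set ℝ
  | none => ∅
  | some q => Ioo (((q.2 : ℝ) - 1) / 2 ^ q.1) (((q.2 : ℝ) + 2) / 2 ^ q.1)

lemma A3_isOpen (q : Option (ℕ × ℤ)) : IsOpen (A3_open q) := by
  cases q with
  | none => exact isOpen_empty
  | some q => exact isOpen_Ioo

lemma A3_subset_open (q : Option (ℕ × ℤ)) : A3_set q ⊆ A3_open q := by
  cases q with
  | none => exact subset_rfl
  | some q =>
    intro x hx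
    have hp : (0 : ℝ) < 2 ^ q.1 := by positivity
    obtain ⟨h1, h2⟩ := hx
    rw [div_le_iff₀ hp] at h1
    rw [lt_div_iff₀ hp] at h2
    refine ⟨?_, ?_⟩
    · rw [div_lt_iff₀ hp]; linarith
    · rw [lt_div_iff₀ hp]; linarith

lemma A3_open_subset (q : Option (ℕ × ℤ)) :
    A3_open q ⊆ ⋃ r : Fin 3, A3_set (A3_shift ((r : ℤ) - 1) q) := by
  cases q with
  | none => exact empty_subset _
  | some q =>
    intro x hx
    have hp : (0 : ℝ) < 2 ^ q.1 := by positivity
    obtain ⟨h1, h2⟩ := hx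
    rw [div_lt_iff₀ hp] at h1
    rw [lt_div_iff₀ hp] at h2
    rw [mem_iUnion]
    have hmem : ∀ r : Fin 3, x ∈ A3_set (A3_shift ((r : ℤ) - 1) (some q)) ↔
        (q.2 : ℝ) + ((r : ℕ) : ℝ) - 1 ≤ x * 2 ^ q.1 ∧ x * 2 ^ q.1 < (q.2 : ℝ) + ((r : ℕ) : ℝ) := by
      intro r
      simp only [A3_shift, A3_set, dy, mem_Ico]
      rw [div_le_iff₀ hp, lt_div_iff₀ hp]
      push_cast
      constructor
      · rintro ⟨a, b⟩; constructor <;> linarith
      · rintro ⟨a, b⟩; constructor <;> linarith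
    rcases lt_or_ge (x * 2 ^ q.1) (q.2 : ℝ) with h | h
    · refine ⟨0, (hmem 0).mpr ⟨?_, ?_⟩⟩
      · simp; linarith
      · simpa using h
    · rcases lt_or_ge (x * 2 ^ q.1) ((q.2 : ℝ) + 1) with h' | h'
      · refine ⟨1, (hmem 1).mpr ⟨?_, ?_⟩⟩
        · simpa using h
        · simpa using h'
      · refine ⟨2, (hmem 2).mpr ⟨?_, ?_⟩⟩
        · simp; linarith
        · simpa using h2

/-- The content of a subset of the enlarged cover. -/
lemma A3_triple (s : ℝ) (X : Set ℝ) (Q : ℕ → Option (ℕ × ℤ)) (h : X ⊆ ⋃ i, A3_open (Q i)) :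
    cont s X ≤ 3 * ∑' i, A3_wt s (Q i) := by
  have e : ℕ ≃ ℕ × Fin 3 := Nat.divModEquiv 3
  refine (A3_cont_le s X (fun n => A3_shift (((e n).2 : ℤ) - 1) (Q (e n).1)) ?_).trans ?_
  · intro x hx
    obtain ⟨i, hi⟩ := mem_iUnion.mp (h hx)
    obtain ⟨r, hr⟩ := mem_iUnion.mp (A3_open_subset (Q i) hi)
    refine mem_iUnion.mpr ⟨e.symm (i, r), ?_⟩
    simpa using hr
  · simp only [A3_wt_shift]
    rw [e.tsum_eq (fun p : ℕ × Fin 3 => A3_wt s (Q p.1)),
      ENNReal.tsum_prod (f := fun (i : ℕ) (_ : Fin 3) => A3_wt s (Q i))]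
    simp only [tsum_fintype, Finset.sum_const, Finset.card_univ, Fintype.card_fin]
    rw [← ENNReal.tsum_mul_left]
    refine le_of_eq (tsum_congr fun i => ?_)
    simp

/-- Choice of the bounds. -/
lemma A3_choose (hI : ClaimIncr) {s : ℝ} (hs : 0 < s) (f : (ℕ → ℕ) → ℝ) (c : ℝ≥0∞)
    (hc : c < cont s (range f)) :
    ∃ k : ℕ → ℕ, ∀ m, c < cont s (f '' {x | ∀ i < m, x i ≤ k i}) := by
  have step : ∀ (m : ℕ) (g : ℕ → ℕ), c < cont s (f '' {x | ∀ i < m, x i ≤ g i}) →
      ∃ j : ℕ, c < cont s (f '' {x | ∀ i < m + 1, x i ≤ Function.update g m j i}) := by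
    intro m g hg
    have hmono : Monotone fun j : ℕ => f '' {x | ∀ i < m + 1, x i ≤ Function.update g m j i} := by
      intro j j' hj
      refine image_mono ?_
      intro x hx i hi
      refine (hx i hi).trans ?_
      by_cases h : i = m
      · subst h; simpa using hj
      · simp [Function.update_of_ne h]
    have hU : (⋃ j : ℕ, f '' {x | ∀ i < m + 1, x i ≤ Function.update g m j i}) =
        f '' {x | ∀ i < m, x i ≤ g i} := by
      rw [← image_iUnion]
      congr 1
      ext x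
      simp only [mem_iUnion]
      constructor
      · rintro ⟨j, hj⟩ i hi
        have := hj i (by omega)
        rwa [Function.update_of_ne (by omega)] at this
      · intro hx
        refine ⟨x m, fun i hi => ?_⟩
        by_cases h : i = m
        · subst h; simp
        · rw [Function.update_of_ne h]
          exact hx i (by omega)
    rw [← hU, hI s _ hs hmono] at hg
    exact lt_iSup_iff.mp hg
  choose J hJ using step
  have h0 : c < cont s (f '' {x | ∀ i < 0, x i ≤ (fun _ : ℕ => 0 : ℕ → ℕ) i}) := by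
    have : {x : ℕ → ℕ | ∀ i < 0, x i ≤ (fun _ : ℕ => 0 : ℕ → ℕ) i} = univ := by
      ext x; simp
    rw [this, image_univ]
    exact hc
  let G : (m : ℕ) → {g : ℕ → ℕ // c < cont s (f '' {x | ∀ i < m, x i ≤ g i})} := fun m =>
    Nat.rec (motive := fun m => {g : ℕ → ℕ // c < cont s (f '' {x | ∀ i < m, x i ≤ g i})})
      ⟨fun _ => 0, h0⟩ (fun m G => ⟨Function.update G.1 m (J m G.1 G.2), hJ m G.1 G.2⟩) m
  have hG : ∀ m, (G (m + 1)).1 = Function.update (G m).1 m (J m (G m).1 (G m).2) := fun m => rfl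
  refine ⟨fun i => (G (i + 1)).1 i, fun m => ?_⟩
  have key : ∀ m i, i < m → (G m).1 i = (G (i + 1)).1 i := by
    intro m
    induction m with
    | zero => intro i hi; omega
    | succ m ih =>
      intro i hi
      by_cases h : i = m
      · subst h; rfl
      · rw [hG, Function.update_of_ne h]
        exact ih i (by omega)
  have := (G m).2
  convert this using 3
  ext x
  constructor
  · intro hx i hi
    rw [key m i hi]; exact hx i hi
  · intro hx i hi
    have := hx i hi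
    rw [key m i hi] at this; exact this

/-- A neighbourhood of the compact set contains a whole stage. -/
lemma A3_stage (f : (ℕ → ℕ) → ℝ) (hf : Continuous f) (k : ℕ → ℕ) (V : Set ℝ) (hV : IsOpen V)
    (hsub : f '' {x | ∀ i, x i ≤ k i} ⊆ V) :
    ∃ m, f '' {x | ∀ i < m, x i ≤ k i} ⊆ V := by
  by_contra hcon
  push Not at hcon
  have h1 : ∀ m, ∃ z : ℕ → ℕ, (∀ i < m, z i ≤ k i) ∧ f z ∉ V := by
    intro m
    obtain ⟨y, ⟨z, hz, rfl⟩, hy⟩ := not_subset.mp (hcon m)
    exact ⟨z, hz, hy⟩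
  choose z hz hzV using h1
  have hcomp : IsCompact {x : ℕ → ℕ | ∀ i, x i ≤ k i} := by
    have : {x : ℕ → ℕ | ∀ i, x i ≤ k i} = Set.pi univ fun i => Iic (k i) := by
      ext x; exact ⟨fun h i _ => h i, fun h i => h i (mem_univ i)⟩
    rw [this]
    exact isCompact_univ_pi fun i => (finite_Iic (k i)).isCompact
  let z' : ℕ → ℕ → ℕ := fun m i => if i < m then z m i else 0
  have hz' : ∀ m, z' m ∈ {x : ℕ → ℕ | ∀ i, x i ≤ k i} := by
    intro m i
    by_cases h : i < m
    · simp only [z', if_pos h]; exact hz m i h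
    · simp only [z', if_neg h]; exact Nat.zero_le _
  obtain ⟨a, ha, φ, hφ, hlim⟩ := hcomp.tendsto_subseq hz'
  have hlim2 : Tendsto (fun j => z (φ j)) atTop (𝓝 a) := by
    rw [tendsto_pi_nhds] at hlim ⊢
    intro i
    refine (hlim i).congr' ?_
    filter_upwards [eventually_gt_atTop i] with j hj
    have : i < φ j := hj.trans_le (hφ.id_le j)
    simp only [Function.comp, z', if_pos this]
  have h2 : Tendsto (fun j => f (z (φ j))) atTop (𝓝 (f a)) := (hf.tendsto a).comp hlim2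
  have h3 : V ∈ 𝓝 (f a) := hV.mem_nhds (hsub ⟨a, ha, rfl⟩)
  obtain ⟨j, hj⟩ := (h2.eventually h3).exists
  exact hzV (φ j) hj

theorem claimCap (hI : ClaimIncr) : ClaimCap := by
  intro s A hs hA _ hpos
  rw [AnalyticSet] at hA
  rcases hA with rfl | ⟨f, hf, rfl⟩
  · exfalso
    have h1 := A3_cont_le s ∅ (fun _ => none) (empty_subset _)
    have h2 : ∑' _ : ℕ, A3_wt s none = 0 := by simp [A3_wt]
    rw [h2] at h1
    exact absurd hpos (not_lt.mpr h1)
  obtain ⟨c, hc0, hc⟩ := exists_between hpos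
  have hctop : c ≠ ⊤ := (hc.trans_le le_top).ne
  obtain ⟨k, hk⟩ := A3_choose hI hs f c hc
  have hcomp : IsCompact {x : ℕ → ℕ | ∀ i, x i ≤ k i} := by
    have : {x : ℕ → ℕ | ∀ i, x i ≤ k i} = Set.pi univ fun i => Iic (k i) := by
      ext x; exact ⟨fun h i _ => h i, fun h i => h i (mem_univ i)⟩
    rw [this]
    exact isCompact_univ_pi fun i => (finite_Iic (k i)).isCompact
  refine ⟨f '' {x | ∀ i, x i ≤ k i}, image_subset_range _ _, hcomp.image hf, ?_⟩
  by_contra hcon
  have hzero : cont s (f '' {x | ∀ i, x i ≤ k i}) = 0 := by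
    simpa using hcon
  have hc3 : 0 < c / 3 := ENNReal.div_pos hc0.ne' (by norm_num)
  rw [← hzero, A3_cont_eq] at hc3
  simp only [iInf_lt_iff] at hc3
  obtain ⟨Q, hQ, hw⟩ := hc3
  obtain ⟨m, hm⟩ := A3_stage f hf k (⋃ i, A3_open (Q i)) (isOpen_iUnion fun i => A3_isOpen _)
    (hQ.trans (iUnion_mono fun i => A3_subset_open _))
  have h1 := A3_triple s _ Q hm
  have h2 : 3 * ∑' i, A3_wt s (Q i) < c := by
    have h3 := ENNReal.mul_lt_mul_right (a := 3) (by norm_num) (by norm_num) hw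
    rwa [ENNReal.mul_div_cancel (by norm_num) (by norm_num)] at h3
  exact absurd (hk m) (not_lt.mpr (h1.trans h2.le))

end Pool.Agent.Work.MP_1151e3_an
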