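import Pool.Agent.Work.MP_1151e3_an.Basic

/-!
# Open intervals in shifted products: counting maps with nearly equal slopes
-/

set_option autoImplicit false

namespace Pool.Agent.Work.MP_1151e3_an

open MeasureTheory Set Aff
open scoped ENNReal

/-- The diagonal strip has small product measure. -/
lemma cell_diag {μ : Measure ℝ} [IsProbabilityMeasure μ] {K s δ ρ : ℝ} (h : Fro μ K s δ)
    (hρ : δ ≤ ρ) : (μ.prod μ).real {p : ℝ × ℝ | |p.1 - p.2| ≤ ρ} ≤ K * ρ ^ s := by
  have hm : MeasurableSet {p : ℝ × ℝ | |p.1 - p.2| ≤ ρ} := by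
    apply IsClosed.measurableSet
    apply isClosed_le _ continuous_const
    fun_prop
  have h0 : 0 ≤ K * ρ ^ s := measureReal_nonneg.trans (h 0 ρ hρ)
  have h1 : (μ.prod μ) {p : ℝ × ℝ | |p.1 - p.2| ≤ ρ} ≤ ENNReal.ofReal (K * ρ ^ s) := by
    rw [Measure.prod_apply hm]
    calc ∫⁻ x, μ (Prod.mk x ⁻¹' {p : ℝ × ℝ | |p.1 - p.2| ≤ ρ}) ∂μ
        ≤ ∫⁻ _, ENNReal.ofReal (K * ρ ^ s) ∂μ := by
          refine lintegral_mono fun x => ?_
          have e : Prod.mk x ⁻¹' {p : ℝ × ℝ | |p.1 - p.2| ≤ ρ} = Metric.closedBall x ρ := by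
            ext y
            simp only [mem_preimage, mem_ofPred_eq, Metric.mem_closedBall, Real.dist_eq]
            rw [abs_sub_comm]
          rw [e, ← ENNReal.ofReal_toReal (measure_ne_top μ (Metric.closedBall x ρ))]
          exact ENNReal.ofReal_le_ofReal (h x ρ hρ)
      _ = ENNReal.ofReal (K * ρ ^ s) := by simp
  rw [measureReal_def]
  calc ((μ.prod μ) {p : ℝ × ℝ | |p.1 - p.2| ≤ ρ}).toReal
      ≤ (ENNReal.ofReal (K * ρ ^ s)).toReal := ENNReal.toReal_mono ENNReal.ofReal_ne_top h1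
    _ = K * ρ ^ s := ENNReal.toReal_ofReal h0

/-- A pointwise bound for the number of coincidences gives a bound for the sum of the masses. -/
lemma cell_sum {μ : Measure ℝ} [IsProbabilityMeasure μ] (hsupp : μ (Icc 0 1)ᶜ = 0) {ρ ρ' N : ℝ}
    (h : Aff) (E : Finset Aff) (hN : 0 ≤ N)
    (hpt : ∀ a ∈ Icc (0 : ℝ) 1, ∀ b ∈ Icc (0 : ℝ) 1,
      ((E.filter fun g => |h.act a - g.act b| ≤ ρ).card : ℝ) ≤ N ∧
      (|a - b| ≤ ρ' ∨ ∀ g ∈ E, ¬ |h.act a - g.act b| ≤ ρ)) :
    ∑ g ∈ E, mm μ ρ h g ≤ N * (μ.prod μ).real {p : ℝ × ℝ | |p.1 - p.2| ≤ ρ'} := by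
  classical
  have hm : MeasurableSet {p : ℝ × ℝ | |p.1 - p.2| ≤ ρ'} := by
    apply IsClosed.measurableSet
    apply isClosed_le _ continuous_const
    fun_prop
  have e1 : ∀ g, mm μ ρ h g = ∫ p, ({p : ℝ × ℝ | |h.act p.1 - g.act p.2| ≤ ρ}.indicator
      (fun _ => (1 : ℝ))) p ∂(μ.prod μ) := by
    intro g
    rw [integral_indicator (measurableSet_mm ρ h g)]
    simp [mm]
  have hint : ∀ g ∈ E, Integrable ({p : ℝ × ℝ | |h.act p.1 - g.act p.2| ≤ ρ}.indicator
      (fun _ => (1 : ℝ))) (μ.prod μ) := fun g _ =>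
    (integrable_const 1).indicator (measurableSet_mm ρ h g)
  have e2 : ∑ g ∈ E, mm μ ρ h g = ∫ p, ∑ g ∈ E, ({p : ℝ × ℝ | |h.act p.1 - g.act p.2| ≤ ρ}.indicator
      (fun _ => (1 : ℝ))) p ∂(μ.prod μ) := by
    rw [integral_finsetSum _ hint]
    exact Finset.sum_congr rfl fun g _ => e1 g
  have e3 : N * (μ.prod μ).real {p : ℝ × ℝ | |p.1 - p.2| ≤ ρ'} = ∫ p,
      ({p : ℝ × ℝ | |p.1 - p.2| ≤ ρ'}.indicator (fun _ => N)) p ∂(μ.prod μ) := by
    rw [integral_indicator hm]
    simp [mul_comm]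
  rw [e2, e3]
  have hae : ∀ᵐ x ∂μ, x ∈ Icc (0 : ℝ) 1 := by
    rw [ae_iff]
    exact hsupp
  have hae1 : ∀ᵐ p ∂(μ.prod μ), p.1 ∈ Icc (0 : ℝ) 1 :=
    (Measure.quasiMeasurePreserving_fst (μ := μ) (ν := μ)).ae hae
  have hae2 : ∀ᵐ p ∂(μ.prod μ), p.2 ∈ Icc (0 : ℝ) 1 :=
    (Measure.quasiMeasurePreserving_snd (μ := μ) (ν := μ)).ae hae
  refine integral_mono_ae (integrable_finsetSum _ hint)
    ((integrable_const N).indicator hm) ?_
  filter_upwards [hae1, hae2] with p h1 h2
  obtain ⟨h3, h4⟩ := hpt p.1 h1 p.2 h2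
  have e4 : ∑ g ∈ E, ({p : ℝ × ℝ | |h.act p.1 - g.act p.2| ≤ ρ}.indicator (fun _ => (1 : ℝ))) p
      = ((E.filter fun g => |h.act p.1 - g.act p.2| ≤ ρ).card : ℝ) := by
    rw [Finset.card_filter]
    push_cast
    refine Finset.sum_congr rfl fun g _ => ?_
    simp only [indicator, mem_ofPred_eq]
  show ∑ g ∈ E, ({p : ℝ × ℝ | |h.act p.1 - g.act p.2| ≤ ρ}.indicator (fun _ => (1 : ℝ))) p ≤ _
  rw [e4]
  rcases h4 with h4 | h4
  · rw [indicator_of_mem (show p ∈ {p : ℝ × ℝ | |p.1 - p.2| ≤ ρ'} from h4)]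
    exact h3
  · have e5 : E.filter (fun g => |h.act p.1 - g.act p.2| ≤ ρ) = ∅ :=
      Finset.filter_eq_empty_iff.mpr fun g hg => h4 g hg
    rw [e5, Finset.card_empty, Nat.cast_zero]
    exact indicator_nonneg (fun _ _ => hN) p

theorem claimCell (hpack : ClaimPack) : ClaimCell := by
  classical
  intro s B A hs hs1 hB hA
  set C0 : ℝ := (4 * A * B + 1) * (4 * B ^ 2 + 1) with hC0
  set C1 : ℝ := B * (B + 2 * A + 2) with hC1
  have hB0 : 0 < B := by linarith
  have hC0' : 1 ≤ C0 := by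
    have h1 : 0 ≤ 4 * A * B := by positivity
    have h2 : 0 ≤ 4 * B ^ 2 := by positivity
    rw [hC0]
    nlinarith [mul_nonneg h1 h2]
  have hC1' : 1 ≤ C1 := by
    rw [hC1]
    nlinarith
  refine ⟨C0 * C1 ^ s, 2, ?_, ?_⟩
  · have : (1 : ℝ) ≤ C1 ^ s := Real.one_le_rpow hC1' hs.le
    nlinarith
  intro K R x y r μ E hK hR hH hr hE
  have hprob := hH.prob
  have hR0 : 0 < R := by linarith
  have hK0 : 0 < K := by linarith
  have hr0 : 0 < r := lt_of_lt_of_le (by positivity) hr
  rcases Finset.eq_empty_or_nonempty E with hE0 | hEne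
  · rw [hE0, Finset.card_empty, Nat.cast_zero]
    positivity
  have hcard : (0 : ℝ) < E.card := by
    exact_mod_cast hEne.card_pos
  -- an element with many coincidences
  have hher := hH.her E (Finset.Subset.refl _)
  obtain ⟨h, hhE, hh⟩ : ∃ h ∈ E, R ^ (-s) / K * (E.card : ℝ) ≤ ∑ g ∈ E, mm μ (B / R) h g := by
    by_contra hcon
    push Not at hcon
    have h1 : ∑ h ∈ E, ∑ g ∈ E, mm μ (B / R) h g < ∑ _h ∈ E, R ^ (-s) / K * (E.card : ℝ) :=
      Finset.sum_lt_sum_of_nonempty hEne hcon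
    rw [Finset.sum_const, nsmul_eq_mul] at h1
    nlinarith
  have hsum : ∑ g ∈ E, mm μ (B / R) h g
      ≤ C0 * (μ.prod μ).real {p : ℝ × ℝ | |p.1 - p.2| ≤ C1 * r} := by
    refine cell_sum hH.supp h E (by linarith) fun a ha b hb => ⟨?_, ?_⟩
    · have h1 := hpack (1 / (B * R)) (2 * A / R) (B / R) b (x - A / R) (h.act a)
        (E.filter fun g => |h.act a - g.act b| ≤ B / R) (by positivity) (by positivity)
        (by positivity) (by rw [abs_of_nonneg hb.1]; exact hb.2)
        (hH.sep.subset (Finset.filter_subset _ _)) (fun g hg => by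
          rw [Finset.mem_filter] at hg
          obtain ⟨hg1, hg2⟩ := hg
          have h2 := abs_le.mp (hE g hg1).1
          refine ⟨by linarith [h2.1], ?_, ?_⟩
          · have : 2 * A / R = A / R + A / R := by ring
            linarith [h2.2]
          · rw [abs_sub_comm] at hg2
            exact hg2)
      refine h1.trans (le_of_eq ?_)
      rw [hC0]
      field_simp
      ring
    · by_cases hne : ∃ g ∈ E, |h.act a - g.act b| ≤ B / R
      · left
        obtain ⟨g, hg, hg2⟩ := hne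
        have e : h.act a - g.act b = h.s * (a - b) + ((h.s - g.s) * b + (h.t - g.t)) := by
          simp only [Aff.act]
          ring
        have h1 := hE g hg
        have h2 := hE h hhE
        have h3 : |(h.s - g.s) * b| ≤ 2 * A / R := by
          rw [abs_mul, abs_of_nonneg hb.1]
          have h4 : |h.s - g.s| ≤ 2 * A / R := by
            have e2 : h.s - g.s = (h.s - x) - (g.s - x) := by ring
            have e3 : 2 * A / R = A / R + A / R := by ring
            rw [e2, e3]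
            exact (abs_sub _ _).trans (add_le_add h2.1 h1.1)
          calc |h.s - g.s| * b ≤ 2 * A / R * 1 :=
                mul_le_mul h4 hb.2 hb.1 (by positivity)
            _ = _ := mul_one _
        have h4 : |h.t - g.t| ≤ 2 * r := by
          have e2 : h.t - g.t = (h.t - y) - (g.t - y) := by ring
          rw [e2]
          exact (abs_sub _ _).trans (by linarith [h2.2, h1.2])
        have h5 : |h.s * (a - b)| ≤ B / R + (2 * A / R + 2 * r) := by
          have e2 : h.s * (a - b) = (h.act a - g.act b) - ((h.s - g.s) * b + (h.t - g.t)) := by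
            rw [e]; ring
          rw [e2]
          refine (abs_sub _ _).trans (add_le_add hg2 ?_)
          exact (abs_add_le _ _).trans (add_le_add h3 h4)
        have h6 : B / R ≤ B * r := by
          rw [div_eq_mul_one_div]
          exact mul_le_mul_of_nonneg_left hr hB0.le
        have h7 : 2 * A / R ≤ 2 * A * r := by
          rw [div_eq_mul_one_div]
          exact mul_le_mul_of_nonneg_left hr (by positivity)
        rw [abs_mul, abs_of_pos h.pos] at h5
        have h8 := (hH.bd h hhE).1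
        have h9 : B⁻¹ * |a - b| ≤ (B + 2 * A + 2) * r := by
          have := mul_le_mul_of_nonneg_right h8 (abs_nonneg (a - b))
          linarith
        rw [inv_mul_le_iff₀ hB0] at h9
        rw [hC1]
        linarith
      · right
        intro g hg hg2
        exact hne ⟨g, hg, hg2⟩
  have hdiag : (μ.prod μ).real {p : ℝ × ℝ | |p.1 - p.2| ≤ C1 * r} ≤ K * (C1 * r) ^ s := by
    refine cell_diag hH.fro (hr.trans ?_)
    nlinarith
  have hmain : R ^ (-s) / K * (E.card : ℝ) ≤ C0 * (K * (C1 * r) ^ s) :=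
    hh.trans (hsum.trans (mul_le_mul_of_nonneg_left hdiag (by linarith)))
  have hRs : 0 < R ^ s := Real.rpow_pos_of_pos hR0 _
  have hRn : R ^ (-s) * R ^ s = 1 := by
    rw [← Real.rpow_add hR0]
    simp
  rw [Real.mul_rpow (by linarith) hr0.le] at hmain
  rw [Real.mul_rpow hR0.le hr0.le]
  calc (E.card : ℝ) = (K * R ^ s) * (R ^ (-s) / K * (E.card : ℝ)) := by
        have : (K * R ^ s) * (R ^ (-s) / K * (E.card : ℝ)) = (R ^ (-s) * R ^ s) * E.card := by
          field_simp
        rw [this, hRn, one_mul]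
    _ ≤ (K * R ^ s) * (C0 * (K * (C1 ^ s * r ^ s))) :=
        mul_le_mul_of_nonneg_left hmain (by positivity)
    _ = _ := by ring

end Pool.Agent.Work.MP_1151e3_an
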