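import Pool.Agent.Work.MP_1151e3_an.Basic

/-!
# Positive content of a unit piece
-/

set_option autoImplicit false

namespace Pool.Agent.Work.MP_1151e3_an

open MeasureTheory Set Filter
open scoped ENNReal NNReal Topology

/-- The piece of a cover. -/
def contPosPiece : Option (ℕ × ℤ) → Set ℝ
  | none => ∅
  | some q => dy q.1 q.2

noncomputable def contPosWt (s : ℝ) : Option (ℕ × ℤ) → ℝ≥0∞
  | none => 0
  | some q => ENNReal.ofReal ((2 : ℝ) ^ (-(s * q.1)))

lemma contPos_diam (s : ℝ) (hs : 0 < s) (o : Option (ℕ × ℤ)) :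
    Metric.ediam (contPosPiece o) ^ s ≤ contPosWt s o := by
  cases o with
  | none => simp [contPosPiece, contPosWt, hs]
  | some q =>
    have h1 : Metric.ediam (contPosPiece (some q)) = ENNReal.ofReal ((2 : ℝ) ^ (-(q.1 : ℝ))) := by
      unfold contPosPiece dy
      rw [Real.ediam_Ico]
      congr 1
      rw [Real.rpow_neg (by norm_num), Real.rpow_natCast]
      field_simp
      ring
    rw [h1, ENNReal.ofReal_rpow_of_nonneg (by positivity) hs.le]
    unfold contPosWt
    rw [← Real.rpow_mul (by norm_num)]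
    apply le_of_eq
    congr 2
    ring

lemma contPos_null (s : ℝ) (hs : 0 < s) (X : Set ℝ) (h : cont s X = 0) : μH[s] X = 0 := by
  have hε : ∀ n : ℕ, ∃ Q : ℕ → Option (ℕ × ℤ), X ⊆ ⋃ i, contPosPiece (Q i) ∧
      ∑' i, contPosWt s (Q i) < ((n : ℝ≥0∞) + 1)⁻¹ := by
    intro n
    have hpos : (0 : ℝ≥0∞) < ((n : ℝ≥0∞) + 1)⁻¹ := by
      apply ENNReal.inv_pos.mpr
      exact ENNReal.add_ne_top.mpr ⟨ENNReal.natCast_ne_top n, ENNReal.one_ne_top⟩
    have h2 : cont s X < ((n : ℝ≥0∞) + 1)⁻¹ := by rw [h]; exact hpos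
    unfold cont at h2
    simp only [iInf_lt_iff] at h2
    obtain ⟨Q, hQ, hQ2⟩ := h2
    refine ⟨Q, ?_, ?_⟩
    · intro x hx
      obtain ⟨i, hi⟩ := mem_iUnion.mp (hQ hx)
      refine mem_iUnion.mpr ⟨i, ?_⟩
      cases hq : Q i with
      | none => rw [hq] at hi; simp at hi
      | some q => rw [hq] at hi; exact hi
    · refine lt_of_le_of_lt (le_of_eq ?_) hQ2
      refine tsum_congr fun i => ?_
      cases hq : Q i with
      | none => rfl
      | some q => rfl
  choose Q hQ hQ2 using hε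
  have htend : Tendsto (fun n : ℕ => ((n : ℝ≥0∞) + 1)⁻¹) atTop (𝓝 0) := by
    have := (tendsto_add_atTop_iff_nat 1).mpr ENNReal.tendsto_inv_nat_nhds_zero
    simpa using this
  have hr : Tendsto (fun n : ℕ => (((n : ℝ≥0∞) + 1)⁻¹) ^ (1 / s)) atTop (𝓝 0) := by
    have h1 := (ENNReal.continuous_rpow_const (y := 1 / s)).tendsto (0 : ℝ≥0∞)
    rw [ENNReal.zero_rpow_of_pos (by positivity)] at h1
    exact h1.comp htend
  have key := Measure.hausdorffMeasure_le_liminf_tsum (ι := fun _ : ℕ => ℕ) s X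
    (fun n : ℕ => (((n : ℝ≥0∞) + 1)⁻¹) ^ (1 / s)) hr (fun n i => contPosPiece (Q n i))
    (Eventually.of_forall fun n i => by
      have h1 : contPosWt s (Q n i) ≤ ((n : ℝ≥0∞) + 1)⁻¹ :=
        (ENNReal.le_tsum i).trans (hQ2 n).le
      have h2 := (contPos_diam s hs (Q n i)).trans h1
      have h3 := ENNReal.rpow_le_rpow h2 (by positivity : 0 ≤ 1 / s)
      rw [← ENNReal.rpow_mul, mul_one_div_cancel hs.ne', ENNReal.rpow_one] at h3
      exact h3)
    (Eventually.of_forall hQ)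
  have hle : liminf (fun n : ℕ => ∑' i, Metric.ediam (contPosPiece (Q n i)) ^ s) atTop ≤
      liminf (fun n : ℕ => ((n : ℝ≥0∞) + 1)⁻¹) atTop := by
    refine liminf_le_liminf (Eventually.of_forall fun n => ?_)
    exact (ENNReal.tsum_le_tsum fun i => contPos_diam s hs (Q n i)).trans (hQ2 n).le
  rw [htend.liminf_eq] at hle
  exact le_antisymm (key.trans hle) bot_le

/-- A1. -/
theorem claimContPosB : ClaimContPos := by
  intro A s hs hdim
  by_contra hcon
  push Not at hcon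
  have h0 : ∀ k : ℤ, cont s (A ∩ dy 0 k) = 0 := fun k => le_antisymm (hcon k) bot_le
  have h1 : ∀ k : ℤ, μH[s] (A ∩ dy 0 k) = 0 := fun k => contPos_null s hs _ (h0 k)
  have h2 : A ⊆ ⋃ k : ℤ, A ∩ dy 0 k := by
    intro x hx
    refine mem_iUnion.mpr ⟨⌊x⌋, hx, ?_⟩
    unfold dy
    simp only [pow_zero, div_one]
    exact ⟨Int.floor_le x, Int.lt_floor_add_one x⟩
  have h3 : μH[s] A = 0 := measure_mono_null h2 (measure_iUnion_null h1)
  have h4 : dimH A ≤ (s.toNNReal : ℝ≥0∞) := by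
    apply dimH_le_of_hausdorffMeasure_ne_top
    rw [Real.coe_toNNReal s hs.le, h3]
    exact ENNReal.zero_ne_top
  exact absurd (lt_of_lt_of_le hdim h4) (lt_irrefl _)

end Pool.Agent.Work.MP_1151e3_an
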