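import Pool.Agent.Work.MP_1151e3_an.Basic

/-!
# Item B3: the averaged energy is bounded by a double integral
-/

set_option autoImplicit false

namespace Pool.Agent.Work.MP_1151e3_an

open MeasureTheory Set Aff
open scoped ENNReal

instance B3_prob : IsProbabilityMeasure Pm := by
  constructor
  have hc : Continuous (fun t : ℝ => 6 * (t - 1) * (2 - t)) := by fun_prop
  rw [Pm, withDensity_apply _ MeasurableSet.univ, Measure.restrict_univ,
    ← ofReal_integral_eq_lintegral_ofReal]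
  · rw [integral_Icc_eq_integral_Ioc, ← intervalIntegral.integral_of_le (by norm_num)]
    have hd : ∀ t ∈ uIcc (1 : ℝ) 2, HasDerivAt (fun t : ℝ => -2 * t ^ 3 + 9 * t ^ 2 - 12 * t)
        (6 * (t - 1) * (2 - t)) t := by
      intro t _
      have h2 := (hasDerivAt_pow 2 t).const_mul 9
      have h3 := (hasDerivAt_pow 3 t).const_mul (-2)
      have h1 := (hasDerivAt_id t).const_mul 12
      refine ((h3.add h2).sub h1).congr_deriv ?_
      norm_num
      ring
    rw [intervalIntegral.integral_eq_sub_of_hasDerivAt hd (hc.intervalIntegrable _ _)]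
    norm_num
  · exact (hc.integrableOn_Icc)
  · refine (ae_restrict_iff' measurableSet_Icc).2 (ae_of_all _ fun t ht => ?_)
    have := ht.1
    have := ht.2
    simp only [Pi.zero_apply]
    have h1 : 0 ≤ t - 1 := by linarith
    have h2 : 0 ≤ 2 - t := by linarith
    positivity

lemma B3_supp_Pm : ∀ᵐ t ∂Pm, t ∈ Icc (1 : ℝ) 2 := by
  have h : Pm ≪ volume.restrict (Icc (1 : ℝ) 2) := withDensity_absolutelyContinuous _ _
  exact h.ae_le (ae_restrict_mem measurableSet_Icc)

section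

variable {k : ℝ → ℝ} {C0 : ℝ}

lemma B3_C0_nonneg (hk : Ker k C0) : 0 ≤ C0 := (abs_nonneg _).trans (hk.bdd 0)

lemma B3_prod_zero (hk : Ker k C0) (x y u : ℝ) (hu : u ∉ Icc (x - 1) (x + 1)) :
    k (u - x) * k (u - y) = 0 := by
  have : 1 ≤ |u - x| := by
    by_contra hcon
    push Not at hcon
    rw [abs_lt] at hcon
    exact hu ⟨by linarith, by linarith⟩
  rw [hk.supp _ this, zero_mul]

lemma B3_cont (hk : Ker k C0) (x y : ℝ) : Continuous (fun u => k (u - x) * k (u - y)) := by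
  have := hk.cont
  fun_prop

lemma B3_int (hk : Ker k C0) (x y : ℝ) : Integrable (fun u => k (u - x) * k (u - y)) := by
  apply (B3_cont hk x y).integrable_of_hasCompactSupport
  exact HasCompactSupport.intro isCompact_Icc (fun u hu => B3_prod_zero hk x y u hu)

lemma B3_norm (hk : Ker k C0) (x y : ℝ) : ∫ u, ‖k (u - x) * k (u - y)‖ ≤ 2 * C0 ^ 2 := by
  have h0 := B3_C0_nonneg hk
  have h1 : ∫ u, ‖k (u - x) * k (u - y)‖ ≤
      ∫ u, (Icc (x - 1) (x + 1)).indicator (fun _ => C0 ^ 2) u := by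
    apply integral_mono (B3_int hk x y).norm
    · exact (integrable_indicator_iff measurableSet_Icc).2 (by simp)
    · intro u
      by_cases hu : u ∈ Icc (x - 1) (x + 1)
      · simp only [indicator_of_mem hu, norm_mul, Real.norm_eq_abs]
        calc |k (u - x)| * |k (u - y)| ≤ C0 * C0 :=
              mul_le_mul (hk.bdd _) (hk.bdd _) (abs_nonneg _) h0
          _ = C0 ^ 2 := by ring
      · simp only [indicator_of_notMem hu, B3_prod_zero hk x y u hu, norm_zero, le_refl]
  refine h1.trans ?_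
  rw [integral_indicator_const _ measurableSet_Icc]
  simp only [Measure.real, Real.volume_Icc, smul_eq_mul]
  rw [ENNReal.toReal_ofReal (by linarith)]
  apply le_of_eq
  ring

lemma B3_Th_eq (x y : ℝ) : ∫ u, k (u - x) * k (u - y) = Th k (x - y) := by
  unfold Th
  rw [← integral_add_right_eq_self (fun u => k (u - x) * k (u - y)) x]
  congr 1
  funext u
  congr 2
  · ring
  · ring

lemma B3_Th_meas (hk : Ker k C0) : Measurable (Th k) := by
  have h : Continuous (Function.uncurry fun y x : ℝ => k x * k (x + y)) := by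
    have := hk.cont
    unfold Function.uncurry
    fun_prop
  exact (h.stronglyMeasurable.integral_prod_right (ν := volume)).measurable

lemma B3_Th_bd (hk : Ker k C0) (y : ℝ) : |Th k y| ≤ 2 * C0 ^ 2 := by
  have h := B3_Th_eq (k := k) y 0
  rw [sub_zero] at h
  rw [← h]
  exact (norm_integral_le_integral_norm _).trans (B3_norm hk y 0)

/-- Fubini in the variable `u`. -/
lemma B3_energy (hk : Ker k C0) {α : Type*} [MeasurableSpace α] (ν : Measure α)
    [IsProbabilityMeasure ν] {S : α → ℝ} (hS : Measurable S) :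
    Integrable (fun u => (∫ a, k (u - S a) ∂ν) ^ 2) ∧
      ∫ u, (∫ a, k (u - S a) ∂ν) ^ 2 = ∫ p : α × α, Th k (S p.1 - S p.2) ∂(ν.prod ν) := by
  have hkc := hk.cont
  have hmeas : Measurable (fun q : ℝ × (α × α) => k (q.1 - S q.2.1) * k (q.1 - S q.2.2)) := by
    have hm := hkc.measurable
    fun_prop
  have hint : Integrable (fun q : ℝ × (α × α) => k (q.1 - S q.2.1) * k (q.1 - S q.2.2))
      (volume.prod (ν.prod ν)) := by
    rw [integrable_prod_iff' hmeas.aestronglyMeasurable]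
    refine ⟨ae_of_all _ fun p => B3_int hk (S p.1) (S p.2), ?_⟩
    refine Integrable.mono' (integrable_const (2 * C0 ^ 2)) ?_ (ae_of_all _ fun p => ?_)
    · exact (hmeas.norm.stronglyMeasurable.integral_prod_left).aestronglyMeasurable
    · rw [Real.norm_of_nonneg (integral_nonneg fun u => norm_nonneg _)]
      exact B3_norm hk (S p.1) (S p.2)
  have hsq : ∀ u, (∫ a, k (u - S a) ∂ν) ^ 2 =
      ∫ p : α × α, k (u - S p.1) * k (u - S p.2) ∂(ν.prod ν) := by
    intro u
    rw [integral_prod_mul (fun a => k (u - S a)) (fun a => k (u - S a)), sq]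
  constructor
  · simp only [hsq]
    exact hint.integral_prod_left
  · simp only [hsq]
    rw [integral_integral_swap (f := fun (u : ℝ) (p : α × α) => k (u - S p.1) * k (u - S p.2)) hint]
    simp only [B3_Th_eq]

lemma B3_bracket (hk : Ker k C0) {B : ℝ} {G : ℝ → ℝ → ℝ} {m : ℕ} {β : ℝ → ℝ}
    (hG : Measurable (Function.uncurry G))
    (hβ : ∀ a ∈ Icc (0 : ℝ) B, ∀ b ∈ Icc (0 : ℝ) B, ∀ c : ℝ,
      |∫ t, Th k (c + (G t a - G t b)) ∂Pm| ≤ β |a - b|)
    (a b : Fin (m + 1) → ℝ) (ha : ∀ i, a i ∈ Icc (0 : ℝ) B) (hb : ∀ i, b i ∈ Icc (0 : ℝ) B) :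
    |∫ t : Fin (m + 1) → ℝ, Th k (∑ i, G (t i) (a i) - ∑ i, G (t i) (b i))
      ∂(Measure.pi fun _ : Fin (m + 1) => Pm)| ≤ β ‖a - b‖ := by
  have hTm := B3_Th_meas hk
  -- coordinate realising the norm
  obtain ⟨i, hi⟩ : ∃ i, ‖a - b‖ = |a i - b i| := by
    obtain ⟨i, _, hi⟩ := Finset.exists_mem_eq_sup' (Finset.univ_nonempty (α := Fin (m + 1)))
      (fun i => ‖(a - b) i‖)
    refine ⟨i, ?_⟩
    have h1 : ‖a - b‖ ≤ |a i - b i| := by
      rw [pi_norm_le_iff_of_nonneg (abs_nonneg _)]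
      intro j
      have := Finset.le_sup' (fun i => ‖(a - b) i‖) (Finset.mem_univ j)
      rw [hi] at this
      exact this
    exact le_antisymm h1 (norm_le_pi_norm (a - b) i)
  rw [hi]
  have hmp := measurePreserving_piFinSuccAbove (fun _ : Fin (m + 1) => Pm) i
  have hGm : ∀ x : ℝ, Measurable (fun t => G t x) := fun x => by
    exact hG.comp (measurable_id.prodMk measurable_const)
  set F : ℝ × (Fin m → ℝ) → ℝ := fun q =>
    Th k ((∑ j, (G (q.2 j) (a (i.succAbove j)) - G (q.2 j) (b (i.succAbove j)))) +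
      (G q.1 (a i) - G q.1 (b i))) with hF
  have hFm : Measurable F := by
    apply hTm.comp
    apply Measurable.add
    · apply Finset.measurable_sum
      intro j _
      exact ((hGm _).comp ((measurable_pi_apply j).comp measurable_snd)).sub
        ((hGm _).comp ((measurable_pi_apply j).comp measurable_snd))
    · exact ((hGm _).comp measurable_fst).sub ((hGm _).comp measurable_fst)
  have h1 : ∫ t : Fin (m + 1) → ℝ, Th k (∑ i, G (t i) (a i) - ∑ i, G (t i) (b i))
      ∂(Measure.pi fun _ : Fin (m + 1) => Pm) =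
      ∫ q, F q ∂(Pm.prod (Measure.pi fun _ : Fin m => Pm)) := by
    rw [← hmp.integral_comp (MeasurableEquiv.measurableEmbedding _)]
    congr 1
    funext t
    rw [hF]
    simp only [MeasurableEquiv.piFinSuccAbove_apply, Fin.insertNthEquiv_symm_apply, Fin.removeNth]
    congr 1
    rw [← Finset.sum_sub_distrib, Fin.sum_univ_succAbove _ i, add_comm]
  rw [h1]
  have hFi : Integrable F (Pm.prod (Measure.pi fun _ : Fin m => Pm)) := by
    refine Integrable.mono' (integrable_const (2 * C0 ^ 2)) hFm.aestronglyMeasurable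
      (ae_of_all _ fun q => ?_)
    exact B3_Th_bd hk _
  rw [integral_prod_symm F hFi]
  have h2 : ∀ t' : Fin m → ℝ, ‖∫ x, F (x, t') ∂Pm‖ ≤ β |a i - b i| := by
    intro t'
    exact hβ _ (ha i) _ (hb i)
      (∑ j, (G (t' j) (a (i.succAbove j)) - G (t' j) (b (i.succAbove j))))
  refine (norm_integral_le_of_norm_le_const (ae_of_all _ h2)).trans ?_
  simp

theorem claimCorr : ClaimCorr := by
  intro k C0 B G n β μ hk hn hG hβm hμ hμB hβ
  obtain ⟨m, rfl⟩ : ∃ m, n = m + 1 := ⟨n - 1, by omega⟩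
  have hTm := B3_Th_meas hk
  set ν : Measure (Fin (m + 1) → ℝ) := Measure.pi fun _ : Fin (m + 1) => μ with hν
  set P : Measure (Fin (m + 1) → ℝ) := Measure.pi fun _ : Fin (m + 1) => Pm with hP
  have hSm2 : Measurable (fun q : (Fin (m + 1) → ℝ) × (Fin (m + 1) → ℝ) =>
      ∑ i, G (q.1 i) (q.2 i)) := by
    apply Finset.measurable_sum
    intro i _
    have h0 : Measurable (fun q : (Fin (m + 1) → ℝ) × (Fin (m + 1) → ℝ) => (q.1 i, q.2 i)) :=
      ((measurable_pi_apply i).comp measurable_fst).prodMk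
        ((measurable_pi_apply i).comp measurable_snd)
    exact hG.comp h0
  have hSm : ∀ t : Fin (m + 1) → ℝ, Measurable (fun a : Fin (m + 1) → ℝ => ∑ i, G (t i) (a i)) :=
    fun t => hSm2.comp (measurable_const.prodMk measurable_id)
  have hW : Measurable (fun q : (Fin (m + 1) → ℝ) × ((Fin (m + 1) → ℝ) × (Fin (m + 1) → ℝ)) =>
      Th k (∑ i, G (q.1 i) (q.2.1 i) - ∑ i, G (q.1 i) (q.2.2 i))) := by
    apply hTm.comp
    exact (hSm2.comp (measurable_fst.prodMk (measurable_fst.comp measurable_snd))).sub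
      (hSm2.comp (measurable_fst.prodMk (measurable_snd.comp measurable_snd)))
  have hWi : Integrable (fun q : (Fin (m + 1) → ℝ) × ((Fin (m + 1) → ℝ) × (Fin (m + 1) → ℝ)) =>
      Th k (∑ i, G (q.1 i) (q.2.1 i) - ∑ i, G (q.1 i) (q.2.2 i))) (P.prod (ν.prod ν)) := by
    refine Integrable.mono' (integrable_const (2 * C0 ^ 2)) hW.aestronglyMeasurable
      (ae_of_all _ fun q => ?_)
    exact B3_Th_bd hk _
  have hinner : ∀ t : Fin (m + 1) → ℝ,
      ∫⁻ u : ℝ, ENNReal.ofReal ((en k (m + 1) G μ t u) ^ 2) =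
      ENNReal.ofReal (∫ p, Th k (∑ i, G (t i) (p.1 i) - ∑ i, G (t i) (p.2 i)) ∂(ν.prod ν)) := by
    intro t
    obtain ⟨h1, h2⟩ := B3_energy hk ν (hSm t)
    rw [← h2, ofReal_integral_eq_lintegral_ofReal h1 (ae_of_all _ fun u => sq_nonneg _)]
    rfl
  have hJnn : ∀ t : Fin (m + 1) → ℝ,
      0 ≤ ∫ p, Th k (∑ i, G (t i) (p.1 i) - ∑ i, G (t i) (p.2 i)) ∂(ν.prod ν) := by
    intro t
    obtain ⟨h1, h2⟩ := B3_energy hk ν (hSm t)
    rw [← h2]
    exact integral_nonneg fun u => sq_nonneg _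
  unfold EN
  simp only [hinner]
  rw [← hP, ← ofReal_integral_eq_lintegral_ofReal hWi.integral_prod_left (ae_of_all _ hJnn),
    integral_integral_swap (f := fun (t : Fin (m + 1) → ℝ)
      (p : (Fin (m + 1) → ℝ) × (Fin (m + 1) → ℝ)) =>
      Th k (∑ i, G (t i) (p.1 i) - ∑ i, G (t i) (p.2 i))) hWi]
  have hV : Integrable (fun p : (Fin (m + 1) → ℝ) × (Fin (m + 1) → ℝ) =>
      ∫ t, Th k (∑ i, G (t i) (p.1 i) - ∑ i, G (t i) (p.2 i)) ∂P) (ν.prod ν) :=
    hWi.integral_prod_right
  have h3 : ENNReal.ofReal (∫ p, ∫ t, Th k (∑ i, G (t i) (p.1 i) - ∑ i, G (t i) (p.2 i)) ∂P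
      ∂(ν.prod ν)) ≤ ∫⁻ p, ENNReal.ofReal
        |∫ t, Th k (∑ i, G (t i) (p.1 i) - ∑ i, G (t i) (p.2 i)) ∂P| ∂(ν.prod ν) := by
    have h4 := ofReal_integral_eq_lintegral_ofReal hV.norm (ae_of_all _ fun _ => norm_nonneg _)
    refine le_trans ?_ (le_of_eq h4)
    exact ENNReal.ofReal_le_ofReal (integral_mono hV hV.norm fun p => le_abs_self _)
  refine h3.trans ?_
  have hVm : AEMeasurable (fun p : (Fin (m + 1) → ℝ) × (Fin (m + 1) → ℝ) => ENNReal.ofReal
        |∫ t, Th k (∑ i, G (t i) (p.1 i) - ∑ i, G (t i) (p.2 i)) ∂P|) (ν.prod ν) :=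
    hV.norm.aestronglyMeasurable.aemeasurable.ennreal_ofReal
  rw [lintegral_prod _ hVm]
  have hae : ∀ᵐ a ∂ν, ∀ i, a i ∈ Icc (0 : ℝ) B := by
    rw [ae_all_iff]
    intro i
    have h : ∀ᵐ x ∂μ, x ∈ Icc (0 : ℝ) B := by
      rw [ae_iff]
      exact hμB
    exact (Measure.quasiMeasurePreserving_eval (fun _ : Fin (m + 1) => μ) i).ae h
  refine lintegral_mono_ae ?_
  filter_upwards [hae] with a ha
  refine lintegral_mono_ae ?_
  filter_upwards [hae] with b hb
  exact ENNReal.ofReal_le_ofReal (B3_bracket hk hG hβ a b ha hb)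

end

end Pool.Agent.Work.MP_1151e3_an
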