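import Pool.Agent.Work.MP_1151e3_an.Basic

/-!
# C5. Uniform convergence gives an interval in the image
-/

set_option autoImplicit false

namespace Pool.Agent.Work.MP_1151e3_an

open MeasureTheory Set Aff Filter Topology
open scoped ENNReal

/-- The sum of the logarithms. -/
noncomputable def densS {n : ℕ} (t : Fin n → ℝ) (a : Fin n → ℝ) : ℝ := ∑ i, logG (t i) (a i)

lemma dens_measS {n : ℕ} (t : Fin n → ℝ) : Measurable (densS t) := by
  unfold densS logG
  refine Finset.measurable_sum _ fun i _ => ?_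
  exact Real.measurable_log.comp (measurable_const.add (measurable_pi_apply i))

lemma dens_bdd {k : ℝ → ℝ} (hk : Continuous k) (h0 : ∀ x, 1 ≤ |x| → k x = 0) :
    ∃ M : ℝ, 0 ≤ M ∧ ∀ x, |k x| ≤ M := by
  obtain ⟨M, hM⟩ := (isCompact_Icc (a := (-1 : ℝ)) (b := 1)).exists_bound_of_continuousOn
    hk.continuousOn
  refine ⟨max M 0, le_max_right _ _, fun x => ?_⟩
  by_cases hx : 1 ≤ |x|
  · rw [h0 x hx]; simp
  · push Not at hx
    have := hM x (by rw [abs_lt] at hx; exact ⟨hx.1.le, hx.2.le⟩)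
    rw [Real.norm_eq_abs] at this
    exact this.trans (le_max_left _ _)

lemma dens_int {n : ℕ} (μ : Measure ℝ) [IsProbabilityMeasure μ] (t : Fin n → ℝ) {k : ℝ → ℝ}
    (hk : Continuous k) (h0 : ∀ x, 1 ≤ |x| → k x = 0) (R u : ℝ) :
    Integrable (fun a : Fin n → ℝ => sc R k (u - densS t a)) (Measure.pi fun _ : Fin n => μ) := by
  obtain ⟨M, hM0, hM⟩ := dens_bdd hk h0
  refine Integrable.of_bound (C := |R| * M) ?_ (Eventually.of_forall fun a => ?_)
  · refine Measurable.aestronglyMeasurable ?_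
    unfold sc
    exact (hk.measurable.comp ((measurable_const.sub (dens_measS t)).const_mul R)).const_mul R
  · unfold sc
    rw [Real.norm_eq_abs, abs_mul]
    exact mul_le_mul_of_nonneg_left (hM _) (abs_nonneg _)

lemma dens_cont {n : ℕ} (μ : Measure ℝ) [IsProbabilityMeasure μ] (t : Fin n → ℝ) {k : ℝ → ℝ}
    (hk : Continuous k) (h0 : ∀ x, 1 ≤ |x| → k x = 0) (R : ℝ) :
    Continuous (fun u => en (sc R k) n logG μ t u) := by
  obtain ⟨M, hM0, hM⟩ := dens_bdd hk h0
  unfold en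
  refine continuous_of_dominated (bound := fun _ => |R| * M) (fun u => ?_) (fun u => ?_) ?_ ?_
  · exact (dens_int μ t hk h0 R u).aestronglyMeasurable
  · refine Eventually.of_forall fun a => ?_
    unfold sc
    rw [Real.norm_eq_abs, abs_mul]
    exact mul_le_mul_of_nonneg_left (hM _) (abs_nonneg _)
  · exact integrable_const _
  · refine Eventually.of_forall fun a => ?_
    unfold sc
    fun_prop

lemma dens_ae {n : ℕ} (μ : Measure ℝ) [IsProbabilityMeasure μ] {Kc : Set ℝ} (h : μ Kcᶜ = 0) :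
    ∀ᵐ a : Fin n → ℝ ∂(Measure.pi fun _ : Fin n => μ), ∀ i, a i ∈ Kc := by
  rw [ae_all_iff]
  intro i
  have h1 : ∀ᵐ x ∂μ, x ∈ Kc := by
    rw [ae_iff]
    exact h
  exact (Measure.quasiMeasurePreserving_eval (μ := fun _ : Fin n => μ) i).ae h1

lemma dens_S_mem {n : ℕ} (t a : Fin n → ℝ) (ht : ∀ i, t i ∈ Icc (1 : ℝ) 2)
    (ha : ∀ i, a i ∈ Icc (0 : ℝ) 1) : 0 ≤ densS t a ∧ densS t a ≤ 2 * n := by
  unfold densS logG
  constructor
  · refine Finset.sum_nonneg fun i _ => Real.log_nonneg ?_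
    linarith [(ht i).1, (ha i).1]
  · have h1 : ∑ i, Real.log (t i + a i) ≤ ∑ _i : Fin n, (2 : ℝ) := by
      refine Finset.sum_le_sum fun i _ => ?_
      have h2 := Real.log_le_sub_one_of_pos (x := t i + a i) (by linarith [(ht i).1, (ha i).1])
      linarith [(ht i).2, (ha i).2]
    refine h1.trans (le_of_eq ?_)
    simp
    ring

lemma dens_sc_zero {k : ℝ → ℝ} (h0 : ∀ x, 1 ≤ |x| → k x = 0) {R : ℝ} (hR : 0 < R) {x : ℝ}
    (hx : sc R k x ≠ 0) : |x| < 1 / R := by
  by_contra hcon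
  push Not at hcon
  apply hx
  unfold sc
  rw [h0, mul_zero]
  rw [abs_mul, abs_of_pos hR]
  rw [div_le_iff₀ hR] at hcon
  linarith

/-- Total mass one. -/
lemma dens_mass (hph : Continuous ph ∧ (∀ x, 0 ≤ ph x) ∧ (∀ x, 1 ≤ |x| → ph x = 0) ∧ ∫ x, ph x = 1)
    {n : ℕ} (μ : Measure ℝ) [IsProbabilityMeasure μ] (t : Fin n → ℝ) {R : ℝ} (hR : 1 ≤ R) :
    ∫⁻ u, ENNReal.ofReal (en (sc R ph) n logG μ t u) = 1 := by
  have hR0 : 0 < R := by linarith
  obtain ⟨hc, hn, h0, h1⟩ := hph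
  have hscn : ∀ x, 0 ≤ sc R ph x := fun x => mul_nonneg hR0.le (hn _)
  have e1 : ∀ u, ENNReal.ofReal (en (sc R ph) n logG μ t u) =
      ∫⁻ a : Fin n → ℝ, ENNReal.ofReal (sc R ph (u - densS t a))
        ∂(Measure.pi fun _ : Fin n => μ) := by
    intro u
    exact ofReal_integral_eq_lintegral_ofReal (dens_int μ t hc h0 R u)
      (Eventually.of_forall fun a => hscn _)
  simp_rw [e1]
  have hm : Measurable (fun p : ℝ × (Fin n → ℝ) => ENNReal.ofReal (sc R ph (p.1 - densS t p.2))) := by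
    refine ENNReal.measurable_ofReal.comp ?_
    unfold sc
    exact (hc.measurable.comp ((measurable_fst.sub ((dens_measS t).comp
      measurable_snd)).const_mul R)).const_mul R
  rw [lintegral_lintegral_swap hm.aemeasurable]
  have e2 : ∀ a : Fin n → ℝ, ∫⁻ u, ENNReal.ofReal (sc R ph (u - densS t a)) = 1 := by
    intro a
    have e3 : ∫⁻ u, ENNReal.ofReal (sc R ph (u - densS t a)) = ∫⁻ u, ENNReal.ofReal (sc R ph u) :=
      lintegral_sub_right_eq_self (fun u => ENNReal.ofReal (sc R ph u)) (densS t a)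
    rw [e3]
    have hcs : Continuous (sc R ph) := by unfold sc; fun_prop
    have hsupp : HasCompactSupport (sc R ph) := by
      refine HasCompactSupport.intro (isCompact_Icc (a := (-1 : ℝ)) (b := 1)) fun x hx => ?_
      by_contra hne
      have h5 := dens_sc_zero h0 hR0 hne
      have h6 : 1 / R ≤ 1 := by rw [div_le_one hR0]; exact hR
      have h7 := abs_lt.1 (h5.trans_le h6)
      exact hx ⟨h7.1.le, h7.2.le⟩
    have hint : Integrable (sc R ph) := hcs.integrable_of_hasCompactSupport hsupp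
    rw [← ofReal_integral_eq_lintegral_ofReal hint (Eventually.of_forall hscn)]
    have e4 : ∫ x, sc R ph x = 1 := by
      unfold sc
      rw [integral_const_mul, Measure.integral_comp_mul_left (fun x => ph x) R, h1, abs_of_pos
        (inv_pos.2 hR0), smul_eq_mul, mul_one, mul_inv_cancel₀ hR0.ne']
    rw [e4, ENNReal.ofReal_one]
  simp_rw [e2]
  simp

/-- A point with a large value. -/
lemma dens_point (hph : Continuous ph ∧ (∀ x, 0 ≤ ph x) ∧ (∀ x, 1 ≤ |x| → ph x = 0) ∧ ∫ x, ph x = 1)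
    {n : ℕ} (μ : Measure ℝ) [IsProbabilityMeasure μ] (hμ : μ (Icc 0 1)ᶜ = 0) (t : Fin n → ℝ)
    (ht : ∀ i, t i ∈ Icc (1 : ℝ) 2) {R : ℝ} (hR : 1 ≤ R) :
    ∃ u, 1 / (2 * n + 3 : ℝ) ≤ en (sc R ph) n logG μ t u := by
  have hR0 : 0 < R := by linarith
  by_contra hcon
  push Not at hcon
  have hmass := dens_mass hph μ t hR
  obtain ⟨hc, hn, h0, h1⟩ := hph
  have hz : ∀ u, u ∉ Icc (-1 : ℝ) (2 * n + 1) → en (sc R ph) n logG μ t u = 0 := by
    intro u hu
    unfold en
    rw [integral_eq_zero_of_ae]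
    filter_upwards [dens_ae (n := n) μ hμ] with a ha
    by_contra hne
    have h2 := dens_sc_zero h0 hR0 hne
    have h6 : 1 / R ≤ 1 := by rw [div_le_one hR0]; exact hR
    obtain ⟨h7, h8⟩ := abs_lt.1 (h2.trans_le h6)
    obtain ⟨h9, h10⟩ := dens_S_mem t a ht ha
    unfold densS at h9 h10
    exact hu ⟨by linarith, by linarith⟩
  have hle : ∫⁻ u, ENNReal.ofReal (en (sc R ph) n logG μ t u) ≤
      ∫⁻ u, (Icc (-1 : ℝ) (2 * n + 1)).indicator
        (fun _ => ENNReal.ofReal (1 / (2 * n + 3 : ℝ))) u := by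
    refine lintegral_mono fun u => ?_
    by_cases hu : u ∈ Icc (-1 : ℝ) (2 * n + 1)
    · rw [indicator_of_mem hu]
      exact ENNReal.ofReal_le_ofReal (hcon u).le
    · rw [hz u hu]; simp
  rw [hmass, lintegral_indicator_const measurableSet_Icc, Real.volume_Icc,
    ← ENNReal.ofReal_mul (by positivity)] at hle
  have h3 : (1 : ℝ) ≤ 1 / (2 * n + 3 : ℝ) * (2 * n + 1 - -1) := by
    rw [← ENNReal.ofReal_one] at hle
    refine (ENNReal.ofReal_le_ofReal_iff ?_).1 hle
    have : (0 : ℝ) ≤ 2 * n + 1 - -1 := by have : (0 : ℝ) ≤ n := Nat.cast_nonneg n; linarith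
    positivity
  rw [div_mul_eq_mul_div, one_mul, le_div_iff₀ (by positivity)] at h3
  linarith

/-- Successive differences. -/
lemma dens_diff (hph : Continuous ph ∧ (∀ x, 0 ≤ ph x) ∧ (∀ x, 1 ≤ |x| → ph x = 0) ∧ ∫ x, ph x = 1)
    (hps : ∀ R x : ℝ, 0 < R → sc R ps x = sc (2 * R) ph x - sc R ph x)
    {n : ℕ} (μ : Measure ℝ) [IsProbabilityMeasure μ] (t : Fin n → ℝ) (j : ℕ) (u : ℝ) :
    en (sc (2 ^ (j + 1)) ph) n logG μ t u =
      en (sc (2 ^ j) ph) n logG μ t u + en (sc (2 ^ j) ps) n logG μ t u := by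
  obtain ⟨hc, hn, h0, h1⟩ := hph
  have e1 : ∀ x, sc ((2 : ℝ) ^ j) ps x = sc (2 ^ (j + 1)) ph x - sc (2 ^ j) ph x := by
    intro x
    rw [hps _ _ (by positivity), pow_succ, mul_comm ((2 : ℝ) ^ j) 2]
  unfold en
  have h2 := dens_int μ t hc h0 ((2 : ℝ) ^ j) u
  have h3 := dens_int μ t hc h0 ((2 : ℝ) ^ (j + 1)) u
  unfold densS at h2 h3
  rw [← integral_add h2]
  · refine integral_congr_ae (Eventually.of_forall fun a => ?_)
    simp only [e1]
    ring
  · refine (h3.sub h2).congr (Eventually.of_forall fun a => ?_)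
    simp only [Pi.sub_apply, e1]

lemma dens_geom {F : ℕ → ℝ} {c r : ℝ} {j1 : ℕ} (hr : r < 1)
    (h : ∀ j, j1 ≤ j → |F (j + 1) - F j| ≤ c * r ^ j) (j : ℕ) (hj : j1 ≤ j) :
    |F j - F j1| ≤ c * r ^ j1 / (1 - r) - c * r ^ j / (1 - r) := by
  have h1r : 0 < 1 - r := by linarith
  induction j, hj using Nat.le_induction with
  | base => simp
  | succ m hm ih =>
    have h2 := h m hm
    have h3 : |F (m + 1) - F j1| ≤ |F (m + 1) - F m| + |F m - F j1| := abs_sub_le _ _ _
    refine h3.trans ((add_le_add h2 ih).trans (le_of_eq ?_))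
    field_simp
    ring

theorem claimDens (hker : ClaimKer) : ClaimDens := by
  obtain ⟨_, _, _, _, _, _, _, hph, _, _, _, _, _, hps, _⟩ := hker
  intro n μ Kc t C η j0 hn hμ hKc hKc1 hμK ht hη hC
  have hμ1 : μ (Icc 0 1)ᶜ = 0 := measure_mono_null (compl_subset_compl.2 hKc1) hμK
  set F : ℕ → ℝ → ℝ := fun j u => en (sc (2 ^ j) ph) n logG μ t u with hF
  set r : ℝ := (2 : ℝ) ^ (-η) with hr
  have hr0 : 0 < r := by positivity
  have hr1 : r < 1 := by
    rw [hr]
    exact Real.rpow_lt_one_of_one_lt_of_neg (by norm_num) (by linarith)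
  set C' : ℝ := max C 0 with hC'
  have hC'0 : 0 ≤ C' := le_max_right _ _
  have hd : ∀ j, j0 ≤ j → ∀ u, |F (j + 1) u - F j u| ≤ C' * r ^ j := by
    intro j hj u
    have e1 : F (j + 1) u - F j u = en (sc (2 ^ j) ps) n logG μ t u := by
      simp only [hF]
      rw [dens_diff hph hps]
      ring
    rw [e1]
    refine (hC j hj u).trans ?_
    have e2 : (2 : ℝ) ^ (-(η * j)) = r ^ j := by
      rw [hr, ← Real.rpow_natCast, ← Real.rpow_mul (by norm_num)]
      congr 1
      ring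
    rw [e2]
    exact mul_le_mul_of_nonneg_right (le_max_left _ _) (by positivity)
  -- choose j1
  set c0 : ℝ := 1 / (2 * n + 3 : ℝ) with hc0
  have hc0p : 0 < c0 := by positivity
  have hlim : Tendsto (fun j : ℕ => C' * r ^ j / (1 - r)) atTop (𝓝 0) := by
    have := (tendsto_pow_atTop_nhds_zero_of_lt_one hr0.le hr1).const_mul C'
    have h2 := this.div_const (1 - r)
    simpa using h2
  obtain ⟨j1, hj1, hj1'⟩ := ((hlim.eventually (gt_mem_nhds (show (0 : ℝ) < c0 / 4 by
    positivity))).and (eventually_ge_atTop j0)).exists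
  have hsmall : ∀ j, j1 ≤ j → ∀ u, |F j u - F j1 u| ≤ c0 / 4 := by
    intro j hj u
    have h1 := dens_geom (F := fun j => F j u) hr1 (fun i hi => hd i (hj1'.trans hi) u) j hj
    have h2 : 0 ≤ C' * r ^ j / (1 - r) := div_nonneg (by positivity) (by linarith)
    linarith
  obtain ⟨u0, hu0⟩ := dens_point hph μ hμ1 t ht (R := 2 ^ j1) (one_le_pow₀ (by norm_num))
  have hcontF : Continuous (F j1) := dens_cont μ t hph.1 hph.2.2.1 _
  have hopen : IsOpen {u | c0 / 2 < F j1 u} := isOpen_lt continuous_const hcontF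
  have hu0' : u0 ∈ {u | c0 / 2 < F j1 u} := by
    show c0 / 2 < F j1 u0
    have : c0 ≤ F j1 u0 := hu0
    linarith
  obtain ⟨ε, hε, hball⟩ := Metric.isOpen_iff.1 hopen u0 hu0'
  have hpos : ∀ j, j1 ≤ j → ∀ u ∈ Ioo (u0 - ε) (u0 + ε), 0 < F j u := by
    intro j hj u hu
    have h1 : u ∈ Metric.ball u0 ε := by
      rw [Real.ball_eq_Ioo]; exact hu
    have h2 : c0 / 2 < F j1 u := hball h1
    have h3 := abs_le.1 (hsmall j hj u)
    linarith [h3.1]
  -- compact image
  have hcomp : IsCompact ((densS t) '' (Set.pi Set.univ fun _ : Fin n => Kc)) := by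
    refine (isCompact_univ_pi fun _ => hKc).image_of_continuousOn ?_
    unfold densS logG
    refine continuousOn_finsetSum _ fun i _ => ?_
    refine ContinuousOn.log (continuousOn_const.add (continuous_apply i).continuousOn) ?_
    intro a ha
    have h1 := hKc1 (ha i (mem_univ i))
    have h2 := (ht i).1
    have h3 := h1.1
    linarith
  have hmem : ∀ u ∈ Ioo (u0 - ε) (u0 + ε),
      u ∈ (densS t) '' (Set.pi Set.univ fun _ : Fin n => Kc) := by
    intro u hu
    rw [← hcomp.isClosed.closure_eq, Metric.mem_closure_iff]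
    intro e he
    obtain ⟨j, hj⟩ : ∃ j : ℕ, j1 ≤ j ∧ 1 / (2 : ℝ) ^ j < e := by
      obtain ⟨m, hm⟩ := exists_pow_lt_of_lt_one he (show (1 / 2 : ℝ) < 1 by norm_num)
      refine ⟨max j1 m, le_max_left _ _, ?_⟩
      have h1 : 1 / (2 : ℝ) ^ (max j1 m) ≤ (1 / 2 : ℝ) ^ m := by
        rw [one_div_pow]
        exact one_div_le_one_div_of_le (by positivity)
          (pow_le_pow_right₀ (by norm_num) (le_max_right _ _))
      linarith
    have hFp := hpos j hj.1 u hu
    have hex : ∃ a : Fin n → ℝ, (∀ i, a i ∈ Kc) ∧ sc (2 ^ j) ph (u - densS t a) ≠ 0 := by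
      by_contra hno
      push Not at hno
      have : F j u = 0 := by
        simp only [hF]
        unfold en
        rw [integral_eq_zero_of_ae]
        filter_upwards [dens_ae (n := n) μ hμK] with a ha
        exact hno a ha
      linarith
    obtain ⟨a, ha, hne⟩ := hex
    refine ⟨densS t a, mem_image_of_mem _ (fun i _ => ha i), ?_⟩
    rw [Real.dist_eq]
    exact (dens_sc_zero hph.2.2.1 (by positivity) hne).trans hj.2
  refine ⟨Real.exp (u0 - ε), Real.exp (u0 + ε), Real.exp_lt_exp.2 (by linarith), ?_⟩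
  intro x hx
  have hx0 : 0 < x := (Real.exp_pos _).trans hx.1
  have hlog : Real.log x ∈ Ioo (u0 - ε) (u0 + ε) :=
    ⟨(Real.lt_log_iff_exp_lt hx0).2 hx.1, (Real.log_lt_iff_lt_exp hx0).2 hx.2⟩
  obtain ⟨a, ha, hSa⟩ := hmem _ hlog
  refine ⟨a, fun i => ha i (mem_univ i), ?_⟩
  have hp : ∀ i, 0 < t i + a i := by
    intro i
    have h1 := (hKc1 (ha i (mem_univ i))).1
    have h2 := (ht i).1
    linarith
  rw [← Real.exp_log hx0, ← hSa]
  unfold densS logG
  rw [Real.exp_sum]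
  exact Finset.prod_congr rfl fun i _ => Real.exp_log (hp i)

end Pool.Agent.Work.MP_1151e3_an
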