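import Pool.Agent.Work.MP_1151e3_an.Basic

/-!
# Open intervals in shifted products: the dyadic estimates
-/

set_option autoImplicit false

namespace Pool.Agent.Work.MP_1151e3_an

open MeasureTheory Set
open scoped ENNReal

/-- Pointwise dyadic bound. -/
lemma dyad_pt (j Q : ℕ) {R d : ℝ} (hR : 1 ≤ R) (hd : 0 ≤ d) :
    R / (1 + (R * d) ^ j) ≤ ∑ q ∈ Finset.range (Q + 1),
      (if R * d ≤ 2 ^ q then 2 ^ j * R / (2 ^ j) ^ q else 0) + R / (2 ^ j) ^ Q := by
  have hR0 : 0 < R := by linarith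
  have hRd : 0 ≤ R * d := by positivity
  have hterm : ∀ q ∈ Finset.range (Q + 1),
      0 ≤ (if R * d ≤ 2 ^ q then 2 ^ j * R / (2 ^ j) ^ q else 0) := by
    intro q _
    split_ifs
    · positivity
    · exact le_rfl
  by_cases hex : ∃ q, R * d ≤ 2 ^ q ∧ q ≤ Q
  · classical
    set q := Nat.find hex with hq
    obtain ⟨h1, h2⟩ := Nat.find_spec hex
    rw [← hq] at h1 h2
    have h3 : R / (1 + (R * d) ^ j) ≤ 2 ^ j * R / (2 ^ j) ^ q := by
      rcases Nat.eq_zero_or_pos q with h0 | h0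
      · rw [h0, pow_zero, div_one]
        have : (1 : ℝ) ≤ 2 ^ j := one_le_pow₀ (by norm_num)
        calc R / (1 + (R * d) ^ j) ≤ R := div_le_self hR0.le (by have := pow_nonneg hRd j; linarith)
          _ ≤ 2 ^ j * R := by nlinarith
      · have h4 : (2 : ℝ) ^ (q - 1) < R * d := by
          by_contra hcon
          rw [not_lt] at hcon
          exact Nat.find_min hex (m := q - 1) (by omega) ⟨hcon, by omega⟩
        have h5 : ((2 : ℝ) ^ (q - 1)) ^ j ≤ (R * d) ^ j := pow_le_pow_left₀ (by positivity) h4.le j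
        have h6 : 2 ^ j * R / (2 ^ j) ^ q = R / ((2 : ℝ) ^ (q - 1)) ^ j := by
          have e : ((2 : ℝ) ^ j) ^ q = 2 ^ j * ((2 : ℝ) ^ (q - 1)) ^ j := by
            rw [← pow_mul, ← pow_mul, ← pow_add]
            congr 1
            obtain ⟨k, hk⟩ : ∃ k, q = k + 1 := ⟨q - 1, by omega⟩
            rw [hk]
            simp only [Nat.add_sub_cancel]
            ring
          rw [e]
          field_simp
        rw [h6]
        exact div_le_div_of_nonneg_left hR0.le (by positivity) (by linarith)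
    have h4 : 2 ^ j * R / (2 ^ j) ^ q ≤ ∑ q ∈ Finset.range (Q + 1),
        (if R * d ≤ 2 ^ q then 2 ^ j * R / (2 ^ j) ^ q else 0) := by
      have h5 := Finset.single_le_sum hterm (Finset.mem_range.mpr (Nat.lt_succ_of_le h2))
      rwa [if_pos h1] at h5
    have h5 : 0 ≤ R / (2 ^ j) ^ Q := by positivity
    linarith
  · have h1 : (2 : ℝ) ^ Q < R * d := by
      by_contra hcon
      rw [not_lt] at hcon
      exact hex ⟨Q, hcon, le_rfl⟩
    have h2 : R / (1 + (R * d) ^ j) ≤ R / (2 ^ j) ^ Q := by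
      refine div_le_div_of_nonneg_left hR0.le (by positivity) ?_
      have h3 : ((2 : ℝ) ^ Q) ^ j ≤ (R * d) ^ j := pow_le_pow_left₀ (by positivity) h1.le j
      rw [← pow_mul, mul_comm Q j, pow_mul] at h3
      linarith
    have h3 := Finset.sum_nonneg hterm
    linarith

/-- Product measure of a ball of the sup norm. -/
lemma dyad_ball {n : ℕ} {μ : Measure ℝ} [IsProbabilityMeasure μ] {K s R r : ℝ}
    (h : Fro μ K s (1 / R)) (hr : 1 / R ≤ r) (hr0 : 0 ≤ r) (a : Fin n → ℝ) :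
    (Measure.pi fun _ : Fin n => μ) (Metric.closedBall a r) ≤ ENNReal.ofReal ((K * r ^ s) ^ n) := by
  have h0 : 0 ≤ K * r ^ s := measureReal_nonneg.trans (h 0 r hr)
  rw [Measure.pi_closedBall _ _ hr0, ENNReal.ofReal_pow h0]
  calc ∏ i : Fin n, μ (Metric.closedBall (a i) r) ≤ ∏ _i : Fin n, ENNReal.ofReal (K * r ^ s) := by
        refine Finset.prod_le_prod' fun i _ => ?_
        rw [← ENNReal.ofReal_toReal (measure_ne_top μ (Metric.closedBall (a i) r))]
        exact ENNReal.ofReal_le_ofReal (h (a i) r hr)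
    _ = _ := by simp

/-- The inner integral. -/
lemma dyad_inner {n : ℕ} {μ : Measure ℝ} [IsProbabilityMeasure μ] {K s R : ℝ} (j Q : ℕ)
    (h : Fro μ K s (1 / R)) (hK : 1 ≤ K) (hR : 1 ≤ R) (a : Fin n → ℝ) :
    ∫⁻ b : Fin n → ℝ, ENNReal.ofReal (R / (1 + (R * ‖a - b‖) ^ j)) ∂(Measure.pi fun _ : Fin n => μ) ≤
      ENNReal.ofReal (∑ q ∈ Finset.range (Q + 1),
        (2 ^ j * R / (2 ^ j) ^ q) * (K * (2 ^ q / R) ^ s) ^ n + R / (2 ^ j) ^ Q) := by
  have hR0 : 0 < R := by linarith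
  have hK0 : 0 < K := by linarith
  have hcq : ∀ q : ℕ, (0 : ℝ) ≤ 2 ^ j * R / (2 ^ j) ^ q := fun q => by positivity
  have hrem : (0 : ℝ) ≤ R / (2 ^ j) ^ Q := by positivity
  calc ∫⁻ b : Fin n → ℝ, ENNReal.ofReal (R / (1 + (R * ‖a - b‖) ^ j))
        ∂(Measure.pi fun _ : Fin n => μ)
      ≤ ∫⁻ b : Fin n → ℝ, (∑ q ∈ Finset.range (Q + 1), (Metric.closedBall a (2 ^ q / R)).indicator
          (fun _ => ENNReal.ofReal (2 ^ j * R / (2 ^ j) ^ q)) b + ENNReal.ofReal (R / (2 ^ j) ^ Q))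
          ∂(Measure.pi fun _ : Fin n => μ) := by
        refine lintegral_mono fun b => ?_
        have h1 := dyad_pt j Q hR (norm_nonneg (a - b))
        refine (ENNReal.ofReal_le_ofReal h1).trans ?_
        rw [ENNReal.ofReal_add (Finset.sum_nonneg fun q _ => ?_) hrem]
        · refine add_le_add ?_ le_rfl
          rw [ENNReal.ofReal_sum_of_nonneg fun q _ => ?_]
          · refine Finset.sum_le_sum fun q _ => ?_
            by_cases hq : R * ‖a - b‖ ≤ 2 ^ q
            · have hb : b ∈ Metric.closedBall a (2 ^ q / R) := by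
                rw [Metric.mem_closedBall, dist_comm, dist_eq_norm, le_div_iff₀ hR0]
                linarith
              rw [if_pos hq, indicator_of_mem hb]
            · rw [if_neg hq, ENNReal.ofReal_zero]
              exact zero_le
          · split_ifs
            · exact hcq q
            · exact le_rfl
        · split_ifs
          · exact hcq q
          · exact le_rfl
    _ = (∑ q ∈ Finset.range (Q + 1), ENNReal.ofReal (2 ^ j * R / (2 ^ j) ^ q) *
          (Measure.pi fun _ : Fin n => μ) (Metric.closedBall a (2 ^ q / R)))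
          + ENNReal.ofReal (R / (2 ^ j) ^ Q) := by
        rw [lintegral_add_right _ measurable_const, lintegral_finsetSum]
        · simp only [lintegral_const, measure_univ, mul_one]
          congr 1
          refine Finset.sum_congr rfl fun q _ => ?_
          rw [lintegral_indicator Metric.isClosed_closedBall.measurableSet, lintegral_const,
            Measure.restrict_apply_univ]
        · intro q _
          exact measurable_const.indicator Metric.isClosed_closedBall.measurableSet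
    _ ≤ (∑ q ∈ Finset.range (Q + 1), ENNReal.ofReal ((2 ^ j * R / (2 ^ j) ^ q) *
          (K * (2 ^ q / R) ^ s) ^ n)) + ENNReal.ofReal (R / (2 ^ j) ^ Q) := by
        refine add_le_add (Finset.sum_le_sum fun q _ => ?_) le_rfl
        rw [ENNReal.ofReal_mul (hcq q)]
        refine mul_le_mul_right ?_ _
        refine dyad_ball h ?_ (by positivity) a
        exact div_le_div_of_nonneg_right (one_le_pow₀ (by norm_num)) hR0.le
    _ = _ := by
        rw [ENNReal.ofReal_add (Finset.sum_nonneg fun q _ => ?_) hrem,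
          ENNReal.ofReal_sum_of_nonneg fun q _ => ?_]
        · exact mul_nonneg (hcq q) (by positivity)
        · exact mul_nonneg (hcq q) (by positivity)

/-- The sum of the dyadic terms as a geometric sum. -/
lemma dyad_sum (j Q n : ℕ) {K s R : ℝ} (hR : 1 ≤ R) :
    ∑ q ∈ Finset.range (Q + 1), (2 ^ j * R / (2 ^ j) ^ q) * (K * (2 ^ q / R) ^ s) ^ n
      = 2 ^ j * K ^ n * R ^ (1 - n * s) * ∑ q ∈ Finset.range (Q + 1), ((2 : ℝ) ^ (n * s - j)) ^ q := by
  have hR0 : 0 < R := by linarith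
  rw [Finset.mul_sum]
  refine Finset.sum_congr rfl fun q _ => ?_
  have e1 : ((2 : ℝ) ^ q / R) ^ s = (2 : ℝ) ^ (q * s) * R ^ (-s) := by
    rw [Real.div_rpow (by positivity) hR0.le, Real.rpow_neg hR0.le, div_eq_mul_inv,
      ← Real.rpow_natCast_mul (by norm_num)]
  have e2 : (((2 : ℝ) ^ q / R) ^ s) ^ n = (2 : ℝ) ^ (q * s * n) * R ^ (-(n * s)) := by
    rw [e1, mul_pow, ← Real.rpow_mul_natCast (by norm_num), ← Real.rpow_mul_natCast hR0.le]
    congr 2
    ring
  have e3 : ((2 : ℝ) ^ (n * s - j)) ^ q = (2 : ℝ) ^ (q * s * n) / (2 ^ j) ^ q := by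
    rw [← Real.rpow_mul_natCast (by norm_num), eq_div_iff (by positivity), ← pow_mul,
      ← Real.rpow_natCast, ← Real.rpow_add (by norm_num)]
    congr 1
    push_cast
    ring
  have e4 : R ^ (1 - n * s) = R * R ^ (-(n * s)) := by
    rw [sub_eq_add_neg, Real.rpow_add hR0, Real.rpow_one]
  rw [mul_pow, e2, e3, e4]
  ring

lemma dyad_geom_neg (Q : ℕ) {θ : ℝ} (hθ : θ < 0) :
    ∑ q ∈ Finset.range (Q + 1), ((2 : ℝ) ^ θ) ^ q ≤ 1 / |1 - (2 : ℝ) ^ θ| := by
  have h1 : (2 : ℝ) ^ θ < 1 := Real.rpow_lt_one_of_one_lt_of_neg (by norm_num) hθ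
  have h0 : (0 : ℝ) < 2 ^ θ := by positivity
  rw [abs_of_pos (by linarith), geom_sum_eq h1.ne, ← neg_div_neg_eq, neg_sub, neg_sub]
  refine div_le_div_of_nonneg_right ?_ (by linarith)
  have := pow_nonneg h0.le (Q + 1)
  linarith

lemma dyad_geom_pos (Q : ℕ) {θ R : ℝ} (hθ : 0 < θ) (hQ : (2 : ℝ) ^ Q ≤ R) :
    ∑ q ∈ Finset.range (Q + 1), ((2 : ℝ) ^ θ) ^ q ≤ R ^ θ * (1 / |1 - (2 : ℝ) ^ (-θ)|) := by
  have h2Q : (0 : ℝ) < 2 ^ Q := by positivity
  have hR0 : 0 < R := lt_of_lt_of_le h2Q hQ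
  have e : ∑ q ∈ Finset.range (Q + 1), ((2 : ℝ) ^ θ) ^ q
      = ((2 : ℝ) ^ Q) ^ θ * ∑ q ∈ Finset.range (Q + 1), ((2 : ℝ) ^ (-θ)) ^ q := by
    rw [← Finset.sum_range_reflect, Finset.mul_sum]
    refine Finset.sum_congr rfl fun q hq => ?_
    have hq' : q ≤ Q := Nat.lt_succ_iff.mp (Finset.mem_range.mp hq)
    have e0 : Q + 1 - 1 - q = Q - q := by omega
    rw [e0, ← Real.rpow_mul_natCast (by norm_num), ← Real.rpow_natCast_mul (by norm_num),
      ← Real.rpow_mul_natCast (by norm_num), ← Real.rpow_add (by norm_num), Nat.cast_sub hq']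
    congr 1
    ring
  rw [e]
  refine mul_le_mul (Real.rpow_le_rpow h2Q.le hQ hθ.le) (dyad_geom_neg Q (by linarith)) ?_
    (by positivity)
  exact Finset.sum_nonneg fun q _ => by positivity

theorem claimDyad : ClaimDyad := by
  intro n s hn hs
  set Ca : ℝ := 1 / |1 - (2 : ℝ) ^ ((n : ℝ) * s - 2)| with hCa
  set Cb : ℝ := 1 / |1 - (2 : ℝ) ^ (-((n : ℝ) * s - 2))| with hCb
  set Cc : ℝ := 1 / |1 - (2 : ℝ) ^ (-((n : ℝ) * s - 1))| with hCc
  have ha0 : 0 ≤ Ca := by positivity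
  have hb0 : 0 ≤ Cb := by positivity
  have hc0 : 0 ≤ Cc := by positivity
  refine ⟨4 * Ca + 4 * Cb + 2 * Cc + 8, by linarith, ?_⟩
  intro K R μ hK hR hprob hF
  have hR0 : 0 < R := by linarith
  have hK0 : 0 < K := by linarith
  have hKn : (1 : ℝ) ≤ K ^ n := one_le_pow₀ hK
  obtain ⟨Q, hQ1, hQ2⟩ : ∃ Q : ℕ, (2 : ℝ) ^ Q ≤ R ∧ R < 2 ^ (Q + 1) := exists_nat_pow_near hR (by norm_num)
  -- outer integration
  have outer : ∀ (j : ℕ) (A : ℝ), (∑ q ∈ Finset.range (Q + 1),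
        (2 ^ j * R / (2 ^ j) ^ q) * (K * (2 ^ q / R) ^ s) ^ n + R / (2 ^ j) ^ Q) ≤ A →
      ∫⁻ a : Fin n → ℝ, (∫⁻ b : Fin n → ℝ, ENNReal.ofReal (R / (1 + (R * ‖a - b‖) ^ j))
        ∂(Measure.pi fun _ : Fin n => μ)) ∂(Measure.pi fun _ : Fin n => μ) ≤ ENNReal.ofReal A := by
    intro j A hA
    calc _ ≤ ∫⁻ _ : Fin n → ℝ, ENNReal.ofReal A ∂(Measure.pi fun _ : Fin n => μ) :=
          lintegral_mono fun a => (dyad_inner j Q hF hK hR a).trans (ENNReal.ofReal_le_ofReal hA)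
      _ = ENNReal.ofReal A := by simp
  have hrem : ∀ j : ℕ, R / (2 ^ j) ^ Q ≤ 2 ^ j * R ^ (1 - (j : ℝ)) := by
    intro j
    have h1 : R ^ j ≤ (2 ^ (Q + 1)) ^ j := pow_le_pow_left₀ hR0.le hQ2.le j
    have h2 : ((2 : ℝ) ^ (Q + 1)) ^ j = 2 ^ j * (2 ^ j) ^ Q := by
      rw [← pow_mul, ← pow_mul, ← pow_add]
      congr 1
      ring
    have h3 : R ^ (1 - (j : ℝ)) = R / R ^ j := by
      rw [Real.rpow_sub hR0, Real.rpow_one, Real.rpow_natCast]
    rw [h3, div_le_iff₀ (by positivity)]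
    have h4 : 2 ^ j * (R / R ^ j) * (2 ^ j) ^ Q = R * ((2 ^ j * (2 ^ j) ^ Q) / R ^ j) := by
      field_simp
    rw [h4, ← h2]
    have h5 : 1 ≤ ((2 : ℝ) ^ (Q + 1)) ^ j / R ^ j := by
      rw [le_div_iff₀ (by positivity), one_mul]
      exact h1
    nlinarith
  refine ⟨?_, ?_, ?_⟩
  · intro h
    refine outer 2 _ ?_
    rw [dyad_sum 2 Q n hR]
    have h1 := dyad_geom_neg Q (θ := (n : ℝ) * s - 2) (by linarith)
    have h2 := hrem 2
    rw [← hCa] at h1
    have h3 : R ^ (1 - ((2 : ℕ) : ℝ)) ≤ R ^ (1 - n * s) :=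
      Real.rpow_le_rpow_of_exponent_le hR (by push_cast; linarith)
    have h4 : 0 < R ^ (1 - n * s) := Real.rpow_pos_of_pos hR0 _
    set P := R ^ (1 - n * s) with hP
    have h5 : (2 : ℝ) ^ 2 * K ^ n * P * ∑ q ∈ Finset.range (Q + 1),
        ((2 : ℝ) ^ (n * s - ((2 : ℕ) : ℝ))) ^ q ≤ 2 ^ 2 * K ^ n * P * Ca := by
      refine mul_le_mul_of_nonneg_left ?_ (by positivity)
      push_cast
      exact h1
    have h6 : P ≤ K ^ n * P := by nlinarith
    have h7 : 0 ≤ Cb * (K ^ n * P) := by positivity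
    have h8 : 0 ≤ Cc * (K ^ n * P) := by positivity
    have h9 : 0 ≤ K ^ n * P := by positivity
    have h10 : (2 : ℝ) ^ 2 * R ^ (1 - ((2 : ℕ) : ℝ)) ≤ 4 * P := by linarith
    calc _ ≤ 2 ^ 2 * K ^ n * P * Ca + 4 * P := add_le_add h5 (h2.trans h10)
      _ ≤ (4 * Ca + 4 * Cb + 2 * Cc + 8) * K ^ n * P := by nlinarith
  · intro h
    refine outer 2 _ ?_
    rw [dyad_sum 2 Q n hR]
    have h1 := dyad_geom_pos Q (θ := (n : ℝ) * s - 2) (by linarith) hQ1
    have h2 := hrem 2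
    rw [← hCb] at h1
    have h3 : R ^ (1 - ((2 : ℕ) : ℝ)) = R ^ (-1 : ℝ) := by
      congr 1
      push_cast
      ring
    rw [h3] at h2
    have h4 : 0 < R ^ (-1 : ℝ) := Real.rpow_pos_of_pos hR0 _
    have h5 : (2 : ℝ) ^ 2 * K ^ n * R ^ (1 - n * s) * ∑ q ∈ Finset.range (Q + 1),
        ((2 : ℝ) ^ (n * s - ((2 : ℕ) : ℝ))) ^ q ≤ 2 ^ 2 * K ^ n * (R ^ (-1 : ℝ) * Cb) := by
      have e : R ^ (1 - n * s) * R ^ ((n : ℝ) * s - 2) = R ^ (-1 : ℝ) := by
        rw [← Real.rpow_add hR0]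
        congr 1
        ring
      calc _ ≤ 2 ^ 2 * K ^ n * R ^ (1 - n * s) * (R ^ ((n : ℝ) * s - 2) * Cb) := by
            refine mul_le_mul_of_nonneg_left ?_ (by positivity)
            push_cast
            exact h1
        _ = 2 ^ 2 * K ^ n * ((R ^ (1 - n * s) * R ^ ((n : ℝ) * s - 2)) * Cb) := by ring
        _ = _ := by rw [e]
    set P := R ^ (-1 : ℝ) with hP
    have h6 : P ≤ K ^ n * P := by nlinarith
    have h7 : 0 ≤ Ca * (K ^ n * P) := by positivity
    have h8 : 0 ≤ Cc * (K ^ n * P) := by positivity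
    have h9 : 0 ≤ K ^ n * P := by positivity
    calc _ ≤ 2 ^ 2 * K ^ n * (P * Cb) + 2 ^ 2 * P := add_le_add h5 h2
      _ ≤ (4 * Ca + 4 * Cb + 2 * Cc + 8) * K ^ n * P := by nlinarith
  · intro h
    have hone : ∀ a b : Fin n → ℝ, R / (1 + R * ‖a - b‖) = R / (1 + (R * ‖a - b‖) ^ 1) := by
      intro a b
      rw [pow_one]
    simp only [hone]
    refine outer 1 _ ?_
    rw [dyad_sum 1 Q n hR]
    have h1 := dyad_geom_pos Q (θ := (n : ℝ) * s - 1) (by linarith) hQ1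
    have h2 := hrem 1
    rw [← hCc] at h1
    have h3 : R ^ (1 - ((1 : ℕ) : ℝ)) = 1 := by
      push_cast
      rw [sub_self, Real.rpow_zero]
    rw [h3] at h2
    have h5 : (2 : ℝ) ^ 1 * K ^ n * R ^ (1 - n * s) * ∑ q ∈ Finset.range (Q + 1),
        ((2 : ℝ) ^ (n * s - ((1 : ℕ) : ℝ))) ^ q ≤ 2 ^ 1 * K ^ n * Cc := by
      have e : R ^ (1 - n * s) * R ^ ((n : ℝ) * s - 1) = 1 := by
        rw [← Real.rpow_add hR0]
        rw [show (1 : ℝ) - n * s + (n * s - 1) = 0 by ring, Real.rpow_zero]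
      calc _ ≤ 2 ^ 1 * K ^ n * R ^ (1 - n * s) * (R ^ ((n : ℝ) * s - 1) * Cc) := by
            refine mul_le_mul_of_nonneg_left ?_ (by positivity)
            push_cast
            exact h1
        _ = 2 ^ 1 * K ^ n * ((R ^ (1 - n * s) * R ^ ((n : ℝ) * s - 1)) * Cc) := by ring
        _ = _ := by rw [e, one_mul]
    have h7 : 0 ≤ Ca * K ^ n := by positivity
    have h8 : 0 ≤ Cb * K ^ n := by positivity
    calc _ ≤ 2 ^ 1 * K ^ n * Cc + 2 ^ 1 * 1 := add_le_add h5 h2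
      _ ≤ (4 * Ca + 4 * Cb + 2 * Cc + 8) * K ^ n := by nlinarith

end Pool.Agent.Work.MP_1151e3_an
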