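import Pool.Agent.Work.MP_1151e3_an.Basic

/-!
# C2: separated points in a set of positive measure
-/

set_option autoImplicit false

namespace Pool.Agent.Work.MP_1151e3_an

open MeasureTheory Set Aff Metric
open scoped ENNReal

lemma extract_exp_le {U a b : ℝ} (ha : a ≤ U) (hb : b ≤ U) :
    |a - b| ≤ Real.exp U * |Real.exp (-a) - Real.exp (-b)| := by
  wlog h : a ≤ b generalizing a b with H
  · have := H hb ha (le_of_not_ge h)
    rwa [abs_sub_comm, abs_sub_comm (Real.exp (-b))] at this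
  have h1 : Real.exp (-b) * (b - a) ≤ Real.exp (-a) - Real.exp (-b) := by
    have h2 : Real.exp (-a) = Real.exp (-b) * Real.exp (b - a) := by
      rw [← Real.exp_add]; congr 1; ring
    have h3 : b - a + 1 ≤ Real.exp (b - a) := Real.add_one_le_exp _
    rw [h2]
    nlinarith [Real.exp_pos (-b)]
  have h4 : Real.exp (-U) ≤ Real.exp (-b) := Real.exp_le_exp.mpr (by linarith)
  have h5 : Real.exp (-U) * (b - a) ≤ Real.exp (-a) - Real.exp (-b) :=
    le_trans (mul_le_mul_of_nonneg_right h4 (by linarith)) h1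
  have h6 : Real.exp U * Real.exp (-U) = 1 := by rw [← Real.exp_add]; simp
  have h7 : 0 ≤ Real.exp (-a) - Real.exp (-b) :=
    le_trans (mul_nonneg (Real.exp_pos _).le (by linarith)) h5
  rw [abs_of_nonneg h7, abs_sub_comm, abs_of_nonneg (by linarith : 0 ≤ b - a)]
  calc b - a = Real.exp U * (Real.exp (-U) * (b - a)) := by rw [← mul_assoc, h6, one_mul]
    _ ≤ _ := mul_le_mul_of_nonneg_left h5 (Real.exp_pos _).le

lemma extract_dist_le {U : ℝ} {p q : ℝ × ℝ} (hp : p ∈ Icc (1 : ℝ) 2 ×ˢ Icc (-U) U)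
    (hq : q ∈ Icc (1 : ℝ) 2 ×ˢ Icc (-U) U) :
    dist p q ≤ 3 * Real.exp U * (toAff p).ad (toAff q) := by
  obtain ⟨⟨hp1, hp2⟩, hp3, hp4⟩ := hp
  obtain ⟨⟨hq1, hq2⟩, hq3, hq4⟩ := hq
  set e := (toAff p).ad (toAff q) with he
  have e1 : |Real.exp (-p.2) - Real.exp (-q.2)| ≤ e := le_max_left _ _
  have e2 : |Real.exp (-p.2) * p.1 - Real.exp (-q.2) * q.1| ≤ e := le_max_right _ _
  have e0 : 0 ≤ e := le_trans (abs_nonneg _) e1
  have hE : 0 < Real.exp U := Real.exp_pos _
  have h2 : |p.2 - q.2| ≤ 3 * Real.exp U * e := by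
    have := extract_exp_le hp4 hq4
    nlinarith [mul_le_mul_of_nonneg_left e1 hE.le, mul_nonneg hE.le e0]
  have h1 : |p.1 - q.1| ≤ 3 * Real.exp U * e := by
    have h3 : Real.exp (-p.2) * (p.1 - q.1) =
        (Real.exp (-p.2) * p.1 - Real.exp (-q.2) * q.1) -
          (Real.exp (-p.2) - Real.exp (-q.2)) * q.1 := by ring
    have h4 : Real.exp (-p.2) * |p.1 - q.1| ≤ 3 * e := by
      rw [← abs_of_pos (Real.exp_pos (-p.2)), ← abs_mul, h3]
      refine le_trans (abs_sub _ _) ?_
      rw [abs_mul, abs_of_pos (by linarith : 0 < q.1)]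
      nlinarith [abs_nonneg (Real.exp (-p.2) - Real.exp (-q.2))]
    have h5 : Real.exp (-U) ≤ Real.exp (-p.2) := Real.exp_le_exp.mpr (by linarith)
    have h6 : Real.exp U * Real.exp (-U) = 1 := by rw [← Real.exp_add]; simp
    have h7 : Real.exp (-U) * |p.1 - q.1| ≤ 3 * e :=
      le_trans (mul_le_mul_of_nonneg_right h5 (abs_nonneg _)) h4
    calc |p.1 - q.1| = Real.exp U * (Real.exp (-U) * |p.1 - q.1|) := by
          rw [← mul_assoc, h6, one_mul]
      _ ≤ Real.exp U * (3 * e) := mul_le_mul_of_nonneg_left h7 hE.le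
      _ = _ := by ring
  rw [Prod.dist_eq, Real.dist_eq, Real.dist_eq]
  exact max_le h1 h2

lemma extract_floor {R x y : ℝ} (hR : 0 < R) (h : ⌊R * x⌋ = ⌊R * y⌋) : |x - y| < 1 / R := by
  have h1 := Int.abs_sub_lt_one_of_floor_eq_floor h
  rw [← mul_sub, abs_mul, abs_of_pos hR] at h1
  rw [lt_div_iff₀ hR]
  linarith

theorem claimExtract : ClaimExtract := by
  intro U hU
  have hE : 1 ≤ Real.exp U := Real.one_le_exp (by linarith)
  refine ⟨3 * Real.exp U, 4, by linarith, by norm_num, ?_⟩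
  intro R v S hR hv hS hvol
  have hR0 : 0 < R := by linarith
  set c : ℝ × ℝ → ℤ × ℤ := fun p => (⌊R * p.1⌋, ⌊R * p.2⌋) with hc
  set W : Finset (ℤ × ℤ) :=
    (Finset.Icc ⌊R * 1⌋ ⌊R * 2⌋) ×ˢ (Finset.Icc ⌊R * (-U)⌋ ⌊R * U⌋) with hW
  set P : ℕ → Prop := fun k => ∃ F : Finset (ℝ × ℝ), F.card = k ∧ (∀ p ∈ F, p ∈ S) ∧
    ∀ p ∈ F, ∀ q ∈ F, p ≠ q → 1 / R ≤ dist p q with hP
  have hb : ∀ k, P k → k ≤ W.card := by
    rintro k ⟨F, rfl, hF1, hF2⟩
    refine Finset.card_le_card_of_injOn c ?_ ?_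
    · intro p hp
      obtain ⟨⟨h1, h2⟩, h3, h4⟩ := hS (hF1 p hp)
      simp only [hW, hc, Finset.coe_product, Finset.coe_Icc, mem_prod, mem_Icc]
      refine ⟨⟨?_, ?_⟩, ?_, ?_⟩ <;> apply Int.floor_le_floor <;>
        apply mul_le_mul_of_nonneg_left _ hR0.le <;> assumption
    · intro p hp q hq hpq
      by_contra hne
      have h1 := hF2 p hp q hq hne
      have h2 := congrArg Prod.fst hpq
      have h3 := congrArg Prod.snd hpq
      have h4 := extract_floor hR0 h2
      have h5 := extract_floor hR0 h3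
      rw [Prod.dist_eq, Real.dist_eq, Real.dist_eq] at h1
      exact absurd h1 (not_le.mpr (max_lt h4 h5))
  classical
  have h0 : P 0 := ⟨∅, rfl, by simp, by simp⟩
  obtain ⟨F, hFc, hF1, hF2⟩ : P (Nat.findGreatest P W.card) :=
    Nat.findGreatest_spec (Nat.zero_le _) h0
  have hcov : S ⊆ ⋃ p ∈ F, closedBall p (1 / R) := by
    intro x hx
    by_contra hcon
    simp only [mem_iUnion, mem_closedBall, not_exists, not_le] at hcon
    have hxF : x ∉ F := by
      intro h
      have := hcon x h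
      rw [dist_self] at this
      exact absurd this (not_lt.mpr (by positivity))
    have hP1 : P (F.card + 1) := by
      refine ⟨insert x F, Finset.card_insert_of_notMem hxF, ?_, ?_⟩
      · intro p hp
        rcases Finset.mem_insert.mp hp with rfl | h
        · exact hx
        · exact hF1 p h
      · intro p hp q hq hpq
        rcases Finset.mem_insert.mp hp with rfl | h <;>
          rcases Finset.mem_insert.mp hq with rfl | h'
        · exact absurd rfl hpq
        · exact (hcon q h').le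
        · rw [dist_comm]; exact (hcon p h).le
        · exact hF2 p h q h' hpq
    have h1 := Nat.le_findGreatest (hb _ hP1) hP1
    omega
  refine ⟨F, hF1, ?_, ?_⟩
  · intro p hp q hq hpq
    have h1 := hF2 p hp q hq hpq
    have h2 := extract_dist_le (hS (hF1 p hp)) (hS (hF1 q hq))
    have h3 : 1 / R ≤ 3 * Real.exp U * (toAff p).ad (toAff q) := h1.trans h2
    have h4 : 0 < 3 * Real.exp U := by positivity
    rw [div_le_iff₀ (by positivity)]
    rw [div_le_iff₀ hR0] at h3
    linarith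
  · have h1 : volume S ≤ ∑ p ∈ F, volume (closedBall p (1 / R)) :=
      (measure_mono hcov).trans (measure_biUnion_finset_le _ _)
    have h2 : ∀ p : ℝ × ℝ, volume (closedBall p (1 / R)) = ENNReal.ofReal (4 / R ^ 2) := by
      intro p
      rw [← closedBall_prod_same, Measure.volume_eq_prod, Measure.prod_prod,
        Real.volume_closedBall, Real.volume_closedBall, ← ENNReal.ofReal_mul (by positivity)]
      congr 1
      field_simp
      norm_num
    have h3 : volume S ≤ ENNReal.ofReal (F.card * (4 / R ^ 2)) := by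
      refine h1.trans ?_
      simp only [h2, Finset.sum_const, nsmul_eq_mul]
      rw [ENNReal.ofReal_mul (by positivity), ENNReal.ofReal_natCast]
    have h4 : v ≤ F.card * (4 / R ^ 2) :=
      (ENNReal.ofReal_le_ofReal_iff (by positivity)).mp (hvol.trans h3)
    have h5 : 0 < R ^ 2 := by positivity
    calc v * R ^ 2 ≤ F.card * (4 / R ^ 2) * R ^ 2 := mul_le_mul_of_nonneg_right h4 h5.le
      _ = 4 * F.card := by field_simp

end Pool.Agent.Work.MP_1151e3_an
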