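import Pool.Agent.Work.MP_1151e3_an.Basic

/-!
# MP_1151e3_an, item B7: splitting off the last coordinate
-/

set_option autoImplicit false

namespace Pool.Agent.Work.MP_1151e3_an

open MeasureTheory Set Filter Topology

lemma factor_sc_cont {R C : ℝ} {k : ℝ → ℝ} (hk : Ker k C) : Continuous (sc R k) := by
  unfold sc
  exact continuous_const.mul (hk.cont.comp (continuous_const.mul continuous_id))

lemma factor_sc_bdd {R C : ℝ} {k : ℝ → ℝ} (hR : 0 ≤ R) (hk : Ker k C) (x : ℝ) :
    |sc R k x| ≤ R * C := by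
  unfold sc
  rw [abs_mul, abs_of_nonneg hR]
  exact mul_le_mul_of_nonneg_left (hk.bdd _) hR

lemma factor_sc_int {R C : ℝ} {k : ℝ → ℝ} (hR : 1 ≤ R) (hk : Ker k C) :
    Integrable (sc R k) := by
  refine (factor_sc_cont hk).integrable_of_hasCompactSupport ?_
  refine HasCompactSupport.intro (isCompact_closedBall (0 : ℝ) 1) fun x hx => ?_
  rw [mem_closedBall_zero_iff, Real.norm_eq_abs, not_le] at hx
  unfold sc
  rw [hk.supp (R * x) (by
    rw [abs_mul, abs_of_nonneg (by linarith : (0 : ℝ) ≤ R)]
    nlinarith), mul_zero]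

lemma factor_logG_meas (t : ℝ) : Measurable (logG t) := by
  unfold logG
  exact Real.measurable_log.comp (measurable_const.add measurable_id)

theorem claimFactor (hK : ClaimKer) : ClaimFactor := by
  intro N μ R t u hμ _ hR _
  obtain ⟨_, ⟨C1, hk1⟩, _, ⟨C2, hk2⟩, _, _, _, _, _, _, _, _, hconv, _, _⟩ := hK
  have hR0 : 0 < R := by linarith
  obtain ⟨P, hP⟩ : ∃ P, P = (Measure.pi fun _ : Fin N => μ) := ⟨_, rfl⟩
  have hPp : IsProbabilityMeasure P := by
    rw [hP]
    infer_instance
  obtain ⟨S, hS⟩ : ∃ S : (Fin N → ℝ) → ℝ, ∀ b, S b = ∑ i, logG (Fin.init t i) (b i) :=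
    ⟨_, fun _ => rfl⟩
  have hSm : Measurable S := by
    have e : S = fun b => ∑ i, logG (Fin.init t i) (b i) := funext hS
    rw [e]
    exact Finset.measurable_sum _ fun i _ => (factor_logG_meas _).comp (measurable_pi_apply i)
  have c1 := factor_sc_cont (R := R) hk1
  have c2 := factor_sc_cont (R := R) hk2
  have i1 := factor_sc_int hR hk1
  -- step 1: the coordinates
  have e1 : en (sc R ps) (N + 1) logG μ t u =
      ∫ z : ℝ × (Fin N → ℝ), sc R ps (u - (S z.2 + logG (t (Fin.last N)) z.1)) ∂(μ.prod P) := by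
    unfold en
    have hmp := measurePreserving_piFinSuccAbove (fun _ : Fin (N + 1) => μ) (Fin.last N)
    rw [hP]
    rw [← hmp.integral_comp' (fun z : ℝ × (Fin N → ℝ) =>
      sc R ps (u - (S z.2 + logG (t (Fin.last N)) z.1)))]
    congr 1
    funext a
    congr 2
    rw [Fin.sum_univ_castSucc, hS]
    congr 1
    refine Finset.sum_congr rfl fun i _ => ?_
    simp [Fin.init, MeasurableEquiv.piFinSuccAbove]
  -- step 2: the convolution
  have e2 : ∀ z : ℝ × (Fin N → ℝ), sc R ps (u - (S z.2 + logG (t (Fin.last N)) z.1)) =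
      ∫ v, sc R k1 (v - S z.2) * sc R k2 (u - v - logG (t (Fin.last N)) z.1) := by
    intro z
    rw [hconv R _ hR0, ← integral_sub_right_eq_self (fun y => sc R k1 y *
      sc R k2 (u - (S z.2 + logG (t (Fin.last N)) z.1) - y)) (S z.2)]
    congr 1
    funext v
    congr 2
    ring
  -- integrability
  have hmeas : Measurable fun q : (ℝ × (Fin N → ℝ)) × ℝ => sc R k1 (q.2 - S q.1.2) :=
    c1.measurable.comp (measurable_snd.sub (hSm.comp (measurable_snd.comp measurable_fst)))
  have hmeas2 : Measurable fun q : (ℝ × (Fin N → ℝ)) × ℝ =>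
      sc R k2 (u - q.2 - logG (t (Fin.last N)) q.1.1) :=
    c2.measurable.comp ((measurable_const.sub measurable_snd).sub
      ((factor_logG_meas _).comp (measurable_fst.comp measurable_fst)))
  have hint1 : Integrable (fun q : (ℝ × (Fin N → ℝ)) × ℝ => sc R k1 (q.2 - S q.1.2))
      ((μ.prod P).prod volume) := by
    rw [integrable_prod_iff hmeas.aestronglyMeasurable]
    refine ⟨Eventually.of_forall fun z => i1.comp_sub_right (S z.2), ?_⟩
    simp only [integral_sub_right_eq_self (fun v => ‖sc R k1 v‖)]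
    exact integrable_const _
  have hint : Integrable (Function.uncurry fun (z : ℝ × (Fin N → ℝ)) (v : ℝ) =>
      sc R k1 (v - S z.2) * sc R k2 (u - v - logG (t (Fin.last N)) z.1))
      ((μ.prod P).prod volume) := by
    refine Integrable.mono' (hint1.norm.mul_const (R * C2)) (hmeas.mul hmeas2).aestronglyMeasurable
      (Eventually.of_forall fun q => ?_)
    simp only [Function.uncurry]
    rw [norm_mul]
    exact mul_le_mul_of_nonneg_left (factor_sc_bdd hR0.le hk2 _) (norm_nonneg _)
  rw [e1]
  simp only [e2]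
  rw [integral_integral_swap hint]
  congr 1
  funext v
  have e3 := integral_prod_mul (μ := μ) (ν := P)
    (fun x : ℝ => sc R k2 (u - v - logG (t (Fin.last N)) x)) (fun b => sc R k1 (v - S b))
  have e4 : en (sc R k1) N logG μ (Fin.init t) v = ∫ b, sc R k1 (v - S b) ∂P := by
    unfold en
    rw [hP]
    simp only [hS]
  have e5 : Vh μ R (t (Fin.last N), u) v =
      ∫ x, sc R k2 (u - v - logG (t (Fin.last N)) x) ∂μ := rfl
  rw [e4, e5, mul_comm (∫ b, sc R k1 (v - S b) ∂P), ← e3]
  congr 1
  funext z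
  ring

end Pool.Agent.Work.MP_1151e3_an
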