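import Pool.Agent.Work.MP_1151e3_an.Basic

/-!
# Open intervals in shifted products: the final contradiction
-/

set_option autoImplicit false

namespace Pool.Agent.Work.MP_1151e3_an

open MeasureTheory Set Aff
open scoped ENNReal

/-- Powers of `K` are absorbed. -/
lemma final_absorb (η C : ℝ) (p : ℕ) (hη : 0 < η) : ∃ κ R0 : ℝ, 0 < κ ∧ 1 ≤ R0 ∧
    ∀ R K : ℝ, R0 ≤ R → 1 ≤ K → K ≤ R ^ κ → C * K ^ p ≤ R ^ η := by
  have hp : (0 : ℝ) < (p : ℝ) + 1 := by positivity
  refine ⟨η / (2 * ((p : ℝ) + 1)), max 1 ((max C 1) ^ (2 / η)), by positivity, le_max_left _ _, ?_⟩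
  intro R K hR hK hKR
  have hR1 : 1 ≤ R := (le_max_left _ _).trans hR
  have hR0 : 0 < R := by linarith
  have hC1 : (1 : ℝ) ≤ max C 1 := le_max_right _ _
  have h1 : max C 1 ≤ R ^ (η / 2) := by
    have h2 : (max C 1) ^ (2 / η) ≤ R := (le_max_right _ _).trans hR
    calc max C 1 = ((max C 1) ^ (2 / η)) ^ (η / 2) := by
          rw [← Real.rpow_mul (by linarith)]
          have : 2 / η * (η / 2) = 1 := by field_simp
          rw [this, Real.rpow_one]
      _ ≤ R ^ (η / 2) := Real.rpow_le_rpow (Real.rpow_nonneg (by linarith) _) h2 (by linarith)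
  have h3 : K ^ p ≤ R ^ (η / 2) := by
    calc K ^ p ≤ (R ^ (η / (2 * ((p : ℝ) + 1)))) ^ p := pow_le_pow_left₀ (by linarith) hKR p
      _ = R ^ (η / (2 * ((p : ℝ) + 1)) * p) := by
          rw [← Real.rpow_natCast, ← Real.rpow_mul hR0.le]
      _ ≤ R ^ (η / 2) := by
          apply Real.rpow_le_rpow_of_exponent_le hR1
          rw [div_mul_eq_mul_div, div_le_div_iff₀ (by positivity) (by positivity)]
          nlinarith
  calc C * K ^ p ≤ max C 1 * K ^ p :=
        mul_le_mul_of_nonneg_right (le_max_left _ _) (by positivity)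
    _ ≤ R ^ (η / 2) * R ^ (η / 2) := mul_le_mul h1 h3 (by positivity) (by positivity)
    _ = R ^ η := by rw [← Real.rpow_add hR0]; congr 1; ring

/-- The version of the stabiliser lemma with a bound for `p0`. -/
lemma final_stab (B θ r : ℝ) (E : Finset Aff) (P : Finset (Aff × Aff)) (hB : 1 ≤ B) (hθ : 0 < θ)
    (hθ1 : θ ≤ 1) (hE : ∀ g ∈ E, g.bd B) (hS : ∀ q ∈ P, (q.2 * q.1⁻¹).bd B)
    (hPE : P ⊆ E ×ˢ E) (hq : ∃ q ∈ P, θ ≤ |(q.2 * q.1⁻¹).s - 1|)
    (hcom : ∀ q ∈ P, ∀ q' ∈ P, |(1 - (q'.2 * q'.1⁻¹).s) * (q.2 * q.1⁻¹).t -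
      (1 - (q.2 * q.1⁻¹).s) * (q'.2 * q'.1⁻¹).t| ≤ r) :
    ∃ (x0 p0 : ℝ) (E1 : Finset Aff), E1 ⊆ E ∧ (P.card : ℝ) ≤ (E1.card : ℝ) * E.card ∧
      (∀ g ∈ E1, |g.act p0 - x0| ≤ r / θ) ∧ |p0| ≤ 2 * B ^ 2 / θ := by
  classical
  obtain ⟨q', hq'P, hq'⟩ := hq
  have hB0 : (0 : ℝ) < B := by linarith
  set x' : Aff := q'.2 * q'.1⁻¹ with hx'
  have hx'bd : x'.bd B := hS q' hq'P
  have hne : (1 - x'.s) ≠ 0 := by
    intro h0
    have : |x'.s - 1| = 0 := by rw [abs_sub_comm, h0, abs_zero]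
    rw [this] at hq'; linarith
  have habs : θ ≤ |1 - x'.s| := by rw [abs_sub_comm]; exact hq'
  have habs0 : 0 < |1 - x'.s| := lt_of_lt_of_le hθ habs
  set x0 : ℝ := x'.t / (1 - x'.s) with hx0
  have hx0b : |x0| ≤ B / θ := by
    rw [hx0, abs_div]
    exact div_le_div₀ hB0.le hx'bd.2.2 hθ habs
  have hfix : ∀ q ∈ P, |(q.2 * q.1⁻¹).act x0 - x0| ≤ r / θ := by
    intro q hqP
    have h1 := hcom q hqP q' hq'P
    have h2 : (1 - x'.s) * (q.2 * q.1⁻¹).t - (1 - (q.2 * q.1⁻¹).s) * x'.t =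
        (1 - x'.s) * ((q.2 * q.1⁻¹).act x0 - x0) := by
      have : x'.t = (1 - x'.s) * x0 := by rw [hx0]; field_simp
      rw [this]; unfold Aff.act; ring
    rw [← hx', h2, abs_mul] at h1
    rw [le_div_iff₀ hθ]
    calc |(q.2 * q.1⁻¹).act x0 - x0| * θ ≤ |(q.2 * q.1⁻¹).act x0 - x0| * |1 - x'.s| :=
          mul_le_mul_of_nonneg_left habs (abs_nonneg _)
      _ = |1 - x'.s| * |(q.2 * q.1⁻¹).act x0 - x0| := by ring
      _ ≤ r := h1
  -- the vertex of maximal degree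
  have hEne : E.Nonempty := ⟨q'.1, (Finset.mem_product.mp (hPE hq'P)).1⟩
  obtain ⟨g0, hg0E, hg0⟩ := Finset.exists_max_image E
    (fun g => (P.filter fun q => q.1 = g).card) hEne
  refine ⟨x0, (g0⁻¹).act x0, (P.filter fun q => q.1 = g0).image Prod.snd, ?_, ?_, ?_, ?_⟩
  · intro h hh
    obtain ⟨q, hq, rfl⟩ := Finset.mem_image.mp hh
    exact (Finset.mem_product.mp (hPE (Finset.mem_filter.mp hq).1)).2
  · have hcard : ((P.filter fun q => q.1 = g0).image Prod.snd).card =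
        (P.filter fun q => q.1 = g0).card := by
      apply Finset.card_image_of_injOn
      intro a ha b hb hab
      have ha' := (Finset.mem_filter.mp ha).2
      have hb' := (Finset.mem_filter.mp hb).2
      exact Prod.ext (ha'.trans hb'.symm) hab
    rw [hcard]
    have hsum : P.card = ∑ g ∈ E, (P.filter fun q => q.1 = g).card :=
      Finset.card_eq_sum_card_fiberwise fun q hq => (Finset.mem_product.mp (hPE hq)).1
    have : P.card ≤ E.card * (P.filter fun q => q.1 = g0).card := by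
      rw [hsum]
      calc ∑ g ∈ E, (P.filter fun q => q.1 = g).card ≤
          ∑ _g ∈ E, (P.filter fun q => q.1 = g0).card := Finset.sum_le_sum hg0
        _ = _ := by rw [Finset.sum_const, smul_eq_mul]
    have h2 : (P.card : ℝ) ≤ ((E.card * (P.filter fun q => q.1 = g0).card : ℕ) : ℝ) := by
      exact_mod_cast this
    rw [Nat.cast_mul] at h2
    linarith
  · intro h hh
    obtain ⟨q, hq, rfl⟩ := Finset.mem_image.mp hh
    have hqP := (Finset.mem_filter.mp hq).1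
    have hq1 : q.1 = g0 := (Finset.mem_filter.mp hq).2
    have := hfix q hqP
    rw [act_mul, hq1] at this
    exact this
  · have hg0b := hE g0 hg0E
    have hgi : g0.s⁻¹ ≤ B := by simpa using inv_anti₀ (inv_pos.mpr hB0) hg0b.1
    have e : (g0⁻¹).act x0 = g0.s⁻¹ * (x0 - g0.t) := by
      unfold Aff.act; simp; ring
    rw [e, abs_mul, abs_of_pos (inv_pos.mpr g0.pos)]
    have h1 : |x0 - g0.t| ≤ B / θ + B := by
      calc |x0 - g0.t| ≤ |x0| + |g0.t| := abs_sub _ _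
        _ ≤ _ := add_le_add hx0b hg0b.2.2
    have h2 : B ≤ B / θ := by rw [le_div_iff₀ hθ]; nlinarith
    calc g0.s⁻¹ * |x0 - g0.t| ≤ B * (B / θ + B) :=
          mul_le_mul hgi h1 (abs_nonneg _) hB0.le
      _ ≤ B * (B / θ + B / θ) := by gcongr
      _ = 2 * B ^ 2 / θ := by ring

/-- The law of the slopes. -/
noncomputable def finalLaw (P : Finset (Aff × Aff)) : Measure ℝ :=
  (P.card : ℝ≥0∞)⁻¹ • ∑ q ∈ P, Measure.dirac ((q.2 * q.1⁻¹).s)

open Classical in
lemma finalLaw_apply (P : Finset (Aff × Aff)) (T : Set ℝ) (hT : MeasurableSet T) :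
    finalLaw P T = (P.card : ℝ≥0∞)⁻¹ *
      ((P.filter fun q => (q.2 * q.1⁻¹).s ∈ T).card : ℝ≥0∞) := by
  unfold finalLaw
  rw [Measure.smul_apply, Measure.finsetSum_apply, smul_eq_mul]
  congr 1
  rw [Finset.card_filter, Nat.cast_sum]
  refine Finset.sum_congr rfl fun q _ => ?_
  rw [Measure.dirac_apply' _ hT]
  by_cases h : (q.2 * q.1⁻¹).s ∈ T
  · rw [indicator_of_mem h, if_pos h]; simp
  · rw [indicator_of_notMem h, if_neg h]; simp

lemma finalLaw_prob (P : Finset (Aff × Aff)) (hP : P.Nonempty) :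
    IsProbabilityMeasure (finalLaw P) := by
  constructor
  classical
  rw [finalLaw_apply P univ MeasurableSet.univ]
  simp only [mem_univ, Finset.filter_true]
  apply ENNReal.inv_mul_cancel
  · simpa using hP.ne_empty
  · exact ENNReal.natCast_ne_top _

lemma finalLaw_compl (P : Finset (Aff × Aff)) (T : Set ℝ) (hT : MeasurableSet T)
    (h : ∀ q ∈ P, (q.2 * q.1⁻¹).s ∈ T) : finalLaw P Tᶜ = 0 := by
  unfold finalLaw
  rw [Measure.smul_apply, Measure.finsetSum_apply]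
  have : ∑ q ∈ P, (Measure.dirac ((q.2 * q.1⁻¹).s) : Measure ℝ) Tᶜ = 0 := by
    refine Finset.sum_eq_zero fun q hq => ?_
    rw [Measure.dirac_apply' _ hT.compl, indicator_of_notMem]
    exact fun h2 => h2 (h q hq)
  rw [this]; simp

open Classical in
lemma finalLaw_real (P : Finset (Aff × Aff)) (T : Set ℝ) (hT : MeasurableSet T) :
    (finalLaw P).real T = ((P.filter fun q => (q.2 * q.1⁻¹).s ∈ T).card : ℝ) / P.card := by
  rw [measureReal_def, finalLaw_apply P T hT, ENNReal.toReal_mul, ENNReal.toReal_inv]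
  simp only [ENNReal.toReal_natCast]
  rw [div_eq_inv_mul]

/-- Non concentration of the slopes. -/
lemma final_fro (s B K R C1 : ℝ) (p1 : ℕ) (E : Finset Aff) (P : Finset (Aff × Aff))
    (hs0 : 0 < s) (hs1 : s < 1) (hB : 1 ≤ B) (hK : 1 ≤ K) (hR : 1 ≤ R) (hC1 : 1 ≤ C1)
    (hE : ∀ g ∈ E, g.bd B) (hcard : R / K ≤ E.card) (hPE : P ⊆ E ×ˢ E)
    (hP : (E.card : ℝ) ^ 2 / K ≤ P.card)
    (hsl : ∀ (x w : ℝ) (F : Finset Aff), 1 / R ≤ w → w ≤ 1 → F ⊆ E → (∀ g ∈ F, |g.s - x| ≤ w) →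
      (F.card : ℝ) ≤ C1 * K ^ p1 * R * w ^ (1 - s)) :
    Fro (finalLaw P) (C1 * B * K ^ (p1 + 2)) (1 - s) (1 / R) := by
  classical
  intro x w hw
  have hR0 : (0 : ℝ) < R := by linarith
  have hK0 : (0 : ℝ) < K := by linarith
  have hB0 : (0 : ℝ) < B := by linarith
  have hw0 : 0 < w := lt_of_lt_of_le (by positivity) hw
  have hEpos : (0 : ℝ) < E.card := lt_of_lt_of_le (by positivity) hcard
  have hPpos : (0 : ℝ) < P.card := lt_of_lt_of_le (by positivity) hP
  have hPne : P.Nonempty := by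
    rw [← Finset.card_pos]; exact_mod_cast hPpos
  have := finalLaw_prob P hPne
  have hBw : (B * w) ^ (1 - s) ≤ B * w ^ (1 - s) := by
    rw [Real.mul_rpow hB0.le hw0.le]
    apply mul_le_mul_of_nonneg_right _ (by positivity)
    calc B ^ (1 - s) ≤ B ^ (1 : ℝ) := Real.rpow_le_rpow_of_exponent_le hB (by linarith)
      _ = B := Real.rpow_one B
  by_cases hcase : B * w ≤ 1
  · rw [finalLaw_real P _ Metric.isClosed_closedBall.measurableSet]
    rw [div_le_iff₀ hPpos]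
    set T : Finset (Aff × Aff) :=
      P.filter fun q => (q.2 * q.1⁻¹).s ∈ Metric.closedBall x w with hT
    have hsum : T.card = ∑ g ∈ E, (T.filter fun q => q.1 = g).card :=
      Finset.card_eq_sum_card_fiberwise fun q hq =>
        (Finset.mem_product.mp (hPE (Finset.mem_filter.mp hq).1)).1
    have hfib : ∀ g ∈ E, ((T.filter fun q => q.1 = g).card : ℝ) ≤
        C1 * K ^ p1 * R * (B * w) ^ (1 - s) := by
      intro g hg
      have hcd : ((T.filter fun q => q.1 = g).image Prod.snd).card =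
          (T.filter fun q => q.1 = g).card := by
        apply Finset.card_image_of_injOn
        intro a ha b hb hab
        have ha' := (Finset.mem_filter.mp ha).2
        have hb' := (Finset.mem_filter.mp hb).2
        exact Prod.ext (ha'.trans hb'.symm) hab
      rw [← hcd]
      apply hsl (x * g.s) (B * w) _ _ hcase
      · intro h hh
        obtain ⟨q, hq, rfl⟩ := Finset.mem_image.mp hh
        have := (Finset.mem_filter.mp (Finset.mem_filter.mp hq).1).1
        exact (Finset.mem_product.mp (hPE this)).2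
      · intro h hh
        obtain ⟨q, hq, rfl⟩ := Finset.mem_image.mp hh
        have h1 := (Finset.mem_filter.mp (Finset.mem_filter.mp hq).1).2
        have h2 : q.1 = g := (Finset.mem_filter.mp hq).2
        rw [Metric.mem_closedBall, Real.dist_eq, mul_s, inv_s, h2] at h1
        have e : q.2.s - x * g.s = g.s * (q.2.s * g.s⁻¹ - x) := by
          have := g.pos.ne'; field_simp
        rw [e, abs_mul, abs_of_pos g.pos]
        exact mul_le_mul (hE g hg).2.1 h1 (abs_nonneg _) hB0.le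
      · calc 1 / R ≤ w := hw
          _ ≤ B * w := by nlinarith
    have hT1 : (T.card : ℝ) ≤ E.card * (C1 * K ^ p1 * R * (B * w) ^ (1 - s)) := by
      rw [hsum, Nat.cast_sum]
      calc ∑ g ∈ E, ((T.filter fun q => q.1 = g).card : ℝ) ≤
          ∑ _g ∈ E, (C1 * K ^ p1 * R * (B * w) ^ (1 - s)) := Finset.sum_le_sum hfib
        _ = _ := by rw [Finset.sum_const, nsmul_eq_mul]
    have hRE : R ≤ K * E.card := by
      rw [div_le_iff₀ hK0] at hcard; linarith
    have hEP : (E.card : ℝ) ^ 2 ≤ K * P.card := by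
      rw [div_le_iff₀ hK0] at hP; linarith
    have hw2 : 0 ≤ w ^ (1 - s) := by positivity
    calc (T.card : ℝ) ≤ E.card * (C1 * K ^ p1 * R * (B * w) ^ (1 - s)) := hT1
      _ ≤ E.card * (C1 * K ^ p1 * (K * E.card) * (B * w ^ (1 - s))) := by gcongr
      _ = (C1 * K ^ p1 * K * (B * w ^ (1 - s))) * (E.card : ℝ) ^ 2 := by ring
      _ ≤ (C1 * K ^ p1 * K * (B * w ^ (1 - s))) * (K * P.card) := by gcongr
      _ = C1 * B * K ^ (p1 + 2) * w ^ (1 - s) * P.card := by ring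
  · push Not at hcase
    calc (finalLaw P).real (Metric.closedBall x w) ≤ 1 := measureReal_le_one
      _ ≤ (B * w) ^ (1 - s) := Real.one_le_rpow hcase.le (by linarith)
      _ ≤ B * w ^ (1 - s) := hBw
      _ ≤ C1 * B * K ^ (p1 + 2) * w ^ (1 - s) := by
          have h1 : (1 : ℝ) ≤ C1 * K ^ (p1 + 2) := by
            have := one_le_pow₀ hK (n := p1 + 2)
            nlinarith
          have h2 : 0 ≤ B * w ^ (1 - s) := by positivity
          nlinarith

/-- Maximal slope separated subsets. -/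
lemma final_net (E : Finset Aff) (d : ℝ) (hd : 0 < d) : ∃ Λ ⊆ E,
    (∀ g ∈ Λ, ∀ h ∈ Λ, g ≠ h → d ≤ |g.s - h.s|) ∧ ∀ g ∈ E, ∃ h ∈ Λ, |g.s - h.s| ≤ d := by
  classical
  induction E using Finset.induction_on with
  | empty => exact ⟨∅, by simp, by simp, by simp⟩
  | insert a E' ha ih =>
    obtain ⟨Λ, h1, h2, h3⟩ := ih
    by_cases hcase : ∃ h ∈ Λ, |a.s - h.s| ≤ d
    · refine ⟨Λ, h1.trans (Finset.subset_insert _ _), h2, ?_⟩
      intro g hg
      rcases Finset.mem_insert.mp hg with rfl | hg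
      · exact hcase
      · exact h3 g hg
    · push Not at hcase
      refine ⟨insert a Λ, Finset.insert_subset_insert _ h1, ?_, ?_⟩
      · intro g hg h hh hne
        rcases Finset.mem_insert.mp hg with hg1 | hg1 <;>
          rcases Finset.mem_insert.mp hh with hh1 | hh1
        · exact absurd (hg1.trans hh1.symm) hne
        · subst hg1; exact (hcase h hh1).le
        · subst hh1; rw [abs_sub_comm]; exact (hcase g hg1).le
        · exact h2 g hg1 h hh1 hne
      · intro g hg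
        rcases Finset.mem_insert.mp hg with rfl | hg
        · exact ⟨g, Finset.mem_insert_self _ _, by simpa using hd.le⟩
        · obtain ⟨h, hh, hgh⟩ := h3 g hg
          exact ⟨h, Finset.mem_insert_of_mem hh, hgh⟩

/-- Monotonicity of the generated ring elements. -/
lemma final_RD_mono {D D' : Set ℝ} (h : D ⊆ D') (m : ℕ) : RD D m ⊆ RD D' m := by
  induction m with
  | zero =>
    intro z hz
    rcases hz with h0 | h0 | h0
    · exact Or.inl h0
    · exact Or.inr (Or.inl h0)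
    · exact Or.inr (Or.inr (h h0))
  | succ m ih =>
    rintro z ⟨x, hx, y, hy, hz⟩
    exact ⟨x, ih hx, y, ih hy, hz⟩

/-- Numerical contradiction in the first case. -/
lemma final_num1 (s e c3 θ0 η R K C2 n1 : ℝ) (p2 : ℕ) (he1 : e ≤ 1)
    (hc3 : c3 = (e - s) / 2) (hθ0 : 0 ≤ θ0) (hc30 : 0 < c3) (hη : η + θ0 < c3) (hR : 1 < R)
    (hK : 1 ≤ K) (hC2 : 1 ≤ C2) (habs : 2 * C2 * K ^ (p2 + 2) ≤ R ^ η) (hn1 : R / K ^ 2 ≤ n1)
    (hmain : n1 * R ^ (-s) ≤ C2 * K ^ p2 * (1 + R * (R ^ (-1 + c3 + θ0)) ^ e)) :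
    False := by
  have hR0 : 0 < R := by linarith
  have hK0 : 0 < K := by linarith
  have h1 : R * (R ^ (-1 + c3 + θ0)) ^ e ≤ R ^ (1 - e + c3 + θ0) := by
    rw [← Real.rpow_mul hR0.le]
    nth_rewrite 1 [← Real.rpow_one R]
    rw [← Real.rpow_add hR0]
    apply Real.rpow_le_rpow_of_exponent_le hR.le
    nlinarith
  have h2 : (1 : ℝ) ≤ R ^ (1 - e + c3 + θ0) := Real.one_le_rpow hR.le (by linarith)
  have h3 : n1 * R ^ (-s) ≤ C2 * K ^ p2 * (2 * R ^ (1 - e + c3 + θ0)) := by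
    refine hmain.trans ?_
    apply mul_le_mul_of_nonneg_left _ (by positivity)
    linarith
  have h4 : R ≤ K ^ 2 * n1 := by
    rw [div_le_iff₀ (by positivity)] at hn1; linarith
  have h5 : R ^ (1 - s) ≤ K ^ 2 * (n1 * R ^ (-s)) := by
    have e1 : R ^ (1 - s) = R * R ^ (-s) := by
      rw [sub_eq_add_neg, Real.rpow_add hR0, Real.rpow_one]
    rw [e1, ← mul_assoc]
    exact mul_le_mul_of_nonneg_right h4 (by positivity)
  have h6 : R ^ (1 - s) ≤ R ^ (η + (1 - e + c3 + θ0)) := by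
    calc R ^ (1 - s) ≤ K ^ 2 * (n1 * R ^ (-s)) := h5
      _ ≤ K ^ 2 * (C2 * K ^ p2 * (2 * R ^ (1 - e + c3 + θ0))) := by gcongr
      _ = (2 * C2 * K ^ (p2 + 2)) * R ^ (1 - e + c3 + θ0) := by ring
      _ ≤ R ^ η * R ^ (1 - e + c3 + θ0) := by gcongr
      _ = _ := by rw [← Real.rpow_add hR0]
  have h7 : R ^ (η + (1 - e + c3 + θ0)) < R ^ (1 - s) := by
    apply Real.rpow_lt_rpow_of_exponent_lt hR
    linarith
  linarith

/-- Numerical contradiction in the second case. -/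
lemma final_num2 (s c c3 θ0 η R K A A1 Cf C3 X δ N L f n1 : ℝ) (pf p3 : ℕ) (hs0 : 0 < s)
    (hs1 : s < 1) (hc : c = (1 - s) / 8) (hθ0 : 0 ≤ θ0)
    (hη : η + θ0 < c3 * (3 * (1 - s) / 4)) (hR : 1 < R) (hK : 1 ≤ K) (hA : 1 ≤ A) (hA1 : 1 ≤ A1)
    (hCf : 1 ≤ Cf) (hC3 : 1 ≤ C3) (hX : R ^ c3 ≤ X) (hδ : δ = A / X)
    (habs : 4 * A * A1 * Cf * C3 * K ^ (pf + 2 + p3) ≤ R ^ η) (hN : δ ^ (2 * c - 1) / 4 ≤ N)
    (hNL : N * L ≤ Cf * K ^ pf * R) (hn1 : R / K ^ 2 ≤ n1) (hn1L : n1 ≤ L * f)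
    (hf : 0 ≤ f) (hfC : f ≤ C3 * K ^ p3 * (A1 * X * R ^ θ0) ^ s) : False := by
  have hR0 : 0 < R := by linarith
  have hK0 : 0 < K := by linarith
  have hX0 : 0 < X := lt_of_lt_of_le (by positivity) hX
  have hδ0 : 0 < δ := by rw [hδ]; positivity
  have hN0 : 0 < N := lt_of_lt_of_le (by positivity) hN
  have h1 : N ≤ Cf * K ^ (pf + 2) * f := by
    have h2 : R ≤ K ^ 2 * n1 := by
      rw [div_le_iff₀ (by positivity)] at hn1; linarith
    have h3 : N * R ≤ (Cf * K ^ (pf + 2) * f) * R := by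
      calc N * R ≤ N * (K ^ 2 * n1) := by gcongr
        _ ≤ N * (K ^ 2 * (L * f)) := by gcongr
        _ = K ^ 2 * f * (N * L) := by ring
        _ ≤ K ^ 2 * f * (Cf * K ^ pf * R) := by gcongr
        _ = (Cf * K ^ (pf + 2) * f) * R := by ring
    exact le_of_mul_le_mul_right h3 hR0
  -- lower bound of N
  have h4 : X ^ (1 - 2 * c) / (4 * A) ≤ N := by
    refine le_trans ?_ hN
    have e1 : δ ^ (2 * c - 1) = X ^ (1 - 2 * c) / A ^ (1 - 2 * c) := by
      rw [hδ, Real.div_rpow (by linarith) hX0.le]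
      have e2 : 2 * c - 1 = -(1 - 2 * c) := by ring
      rw [e2, Real.rpow_neg (by linarith), Real.rpow_neg hX0.le]
      field_simp
    rw [e1, div_div]
    have h5 : A ^ (1 - 2 * c) ≤ A := by
      calc A ^ (1 - 2 * c) ≤ A ^ (1 : ℝ) :=
            Real.rpow_le_rpow_of_exponent_le hA (by rw [hc]; linarith)
        _ = A := Real.rpow_one A
    have h6 : 0 < A ^ (1 - 2 * c) := by positivity
    apply div_le_div_of_nonneg_left (by positivity) (by positivity)
    linarith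
  have h7 : (A1 * X * R ^ θ0) ^ s ≤ A1 * R ^ θ0 * X ^ s := by
    have e3 : A1 * X * R ^ θ0 = (A1 * R ^ θ0) * X := by ring
    have h8 : 1 ≤ A1 * R ^ θ0 := by
      have : (1 : ℝ) ≤ R ^ θ0 := Real.one_le_rpow hR.le hθ0
      nlinarith
    rw [e3, Real.mul_rpow (by linarith) hX0.le]
    apply mul_le_mul_of_nonneg_right _ (by positivity)
    calc (A1 * R ^ θ0) ^ s ≤ (A1 * R ^ θ0) ^ (1 : ℝ) :=
          Real.rpow_le_rpow_of_exponent_le h8 hs1.le
      _ = _ := Real.rpow_one _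
  have h9 : X ^ (1 - 2 * c) ≤ R ^ (η + θ0) * X ^ s := by
    have h10 : X ^ (1 - 2 * c) ≤ 4 * A * N := by
      rw [div_le_iff₀ (by positivity)] at h4; linarith
    calc X ^ (1 - 2 * c) ≤ 4 * A * N := h10
      _ ≤ 4 * A * (Cf * K ^ (pf + 2) * f) := by gcongr
      _ ≤ 4 * A * (Cf * K ^ (pf + 2) * (C3 * K ^ p3 * (A1 * R ^ θ0 * X ^ s))) := by
          gcongr
          exact hfC.trans (by gcongr)
      _ = (4 * A * A1 * Cf * C3 * K ^ (pf + 2 + p3)) * (R ^ θ0 * X ^ s) := by ring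
      _ ≤ R ^ η * (R ^ θ0 * X ^ s) := by gcongr
      _ = R ^ (η + θ0) * X ^ s := by rw [Real.rpow_add hR0]; ring
  have h11 : X ^ (3 * (1 - s) / 4) ≤ R ^ (η + θ0) := by
    have e4 : X ^ (1 - 2 * c) = X ^ (3 * (1 - s) / 4) * X ^ s := by
      rw [← Real.rpow_add hX0]; congr 1; rw [hc]; ring
    rw [e4] at h9
    exact le_of_mul_le_mul_right h9 (by positivity)
  have h12 : R ^ (c3 * (3 * (1 - s) / 4)) ≤ X ^ (3 * (1 - s) / 4) := by
    rw [Real.rpow_mul hR0.le]
    exact Real.rpow_le_rpow (by positivity) hX (by linarith)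
  have h13 : R ^ (η + θ0) < R ^ (c3 * (3 * (1 - s) / 4)) :=
    Real.rpow_lt_rpow_of_exponent_lt hR hη
  linarith

/-- D17. The final contradiction. -/
theorem claimFinal (h1 : ClaimRing) (h2 : ClaimAct) (h3 : ClaimNear) (h4 : ClaimCell)
    (h5 : ClaimSlope) : ClaimFinal := by
  classical
  intro s B Cf pf hs0 hs1 hB hCf
  have hB0 : (0 : ℝ) < B := by linarith
  obtain ⟨C1, p1, hC1, hslope⟩ := h5 s B hs0 hs1 hB
  obtain ⟨C2, e1, p2, hC2, he1, hnear⟩ := h3 s B hs0 hs1 hB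
  obtain ⟨e, he_def⟩ : ∃ e, e = min e1 1 := ⟨_, rfl⟩
  have he : s < e := by rw [he_def]; exact lt_min he1 hs1
  have he_le : e ≤ 1 := by rw [he_def]; exact min_le_right _ _
  have he_le1 : e ≤ e1 := by rw [he_def]; exact min_le_left _ _
  obtain ⟨c3, hc3⟩ : ∃ c3, c3 = (e - s) / 2 := ⟨_, rfl⟩
  have hc30 : 0 < c3 := by rw [hc3]; linarith
  have hc31 : c3 ≤ 1 / 2 := by rw [hc3]; linarith
  obtain ⟨c, hc⟩ : ∃ c, c = (1 - s) / 8 := ⟨_, rfl⟩
  have hc0 : 0 < c := by rw [hc]; linarith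
  have hc1 : c < 1 := by rw [hc]; linarith
  obtain ⟨m, κR, δR, hκR, hδR, hring⟩ := h1 (1 - s) B c (by linarith) hB hc0 hc1
  obtain ⟨l', hact⟩ := h2.2 m 4
  obtain ⟨C3, p3, hC3, hcell⟩ := h4 s B (Cf l') hs0 hs1 hB (hCf l')
  have hCfl := hCf l'
  obtain ⟨A, hA⟩ : ∃ A, A = 2 * B ^ 2 + Cf l' := ⟨_, rfl⟩
  obtain ⟨A1, hA1⟩ : ∃ A1, A1 = 1 + 2 * B ^ 2 * Cf l' := ⟨_, rfl⟩
  have hA_ge : 1 ≤ A := by rw [hA]; linarith [sq_nonneg B]
  have hA1_ge : 1 ≤ A1 := by
    have : 0 ≤ 2 * B ^ 2 * Cf l' := by positivity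
    rw [hA1]; linarith
  obtain ⟨η, hη_def⟩ : ∃ η, η = min (c3 * (1 - s) ^ 2 / 8) (c3 * κR / 2) := ⟨_, rfl⟩
  have h1s : 0 < 1 - s := by linarith
  have hη0 : 0 < η := by rw [hη_def]; exact lt_min (by positivity) (by positivity)
  have hη1 : η ≤ c3 * (1 - s) ^ 2 / 8 := by rw [hη_def]; exact min_le_left _ _
  have hη2 : η ≤ c3 * κR / 2 := by rw [hη_def]; exact min_le_right _ _
  obtain ⟨θ0, hθ0_def⟩ : ∃ θ0, θ0 = 2 * η / (1 - s) := ⟨_, rfl⟩
  have hθ0 : 0 < θ0 := by rw [hθ0_def]; positivity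
  have hθ0_mul : θ0 * (1 - s) = 2 * η := by rw [hθ0_def]; field_simp
  have hθ0_le : θ0 ≤ c3 * (1 - s) / 4 := by
    rw [hθ0_def, div_le_iff₀ h1s]
    have : c3 * (1 - s) / 4 * (1 - s) = 2 * (c3 * (1 - s) ^ 2 / 8) := by ring
    linarith
  have hcs : 0 < c3 * (1 - s) := by positivity
  have hcs2 : c3 * (1 - s) ≤ c3 := by
    have : 0 < c3 * s := by positivity
    linarith
  have hη_le : η ≤ c3 * (1 - s) / 8 := by
    have h8 : c3 * (1 - s) ^ 2 ≤ c3 * (1 - s) := by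
      have : c3 * (1 - s) ^ 2 = (c3 * (1 - s)) * (1 - s) := by ring
      rw [this]
      exact mul_le_of_le_one_right hcs.le (by linarith)
    linarith
  have hηθ1 : η + θ0 < c3 * (3 * (1 - s) / 4) := by linarith
  have hηθ2 : η + θ0 < c3 := by linarith
  have hθ01 : θ0 ≤ 1 / 8 := by linarith
  obtain ⟨κ, R1, hκ, hR1, habs⟩ := final_absorb η
    (2 * (C1 * B) + 2 * C2 + 4 * A * A1 * Cf l' * C3)
    ((p1 + 2) + (p2 + 2) + (pf l' + 2 + p3)) hη0
  refine ⟨κ, max (max R1 2) (max (A ^ (2 / c3)) ((1 / δR) ^ (2 / c3))), hκ,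
    hR1.trans ((le_max_left _ _).trans (le_max_left _ _)), ?_⟩
  intro R K μ E S P hR hK hKR hH hcard h1S hinv hSbd hcnt hPE hPS hPcard
  have hRR1 : R1 ≤ R := ((le_max_left _ _).trans (le_max_left _ _)).trans hR
  have hR2 : 2 ≤ R := ((le_max_right _ _).trans (le_max_left _ _)).trans hR
  have hRA : A ^ (2 / c3) ≤ R := ((le_max_left _ _).trans (le_max_right _ _)).trans hR
  have hRδ : (1 / δR) ^ (2 / c3) ≤ R := ((le_max_right _ _).trans (le_max_right _ _)).trans hR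
  have hR0 : 0 < R := by linarith
  have hRge1 : 1 ≤ R := by linarith
  have hRgt1 : 1 < R := by linarith
  have hK0 : 0 < K := by linarith
  have hroot : ∀ x : ℝ, 0 ≤ x → x ^ (2 / c3) ≤ R → x ≤ R ^ (c3 / 2) := by
    intro x hx hxR
    calc x = (x ^ (2 / c3)) ^ (c3 / 2) := by
          rw [← Real.rpow_mul hx]
          have : 2 / c3 * (c3 / 2) = 1 := by field_simp
          rw [this, Real.rpow_one]
      _ ≤ R ^ (c3 / 2) := Real.rpow_le_rpow (Real.rpow_nonneg hx _) hxR (by linarith)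
  have hA_le : A ≤ R ^ (c3 / 2) := hroot A (by linarith) hRA
  have hδR_le : 1 / δR ≤ R ^ (c3 / 2) := hroot _ (by positivity) hRδ
  -- absorption of constants
  have habs0 := habs R K hRR1 hK hKR
  have hbig : ∀ (a : ℝ) (p : ℕ), 0 ≤ a → a ≤ 2 * (C1 * B) + 2 * C2 + 4 * A * A1 * Cf l' * C3 →
      p ≤ (p1 + 2) + (p2 + 2) + (pf l' + 2 + p3) → a * K ^ p ≤ R ^ η := by
    intro a p ha0 ha hp
    refine le_trans ?_ habs0
    exact mul_le_mul ha (pow_le_pow_right₀ hK hp) (by positivity) (ha0.trans ha)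
  have q1 : 0 ≤ 2 * (C1 * B) := by positivity
  have q2 : 0 ≤ 2 * C2 := by positivity
  have q3 : 0 ≤ 4 * A * A1 * Cf l' * C3 := by positivity
  have habs1 : 2 * (C1 * B) * K ^ (p1 + 2) ≤ R ^ η := hbig _ _ q1 (by linarith) (by omega)
  have habs2 : 2 * C2 * K ^ (p2 + 2) ≤ R ^ η := hbig _ _ q2 (by linarith) (by omega)
  have habs3 : 4 * A * A1 * Cf l' * C3 * K ^ (pf l' + 2 + p3) ≤ R ^ η :=
    hbig _ _ q3 (by linarith) (by omega)
  have hEpos : (0 : ℝ) < E.card := lt_of_lt_of_le (by positivity) hcard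
  have hPpos : (0 : ℝ) < P.card := lt_of_lt_of_le (by positivity) hPcard
  have hPne : P.Nonempty := by
    rw [← Finset.card_pos]; exact_mod_cast hPpos
  have hprob := finalLaw_prob P hPne
  have hxbd : ∀ q ∈ P, (q.2 * q.1⁻¹).bd B := fun q hq => hSbd _ (hPS q hq)
  -- the law of the slopes
  have hfro : Fro (finalLaw P) (C1 * B * K ^ (p1 + 2)) (1 - s) (1 / R) :=
    final_fro s B K R C1 p1 E P hs0 hs1 hB hK hRge1 hC1 hH.bd hcard hPE hPcard
      (fun x w F hw hw1 hF hFx => hslope K R x w μ F hK hRge1 hw hw1 (hH.subset hF) hFx)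
  obtain ⟨θ, hθ_def⟩ : ∃ θ, θ = R ^ (-θ0) := ⟨_, rfl⟩
  have hθ_pos : 0 < θ := by rw [hθ_def]; positivity
  have hθ_le : θ ≤ 1 := by
    rw [hθ_def]; exact Real.rpow_le_one_of_one_le_of_nonpos hRge1 (by linarith)
  have hθ_inv : 1 / θ = R ^ θ0 := by rw [hθ_def, Real.rpow_neg hR0.le]; field_simp
  have hθ_R : 1 / R ≤ θ := by
    rw [hθ_def, one_div, ← Real.rpow_neg_one]
    apply Real.rpow_le_rpow_of_exponent_le hRge1
    linarith
  have hexq : ∃ q ∈ P, θ ≤ |(q.2 * q.1⁻¹).s - 1| := by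
    by_contra hcon
    push Not at hcon
    have hz : finalLaw P (Metric.closedBall 1 θ)ᶜ = 0 := by
      apply finalLaw_compl P _ Metric.isClosed_closedBall.measurableSet
      intro q hq
      rw [Metric.mem_closedBall, Real.dist_eq]
      exact (hcon q hq).le
    have h1' : (finalLaw P) (Metric.closedBall 1 θ) = 1 :=
      (prob_compl_eq_zero_iff Metric.isClosed_closedBall.measurableSet).mp hz
    have h2' := hfro 1 θ hθ_R
    rw [measureReal_def, h1', ENNReal.toReal_one] at h2'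
    have h3' : θ ^ (1 - s) = R ^ (-(2 * η)) := by
      rw [hθ_def, ← Real.rpow_mul hR0.le]; congr 1; linarith
    have h4' : 2 * (C1 * B * K ^ (p1 + 2) * θ ^ (1 - s)) ≤ R ^ η * R ^ (-(2 * η)) := by
      rw [h3']
      calc 2 * (C1 * B * K ^ (p1 + 2) * R ^ (-(2 * η))) =
          (2 * (C1 * B) * K ^ (p1 + 2)) * R ^ (-(2 * η)) := by ring
        _ ≤ _ := mul_le_mul_of_nonneg_right habs1 (by positivity)
    rw [← Real.rpow_add hR0] at h4'
    have h5' : R ^ (η + -(2 * η)) ≤ 1 :=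
      Real.rpow_le_one_of_one_le_of_nonpos hRge1 (by linarith)
    linarith
  -- the largest commutator
  obtain ⟨Q, hQ, hQmax⟩ := Finset.exists_max_image (P ×ˢ P)
    (fun z : (Aff × Aff) × (Aff × Aff) => |(1 - (z.2.2 * z.2.1⁻¹).s) * (z.1.2 * z.1.1⁻¹).t -
      (1 - (z.1.2 * z.1.1⁻¹).s) * (z.2.2 * z.2.1⁻¹).t|) (hPne.product hPne)
  obtain ⟨hQ1, hQ2⟩ := Finset.mem_product.mp hQ
  obtain ⟨y0, hy0⟩ : ∃ y0, y0 = (1 - (Q.2.2 * Q.2.1⁻¹).s) * (Q.1.2 * Q.1.1⁻¹).t -
      (1 - (Q.1.2 * Q.1.1⁻¹).s) * (Q.2.2 * Q.2.1⁻¹).t := ⟨_, rfl⟩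
  obtain ⟨r, hr⟩ : ∃ r, r = |y0| := ⟨_, rfl⟩
  have hr0 : 0 ≤ r := by rw [hr]; exact abs_nonneg _
  have hcom : ∀ q ∈ P, ∀ q' ∈ P, |(1 - (q'.2 * q'.1⁻¹).s) * (q.2 * q.1⁻¹).t -
      (1 - (q.2 * q.1⁻¹).s) * (q'.2 * q'.1⁻¹).t| ≤ r := by
    intro q hq q' hq'
    have := hQmax (q, q') (Finset.mem_product.mpr ⟨hq, hq'⟩)
    rw [hr, hy0]
    exact this
  have hr_le : r ≤ 2 * B ^ 2 := by
    have hone : ∀ x : Aff, x.bd B → |1 - x.s| ≤ B := by
      intro x hx
      rw [abs_le]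
      have := x.pos
      exact ⟨by linarith [hx.2.1], by linarith⟩
    have b1 := hxbd Q.1 hQ1
    have b2 := hxbd Q.2 hQ2
    rw [hr, hy0]
    calc |(1 - (Q.2.2 * Q.2.1⁻¹).s) * (Q.1.2 * Q.1.1⁻¹).t -
        (1 - (Q.1.2 * Q.1.1⁻¹).s) * (Q.2.2 * Q.2.1⁻¹).t| ≤
        |(1 - (Q.2.2 * Q.2.1⁻¹).s) * (Q.1.2 * Q.1.1⁻¹).t| +
        |(1 - (Q.1.2 * Q.1.1⁻¹).s) * (Q.2.2 * Q.2.1⁻¹).t| := abs_sub _ _
      _ ≤ B * B + B * B := by
          rw [abs_mul, abs_mul]
          exact add_le_add (mul_le_mul (hone _ b2) b1.2.2 (abs_nonneg _) hB0.le)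
            (mul_le_mul (hone _ b1) b2.2.2 (abs_nonneg _) hB0.le)
      _ = 2 * B ^ 2 := by ring
  obtain ⟨x0, p0, E1, hE1, hPE1, hfix, hp0⟩ := final_stab B θ r E P hB hθ_pos hθ_le hH.bd hxbd
    hPE hexq hcom
  have hn1 : R / K ^ 2 ≤ E1.card := by
    have a1 : (E.card : ℝ) ^ 2 / K ≤ (E1.card : ℝ) * E.card := hPcard.trans hPE1
    have a2 : (E.card : ℝ) / K ≤ E1.card := by
      rw [div_le_iff₀ hK0]
      rw [div_le_iff₀ hK0] at a1
      have : (E.card : ℝ) * E.card ≤ ((E1.card : ℝ) * K) * E.card := by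
        calc (E.card : ℝ) * E.card = (E.card : ℝ) ^ 2 := by ring
          _ ≤ (E1.card : ℝ) * E.card * K := a1
          _ = _ := by ring
      exact le_of_mul_le_mul_right this hEpos
    calc R / K ^ 2 = (R / K) / K := by rw [pow_two, div_div]
      _ ≤ (E.card : ℝ) / K := div_le_div_of_nonneg_right hcard hK0.le
      _ ≤ _ := a2
  by_cases hcase : r < R ^ (-1 + c3)
  · -- first case
    have hρ1 : R ^ (-1 + c3 + θ0) ≤ 1 :=
      Real.rpow_le_one_of_one_le_of_nonpos hRge1 (by linarith)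
    have hρ2 : 1 / R ≤ R ^ (-1 + c3 + θ0) := by
      rw [one_div, ← Real.rpow_neg_one]
      exact Real.rpow_le_rpow_of_exponent_le hRge1 (by linarith)
    have hρ3 : r / θ ≤ R ^ (-1 + c3 + θ0) := by
      rw [div_eq_mul_one_div, hθ_inv, Real.rpow_add hR0 (-1 + c3) θ0]
      exact mul_le_mul_of_nonneg_right hcase.le (by positivity)
    have hmain := hnear K R p0 x0 (R ^ (-1 + c3 + θ0)) μ E1 hK hRge1 (hH.subset hE1) hρ2 hρ1
      (fun g hg => (hfix g hg).trans hρ3)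
    have hmain2 : (E1.card : ℝ) * R ^ (-s) ≤
        C2 * K ^ p2 * (1 + R * (R ^ (-1 + c3 + θ0)) ^ e) := by
      refine hmain.trans ?_
      have : (R ^ (-1 + c3 + θ0)) ^ e1 ≤ (R ^ (-1 + c3 + θ0)) ^ e :=
        Real.rpow_le_rpow_of_exponent_ge (by positivity) hρ1 he_le1
      gcongr
    exact final_num1 s e c3 θ0 η R K C2 E1.card p2 he_le hc3 hθ0.le hc30 hηθ2 hRgt1 hK hC2 habs2
      hn1 hmain2
  · -- second case
    push Not at hcase
    have hrpos : 0 < r := lt_of_lt_of_le (by positivity) hcase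
    have hrR : 1 / R ≤ r := by
      refine le_trans ?_ hcase
      rw [one_div, ← Real.rpow_neg_one]
      exact Real.rpow_le_rpow_of_exponent_le hRge1 (by linarith)
    have hX : R ^ c3 ≤ R * r := by
      calc R ^ c3 = R * R ^ (-1 + c3) := by
            nth_rewrite 2 [← Real.rpow_one R]
            rw [← Real.rpow_add hR0]; congr 1; ring
        _ ≤ R * r := mul_le_mul_of_nonneg_left hcase hR0.le
    have hXpos : 0 < R * r := by positivity
    obtain ⟨δ, hδ⟩ : ∃ δ, δ = A / (R * r) := ⟨_, rfl⟩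
    have hδ0 : 0 < δ := by rw [hδ]; positivity
    have hδ_ge : 1 / R ≤ δ := by
      rw [hδ, div_le_div_iff₀ hR0 hXpos]
      have : r ≤ A := by rw [hA]; linarith
      calc 1 * (R * r) = r * R := by ring
        _ ≤ A * R := mul_le_mul_of_nonneg_right this hR0.le
    have hδ_le : δ ≤ R ^ (-(c3 / 2)) := by
      rw [hδ, div_le_iff₀ hXpos]
      calc A ≤ R ^ (c3 / 2) := hA_le
        _ = R ^ (-(c3 / 2)) * R ^ c3 := by rw [← Real.rpow_add hR0]; congr 1; ring
        _ ≤ R ^ (-(c3 / 2)) * (R * r) := by gcongr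
    have hδ_leR : δ ≤ δR := by
      refine hδ_le.trans ?_
      rw [Real.rpow_neg hR0.le]
      have := inv_anti₀ (by positivity) hδR_le
      simpa using this
    have hK1 : 1 ≤ C1 * B * K ^ (p1 + 2) := by
      have k1 : 1 ≤ K ^ (p1 + 2) := one_le_pow₀ hK
      have k2 : 1 ≤ C1 * B := one_le_mul_of_one_le_of_one_le hC1 hB
      exact one_le_mul_of_one_le_of_one_le k2 k1
    have hK2 : C1 * B * K ^ (p1 + 2) ≤ δ ^ (-κR) := by
      have k1 : C1 * B * K ^ (p1 + 2) ≤ R ^ η := by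
        have : 0 ≤ C1 * B * K ^ (p1 + 2) := by positivity
        have : 2 * (C1 * B) * K ^ (p1 + 2) = 2 * (C1 * B * K ^ (p1 + 2)) := by ring
        linarith
      refine k1.trans ?_
      calc R ^ η ≤ R ^ (c3 / 2 * κR) := Real.rpow_le_rpow_of_exponent_le hRge1 (by linarith)
        _ = (R ^ (-(c3 / 2))) ^ (-κR) := by rw [← Real.rpow_mul hR0.le]; congr 1; ring
        _ ≤ δ ^ (-κR) := Real.rpow_le_rpow_of_nonpos hδ0 hδ_le (by linarith)
    -- ring generation
    obtain ⟨D, hD⟩ : ∃ D : Finset ℝ, D = P.image fun q => (q.2 * q.1⁻¹).s := ⟨_, rfl⟩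
    have hDmem : ∀ q ∈ P, (q.2 * q.1⁻¹).s ∈ D := by
      intro q hq; rw [hD]; exact Finset.mem_image_of_mem _ hq
    have hDS : (↑D : Set ℝ) ⊆ {d | ∃ x ∈ S, x.s = d} := by
      intro d hd
      rw [hD] at hd
      obtain ⟨q, hq, rfl⟩ := Finset.mem_image.mp (Finset.mem_coe.mp hd)
      exact ⟨_, hPS q hq, rfl⟩
    have hDI : ∀ d ∈ D, d ∈ Icc 0 B := by
      intro d hd
      rw [hD] at hd
      obtain ⟨q, hq, rfl⟩ := Finset.mem_image.mp hd
      exact ⟨(q.2 * q.1⁻¹).pos.le, (hxbd q hq).2.1⟩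
    have hring2 := hring δ (C1 * B * K ^ (p1 + 2)) (finalLaw P) D hδ0 hδ_leR hK1 hK2 hprob
      (finalLaw_compl P _ measurableSet_Icc fun q hq => hDI _ (hDmem q hq))
      (finalLaw_compl P _ D.measurableSet fun q hq => hDmem q hq) hDI
      (hfro.mono le_rfl hδ_ge hδ0)
    -- the translations
    have hy0W : tr y0 ∈ Wd S 4 := by
      rw [hy0]
      exact h2.1 S hinv _ (hPS Q.1 hQ1) _ (hPS Q.2 hQ2)
    obtain ⟨I, hI⟩ : ∃ I : ℕ, I = ⌊δ ^ (2 * c - 1) / 4⌋₊ := ⟨_, rfl⟩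
    have hI1 : (I : ℝ) ≤ δ ^ (2 * c - 1) / 4 := by
      rw [hI]; exact Nat.floor_le (by positivity)
    have hI2 : δ ^ (2 * c - 1) / 4 ≤ ((I + 1 : ℕ) : ℝ) := by
      rw [hI]; push_cast; exact (Nat.lt_floor_add_one _).le
    have hz : ∀ i : ℕ, ∃ z : ℝ, i ≤ I → z ∈ RD (↑D : Set ℝ) m ∧
        |z - 4 * i * δ ^ (1 - c)| ≤ δ ^ (1 - c) := by
      intro i
      by_cases hi : i ≤ I
      · have hv : 4 * (i : ℝ) * δ ^ (1 - c) ∈ Icc 0 (δ ^ c) := by
          refine ⟨by positivity, ?_⟩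
          have hi' : (i : ℝ) ≤ δ ^ (2 * c - 1) / 4 := le_trans (by exact_mod_cast hi) hI1
          calc 4 * (i : ℝ) * δ ^ (1 - c) ≤ 4 * (δ ^ (2 * c - 1) / 4) * δ ^ (1 - c) := by gcongr
            _ = δ ^ (2 * c - 1) * δ ^ (1 - c) := by ring
            _ = δ ^ c := by rw [← Real.rpow_add hδ0]; congr 1; ring
        obtain ⟨z, hz1, hz2⟩ := hring2 _ hv
        exact ⟨z, fun _ => ⟨hz1, hz2⟩⟩
      · exact ⟨0, fun h => absurd h hi⟩
    choose z hz using hz
    have hd0 : 0 < Cf l' / R := by positivity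
    obtain ⟨Λ, hΛE, hΛsep, hΛnet⟩ := final_net E (Cf l' / R) hd0
    have hsepG : ∀ i j : ℕ, i ≤ I → j ≤ I → ∀ g ∈ Λ, ∀ h ∈ Λ, (i, g) ≠ (j, h) →
        Cf l' / R ≤ (tr (z i * y0) * g).ad (tr (z j * y0) * h) := by
      intro i j hi hj g hg h hh hne
      by_cases hgh : g = h
      · subst hgh
        have hij : i ≠ j := fun hij => hne (by rw [hij])
        have hij1 : (1 : ℝ) ≤ |(i : ℝ) - j| := by
          have : (1 : ℤ) ≤ |(i : ℤ) - j| := by
            apply Int.one_le_abs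
            intro h0
            apply hij
            omega
          exact_mod_cast this
        have w0 : 0 < δ ^ (1 - c) := by positivity
        have hzz : 2 * δ ^ (1 - c) ≤ |z i - z j| := by
          have a1 := (hz i hi).2
          have a2 := (hz j hj).2
          have a3 : 4 * δ ^ (1 - c) ≤ |4 * (i : ℝ) * δ ^ (1 - c) - 4 * j * δ ^ (1 - c)| := by
            have : 4 * (i : ℝ) * δ ^ (1 - c) - 4 * j * δ ^ (1 - c) =
                ((i : ℝ) - j) * (4 * δ ^ (1 - c)) := by ring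
            rw [this, abs_mul, abs_of_pos (by positivity : 0 < 4 * δ ^ (1 - c))]
            exact le_mul_of_one_le_left (by positivity) hij1
          have a4 : |4 * (i : ℝ) * δ ^ (1 - c) - 4 * j * δ ^ (1 - c)| ≤
              |z i - 4 * i * δ ^ (1 - c)| + |z i - z j| + |z j - 4 * j * δ ^ (1 - c)| := by
            have : 4 * (i : ℝ) * δ ^ (1 - c) - 4 * j * δ ^ (1 - c) =
                -(z i - 4 * i * δ ^ (1 - c)) + (z i - z j) + (z j - 4 * j * δ ^ (1 - c)) := by ring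
            rw [this]
            refine (abs_add_le _ _).trans ?_
            gcongr
            refine (abs_add_le _ _).trans ?_
            rw [abs_neg]
          linarith
        refine le_trans ?_ (t_le_ad _ _)
        have e5 : (tr (z i * y0) * g).t - (tr (z j * y0) * g).t = (z i - z j) * y0 := by
          simp; ring
        rw [e5, abs_mul, ← hr]
        have e6 : Cf l' / R ≤ δ * r := by
          rw [hδ, div_mul_eq_mul_div, div_le_div_iff₀ hR0 hXpos]
          have : Cf l' ≤ A := by rw [hA]; linarith [sq_nonneg B]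
          have : Cf l' * (R * r) ≤ A * (R * r) := mul_le_mul_of_nonneg_right this hXpos.le
          linarith
        have e7 : δ ≤ 2 * δ ^ (1 - c) := by
          have hδ1 : δ ≤ 1 := hδ_le.trans
            (Real.rpow_le_one_of_one_le_of_nonpos hRge1 (by linarith))
          have : δ ^ (1 : ℝ) ≤ δ ^ (1 - c) :=
            Real.rpow_le_rpow_of_exponent_ge hδ0 hδ1 (by linarith)
          rw [Real.rpow_one] at this
          linarith
        calc Cf l' / R ≤ δ * r := e6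
          _ ≤ |z i - z j| * r := mul_le_mul_of_nonneg_right (e7.trans hzz) hrpos.le
      · refine le_trans (hΛsep g hg h hh hgh) ?_
        refine le_trans (le_of_eq ?_) (s_le_ad _ _)
        simp
    obtain ⟨G, hG⟩ : ∃ G : Finset Aff, G = (Finset.range (I + 1) ×ˢ Λ).image
        fun p => tr (z p.1 * y0) * p.2 := ⟨_, rfl⟩
    have hinj : Set.InjOn (fun p : ℕ × Aff => tr (z p.1 * y0) * p.2)
        (↑(Finset.range (I + 1) ×ˢ Λ) : Set (ℕ × Aff)) := by
      rintro ⟨i, g⟩ hp ⟨j, h⟩ hq hpq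
      by_contra hne
      obtain ⟨hi, hg⟩ := Finset.mem_product.mp (Finset.mem_coe.mp hp)
      obtain ⟨hj, hh⟩ := Finset.mem_product.mp (Finset.mem_coe.mp hq)
      have hi' : i ≤ I := Nat.lt_succ_iff.mp (Finset.mem_range.mp hi)
      have hj' : j ≤ I := Nat.lt_succ_iff.mp (Finset.mem_range.mp hj)
      have := hsepG i j hi' hj' g hg h hh hne
      have hpq' : tr (z i * y0) * g = tr (z j * y0) * h := hpq
      rw [hpq', ad_self] at this
      linarith
    have hGcard : (G.card : ℝ) = ((I + 1 : ℕ) : ℝ) * Λ.card := by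
      rw [hG, Finset.card_image_of_injOn hinj, Finset.card_product, Finset.card_range]
      push_cast; ring
    have hGmem : ∀ x ∈ G, x ∈ {z | ∃ w ∈ Wd S l', ∃ e ∈ E, z = w * e} := by
      intro x hx
      rw [hG] at hx
      obtain ⟨p, hp, rfl⟩ := Finset.mem_image.mp hx
      obtain ⟨hi, hg⟩ := Finset.mem_product.mp hp
      have hi' : p.1 ≤ I := Nat.lt_succ_iff.mp (Finset.mem_range.mp hi)
      exact ⟨tr (z p.1 * y0), hact S h1S hinv y0 hy0W _ (final_RD_mono hDS m (hz p.1 hi').1),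
        p.2, hΛE hg, rfl⟩
    have hGsep : Sep (Cf l' / R) G := by
      intro x hx y hy hne
      rw [hG] at hx hy
      obtain ⟨⟨i, g⟩, hp, rfl⟩ := Finset.mem_image.mp hx
      obtain ⟨⟨j, h⟩, hq, rfl⟩ := Finset.mem_image.mp hy
      obtain ⟨hi, hg⟩ := Finset.mem_product.mp hp
      obtain ⟨hj, hh⟩ := Finset.mem_product.mp hq
      apply hsepG i j (Nat.lt_succ_iff.mp (Finset.mem_range.mp hi))
        (Nat.lt_succ_iff.mp (Finset.mem_range.mp hj)) g hg h hh
      intro heq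
      apply hne
      rw [Prod.mk.injEq] at heq
      rw [heq.1, heq.2]
    have hNL := hcnt l' G hGmem hGsep
    rw [hGcard] at hNL
    -- pigeonhole
    have hE1ne : E1.Nonempty := by
      rw [← Finset.card_pos]
      have : (0 : ℝ) < E1.card := lt_of_lt_of_le (by positivity) hn1
      exact_mod_cast this
    have hΛne : Λ.Nonempty := by
      obtain ⟨g, hg⟩ := hE1ne
      obtain ⟨h, hh, _⟩ := hΛnet g (hE1 hg)
      exact ⟨h, hh⟩
    obtain ⟨h0, hh0, hmax⟩ := Finset.exists_max_image Λ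
      (fun h => (E1.filter fun g => |g.s - h.s| ≤ Cf l' / R).card) hΛne
    obtain ⟨F, hF⟩ : ∃ F : Finset Aff, F = E1.filter fun g => |g.s - h0.s| ≤ Cf l' / R :=
      ⟨_, rfl⟩
    have hFE1 : F ⊆ E1 := by rw [hF]; exact Finset.filter_subset _ _
    have hn1L : (E1.card : ℝ) ≤ Λ.card * F.card := by
      have hsub : E1 ⊆ Λ.biUnion fun h => E1.filter fun g => |g.s - h.s| ≤ Cf l' / R := by
        intro g hg
        obtain ⟨h, hh, hgh⟩ := hΛnet g (hE1 hg)
        exact Finset.mem_biUnion.mpr ⟨h, hh, Finset.mem_filter.mpr ⟨hg, hgh⟩⟩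
      have b1 : E1.card ≤ Λ.card * F.card := by
        calc E1.card ≤ _ := Finset.card_le_card hsub
          _ ≤ ∑ h ∈ Λ, (E1.filter fun g => |g.s - h.s| ≤ Cf l' / R).card :=
              Finset.card_biUnion_le
          _ ≤ ∑ _h ∈ Λ, F.card := Finset.sum_le_sum fun h hh => by rw [hF]; exact hmax h hh
          _ = Λ.card * F.card := by rw [Finset.sum_const, smul_eq_mul]
      exact_mod_cast b1
    have hFcell := hcell K R h0.s (x0 - h0.s * p0) (A1 * r / θ) μ F hK hRge1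
      (hH.subset (hFE1.trans hE1)) (by
        refine hrR.trans ?_
        rw [le_div_iff₀ hθ_pos]
        calc r * θ ≤ r * 1 := mul_le_mul_of_nonneg_left hθ_le hr0
          _ = 1 * r := by ring
          _ ≤ A1 * r := mul_le_mul_of_nonneg_right hA1_ge hr0) (by
        intro g hg
        rw [hF] at hg
        obtain ⟨hg1, hg2⟩ := Finset.mem_filter.mp hg
        refine ⟨hg2, ?_⟩
        have c1 := hfix g hg1
        have e8 : g.t - (x0 - h0.s * p0) = (g.act p0 - x0) - (g.s - h0.s) * p0 := by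
          unfold Aff.act; ring
        rw [e8]
        calc |(g.act p0 - x0) - (g.s - h0.s) * p0| ≤ |g.act p0 - x0| + |(g.s - h0.s) * p0| :=
              abs_sub _ _
          _ ≤ r / θ + (Cf l' / R) * (2 * B ^ 2 / θ) := by
              rw [abs_mul]
              exact add_le_add c1 (mul_le_mul hg2 hp0 (abs_nonneg _) hd0.le)
          _ = r / θ + (1 / R) * (2 * B ^ 2 * Cf l' / θ) := by ring
          _ ≤ r / θ + r * (2 * B ^ 2 * Cf l' / θ) := by gcongr
          _ = A1 * r / θ := by rw [hA1]; ring)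
    have hfC : (F.card : ℝ) ≤ C3 * K ^ p3 * (A1 * (R * r) * R ^ θ0) ^ s := by
      have e9 : R * (A1 * r / θ) = A1 * (R * r) * R ^ θ0 := by
        rw [← hθ_inv]; ring
      rw [← e9]; exact hFcell
    exact final_num2 s c c3 θ0 η R K A A1 (Cf l') C3 (R * r) δ ((I + 1 : ℕ) : ℝ) Λ.card F.card
      E1.card (pf l') p3 hs0 hs1 hc hθ0.le hηθ1 hRgt1 hK hA_ge hA1_ge hCfl hC3 hX hδ habs3 hI2
      hNL hn1 hn1L (by positivity) hfC

end Pool.Agent.Work.MP_1151e3_an
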