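import Pool.Agent.Work.MP_1151e3_an.Basic

/-!
# A0: Frostman measures on compact parts of Borel sets
-/

set_option autoImplicit false

namespace Pool.Agent.Work.MP_1151e3_an

open MeasureTheory Set
open scoped ENNReal

/-- Integer translation of a dyadic interval. -/
theorem frost_dy_shift (m : ℕ) (j k : ℤ) (x : ℝ) (hx : x - k ∈ dy m j) :
    x ∈ dy m (j + k * 2 ^ m) := by
  have h2 : (0 : ℝ) < 2 ^ m := by positivity
  obtain ⟨h1, h3⟩ := hx
  rw [div_le_iff₀ h2] at h1
  rw [lt_div_iff₀ h2] at h3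
  constructor
  · rw [div_le_iff₀ h2]
    push_cast
    linarith
  · rw [lt_div_iff₀ h2]
    push_cast
    linarith

/-- The content does not increase under integer translations. -/
theorem frost_cont_shift (s : ℝ) (X Y : Set ℝ) (k : ℤ) (h : ∀ x ∈ X, x - k ∈ Y) :
    cont s X ≤ cont s Y := by
  unfold cont
  refine le_iInf₂ fun Q hQ => ?_
  refine iInf₂_le_of_le (fun i => (Q i).map fun q => (q.1, q.2 + k * 2 ^ q.1)) ?_ ?_
  · intro x hx
    have h1 := hQ (h x hx)
    rw [mem_iUnion] at h1 ⊢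
    obtain ⟨i, hi⟩ := h1
    refine ⟨i, ?_⟩
    cases hq : Q i with
    | none => rw [hq] at hi; exact absurd hi (notMem_empty _)
    | some q =>
      rw [hq] at hi
      beta_reduce
      rw [hq]
      exact frost_dy_shift q.1 q.2 k x hi
  · refine ENNReal.tsum_le_tsum fun i => ?_
    beta_reduce
    cases hq : Q i with
    | none => exact le_refl _
    | some q => exact le_refl _

theorem claimFrost (h1 : ClaimContPos) (h3 : ClaimCap) (h4 : ClaimFroCompact) : ClaimFrost := by
  intro A s hA hs0 hs1 hdim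
  obtain ⟨k, hk⟩ := h1 A s hs0 hdim
  set A' : Set ℝ := (fun x : ℝ => x + k) ⁻¹' (A ∩ dy 0 k) with hA'
  have hm : MeasurableSet A' := by
    have h5 : Measurable fun x : ℝ => x + (k : ℝ) := by fun_prop
    exact h5 (hA.inter measurableSet_Ico)
  have hsub : A' ⊆ Icc 0 1 := by
    rintro x ⟨_, hx1, hx2⟩
    simp only [pow_zero, div_one] at hx1 hx2
    constructor <;> linarith
  have hpos : 0 < cont s A' := by
    refine lt_of_lt_of_le hk (frost_cont_shift s _ _ k fun x hx => ?_)
    change x - k + k ∈ A ∩ dy 0 k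
    rwa [sub_add_cancel]
  obtain ⟨Kc, hKA, hKc, hKpos⟩ := h3 s A' hs0 hm.analyticSet hsub hpos
  obtain ⟨μ, hμ1, hμ2, C, hC, hμ3⟩ := h4 s Kc hs0 hs1.le hKc (hKA.trans hsub) hKpos
  exact ⟨k, Kc, μ, hKc, hKA.trans hsub, fun x hx => (hKA hx).1, hμ1, hμ2, C, hC, hμ3⟩

end Pool.Agent.Work.MP_1151e3_an
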