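import Pool.Agent.Work.MP_1151e3_an.Basic

/-!
# The graph of rich pairs is dense (item D4a)
-/

set_option autoImplicit false

namespace Pool.Agent.Work.MP_1151e3_an

open MeasureTheory Set Aff
open scoped ENNReal

theorem graph_mm_le {s B K R : ℝ} {μ : Measure ℝ} (hs : 0 < s) (hs1 : s < 1) (hB : 1 ≤ B)
    (hK : 1 ≤ K) (hR : 1 ≤ R) (hp : IsProbabilityMeasure μ) (hf : Fro μ K s (1 / R)) (g h : Aff)
    (hh : h.bd B) : mm μ (B / R) g h ≤ B ^ 2 * K * R ^ (-s) := by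
  have hB0 : 0 < B := by linarith
  have hR0 : 0 < R := by linarith
  have hK0 : 0 < K := by linarith
  obtain ⟨h1, h2, h3⟩ := hh
  have hS : MeasurableSet {p : ℝ × ℝ | |g.act p.1 - h.act p.2| ≤ B / R} := by
    refine measurableSet_le ?_ measurable_const
    unfold Aff.act
    fun_prop
  have key : ∀ a : ℝ, μ (Prod.mk a ⁻¹' {p : ℝ × ℝ | |g.act p.1 - h.act p.2| ≤ B / R}) ≤
      ENNReal.ofReal (B ^ 2 * K * R ^ (-s)) := by
    intro a
    have hsub : Prod.mk a ⁻¹' {p : ℝ × ℝ | |g.act p.1 - h.act p.2| ≤ B / R} ⊆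
        Metric.closedBall ((g.act a - h.t) / h.s) (B ^ 2 / R) := by
      intro b hb
      simp only [mem_preimage, mem_setOf_eq] at hb
      rw [Metric.mem_closedBall, Real.dist_eq]
      have hs0 := h.pos
      have e1 : b - (g.act a - h.t) / h.s = -(g.act a - h.act b) / h.s := by
        unfold Aff.act
        field_simp
        ring
      rw [e1, abs_div, abs_neg, abs_of_pos hs0, div_le_iff₀ hs0]
      calc |g.act a - h.act b| ≤ B / R := hb
        _ = B ^ 2 / R * B⁻¹ := by field_simp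
        _ ≤ B ^ 2 / R * h.s := by gcongr
    have h4 : μ.real (Metric.closedBall ((g.act a - h.t) / h.s) (B ^ 2 / R)) ≤
        K * (B ^ 2 / R) ^ s := hf _ _ (by gcongr; nlinarith)
    have h5 : K * (B ^ 2 / R) ^ s ≤ B ^ 2 * K * R ^ (-s) := by
      rw [Real.div_rpow (by positivity) hR0.le, Real.rpow_neg hR0.le, div_eq_mul_inv]
      have h6 : (B ^ 2) ^ s ≤ B ^ 2 := by
        calc (B ^ 2) ^ s ≤ (B ^ 2) ^ (1 : ℝ) :=
              Real.rpow_le_rpow_of_exponent_le (by nlinarith) hs1.le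
          _ = B ^ 2 := Real.rpow_one _
      have h7 : 0 < (R ^ s)⁻¹ := by positivity
      calc K * ((B ^ 2) ^ s * (R ^ s)⁻¹) ≤ K * (B ^ 2 * (R ^ s)⁻¹) := by gcongr
        _ = _ := by ring
    calc μ (Prod.mk a ⁻¹' {p : ℝ × ℝ | |g.act p.1 - h.act p.2| ≤ B / R})
        ≤ μ (Metric.closedBall ((g.act a - h.t) / h.s) (B ^ 2 / R)) := measure_mono hsub
      _ = ENNReal.ofReal (μ.real (Metric.closedBall ((g.act a - h.t) / h.s) (B ^ 2 / R))) :=
          (ofReal_measureReal (by finiteness)).symm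
      _ ≤ _ := ENNReal.ofReal_le_ofReal (h4.trans h5)
  unfold mm
  have h8 : (μ.prod μ) {p : ℝ × ℝ | |g.act p.1 - h.act p.2| ≤ B / R} ≤
      ENNReal.ofReal (B ^ 2 * K * R ^ (-s)) := by
    rw [Measure.prod_apply hS]
    calc ∫⁻ a, μ (Prod.mk a ⁻¹' {p : ℝ × ℝ | |g.act p.1 - h.act p.2| ≤ B / R}) ∂μ
        ≤ ∫⁻ _, ENNReal.ofReal (B ^ 2 * K * R ^ (-s)) ∂μ := lintegral_mono key
      _ = _ := by simp
  exact ENNReal.toReal_le_of_le_ofReal (by positivity) h8

theorem claimGraph : ClaimGraph := by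
  classical
  intro s B hs hs1 hB
  refine ⟨2 * B ^ 2, by nlinarith, ?_⟩
  intro K R μ E hK hR hE
  have hR0 : 0 < R := by linarith
  have hK0 : 0 < K := by linarith
  have hRs : 0 < R ^ (-s) := by positivity
  have h1 : ∀ g ∈ E, ∀ h ∈ E, mm μ (B / R) g h ≤ B ^ 2 * K * R ^ (-s) := fun g _ h hh =>
    graph_mm_le hs hs1 hB hK hR hE.prob hE.fro g h (hE.bd h hh)
  refine ⟨fun g hg h hh => (h1 g hg h hh).trans ?_, ?_⟩
  · have : 0 ≤ B ^ 2 * K * R ^ (-s) := by positivity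
    linarith
  have h2 := hE.her E (Finset.Subset.refl E)
  rw [← Finset.sum_product'] at h2
  set N := (E ×ˢ E).filter fun p => R ^ (-s) / (2 * K) ≤ mm μ (B / R) p.1 p.2 with hN
  have h3 : ∑ x ∈ E ×ˢ E, mm μ (B / R) x.1 x.2 ≤
      (N.card : ℝ) * (B ^ 2 * K * R ^ (-s)) + (E.card : ℝ) ^ 2 * (R ^ (-s) / (2 * K)) := by
    rw [← Finset.sum_filter_add_sum_filter_not (E ×ˢ E)
      (fun p => R ^ (-s) / (2 * K) ≤ mm μ (B / R) p.1 p.2)]
    refine add_le_add ?_ ?_
    · calc ∑ x ∈ N, mm μ (B / R) x.1 x.2 ≤ ∑ _x ∈ N, B ^ 2 * K * R ^ (-s) := by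
            refine Finset.sum_le_sum fun x hx => ?_
            have hx2 := (Finset.mem_filter.1 hx).1
            rw [Finset.mem_product] at hx2
            exact h1 _ hx2.1 _ hx2.2
        _ = _ := by simp
    · calc ∑ x ∈ (E ×ˢ E).filter (fun p => ¬ R ^ (-s) / (2 * K) ≤ mm μ (B / R) p.1 p.2),
            mm μ (B / R) x.1 x.2
          ≤ ∑ _x ∈ (E ×ˢ E).filter (fun p => ¬ R ^ (-s) / (2 * K) ≤ mm μ (B / R) p.1 p.2),
              R ^ (-s) / (2 * K) :=
            Finset.sum_le_sum fun x hx => (not_le.1 (Finset.mem_filter.1 hx).2).le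
        _ = (((E ×ˢ E).filter (fun p => ¬ R ^ (-s) / (2 * K) ≤ mm μ (B / R) p.1 p.2)).card : ℝ)
              * (R ^ (-s) / (2 * K)) := by simp
        _ ≤ _ := by
            have h4 : (((E ×ˢ E).filter
                (fun p => ¬ R ^ (-s) / (2 * K) ≤ mm μ (B / R) p.1 p.2)).card : ℝ) ≤
                (E.card : ℝ) ^ 2 := by
              have := Finset.card_filter_le (E ×ˢ E)
                (fun p => ¬ R ^ (-s) / (2 * K) ≤ mm μ (B / R) p.1 p.2)
              rw [Finset.card_product] at this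
              rw [sq]
              exact_mod_cast this
            gcongr
  have h5 := h2.trans h3
  have h6 : R ^ (-s) * (E.card : ℝ) ^ 2 ≤ R ^ (-s) * (2 * B ^ 2 * K ^ 2 * (N.card : ℝ)) := by
    have h7 : R ^ (-s) / K * (E.card : ℝ) ^ 2 * (2 * K) ≤
        ((N.card : ℝ) * (B ^ 2 * K * R ^ (-s)) + (E.card : ℝ) ^ 2 * (R ^ (-s) / (2 * K))) *
          (2 * K) := by gcongr
    have h8 : R ^ (-s) / K * (E.card : ℝ) ^ 2 * (2 * K) = 2 * (R ^ (-s) * (E.card : ℝ) ^ 2) := by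
      field_simp
    have h9 : ((N.card : ℝ) * (B ^ 2 * K * R ^ (-s)) + (E.card : ℝ) ^ 2 * (R ^ (-s) / (2 * K))) *
          (2 * K) = R ^ (-s) * (2 * B ^ 2 * K ^ 2 * (N.card : ℝ)) + R ^ (-s) * (E.card : ℝ) ^ 2 := by
      field_simp
    linarith
  exact le_of_mul_le_mul_left h6 hRs

end Pool.Agent.Work.MP_1151e3_an
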