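import Pool.Agent.Work.MP_1151e3_an.Basic

/-!
# The hereditary inequality (item C1)
-/

set_option autoImplicit false

namespace Pool.Agent.Work.MP_1151e3_an

open MeasureTheory Set Aff
open scoped ENNReal

/-- The kernel with values in the extended nonnegative reals. -/
noncomputable def herKk (R : ℝ) (x : ℝ) : ℝ≥0∞ := ENNReal.ofReal (sc R k2 x)

/-- `Vh` with values in the extended nonnegative reals. -/
noncomputable def herV (μ : Measure ℝ) (R : ℝ) (p : ℝ × ℝ) (v : ℝ) : ℝ≥0∞ :=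
  ∫⁻ a, herKk R (p.2 - v - logG p.1 a) ∂μ

/-- Facts about `k2` needed here. -/
structure HerK : Prop where
  cont : Continuous k2
  nonneg : ∀ x, 0 ≤ k2 x
  le : ∀ x, k2 x ≤ 6
  supp : ∀ x, 1 / 2 ≤ |x| → k2 x = 0
  int : ∫ x, k2 x = 2
  integrable : Integrable k2

theorem herK (h : ClaimKer) : HerK := by
  obtain ⟨⟨t1, t2, t3, t4, t5, t6⟩, -, -, ⟨C, hC⟩, n2, s2, -⟩ := h
  have hcs : HasCompactSupport k2 := by
    refine HasCompactSupport.intro (K := Icc (-(1 / 2)) (1 / 2)) isCompact_Icc fun x hx => ?_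
    refine s2 x ?_
    by_contra hcon
    push Not at hcon
    exact hx ⟨by linarith [(abs_lt.1 hcon).1], by linarith [(abs_lt.1 hcon).2]⟩
  have htc : HasCompactSupport th := by
    refine HasCompactSupport.intro (K := Icc (-(1 / 2)) (1 / 2)) isCompact_Icc fun x hx => ?_
    refine t3 x ?_
    by_contra hcon
    push Not at hcon
    exact hx ⟨by linarith [(abs_lt.1 hcon).1], by linarith [(abs_lt.1 hcon).2]⟩
  have hti : Integrable th := t1.integrable_of_hasCompactSupport htc
  refine ⟨hC.cont, n2, fun x => ?_, s2, ?_, hC.cont.integrable_of_hasCompactSupport hcs⟩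
  · unfold k2
    linarith [t5 (2 * x), t5 x]
  · unfold k2
    have e1 : ∫ x : ℝ, 2 * th (2 * x) = 1 := by
      rw [integral_const_mul, Measure.integral_comp_mul_left, t6]
      simp
    have hi : Integrable fun x : ℝ => 2 * th (2 * x) :=
      (hti.comp_mul_left' (by norm_num : (2 : ℝ) ≠ 0)).const_mul 2
    rw [integral_add hi hti, e1, t6]
    norm_num

section

variable (H : HerK) {R : ℝ} (hR : 1 ≤ R)

include H

theorem her_meas : Measurable (herKk R) := by
  unfold herKk sc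
  have := H.cont
  exact (Measurable.ennreal_ofReal (by fun_prop))

include hR

theorem her_le (x : ℝ) : herKk R x ≤ ENNReal.ofReal (6 * R) := by
  unfold herKk sc
  refine ENNReal.ofReal_le_ofReal ?_
  have := H.le (R * x)
  nlinarith

omit hR in
theorem her_supp (x : ℝ) (h : 1 / 2 ≤ |R * x|) : herKk R x = 0 := by
  unfold herKk sc
  rw [H.supp _ h]
  simp

theorem her_int (x : ℝ) : ∫⁻ v, herKk R (x - v) = 2 := by
  unfold herKk
  have hR0 : (0 : ℝ) < R := by linarith
  have hi : Integrable fun v : ℝ => sc R k2 (x - v) := by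
    unfold sc
    exact ((H.integrable.comp_mul_left' hR0.ne').comp_sub_left x).const_mul R
  rw [← ofReal_integral_eq_lintegral_ofReal hi (Filter.Eventually.of_forall fun v => by
    unfold sc
    exact mul_nonneg hR0.le (H.nonneg _))]
  have : ∫ v, sc R k2 (x - v) = 2 := by
    rw [integral_sub_left_eq_self (fun v => sc R k2 v) volume x]
    unfold sc
    rw [integral_const_mul, Measure.integral_comp_mul_left, H.int, smul_eq_mul, abs_inv,
      abs_of_pos hR0]
    field_simp
  rw [this]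
  simp

theorem herV_le {μ : Measure ℝ} [IsProbabilityMeasure μ] (p : ℝ × ℝ) (v : ℝ) :
    herV μ R p v ≤ ENNReal.ofReal (6 * R) := by
  unfold herV
  calc ∫⁻ a, herKk R (p.2 - v - logG p.1 a) ∂μ ≤ ∫⁻ _, ENNReal.ofReal (6 * R) ∂μ :=
        lintegral_mono fun a => her_le H hR _
    _ = _ := by simp

omit hR in
theorem herV_meas_aux (p : ℝ × ℝ) :
    Measurable fun z : ℝ × ℝ => herKk R (p.2 - z.1 - logG p.1 z.2) := by
  refine (her_meas H).comp ?_
  unfold logG
  have := Real.measurable_log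
  fun_prop

omit hR in
theorem herV_meas {μ : Measure ℝ} [IsProbabilityMeasure μ] (p : ℝ × ℝ) :
    Measurable (herV μ R p) := by
  unfold herV
  exact (herV_meas_aux H p).lintegral_prod_right'

theorem Vh_eq {μ : Measure ℝ} [IsProbabilityMeasure μ] (p : ℝ × ℝ) (v : ℝ) :
    Vh μ R p v = (herV μ R p v).toReal := by
  unfold Vh herV herKk
  rw [integral_eq_lintegral_of_nonneg_ae]
  · refine Filter.Eventually.of_forall fun a => ?_
    unfold sc
    exact mul_nonneg (by linarith) (H.nonneg _)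
  · have h1 : Measurable fun a => sc R k2 (p.2 - v - logG p.1 a) := by
      unfold sc logG
      have := H.cont.measurable
      have := Real.measurable_log
      fun_prop
    exact h1.aestronglyMeasurable

theorem enorm_Vh {μ : Measure ℝ} [IsProbabilityMeasure μ] (p : ℝ × ℝ) (v : ℝ) :
    ‖Vh μ R p v‖ₑ = herV μ R p v := by
  rw [Vh_eq H hR, Real.enorm_eq_ofReal ENNReal.toReal_nonneg, ENNReal.ofReal_toReal]
  exact ne_top_of_le_ne_top ENNReal.ofReal_ne_top (herV_le H hR p v)

/-- The correlation of two kernels. -/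
theorem her_corr (x y : ℝ) : ∫⁻ v, herKk R (x - v) * herKk R (y - v) ≤
    ({z : ℝ × ℝ | |z.1 - z.2| ≤ 1 / R}.indicator (fun _ => ENNReal.ofReal (12 * R)) (x, y)) := by
  have hR0 : (0 : ℝ) < R := by linarith
  by_cases hxy : |x - y| ≤ 1 / R
  · rw [indicator_of_mem (by exact hxy)]
    calc ∫⁻ v, herKk R (x - v) * herKk R (y - v)
        ≤ ∫⁻ v, herKk R (x - v) * ENNReal.ofReal (6 * R) :=
          lintegral_mono fun v => by gcongr; exact her_le H hR _
      _ = 2 * ENNReal.ofReal (6 * R) := by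
          have h1 := lintegral_mul_const (μ := volume) (ENNReal.ofReal (6 * R))
            (f := fun v => herKk R (x - v)) ((her_meas H).comp (by fun_prop))
          rw [h1, her_int H hR]
      _ = ENNReal.ofReal (12 * R) := by
          rw [show (12 * R : ℝ) = 2 * (6 * R) by ring, ENNReal.ofReal_mul (by norm_num)]
          simp
  · rw [indicator_of_notMem (by exact hxy)]
    have : ∀ v, herKk R (x - v) * herKk R (y - v) = 0 := by
      intro v
      by_cases h1 : 1 / 2 ≤ |R * (x - v)|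
      · rw [her_supp H _ h1, zero_mul]
      · by_cases h2 : 1 / 2 ≤ |R * (y - v)|
        · rw [her_supp H _ h2, mul_zero]
        · exfalso
          apply hxy
          push Not at h1 h2
          have h3 : |R * (x - y)| ≤ 1 := by
            calc |R * (x - y)| = |R * (x - v) - R * (y - v)| := by ring_nf
              _ ≤ |R * (x - v)| + |R * (y - v)| := abs_sub _ _
              _ ≤ 1 := by linarith
          rw [abs_mul, abs_of_pos hR0] at h3
          rw [le_div_iff₀ hR0]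
          linarith
    simp [this]

theorem her_pair {μ : Measure ℝ} [IsProbabilityMeasure μ] (p q : ℝ × ℝ) :
    ∫⁻ v, herV μ R p v * herV μ R q v ≤ ENNReal.ofReal (12 * R) *
      (μ.prod μ) {z : ℝ × ℝ | |(p.2 - logG p.1 z.1) - (q.2 - logG q.1 z.2)| ≤ 1 / R} := by
  have hS : MeasurableSet
      {z : ℝ × ℝ | |(p.2 - logG p.1 z.1) - (q.2 - logG q.1 z.2)| ≤ 1 / R} := by
    refine measurableSet_le ?_ measurable_const
    unfold logG
    have := Real.measurable_log
    fun_prop
  have e1 : ∀ v, herV μ R p v * herV μ R q v =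
      ∫⁻ z : ℝ × ℝ, herKk R (p.2 - v - logG p.1 z.1) * herKk R (q.2 - v - logG q.1 z.2)
        ∂(μ.prod μ) := by
    intro v
    have := lintegral_prod_mul (μ := μ) (ν := μ) (f := fun a => herKk R (p.2 - v - logG p.1 a))
      (g := fun a => herKk R (q.2 - v - logG q.1 a))
      ((herV_meas_aux H p).comp (measurable_const.prodMk measurable_id : Measurable
        fun a : ℝ => (v, a))).aemeasurable
      ((herV_meas_aux H q).comp (measurable_const.prodMk measurable_id : Measurable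
        fun a : ℝ => (v, a))).aemeasurable
    exact this.symm
  simp only [e1]
  rw [lintegral_lintegral_swap]
  · calc ∫⁻ z : ℝ × ℝ, (∫⁻ v, herKk R (p.2 - v - logG p.1 z.1) *
          herKk R (q.2 - v - logG q.1 z.2)) ∂(μ.prod μ)
        ≤ ∫⁻ z : ℝ × ℝ, {z : ℝ × ℝ | |(p.2 - logG p.1 z.1) - (q.2 - logG q.1 z.2)| ≤
            1 / R}.indicator (fun _ => ENNReal.ofReal (12 * R)) z ∂(μ.prod μ) := by
          refine lintegral_mono fun z => ?_
          have h1 := her_corr H hR (p.2 - logG p.1 z.1) (q.2 - logG q.1 z.2)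
          have e2 : ∀ v : ℝ, herKk R (p.2 - v - logG p.1 z.1) * herKk R (q.2 - v - logG q.1 z.2) =
              herKk R (p.2 - logG p.1 z.1 - v) * herKk R (q.2 - logG q.1 z.2 - v) := by
            intro v
            congr 2 <;> ring
          simp_rw [e2]
          exact h1
      _ = _ := by
          rw [lintegral_indicator_const hS]
  · have m3 : Measurable fun w : ℝ × (ℝ × ℝ) => herKk R (p.2 - w.1 - logG p.1 w.2.1) := by
      refine (her_meas H).comp ?_
      unfold logG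
      have := Real.measurable_log
      fun_prop
    have m4 : Measurable fun w : ℝ × (ℝ × ℝ) => herKk R (q.2 - w.1 - logG q.1 w.2.2) := by
      refine (her_meas H).comp ?_
      unfold logG
      have := Real.measurable_log
      fun_prop
    have h1 : Measurable fun w : ℝ × (ℝ × ℝ) => herKk R (p.2 - w.1 - logG p.1 w.2.1) *
        herKk R (q.2 - w.1 - logG q.1 w.2.2) := m3.mul m4
    exact h1.aemeasurable

end

/-- Closeness of logarithms gives closeness of the values. -/
theorem her_log {x y M r : ℝ} (hx : 0 < x) (hy : 0 < y) (hxM : x ≤ M) (hyM : y ≤ M)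
    (h : |Real.log x - Real.log y| ≤ r) : |x - y| ≤ M * r := by
  wlog hxy : y ≤ x generalizing x y
  · rw [abs_sub_comm] at h ⊢
    exact this hy hx hyM hxM h (le_of_not_ge hxy)
  have h1 : Real.log (y / x) ≤ y / x - 1 := Real.log_le_sub_one_of_pos (by positivity)
  rw [Real.log_div hy.ne' hx.ne'] at h1
  have h2 : 1 - y / x ≤ Real.log x - Real.log y := by linarith
  have h3 : x - y ≤ x * (Real.log x - Real.log y) := by
    calc x - y = x * (1 - y / x) := by field_simp
      _ ≤ _ := by gcongr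
  have h4 : Real.log x - Real.log y ≤ r := (le_abs_self _).trans h
  have h5 : 0 ≤ Real.log x - Real.log y := by
    have := Real.log_le_log hy hxy
    linarith
  have hM : 0 ≤ M := hx.le.trans hxM
  rw [abs_of_nonneg (by linarith)]
  calc x - y ≤ x * (Real.log x - Real.log y) := h3
    _ ≤ M * r := by gcongr

theorem her_mm {μ : Measure ℝ} [IsProbabilityMeasure μ] (hsupp : μ (Icc 0 1)ᶜ = 0) {U R : ℝ}
    {p q : ℝ × ℝ} (hp : p.1 ∈ Icc (1 : ℝ) 2 ∧ |p.2| ≤ U)
    (hq : q.1 ∈ Icc (1 : ℝ) 2 ∧ |q.2| ≤ U) :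
    (μ.prod μ) {z : ℝ × ℝ | |(p.2 - logG p.1 z.1) - (q.2 - logG q.1 z.2)| ≤ 1 / R} ≤
      ENNReal.ofReal (mm μ (3 * Real.exp U / R) (toAff p) (toAff q)) := by
  unfold mm
  rw [ofReal_measureReal (by finiteness)]
  have hn : (μ.prod μ) ((Icc (0 : ℝ) 1 ×ˢ Icc (0 : ℝ) 1)ᶜ) = 0 := by
    have : (Icc (0 : ℝ) 1 ×ˢ Icc (0 : ℝ) 1)ᶜ ⊆ ((Icc (0 : ℝ) 1)ᶜ ×ˢ univ) ∪
        (univ ×ˢ (Icc (0 : ℝ) 1)ᶜ) := by
      intro z hz
      simp only [mem_compl_iff, mem_prod, not_and_or] at hz
      rcases hz with h | h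
      · left; exact ⟨h, trivial⟩
      · right; exact ⟨trivial, h⟩
    refine measure_mono_null this (measure_union_null ?_ ?_)
    · rw [Measure.prod_prod, hsupp, zero_mul]
    · rw [Measure.prod_prod, hsupp, mul_zero]
  refine measure_mono_ae ?_
  have hae : ∀ᵐ z ∂(μ.prod μ), z ∈ Icc (0 : ℝ) 1 ×ˢ Icc (0 : ℝ) 1 := by
    rw [ae_iff]
    exact hn
  filter_upwards [hae] with z hz hz2
  obtain ⟨⟨h1, h2⟩, ⟨h3, h4⟩⟩ := hz
  obtain ⟨⟨hp1, hp2⟩, hp3⟩ := hp
  obtain ⟨⟨hq1, hq2⟩, hq3⟩ := hq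
  have hz3 : |(p.2 - logG p.1 z.1) - (q.2 - logG q.1 z.2)| ≤ 1 / R := hz2
  change |(toAff p).act z.1 - (toAff q).act z.2| ≤ 3 * Real.exp U / R
  have e1 : ∀ (r : ℝ × ℝ) (a : ℝ), (toAff r).act a = Real.exp (-r.2) * (r.1 + a) := by
    intro r a
    unfold toAff Aff.act
    ring
  rw [e1, e1]
  have b1 : ∀ (r : ℝ × ℝ) (a : ℝ), 1 ≤ r.1 → 0 ≤ a → 0 < Real.exp (-r.2) * (r.1 + a) := by
    intro r a hr ha
    have := Real.exp_pos (-r.2)
    have : 0 < r.1 + a := by linarith
    positivity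
  have b2 : ∀ (r : ℝ × ℝ) (a : ℝ), 1 ≤ r.1 → r.1 ≤ 2 → |r.2| ≤ U → 0 ≤ a → a ≤ 1 →
      Real.exp (-r.2) * (r.1 + a) ≤ 3 * Real.exp U := by
    intro r a hr hr2 hr3 ha ha1
    have : Real.exp (-r.2) ≤ Real.exp U := Real.exp_le_exp.2 (by linarith [(abs_le.1 hr3).1])
    calc Real.exp (-r.2) * (r.1 + a) ≤ Real.exp U * 3 := by
          gcongr
          linarith
      _ = _ := by ring
  have l1 : ∀ (r : ℝ × ℝ) (a : ℝ), 1 ≤ r.1 → 0 ≤ a →
      Real.log (Real.exp (-r.2) * (r.1 + a)) = -(r.2 - logG r.1 a) := by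
    intro r a hr ha
    rw [Real.log_mul (Real.exp_pos _).ne' (by linarith), Real.log_exp]
    unfold logG
    ring
  have := her_log (b1 p z.1 hp1 h1) (b1 q z.2 hq1 h3) (b2 p z.1 hp1 hp2 hp3 h1 h2)
    (b2 q z.2 hq1 hq2 hq3 h3 h4) (r := 1 / R) (by
      rw [l1 p z.1 hp1 h1, l1 q z.2 hq1 h3]
      rw [← abs_neg]
      convert hz3 using 2
      ring)
  calc |Real.exp (-p.2) * (p.1 + z.1) - Real.exp (-q.2) * (q.1 + z.2)|
      ≤ 3 * Real.exp U * (1 / R) := this
    _ = _ := by ring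

/-- Cauchy-Schwarz for extended nonnegative functions. -/
theorem her_cs {f g : ℝ → ℝ≥0∞} (hf : Measurable f) (hg : Measurable g) :
    (∫⁻ x, f x * g x) ^ 2 ≤ (∫⁻ x, f x ^ 2) * ∫⁻ x, g x ^ 2 := by
  have h := ENNReal.lintegral_mul_le_Lp_mul_Lq (volume : Measure ℝ) Real.HolderConjugate.two_two
    hf.aemeasurable hg.aemeasurable
  simp only [Pi.mul_apply, ENNReal.rpow_ofNat] at h
  calc (∫⁻ x, f x * g x) ^ 2
      ≤ ((∫⁻ x, f x ^ 2) ^ (1 / 2 : ℝ) * (∫⁻ x, g x ^ 2) ^ (1 / 2 : ℝ)) ^ 2 := by gcongr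
    _ = _ := by
        rw [← ENNReal.mul_rpow_of_nonneg _ _ (by norm_num), ← ENNReal.rpow_natCast,
          ← ENNReal.rpow_mul]
        norm_num

theorem claimHer (hk : ClaimKer) : ClaimHer := by
  have H := herK hk
  intro U hU
  have hE : 1 ≤ Real.exp U := Real.one_le_exp (by linarith)
  refine ⟨3 * Real.exp U, 12, by linarith, by norm_num, ?_⟩
  intro g A R x0 μ F hg hA hgA hμ hsupp hR hx0 hF
  have hR0 : (0 : ℝ) < R := by linarith
  refine ⟨fun p hp => ?_, ?_⟩
  · obtain ⟨⟨h1, h2⟩, h3, -⟩ := hF p hp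
    have h4 := abs_le.1 h3
    have e1 : Real.exp (-p.2) ≤ Real.exp U := Real.exp_le_exp.2 (by linarith)
    have e2 : Real.exp (-U) ≤ Real.exp (-p.2) := Real.exp_le_exp.2 (by linarith)
    have e3 := Real.exp_pos (-p.2)
    refine ⟨?_, ?_, ?_⟩
    · change (3 * Real.exp U)⁻¹ ≤ Real.exp (-p.2)
      refine le_trans ?_ e2
      rw [Real.exp_neg]
      gcongr
      linarith
    · change Real.exp (-p.2) ≤ 3 * Real.exp U
      linarith
    · change |Real.exp (-p.2) * p.1| ≤ 3 * Real.exp U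
      rw [abs_of_nonneg (by positivity)]
      nlinarith
  · -- the main inequality in the extended nonnegative reals
    have hgm : Measurable fun v => ‖g v‖ₑ := hg.enorm
    have s1 : ∀ p ∈ F, ENNReal.ofReal x0 ≤ ∫⁻ v, ‖g v‖ₑ * herV μ R p v := by
      intro p hp
      obtain ⟨-, -, h3⟩ := hF p hp
      calc ENNReal.ofReal x0 ≤ ENNReal.ofReal |∫ v, g v * Vh μ R p v| :=
            ENNReal.ofReal_le_ofReal h3
        _ = ‖∫ v, g v * Vh μ R p v‖ₑ := (Real.enorm_eq_ofReal_abs _).symm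
        _ ≤ ∫⁻ v, ‖g v * Vh μ R p v‖ₑ := enorm_integral_le_lintegral_enorm _
        _ = ∫⁻ v, ‖g v‖ₑ * herV μ R p v := by
            refine lintegral_congr fun v => ?_
            rw [enorm_mul, enorm_Vh H hR]
    have s2 : ENNReal.ofReal x0 * F.card ≤ ∫⁻ v, ‖g v‖ₑ * ∑ p ∈ F, herV μ R p v := by
      calc ENNReal.ofReal x0 * F.card = ∑ _p ∈ F, ENNReal.ofReal x0 := by simp [mul_comm]
        _ ≤ ∑ p ∈ F, ∫⁻ v, ‖g v‖ₑ * herV μ R p v := Finset.sum_le_sum s1
        _ = ∫⁻ v, ∑ p ∈ F, ‖g v‖ₑ * herV μ R p v :=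
            (lintegral_finsetSum _ fun p _ => hgm.mul (herV_meas H p)).symm
        _ = _ := by simp only [Finset.mul_sum]
    have s3 : (ENNReal.ofReal x0 * F.card) ^ 2 ≤
        ENNReal.ofReal A * ∫⁻ v, (∑ p ∈ F, herV μ R p v) ^ 2 := by
      calc (ENNReal.ofReal x0 * F.card) ^ 2
          ≤ (∫⁻ v, ‖g v‖ₑ * ∑ p ∈ F, herV μ R p v) ^ 2 := by gcongr
        _ ≤ (∫⁻ v, ‖g v‖ₑ ^ 2) * ∫⁻ v, (∑ p ∈ F, herV μ R p v) ^ 2 :=
            her_cs hgm (Finset.measurable_fun_sum _ fun p _ => herV_meas H p)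
        _ ≤ _ := by
            gcongr
            refine le_trans (le_of_eq ?_) hgA
            refine lintegral_congr fun v => ?_
            rw [Real.enorm_eq_ofReal_abs, ← ENNReal.ofReal_pow (abs_nonneg _), sq_abs]
    have s4 : ∫⁻ v, (∑ p ∈ F, herV μ R p v) ^ 2 ≤ ∑ p ∈ F, ∑ q ∈ F,
        ENNReal.ofReal (12 * R) *
          ENNReal.ofReal (mm μ (3 * Real.exp U / R) (toAff p) (toAff q)) := by
      have e1 : ∀ v, (∑ p ∈ F, herV μ R p v) ^ 2 =
          ∑ p ∈ F, ∑ q ∈ F, herV μ R p v * herV μ R q v := by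
        intro v
        rw [sq, Finset.sum_mul_sum]
      simp only [e1]
      have e2 := lintegral_finsetSum (μ := volume) F
        (f := fun p v => ∑ q ∈ F, herV μ R p v * herV μ R q v)
        (fun p _ => Finset.measurable_fun_sum _ fun q _ => (herV_meas H p).mul (herV_meas H q))
      rw [e2]
      refine Finset.sum_le_sum fun p hp => ?_
      have e3 := lintegral_finsetSum (μ := volume) F
        (f := fun q v => herV μ R p v * herV μ R q v)
        (fun q _ => (herV_meas H p).mul (herV_meas H q))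
      rw [e3]
      refine Finset.sum_le_sum fun q hq => ?_
      refine (her_pair H hR p q).trans ?_
      gcongr
      exact her_mm hsupp ⟨(hF p hp).1, (hF p hp).2.1⟩ ⟨(hF q hq).1, (hF q hq).2.1⟩
    have s5 : ∑ p ∈ F, ∑ q ∈ F, ENNReal.ofReal (12 * R) *
          ENNReal.ofReal (mm μ (3 * Real.exp U / R) (toAff p) (toAff q)) =
        ENNReal.ofReal (12 * R * ∑ p ∈ F, ∑ q ∈ F,
          mm μ (3 * Real.exp U / R) (toAff p) (toAff q)) := by
      rw [ENNReal.ofReal_mul (p := 12 * R) (by positivity), ENNReal.ofReal_sum_of_nonneg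
        (fun p _ => Finset.sum_nonneg fun q _ => mm_nonneg _ _ _ _), Finset.mul_sum]
      refine Finset.sum_congr rfl fun p _ => ?_
      rw [ENNReal.ofReal_sum_of_nonneg (fun q _ => mm_nonneg _ _ _ _), Finset.mul_sum]
    have s6 := s3.trans (mul_le_mul_right (s4.trans s5.le) (ENNReal.ofReal A))
    rw [← ENNReal.ofReal_natCast, ← ENNReal.ofReal_mul hx0.le,
      ← ENNReal.ofReal_pow (by positivity), ← ENNReal.ofReal_mul hA,
      ENNReal.ofReal_le_ofReal_iff] at s6
    · calc x0 ^ 2 * (F.card : ℝ) ^ 2 = (x0 * (F.card : ℝ)) ^ 2 := by ring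
        _ ≤ _ := s6
        _ = _ := by ring
    · refine mul_nonneg hA (mul_nonneg (by positivity) ?_)
      exact Finset.sum_nonneg fun p _ => Finset.sum_nonneg fun q _ => mm_nonneg _ _ _ _

end Pool.Agent.Work.MP_1151e3_an
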