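import Pool.Agent.Work.MP_1151e3_an.Basic

/-!
MP_1151e3_an, item B2: one integration by parts in the shift.
-/

set_option autoImplicit false

namespace Pool.Agent.Work.MP_1151e3_an

open MeasureTheory Set Aff Filter Topology
open scoped ENNReal

lemma IBP_C0 {k : ℝ → ℝ} {C0 : ℝ} (hk : Ker k C0) : 0 ≤ C0 := (abs_nonneg _).trans (hk.bdd 0)

/-- The integrand of the autocorrelation is bounded by a multiple of the indicator of `[-1,1]`. -/
lemma IBP_bound {k : ℝ → ℝ} {C0 : ℝ} (hk : Ker k C0) (x y : ℝ) :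
    ‖k x * k (x + y)‖ ≤ (Icc (-1 : ℝ) 1).indicator (fun _ => C0 ^ 2) x := by
  have h0 := IBP_C0 hk
  by_cases hx : x ∈ Icc (-1 : ℝ) 1
  · rw [indicator_of_mem hx, norm_mul, Real.norm_eq_abs, Real.norm_eq_abs, sq]
    exact mul_le_mul (hk.bdd _) (hk.bdd _) (abs_nonneg _) h0
  · have hx' : 1 ≤ |x| := by
      by_contra hlt
      rw [not_le, abs_lt] at hlt
      exact hx ⟨hlt.1.le, hlt.2.le⟩
    rw [indicator_of_notMem hx, hk.supp x hx', zero_mul, norm_zero]

lemma IBP_bound_int (C : ℝ) : Integrable ((Icc (-1 : ℝ) 1).indicator (fun _ => C)) := by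
  rw [integrable_indicator_iff measurableSet_Icc]
  exact integrableOn_const (by simp)

lemma IBP_Th_cont {k : ℝ → ℝ} {C0 : ℝ} (hk : Ker k C0) : Continuous (Th k) := by
  have hc := hk.cont
  refine continuous_of_dominated (F := fun y x => k x * k (x + y))
    (bound := (Icc (-1 : ℝ) 1).indicator (fun _ => C0 ^ 2)) (fun y => ?_)
    (fun y => Eventually.of_forall (fun x => IBP_bound hk x y)) (IBP_bound_int _)
    (Eventually.of_forall (fun x => ?_))
  · exact (by fun_prop : Continuous fun x => k x * k (x + y)).aestronglyMeasurable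
  · fun_prop

lemma IBP_Th_bdd {k : ℝ → ℝ} {C0 : ℝ} (hk : Ker k C0) (y : ℝ) : |Th k y| ≤ 2 * C0 ^ 2 := by
  have h1 : ‖∫ x, k x * k (x + y)‖ ≤ ∫ x, (Icc (-1 : ℝ) 1).indicator (fun _ => C0 ^ 2) x :=
    norm_integral_le_of_norm_le (IBP_bound_int _) (Eventually.of_forall (fun x => IBP_bound hk x y))
  rw [integral_indicator measurableSet_Icc, setIntegral_const, Real.volume_real_Icc] at h1
  refine h1.trans (le_of_eq ?_)
  rw [smul_eq_mul]
  norm_num

lemma IBP_Th_supp {k : ℝ → ℝ} {C0 : ℝ} (hk : Ker k C0) (y : ℝ) (hy : 2 ≤ |y|) : Th k y = 0 := by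
  have h1 : ∀ x, k x * k (x + y) = 0 := by
    intro x
    by_cases hx : 1 ≤ |x|
    · rw [hk.supp x hx, zero_mul]
    · rw [hk.supp (x + y) ?_, mul_zero]
      rw [not_le] at hx
      have : |y| ≤ |x + y| + |x| := by
        calc |y| = |(x + y) - x| := by ring_nf
          _ ≤ |x + y| + |x| := abs_sub _ _
      linarith
  simp only [Th, h1, integral_zero]

lemma IBP_sc {k : ℝ → ℝ} {R : ℝ} (hR : 0 < R) (y : ℝ) : Th (sc R k) y = R * Th k (R * y) := by
  have e : ∀ x, sc R k x * sc R k (x + y) =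
      (fun x' => R ^ 2 * (k x' * k (x' + R * y))) (R * x) := by
    intro x
    simp only [sc]
    rw [mul_add]
    ring
  simp only [Th, e]
  rw [Measure.integral_comp_mul_left (fun x' => R ^ 2 * (k x' * k (x' + R * y))) R,
    integral_const_mul, abs_of_pos (inv_pos.mpr hR), smul_eq_mul]
  field_simp

/-- If the integral of the kernel vanishes, so does the integral of its autocorrelation. -/
lemma IBP_Th_int {k : ℝ → ℝ} {C0 : ℝ} (hk : Ker k C0) (h0 : ∫ x, k x = 0) :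
    ∫ y in (-2 : ℝ)..2, Th k y = 0 := by
  have hc := hk.cont
  -- Fubini
  have hint : Integrable (fun p : ℝ × ℝ => k p.2 * k (p.2 + p.1)) := by
    apply Continuous.integrable_of_hasCompactSupport
    · fun_prop
    · apply HasCompactSupport.intro (K := Icc (-2 : ℝ) 2 ×ˢ Icc (-1 : ℝ) 1)
        (isCompact_Icc.prod isCompact_Icc)
      intro p hp
      by_cases h1 : 1 ≤ |p.2|
      · rw [hk.supp _ h1, zero_mul]
      · rw [hk.supp (p.2 + p.1), mul_zero]
        rw [not_le, abs_lt] at h1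
        by_contra h2
        rw [not_le, abs_lt] at h2
        apply hp
        refine ⟨⟨?_, ?_⟩, ?_, ?_⟩ <;> linarith
  have h1 : ∫ y, Th k y = 0 := by
    have := integral_integral_swap (f := fun y x => k x * k (x + y)) (μ := volume) (ν := volume) hint
    simp only [Th]
    rw [this]
    have h2 : ∀ x, ∫ y, k x * k (x + y) = 0 := by
      intro x
      rw [integral_const_mul]
      have h3 : ∫ y, k (x + y) = ∫ y, k y := integral_add_left_eq_self k x
      rw [h3, h0, mul_zero]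
    simp only [h2, integral_zero]
  rw [intervalIntegral.integral_of_le (by norm_num), ← h1]
  apply setIntegral_eq_integral_of_forall_compl_eq_zero
  intro y hy
  apply IBP_Th_supp hk
  by_contra hlt
  rw [not_le, abs_lt] at hlt
  exact hy ⟨hlt.1, hlt.2.le⟩

/-- Integrals against `Pm`. -/
lemma IBP_Pm (f : ℝ → ℝ) :
    ∫ t, f t ∂Pm = ∫ t in (1 : ℝ)..2, 6 * (t - 1) * (2 - t) * f t := by
  rw [Pm, integral_withDensity_eq_integral_toReal_smul (by fun_prop)
    (Eventually.of_forall (fun _ => ENNReal.ofReal_lt_top)),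
    intervalIntegral.integral_of_le (by norm_num), integral_Icc_eq_integral_Ioc]
  refine setIntegral_congr_fun measurableSet_Ioc (fun t ht => ?_)
  simp only [smul_eq_mul]
  rw [ENNReal.toReal_ofReal]
  have h1 : 0 ≤ t - 1 := by linarith [ht.1]
  have h2 : 0 ≤ 2 - t := by linarith [ht.2]
  positivity

/-- Bound of an integral over a set of small diameter. -/
lemma IBP_small (g : ℝ → ℝ) (S : Set ℝ) (K ρ : ℝ) (hK : 0 ≤ K) (hρ : 0 ≤ ρ)
    (h0 : ∀ t ∈ Ioc (1 : ℝ) 2, t ∉ S → g t = 0) (h1 : ∀ t ∈ S, |g t| ≤ K)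
    (hS : S ⊆ Ioc (1 : ℝ) 2) (hd : ∀ t ∈ S, ∀ t' ∈ S, |t - t'| ≤ ρ) :
    |∫ t in (1 : ℝ)..2, g t| ≤ K * ρ ∧ |∫ t in (1 : ℝ)..2, g t| ≤ K := by
  have hv1 : volume S ≤ ENNReal.ofReal ρ := by
    refine (Real.volume_le_diam S).trans ?_
    refine Metric.ediam_le (fun t ht t' ht' => ?_)
    rw [edist_dist, Real.dist_eq]
    exact ENNReal.ofReal_le_ofReal (hd t ht t' ht')
  have hv2 : volume S ≤ 1 := by
    refine (measure_mono hS).trans ?_
    rw [Real.volume_Ioc]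
    norm_num
  have hfin : volume S < ⊤ := hv2.trans_lt ENNReal.one_lt_top
  have e : ∫ t in (1 : ℝ)..2, g t = ∫ t in S, g t := by
    rw [intervalIntegral.integral_of_le (by norm_num)]
    exact setIntegral_eq_of_subset_of_forall_sdiff_eq_zero measurableSet_Ioc hS
      (fun t ht => h0 t ht.1 ht.2)
  have h2 : ‖∫ t in S, g t‖ ≤ K * volume.real S :=
    norm_setIntegral_le_of_norm_le_const hfin (fun t ht => h1 t ht)
  rw [e]
  constructor
  · refine h2.trans (mul_le_mul_of_nonneg_left ?_ hK)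
    exact ENNReal.toReal_le_of_le_ofReal hρ hv1
  · refine h2.trans ?_
    have : volume.real S ≤ 1 := by
      have := ENNReal.toReal_mono ENNReal.one_ne_top hv2
      simpa [Measure.real] using this
    nlinarith

lemma IBP_mvt (Y q : ℝ → ℝ) (e d q0 : ℝ) (he : |e| = 1) (hq0 : 0 < q0)
    (hY : ∀ t ∈ Icc (1 : ℝ) 2, HasDerivAt Y (e * d * q t) t) (hq : ∀ t ∈ Icc (1 : ℝ) 2, q0 ≤ q t)
    (t t' : ℝ) (ht : t ∈ Icc (1 : ℝ) 2) (ht' : t' ∈ Icc (1 : ℝ) 2) :
    |d| * q0 * |t - t'| ≤ |Y t - Y t'| := by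
  wlog hlt : t < t' generalizing t t'
  · rcases (not_lt.mp hlt).eq_or_lt with h | h
    · rw [h]; simp
    · have := this t' t ht' ht h
      rwa [abs_sub_comm t, abs_sub_comm (Y t)]
  have hsub : ∀ x ∈ Icc t t', x ∈ Icc (1 : ℝ) 2 := fun x hx => ⟨ht.1.trans hx.1, hx.2.trans ht'.2⟩
  obtain ⟨ξ, hξ, h1⟩ := exists_hasDerivAt_eq_slope Y (fun x => e * d * q x) hlt
    (fun x hx => (hY x (hsub x hx)).continuousAt.continuousWithinAt)
    (fun x hx => hY x (hsub x ⟨hx.1.le, hx.2.le⟩))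
  have h2 : Y t' - Y t = e * d * q ξ * (t' - t) := by
    rw [h1]
    field_simp [(sub_pos.mpr hlt).ne']
  have hqξ := hq ξ (hsub ξ ⟨hξ.1.le, hξ.2.le⟩)
  rw [abs_sub_comm t, abs_sub_comm (Y t), h2, abs_mul, abs_mul, abs_mul, he, one_mul,
    abs_of_pos (hq0.trans_le hqξ)]
  exact mul_le_mul_of_nonneg_right (mul_le_mul_of_nonneg_left hqξ (abs_nonneg _)) (abs_nonneg _)

lemma IBP_w_bound (t : ℝ) (ht : t ∈ Icc (1 : ℝ) 2) : |6 * (t - 1) * (2 - t)| ≤ 3 / 2 := by
  have h1 : 0 ≤ t - 1 := by linarith [ht.1]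
  have h2 : 0 ≤ 2 - t := by linarith [ht.2]
  rw [abs_of_nonneg (by positivity)]
  nlinarith [sq_nonneg (t - 3 / 2)]

/-- The primitive of the autocorrelation. -/
lemma IBP_prim {k : ℝ → ℝ} {C0 : ℝ} (hk : Ker k C0) (h0 : ∫ x, k x = 0) :
    ∃ Γ : ℝ → ℝ, (∀ y, HasDerivAt Γ (Th k y) y) ∧ (∀ y, 2 ≤ |y| → Γ y = 0) ∧
      ∀ y, |Γ y| ≤ 8 * C0 ^ 2 := by
  have hc := IBP_Th_cont hk
  have hz : ∀ y, 2 ≤ |y| → ∫ s in (-2 : ℝ)..y, Th k s = 0 := by
    intro y hy
    rcases le_abs.mp hy with h | h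
    · rw [← intervalIntegral.integral_add_adjacent_intervals (hc.intervalIntegrable (-2) 2)
        (hc.intervalIntegrable 2 y), IBP_Th_int hk h0, zero_add]
      rw [intervalIntegral.integral_congr (g := fun _ => (0 : ℝ))]
      · simp
      · intro s hs
        rw [uIcc_of_le h] at hs
        exact IBP_Th_supp hk s (hs.1.trans (le_abs_self s))
    · rw [intervalIntegral.integral_congr (g := fun _ => (0 : ℝ))]
      · simp
      · intro s hs
        rw [uIcc_of_ge (by linarith)] at hs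
        exact IBP_Th_supp hk s (le_trans (by linarith [hs.2]) (neg_le_abs s))
  refine ⟨fun y => ∫ s in (-2 : ℝ)..y, Th k s, fun y => ?_, hz, fun y => ?_⟩
  · exact (hc.integral_hasStrictDerivAt (-2) y).hasDerivAt
  · by_cases hy : 2 ≤ |y|
    · have h1 : |∫ s in (-2 : ℝ)..y, Th k s| = 0 := by rw [hz y hy, abs_zero]
      exact h1.le.trans (by positivity)
    · rw [not_le, abs_lt] at hy
      have h1 : ‖∫ s in (-2 : ℝ)..y, Th k s‖ ≤ 2 * C0 ^ 2 * |y - (-2)| :=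
        intervalIntegral.norm_integral_le_of_norm_le_const (fun s _ => IBP_Th_bdd hk s)
      rw [Real.norm_eq_abs] at h1
      refine h1.trans ?_
      rw [abs_of_nonneg (by linarith)]
      nlinarith [sq_nonneg C0]

/-- The two bounds for one pair of points. -/
lemma IBP_core {k : ℝ → ℝ} {C0 : ℝ} (hk : Ker k C0) (Y q q' : ℝ → ℝ) (e d q0 Q0 R : ℝ)
    (he : |e| = 1) (hq0 : 0 < q0) (hR : 1 ≤ R) (hq'c : ContinuousOn q' (Icc 1 2))
    (hY : ∀ t ∈ Icc (1 : ℝ) 2, HasDerivAt Y (e * d * q t) t)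
    (hq' : ∀ t ∈ Icc (1 : ℝ) 2, HasDerivAt q (q' t) t)
    (hq : ∀ t ∈ Icc (1 : ℝ) 2, q0 ≤ q t) (hQ : ∀ t ∈ Icc (1 : ℝ) 2, |q' t| ≤ Q0) :
    |∫ t, Th (sc R k) (Y t) ∂Pm| ≤ 3 * C0 ^ 2 * R ∧
    |d| * |∫ t, Th (sc R k) (Y t) ∂Pm| ≤ 3 * C0 ^ 2 * 4 / q0 ∧
    (∫ x, k x = 0 → d ^ 2 * |∫ t, Th (sc R k) (Y t) ∂Pm| ≤
      8 * C0 ^ 2 * (6 / q0 + 3 / 2 * Q0 / q0 ^ 2) * 4 / (q0 * R)) := by
  have hC0 := IBP_C0 hk
  have hR0 : 0 < R := by linarith
  have hQ0 : 0 ≤ Q0 := (abs_nonneg _).trans (hQ 1 ⟨le_refl _, by norm_num⟩)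
  have hYc : ContinuousOn Y (Icc 1 2) := fun t ht => (hY t ht).continuousAt.continuousWithinAt
  have hqc : ContinuousOn q (Icc 1 2) := fun t ht => (hq' t ht).continuousAt.continuousWithinAt
  have hTc := IBP_Th_cont hk
  rw [IBP_Pm]
  simp only [IBP_sc hR0]
  set S : Set ℝ := {t | t ∈ Ioc (1 : ℝ) 2 ∧ |R * Y t| < 2} with hSdef
  have hSsub : S ⊆ Ioc (1 : ℝ) 2 := fun t ht => ht.1
  have hIcc : ∀ t ∈ Ioc (1 : ℝ) 2, t ∈ Icc (1 : ℝ) 2 := fun t ht => ⟨ht.1.le, ht.2⟩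
  have hzero : ∀ t ∈ Ioc (1 : ℝ) 2, t ∉ S → 2 ≤ |R * Y t| := by
    intro t ht hn
    by_contra hlt
    exact hn ⟨ht, not_le.mp hlt⟩
  have hg0 : ∀ t ∈ Ioc (1 : ℝ) 2, t ∉ S →
      6 * (t - 1) * (2 - t) * (R * Th k (R * Y t)) = 0 := by
    intro t ht hn
    rw [IBP_Th_supp hk _ (hzero t ht hn), mul_zero, mul_zero]
  have hg1 : ∀ t ∈ S, |6 * (t - 1) * (2 - t) * (R * Th k (R * Y t))| ≤ 3 * C0 ^ 2 * R := by
    intro t ht
    rw [abs_mul, abs_mul R, abs_of_pos hR0]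
    have h1 := IBP_w_bound t (hIcc t (hSsub ht))
    have h2 := IBP_Th_bdd hk (R * Y t)
    calc |6 * (t - 1) * (2 - t)| * (R * |Th k (R * Y t)|) ≤ 3 / 2 * (R * (2 * C0 ^ 2)) :=
          mul_le_mul h1 (mul_le_mul_of_nonneg_left h2 hR0.le) (by positivity) (by norm_num)
      _ = 3 * C0 ^ 2 * R := by ring
  have hK : 0 ≤ 3 * C0 ^ 2 * R := by positivity
  have hone : ∀ t ∈ S, ∀ t' ∈ S, |t - t'| ≤ 1 := by
    intro t ht t' ht'
    rw [abs_le]
    constructor <;> linarith [ht.1.1, ht.1.2, ht'.1.1, ht'.1.2]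
  have hdiam : d ≠ 0 → ∀ t ∈ S, ∀ t' ∈ S, |t - t'| ≤ 4 / (R * q0 * |d|) := by
    intro hd t ht t' ht'
    have h1 := IBP_mvt Y q e d q0 he hq0 hY hq t t' (hIcc t (hSsub ht)) (hIcc t' (hSsub ht'))
    have h2 : R * |Y t - Y t'| ≤ 4 := by
      have h3 : R * |Y t - Y t'| = |R * Y t - R * Y t'| := by
        rw [← mul_sub, abs_mul, abs_of_pos hR0]
      rw [h3]
      exact (abs_sub _ _).trans (by linarith [ht.2, ht'.2])
    rw [le_div_iff₀ (by positivity)]
    calc |t - t'| * (R * q0 * |d|) = R * (|d| * q0 * |t - t'|) := by ring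
      _ ≤ R * |Y t - Y t'| := mul_le_mul_of_nonneg_left h1 hR0.le
      _ ≤ 4 := h2
  refine ⟨?_, ?_, ?_⟩
  · exact (IBP_small _ S _ 1 hK zero_le_one hg0 hg1 hSsub hone).2
  · rcases eq_or_ne d 0 with hd | hd
    · rw [hd, abs_zero, zero_mul]; positivity
    · have h1 := (IBP_small _ S _ _ hK (by positivity) hg0 hg1 hSsub (hdiam hd)).1
      have hd' : 0 < |d| := abs_pos.mpr hd
      calc |d| * |∫ t in (1 : ℝ)..2, 6 * (t - 1) * (2 - t) * (R * Th k (R * Y t))|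
          ≤ |d| * (3 * C0 ^ 2 * R * (4 / (R * q0 * |d|))) := mul_le_mul_of_nonneg_left h1 hd'.le
        _ = 3 * C0 ^ 2 * 4 / q0 := by field_simp
  · intro hk0
    rcases eq_or_ne d 0 with hd | hd
    · rw [hd]
      simp only [ne_eq, OfNat.ofNat_ne_zero, not_false_eq_true, zero_pow, zero_mul]
      positivity
    have hd' : 0 < |d| := abs_pos.mpr hd
    obtain ⟨Γ, hΓ, hΓ0, hΓb⟩ := IBP_prim hk hk0
    have he0 : e ≠ 0 := by
      intro h; rw [h, abs_zero] at he; exact zero_ne_one he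
    have hqpos : ∀ t ∈ Icc (1 : ℝ) 2, 0 < q t := fun t ht => hq0.trans_le (hq t ht)
    have hu : ∀ t ∈ uIcc (1 : ℝ) 2, HasDerivAt (fun t => 6 * (t - 1) * (2 - t) / q t)
        ((6 * (3 - 2 * t) * q t - 6 * (t - 1) * (2 - t) * q' t) / (q t) ^ 2) t := by
      intro t ht
      rw [uIcc_of_le (by norm_num : (1 : ℝ) ≤ 2)] at ht
      have h1 : HasDerivAt (fun t : ℝ => 6 * (t - 1) * (2 - t)) (6 * (3 - 2 * t)) t := by
        have h2 : HasDerivAt (fun t : ℝ => 6 * (t - 1)) (6 * 1) t :=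
          ((hasDerivAt_id t).sub_const 1).const_mul 6
        have h3 : HasDerivAt (fun t : ℝ => 2 - t) (-1) t := (hasDerivAt_id t).const_sub 2
        have h4 := h2.mul h3
        refine h4.congr_deriv ?_
        ring
      exact h1.div (hq' t ht) (hqpos t ht).ne'
    have hv : ∀ t ∈ uIcc (1 : ℝ) 2, HasDerivAt (fun t => Γ (R * Y t))
        (Th k (R * Y t) * (R * (e * d * q t))) t := by
      intro t ht
      rw [uIcc_of_le (by norm_num : (1 : ℝ) ≤ 2)] at ht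
      exact (hΓ (R * Y t)).comp t ((hY t ht).const_mul R)
    have hu'i : IntervalIntegrable
        (fun t => (6 * (3 - 2 * t) * q t - 6 * (t - 1) * (2 - t) * q' t) / (q t) ^ 2)
        volume 1 2 := by
      apply ContinuousOn.intervalIntegrable
      rw [uIcc_of_le (by norm_num : (1 : ℝ) ≤ 2)]
      apply ContinuousOn.div
      · apply ContinuousOn.sub
        · exact (by fun_prop : Continuous fun t : ℝ => 6 * (3 - 2 * t)).continuousOn.mul hqc
        · exact (by fun_prop : Continuous fun t : ℝ => 6 * (t - 1) * (2 - t)).continuousOn.mul hq'c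
      · exact hqc.pow 2
      · intro t ht
        exact pow_ne_zero 2 (hqpos t ht).ne'
    have hRY : ContinuousOn (fun t => Th k (R * Y t)) (Icc 1 2) :=
      hTc.comp_continuousOn (continuousOn_const.mul hYc)
    have hv'i : IntervalIntegrable (fun t => Th k (R * Y t) * (R * (e * d * q t)))
        volume 1 2 := by
      apply ContinuousOn.intervalIntegrable
      rw [uIcc_of_le (by norm_num : (1 : ℝ) ≤ 2)]
      exact hRY.mul (continuousOn_const.mul (continuousOn_const.mul hqc))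
    have hparts := intervalIntegral.integral_mul_deriv_eq_deriv_mul hu hv hu'i hv'i
    have hLHS : ∫ t in (1 : ℝ)..2, 6 * (t - 1) * (2 - t) / q t *
        (Th k (R * Y t) * (R * (e * d * q t))) =
        (e * d) * ∫ t in (1 : ℝ)..2, 6 * (t - 1) * (2 - t) * (R * Th k (R * Y t)) := by
      rw [← intervalIntegral.integral_const_mul]
      apply intervalIntegral.integral_congr
      intro t ht
      rw [uIcc_of_le (by norm_num : (1 : ℝ) ≤ 2)] at ht
      have := (hqpos t ht).ne'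
      simp only
      field_simp
    rw [hLHS] at hparts
    have hb0 : (6 * ((2 : ℝ) - 1) * (2 - 2) / q 2 * Γ (R * Y 2) -
        6 * ((1 : ℝ) - 1) * (2 - 1) / q 1 * Γ (R * Y 1)) = 0 := by
      simp
    rw [hb0, zero_sub] at hparts
    set I := ∫ t in (1 : ℝ)..2, 6 * (t - 1) * (2 - t) * (R * Th k (R * Y t)) with hI
    have habs : |d| * |I| = |∫ t in (1 : ℝ)..2, (6 * (3 - 2 * t) * q t -
        6 * (t - 1) * (2 - t) * q' t) / (q t) ^ 2 * Γ (R * Y t)| := by
      rw [← abs_neg (∫ t in (1 : ℝ)..2, (6 * (3 - 2 * t) * q t -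
        6 * (t - 1) * (2 - t) * q' t) / (q t) ^ 2 * Γ (R * Y t)), ← hparts, abs_mul, abs_mul, he,
        one_mul]
    have hK2 : 0 ≤ 8 * C0 ^ 2 * (6 / q0 + 3 / 2 * Q0 / q0 ^ 2) := by positivity
    have hG0 : ∀ t ∈ Ioc (1 : ℝ) 2, t ∉ S → (6 * (3 - 2 * t) * q t -
        6 * (t - 1) * (2 - t) * q' t) / (q t) ^ 2 * Γ (R * Y t) = 0 := by
      intro t ht hn
      rw [hΓ0 _ (hzero t ht hn), mul_zero]
    have hG1 : ∀ t ∈ S, |(6 * (3 - 2 * t) * q t -
        6 * (t - 1) * (2 - t) * q' t) / (q t) ^ 2 * Γ (R * Y t)| ≤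
        8 * C0 ^ 2 * (6 / q0 + 3 / 2 * Q0 / q0 ^ 2) := by
      intro t ht
      have htI := hIcc t (hSsub ht)
      have hqt := hq t htI
      have hqp := hqpos t htI
      have h1 : (6 * (3 - 2 * t) * q t - 6 * (t - 1) * (2 - t) * q' t) / (q t) ^ 2 =
          6 * (3 - 2 * t) / q t - 6 * (t - 1) * (2 - t) * q' t / (q t) ^ 2 := by
        field_simp
      have h2 : |6 * (3 - 2 * t) / q t| ≤ 6 / q0 := by
        rw [abs_div, abs_of_pos hqp]
        have h3 : |6 * (3 - 2 * t)| ≤ 6 := by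
          rw [abs_le]; constructor <;> linarith [htI.1, htI.2]
        exact div_le_div₀ (by norm_num) h3 hq0 hqt
      have h3 : |6 * (t - 1) * (2 - t) * q' t / (q t) ^ 2| ≤ 3 / 2 * Q0 / q0 ^ 2 := by
        rw [abs_div, abs_of_pos (pow_pos hqp 2), abs_mul]
        exact div_le_div₀ (by positivity)
          (mul_le_mul (IBP_w_bound t htI) (hQ t htI) (abs_nonneg _) (by norm_num))
          (by positivity) (pow_le_pow_left₀ hq0.le hqt 2)
      rw [abs_mul, h1, mul_comm]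
      exact mul_le_mul (hΓb _) ((abs_sub _ _).trans (add_le_add h2 h3)) (abs_nonneg _)
        (by positivity)
    have hfin := (IBP_small _ S _ _ hK2 (by positivity) hG0 hG1 hSsub (hdiam hd)).1
    rw [← habs] at hfin
    calc d ^ 2 * |I| = |d| * (|d| * |I|) := by rw [← mul_assoc, ← sq, sq_abs]
      _ ≤ |d| * (8 * C0 ^ 2 * (6 / q0 + 3 / 2 * Q0 / q0 ^ 2) * (4 / (R * q0 * |d|))) :=
          mul_le_mul_of_nonneg_left hfin hd'.le
      _ = 8 * C0 ^ 2 * (6 / q0 + 3 / 2 * Q0 / q0 ^ 2) * 4 / (q0 * R) := by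
          field_simp

theorem claimIBP : ClaimIBP := by
  rintro k C0 B G hk ⟨_, q0, Q0, e, hq0, he, hder⟩
  have hC0 := IBP_C0 hk
  refine ⟨(3 * C0 ^ 2 + 3 * C0 ^ 2 * 4 / q0) +
    8 * C0 ^ 2 * (6 / q0 + 3 / 2 * |Q0| / q0 ^ 2) * 4 / q0, by positivity, ?_⟩
  intro R hR a ha b hb c
  have hR0 : 0 < R := by linarith
  obtain ⟨q, q', hq'c, hall⟩ := hder a ha b hb
  have he1 : |e| = 1 := by
    rcases he with h | h <;> rw [h] <;> simp
  obtain ⟨h1, h2, h3⟩ := IBP_core hk (fun t => c + (G t a - G t b)) q q' e (a - b) q0 |Q0| R he1 hq0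
    hR hq'c (fun t ht => (hall t ht).1.const_add c) (fun t ht => (hall t ht).2.1)
    (fun t ht => (hall t ht).2.2.1) (fun t ht => (hall t ht).2.2.2.2.trans (le_abs_self _))
  set I := |∫ t, Th (sc R k) (c + (G t a - G t b)) ∂Pm| with hI
  have hI0 : 0 ≤ I := abs_nonneg _
  set X := 8 * C0 ^ 2 * (6 / q0 + 3 / 2 * |Q0| / q0 ^ 2) * 4 / q0 with hX
  have hX0 : 0 ≤ X := by positivity
  have hY0 : 0 ≤ 3 * C0 ^ 2 * 4 / q0 := by positivity
  have hZ0 : 0 ≤ 3 * C0 ^ 2 := by positivity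
  constructor
  · rw [← mul_div_assoc, le_div_iff₀ (by positivity)]
    have h4 : I * (1 + R * |a - b|) = I + R * (|a - b| * I) := by ring
    rw [h4]
    have h5 : R * (|a - b| * I) ≤ R * (3 * C0 ^ 2 * 4 / q0) := mul_le_mul_of_nonneg_left h2 hR0.le
    nlinarith [mul_nonneg hX0 hR0.le]
  · intro hk0
    have h3' := h3 hk0
    rw [← mul_div_assoc, le_div_iff₀ (by positivity)]
    have h4 : I * (1 + (R * |a - b|) ^ 2) = I + R ^ 2 * ((a - b) ^ 2 * I) := by
      rw [mul_pow, sq_abs]; ring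
    rw [h4]
    have h5 : R ^ 2 * ((a - b) ^ 2 * I) ≤ R ^ 2 * (8 * C0 ^ 2 *
        (6 / q0 + 3 / 2 * |Q0| / q0 ^ 2) * 4 / (q0 * R)) :=
      mul_le_mul_of_nonneg_left h3' (by positivity)
    have h6 : R ^ 2 * (8 * C0 ^ 2 * (6 / q0 + 3 / 2 * |Q0| / q0 ^ 2) * 4 / (q0 * R)) = R * X := by
      rw [hX]; field_simp
    rw [h6] at h5
    nlinarith [mul_nonneg hY0 hR0.le]

end Pool.Agent.Work.MP_1151e3_an
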