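import Pool.Agent.Work.MP_1151e3_an.Defs

/-!
# Open intervals in shifted products: the list of claims
-/

set_option autoImplicit false

namespace Pool.Agent.Work.MP_1151e3_an

open MeasureTheory Set Aff
open scoped ENNReal

/-! ### A. Frostman measures -/

/-- A0. Frostman measure on a compact part of a Borel set. -/
def ClaimFrost : Prop := ∀ (A : Set ℝ) (s : ℝ), MeasurableSet A → 0 < s → s < 1 →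
  ENNReal.ofReal s < dimH A →
  ∃ (c : ℝ) (Kc : Set ℝ) (μ : Measure ℝ), IsCompact Kc ∧ Kc ⊆ Icc 0 1 ∧ (∀ x ∈ Kc, x + c ∈ A) ∧
    IsProbabilityMeasure μ ∧ μ Kcᶜ = 0 ∧
    ∃ C : ℝ, 1 ≤ C ∧ ∀ x r : ℝ, 0 < r → μ.real (Metric.closedBall x r) ≤ C * r ^ s

/-- The half open dyadic interval. -/
def dy (m : ℕ) (k : ℤ) : Set ℝ := Ico ((k : ℝ) / 2 ^ m) (((k : ℝ) + 1) / 2 ^ m)

/-- The dyadic content (covers by countably many dyadic intervals of length at most 1). -/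
noncomputable def cont (s : ℝ) (X : Set ℝ) : ℝ≥0∞ :=
  ⨅ (Q : ℕ → Option (ℕ × ℤ)) (_ : X ⊆ ⋃ i, (match Q i with | none => ∅ | some q => dy q.1 q.2)),
    ∑' i, (match Q i with | none => 0 | some q => ENNReal.ofReal ((2 : ℝ) ^ (-(s * q.1))))

/-- A1. Positive dimension excess gives positive content of a unit piece. -/
def ClaimContPos : Prop := ∀ (A : Set ℝ) (s : ℝ), 0 < s → ENNReal.ofReal s < dimH A →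
  ∃ k : ℤ, 0 < cont s (A ∩ dy 0 k)

/-- A2. Increasing sets lemma. -/
def ClaimIncr : Prop := ∀ (s : ℝ) (X : ℕ → Set ℝ), 0 < s → Monotone X →
  cont s (⋃ n, X n) = ⨆ n, cont s (X n)

/-- A3. Compact subsets of analytic sets. -/
def ClaimCap : Prop := ∀ (s : ℝ) (A : Set ℝ), 0 < s → AnalyticSet A → A ⊆ Icc 0 1 → 0 < cont s A →
  ∃ Kc ⊆ A, IsCompact Kc ∧ 0 < cont s Kc

/-- A4. Frostman measure on a compact set of positive content. -/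
def ClaimFroCompact : Prop := ∀ (s : ℝ) (Kc : Set ℝ), 0 < s → s ≤ 1 → IsCompact Kc → Kc ⊆ Icc 0 1 →
  0 < cont s Kc → ∃ μ : Measure ℝ, IsProbabilityMeasure μ ∧ μ Kcᶜ = 0 ∧
    ∃ C : ℝ, 1 ≤ C ∧ ∀ x r : ℝ, 0 < r → μ.real (Metric.closedBall x r) ≤ C * r ^ s

/-! ### B. Kernels and second moments -/

/-- B1. Facts about the explicit kernels. -/
def ClaimKer : Prop :=
  (Continuous th ∧ (∀ x, 0 ≤ th x) ∧ (∀ x, 1 / 2 ≤ |x| → th x = 0) ∧ (∀ x, |x| ≤ 1 / 4 → 1 ≤ th x) ∧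
    (∀ x, th x ≤ 2) ∧ ∫ x, th x = 1) ∧
  (∃ C, Ker k1 C) ∧ (∫ x, k1 x = 0) ∧ (∃ C, Ker k2 C) ∧ (∀ x, 0 ≤ k2 x) ∧
  (∀ x, 1 / 2 ≤ |x| → k2 x = 0) ∧ (∀ x, 1 / 2 ≤ |x| → k1 x = 0) ∧
  (Continuous ph ∧ (∀ x, 0 ≤ ph x) ∧ (∀ x, 1 ≤ |x| → ph x = 0) ∧ ∫ x, ph x = 1) ∧
  (∃ C, Ker ps C) ∧ (∃ C, Ker dps C) ∧ (∫ x, dps x = 0) ∧ (∀ x, HasDerivAt ps (dps x) x) ∧
  (∀ R x : ℝ, 0 < R → sc R ps x = ∫ y, sc R k1 y * sc R k2 (x - y)) ∧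
  (∀ R x : ℝ, 0 < R → sc R ps x = sc (2 * R) ph x - sc R ph x) ∧
  (∀ R x : ℝ, 0 < R → sc R k1 x = sc (2 * R) th x - sc R th x)

/-- B2. One integration by parts in the shift. -/
def ClaimIBP : Prop := ∀ (k : ℝ → ℝ) (C0 B : ℝ) (G : ℝ → ℝ → ℝ), Ker k C0 → GoodG G B →
  ∃ C : ℝ, 0 ≤ C ∧ ∀ R : ℝ, 1 ≤ R → ∀ a ∈ Icc (0 : ℝ) B, ∀ b ∈ Icc (0 : ℝ) B, ∀ c : ℝ,
    |∫ t, Th (sc R k) (c + (G t a - G t b)) ∂Pm| ≤ C * (R / (1 + R * |a - b|)) ∧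
    (∫ x, k x = 0 →
      |∫ t, Th (sc R k) (c + (G t a - G t b)) ∂Pm| ≤ C * (R / (1 + (R * |a - b|) ^ 2)))

/-- B3. The averaged energy is bounded by a double integral. -/
def ClaimCorr : Prop := ∀ (k : ℝ → ℝ) (C0 B : ℝ) (G : ℝ → ℝ → ℝ) (n : ℕ) (β : ℝ → ℝ)
  (μ : Measure ℝ), Ker k C0 → 1 ≤ n → Measurable (Function.uncurry G) → Measurable β →
  IsProbabilityMeasure μ → μ (Icc 0 B)ᶜ = 0 →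
  (∀ a ∈ Icc (0 : ℝ) B, ∀ b ∈ Icc (0 : ℝ) B, ∀ c : ℝ,
    |∫ t, Th k (c + (G t a - G t b)) ∂Pm| ≤ β |a - b|) →
  EN k n G μ ≤ ∫⁻ a : Fin n → ℝ, (∫⁻ b : Fin n → ℝ, ENNReal.ofReal (β ‖a - b‖)
    ∂(Measure.pi fun _ : Fin n => μ)) ∂(Measure.pi fun _ : Fin n => μ)

/-- B4. The dyadic estimates of the double integrals. -/
def ClaimDyad : Prop := ∀ (n : ℕ) (s : ℝ), 1 ≤ n → 0 < s → ∃ C : ℝ, 1 ≤ C ∧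
  ∀ (K R : ℝ) (μ : Measure ℝ), 1 ≤ K → 1 ≤ R → IsProbabilityMeasure μ → Fro μ K s (1 / R) →
  (n * s < 2 → ∫⁻ a : Fin n → ℝ, (∫⁻ b : Fin n → ℝ, ENNReal.ofReal (R / (1 + (R * ‖a - b‖) ^ 2))
    ∂(Measure.pi fun _ : Fin n => μ)) ∂(Measure.pi fun _ : Fin n => μ) ≤
      ENNReal.ofReal (C * K ^ n * R ^ (1 - n * s))) ∧
  (2 < n * s → ∫⁻ a : Fin n → ℝ, (∫⁻ b : Fin n → ℝ, ENNReal.ofReal (R / (1 + (R * ‖a - b‖) ^ 2))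
    ∂(Measure.pi fun _ : Fin n => μ)) ∂(Measure.pi fun _ : Fin n => μ) ≤
      ENNReal.ofReal (C * K ^ n * R ^ (-1 : ℝ))) ∧
  (1 < n * s → ∫⁻ a : Fin n → ℝ, (∫⁻ b : Fin n → ℝ, ENNReal.ofReal (R / (1 + R * ‖a - b‖))
    ∂(Measure.pi fun _ : Fin n => μ)) ∂(Measure.pi fun _ : Fin n => μ) ≤
      ENNReal.ofReal (C * K ^ n))

/-- B5. Second moments. -/
def ClaimSM : Prop := ∀ (k : ℝ → ℝ) (C0 B : ℝ) (G : ℝ → ℝ → ℝ) (n : ℕ) (s : ℝ), Ker k C0 →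
  GoodG G B → 1 ≤ n → 0 < s → ∃ C : ℝ, 1 ≤ C ∧
  ∀ (K R : ℝ) (μ : Measure ℝ), 1 ≤ K → 1 ≤ R → IsProbabilityMeasure μ → μ (Icc 0 B)ᶜ = 0 →
  Fro μ K s (1 / R) →
  (n * s < 2 → ∫ x, k x = 0 → EN (sc R k) n G μ ≤ ENNReal.ofReal (C * K ^ n * R ^ (1 - n * s))) ∧
  (2 < n * s → ∫ x, k x = 0 → EN (sc R k) n G μ ≤ ENNReal.ofReal (C * K ^ n * R ^ (-1 : ℝ))) ∧
  (1 < n * s → EN (sc R k) n G μ ≤ ENNReal.ofReal (C * K ^ n))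

/-- B6. The two families. -/
def ClaimGood : Prop := GoodG logG 1 ∧ ∀ B : ℝ, 0 ≤ B → GoodG mulG B

/-- B7. Splitting off the last coordinate. -/
def ClaimFactor : Prop := ∀ (N : ℕ) (μ : Measure ℝ) (R : ℝ) (t : Fin (N + 1) → ℝ) (u : ℝ),
  IsProbabilityMeasure μ → μ (Icc 0 1)ᶜ = 0 → 1 ≤ R → (∀ i, t i ∈ Icc (1 : ℝ) 2) →
  en (sc R ps) (N + 1) logG μ t u =
    ∫ v, en (sc R k1) N logG μ (Fin.init t) v * Vh μ R (t (Fin.last N), u) v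

/-! ### C. Analysis around the key theorem -/

/-- C1. The hereditary inequality for bad parameters. -/
def ClaimHer : Prop := ∀ U : ℝ, 1 ≤ U → ∃ B C : ℝ, 1 ≤ B ∧ 1 ≤ C ∧
  ∀ (g : ℝ → ℝ) (A R x0 : ℝ) (μ : Measure ℝ) (F : Finset (ℝ × ℝ)), Measurable g → 0 ≤ A →
  ∫⁻ v, ENNReal.ofReal ((g v) ^ 2) ≤ ENNReal.ofReal A → IsProbabilityMeasure μ →
  μ (Icc 0 1)ᶜ = 0 → 1 ≤ R → 0 < x0 →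
  (∀ p ∈ F, p.1 ∈ Icc (1 : ℝ) 2 ∧ |p.2| ≤ U ∧ x0 ≤ |∫ v, g v * Vh μ R p v|) →
  (∀ p ∈ F, (toAff p).bd B) ∧
  x0 ^ 2 * (F.card : ℝ) ^ 2 ≤ A * C * R * ∑ p ∈ F, ∑ q ∈ F, mm μ (B / R) (toAff p) (toAff q)

/-- C2. A set of positive measure contains many separated points. -/
def ClaimExtract : Prop := ∀ U : ℝ, 1 ≤ U → ∃ B C : ℝ, 1 ≤ B ∧ 1 ≤ C ∧
  ∀ (R v : ℝ) (S : Set (ℝ × ℝ)), 1 ≤ R → 0 ≤ v → S ⊆ Icc (1 : ℝ) 2 ×ˢ Icc (-U) U →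
  ENNReal.ofReal v ≤ volume S →
  ∃ F : Finset (ℝ × ℝ), (∀ p ∈ F, p ∈ S) ∧
    (∀ p ∈ F, ∀ q ∈ F, p ≠ q → 1 / (B * R) ≤ (toAff p).ad (toAff q)) ∧ v * R ^ 2 ≤ C * F.card

/-- D0. The key theorem. -/
def ClaimK : Prop := ∀ s B : ℝ, 0 < s → s < 1 → 1 ≤ B → ∃ κ R0 : ℝ, 0 < κ ∧ 1 ≤ R0 ∧
  ∀ (R K : ℝ) (μ : Measure ℝ) (E : Finset Aff), R0 ≤ R → 1 ≤ K → K ≤ R ^ κ →
    Hered μ s B K R E → (E.card : ℝ) ≤ R / K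

/-- C3. The set of bad parameters is small. -/
def ClaimBad : Prop := ∀ s U : ℝ, 0 < s → s < 1 → 1 ≤ U → ∃ κ R0 : ℝ, 0 < κ ∧ 1 ≤ R0 ∧
  ∀ (R K A : ℝ) (μ : Measure ℝ) (g : ℝ → ℝ), R0 ≤ R → 1 ≤ K → K ≤ R ^ κ →
    IsProbabilityMeasure μ → μ (Icc 0 1)ᶜ = 0 → Fro μ K s (1 / R) → Measurable g →
    0 ≤ A → ∫⁻ v, ENNReal.ofReal ((g v) ^ 2) ≤ ENNReal.ofReal A → A ≤ K * R ^ (s - 1) →
    volume {p : ℝ × ℝ | p.1 ∈ Icc (1 : ℝ) 2 ∧ p.2 ∈ Icc (-U) U ∧ 1 / K ≤ |∫ v, g v * Vh μ R p v|} ≤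
      ENNReal.ofReal (1 / (R * K))

/-- C4. From small measure of large values to a sup bound. -/
def ClaimSup : Prop := ∀ (n : ℕ) (U : ℝ) (μ : Measure ℝ) (t : Fin n → ℝ) (R x0 v0 A : ℝ),
  2 * n + 3 ≤ U → IsProbabilityMeasure μ → μ (Icc 0 1)ᶜ = 0 → (∀ i, t i ∈ Icc (1 : ℝ) 2) →
  1 ≤ R → 0 ≤ x0 → 0 ≤ v0 → v0 < 1 / 2 → 0 ≤ A →
  volume {u : ℝ | u ∈ Icc (-U) U ∧ x0 ≤ |en (sc R ps) n logG μ t u|} ≤ ENNReal.ofReal v0 →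
  ∫⁻ u, ENNReal.ofReal ((en (sc R dps) n logG μ t u) ^ 2) ≤ ENNReal.ofReal A →
  ∀ u, |en (sc R ps) n logG μ t u| ≤ x0 + R * Real.sqrt (2 * v0 * A)

/-- C5. Uniform convergence gives an interval in the image. -/
def ClaimDens : Prop := ∀ (n : ℕ) (μ : Measure ℝ) (Kc : Set ℝ) (t : Fin n → ℝ) (C η : ℝ) (j0 : ℕ),
  1 ≤ n → IsProbabilityMeasure μ → IsCompact Kc → Kc ⊆ Icc 0 1 → μ Kcᶜ = 0 →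
  (∀ i, t i ∈ Icc (1 : ℝ) 2) → 0 < η →
  (∀ j : ℕ, j0 ≤ j → ∀ u, |en (sc (2 ^ j) ps) n logG μ t u| ≤ C * (2 : ℝ) ^ (-(η * j))) →
  ∃ p q : ℝ, p < q ∧ Ioo p q ⊆ shiftedProd t Kc

/-- C6. Choice of the shifts. -/
def ClaimSelect : Prop := ∀ N : ℕ, 2 ≤ N → ∃ ε : ℝ, 0 < ε ∧ ε < 2 / (N + 1) ∧
  ∀ (μ : Measure ℝ) (Cμ : ℝ), IsProbabilityMeasure μ → μ (Icc 0 1)ᶜ = 0 → 1 ≤ Cμ →
  (∀ x r : ℝ, 0 < r → μ.real (Metric.closedBall x r) ≤ Cμ * r ^ (2 / ((N : ℝ) + 1) - ε)) →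
  ∃ (t : Fin (N + 1) → ℝ) (C η : ℝ) (j0 : ℕ), (∀ i, t i ∈ Icc (1 : ℝ) 2) ∧ 0 < η ∧
    ∀ j : ℕ, j0 ≤ j → ∀ u, |en (sc (2 ^ j) ps) (N + 1) logG μ t u| ≤ C * (2 : ℝ) ^ (-(η * j))

/-- The main theorem. -/
def ClaimMain : Prop := ∀ n : ℕ, 3 ≤ n → ∃ ε : ℝ, 0 < ε ∧ ∀ A : Set ℝ, MeasurableSet A →
  ENNReal.ofReal (2 / n - ε) < dimH A →
  ∃ (t : Fin n → ℝ) (p q : ℝ), p < q ∧ Ioo p q ⊆ shiftedProd t A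

/-! ### D. The key theorem -/

/-- D1. Packing in a strip. -/
def ClaimPack : Prop := ∀ (δ a e b x c : ℝ) (E : Finset Aff), 0 < δ → 0 ≤ a → 0 ≤ e → |b| ≤ 1 →
  Sep δ E → (∀ g ∈ E, x ≤ g.s ∧ g.s ≤ x + a ∧ |g.s * b + g.t - c| ≤ e) →
  (E.card : ℝ) ≤ (2 * a / δ + 1) * (4 * e / δ + 1)

/-- D2. The energy of the law of `b - l a - τ` over slopes in an interval of length `2 w`. -/
def ClaimQ : Prop := ∀ (s C0 : ℝ) (k : ℝ → ℝ), 0 < s → s < 1 → Ker k C0 → ∫ x, k x = 0 →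
  ∃ C : ℝ, 1 ≤ C ∧ ∀ (K R L w l0 : ℝ) (μ : Measure ℝ), IsProbabilityMeasure μ → 1 ≤ K → 1 ≤ L →
    L ≤ R → 0 < w → w ≤ 1 → μ (Icc 0 1)ᶜ = 0 → Fro μ K s (1 / R) →
    ∫⁻ l in Icc (l0 - w) (l0 + w), (∫⁻ τ : ℝ,
      ENNReal.ofReal ((∫ p : ℝ × ℝ, sc L k (p.2 - l * p.1 - τ) ∂(μ.prod μ)) ^ 2)) ≤
      ENNReal.ofReal (C * K ^ 2 * w ^ (1 - s) * L ^ (1 - 2 * s))

/-- D3. Number of rich affine maps with slopes in a short interval. -/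
def ClaimRich : Prop := ∀ s B : ℝ, 0 < s → s < 1 → 1 ≤ B → ∃ (C : ℝ) (p : ℕ), 1 ≤ C ∧
  ∀ (K R w l0 : ℝ) (μ : Measure ℝ) (Q : Finset Aff), IsProbabilityMeasure μ → 1 ≤ K → 1 ≤ R →
    1 / R ≤ w → w ≤ 1 → μ (Icc 0 1)ᶜ = 0 → Fro μ K s (1 / R) →
    (∀ g ∈ Q, g.bd B ∧ |g.s - l0| ≤ w) → Sep (1 / (B * R)) Q →
    (∀ g ∈ Q, R ^ (-s) / K ≤ mm μ (B / R) g 1) →
    (Q.card : ℝ) ≤ C * K ^ p * R * w ^ (1 - s)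

open Classical in
/-- D4a. The graph of rich pairs is dense. -/
def ClaimGraph : Prop := ∀ s B : ℝ, 0 < s → s < 1 → 1 ≤ B → ∃ C : ℝ, 1 ≤ C ∧
  ∀ (K R : ℝ) (μ : Measure ℝ) (E : Finset Aff), 1 ≤ K → 1 ≤ R → Hered μ s B K R E →
    (∀ g ∈ E, ∀ h ∈ E, mm μ (B / R) g h ≤ C * K * R ^ (-s)) ∧
    (E.card : ℝ) ^ 2 ≤ C * K ^ 2 *
      (((E ×ˢ E).filter fun p => R ^ (-s) / (2 * K) ≤ mm μ (B / R) p.1 p.2).card : ℝ)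

/-- D4b. Slopes of a hereditary set are not concentrated. -/
def ClaimSlope : Prop := ∀ s B : ℝ, 0 < s → s < 1 → 1 ≤ B → ∃ (C : ℝ) (p : ℕ), 1 ≤ C ∧
  ∀ (K R x w : ℝ) (μ : Measure ℝ) (F : Finset Aff), 1 ≤ K → 1 ≤ R → 1 / R ≤ w → w ≤ 1 →
    Hered μ s B K R F → (∀ g ∈ F, |g.s - x| ≤ w) → (F.card : ℝ) ≤ C * K ^ p * R * w ^ (1 - s)

open Classical in
/-- D5. Paths of length four in a dense graph (Balog-Szemeredi-Gowers). -/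
def ClaimPaths : Prop := ∀ (V : Type) (E : Finset V) (Γ : V → V → Prop) (α : ℝ),
  (∀ x y, Γ x y → Γ y x) → 0 < α → α ≤ 1 →
  α * (E.card : ℝ) ^ 2 ≤ (((E ×ˢ E).filter fun p => Γ p.1 p.2).card : ℝ) →
  ∃ E' ⊆ E, α / 8 * (E.card : ℝ) ≤ (E'.card : ℝ) ∧ ∀ x ∈ E', ∀ x' ∈ E',
    α ^ 5 / 2 ^ 20 * (E.card : ℝ) ^ 3 ≤
      (((E ×ˢ E ×ˢ E).filter fun q => Γ x q.1 ∧ Γ q.1 q.2.1 ∧ Γ q.2.1 q.2.2 ∧ Γ q.2.2 x').card : ℝ)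

open Classical in
/-- D6. Few quotients from many paths. -/
def ClaimQuot : Prop := ∀ B : ℝ, 1 ≤ B → ∃ C : ℝ, 1 ≤ C ∧
  ∀ (δ M β : ℝ) (E E' : Finset Aff) (Γ : Aff → Aff → Prop) (G : Set Aff), 0 < δ → δ ≤ 1 →
    0 < M → 0 < β → (∀ g ∈ E, g.bd B) → Sep δ E → E' ⊆ E → E.Nonempty →
    (∀ g ∈ E, ∀ h ∈ E, Γ g h → h⁻¹ * g ∈ G) → Cnt (δ / C) G M →
    (∀ x ∈ E', ∀ x' ∈ E', β * (E.card : ℝ) ^ 3 ≤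
      (((E ×ˢ E ×ˢ E).filter fun q => Γ x q.1 ∧ Γ q.1 q.2.1 ∧ Γ q.2.1 q.2.2 ∧ Γ q.2.2 x').card : ℝ)) →
    Cnt δ (quo E') (C * M ^ 4 / (β * (E.card : ℝ) ^ 3))

/-- D7. Balog-Szemeredi-Gowers for hereditary sets. -/
def ClaimBSG : Prop := ∀ s B : ℝ, 0 < s → s < 1 → 1 ≤ B → ∃ (C : ℝ) (p : ℕ), 1 ≤ C ∧
  ∀ (K R : ℝ) (μ : Measure ℝ) (E : Finset Aff), 1 ≤ K → 1 ≤ R → Hered μ s B K R E →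
    R / K ≤ E.card → ∃ E' ⊆ E, (E.card : ℝ) ≤ C * K ^ p * E'.card ∧
      Cnt (1 / (B * R)) (quo E') (C * K ^ p * R)

open Classical in
/-- D8. Popular elements. -/
def ClaimPop : Prop := ∀ B : ℝ, 1 ≤ B → ∃ C : ℝ, 1 ≤ C ∧
  ∀ (δ M : ℝ) (E : Finset Aff), 0 < δ → δ ≤ 1 → 0 < M → E.Nonempty → (∀ g ∈ E, g.bd B) →
    Sep δ E → Cnt δ (quo E) M →
    (E.card : ℝ) ^ 3 / (C * M) ≤ (((E ×ˢ E).filter fun q =>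
      (E.card : ℝ) ^ 2 / (C * M) ≤ pop (C * δ) E (q.2 * q.1⁻¹) ∧
      (E.card : ℝ) ^ 2 / (C * M) ≤ pop (C * δ) E (q.1 * q.2⁻¹)).card : ℝ)

/-- D9. Words in popular elements. -/
def ClaimWords : Prop := ∀ (B : ℝ) (l : ℕ), 1 ≤ B → ∃ C : ℝ, 1 ≤ C ∧
  ∀ (δ M γ : ℝ) (E : Finset Aff) (S : Set Aff), 0 < δ → δ ≤ 1 → 0 < M → 0 < γ → E.Nonempty →
    (∀ g ∈ E, g.bd B) → Sep δ E → Cnt δ (quo E) M →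
    (∀ x ∈ S, x.bd B ∧ γ * (E.card : ℝ) ≤ pop (B * δ) E x) →
    Cnt (C * δ) {z | ∃ w ∈ Wd S l, ∃ e ∈ E, z = w * e} (C * M ^ (l + 1) / (γ * (E.card : ℝ)) ^ l)

/-- D10. A sum of random dilates of a non concentrated set covers an interval. -/
def ClaimRing0 : Prop := ∀ σ B : ℝ, 0 < σ → 1 ≤ B → ∃ (k : ℕ) (C : ℝ) (p : ℕ), 1 ≤ k ∧ 1 ≤ C ∧
  ∀ (K δ : ℝ) (ρ : Measure ℝ) (D : Finset ℝ), 1 ≤ K → 0 < δ → C * K ^ p * δ ≤ 1 →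
    IsProbabilityMeasure ρ → ρ (Icc 0 B)ᶜ = 0 → ρ (↑D : Set ℝ)ᶜ = 0 → Fro ρ K σ δ →
    ∃ (t : Fin k → ℝ) (v0 : ℝ), (∀ i, t i ∈ Icc (1 : ℝ) 2) ∧
      ∀ v ∈ Icc v0 (v0 + 1 / (C * K ^ p)), ∃ x : Fin k → ℝ, (∀ i, x i ∈ D) ∧
        |∑ i, t i * x i - v| ≤ C * δ

/-- D11. Discretised Edgar-Miller argument. -/
def ClaimRing1 : Prop := ∀ (B c : ℝ) (k : ℕ), 1 ≤ B → 0 < c → c < 1 → 1 ≤ k → ∃ (m : ℕ) (η δ0 : ℝ),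
  0 < η ∧ 0 < δ0 ∧ ∀ (δ : ℝ) (D : Set ℝ), 0 < δ → δ ≤ δ0 → D ⊆ Icc (-B) B →
    (∃ (t : Fin k → ℝ) (v0 : ℝ), (∀ i, t i ∈ Icc (1 : ℝ) 2) ∧
      ∀ v ∈ Icc v0 (v0 + δ ^ η), ∃ x : Fin k → ℝ, (∀ i, x i ∈ D) ∧
        |∑ i, t i * x i - v| ≤ δ ^ (1 - η)) →
    ∀ v ∈ Icc 0 (δ ^ c), ∃ z ∈ RD D m, |z - v| ≤ δ ^ (1 - c)

/-- D12. Ring generation. -/
def ClaimRing : Prop := ∀ σ B c : ℝ, 0 < σ → 1 ≤ B → 0 < c → c < 1 → ∃ (m : ℕ) (κ δ0 : ℝ),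
  0 < κ ∧ 0 < δ0 ∧ ∀ (δ K : ℝ) (ρ : Measure ℝ) (D : Finset ℝ), 0 < δ → δ ≤ δ0 → 1 ≤ K →
    K ≤ δ ^ (-κ) → IsProbabilityMeasure ρ → ρ (Icc 0 B)ᶜ = 0 → ρ (↑D : Set ℝ)ᶜ = 0 →
    (∀ d ∈ D, d ∈ Icc 0 B) → Fro ρ K σ δ → ∀ v ∈ Icc 0 (δ ^ c), ∃ z ∈ RD (↑D : Set ℝ) m, |z - v| ≤ δ ^ (1 - c)

/-- D13. Commutators are translations, and slopes act on translations. -/
def ClaimAct : Prop :=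
  (∀ (S : Set Aff), (∀ x ∈ S, x⁻¹ ∈ S) → ∀ x ∈ S, ∀ y ∈ S,
    tr ((1 - y.s) * x.t - (1 - x.s) * y.t) ∈ Wd S 4) ∧
  ∀ m l : ℕ, ∃ l' : ℕ, ∀ (S : Set Aff), (1 : Aff) ∈ S → (∀ x ∈ S, x⁻¹ ∈ S) → ∀ y : ℝ,
    tr y ∈ Wd S l → ∀ z ∈ RD {d | ∃ x ∈ S, x.s = d} m, tr (z * y) ∈ Wd S l'

/-- D14. Almost commuting popular elements fix a point. -/
def ClaimStab : Prop := ∀ (θ r : ℝ) (E : Finset Aff) (P : Finset (Aff × Aff)), 0 < θ → 0 ≤ r →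
  P ⊆ E ×ˢ E → (∃ q ∈ P, θ ≤ |(q.2 * q.1⁻¹).s - 1|) →
  (∀ q ∈ P, ∀ q' ∈ P, |(1 - (q'.2 * q'.1⁻¹).s) * (q.2 * q.1⁻¹).t -
    (1 - (q.2 * q.1⁻¹).s) * (q'.2 * q'.1⁻¹).t| ≤ r) →
  ∃ (x0 p0 : ℝ) (E1 : Finset Aff), E1 ⊆ E ∧ (P.card : ℝ) ≤ (E1.card : ℝ) * E.card ∧
    ∀ g ∈ E1, |g.act p0 - x0| ≤ r / θ

/-- D15. Counting for maps sending `p0` close to `x0`. -/
def ClaimNear : Prop := ∀ s B : ℝ, 0 < s → s < 1 → 1 ≤ B → ∃ (C e1 : ℝ) (p : ℕ), 1 ≤ C ∧ s < e1 ∧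
  ∀ (K R p0 x0 ρ : ℝ) (μ : Measure ℝ) (E : Finset Aff), 1 ≤ K → 1 ≤ R → Hered μ s B K R E →
    1 / R ≤ ρ → ρ ≤ 1 → (∀ g ∈ E, |g.act p0 - x0| ≤ ρ) →
    (E.card : ℝ) * R ^ (-s) ≤ C * K ^ p * (1 + R * ρ ^ e1)

/-- D16. Counting for maps with nearly equal slopes. -/
def ClaimCell : Prop := ∀ s B A : ℝ, 0 < s → s < 1 → 1 ≤ B → 1 ≤ A → ∃ (C : ℝ) (p : ℕ), 1 ≤ C ∧
  ∀ (K R x y r : ℝ) (μ : Measure ℝ) (E : Finset Aff), 1 ≤ K → 1 ≤ R → Hered μ s B K R E →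
    1 / R ≤ r → (∀ g ∈ E, |g.s - x| ≤ A / R ∧ |g.t - y| ≤ r) →
    (E.card : ℝ) ≤ C * K ^ p * (R * r) ^ s

/-- D17. The final contradiction. -/
def ClaimFinal : Prop := ∀ (s B : ℝ) (Cf : ℕ → ℝ) (pf : ℕ → ℕ), 0 < s → s < 1 → 1 ≤ B →
  (∀ l, 1 ≤ Cf l) → ∃ κ R0 : ℝ, 0 < κ ∧ 1 ≤ R0 ∧
  ∀ (R K : ℝ) (μ : Measure ℝ) (E : Finset Aff) (S : Set Aff) (P : Finset (Aff × Aff)),
    R0 ≤ R → 1 ≤ K → K ≤ R ^ κ → Hered μ s B K R E → R / K ≤ E.card → (1 : Aff) ∈ S →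
    (∀ x ∈ S, x⁻¹ ∈ S) → (∀ x ∈ S, x.bd B) →
    (∀ l, Cnt (Cf l / R) {z | ∃ w ∈ Wd S l, ∃ e ∈ E, z = w * e} (Cf l * K ^ (pf l) * R)) →
    P ⊆ E ×ˢ E → (∀ q ∈ P, q.2 * q.1⁻¹ ∈ S) → (E.card : ℝ) ^ 2 / K ≤ P.card → False

end Pool.Agent.Work.MP_1151e3_an
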