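import Pool.Agent.Work.MP_1151e3_an.Basic
import Pool.Agent.Work.MP_1151e3_an.Claims

/-!
# The increasing sets lemma for the dyadic content
-/

set_option autoImplicit false

namespace Pool.Agent.Work.MP_1151e3_an

open MeasureTheory Set
open scoped ENNReal

/-- The dyadic interval with a given index. -/
def incrD (q : ℕ × ℤ) : Set ℝ := dy q.1 q.2

/-- The weight of a dyadic interval. -/
noncomputable def incrW (s : ℝ) (q : ℕ × ℤ) : ℝ≥0∞ := ENNReal.ofReal ((2 : ℝ) ^ (-(s * q.1)))

/-- The weight measure on indices. -/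
noncomputable def incrMu (s : ℝ) : Measure (ℕ × ℤ) :=
  Measure.sum fun q => incrW s q • Measure.dirac q

lemma incrMu_apply (s : ℝ) (S : Set (ℕ × ℤ)) : incrMu s S = ∑' q : S, incrW s q := by
  rw [incrMu, Measure.sum_apply _ (MeasurableSet.of_discrete), tsum_subtype S (incrW s)]
  refine tsum_congr fun q => ?_
  rw [Measure.smul_apply, Measure.dirac_apply' _ (MeasurableSet.of_discrete), smul_eq_mul]
  by_cases h : q ∈ S <;> simp [h]

/-- Covering by the dyadic intervals with indices in a set. -/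
def incrCov (S : Set (ℕ × ℤ)) (X : Set ℝ) : Prop := ∀ x ∈ X, ∃ q ∈ S, x ∈ incrD q

lemma incr_cont_le (s : ℝ) (X : Set ℝ) (S : Set (ℕ × ℤ)) (h : incrCov S X) :
    cont s X ≤ incrMu s S := by
  classical
  set Q : ℕ → Option (ℕ × ℤ) := fun i =>
    match (Encodable.decode i : Option (ℕ × ℤ)) with
    | some q => if q ∈ S then some q else none
    | none => none with hQ
  have hQe : ∀ q : ℕ × ℤ, Q (Encodable.encode q) = if q ∈ S then some q else none := by
    intro q
    simp only [hQ, Encodable.encodek]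
  have hcov : X ⊆ ⋃ i, (match Q i with | none => ∅ | some q => dy q.1 q.2) := by
    intro x hx
    obtain ⟨q, hq, hxq⟩ := h x hx
    refine mem_iUnion.mpr ⟨Encodable.encode q, ?_⟩
    rw [hQe q, if_pos hq]
    exact hxq
  refine (iInf₂_le Q hcov).trans ?_
  rw [incrMu_apply, tsum_subtype S (incrW s)]
  set f : ℕ → ℝ≥0∞ := fun i =>
    (match Q i with | none => 0 | some q => ENNReal.ofReal ((2 : ℝ) ^ (-(s * q.1)))) with hf
  have hsupp : Function.support f ⊆ range (Encodable.encode : ℕ × ℤ → ℕ) := by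
    intro i hi
    by_contra hcon
    apply hi
    have hd : Q i = none := by
      simp only [hQ]
      rcases hdec : (Encodable.decode₂ (ℕ × ℤ) i) with _ | q
      · rcases hdec' : (Encodable.decode i : Option (ℕ × ℤ)) with _ | q
        · rfl
        · by_cases hqi : Encodable.encode q = i
          · exact absurd ⟨q, hqi⟩ hcon
          · exfalso
            exact hcon ⟨q, by
              have h1 : (Encodable.decode i : Option (ℕ × ℤ)) = some q := hdec'
              have h2 := Denumerable.decode_eq_ofNat (ℕ × ℤ) i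
              rw [h2] at h1
              have h3 : Denumerable.ofNat (ℕ × ℤ) i = q := Option.some.inj h1
              rw [← h3, Denumerable.encode_ofNat]⟩
      · have := Encodable.decode₂_eq_some.mp hdec
        exact absurd ⟨q, this⟩ hcon
    simp only [hf, hd]
  have h1 := Function.Injective.tsum_eq (Encodable.encode_injective (α := ℕ × ℤ)) hsupp
  change ∑' i, f i ≤ _
  rw [← h1]
  refine le_of_eq (tsum_congr fun q => ?_)
  simp only [hf]
  rw [hQe q]
  by_cases hq : q ∈ S
  · rw [if_pos hq, indicator_of_mem hq]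
    rfl
  · rw [if_neg hq, indicator_of_notMem hq]

lemma incr_exists_cov (s : ℝ) (X : Set ℝ) (ε : ℝ≥0∞) (hε : ε ≠ 0) (hX : cont s X ≠ ⊤) :
    ∃ S : Set (ℕ × ℤ), incrCov S X ∧ incrMu s S ≤ cont s X + ε := by
  classical
  have hlt : cont s X < cont s X + ε := ENNReal.lt_add_right hX hε
  conv_lhs at hlt => rw [cont]
  obtain ⟨Q, hQ⟩ := iInf_lt_iff.mp hlt
  obtain ⟨hcov, hsum⟩ := iInf_lt_iff.mp hQ
  refine ⟨{q | ∃ i, Q i = some q}, ?_, ?_⟩
  · intro x hx
    obtain ⟨i, hi⟩ := mem_iUnion.mp (hcov hx)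
    rcases hq : Q i with _ | q
    · rw [hq] at hi
      exact absurd hi (by simp)
    · rw [hq] at hi
      exact ⟨q, ⟨i, hq⟩, hi⟩
  · refine le_trans ?_ hsum.le
    rw [incrMu_apply]
    have hch : ∀ q : {q | ∃ i, Q i = some q}, ∃ i, Q i = some q.1 := fun q => q.2
    choose g hg using hch
    have hinj : Function.Injective g := by
      intro a b hab
      have h1 := hg a
      rw [hab, hg b] at h1
      exact Subtype.ext (Option.some.inj h1).symm
    refine le_trans (le_of_eq ?_) (ENNReal.tsum_comp_le_tsum_of_injective hinj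
      (fun i => (match Q i with | none => 0 | some q => ENNReal.ofReal ((2 : ℝ) ^ (-(s * q.1))))))
    refine tsum_congr fun q => ?_
    rw [hg q]
    rfl

lemma incr_dy_nested {m m' : ℕ} {k k' : ℤ} (hm : m ≤ m') {x : ℝ} (h : x ∈ dy m k)
    (h' : x ∈ dy m' k') : dy m' k' ⊆ dy m k := by
  obtain ⟨d, rfl⟩ := Nat.exists_eq_add_of_le hm
  simp only [dy, mem_Ico] at h h'
  have hp : (0 : ℝ) < 2 ^ m := by positivity
  have hp' : (0 : ℝ) < 2 ^ (m + d) := by positivity
  rw [div_le_iff₀ hp, lt_div_iff₀ hp] at h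
  rw [div_le_iff₀ hp', lt_div_iff₀ hp'] at h'
  have hd : (0 : ℝ) < 2 ^ d := by positivity
  have hpow : (2 : ℝ) ^ (m + d) = 2 ^ m * 2 ^ d := pow_add _ _ _
  rw [hpow] at h'
  -- integer inequalities: k * 2^d ≤ k' and k' + 1 ≤ (k+1) * 2^d
  have h1 : (k : ℝ) * 2 ^ d < k' + 1 := by
    calc (k : ℝ) * 2 ^ d ≤ (x * 2 ^ m) * 2 ^ d := by
          apply mul_le_mul_of_nonneg_right h.1 hd.le
      _ = x * (2 ^ m * 2 ^ d) := by ring
      _ < k' + 1 := h'.2
  have h2 : (k' : ℝ) < (k + 1) * 2 ^ d := by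
    calc (k' : ℝ) ≤ x * (2 ^ m * 2 ^ d) := h'.1
      _ = (x * 2 ^ m) * 2 ^ d := by ring
      _ < (k + 1) * 2 ^ d := by
          apply mul_lt_mul_of_pos_right h.2 hd
  have h1' : k * 2 ^ d < k' + 1 := by exact_mod_cast h1
  have h2' : k' < (k + 1) * 2 ^ d := by exact_mod_cast h2
  have h3 : k * 2 ^ d ≤ k' := by omega
  have h4 : k' + 1 ≤ (k + 1) * 2 ^ d := by omega
  have h3r : (k : ℝ) * 2 ^ d ≤ k' := by exact_mod_cast h3
  have h4r : (k' : ℝ) + 1 ≤ (k + 1) * 2 ^ d := by exact_mod_cast h4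
  intro y hy
  simp only [dy, mem_Ico] at hy ⊢
  rw [div_le_iff₀ hp', lt_div_iff₀ hp', hpow] at hy
  rw [div_le_iff₀ hp, lt_div_iff₀ hp]
  constructor
  · have : (k : ℝ) * 2 ^ d ≤ (y * 2 ^ m) * 2 ^ d := by
      calc (k : ℝ) * 2 ^ d ≤ k' := h3r
        _ ≤ y * (2 ^ m * 2 ^ d) := hy.1
        _ = (y * 2 ^ m) * 2 ^ d := by ring
    exact le_of_mul_le_mul_right this hd
  · have : (y * 2 ^ m) * 2 ^ d < ((k : ℝ) + 1) * 2 ^ d := by
      calc (y * 2 ^ m) * 2 ^ d = y * (2 ^ m * 2 ^ d) := by ring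
        _ < k' + 1 := hy.2
        _ ≤ (k + 1) * 2 ^ d := h4r
    exact lt_of_mul_lt_mul_right this hd.le

/-- Two dyadic intervals with a common point are nested. -/
lemma incr_nested (p q : ℕ × ℤ) {x : ℝ} (hp : x ∈ incrD p) (hq : x ∈ incrD q) :
    incrD p ⊆ incrD q ∨ incrD q ⊆ incrD p := by
  rcases le_total p.1 q.1 with h | h
  · exact Or.inr (incr_dy_nested h hp hq)
  · exact Or.inl (incr_dy_nested h hq hp)

/-- Inclusion of dyadic intervals with the larger level forces equality. -/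
lemma incr_eq_of_level {p q : ℕ × ℤ} (h : p.1 ≤ q.1) (hs : incrD p ⊆ incrD q) : p = q := by
  -- lengths: incrD p has length 2^{-p.1} ≥ 2^{-q.1}
  obtain ⟨m, k⟩ := p
  obtain ⟨m', k'⟩ := q
  simp only [incrD] at h hs
  obtain ⟨d, rfl⟩ := Nat.exists_eq_add_of_le h
  have hp : (0 : ℝ) < 2 ^ m := by positivity
  have hp' : (0 : ℝ) < 2 ^ (m + d) := by positivity
  have hne : ((k : ℝ) / 2 ^ m) < (((k : ℝ) + 1) / 2 ^ m) := by
    apply div_lt_div_of_pos_right _ hp
    linarith
  have hsub := (Ico_subset_Ico_iff hne).mp hs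
  have h1 := hsub.1
  have h2 := hsub.2
  rw [div_le_div_iff₀ hp' hp] at h1
  rw [div_le_div_iff₀ hp hp'] at h2
  rw [pow_add] at h1 h2
  have h1' : (k' : ℝ) ≤ k * 2 ^ d := by
    have : (k' : ℝ) * 2 ^ m ≤ (k * 2 ^ d) * 2 ^ m := by linarith
    exact le_of_mul_le_mul_right this hp
  have h2' : ((k : ℝ) + 1) * 2 ^ d ≤ k' + 1 := by
    have : (((k : ℝ) + 1) * 2 ^ d) * 2 ^ m ≤ (k' + 1) * 2 ^ m := by linarith
    exact le_of_mul_le_mul_right this hp
  have hd1 : (2 : ℝ) ^ d ≤ 1 := by nlinarith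
  have hd : d = 0 := by
    by_contra hd
    have : (1 : ℝ) < 2 ^ d := one_lt_pow₀ (by norm_num) hd
    linarith
  subst hd
  simp only [pow_zero, mul_one] at h1' h2'
  have h3 : k' ≤ k := by exact_mod_cast h1'
  have h4 : k ≤ k' := by
    have : (k : ℝ) ≤ k' := by linarith
    exact_mod_cast this
  ext
  · simp
  · simp only
    omega

/-- The maximal elements of a family of dyadic intervals. -/
def incrMax (S : Set (ℕ × ℤ)) : Set (ℕ × ℤ) := {q | q ∈ S ∧ ∀ p ∈ S, incrD q ⊆ incrD p → p = q}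

lemma incr_exists_max (S : Set (ℕ × ℤ)) : ∀ (n : ℕ) (q : ℕ × ℤ), q.1 ≤ n → q ∈ S →
    ∃ p ∈ incrMax S, incrD q ⊆ incrD p := by
  intro n
  induction n with
  | zero =>
    intro q hq hqS
    refine ⟨q, ⟨hqS, fun p hp hsub => ?_⟩, Subset.rfl⟩
    exact (incr_eq_of_level (by omega) hsub).symm
  | succ n ih =>
    intro q hq hqS
    by_cases h : q ∈ incrMax S
    · exact ⟨q, h, Subset.rfl⟩
    · have : ∃ p ∈ S, incrD q ⊆ incrD p ∧ p ≠ q := by
        by_contra hcon
        push Not at hcon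
        exact h ⟨hqS, fun p hp hs => hcon p hp hs⟩
      obtain ⟨p, hp, hs, hne⟩ := this
      have hlt : p.1 < q.1 := by
        by_contra hcon
        exact hne (incr_eq_of_level (not_lt.mp hcon) hs).symm
      obtain ⟨r, hr, hsr⟩ := ih p (by omega) hp
      exact ⟨r, hr, hs.trans hsr⟩

lemma incr_cov_max {S : Set (ℕ × ℤ)} {X : Set ℝ} (h : incrCov S X) : incrCov (incrMax S) X := by
  intro x hx
  obtain ⟨q, hq, hxq⟩ := h x hx
  obtain ⟨p, hp, hs⟩ := incr_exists_max S q.1 q le_rfl hq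
  exact ⟨p, hp, hs hxq⟩

/-- The recursive families. -/
def incrF (S : ℕ → Set (ℕ × ℤ)) : ℕ → Set (ℕ × ℤ)
  | 0 => S 0
  | (m + 1) => incrMax (incrF S m ∪ S (m + 1))

lemma incr_step (s : ℝ) (A B : Set (ℕ × ℤ)) (X : Set ℝ) (hA : incrCov A X) (hB : incrCov B X) :
    incrMu s (incrMax (A ∪ B)) + cont s X ≤ incrMu s A + incrMu s B := by
  set U := A ∪ B with hU
  set L := (U \ incrMax U) ∪ (A ∩ B) with hL
  have hcovL : incrCov L X := by
    intro x hx
    obtain ⟨p, hp, hxp⟩ := hA x hx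
    obtain ⟨q, hq, hxq⟩ := hB x hx
    by_cases hpq : p = q
    · subst hpq
      exact ⟨p, Or.inr ⟨hp, hq⟩, hxp⟩
    · rcases incr_nested p q hxp hxq with h | h
      · exact ⟨p, Or.inl ⟨Or.inl hp, fun hmax => hpq (hmax.2 q (Or.inr hq) h).symm⟩, hxp⟩
      · exact ⟨q, Or.inl ⟨Or.inr hq, fun hmax => hpq (hmax.2 p (Or.inl hp) h)⟩, hxq⟩
  have h1 : cont s X ≤ incrMu s (U \ incrMax U) + incrMu s (A ∩ B) :=
    (incr_cont_le s X L hcovL).trans (measure_union_le _ _)
  have h2 : incrMu s (incrMax U) + incrMu s (U \ incrMax U) = incrMu s U := by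
    have hsub : incrMax U ⊆ U := fun q hq => hq.1
    have := measure_inter_add_sdiff (μ := incrMu s) U
      (MeasurableSet.of_discrete : MeasurableSet (incrMax U))
    rwa [inter_eq_self_of_subset_right hsub] at this
  have h3 : incrMu s U + incrMu s (A ∩ B) = incrMu s A + incrMu s B :=
    measure_union_add_inter A (MeasurableSet.of_discrete)
  calc incrMu s (incrMax U) + cont s X
      ≤ incrMu s (incrMax U) + (incrMu s (U \ incrMax U) + incrMu s (A ∩ B)) := by gcongr
    _ = incrMu s A + incrMu s B := by rw [← add_assoc, h2, h3]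

lemma incr_mono (s : ℝ) {X Y : Set ℝ} (h : X ⊆ Y) : cont s X ≤ cont s Y := by
  refine le_iInf₂ fun Q hQ => ?_
  exact iInf₂_le Q (h.trans hQ)

theorem claimIncr : ClaimIncr := by
  intro s X _ hX
  apply le_antisymm
  swap
  · exact iSup_le fun n => incr_mono s (subset_iUnion X n)
  set c := ⨆ n, cont s (X n) with hc
  by_cases hctop : c = ⊤
  · rw [hctop]; exact le_top
  have hfin : ∀ n, cont s (X n) ≠ ⊤ := fun n =>
    ne_top_of_le_ne_top hctop (le_iSup (fun n => cont s (X n)) n)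
  refine ENNReal.le_of_forall_pos_le_add fun ε hε _ => ?_
  have hεne : (ε : ℝ≥0∞) ≠ 0 := by exact_mod_cast hε.ne'
  obtain ⟨e, hepos, hesum⟩ := ENNReal.exists_pos_sum_of_countable hεne ℕ
  have hex : ∀ n, ∃ S : Set (ℕ × ℤ), incrCov S (X n) ∧ incrMu s S ≤ cont s (X n) + e n :=
    fun n => incr_exists_cov s (X n) (e n) (by exact_mod_cast (hepos n).ne') (hfin n)
  choose S hScov hSw using hex
  -- the families cover
  have hFcov : ∀ m, incrCov (incrF S m) (X m) := by
    intro m
    cases m with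
    | zero => exact hScov 0
    | succ m =>
      apply incr_cov_max
      intro x hx
      obtain ⟨q, hq, hxq⟩ := hScov (m + 1) x hx
      exact ⟨q, Or.inr hq, hxq⟩
  -- the weights
  have hFw : ∀ m, incrMu s (incrF S m) ≤ cont s (X m) + ∑ i ∈ Finset.range (m + 1), (e i : ℝ≥0∞) := by
    intro m
    induction m with
    | zero =>
      have h0 := hSw 0
      change incrMu s (S 0) ≤ _
      simpa using h0
    | succ m ih =>
      have hstep := incr_step s (incrF S m) (S (m + 1)) (X m) (hFcov m)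
        (fun x hx => hScov (m + 1) x (hX (Nat.le_succ m) hx))
      have h2 : incrMu s (incrF S (m + 1)) + cont s (X m) ≤
          (cont s (X (m + 1)) + ∑ i ∈ Finset.range (m + 1 + 1), (e i : ℝ≥0∞)) + cont s (X m) := by
        calc incrMu s (incrF S (m + 1)) + cont s (X m)
            ≤ incrMu s (incrF S m) + incrMu s (S (m + 1)) := hstep
          _ ≤ (cont s (X m) + ∑ i ∈ Finset.range (m + 1), (e i : ℝ≥0∞)) +
              (cont s (X (m + 1)) + e (m + 1)) := add_le_add ih (hSw (m + 1))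
          _ = (cont s (X (m + 1)) + ∑ i ∈ Finset.range (m + 1 + 1), (e i : ℝ≥0∞)) +
              cont s (X m) := by
              rw [Finset.sum_range_succ _ (m + 1)]
              ring
      exact (ENNReal.add_le_add_iff_right (hfin m)).mp h2
  have hFw' : ∀ m, incrMu s (incrF S m) ≤ c + ε := by
    intro m
    refine (hFw m).trans ?_
    refine add_le_add (le_iSup (fun n => cont s (X n)) m) ?_
    exact (ENNReal.sum_le_tsum _).trans hesum.le
  -- the final family
  set T := incrMax (⋃ n, S n) with hT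
  have hTcov : incrCov T (⋃ n, X n) := by
    apply incr_cov_max
    intro x hx
    obtain ⟨n, hn⟩ := mem_iUnion.mp hx
    obtain ⟨q, hq, hxq⟩ := hScov n x hn
    exact ⟨q, mem_iUnion.mpr ⟨n, hq⟩, hxq⟩
  have hFsub : ∀ m, incrF S m ⊆ ⋃ n, S n := by
    intro m
    induction m with
    | zero => exact subset_iUnion S 0
    | succ m ih =>
      intro q hq
      rcases hq.1 with h | h
      · exact ih h
      · exact mem_iUnion.mpr ⟨m + 1, h⟩
  have hmem : ∀ q ∈ T, ∃ n, ∀ m, n ≤ m → q ∈ incrF S m := by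
    intro q hq
    obtain ⟨n, hn⟩ := mem_iUnion.mp hq.1
    refine ⟨n, fun m hm => ?_⟩
    induction m, hm using Nat.le_induction with
    | base =>
      cases n with
      | zero => exact hn
      | succ n =>
        refine ⟨Or.inr hn, fun p hp hs => ?_⟩
        refine hq.2 p ?_ hs
        rcases hp with h | h
        · exact hFsub n h
        · exact mem_iUnion.mpr ⟨n + 1, h⟩
    | succ m hm ih =>
      refine ⟨Or.inl ih, fun p hp hs => ?_⟩
      refine hq.2 p ?_ hs
      rcases hp with h | h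
      · exact hFsub m h
      · exact mem_iUnion.mpr ⟨m + 1, h⟩
  set E : ℕ → Set (ℕ × ℤ) := fun n => {q | ∀ m, n ≤ m → q ∈ incrF S m} with hE
  have hEmono : Monotone E := by
    intro a b hab q hq m hm
    exact hq m (hab.trans hm)
  have hTE : T ⊆ ⋃ n, E n := by
    intro q hq
    obtain ⟨n, hn⟩ := hmem q hq
    exact mem_iUnion.mpr ⟨n, hn⟩
  calc cont s (⋃ n, X n) ≤ incrMu s T := incr_cont_le s _ T hTcov
    _ ≤ incrMu s (⋃ n, E n) := measure_mono hTE
    _ = ⨆ n, incrMu s (E n) := hEmono.measure_iUnion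
    _ ≤ c + ε := by
      refine iSup_le fun n => ?_
      have hsub : E n ⊆ incrF S n := fun q hq => hq n le_rfl
      exact (measure_mono hsub).trans (hFw' n)

end Pool.Agent.Work.MP_1151e3_an
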