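import Pool.Agent.Work.MP_1151e3_an.Basic

/-!
# Facts about the explicit kernels
-/

set_option autoImplicit false

namespace Pool.Agent.Work.MP_1151e3_an

open MeasureTheory Set Filter
open scoped Topology Convolution

/-- Derivative of the square of the positive part. -/
lemma claimKer_sq (u : ℝ) : HasDerivAt (fun u : ℝ => (max 0 u) ^ 2) (2 * max 0 u) u := by
  rcases lt_trichotomy u 0 with hu | hu | hu
  · have h1 : (fun u : ℝ => (max 0 u) ^ 2) =ᶠ[𝓝 u] fun _ => (0 : ℝ) := by
      filter_upwards [Iio_mem_nhds hu] with v hv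
      rw [max_eq_left (le_of_lt hv)]
      norm_num
    rw [max_eq_left hu.le]
    simpa using (hasDerivAt_const u (0 : ℝ)).congr_of_eventuallyEq h1
  · subst hu
    rw [hasDerivAt_iff_tendsto_slope]
    have hc : Tendsto (fun v : ℝ => max 0 v) (𝓝[≠] 0) (𝓝 0) := by
      have : Continuous fun v : ℝ => max 0 v := by fun_prop
      have h2 := this.tendsto 0
      simp only [max_self] at h2
      exact h2.mono_left nhdsWithin_le_nhds
    have : 2 * max (0 : ℝ) 0 = 0 := by simp
    rw [this]
    refine hc.congr' ?_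
    filter_upwards [self_mem_nhdsWithin] with v hv
    have hv' : v ≠ 0 := hv
    rw [slope_def_field]
    rcases le_total v 0 with h | h
    · simp [max_eq_left h]
    · rw [max_eq_right h]
      simp only [max_self]
      field_simp
      ring
  · have h1 : (fun u : ℝ => (max 0 u) ^ 2) =ᶠ[𝓝 u] fun u => u ^ 2 := by
      filter_upwards [Ioi_mem_nhds hu] with v hv
      rw [max_eq_right (le_of_lt hv)]
    rw [max_eq_right hu.le]
    have := (hasDerivAt_pow 2 u).congr_of_eventuallyEq h1
    simpa using this

lemma claimKer_thd (x : ℝ) : HasDerivAt th (-(120 * x * max 0 (1 / 4 - x ^ 2))) x := by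
  have h1 : HasDerivAt (fun x : ℝ => 1 / 4 - x ^ 2) (-(2 * x)) x := by
    have := (hasDerivAt_pow 2 x).const_sub (1 / 4)
    simpa using this
  have h2 := ((claimKer_sq (1 / 4 - x ^ 2)).comp x h1).const_mul 30
  have h3 : HasDerivAt th (30 * (2 * max 0 (1 / 4 - x ^ 2) * -(2 * x))) x := by
    refine h2.congr_of_eventuallyEq ?_
    exact Eventually.of_forall fun y => by simp [th]
  convert h3 using 1
  ring

lemma claimKer_thdc : Continuous (deriv th) := by
  have : deriv th = fun x => -(120 * x * max 0 (1 / 4 - x ^ 2)) := by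
    funext x
    exact (claimKer_thd x).deriv
  rw [this]
  fun_prop

lemma claimKer_thc1 : ContDiff ℝ 1 th := by
  rw [contDiff_one_iff_deriv]
  exact ⟨fun x => (claimKer_thd x).differentiableAt, claimKer_thdc⟩

lemma claimKer_thc : Continuous th := claimKer_thc1.continuous

lemma claimKer_max {x : ℝ} (hx : 1 / 2 ≤ |x|) : max 0 (1 / 4 - x ^ 2) = 0 := by
  apply max_eq_left
  have := sq_abs x
  nlinarith

lemma claimKer_th0 {x : ℝ} (hx : 1 / 2 ≤ |x|) : th x = 0 := by
  rw [th, claimKer_max hx]
  norm_num

lemma claimKer_thd0 {x : ℝ} (hx : 1 / 2 ≤ |x|) : deriv th x = 0 := by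
  rw [(claimKer_thd x).deriv, claimKer_max hx]
  norm_num

lemma claimKer_nonneg (x : ℝ) : 0 ≤ th x := by
  unfold th
  positivity

lemma claimKer_le (x : ℝ) : th x ≤ 2 := by
  unfold th
  have h1 : max 0 (1 / 4 - x ^ 2) ≤ 1 / 4 := by
    apply max_le (by norm_num)
    nlinarith [sq_nonneg x]
  have h0 : 0 ≤ max 0 (1 / 4 - x ^ 2) := le_max_left _ _
  nlinarith

lemma claimKer_ge {x : ℝ} (hx : |x| ≤ 1 / 4) : 1 ≤ th x := by
  unfold th
  have h1 : 3 / 16 ≤ max 0 (1 / 4 - x ^ 2) := by
    apply le_max_of_le_right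
    have := sq_abs x
    have h2 := abs_nonneg x
    nlinarith
  nlinarith

/-- Compact support from vanishing off a ball. -/
lemma claimKer_cs {f : ℝ → ℝ} {r : ℝ} (h : ∀ x, r ≤ |x| → f x = 0) : HasCompactSupport f := by
  refine HasCompactSupport.intro (isCompact_Icc : IsCompact (Icc (-r) r)) fun x hx => ?_
  apply h
  by_contra hc
  push Not at hc
  exact hx ⟨(abs_lt.mp hc).1.le, (abs_lt.mp hc).2.le⟩

lemma claimKer_thcs : HasCompactSupport th := claimKer_cs fun _ => claimKer_th0

lemma claimKer_thint : Integrable th := claimKer_thc.integrable_of_hasCompactSupport claimKer_thcs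

lemma claimKer_int : ∫ x, th x = 1 := by
  have h1 : ∫ x, th x = ∫ x in (-(1 / 2) : ℝ)..(1 / 2), th x := by
    rw [intervalIntegral.integral_of_le (by norm_num), ← integral_indicator measurableSet_Ioc]
    congr 1
    funext x
    by_cases hx : x ∈ Ioc (-(1 / 2) : ℝ) (1 / 2)
    · rw [indicator_of_mem hx]
    · rw [indicator_of_notMem hx]
      apply claimKer_th0
      by_contra hc
      push Not at hc
      exact hx ⟨(abs_lt.mp hc).1, (abs_lt.mp hc).2.le⟩
  have h2 : ∫ x in (-(1 / 2) : ℝ)..(1 / 2), th x =
      ∫ x in (-(1 / 2) : ℝ)..(1 / 2), (30 * (1 / 16) - 15 * x ^ 2 + 30 * x ^ 4) := by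
    apply intervalIntegral.integral_congr
    intro x hx
    rw [uIcc_of_le (by norm_num)] at hx
    have h3 : 0 ≤ 1 / 4 - x ^ 2 := by nlinarith [hx.1, hx.2]
    simp only [th]
    rw [max_eq_right h3]
    ring
  rw [h1, h2]
  rw [intervalIntegral.integral_add, intervalIntegral.integral_sub]
  · simp only [intervalIntegral.integral_const_mul, integral_pow, intervalIntegral.integral_const]
    norm_num
  · exact (continuous_const).intervalIntegrable _ _
  · exact (by fun_prop : Continuous fun x : ℝ => 15 * x ^ 2).intervalIntegrable _ _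
  · exact (by fun_prop : Continuous fun x : ℝ => 30 * (1 / 16) - 15 * x ^ 2).intervalIntegrable _ _
  · exact (by fun_prop : Continuous fun x : ℝ => 30 * x ^ 4).intervalIntegrable _ _

/-! ### The convolution square -/

lemma claimKer_ph : ph = th ⋆[ContinuousLinearMap.mul ℝ ℝ, volume] th := by
  funext x
  rfl

/-- The derivative of `ph`. -/
noncomputable def claimKerDph (x : ℝ) : ℝ := ∫ y, th y * deriv th (x - y)

lemma claimKer_dph : claimKerDph = th ⋆[ContinuousLinearMap.mul ℝ ℝ, volume] (deriv th) := by
  funext x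
  rfl

lemma claimKer_thdcs : HasCompactSupport (deriv th) := claimKer_cs fun _ => claimKer_thd0

lemma claimKer_phd (x : ℝ) : HasDerivAt ph (claimKerDph x) x := by
  rw [claimKer_ph, claimKer_dph]
  exact claimKer_thcs.hasDerivAt_convolution_right _ claimKer_thc.locallyIntegrable
    claimKer_thc1 x

lemma claimKer_dphc : Continuous claimKerDph := by
  rw [claimKer_dph]
  exact claimKer_thdcs.continuous_convolution_right _ claimKer_thc.locallyIntegrable claimKer_thdc

lemma claimKer_phc : Continuous ph := by
  rw [claimKer_ph]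
  exact claimKer_thcs.continuous_convolution_right _ claimKer_thc.locallyIntegrable claimKer_thc

lemma claimKer_supp {x : ℝ} (hx : 1 ≤ |x|) (y : ℝ) : 1 / 2 ≤ |y| ∨ 1 / 2 ≤ |x - y| := by
  by_contra hc
  push Not at hc
  have : |x| ≤ |y| + |x - y| := by
    have := abs_add_le y (x - y)
    simpa using this
  linarith [hc.1, hc.2]

lemma claimKer_ph0 {x : ℝ} (hx : 1 ≤ |x|) : ph x = 0 := by
  unfold ph
  rw [show (fun y => th y * th (x - y)) = fun _ => (0 : ℝ) from ?_]
  · simp
  · funext y
    rcases claimKer_supp hx y with h | h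
    · rw [claimKer_th0 h, zero_mul]
    · rw [claimKer_th0 h, mul_zero]

lemma claimKer_dph0 {x : ℝ} (hx : 1 ≤ |x|) : claimKerDph x = 0 := by
  unfold claimKerDph
  rw [show (fun y => th y * deriv th (x - y)) = fun _ => (0 : ℝ) from ?_]
  · simp
  · funext y
    rcases claimKer_supp hx y with h | h
    · rw [claimKer_th0 h, zero_mul]
    · rw [claimKer_thd0 h, mul_zero]

lemma claimKer_phint : ∫ x, ph x = 1 := by
  rw [claimKer_ph]
  rw [integral_convolution (ContinuousLinearMap.mul ℝ ℝ) claimKer_thint claimKer_thint]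
  rw [claimKer_int]
  simp

lemma claimKer_ker {f : ℝ → ℝ} (hc : Continuous f) (h : ∀ x, 1 ≤ |x| → f x = 0) :
    ∃ C, Ker f C := by
  obtain ⟨C, hC⟩ := (claimKer_cs h).exists_bound_of_continuous hc
  exact ⟨C, hc, h, fun x => by simpa using hC x⟩

lemma claimKer_psd (x : ℝ) :
    HasDerivAt ps (4 * claimKerDph (2 * x) - claimKerDph x) x := by
  have h1 : HasDerivAt (fun x : ℝ => 2 * x) 2 x := by
    simpa using (hasDerivAt_id x).const_mul 2
  have h2 := ((claimKer_phd (2 * x)).comp x h1).const_mul 2
  have h3 := h2.sub (claimKer_phd x)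
  refine (h3.congr_of_eventuallyEq (Eventually.of_forall fun y => ?_)).congr_deriv ?_
  · simp [ps]
  · ring

lemma claimKer_dps : dps = fun x => 4 * claimKerDph (2 * x) - claimKerDph x := by
  funext x
  exact (claimKer_psd x).deriv

lemma claimKer_abs2 {x : ℝ} {r : ℝ} (hr : 0 ≤ r) (hx : r ≤ |x|) : r ≤ |2 * x| := by
  rw [abs_mul]
  norm_num
  linarith

lemma claimKer_k10 {x : ℝ} (hx : 1 / 2 ≤ |x|) : k1 x = 0 := by
  rw [k1, claimKer_th0 hx, claimKer_th0 (claimKer_abs2 (by norm_num) hx)]
  norm_num

lemma claimKer_k20 {x : ℝ} (hx : 1 / 2 ≤ |x|) : k2 x = 0 := by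
  rw [k2, claimKer_th0 hx, claimKer_th0 (claimKer_abs2 (by norm_num) hx)]
  norm_num

lemma claimKer_k1c : Continuous k1 := by
  unfold k1
  have := claimKer_thc
  fun_prop

lemma claimKer_k2c : Continuous k2 := by
  unfold k2
  have := claimKer_thc
  fun_prop

lemma claimKer_psc : Continuous ps := by
  unfold ps
  have := claimKer_phc
  fun_prop

lemma claimKer_dpsc : Continuous dps := by
  rw [claimKer_dps]
  have := claimKer_dphc
  fun_prop

lemma claimKer_ps0 {x : ℝ} (hx : 1 ≤ |x|) : ps x = 0 := by
  rw [ps, claimKer_ph0 hx, claimKer_ph0 (claimKer_abs2 (by norm_num) hx)]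
  norm_num

lemma claimKer_dps0 {x : ℝ} (hx : 1 ≤ |x|) : dps x = 0 := by
  rw [claimKer_dps]
  simp only
  rw [claimKer_dph0 hx, claimKer_dph0 (claimKer_abs2 (by norm_num) hx)]
  norm_num

lemma claimKer_th2int : Integrable fun x => th (2 * x) := by
  have h : Continuous fun x => th (2 * x) := by
    have := claimKer_thc
    fun_prop
  refine h.integrable_of_hasCompactSupport (claimKer_cs (r := 1 / 2) fun x hx => ?_)
  exact claimKer_th0 (claimKer_abs2 (by norm_num) hx)

lemma claimKer_k1int : ∫ x, k1 x = 0 := by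
  unfold k1
  rw [integral_sub (claimKer_th2int.const_mul 2) claimKer_thint, integral_const_mul]
  rw [Measure.integral_comp_mul_left, claimKer_int]
  simp only [smul_eq_mul]
  rw [abs_of_pos (by norm_num)]
  norm_num

/-- The convolution identity. -/
lemma claimKer_conv (w : ℝ) : ps w = ∫ z, k1 z * k2 (w - z) := by
  have hth := claimKer_thc
  have hi : ∀ f g : ℝ → ℝ, Continuous f → Continuous g → (∀ x, 1 / 2 ≤ |x| → f x = 0) →
      Integrable fun z => f z * g (w - z) := by
    intro f g hf hg h0
    refine (by fun_prop : Continuous fun z => f z * g (w - z)).integrable_of_hasCompactSupport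
      (claimKer_cs (r := 1 / 2) fun x hx => ?_)
    rw [h0 x hx, zero_mul]
  set a : ℝ → ℝ := fun z => 2 * th (2 * z) with ha
  have hac : Continuous a := by fun_prop
  have ha0 : ∀ x, 1 / 2 ≤ |x| → a x = 0 := by
    intro x hx
    simp only [ha]
    rw [claimKer_th0 (claimKer_abs2 (by norm_num) hx)]
    norm_num
  have h1 : (fun z => k1 z * k2 (w - z)) = fun z =>
      ((a z * a (w - z) + a z * th (w - z)) - th z * a (w - z)) - th z * th (w - z) := by
    funext z
    simp only [k1, k2, ha]
    ring
  have i1 := hi a a hac hac ha0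
  have i2 := hi a th hac hth ha0
  have i3 := hi th a hth hac fun _ => claimKer_th0
  have i4 := hi th th hth hth fun _ => claimKer_th0
  have e1 : Integrable fun z => a z * a (w - z) + a z * th (w - z) := i1.add i2
  have e2 : Integrable fun z => a z * a (w - z) + a z * th (w - z) - th z * a (w - z) := e1.sub i3
  rw [h1, integral_sub e2 i4, integral_sub e1 i3, integral_add i1 i2]
  have h2 : ∫ z, a z * th (w - z) = ∫ z, th z * a (w - z) := by
    rw [← integral_sub_left_eq_self (fun z => a z * th (w - z)) volume w]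
    congr 1
    funext z
    rw [sub_sub_cancel, mul_comm]
  have h3 : ∫ z, a z * a (w - z) = 2 * ph (2 * w) := by
    have h4 : (fun z => a z * a (w - z)) = fun z => 4 * ((fun y => th y * th (2 * w - y)) (2 * z)) := by
      funext z
      simp only [ha]
      rw [show 2 * (w - z) = 2 * w - 2 * z by ring]
      ring
    rw [h4, integral_const_mul,
      Measure.integral_comp_mul_left (fun y => th y * th (2 * w - y)) 2]
    simp only [smul_eq_mul]
    rw [abs_of_pos (by norm_num), ph]
    ring
  have h5 : ∫ z, th z * th (w - z) = ph w := rfl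
  rw [h2, h3, h5, ps]
  ring

theorem claimKer : ClaimKer := by
  refine ⟨⟨claimKer_thc, claimKer_nonneg, fun _ => claimKer_th0, fun _ => claimKer_ge,
    claimKer_le, claimKer_int⟩, claimKer_ker claimKer_k1c fun x hx => claimKer_k10 (by linarith),
    claimKer_k1int, claimKer_ker claimKer_k2c fun x hx => claimKer_k20 (by linarith), ?_,
    fun _ => claimKer_k20, fun _ => claimKer_k10,
    ⟨claimKer_phc, ?_, fun _ => claimKer_ph0, claimKer_phint⟩,
    claimKer_ker claimKer_psc fun _ => claimKer_ps0,
    claimKer_ker claimKer_dpsc fun _ => claimKer_dps0, ?_, ?_, ?_, ?_, ?_⟩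
  · intro x
    unfold k2
    have := claimKer_nonneg x
    have := claimKer_nonneg (2 * x)
    linarith
  · intro x
    unfold ph
    exact integral_nonneg fun y => mul_nonneg (claimKer_nonneg _) (claimKer_nonneg _)
  · refine integral_eq_zero_of_hasDerivAt_of_integrable (f := ps) (fun x => ?_)
      (claimKer_dpsc.integrable_of_hasCompactSupport (claimKer_cs fun _ => claimKer_dps0))
      (claimKer_psc.integrable_of_hasCompactSupport (claimKer_cs fun _ => claimKer_ps0))
    rw [claimKer_dps]
    exact claimKer_psd x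
  · intro x
    rw [claimKer_dps]
    exact claimKer_psd x
  · intro R x hR
    have h1 : (fun y => sc R k1 y * sc R k2 (x - y)) = fun y =>
        R ^ 2 * ((fun z => k1 z * k2 (R * x - z)) (R * y)) := by
      funext y
      simp only [sc]
      rw [show R * (x - y) = R * x - R * y by ring]
      ring
    rw [h1, integral_const_mul,
      Measure.integral_comp_mul_left (fun z => k1 z * k2 (R * x - z)) R, ← claimKer_conv]
    simp only [smul_eq_mul, sc]
    rw [abs_of_pos (by positivity)]
    field_simp
  · intro R x hR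
    simp only [sc, ps]
    rw [show 2 * R * x = 2 * (R * x) by ring]
    ring
  · intro R x hR
    simp only [sc, k1]
    rw [show 2 * R * x = 2 * (R * x) by ring]
    ring

end Pool.Agent.Work.MP_1151e3_an
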