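import Pool.Agent.Work.MP_1151e3_an.Basic

/-!
# Open intervals in shifted products: item D18 (claimK, the key theorem)
-/

set_option autoImplicit false

namespace Pool.Agent.Work.MP_1151e3_an

open MeasureTheory Set Aff
open scoped ENNReal

lemma D18_pop_mono {ρ ρ' : ℝ} (h : ρ ≤ ρ') (E : Finset Aff) (x : Aff) : pop ρ E x ≤ pop ρ' E x := by
  classical
  unfold pop
  refine Finset.card_le_card fun p hp => ?_
  rw [Finset.mem_filter] at hp ⊢
  exact ⟨hp.1, hp.2.trans h⟩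

lemma D18_pop_one {ρ : ℝ} (h : 0 ≤ ρ) (E : Finset Aff) : E.card ≤ pop ρ E 1 := by
  classical
  unfold pop
  refine Finset.card_le_card_of_injOn (fun g => (g, g)) (fun g hg => ?_) (fun g _ h _ e => ?_)
  · have hg' : g ∈ E := hg
    have : (1 * g).ad g ≤ ρ := by rw [one_mul, ad_self]; exact h
    rw [Finset.mem_coe, Finset.mem_filter]
    exact ⟨Finset.mem_product.mpr ⟨hg', hg'⟩, this⟩
  · exact congrArg Prod.fst e

theorem claimK (hBSG : ClaimBSG) (hPop : ClaimPop) (hWords : ClaimWords) (hFinal : ClaimFinal) :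
    ClaimK := by
  classical
  intro s B hs0 hs1 hB
  have hB0 : 0 < B := by linarith
  obtain ⟨C1, p1, hC1, hBSG⟩ := hBSG s B hs0 hs1 hB
  obtain ⟨C2, hC2, hPop⟩ := hPop B hB
  have hB3 : (1 : ℝ) ≤ B ^ 3 := one_le_pow₀ hB
  set B' : ℝ := 2 * B ^ 3 * C2 with hB'
  have hBB3 : B ≤ B ^ 3 := le_self_pow₀ hB (by norm_num)
  have hB'1 : 2 * B ^ 3 ≤ B' := le_mul_of_one_le_right (by positivity) hC2
  have hB'2 : C2 ≤ B' := le_mul_of_one_le_left (by linarith) (by linarith)
  have hB'3 : B ≤ B' := by linarith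
  have hB'4 : 1 ≤ B' := by linarith
  choose Cw hCw hW using fun l : ℕ => hWords B' l hB'4
  set Cf : ℕ → ℝ := fun l => Cw l * (C1 * (2 * C2 * C1 ^ 4) ^ l) with hCf
  set pf : ℕ → ℕ := fun l => p1 + l * (4 * p1 + 2) with hpf
  have h2C : (1 : ℝ) ≤ 2 * C2 * C1 ^ 4 := by
    have e1 : (1 : ℝ) ≤ 2 * C2 := by linarith
    exact one_le_mul_of_one_le_of_one_le e1 (one_le_pow₀ hC1)
  have hCf1 : ∀ l, 1 ≤ Cf l := fun l =>
    one_le_mul_of_one_le_of_one_le (hCw l)
      (one_le_mul_of_one_le_of_one_le hC1 (one_le_pow₀ h2C))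
  obtain ⟨κ, R0, hκ, hR0, hF⟩ := hFinal s B' Cf pf hs0 hs1 hB'4 hCf1
  set p : ℕ := 2 * p1 + 1 with hp
  set A : ℝ := C2 * C1 ^ 2 with hA
  have hA1 : 1 ≤ A := one_le_mul_of_one_le_of_one_le hC2 (one_le_pow₀ hC1)
  have hp0 : (0 : ℝ) < p := by rw [hp]; positivity
  refine ⟨κ / (2 * p), max R0 (A ^ (2 / κ)), by positivity, le_max_of_le_left hR0, ?_⟩
  intro R K μ E hR hK hKR hE
  by_contra hcon
  push Not at hcon
  have hR1 : 1 ≤ R := hR0.trans ((le_max_left _ _).trans hR)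
  have hRp : 0 < R := by linarith
  have hKp : 0 < K := by linarith
  have hC1p : 0 < C1 := by linarith
  have hC2p : 0 < C2 := by linarith
  obtain ⟨E', hE', hEE, hcnt⟩ := hBSG K R μ E hK hR1 hE hcon.le
  set δ : ℝ := 1 / (B * R) with hδ
  have hδ0 : 0 < δ := by rw [hδ]; positivity
  have hδ1 : δ ≤ 1 := by
    rw [hδ, div_le_one (by positivity)]
    exact one_le_mul_of_one_le_of_one_le hB hR1
  set M : ℝ := C1 * K ^ p1 * R with hM
  have hM0 : 0 < M := by rw [hM]; positivity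
  have hEpos : (0 : ℝ) < E.card := lt_trans (by positivity) hcon
  have hE'low : R / (C1 * K ^ (p1 + 1)) ≤ E'.card := by
    rw [div_le_iff₀ (by positivity)]
    have h1 : R / K ≤ C1 * K ^ p1 * E'.card := hcon.le.trans hEE
    rw [div_le_iff₀ hKp] at h1
    calc R ≤ C1 * K ^ p1 * E'.card * K := h1
      _ = _ := by ring
  have hE'pos : (0 : ℝ) < E'.card := lt_of_lt_of_le (by positivity) hE'low
  have hE'ne : E'.Nonempty := by
    rw [← Finset.card_pos]
    exact_mod_cast hE'pos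
  have hH' : Hered μ s B K R E' := hE.subset hE'
  have hPopE := hPop δ M E' hδ0 hδ1 hM0 hE'ne hH'.bd hH'.sep hcnt
  set P : Finset (Aff × Aff) := (E' ×ˢ E').filter fun q =>
      (E'.card : ℝ) ^ 2 / (C2 * M) ≤ pop (C2 * δ) E' (q.2 * q.1⁻¹) ∧
      (E'.card : ℝ) ^ 2 / (C2 * M) ≤ pop (C2 * δ) E' (q.1 * q.2⁻¹) with hP
  have hPopE' : (E'.card : ℝ) ^ 3 / (C2 * M) ≤ P.card := by
    convert hPopE using 4
  set S : Set Aff := {x | x = 1 ∨ ∃ q ∈ P, x = q.2 * q.1⁻¹ ∨ x = q.1 * q.2⁻¹} with hS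
  have hS1 : (1 : Aff) ∈ S := Or.inl rfl
  have hSinv : ∀ x ∈ S, x⁻¹ ∈ S := by
    rintro x (rfl | ⟨q, hq, rfl | rfl⟩)
    · left; exact inv_one
    · right; exact ⟨q, hq, Or.inr (by group)⟩
    · right; exact ⟨q, hq, Or.inl (by group)⟩
  have hbd2 : ∀ g ∈ E', ∀ h ∈ E', (g * h⁻¹).bd B' := by
    intro g hg h hh
    have h1 := bd_mul hB (one_le_pow₀ hB : (1 : ℝ) ≤ B ^ 2) (hH'.bd g hg) (bd_inv hB (hH'.bd h hh))
    refine bd_mono (by positivity) ?_ h1
    have : 2 * B * B ^ 2 = 2 * B ^ 3 := by ring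
    rw [this]
    exact hB'1
  have hSbd : ∀ x ∈ S, x.bd B' := by
    rintro x (rfl | ⟨q, hq, hx⟩)
    · exact bd_one hB'4
    · rw [hP, Finset.mem_filter, Finset.mem_product] at hq
      rcases hx with rfl | rfl
      · exact hbd2 _ hq.1.2 _ hq.1.1
      · exact hbd2 _ hq.1.1 _ hq.1.2
  set γ : ℝ := E'.card / (C2 * M + E'.card) with hγ
  have hden : 0 < C2 * M + E'.card := by positivity
  have hγ0 : 0 < γ := by rw [hγ]; positivity
  have hγ1 : γ * E'.card ≤ E'.card := by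
    have : γ ≤ 1 := by
      rw [hγ, div_le_one hden]
      have : 0 < C2 * M := by positivity
      linarith
    exact mul_le_of_le_one_left hE'pos.le this
  have hγ2 : γ * E'.card ≤ (E'.card : ℝ) ^ 2 / (C2 * M) := by
    have e : γ * E'.card = (E'.card : ℝ) ^ 2 / (C2 * M + E'.card) := by rw [hγ]; ring
    rw [e]
    exact div_le_div_of_nonneg_left (by positivity) (by positivity) (by linarith)
  have hδB : C2 * δ ≤ B' * δ := mul_le_mul_of_nonneg_right hB'2 hδ0.le
  have hSpop : ∀ x ∈ S, x.bd B' ∧ γ * (E'.card : ℝ) ≤ pop (B' * δ) E' x := by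
    intro x hx
    refine ⟨hSbd x hx, ?_⟩
    rcases hx with rfl | ⟨q, hq, hx⟩
    · refine hγ1.trans ?_
      exact_mod_cast D18_pop_one (by positivity) E'
    · rw [hP, Finset.mem_filter] at hq
      have hmono : (pop (C2 * δ) E' x : ℝ) ≤ pop (B' * δ) E' x := by
        exact_mod_cast D18_pop_mono hδB E' x
      refine hγ2.trans (le_trans ?_ hmono)
      rcases hx with rfl | rfl
      · exact hq.2.1
      · exact hq.2.2
  -- the ratio M / |E'|
  set a : ℝ := C1 ^ 2 * K ^ (2 * p1 + 1) with ha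
  have ha1 : 1 ≤ a := one_le_mul_of_one_le_of_one_le (one_le_pow₀ hC1) (one_le_pow₀ hK)
  have hMa : M / E'.card ≤ a := by
    rw [div_le_iff₀ hE'pos]
    have h1 : a * (R / (C1 * K ^ (p1 + 1))) ≤ a * E'.card :=
      mul_le_mul_of_nonneg_left hE'low (by linarith)
    refine le_trans (le_of_eq ?_) h1
    rw [hM, ha]
    field_simp
    ring
  have hMa0 : 0 ≤ M / E'.card := by positivity
  have hratio : M / (γ * E'.card) ≤ 2 * C2 * a ^ 2 := by
    have e : M / (γ * E'.card) = C2 * (M / E'.card) ^ 2 + M / E'.card := by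
      rw [hγ]
      field_simp
    rw [e]
    have h1 : (M / E'.card) ^ 2 ≤ a ^ 2 := pow_le_pow_left₀ hMa0 hMa 2
    have h2 : a ≤ a ^ 2 := le_self_pow₀ ha1 (by norm_num)
    have h3 : C2 * (M / E'.card) ^ 2 ≤ C2 * a ^ 2 := mul_le_mul_of_nonneg_left h1 hC2p.le
    have h4 : a ^ 2 ≤ C2 * a ^ 2 := le_mul_of_one_le_left (by positivity) hC2
    linarith
  set KF : ℝ := A * K ^ p with hKF
  have hKF1 : K ≤ KF := by
    have h1 : K ≤ K ^ p := le_self_pow₀ hK (by rw [hp]; omega)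
    exact h1.trans (le_mul_of_one_le_left (by positivity) hA1)
  have hKF0 : 1 ≤ KF := hK.trans hKF1
  have hKFR : KF ≤ R ^ κ := by
    have h1 : A ≤ R ^ (κ / 2) := by
      have h2 : A ^ (2 / κ) ≤ R := (le_max_right _ _).trans hR
      have h3 := Real.rpow_le_rpow (by positivity) h2 (by positivity : (0 : ℝ) ≤ κ / 2)
      rw [← Real.rpow_mul (by linarith)] at h3
      have h4 : 2 / κ * (κ / 2) = 1 := by field_simp
      rwa [h4, Real.rpow_one] at h3
    have h5 : K ^ p ≤ R ^ (κ / 2) := by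
      have h6 := pow_le_pow_left₀ (by linarith) hKR p
      refine h6.trans (le_of_eq ?_)
      rw [← Real.rpow_natCast, ← Real.rpow_mul hRp.le]
      congr 1
      field_simp
    calc KF = A * K ^ p := rfl
      _ ≤ R ^ (κ / 2) * R ^ (κ / 2) := mul_le_mul h1 h5 (by positivity) (by positivity)
      _ = R ^ κ := by rw [← Real.rpow_add hRp]; congr 1; ring
  refine hF R KF μ E' S P ((le_max_left _ _).trans hR) hKF0 hKFR
    (hH'.mono hB0 hB'3 hKp hKF1 hRp) ?_ hS1 hSinv hSbd ?_ (Finset.filter_subset _ _) ?_ ?_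
  · -- size of E'
    refine le_trans ?_ hE'low
    refine div_le_div_of_nonneg_left hRp.le (by positivity) ?_
    have h1 : K ^ (p1 + 1) ≤ K ^ p := pow_le_pow_right₀ hK (by rw [hp]; omega)
    have h2 : C1 ≤ A := by
      rw [hA]
      have : C1 ≤ C1 ^ 2 := le_self_pow₀ hC1 (by norm_num)
      exact this.trans (le_mul_of_one_le_left (by positivity) hC2)
    exact mul_le_mul h2 h1 (by positivity) (by linarith)
  · -- words
    intro l
    have h1 := hW l δ M γ E' S hδ0 hδ1 hM0 hγ0 hE'ne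
      (fun g hg => bd_mono hB0 hB'3 (hH'.bd g hg)) hH'.sep hcnt hSpop
    have hCwl := hCw l
    have hCwl0 : 0 < Cw l := by linarith
    refine h1.mono ?_ ?_ (fun _ h => h)
    · rw [hδ, mul_one_div]
      refine div_le_div₀ (by have := hCf1 l; linarith) ?_ hRp (le_mul_of_one_le_left hRp.le hB)
      exact le_mul_of_one_le_right hCwl0.le
        (one_le_mul_of_one_le_of_one_le hC1 (one_le_pow₀ h2C))
    · have e : Cw l * M ^ (l + 1) / (γ * (E'.card : ℝ)) ^ l = Cw l * (M * (M / (γ * E'.card)) ^ l) := by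
        rw [div_pow, pow_succ]
        ring
      rw [e]
      have h2 : (M / (γ * E'.card)) ^ l ≤ (2 * C2 * a ^ 2) ^ l :=
        pow_le_pow_left₀ (by positivity) hratio l
      calc Cw l * (M * (M / (γ * E'.card)) ^ l) ≤ Cw l * (M * (2 * C2 * a ^ 2) ^ l) :=
            mul_le_mul_of_nonneg_left (mul_le_mul_of_nonneg_left h2 hM0.le) hCwl0.le
        _ = Cf l * K ^ (pf l) * R := by
            rw [hM, ha, hCf, hpf]
            simp only
            have : 2 * C2 * (C1 ^ 2 * K ^ (2 * p1 + 1)) ^ 2 = (2 * C2 * C1 ^ 4) * K ^ (4 * p1 + 2) := by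
              ring
            rw [this, mul_pow, pow_add K p1, mul_comm l (4 * p1 + 2), pow_mul K (4 * p1 + 2) l]
            ring
        _ ≤ Cf l * KF ^ (pf l) * R := by
            have h3 : K ^ (pf l) ≤ KF ^ (pf l) := pow_le_pow_left₀ hKp.le hKF1 _
            have h4 := hCf1 l
            exact mul_le_mul_of_nonneg_right (mul_le_mul_of_nonneg_left h3 (by linarith)) hRp.le
  · intro q hq
    exact Or.inr ⟨q, hq, Or.inl rfl⟩
  · refine le_trans ?_ hPopE'
    have e1 : (E'.card : ℝ) ^ 3 / (C2 * M) = (E'.card : ℝ) ^ 2 / (C2 * (M / E'.card)) := by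
      field_simp
    rw [e1]
    refine div_le_div_of_nonneg_left (by positivity) (by positivity) ?_
    have h1 : C2 * (M / E'.card) ≤ C2 * a := mul_le_mul_of_nonneg_left hMa hC2p.le
    refine h1.trans (le_of_eq ?_)
    rw [hKF, hA, ha]
    ring

end Pool.Agent.Work.MP_1151e3_an
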