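import Pool.Agent.Work.MP_1151e3_an.Basic

set_option autoImplicit false

namespace Pool.Agent.Work.MP_1151e3_an

open MeasureTheory Set Aff
open scoped ENNReal

/-- The main theorem from the Frostman lemma, the selection of the shifts and the density lemma. -/
theorem claimMain (h1 : ClaimFrost) (h2 : ClaimSelect) (h3 : ClaimDens) : ClaimMain := by
  intro n hn
  obtain ⟨N, rfl⟩ : ∃ N, n = N + 1 := ⟨n - 1, by omega⟩
  have hN : 2 ≤ N := by omega
  obtain ⟨ε, hε, hε2, hsel⟩ := h2 N hN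
  refine ⟨ε, hε, ?_⟩
  intro A hA hdim
  have hN' : (2 : ℝ) ≤ N := by exact_mod_cast hN
  have hcast : ((N + 1 : ℕ) : ℝ) = (N : ℝ) + 1 := by push_cast; ring
  rw [hcast] at hdim
  have hs0 : 0 < 2 / ((N : ℝ) + 1) - ε := by linarith
  have hs1 : 2 / ((N : ℝ) + 1) - ε < 1 := by
    have : 2 / ((N : ℝ) + 1) < 1 := by
      rw [div_lt_one (by linarith)]
      linarith
    linarith
  obtain ⟨c, Kc, μ, hK, hK1, hKA, hμ, hμK, C, hC, hfro⟩ := h1 A _ hA hs0 hs1 hdim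
  have hsupp : μ (Icc 0 1)ᶜ = 0 := measure_mono_null (compl_subset_compl.mpr hK1) hμK
  obtain ⟨t, C', η, j0, ht, hη, hdec⟩ := hsel μ C hμ hsupp hC hfro
  obtain ⟨p, q, hpq, hI⟩ := h3 (N + 1) μ Kc t C' η j0 (by omega) hμ hK hK1 hμK ht hη hdec
  refine ⟨fun i => t i - c, p, q, hpq, ?_⟩
  intro x hx
  obtain ⟨a, ha, hxa⟩ := hI hx
  refine ⟨fun i => a i + c, fun i => hKA _ (ha i), ?_⟩
  rw [hxa]
  exact Finset.prod_congr rfl fun i _ => by ring

end Pool.Agent.Work.MP_1151e3_an
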