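import Pool.Agent.Work.MP_1151e3_an.Basic

/-!
# Open intervals in shifted products: counting for maps sending `p0` near `x0` (D15)
-/

set_option autoImplicit false

namespace Pool.Agent.Work.MP_1151e3_an

open MeasureTheory Set Aff

/-- The general count. -/
lemma near_card (h1 : ClaimPack) {B R : ℝ} (hB : 1 ≤ B) (hR : 1 ≤ R) {E : Finset Aff}
    (hsep : Sep (1 / (B * R)) E) {b x len c : ℝ} (hlen : 0 ≤ len) (hb : |b| ≤ 1)
    {F : Finset Aff} (hF : F ⊆ E)
    (h : ∀ g ∈ F, x ≤ g.s ∧ g.s ≤ x + len ∧ |g.s * b + g.t - c| ≤ B / R) :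
    (F.card : ℝ) ≤ (2 * len * B * R + 1) * (5 * B ^ 2) := by
  have hB0 : 0 < B := by linarith
  have hR0 : 0 < R := by linarith
  have := h1 (1 / (B * R)) len (B / R) b x c F (by positivity) hlen (by positivity) hb
    (hsep.subset hF) h
  refine this.trans ?_
  have e1 : 2 * len / (1 / (B * R)) + 1 = 2 * len * B * R + 1 := by field_simp
  have e2 : 4 * (B / R) / (1 / (B * R)) + 1 = 4 * B ^ 2 + 1 := by field_simp
  rw [e1, e2]
  apply mul_le_mul_of_nonneg_left
  · nlinarith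
  · positivity

/-- The shells. -/
def nearW (p0 r1 r2 : ℝ) : Set (ℝ × ℝ) := Metric.closedBall p0 r1 ×ˢ Metric.closedBall p0 r2

lemma near_mem {p0 r1 r2 : ℝ} {p : ℝ × ℝ} (h1 : |p.1 - p0| ≤ r1) (h2 : |p.2 - p0| ≤ r2) :
    p ∈ nearW p0 r1 r2 := by
  constructor
  · rw [Metric.mem_closedBall, Real.dist_eq]; exact h1
  · rw [Metric.mem_closedBall, Real.dist_eq]; exact h2

lemma near_measurable (p0 r1 r2 : ℝ) : MeasurableSet (nearW p0 r1 r2) :=
  measurableSet_closedBall.prod measurableSet_closedBall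

lemma near_measure {μ : Measure ℝ} [IsProbabilityMeasure μ] {K s R : ℝ}
    (hfro : Fro μ K s (1 / R)) {p0 r1 r2 : ℝ} (h1 : 1 / R ≤ r1) (h2 : 1 / R ≤ r2) :
    (μ.prod μ).real (nearW p0 r1 r2) ≤ (K * r1 ^ s) * (K * r2 ^ s) := by
  unfold nearW
  rw [measureReal_prod_prod]
  exact mul_le_mul (hfro _ _ h1) (hfro _ _ h2) measureReal_nonneg
    (le_trans measureReal_nonneg (hfro p0 _ h1))

open Classical in
/-- The pointwise bound. -/
lemma near_pointwise (h1 : ClaimPack) {B R p0 x0 ρ : ℝ} (hB : 1 ≤ B) (hR : 1 ≤ R)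
    {E : Finset Aff} (hbd : ∀ g ∈ E, g.bd B) (hsep : Sep (1 / (B * R)) E) (hρ : 1 / R ≤ ρ)
    (hE : ∀ g ∈ E, |g.act p0 - x0| ≤ ρ) {h : Aff} (hh : h ∈ E) {Q : ℕ} (hQ : 1 < 2 ^ Q * ρ)
    (p : ℝ × ℝ) (hp : |p.2| ≤ 1) :
    ∑ g ∈ E, {p : ℝ × ℝ | |h.act p.1 - g.act p.2| ≤ B / R}.indicator (fun _ => (1 : ℝ)) p ≤
      15 * B ^ 4 * R * (nearW p0 (4 * B ^ 2 * ρ) ρ).indicator (fun _ => (1 : ℝ)) p +
      ∑ q ∈ Finset.range Q, 40 * B ^ 4 * (1 + R * (2 ^ q)⁻¹) *
        (nearW p0 (5 * B ^ 2 * (2 ^ q * ρ)) (2 * (2 ^ q * ρ))).indicator (fun _ => (1 : ℝ)) p +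
      40 * B ^ 4 * (1 + R * ρ) := by
  have hB0 : 0 < B := by linarith
  have hR0 : 0 < R := by linarith
  have hρ0 : 0 < ρ := lt_of_lt_of_le (by positivity) hρ
  obtain ⟨a, b⟩ := p
  simp only at hp
  set F : Finset Aff := E.filter fun g => |h.act a - g.act b| ≤ B / R with hF
  have hFE : F ⊆ E := Finset.filter_subset _ _
  have hsum : ∑ g ∈ E, {p : ℝ × ℝ | |h.act p.1 - g.act p.2| ≤ B / R}.indicator
      (fun _ => (1 : ℝ)) (a, b) = F.card := by
    rw [hF, Finset.card_filter]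
    push_cast
    refine Finset.sum_congr rfl fun g _ => ?_
    simp only [Set.indicator_apply, Set.mem_ofPred_eq]
  rw [hsum]
  have hi0 : ∀ S : Set (ℝ × ℝ), 0 ≤ S.indicator (fun _ => (1 : ℝ)) (a, b) := fun S =>
    Set.indicator_nonneg (fun _ _ => zero_le_one) _
  have hnn : 0 ≤ 15 * B ^ 4 * R * (nearW p0 (4 * B ^ 2 * ρ) ρ).indicator (fun _ => (1 : ℝ)) (a, b) :=
    mul_nonneg (by positivity) (hi0 _)
  have hnn1 : ∀ q ∈ Finset.range Q, 0 ≤ 40 * B ^ 4 * (1 + R * (2 ^ q)⁻¹) *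
        (nearW p0 (5 * B ^ 2 * (2 ^ q * ρ)) (2 * (2 ^ q * ρ))).indicator (fun _ => (1 : ℝ)) (a, b) :=
    fun q _ => mul_nonneg (by positivity) (hi0 _)
  have hnn2 := Finset.sum_nonneg hnn1
  have hnn3 : 0 ≤ 40 * B ^ 4 * (1 + R * ρ) := by positivity
  have hBR : B / R ≤ B * ρ := by
    have : B / R = B * (1 / R) := by ring
    rw [this]; exact mul_le_mul_of_nonneg_left hρ hB0.le
  have hBρ : ρ ≤ B * ρ := by nlinarith
  rcases F.eq_empty_or_nonempty with h0 | ⟨g0, hg0⟩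
  · rw [h0]; simp only [Finset.card_empty, Nat.cast_zero]; positivity
  set β : ℝ := |b - p0| with hβ
  have hg0E := hFE hg0
  have hg01 : |h.act a - g0.act b| ≤ B / R := (Finset.mem_filter.mp hg0).2
  have hap : |a - p0| ≤ B ^ 2 * (β + 3 * ρ) := by
    have e : h.s * (a - p0) = (h.act a - g0.act b) + g0.s * (b - p0) + (g0.act p0 - x0) +
        (x0 - h.act p0) := by simp only [Aff.act]; ring
    have h2 : |h.s * (a - p0)| ≤ B / R + B * β + ρ + ρ := by
      rw [e]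
      have t1 : |g0.s * (b - p0)| ≤ B * β := by
        rw [abs_mul, abs_of_pos g0.pos]
        exact mul_le_mul_of_nonneg_right (hbd g0 hg0E).2.1 (abs_nonneg _)
      have t2 : |x0 - h.act p0| ≤ ρ := by rw [abs_sub_comm]; exact hE h hh
      have t3 := hE g0 hg0E
      have a1 := abs_add_le ((h.act a - g0.act b) + g0.s * (b - p0) + (g0.act p0 - x0))
        (x0 - h.act p0)
      have a2 := abs_add_le ((h.act a - g0.act b) + g0.s * (b - p0)) (g0.act p0 - x0)
      have a3 := abs_add_le (h.act a - g0.act b) (g0.s * (b - p0))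
      linarith
    rw [abs_mul, abs_of_pos h.pos] at h2
    have h3 : B⁻¹ * |a - p0| ≤ h.s * |a - p0| :=
      mul_le_mul_of_nonneg_right (hbd h hh).1 (abs_nonneg _)
    have h4 : B⁻¹ * |a - p0| ≤ B * (β + 3 * ρ) := by nlinarith
    have h5 : |a - p0| = B * (B⁻¹ * |a - p0|) := by field_simp
    rw [h5]
    calc B * (B⁻¹ * |a - p0|) ≤ B * (B * (β + 3 * ρ)) := mul_le_mul_of_nonneg_left h4 hB0.le
      _ = _ := by ring
  have hactF : ∀ g ∈ F, |g.s * b + g.t - h.act a| ≤ B / R := by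
    intro g hg
    have := (Finset.mem_filter.mp hg).2
    rw [abs_sub_comm]; exact this
  by_cases hβρ : β ≤ ρ
  · -- the inner region
    have hc : (F.card : ℝ) ≤ (2 * B * B * R + 1) * (5 * B ^ 2) := by
      refine near_card h1 hB hR hsep (b := b) (x := 0) (len := B) (c := h.act a) hB0.le hp hFE ?_
      intro g hg
      refine ⟨g.pos.le, ?_, hactF g hg⟩
      rw [zero_add]; exact (hbd g (hFE hg)).2.1
    have hmem : (a, b) ∈ nearW p0 (4 * B ^ 2 * ρ) ρ := by
      refine near_mem ?_ hβρ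
      simp only
      refine hap.trans ?_
      nlinarith [sq_nonneg B]
    rw [Set.indicator_of_mem hmem]
    have h3 : (2 * B * B * R + 1) * (5 * B ^ 2) ≤ 15 * B ^ 4 * R * 1 := by
      have : 1 ≤ B ^ 2 * R := by nlinarith
      have : 0 ≤ B ^ 2 := by positivity
      nlinarith
    linarith
  · push Not at hβρ
    have hβ0 : 0 < β := hρ0.trans hβρ
    -- the general count
    have hc : (F.card : ℝ) ≤ 40 * B ^ 4 * (1 + R * (ρ / β)) := by
      have hbp : b - p0 ≠ 0 := by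
        intro h0; rw [hβ, h0, abs_zero] at hβ0; exact lt_irrefl _ hβ0
      have hc1 : (F.card : ℝ) ≤ (2 * (4 * B * (ρ / β)) * B * R + 1) * (5 * B ^ 2) := by
        refine near_card h1 hB hR hsep (b := b) (x := (h.act a - x0) / (b - p0) - 2 * B * (ρ / β))
          (len := 4 * B * (ρ / β)) (c := h.act a) (by positivity) hp hFE ?_
        intro g hg
        have k1 : |g.s * (b - p0) - (h.act a - x0)| ≤ 2 * B * ρ := by
          have e : g.s * (b - p0) - (h.act a - x0) = (g.s * b + g.t - h.act a) +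
              -(g.act p0 - x0) := by simp only [Aff.act]; ring
          rw [e]
          have a1 := abs_add_le (g.s * b + g.t - h.act a) (-(g.act p0 - x0))
          rw [abs_neg] at a1
          have := hactF g hg
          have := hE g (hFE hg)
          linarith
        have k2 : |g.s - (h.act a - x0) / (b - p0)| ≤ 2 * B * (ρ / β) := by
          have e : g.s - (h.act a - x0) / (b - p0) =
              (g.s * (b - p0) - (h.act a - x0)) / (b - p0) := by field_simp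
          rw [e, abs_div, ← hβ, div_le_iff₀ hβ0]
          calc _ ≤ _ := k1
            _ = _ := by field_simp
        rw [abs_le] at k2
        refine ⟨by linarith, by linarith, hactF g hg⟩
      refine hc1.trans ?_
      have : 0 ≤ ρ / β := by positivity
      have hB2 : (1 : ℝ) ≤ B ^ 2 := one_le_pow₀ hB
      have h5 : 5 * B ^ 2 ≤ 40 * B ^ 4 := by nlinarith
      have e : (2 * (4 * B * (ρ / β)) * B * R + 1) * (5 * B ^ 2) =
        40 * B ^ 4 * (R * (ρ / β)) + 5 * B ^ 2 := by ring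
      rw [e]; linarith
    obtain ⟨q, hq1, hq2⟩ := exists_nat_pow_near (x := β / ρ) (y := (2 : ℝ))
      (by rw [le_div_iff₀ hρ0]; linarith) (by norm_num)
    rw [le_div_iff₀ hρ0] at hq1
    rw [div_lt_iff₀ hρ0] at hq2
    by_cases hqQ : q < Q
    · have hmem : (a, b) ∈ nearW p0 (5 * B ^ 2 * (2 ^ q * ρ)) (2 * (2 ^ q * ρ)) := by
        have hle : β ≤ 2 * (2 ^ q * ρ) := by
          rw [pow_succ] at hq2; linarith
        refine near_mem ?_ hle
        simp only
        refine hap.trans ?_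
        have h2q : ρ ≤ 2 ^ q * ρ := by
          have : (1 : ℝ) ≤ 2 ^ q := one_le_pow₀ (by norm_num)
          nlinarith
        have : 0 ≤ B ^ 2 := by positivity
        nlinarith
      have hterm := Finset.single_le_sum hnn1 (Finset.mem_range.mpr hqQ)
      rw [Set.indicator_of_mem hmem] at hterm
      have h6 : ρ / β ≤ (2 ^ q)⁻¹ := by
        rw [div_le_iff₀ hβ0]
        have : (0 : ℝ) < 2 ^ q := by positivity
        rw [inv_mul_eq_div, le_div_iff₀ this]
        linarith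
      have h7 : 40 * B ^ 4 * (1 + R * (ρ / β)) ≤ 40 * B ^ 4 * (1 + R * (2 ^ q)⁻¹) := by
        apply mul_le_mul_of_nonneg_left _ (by positivity)
        have := mul_le_mul_of_nonneg_left h6 hR0.le
        linarith
      linarith
    · push Not at hqQ
      have h8 : (2 : ℝ) ^ Q * ρ ≤ 2 ^ q * ρ := by
        apply mul_le_mul_of_nonneg_right _ hρ0.le
        exact pow_le_pow_right₀ (by norm_num) hqQ
      have hβ1 : 1 ≤ β := by linarith
      have h6 : ρ / β ≤ ρ := div_le_self hρ0.le hβ1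
      have h7 : 40 * B ^ 4 * (1 + R * (ρ / β)) ≤ 40 * B ^ 4 * (1 + R * ρ) := by
        apply mul_le_mul_of_nonneg_left _ (by positivity)
        have := mul_le_mul_of_nonneg_left h6 hR0.le
        linarith
      linarith

lemma near_geom1 {s ρ : ℝ} (hs : 0 < s) (hρ : 0 < ρ) (Q : ℕ) :
    ∑ q ∈ Finset.range Q, ((2 : ℝ) ^ q * ρ) ^ (2 * s) ≤
      (2 ^ Q * ρ) ^ (2 * s) / ((2 : ℝ) ^ (2 * s) - 1) := by
  have h2 : (1 : ℝ) < 2 ^ (2 * s) := Real.one_lt_rpow (by norm_num) (by linarith)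
  have h3 : (0 : ℝ) < 2 ^ (2 * s) - 1 := by linarith
  induction Q with
  | zero => simp only [Finset.range_zero, Finset.sum_empty]; positivity
  | succ n ih =>
    rw [Finset.sum_range_succ]
    have e : ((2 : ℝ) ^ (n + 1) * ρ) ^ (2 * s) = 2 ^ (2 * s) * (2 ^ n * ρ) ^ (2 * s) := by
      rw [← Real.mul_rpow (by norm_num) (by positivity)]
      congr 1; ring
    rw [e]
    have e2 : 2 ^ (2 * s) * (2 ^ n * ρ) ^ (2 * s) / ((2 : ℝ) ^ (2 * s) - 1) =
        (2 ^ n * ρ) ^ (2 * s) / ((2 : ℝ) ^ (2 * s) - 1) + (2 ^ n * ρ) ^ (2 * s) := by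
      field_simp; ring
    rw [e2]; linarith

lemma near_geom2 {r : ℝ} (h0 : 0 ≤ r) (h1 : r < 1) (Q : ℕ) :
    ∑ q ∈ Finset.range Q, r ^ q ≤ 1 / (1 - r) := by
  have := (summable_geometric_of_lt_one h0 h1).sum_le_tsum (Finset.range Q)
    (fun i _ => pow_nonneg h0 i)
  rw [tsum_geometric_of_lt_one h0 h1] at this
  rwa [one_div]

theorem claimNear (h1 : ClaimPack) : ClaimNear := by
  intro s B hs0 hs1 hB
  have hB0 : 0 < B := by linarith
  -- the exponent
  set e1 : ℝ := min (2 * s) ((1 + s) / 2) with he1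
  have he_s : s < e1 := lt_min (by linarith) (by linarith)
  have he_1 : e1 < 1 := lt_of_le_of_lt (min_le_right _ _) (by linarith)
  have he_2s : e1 ≤ 2 * s := min_le_left _ _
  have he0 : 0 < e1 := hs0.trans he_s
  set G1 : ℝ := 4 / ((2 : ℝ) ^ (2 * s) - 1) with hG1
  set G2 : ℝ := 1 / (1 - (2 : ℝ) ^ (e1 - 1)) with hG2
  have h2s : (1 : ℝ) < 2 ^ (2 * s) := Real.one_lt_rpow (by norm_num) (by linarith)
  have h2s' : (0 : ℝ) < 2 ^ (2 * s) - 1 := by linarith
  have h2e : (2 : ℝ) ^ (e1 - 1) < 1 := Real.rpow_lt_one_of_one_lt_of_neg (by norm_num) (by linarith)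
  have h2e' : (0 : ℝ) < 1 - 2 ^ (e1 - 1) := by linarith
  have hG10 : 0 ≤ G1 := by positivity
  have hG20 : 0 ≤ G2 := by positivity
  have hB4 : (1 : ℝ) ≤ B ^ 4 := one_le_pow₀ hB
  have hB6 : (1 : ℝ) ≤ B ^ 6 := one_le_pow₀ hB
  refine ⟨60 * B ^ 6 + 400 * B ^ 6 * (G1 + G2) + 40 * B ^ 4, e1, 3, ?_, he_s, ?_⟩
  · have : 0 ≤ 400 * B ^ 6 * (G1 + G2) := by positivity
    linarith
  intro K R p0 x0 ρ μ E hK hR hH hρ hρ1 hE
  have hR0 : 0 < R := by linarith
  have hK0 : 0 < K := by linarith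
  have hρ0 : 0 < ρ := lt_of_lt_of_le (by positivity) hρ
  have := hH.prob
  -- the number of shells
  obtain ⟨Q, hQ1, hQ2, hQ3⟩ : ∃ Q : ℕ, 1 < 2 ^ Q * ρ ∧ (∀ q < Q, (2 : ℝ) ^ q * ρ ≤ 1) ∧
      (2 : ℝ) ^ Q * ρ ≤ 2 := by
    have hex : ∃ Q : ℕ, 1 < (2 : ℝ) ^ Q * ρ := by
      obtain ⟨n, hn⟩ := pow_unbounded_of_one_lt (1 / ρ) (one_lt_two (α := ℝ))
      refine ⟨n, ?_⟩
      rw [div_lt_iff₀ hρ0] at hn
      exact hn
    classical
    refine ⟨Nat.find hex, Nat.find_spec hex, fun q hq => not_lt.mp (Nat.find_min hex hq), ?_⟩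
    rcases Nat.eq_zero_or_pos (Nat.find hex) with h0 | h0
    · rw [h0]; linarith
    · have := not_lt.mp (Nat.find_min hex (Nat.sub_lt h0 one_pos))
      have e : Nat.find hex = (Nat.find hex - 1) + 1 := by omega
      rw [e, pow_succ]; linarith
  set T : ℝ := (60 * B ^ 6 + 400 * B ^ 6 * (G1 + G2) + 40 * B ^ 4) * K ^ 2 * (1 + R * ρ ^ e1) with hT
  -- a bound for each row
  have hrow : ∀ h ∈ E, ∑ g ∈ E, mm μ (B / R) h g ≤ T := by
    intro h hh
    set ν := μ.prod μ with hν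
    have hint : ∀ S : Set (ℝ × ℝ), MeasurableSet S →
        Integrable (S.indicator fun _ => (1 : ℝ)) ν := fun S hS =>
      (integrable_const (1 : ℝ)).indicator hS
    have hintv : ∀ S : Set (ℝ × ℝ), MeasurableSet S →
        ∫ p, S.indicator (fun _ => (1 : ℝ)) p ∂ν = ν.real S := fun S hS => by
      rw [integral_indicator hS]; simp
    have e0 : ∑ g ∈ E, mm μ (B / R) h g = ∫ p, ∑ g ∈ E,
        {p : ℝ × ℝ | |h.act p.1 - g.act p.2| ≤ B / R}.indicator (fun _ => (1 : ℝ)) p ∂ν := by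
      rw [integral_finsetSum]
      · refine Finset.sum_congr rfl fun g _ => ?_
        rw [hintv _ (measurableSet_mm _ _ _)]; rfl
      · intro g _
        exact hint _ (measurableSet_mm _ _ _)
    have hae : ∀ᵐ p ∂ν, |p.2| ≤ 1 := by
      have h0 : ∀ᵐ x ∂μ, |x| ≤ 1 := by
        have : ∀ᵐ x ∂μ, x ∈ Icc (0 : ℝ) 1 := hH.supp
        filter_upwards [this] with x hx
        rw [abs_of_nonneg hx.1]; exact hx.2
      exact Measure.quasiMeasurePreserving_snd.ae h0
    have hI1 : Integrable (fun p => 15 * B ^ 4 * R *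
        (nearW p0 (4 * B ^ 2 * ρ) ρ).indicator (fun _ => (1 : ℝ)) p) ν :=
      (hint _ (near_measurable _ _ _)).const_mul _
    have hI2 : ∀ q ∈ Finset.range Q, Integrable (fun p => 40 * B ^ 4 * (1 + R * (2 ^ q)⁻¹) *
        (nearW p0 (5 * B ^ 2 * (2 ^ q * ρ)) (2 * (2 ^ q * ρ))).indicator (fun _ => (1 : ℝ)) p) ν :=
      fun q _ => (hint _ (near_measurable _ _ _)).const_mul _
    have hI3 : Integrable (fun _ : ℝ × ℝ => 40 * B ^ 4 * (1 + R * ρ)) ν := integrable_const _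
    have hle : ∑ g ∈ E, mm μ (B / R) h g ≤
        15 * B ^ 4 * R * ν.real (nearW p0 (4 * B ^ 2 * ρ) ρ) +
        ∑ q ∈ Finset.range Q, 40 * B ^ 4 * (1 + R * (2 ^ q)⁻¹) *
          ν.real (nearW p0 (5 * B ^ 2 * (2 ^ q * ρ)) (2 * (2 ^ q * ρ))) +
        40 * B ^ 4 * (1 + R * ρ) := by
      rw [e0]
      refine (integral_mono_ae (g := fun p => 15 * B ^ 4 * R *
        (nearW p0 (4 * B ^ 2 * ρ) ρ).indicator (fun _ => (1 : ℝ)) p +
        ∑ q ∈ Finset.range Q, 40 * B ^ 4 * (1 + R * (2 ^ q)⁻¹) *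
        (nearW p0 (5 * B ^ 2 * (2 ^ q * ρ)) (2 * (2 ^ q * ρ))).indicator (fun _ => (1 : ℝ)) p +
        40 * B ^ 4 * (1 + R * ρ)) ?_ ?_ ?_).trans ?_
      · exact integrable_finsetSum _ fun g _ => hint _ (measurableSet_mm _ _ _)
      · exact (hI1.add (integrable_finsetSum _ hI2)).add hI3
      · filter_upwards [hae] with p hp
        exact near_pointwise h1 hB hR hH.bd hH.sep hρ hE hh hQ1 p hp
      · have hI12 : Integrable (fun p => 15 * B ^ 4 * R *
            (nearW p0 (4 * B ^ 2 * ρ) ρ).indicator (fun _ => (1 : ℝ)) p +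
            ∑ q ∈ Finset.range Q, 40 * B ^ 4 * (1 + R * (2 ^ q)⁻¹) *
            (nearW p0 (5 * B ^ 2 * (2 ^ q * ρ)) (2 * (2 ^ q * ρ))).indicator
              (fun _ => (1 : ℝ)) p) ν := hI1.add (integrable_finsetSum _ hI2)
        rw [integral_add hI12 hI3,
          integral_add hI1 (integrable_finsetSum _ hI2), integral_finsetSum _ hI2,
          integral_const_mul, hintv _ (near_measurable _ _ _)]
        simp only [integral_const_mul, hintv _ (near_measurable _ _ _)]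
        simp
    refine hle.trans ?_
    -- numerical estimates
    have hB2 : (1 : ℝ) ≤ B ^ 2 := one_le_pow₀ hB
    have hm : ∀ c u : ℝ, 1 ≤ c → 0 < u → (c * u) ^ s ≤ c * u ^ s := by
      intro c u hc hu
      rw [Real.mul_rpow (by linarith) hu.le]
      apply mul_le_mul_of_nonneg_right _ (Real.rpow_nonneg hu.le _)
      calc c ^ s ≤ c ^ (1 : ℝ) := Real.rpow_le_rpow_of_exponent_le hc hs1.le
        _ = c := Real.rpow_one c
    have hss : ∀ u : ℝ, 0 < u → u ^ s * u ^ s = u ^ (2 * s) := by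
      intro u hu; rw [← Real.rpow_add hu]; congr 1; ring
    have hT1 : 15 * B ^ 4 * R * ν.real (nearW p0 (4 * B ^ 2 * ρ) ρ) ≤
        60 * B ^ 6 * K ^ 2 * (R * ρ ^ e1) := by
      have m1 : ν.real (nearW p0 (4 * B ^ 2 * ρ) ρ) ≤ (K * (4 * B ^ 2 * ρ) ^ s) * (K * ρ ^ s) :=
        near_measure hH.fro (hρ.trans (by nlinarith)) hρ
      have m2 : (K * (4 * B ^ 2 * ρ) ^ s) * (K * ρ ^ s) ≤ 4 * B ^ 2 * K ^ 2 * ρ ^ e1 := by
        have m3 := hm (4 * B ^ 2) ρ (by linarith) hρ0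
        have m4 : ρ ^ (2 * s) ≤ ρ ^ e1 := Real.rpow_le_rpow_of_exponent_ge hρ0 hρ1 he_2s
        calc (K * (4 * B ^ 2 * ρ) ^ s) * (K * ρ ^ s) ≤ (K * (4 * B ^ 2 * ρ ^ s)) * (K * ρ ^ s) := by
              apply mul_le_mul_of_nonneg_right _ (by positivity)
              exact mul_le_mul_of_nonneg_left m3 hK0.le
          _ = 4 * B ^ 2 * K ^ 2 * (ρ ^ s * ρ ^ s) := by ring
          _ = 4 * B ^ 2 * K ^ 2 * ρ ^ (2 * s) := by rw [hss ρ hρ0]
          _ ≤ _ := by
              apply mul_le_mul_of_nonneg_left m4 (by positivity)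
      calc 15 * B ^ 4 * R * ν.real (nearW p0 (4 * B ^ 2 * ρ) ρ)
          ≤ 15 * B ^ 4 * R * (4 * B ^ 2 * K ^ 2 * ρ ^ e1) :=
            mul_le_mul_of_nonneg_left (m1.trans m2) (by positivity)
        _ = _ := by ring
    have hT2 : ∑ q ∈ Finset.range Q, 40 * B ^ 4 * (1 + R * (2 ^ q)⁻¹) *
          ν.real (nearW p0 (5 * B ^ 2 * (2 ^ q * ρ)) (2 * (2 ^ q * ρ))) ≤
        400 * B ^ 6 * K ^ 2 * (G1 + G2 * (R * ρ ^ e1)) := by
      have hterm : ∀ q ∈ Finset.range Q, 40 * B ^ 4 * (1 + R * (2 ^ q)⁻¹) *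
          ν.real (nearW p0 (5 * B ^ 2 * (2 ^ q * ρ)) (2 * (2 ^ q * ρ))) ≤
          400 * B ^ 6 * K ^ 2 * ((2 ^ q * ρ) ^ (2 * s) +
            R * ρ ^ e1 * ((2 : ℝ) ^ (e1 - 1)) ^ q) := by
        intro q hq
        have hq1 := hQ2 q (Finset.mem_range.mp hq)
        have h2q : (1 : ℝ) ≤ 2 ^ q := one_le_pow₀ (by norm_num)
        set u : ℝ := 2 ^ q * ρ with hu
        have hu0 : 0 < u := by positivity
        have huρ : ρ ≤ u := by rw [hu]; nlinarith
        have m1 : ν.real (nearW p0 (5 * B ^ 2 * u) (2 * u)) ≤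
            (K * (5 * B ^ 2 * u) ^ s) * (K * (2 * u) ^ s) :=
          near_measure hH.fro ((hρ.trans huρ).trans (by nlinarith))
            ((hρ.trans huρ).trans (by linarith))
        have m2 : (K * (5 * B ^ 2 * u) ^ s) * (K * (2 * u) ^ s) ≤ 10 * B ^ 2 * K ^ 2 * u ^ (2 * s) := by
          have m3 := hm (5 * B ^ 2) u (by linarith) hu0
          have m4 := hm 2 u (by norm_num) hu0
          calc (K * (5 * B ^ 2 * u) ^ s) * (K * (2 * u) ^ s)
              ≤ (K * (5 * B ^ 2 * u ^ s)) * (K * (2 * u ^ s)) := by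
                apply mul_le_mul
                · exact mul_le_mul_of_nonneg_left m3 hK0.le
                · exact mul_le_mul_of_nonneg_left m4 hK0.le
                · positivity
                · positivity
            _ = 10 * B ^ 2 * K ^ 2 * (u ^ s * u ^ s) := by ring
            _ = _ := by rw [hss u hu0]
        have m5 : (2 ^ q : ℝ)⁻¹ * u ^ (2 * s) ≤ ρ ^ e1 * ((2 : ℝ) ^ (e1 - 1)) ^ q := by
          have m6 : u ^ (2 * s) ≤ u ^ e1 := Real.rpow_le_rpow_of_exponent_ge hu0 hq1 he_2s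
          have m7 : u ^ e1 = ((2 : ℝ) ^ e1) ^ q * ρ ^ e1 := by
            rw [hu, Real.mul_rpow (by positivity) hρ0.le]
            congr 1
            rw [← Real.rpow_natCast, ← Real.rpow_natCast, ← Real.rpow_mul (by norm_num),
              ← Real.rpow_mul (by norm_num), mul_comm]
          have m8 : ((2 : ℝ) ^ (e1 - 1)) ^ q = (2 ^ q : ℝ)⁻¹ * ((2 : ℝ) ^ e1) ^ q := by
            rw [Real.rpow_sub (by norm_num), Real.rpow_one, div_pow]
            field_simp
          calc (2 ^ q : ℝ)⁻¹ * u ^ (2 * s) ≤ (2 ^ q : ℝ)⁻¹ * u ^ e1 :=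
                mul_le_mul_of_nonneg_left m6 (by positivity)
            _ = _ := by rw [m7, m8]; ring
        calc 40 * B ^ 4 * (1 + R * (2 ^ q)⁻¹) * ν.real (nearW p0 (5 * B ^ 2 * u) (2 * u))
            ≤ 40 * B ^ 4 * (1 + R * (2 ^ q)⁻¹) * (10 * B ^ 2 * K ^ 2 * u ^ (2 * s)) :=
              mul_le_mul_of_nonneg_left (m1.trans m2) (by positivity)
          _ = 400 * B ^ 6 * K ^ 2 * (u ^ (2 * s) + R * ((2 ^ q : ℝ)⁻¹ * u ^ (2 * s))) := by ring
          _ ≤ 400 * B ^ 6 * K ^ 2 * (u ^ (2 * s) + R * (ρ ^ e1 * ((2 : ℝ) ^ (e1 - 1)) ^ q)) := by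
              apply mul_le_mul_of_nonneg_left _ (by positivity)
              have := mul_le_mul_of_nonneg_left m5 hR0.le
              linarith
          _ = _ := by ring
      refine (Finset.sum_le_sum hterm).trans ?_
      rw [← Finset.mul_sum, Finset.sum_add_distrib, ← Finset.mul_sum]
      apply mul_le_mul_of_nonneg_left _ (by positivity)
      have g1 : ∑ q ∈ Finset.range Q, ((2 : ℝ) ^ q * ρ) ^ (2 * s) ≤ G1 := by
        refine (near_geom1 hs0 hρ0 Q).trans ?_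
        rw [hG1]
        apply div_le_div_of_nonneg_right _ h2s'.le
        calc ((2 : ℝ) ^ Q * ρ) ^ (2 * s) ≤ 2 ^ (2 * s) :=
              Real.rpow_le_rpow (by positivity) hQ3 (by linarith)
          _ ≤ (2 : ℝ) ^ (2 : ℝ) := Real.rpow_le_rpow_of_exponent_le (by norm_num) (by linarith)
          _ = 4 := by norm_num
      have g2 := near_geom2 (r := (2 : ℝ) ^ (e1 - 1)) (by positivity) h2e Q
      have g3 : R * ρ ^ e1 * ∑ q ∈ Finset.range Q, ((2 : ℝ) ^ (e1 - 1)) ^ q ≤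
          R * ρ ^ e1 * G2 := mul_le_mul_of_nonneg_left g2 (by positivity)
      linarith
    have hT3 : 40 * B ^ 4 * (1 + R * ρ) ≤ 40 * B ^ 4 * K ^ 2 * (1 + R * ρ ^ e1) := by
      have hK2 : (1 : ℝ) ≤ K ^ 2 := one_le_pow₀ hK
      have h5 : ρ ≤ ρ ^ e1 := by
        calc ρ = ρ ^ (1 : ℝ) := (Real.rpow_one ρ).symm
          _ ≤ ρ ^ e1 := Real.rpow_le_rpow_of_exponent_ge hρ0 hρ1 he_1.le
      have h6 : 1 + R * ρ ≤ 1 + R * ρ ^ e1 := by
        have := mul_le_mul_of_nonneg_left h5 hR0.le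
        linarith
      have h7 : 0 ≤ 1 + R * ρ ^ e1 := by positivity
      calc 40 * B ^ 4 * (1 + R * ρ) ≤ 40 * B ^ 4 * (1 + R * ρ ^ e1) :=
            mul_le_mul_of_nonneg_left h6 (by positivity)
        _ = 40 * B ^ 4 * 1 * (1 + R * ρ ^ e1) := by ring
        _ ≤ _ := by
            apply mul_le_mul_of_nonneg_right _ h7
            exact mul_le_mul_of_nonneg_left hK2 (by positivity)
    have hX : 0 ≤ R * ρ ^ e1 := by positivity
    have hA : 0 ≤ B ^ 6 * K ^ 2 := by positivity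
    have hfin : T = (60 * B ^ 6 * K ^ 2 + 60 * B ^ 6 * K ^ 2 * (R * ρ ^ e1)) +
        400 * B ^ 6 * K ^ 2 * (G1 + G2 + (G1 + G2) * (R * ρ ^ e1)) +
        40 * B ^ 4 * K ^ 2 * (1 + R * ρ ^ e1) := by rw [hT]; ring
    rw [hfin]
    have hk : 400 * B ^ 6 * K ^ 2 * (G1 + G2 * (R * ρ ^ e1)) ≤
        400 * B ^ 6 * K ^ 2 * (G1 + G2 + (G1 + G2) * (R * ρ ^ e1)) := by
      apply mul_le_mul_of_nonneg_left _ (by positivity)
      have := mul_nonneg hG10 hX
      nlinarith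
    have : 0 ≤ 60 * B ^ 6 * K ^ 2 := by positivity
    linarith
  -- conclusion
  rcases E.eq_empty_or_nonempty with h0 | hne
  · rw [h0]
    simp only [Finset.card_empty, Nat.cast_zero, zero_mul]
    have : 0 ≤ 60 * B ^ 6 + 400 * B ^ 6 * (G1 + G2) + 40 * B ^ 4 := by positivity
    have : 0 ≤ 1 + R * ρ ^ e1 := by positivity
    positivity
  have hcard : 0 < (E.card : ℝ) := by exact_mod_cast hne.card_pos
  have hher := hH.her E subset_rfl
  have hsum : ∑ g ∈ E, ∑ h ∈ E, mm μ (B / R) g h ≤ E.card * T := by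
    calc _ ≤ ∑ g ∈ E, T := Finset.sum_le_sum hrow
      _ = _ := by rw [Finset.sum_const, nsmul_eq_mul]
  have h9 := hher.trans hsum
  have h10 : R ^ (-s) / K * (E.card : ℝ) ≤ T := by
    have : (E.card : ℝ) * (R ^ (-s) / K * (E.card : ℝ)) ≤ E.card * T := by
      calc _ = R ^ (-s) / K * (E.card : ℝ) ^ 2 := by ring
        _ ≤ _ := h9
    exact le_of_mul_le_mul_left this hcard
  have h11 : (E.card : ℝ) * R ^ (-s) = K * (R ^ (-s) / K * (E.card : ℝ)) := by
    field_simp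
  rw [h11]
  calc K * (R ^ (-s) / K * (E.card : ℝ)) ≤ K * T := mul_le_mul_of_nonneg_left h10 hK0.le
    _ = _ := by rw [hT]; ring

end Pool.Agent.Work.MP_1151e3_an
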