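import Pool.Agent.Work.MP_1151e3_an.Basic

/-!
# Open intervals in shifted products: packing in a strip (D1)
-/

set_option autoImplicit false

namespace Pool.Agent.Work.MP_1151e3_an

open MeasureTheory Set Aff

lemma pack_floor_lt {u v d : ℝ} (hd : 0 < d) (hu : 0 ≤ u) (hv : 0 ≤ v)
    (h : ⌊u / d⌋₊ = ⌊v / d⌋₊) : |u - v| < d := by
  have h1 := Nat.floor_le (div_nonneg hu hd.le)
  have h2 := Nat.lt_floor_add_one (u / d)
  have h3 := Nat.floor_le (div_nonneg hv hd.le)
  have h4 := Nat.lt_floor_add_one (v / d)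
  rw [h] at h1 h2
  have h5 : |u / d - v / d| < 1 := by
    rw [abs_lt]; constructor <;> linarith
  rw [← sub_div, abs_div, abs_of_pos hd, div_lt_one hd] at h5
  exact h5

theorem claimPack : ClaimPack := by
  intro δ a e b x c E hδ ha he hb hsep hE
  classical
  have hd : 0 < δ / 2 := by positivity
  let f : Aff → ℕ × ℕ := fun g =>
    (⌊(g.s - x) / (δ / 2)⌋₊, ⌊(g.s * b + g.t - (c - e)) / (δ / 2)⌋₊)
  let T : Finset (ℕ × ℕ) := Finset.range (⌊2 * a / δ⌋₊ + 1) ×ˢ Finset.range (⌊4 * e / δ⌋₊ + 1)
  have hnn1 : ∀ g ∈ E, 0 ≤ g.s - x := fun g hg => by linarith [(hE g hg).1]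
  have hnn2 : ∀ g ∈ E, 0 ≤ g.s * b + g.t - (c - e) := fun g hg => by
    have := (abs_le.mp (hE g hg).2.2).1
    linarith
  have hmap : ∀ g ∈ E, f g ∈ T := by
    intro g hg
    obtain ⟨h1, h2, h3⟩ := hE g hg
    have h4 := (abs_le.mp h3).2
    simp only [f, T, Finset.mem_product, Finset.mem_range, Nat.lt_succ_iff]
    constructor
    · apply Nat.floor_le_floor
      rw [div_le_div_iff₀ hd hδ]
      nlinarith
    · apply Nat.floor_le_floor
      rw [div_le_div_iff₀ hd hδ]
      nlinarith
  have hinj : Set.InjOn f (E : Set Aff) := by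
    intro g hg h hh hgh
    by_contra hne
    have hs := hsep g hg h hh hne
    simp only [f, Prod.mk.injEq] at hgh
    have h1 := pack_floor_lt hd (hnn1 g hg) (hnn1 h hh) hgh.1
    have h2 := pack_floor_lt hd (hnn2 g hg) (hnn2 h hh) hgh.2
    have h3 : |g.s - h.s| < δ / 2 := by
      have e1 : g.s - x - (h.s - x) = g.s - h.s := by ring
      rwa [e1] at h1
    have h4 : |g.t - h.t| < δ := by
      have e2 : g.t - h.t = (g.s * b + g.t - (c - e) - (h.s * b + h.t - (c - e))) -
        b * (g.s - h.s) := by ring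
      rw [e2]
      have h5 : |b * (g.s - h.s)| ≤ |g.s - h.s| := by
        rw [abs_mul]
        exact mul_le_of_le_one_left (abs_nonneg _) hb
      calc |(g.s * b + g.t - (c - e) - (h.s * b + h.t - (c - e))) - b * (g.s - h.s)| ≤
          |g.s * b + g.t - (c - e) - (h.s * b + h.t - (c - e))| + |b * (g.s - h.s)| := abs_sub _ _
        _ < δ := by linarith
    have h6 : g.ad h < δ := max_lt (by linarith) h4
    linarith
  have hcard : E.card ≤ T.card := Finset.card_le_card_of_injOn f hmap hinj
  have hT : (T.card : ℝ) ≤ (2 * a / δ + 1) * (4 * e / δ + 1) := by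
    simp only [T, Finset.card_product, Finset.card_range]
    push_cast
    have h1 := Nat.floor_le (show 0 ≤ 2 * a / δ by positivity)
    have h2 := Nat.floor_le (show 0 ≤ 4 * e / δ by positivity)
    exact mul_le_mul (by linarith) (by linarith) (by positivity) (by positivity)
  exact le_trans (by exact_mod_cast hcard) hT

end Pool.Agent.Work.MP_1151e3_an
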