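import Pool.Agent.Work.MP_1151e3_an.Basic

/-!
# D5: paths of length four in a dense graph
-/

set_option autoImplicit false

namespace Pool.Agent.Work.MP_1151e3_an

open Classical in
/-- D5. Paths of length four in a dense graph. -/
theorem claimPaths : ClaimPaths := by
  intro V E Γ α hsym hα hα1 hdense
  rcases E.eq_empty_or_nonempty with hE | hE
  · subst hE
    refine ⟨∅, Finset.Subset.refl _, by simp, ?_⟩
    intro x hx
    simp at hx
  set n : ℝ := (E.card : ℝ) with hn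
  have hn0 : 0 < n := by rw [hn]; exact_mod_cast hE.card_pos
  -- indicators
  set c : V → V → ℝ := fun x y => if Γ x y then 1 else 0 with hc
  have c01 : ∀ x y, c x y = 0 ∨ c x y = 1 := by
    intro x y; simp only [hc]; split_ifs <;> simp
  have c0 : ∀ x y, 0 ≤ c x y := by
    intro x y; rcases c01 x y with h | h <;> rw [h] <;> norm_num
  have csym : ∀ x y, c x y = c y x := by
    intro x y
    simp only [hc]
    by_cases h : Γ x y
    · rw [if_pos h, if_pos (hsym x y h)]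
    · rw [if_neg h, if_neg (fun h' => h (hsym y x h'))]
  set N : V → Finset V := fun y => E.filter (fun x => Γ x y) with hN
  have Nc : ∀ y, ((N y).card : ℝ) = ∑ x ∈ E, c x y := by
    intro y
    simp only [hN, hc, Finset.card_filter]
    push_cast
    rfl
  have hsumN : ∑ y ∈ E, ((N y).card : ℝ) =
      (((E ×ˢ E).filter fun p => Γ p.1 p.2).card : ℝ) := by
    rw [Finset.card_filter]
    push_cast
    rw [Finset.sum_product, Finset.sum_comm]
    refine Finset.sum_congr rfl fun y _ => ?_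
    rw [Nc y]
  have hcs : α ^ 2 * n ^ 3 ≤ ∑ y ∈ E, ((N y).card : ℝ) ^ 2 := by
    have h1 := sq_sum_le_card_mul_sum_sq (s := E) (f := fun y => ((N y).card : ℝ))
    have h2 : α * n ^ 2 ≤ ∑ y ∈ E, ((N y).card : ℝ) := by rw [hsumN]; exact hdense
    have h3 : (α * n ^ 2) ^ 2 ≤ (∑ y ∈ E, ((N y).card : ℝ)) ^ 2 :=
      pow_le_pow_left₀ (by positivity) h2 2
    have h4 : (α * n ^ 2) ^ 2 ≤ n * ∑ y ∈ E, ((N y).card : ℝ) ^ 2 := h3.trans h1
    have h5 : n * (α ^ 2 * n ^ 3) ≤ n * ∑ y ∈ E, ((N y).card : ℝ) ^ 2 := by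
      calc n * (α ^ 2 * n ^ 3) = (α * n ^ 2) ^ 2 := by ring
        _ ≤ _ := h4
    exact le_of_mul_le_mul_left h5 hn0
  -- common neighbours
  set cn : V → V → ℝ := fun x z => ∑ y ∈ E, c x y * c z y with hcn
  have cn0 : ∀ x z, 0 ≤ cn x z := fun x z =>
    Finset.sum_nonneg fun y _ => mul_nonneg (c0 _ _) (c0 _ _)
  set θ : ℝ := α ^ 2 / 32 with hθ
  set b : V → V → ℝ := fun x z => if cn x z < θ * n then 1 else 0 with hb
  have b0 : ∀ x z, 0 ≤ b x z := by
    intro x z; simp only [hb]; split_ifs <;> norm_num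
  set bad : V → ℝ := fun y => ∑ x ∈ E, ∑ z ∈ E, c x y * c z y * b x z with hbad
  have hbsum : ∑ y ∈ E, bad y ≤ θ * n ^ 3 := by
    have e : ∑ y ∈ E, bad y = ∑ x ∈ E, ∑ z ∈ E, b x z * cn x z := by
      simp only [hbad]
      rw [Finset.sum_comm]
      refine Finset.sum_congr rfl fun x _ => ?_
      rw [Finset.sum_comm]
      refine Finset.sum_congr rfl fun z _ => ?_
      simp only [hcn, Finset.mul_sum]
      refine Finset.sum_congr rfl fun y _ => ?_
      ring
    rw [e]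
    have h1 : ∀ x ∈ E, ∑ z ∈ E, b x z * cn x z ≤ n * (θ * n) := by
      intro x _
      have : ∀ z ∈ E, b x z * cn x z ≤ θ * n := by
        intro z _
        simp only [hb]
        split_ifs with h
        · linarith
        · have : 0 ≤ θ * n := by positivity
          linarith
      calc ∑ z ∈ E, b x z * cn x z ≤ ∑ _z ∈ E, θ * n := Finset.sum_le_sum this
        _ = n * (θ * n) := by rw [Finset.sum_const, nsmul_eq_mul]
    calc ∑ x ∈ E, ∑ z ∈ E, b x z * cn x z ≤ ∑ _x ∈ E, n * (θ * n) := Finset.sum_le_sum h1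
      _ = n * (n * (θ * n)) := by rw [Finset.sum_const, nsmul_eq_mul]
      _ = θ * n ^ 3 := by ring
  obtain ⟨y, hyE, hy⟩ : ∃ y ∈ E, 3 / 4 * α ^ 2 * n ^ 2 ≤ ((N y).card : ℝ) ^ 2 - 8 * bad y := by
    apply Finset.exists_le_of_sum_le hE
    rw [Finset.sum_const, nsmul_eq_mul, Finset.sum_sub_distrib, ← Finset.mul_sum]
    have : n * (3 / 4 * α ^ 2 * n ^ 2) = 3 / 4 * α ^ 2 * n ^ 3 := by ring
    rw [← hn, this]
    have : θ * n ^ 3 = α ^ 2 * n ^ 3 / 32 := by rw [hθ]; ring
    linarith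
  set A := N y with hA
  set a : ℝ := (A.card : ℝ) with ha
  have ha0 : 0 ≤ a := by positivity
  have hbadA : bad y = ∑ x ∈ A, ∑ z ∈ A, b x z := by
    simp only [hbad, hA, hN, Finset.sum_filter]
    refine Finset.sum_congr rfl fun x _ => ?_
    by_cases hx : Γ x y
    · rw [if_pos hx]
      refine Finset.sum_congr rfl fun z _ => ?_
      by_cases hz : Γ z y
      · simp [hc, hx, hz]
      · simp [hc, hx, hz]
    · rw [if_neg hx]
      apply Finset.sum_eq_zero
      intro z _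
      simp [hc, hx]
  have hbad0 : 0 ≤ bad y := by
    rw [hbadA]
    exact Finset.sum_nonneg fun x _ => Finset.sum_nonneg fun z _ => b0 x z
  have hage : 4 / 5 * (α * n) ≤ a := by
    have h1 : (4 / 5 * (α * n)) ^ 2 ≤ a ^ 2 := by nlinarith [mul_pos hα hn0]
    exact le_of_sq_le_sq h1 ha0
  have hapos : 0 < a := lt_of_lt_of_le (by positivity) hage
  have hbA : bad y ≤ a ^ 2 / 8 := by nlinarith [mul_pos hα hn0]
  set E' := A.filter (fun x => ∑ z ∈ A, b x z ≤ 3 / 8 * a) with hE'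
  have hAE : A ⊆ E := Finset.filter_subset _ _
  have hE'A : E' ⊆ A := Finset.filter_subset _ _
  have hcount : a - (E'.card : ℝ) ≤ a / 3 := by
    have h1 : ∑ x ∈ A.filter (fun x => ¬ ∑ z ∈ A, b x z ≤ 3 / 8 * a), (3 / 8 * a) ≤
        ∑ x ∈ A, ∑ z ∈ A, b x z := by
      calc ∑ x ∈ A.filter (fun x => ¬ ∑ z ∈ A, b x z ≤ 3 / 8 * a), (3 / 8 * a) ≤
          ∑ x ∈ A.filter (fun x => ¬ ∑ z ∈ A, b x z ≤ 3 / 8 * a), ∑ z ∈ A, b x z := by
            apply Finset.sum_le_sum
            intro x hx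
            rw [Finset.mem_filter] at hx
            exact (not_le.mp hx.2).le
        _ ≤ ∑ x ∈ A, ∑ z ∈ A, b x z :=
            Finset.sum_le_sum_of_subset_of_nonneg (Finset.filter_subset _ _)
              fun x _ _ => Finset.sum_nonneg fun z _ => b0 x z
    rw [Finset.sum_const, nsmul_eq_mul, ← hbadA] at h1
    have h2 : (E'.card : ℝ) +
        ((A.filter (fun x => ¬ ∑ z ∈ A, b x z ≤ 3 / 8 * a)).card : ℝ) = a := by
      rw [hE', ha]
      exact_mod_cast Finset.card_filter_add_card_filter_not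
        (s := A) (fun x => ∑ z ∈ A, b x z ≤ 3 / 8 * a)
    have h3 : ((A.filter (fun x => ¬ ∑ z ∈ A, b x z ≤ 3 / 8 * a)).card : ℝ) * (3 / 8 * a) ≤
        a ^ 2 / 8 := h1.trans hbA
    set t := ((A.filter (fun x => ¬ ∑ z ∈ A, b x z ≤ 3 / 8 * a)).card : ℝ) with ht
    have h4 : t ≤ a / 3 := by
      by_contra hcon
      push Not at hcon
      have : a / 3 * (3 / 8 * a) < t * (3 / 8 * a) :=
        mul_lt_mul_of_pos_right hcon (by positivity)
      nlinarith
    linarith
  refine ⟨E', hE'A.trans hAE, ?_, ?_⟩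
  · nlinarith [mul_pos hα hn0]
  intro x hx x' hx'
  have hx1 := (Finset.mem_filter.mp hx).2
  have hx1' := (Finset.mem_filter.mp hx').2
  have hT : (((E ×ˢ E ×ˢ E).filter
      fun q => Γ x q.1 ∧ Γ q.1 q.2.1 ∧ Γ q.2.1 q.2.2 ∧ Γ q.2.2 x').card : ℝ) =
      ∑ z ∈ E, cn x z * cn x' z := by
    rw [Finset.card_filter]
    push_cast
    rw [Finset.sum_product]
    simp_rw [Finset.sum_product]
    rw [Finset.sum_comm]
    refine Finset.sum_congr rfl fun z _ => ?_
    simp only [hcn]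
    rw [Finset.sum_mul_sum]
    refine Finset.sum_congr rfl fun y1 _ => ?_
    refine Finset.sum_congr rfl fun y2 _ => ?_
    have e1 : c z y1 = c y1 z := csym _ _
    have e2 : c x' y2 = c y2 x' := csym _ _
    rw [e1, e2]
    simp only [hc]
    by_cases g1 : Γ x y1 <;> by_cases g2 : Γ y1 z <;> by_cases g3 : Γ z y2 <;>
      by_cases g4 : Γ y2 x' <;> simp [g1, g2, g3, g4]
  rw [hT]
  have hgood : a / 4 ≤ ∑ z ∈ A, (1 - b x z - b x' z) := by
    rw [Finset.sum_sub_distrib, Finset.sum_sub_distrib, Finset.sum_const, nsmul_eq_mul, mul_one]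
    linarith
  have hstep : ∀ z ∈ A, (1 - b x z - b x' z) * (θ * n) ^ 2 ≤ cn x z * cn x' z := by
    intro z _
    have hp : 0 ≤ cn x z * cn x' z := mul_nonneg (cn0 _ _) (cn0 _ _)
    have hq : 0 ≤ (θ * n) ^ 2 := sq_nonneg _
    simp only [hb]
    split_ifs with h1 h2 h2
    · linarith
    · linarith
    · linarith
    · push Not at h1 h2
      have h0 : 0 ≤ θ * n := by positivity
      have := mul_le_mul h1 h2 h0 (cn0 x z)
      nlinarith
  calc α ^ 5 / 2 ^ 20 * n ^ 3 ≤ a / 4 * (θ * n) ^ 2 := by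
        have h1 : 4 / 5 * (α * n) / 4 * (θ * n) ^ 2 ≤ a / 4 * (θ * n) ^ 2 := by
          apply mul_le_mul_of_nonneg_right _ (sq_nonneg _)
          linarith
        refine le_trans ?_ h1
        rw [hθ]
        have : 4 / 5 * (α * n) / 4 * (α ^ 2 / 32 * n) ^ 2 = α ^ 5 * n ^ 3 / 5120 := by ring
        rw [this]
        have h2 : 0 < α ^ 5 * n ^ 3 := by positivity
        have h3 : α ^ 5 / 2 ^ 20 * n ^ 3 = α ^ 5 * n ^ 3 / 2 ^ 20 := by ring
        rw [h3]
        apply div_le_div_of_nonneg_left h2.le (by norm_num) (by norm_num)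
    _ ≤ (∑ z ∈ A, (1 - b x z - b x' z)) * (θ * n) ^ 2 :=
        mul_le_mul_of_nonneg_right hgood (sq_nonneg _)
    _ = ∑ z ∈ A, (1 - b x z - b x' z) * (θ * n) ^ 2 := by rw [Finset.sum_mul]
    _ ≤ ∑ z ∈ A, cn x z * cn x' z := Finset.sum_le_sum hstep
    _ ≤ ∑ z ∈ E, cn x z * cn x' z :=
        Finset.sum_le_sum_of_subset_of_nonneg hAE fun z _ _ => mul_nonneg (cn0 _ _) (cn0 _ _)

end Pool.Agent.Work.MP_1151e3_an
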