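import Pool.Agent.Work.MP_1151e3_an.Basic
import Pool.Agent.Work.MP_1151e3_an.Pack

/-!
# Open intervals in shifted products: popular elements (D8)
-/

set_option autoImplicit false

namespace Pool.Agent.Work.MP_1151e3_an

open MeasureTheory Set Aff

/-- Number of separated points in a ball. -/
lemma pop_ball {δ r : ℝ} (hδ : 0 < δ) (hr : 0 ≤ r) {F : Finset Aff} (hF : Sep δ F) {z : Aff}
    (hz : ∀ h ∈ F, z.ad h ≤ r * δ) : (F.card : ℝ) ≤ (4 * r + 1) ^ 2 := by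
  have h1 := claimPack δ (2 * (r * δ)) (r * δ) 0 (z.s - r * δ) z.t F hδ (by positivity)
    (by positivity) (by simp) hF (fun g hg => by
      have h2 := s_le_ad z g
      have h3 := t_le_ad z g
      have h4 := hz g hg
      have h5 := abs_le.mp (h2.trans h4)
      refine ⟨by linarith [h5.2], by linarith [h5.1], ?_⟩
      rw [mul_zero, zero_add, abs_sub_comm]
      exact h3.trans h4)
  have e1 : 2 * (2 * (r * δ)) / δ = 4 * r := by field_simp; ring
  have e2 : 4 * (r * δ) / δ = 4 * r := by field_simp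
  rw [e1, e2] at h1
  calc _ ≤ _ := h1
    _ = _ := by ring

open Classical in
/-- Every popularity is at most a constant times the cardinality. -/
lemma pop_le {δ r : ℝ} (hδ : 0 < δ) (hr : 0 ≤ r) {E : Finset Aff} (hE : Sep δ E) (x : Aff) :
    (pop (r * δ) E x : ℝ) ≤ (4 * r + 1) ^ 2 * E.card := by
  have h1 : pop (r * δ) E x = ∑ g ∈ E, (E.filter fun h => (x * g).ad h ≤ r * δ).card := by
    unfold pop
    rw [Finset.card_filter, Finset.sum_product]
    refine Finset.sum_congr rfl fun g _ => ?_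
    rw [Finset.card_filter]
  rw [h1]
  push_cast
  calc ∑ g ∈ E, ((E.filter fun h => (x * g).ad h ≤ r * δ).card : ℝ) ≤
      ∑ _g ∈ E, (4 * r + 1) ^ 2 := by
        refine Finset.sum_le_sum fun g _ => ?_
        exact pop_ball hδ hr (hE.subset (Finset.filter_subset _ _))
          (fun h hh => (Finset.mem_filter.mp hh).2)
    _ = _ := by rw [Finset.sum_const, nsmul_eq_mul]; ring

lemma pop_mono {ρ ρ' : ℝ} (h : ρ ≤ ρ') (E : Finset Aff) (x : Aff) : pop ρ E x ≤ pop ρ' E x := by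
  classical
  unfold pop
  exact Finset.card_le_card fun q hq => by
    rw [Finset.mem_filter] at hq ⊢
    exact ⟨hq.1, hq.2.trans h⟩

open Classical in
/-- Counting pairs with the same label by Cauchy and Schwarz. -/
lemma pop_pairs {α β : Type} (P : Finset α) (N : Finset β) (ν : α → β)
    (hν : ∀ p ∈ P, ν p ∈ N) :
    (P.card : ℝ) ^ 2 ≤ N.card * (((P ×ˢ P).filter fun q => ν q.1 = ν q.2).card : ℝ) := by
  have h1 : (P.card : ℝ) = ∑ n ∈ N, ((P.filter fun p => ν p = n).card : ℝ) := by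
    rw [← Nat.cast_sum, ← Finset.card_eq_sum_card_fiberwise hν]
  have h2 : (((P ×ˢ P).filter fun q => ν q.1 = ν q.2).card : ℝ) =
      ∑ n ∈ N, ((P.filter fun p => ν p = n).card : ℝ) ^ 2 := by
    have h3 : ((P ×ˢ P).filter fun q => ν q.1 = ν q.2).card =
        ∑ p ∈ P, (P.filter fun p' => ν p' = ν p).card := by
      rw [Finset.card_filter, Finset.sum_product]
      refine Finset.sum_congr rfl fun g _ => ?_
      rw [Finset.card_filter]
      refine Finset.sum_congr rfl fun g' _ => ?_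
      simp only [eq_comm]
    rw [h3, ← Finset.sum_fiberwise_of_maps_to hν]
    push_cast
    refine Finset.sum_congr rfl fun n _ => ?_
    rw [sq, ← nsmul_eq_mul, ← Finset.sum_const]
    refine Finset.sum_congr rfl fun p hp => ?_
    rw [(Finset.mem_filter.mp hp).2]
  rw [h1, h2]
  exact sq_sum_le_card_mul_sum_sq

lemma pop_quot_bd {B : ℝ} (hB : 1 ≤ B) {g h : Aff} (hg : g.bd B) (hh : h.bd B) :
    (h⁻¹ * g).bd (2 * B ^ 3) ∧ (g * h⁻¹).bd (2 * B ^ 3) := by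
  have h1 := bd_mul (one_le_pow₀ hB) hB (bd_inv hB hh) hg
  have h2 := bd_mul hB (one_le_pow₀ hB) hg (bd_inv hB hh)
  have e1 : 2 * B ^ 2 * B = 2 * B ^ 3 := by ring
  have e2 : 2 * B * B ^ 2 = 2 * B ^ 3 := by ring
  rw [e1] at h1
  rw [e2] at h2
  exact ⟨h1, h2⟩

/-- Inverses of popular elements are popular. -/
lemma pop_inv {B : ℝ} (hB : 1 ≤ B) {δ r : ℝ} {E : Finset Aff} (hbd : ∀ g ∈ E, g.bd B) {x : Aff}
    (hx : (x⁻¹).bd (2 * B ^ 3)) : pop (r * δ) E x ≤ pop (2 * (2 * B ^ 3) * r * δ) E x⁻¹ := by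
  classical
  have h3 := one_le_pow₀ hB (n := 3)
  have hB1 : 1 ≤ 2 * B ^ 3 := by linarith
  have hBB : B ≤ 2 * B ^ 3 := by
    have h1 : B ^ 1 ≤ B ^ 3 := pow_le_pow_right₀ hB (by norm_num)
    linarith [pow_one B]
  unfold pop
  apply Finset.card_le_card_of_injOn (fun q : Aff × Aff => (q.2, q.1))
  · intro q hq
    rw [Finset.mem_coe, Finset.mem_filter, Finset.mem_product] at hq ⊢
    obtain ⟨⟨h1, h2⟩, h4⟩ := hq
    refine ⟨⟨h2, h1⟩, ?_⟩
    dsimp only
    have h5 := ad_mul_le hB1 (g := x⁻¹) (g' := x⁻¹) (h := q.2) (h' := x * q.1) hx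
      (bd_mono (by linarith) hBB (hbd _ h2))
    rw [inv_mul_cancel_left, ad_self, zero_add, ad_comm q.2] at h5
    calc (x⁻¹ * q.2).ad q.1 ≤ 2 * (2 * B ^ 3) * (x * q.1).ad q.2 := h5
      _ ≤ 2 * (2 * B ^ 3) * (r * δ) := mul_le_mul_of_nonneg_left h4 (by positivity)
      _ = _ := by ring
  · intro q _ q' _ h
    simp only [Prod.mk.injEq] at h
    exact Prod.ext h.2 h.1

open Classical in
theorem claimPop : ClaimPop := by
  intro B hB
  have h0 : 0 < B := by linarith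
  have h3 := one_le_pow₀ hB (n := 3)
  have hB1 : 1 ≤ 2 * B ^ 3 := by linarith
  have hBB : B ≤ 2 * B ^ 3 := by
    have h1 : B ^ 1 ≤ B ^ 3 := pow_le_pow_right₀ hB (by norm_num)
    linarith [pow_one B]
  obtain ⟨r, hr⟩ : ∃ r, r = 4 * (2 * B ^ 3) := ⟨_, rfl⟩
  have hr1 : 1 ≤ r := by rw [hr]; linarith
  obtain ⟨C2, hC2⟩ : ∃ C2, C2 = (4 * r + 1) ^ 2 := ⟨_, rfl⟩
  have hC21 : 1 ≤ C2 := by rw [hC2]; exact one_le_pow₀ (by linarith)
  obtain ⟨C, hC⟩ : ∃ C, C = 2 * C2 + 2 * (2 * B ^ 3) * r := ⟨_, rfl⟩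
  have hBr : 1 ≤ 2 * (2 * B ^ 3) * r := by nlinarith
  have hrC : r ≤ C := by nlinarith
  have hBrC : 2 * (2 * B ^ 3) * r ≤ C := by linarith
  have hC2C : 2 * C2 ≤ C := by linarith
  refine ⟨C, by linarith, ?_⟩
  intro δ M E hδ hδ1 hM hEne hbd hsep hcnt
  obtain ⟨N, hNG, hNsep, hNcard, hNnet⟩ := hcnt.exists_net
  have hnet : ∀ p : Aff × Aff, ∃ n : Aff, p ∈ E ×ˢ E → (n ∈ N ∧ (p.1⁻¹ * p.2).ad n ≤ δ) := by
    intro p
    by_cases hp : p ∈ E ×ˢ E
    · obtain ⟨h1, h2⟩ := Finset.mem_product.mp hp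
      obtain ⟨n, hn, h | h⟩ := hNnet (p.1⁻¹ * p.2) ⟨p.2, h2, p.1, h1, rfl⟩
      · exact ⟨n, fun _ => ⟨hn, h.le⟩⟩
      · exact ⟨n, fun _ => ⟨hn, by rw [h, ad_self]; exact hδ.le⟩⟩
    · exact ⟨1, fun h => absurd h hp⟩
  choose ν hν using hnet
  have hEc : (0 : ℝ) < E.card := by exact_mod_cast Finset.card_pos.mpr hEne
  have hpp := pop_pairs (E ×ˢ E) N ν (fun p hp => (hν p hp).1)
  have hPc : (((E ×ˢ E).card : ℕ) : ℝ) = (E.card : ℝ) ^ 2 := by
    rw [Finset.card_product]; push_cast; ring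
  rw [hPc] at hpp
  -- the quadruples
  let Q : Finset ((Aff × Aff) × (Aff × Aff)) :=
    ((E ×ˢ E) ×ˢ (E ×ˢ E)).filter fun q => ν q.1 = ν q.2
  let T : Finset ((Aff × Aff) × (Aff × Aff)) :=
    ((E ×ˢ E) ×ˢ (E ×ˢ E)).filter fun w => ((w.1.2 * w.1.1⁻¹) * w.2.1).ad w.2.2 ≤ r * δ
  have hQT : Q.card ≤ T.card := by
    apply Finset.card_le_card_of_injOn
      (fun q : (Aff × Aff) × (Aff × Aff) => ((q.1.1, q.2.1), (q.1.2, q.2.2)))
    · rintro ⟨⟨g, g1⟩, ⟨h, h1⟩⟩ hq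
      rw [Finset.mem_coe, Finset.mem_filter] at hq
      obtain ⟨hq1, hq2⟩ := hq
      obtain ⟨ha, hb⟩ := Finset.mem_product.mp hq1
      obtain ⟨hg, hg1⟩ := Finset.mem_product.mp ha
      obtain ⟨hh, hh1⟩ := Finset.mem_product.mp hb
      dsimp only at ha hb hg hg1 hh hh1 hq2
      rw [Finset.mem_coe, Finset.mem_filter]
      refine ⟨Finset.mem_product.mpr ⟨Finset.mem_product.mpr ⟨hg, hh⟩,
        Finset.mem_product.mpr ⟨hg1, hh1⟩⟩, ?_⟩
      dsimp only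
      have k1 := (hν _ ha).2
      have k2 := (hν _ hb).2
      dsimp only at k1 k2
      rw [← hq2, ad_comm] at k2
      have k3 := ad_triangle (g⁻¹ * g1) (ν (g, g1)) (h⁻¹ * h1)
      have k4 := ad_mul_le hB1 (g := h) (g' := h) (h := g⁻¹ * g1) (h' := h⁻¹ * h1)
        (bd_mono h0 hBB (hbd h hh)) (pop_quot_bd hB (hbd _ hg1) (hbd _ hg)).1
      rw [ad_self, zero_add, mul_inv_cancel_left, ← mul_assoc] at k4
      calc (h * g⁻¹ * g1).ad h1 ≤ 2 * (2 * B ^ 3) * (g⁻¹ * g1).ad (h⁻¹ * h1) := k4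
        _ ≤ 2 * (2 * B ^ 3) * (δ + δ) :=
            mul_le_mul_of_nonneg_left (by linarith) (by positivity)
        _ = r * δ := by rw [hr]; ring
    · rintro ⟨⟨g, g1⟩, ⟨h, h1⟩⟩ _ ⟨⟨g', g1'⟩, ⟨h', h1'⟩⟩ _ he
      simp only [Prod.mk.injEq] at he
      obtain ⟨⟨e1, e2⟩, ⟨e3, e4⟩⟩ := he
      subst e1 e2 e3 e4
      rfl
  have hT : (T.card : ℝ) = ∑ q ∈ E ×ˢ E, (pop (r * δ) E (q.2 * q.1⁻¹) : ℝ) := by
    rw [← Nat.cast_sum]
    congr 1
    simp only [T, pop]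
    rw [Finset.card_filter, Finset.sum_product]
    refine Finset.sum_congr rfl fun g _ => ?_
    rw [Finset.card_filter]
  have hlow : (E.card : ℝ) ^ 4 / M ≤ ∑ q ∈ E ×ˢ E, (pop (r * δ) E (q.2 * q.1⁻¹) : ℝ) := by
    rw [← hT, div_le_iff₀ hM]
    calc (E.card : ℝ) ^ 4 = ((E.card : ℝ) ^ 2) ^ 2 := by ring
      _ ≤ N.card * (Q.card : ℝ) := hpp
      _ ≤ M * T.card := mul_le_mul hNcard (by exact_mod_cast hQT) (Nat.cast_nonneg _) hM.le
      _ = _ := by ring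
  -- the good pairs
  let P : Aff × Aff → Prop := fun q => (E.card : ℝ) ^ 2 / (2 * M) ≤ (pop (r * δ) E (q.2 * q.1⁻¹) : ℝ)
  have hsplit := Finset.sum_filter_add_sum_filter_not (E ×ˢ E) P
    (fun q => (pop (r * δ) E (q.2 * q.1⁻¹) : ℝ))
  have hgood : ∑ q ∈ (E ×ˢ E).filter P, (pop (r * δ) E (q.2 * q.1⁻¹) : ℝ) ≤
      (((E ×ˢ E).filter P).card : ℝ) * (C2 * E.card) := by
    rw [← nsmul_eq_mul, ← Finset.sum_const]
    refine Finset.sum_le_sum fun q _ => ?_
    rw [hC2]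
    exact pop_le hδ (by linarith) hsep _
  have hbad : ∑ q ∈ (E ×ˢ E).filter (fun q => ¬ P q), (pop (r * δ) E (q.2 * q.1⁻¹) : ℝ) ≤
      (E.card : ℝ) ^ 2 * ((E.card : ℝ) ^ 2 / (2 * M)) := by
    calc _ ≤ ∑ _q ∈ (E ×ˢ E).filter (fun q => ¬ P q), (E.card : ℝ) ^ 2 / (2 * M) := by
          refine Finset.sum_le_sum fun q hq => ?_
          exact (not_le.mp (Finset.mem_filter.mp hq).2).le
      _ = (((E ×ˢ E).filter (fun q => ¬ P q)).card : ℝ) * ((E.card : ℝ) ^ 2 / (2 * M)) := by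
          rw [Finset.sum_const, nsmul_eq_mul]
      _ ≤ _ := by
          apply mul_le_mul_of_nonneg_right _ (by positivity)
          refine le_trans ?_ hPc.le
          exact_mod_cast Finset.card_le_card (Finset.filter_subset _ _)
  have hcount : (E.card : ℝ) ^ 3 / (2 * C2 * M) ≤ (((E ×ˢ E).filter P).card : ℝ) := by
    have k1 : (E.card : ℝ) ^ 4 / M ≤ (((E ×ˢ E).filter P).card : ℝ) * (C2 * E.card) +
        (E.card : ℝ) ^ 2 * ((E.card : ℝ) ^ 2 / (2 * M)) := by linarith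
    have k2 : (E.card : ℝ) ^ 4 / M - (E.card : ℝ) ^ 2 * ((E.card : ℝ) ^ 2 / (2 * M)) =
        (E.card : ℝ) ^ 3 / (2 * C2 * M) * (C2 * E.card) := by
      have := hEc.ne'
      have : C2 ≠ 0 := by linarith
      field_simp
      ring
    have k3 : (E.card : ℝ) ^ 3 / (2 * C2 * M) * (C2 * E.card) ≤
        (((E ×ˢ E).filter P).card : ℝ) * (C2 * E.card) := by linarith
    exact le_of_mul_le_mul_right k3 (by positivity)
  calc (E.card : ℝ) ^ 3 / (C * M) ≤ (E.card : ℝ) ^ 3 / (2 * C2 * M) := by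
        apply div_le_div_of_nonneg_left (by positivity) (by positivity)
        exact mul_le_mul_of_nonneg_right hC2C hM.le
    _ ≤ (((E ×ˢ E).filter P).card : ℝ) := hcount
    _ ≤ _ := by
        have hsub : (E ×ˢ E).filter P ⊆ (E ×ˢ E).filter fun q =>
            (E.card : ℝ) ^ 2 / (C * M) ≤ pop (C * δ) E (q.2 * q.1⁻¹) ∧
            (E.card : ℝ) ^ 2 / (C * M) ≤ pop (C * δ) E (q.1 * q.2⁻¹) := by
          intro q hq
          obtain ⟨hq1, hq2⟩ := Finset.mem_filter.mp hq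
          obtain ⟨hqa, hqb⟩ := Finset.mem_product.mp hq1
          have k0 : (E.card : ℝ) ^ 2 / (C * M) ≤ (E.card : ℝ) ^ 2 / (2 * M) := by
            apply div_le_div_of_nonneg_left (by positivity) (by positivity)
            exact mul_le_mul_of_nonneg_right (by linarith) hM.le
          have k1 : (E.card : ℝ) ^ 2 / (C * M) ≤ (pop (r * δ) E (q.2 * q.1⁻¹) : ℝ) :=
            k0.trans hq2
          have einv : (q.2 * q.1⁻¹)⁻¹ = q.1 * q.2⁻¹ := by group
          have k2 : pop (r * δ) E (q.2 * q.1⁻¹) ≤ pop (C * δ) E (q.2 * q.1⁻¹) :=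
            pop_mono (mul_le_mul_of_nonneg_right hrC hδ.le) E _
          have k3 := pop_inv (δ := δ) (r := r) hB hbd (x := q.2 * q.1⁻¹)
            (by rw [einv]; exact (pop_quot_bd hB (hbd _ hqa) (hbd _ hqb)).2)
          rw [einv] at k3
          have k4 : pop (2 * (2 * B ^ 3) * r * δ) E (q.1 * q.2⁻¹) ≤ pop (C * δ) E (q.1 * q.2⁻¹) :=
            pop_mono (mul_le_mul_of_nonneg_right hBrC hδ.le) E _
          refine Finset.mem_filter.mpr ⟨hq1, k1.trans (by exact_mod_cast k2), k1.trans ?_⟩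
          exact_mod_cast k3.trans k4
        exact_mod_cast Finset.card_le_card hsub

end Pool.Agent.Work.MP_1151e3_an
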