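import Pool.Agent.Work.MP_1151e3_an.Basic

/-!
# Open intervals in shifted products: few quotients from many paths (D6)
-/

set_option autoImplicit false

namespace Pool.Agent.Work.MP_1151e3_an

open MeasureTheory Set Aff

lemma quot_one_le {B : ℝ} (hB : 1 ≤ B) : 1 ≤ 2 * B ^ 3 := by
  have := one_le_pow₀ hB (n := 3)
  linarith

lemma quot_B_le {B : ℝ} (hB : 1 ≤ B) : B ≤ 2 * B ^ 3 := by
  have h1 : B ^ 1 ≤ B ^ 3 := pow_le_pow_right₀ hB (by norm_num)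
  have h2 : 0 ≤ B ^ 3 := by positivity
  linarith [pow_one B]

lemma quot_B2_le {B : ℝ} (hB : 1 ≤ B) : B ^ 2 ≤ 2 * B ^ 3 := by
  have h1 : B ^ 2 ≤ B ^ 3 := pow_le_pow_right₀ hB (by norm_num)
  have h2 : 0 ≤ B ^ 3 := by positivity
  linarith

lemma quot_bd {B : ℝ} (hB : 1 ≤ B) {g h : Aff} (hg : g.bd B) (hh : h.bd B) :
    (h⁻¹ * g).bd (2 * B ^ 3) := by
  have := bd_mul (one_le_pow₀ hB) hB (bd_inv hB hh) hg
  have e : 2 * B ^ 2 * B = 2 * B ^ 3 := by ring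
  rwa [e] at this

/-- Cancellation of a common right factor for quotients. -/
lemma quot_cancel {B : ℝ} (hB : 1 ≤ B) {x y y1 : Aff} (hx : x.bd B) (hy : y.bd B)
    (hy1 : y1.bd B) :
    y.ad y1 ≤ 4 * (2 * B ^ 3) ^ 5 * (y⁻¹ * x).ad (y1⁻¹ * x) := by
  have h0 : 0 < B := by linarith
  have hB1 := quot_one_le hB
  have h1 : (y⁻¹).ad (y1⁻¹) ≤ 2 * (2 * B ^ 3) ^ 2 * (y⁻¹ * x).ad (y1⁻¹ * x) :=
    ad_le_of_mul_right hB1 (bd_mono h0 (quot_B_le hB) hx) (quot_bd hB hx hy1)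
  have h2 : ((y⁻¹)⁻¹).ad ((y1⁻¹)⁻¹) ≤ 2 * (2 * B ^ 3) ^ 3 * (y⁻¹).ad (y1⁻¹) :=
    ad_inv_le hB1 (bd_mono (by positivity) (quot_B2_le hB) (bd_inv hB hy))
      (bd_mono (by positivity) (quot_B2_le hB) (bd_inv hB hy1))
  rw [inv_inv, inv_inv] at h2
  calc y.ad y1 ≤ 2 * (2 * B ^ 3) ^ 3 * (y⁻¹).ad (y1⁻¹) := h2
    _ ≤ 2 * (2 * B ^ 3) ^ 3 * (2 * (2 * B ^ 3) ^ 2 * (y⁻¹ * x).ad (y1⁻¹ * x)) :=
        mul_le_mul_of_nonneg_left h1 (by positivity)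
    _ = _ := by ring

lemma quot_ad_four {B : ℝ} (hB : 1 ≤ B) {r : ℝ} {a b c d a1 b1 c1 d1 : Aff}
    (ha : a.bd B) (hb1 : b1.bd B) (hc : c.bd B) (hd1 : d1.bd B)
    (hd1' : (d1 * c1).bd (2 * B * B)) (hba : (b * a).bd (2 * B * B))
    (ra : a.ad a1 ≤ r) (rb : b.ad b1 ≤ r) (rc : c.ad c1 ≤ r) (rd : d.ad d1 ≤ r) :
    (d * c * (b * a)).ad (d1 * c1 * (b1 * a1)) ≤ 32 * B ^ 3 * r := by
  have h0 : 0 < B := by linarith
  have h1 := ad_mul_le hB (g := d) (g' := d1) (h := c) (h' := c1) hd1 hc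
  have h2 := ad_mul_le hB (g := b) (g' := b1) (h := a) (h' := a1) hb1 ha
  have h3 := ad_mul_le (B := 2 * B * B) (by nlinarith) (g := d * c) (g' := d1 * c1)
    (h := b * a) (h' := b1 * a1) hd1' hba
  have h4 : (d * c).ad (d1 * c1) ≤ 4 * B * r := by
    refine h1.trans ?_
    have : 2 * B * (d.ad d1 + c.ad c1) ≤ 2 * B * (r + r) :=
      mul_le_mul_of_nonneg_left (add_le_add rd rc) (by positivity)
    linarith
  have h5 : (b * a).ad (b1 * a1) ≤ 4 * B * r := by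
    refine h2.trans ?_
    have : 2 * B * (b.ad b1 + a.ad a1) ≤ 2 * B * (r + r) :=
      mul_le_mul_of_nonneg_left (add_le_add rb ra) (by positivity)
    linarith
  calc _ ≤ 2 * (2 * B * B) * ((d * c).ad (d1 * c1) + (b * a).ad (b1 * a1)) := h3
    _ ≤ 2 * (2 * B * B) * (4 * B * r + 4 * B * r) :=
        mul_le_mul_of_nonneg_left (add_le_add h4 h5) (by positivity)
    _ = _ := by ring

theorem claimQuot : ClaimQuot := by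
  classical
  intro B hB
  have h0 : 0 < B := by linarith
  have hB1 := quot_one_le hB
  obtain ⟨B1, hB1def⟩ : ∃ B1, B1 = 2 * B ^ 3 := ⟨_, rfl⟩
  rw [← hB1def] at hB1
  have hB10 : 0 < B1 := by linarith
  obtain ⟨C, hC⟩ : ∃ C, C = 100 * B1 ^ 5 := ⟨_, rfl⟩
  have hC0 : 0 < C := by rw [hC]; positivity
  have hC1 : 1 ≤ C := by
    have := one_le_pow₀ hB1 (n := 5)
    rw [hC]; linarith
  refine ⟨C, hC1, ?_⟩
  intro δ M β E E' Γ G hδ hδ1 hM hβ hbd hsep hE'E hEne hΓ hG hpaths F hF hFsep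
  obtain ⟨N, hNG, hNsep, hNcard, hNnet⟩ := hG.exists_net
  have hnet : ∀ g : Aff, ∃ n : Aff, g ∈ G → (n ∈ N ∧ g.ad n ≤ δ / C) := by
    intro g
    by_cases hg : g ∈ G
    · obtain ⟨n, hn, h | h⟩ := hNnet g hg
      · exact ⟨n, fun _ => ⟨hn, h.le⟩⟩
      · exact ⟨n, fun _ => ⟨hn, by rw [h, ad_self]; positivity⟩⟩
    · exact ⟨g, fun h => absurd h hg⟩
  choose ν hν using hnet
  have hrep : ∀ q : Aff, ∃ p : Aff × Aff, q ∈ F → (p.1 ∈ E' ∧ p.2 ∈ E' ∧ q = p.2⁻¹ * p.1) := by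
    intro q
    by_cases hq : q ∈ F
    · obtain ⟨g, hg, h, hh, he⟩ := hF q hq
      exact ⟨(g, h), fun _ => ⟨hg, hh, he⟩⟩
    · exact ⟨(q, q), fun h => absurd h hq⟩
  choose rp hrp using hrep
  have hEcard : (0 : ℝ) < E.card := by
    exact_mod_cast Finset.card_pos.mpr hEne
  let pr : Aff → Finset (Aff × Aff × Aff) := fun q =>
    (E ×ˢ E ×ˢ E).filter fun v => Γ (rp q).1 v.1 ∧ Γ v.1 v.2.1 ∧ Γ v.2.1 v.2.2 ∧ Γ v.2.2 (rp q).2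
  let Ω : Finset (Σ _ : Aff, Aff × Aff × Aff) := F.sigma pr
  let Φ : (Σ _ : Aff, Aff × Aff × Aff) → Aff × Aff × Aff × Aff := fun w =>
    (ν (w.2.1⁻¹ * (rp w.1).1), ν (w.2.2.1⁻¹ * w.2.1), ν (w.2.2.2⁻¹ * w.2.2.1),
      ν ((rp w.1).2⁻¹ * w.2.2.2))
  have hΩ : ∀ w ∈ Ω, w.1 ∈ F ∧ (rp w.1).1 ∈ E ∧ (rp w.1).2 ∈ E ∧ w.2.1 ∈ E ∧ w.2.2.1 ∈ E ∧
      w.2.2.2 ∈ E ∧ Γ (rp w.1).1 w.2.1 ∧ Γ w.2.1 w.2.2.1 ∧ Γ w.2.2.1 w.2.2.2 ∧
      Γ w.2.2.2 (rp w.1).2 := by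
    intro w hw
    obtain ⟨h1, h2⟩ := Finset.mem_sigma.mp hw
    obtain ⟨h3, h4⟩ := Finset.mem_filter.mp h2
    obtain ⟨h5, h6⟩ := Finset.mem_product.mp h3
    obtain ⟨h7, h8⟩ := Finset.mem_product.mp h6
    obtain ⟨h9, h10, _⟩ := hrp w.1 h1
    exact ⟨h1, hE'E h9, hE'E h10, h5, h7, h8, h4⟩
  have hmap : ∀ w ∈ Ω, Φ w ∈ N ×ˢ N ×ˢ N ×ˢ N := by
    intro w hw
    obtain ⟨h1, h2, h3, h4, h5, h6, g1, g2, g3, g4⟩ := hΩ w hw
    simp only [Φ, Finset.mem_product]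
    exact ⟨(hν _ (hΓ _ h2 _ h4 g1)).1, (hν _ (hΓ _ h4 _ h5 g2)).1,
      (hν _ (hΓ _ h5 _ h6 g3)).1, (hν _ (hΓ _ h6 _ h3 g4)).1⟩
  -- closeness of two elements with the same net point
  have hclose : ∀ u v : Aff, u ∈ G → v ∈ G → ν u = ν v → u.ad v ≤ 2 * δ / C := by
    intro u v hu hv huv
    have h1 := (hν u hu).2
    have h2 := (hν v hv).2
    rw [← huv, ad_comm] at h2
    have h3 := ad_triangle u (ν u) v
    have e : 2 * δ / C = δ / C + δ / C := by ring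
    rw [e]; linarith
  have hsmall1 : 32 * B1 ^ 3 * (2 * δ / C) < δ := by
    rw [hC]
    have h5 : B1 ^ 3 ≤ B1 ^ 5 := pow_le_pow_right₀ hB1 (by norm_num)
    have h6 : 0 < B1 ^ 5 := by positivity
    rw [← mul_div_assoc, div_lt_iff₀ (by positivity)]
    nlinarith
  have hsmall2 : 4 * B1 ^ 5 * (2 * δ / C) < δ := by
    rw [hC]
    have h6 : 0 < B1 ^ 5 := by positivity
    rw [← mul_div_assoc, div_lt_iff₀ (by positivity)]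
    nlinarith
  have hcan : ∀ x y y1 : Aff, x ∈ E → y ∈ E → y1 ∈ E →
      (y⁻¹ * x).ad (y1⁻¹ * x) ≤ 2 * δ / C → y = y1 := by
    intro x y y1 hx hy hy1 h
    by_contra hne
    have h1 := hsep y hy y1 hy1 hne
    have h2 := quot_cancel hB (hbd x hx) (hbd y hy) (hbd y1 hy1)
    rw [← hB1def] at h2
    have h3 : 4 * B1 ^ 5 * (y⁻¹ * x).ad (y1⁻¹ * x) ≤ 4 * B1 ^ 5 * (2 * δ / C) :=
      mul_le_mul_of_nonneg_left h (by positivity)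
    linarith
  have hinj : Set.InjOn Φ (Ω : Set (Σ _ : Aff, Aff × Aff × Aff)) := by
    rintro ⟨q, y, z, w⟩ hw1 ⟨q1, y1, z1, w1⟩ hw2 he
    obtain ⟨h1, h2, h3, h4, h5, h6, g1, g2, g3, g4⟩ := hΩ _ hw1
    obtain ⟨k1, k2, k3, k4, k5, k6, f1, f2, f3, f4⟩ := hΩ _ hw2
    simp only [Φ, Prod.mk.injEq] at he
    obtain ⟨e1, e2, e3, e4⟩ := he
    dsimp only at h1 h2 h3 h4 h5 h6 g1 g2 g3 g4 k1 k2 k3 k4 k5 k6 f1 f2 f3 f4
    have r1 := hclose _ _ (hΓ _ h2 _ h4 g1) (hΓ _ k2 _ k4 f1) e1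
    have r2 := hclose _ _ (hΓ _ h4 _ h5 g2) (hΓ _ k4 _ k5 f2) e2
    have r3 := hclose _ _ (hΓ _ h5 _ h6 g3) (hΓ _ k5 _ k6 f3) e3
    have r4 := hclose _ _ (hΓ _ h6 _ h3 g4) (hΓ _ k6 _ k3 f4) e4
    have bdq : ∀ u v : Aff, u ∈ E → v ∈ E → (u⁻¹ * v).bd B1 := fun u v hu hv => by
      rw [hB1def]; exact quot_bd hB (hbd v hv) (hbd u hu)
    have hq : q = q1 := by
      by_contra hne
      have hs := hFsep q h1 q1 k1 hne
      have t1 := quot_ad_four hB1 (bdq _ _ h4 h2) (bdq _ _ k5 k4) (bdq _ _ h6 h5) (bdq _ _ k3 k6)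
        (bd_mul hB1 hB1 (bdq _ _ k3 k6) (bdq _ _ k6 k5))
        (bd_mul hB1 hB1 (bdq _ _ h5 h4) (bdq _ _ h4 h2)) r1 r2 r3 r4
      have e5 : (rp q).2⁻¹ * w * (w⁻¹ * z) * (z⁻¹ * y * (y⁻¹ * (rp q).1)) =
          (rp q).2⁻¹ * (rp q).1 := by group
      have e6 : (rp q1).2⁻¹ * w1 * (w1⁻¹ * z1) * (z1⁻¹ * y1 * (y1⁻¹ * (rp q1).1)) =
          (rp q1).2⁻¹ * (rp q1).1 := by group
      rw [e5, e6, ← (hrp q h1).2.2, ← (hrp q1 k1).2.2] at t1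
      linarith
    subst hq
    have hy : y = y1 := hcan _ _ _ h2 h4 k4 r1
    subst hy
    have hz : z = z1 := hcan _ _ _ h4 h5 k5 r2
    subst hz
    have hw : w = w1 := hcan _ _ _ h5 h6 k6 r3
    subst hw
    rfl
  have hcard : Ω.card ≤ (N ×ˢ N ×ˢ N ×ˢ N).card := Finset.card_le_card_of_injOn Φ hmap hinj
  have hcard2 : (Ω.card : ℝ) ≤ M ^ 4 := by
    have h1 : ((N ×ˢ N ×ˢ N ×ˢ N).card : ℝ) = (N.card : ℝ) ^ 4 := by
      simp only [Finset.card_product]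
      push_cast; ring
    calc (Ω.card : ℝ) ≤ ((N ×ˢ N ×ˢ N ×ˢ N).card : ℝ) := by exact_mod_cast hcard
      _ = (N.card : ℝ) ^ 4 := h1
      _ ≤ M ^ 4 := pow_le_pow_left₀ (Nat.cast_nonneg _) hNcard 4
  have hlow : (F.card : ℝ) * (β * (E.card : ℝ) ^ 3) ≤ Ω.card := by
    rw [Finset.card_sigma]
    push_cast
    rw [← nsmul_eq_mul, ← Finset.sum_const]
    refine Finset.sum_le_sum fun q hq => ?_
    exact hpaths _ (hrp q hq).1 _ (hrp q hq).2.1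
  have hpos : 0 < β * (E.card : ℝ) ^ 3 := by positivity
  rw [le_div_iff₀ hpos]
  calc (F.card : ℝ) * (β * (E.card : ℝ) ^ 3) ≤ Ω.card := hlow
    _ ≤ M ^ 4 := hcard2
    _ ≤ C * M ^ 4 := le_mul_of_one_le_left (by positivity) hC1

end Pool.Agent.Work.MP_1151e3_an
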