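import Pool.Agent.Work.MP_1151e3_an.Basic

/-!
# Open intervals in shifted products: number of rich affine maps (item D3)
-/

set_option autoImplicit false

namespace Pool.Agent.Work.MP_1151e3_an

open MeasureTheory Set Aff
open scoped ENNReal

/-- The smoothed law of `b - l a - τ`. -/
noncomputable def rich_M (k : ℝ → ℝ) (L : ℝ) (μ : Measure ℝ) (l τ : ℝ) : ℝ :=
  ∫ p : ℝ × ℝ, sc L k (p.2 - l * p.1 - τ) ∂(μ.prod μ)

section Basics

variable {k : ℝ → ℝ} {C L l τ : ℝ} {μ : Measure ℝ}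

lemma rich_int [IsProbabilityMeasure μ] (hk : Continuous k) (hC : ∀ x, |k x| ≤ C) (L l τ : ℝ) :
    Integrable (fun p : ℝ × ℝ => sc L k (p.2 - l * p.1 - τ)) (μ.prod μ) := by
  refine Integrable.of_bound (Continuous.aestronglyMeasurable ?_) (|L| * C)
    (ae_of_all _ fun p => ?_)
  · unfold sc; fun_prop
  · unfold sc
    rw [Real.norm_eq_abs, abs_mul]
    exact mul_le_mul_of_nonneg_left (hC _) (abs_nonneg _)

lemma rich_meas [IsProbabilityMeasure μ] (hk : Continuous k) (L : ℝ) :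
    Measurable (fun q : ℝ × ℝ => rich_M k L μ q.1 q.2) := by
  unfold rich_M
  apply StronglyMeasurable.measurable
  apply StronglyMeasurable.integral_prod_right
  apply Continuous.stronglyMeasurable
  unfold sc Function.uncurry
  fun_prop

lemma rich_step [IsProbabilityMeasure μ] (hker : ClaimKer) {L : ℝ} (hL : 0 < L) :
    rich_M th (2 * L) μ l τ = rich_M th L μ l τ + rich_M k1 L μ l τ := by
  obtain ⟨⟨h1, h2, h3, h4, h5, h6⟩, hr⟩ := hker
  have h7 : ∀ R x : ℝ, 0 < R → sc R k1 x = sc (2 * R) th x - sc R th x :=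
    hr.2.2.2.2.2.2.2.2.2.2.2.2.2
  have hb : ∀ x, |th x| ≤ 2 := fun x => by rw [abs_of_nonneg (h2 x)]; exact h5 x
  unfold rich_M
  simp_rw [h7 L _ hL]
  rw [integral_sub (rich_int h1 hb _ _ _) (rich_int h1 hb _ _ _)]
  ring

lemma rich_tele [IsProbabilityMeasure μ] (hker : ClaimKer) {L : ℝ} (hL : 0 < L) (q : ℕ) :
    rich_M th (2 ^ q * L) μ l τ =
      rich_M th L μ l τ + ∑ i ∈ Finset.range q, rich_M k1 (2 ^ i * L) μ l τ := by
  induction q with
  | zero => simp
  | succ n ih =>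
    have h1 : (2 : ℝ) ^ (n + 1) * L = 2 * (2 ^ n * L) := by ring
    rw [h1, rich_step hker (by positivity), ih, Finset.sum_range_succ]
    ring

lemma rich_lower [IsProbabilityMeasure μ] (hker : ClaimKer) {B R : ℝ} (hB : 1 ≤ B) (hR : 0 < R)
    (hμ : μ (Icc 0 1)ᶜ = 0) (g : Aff) (hl : |l - g.s| ≤ 1 / (2 * B * R))
    (hτ : |τ - g.t| ≤ 1 / (2 * B * R)) :
    R / (8 * B) * mm μ (B / R) g 1 ≤ rich_M th (R / (8 * B)) μ l τ := by
  obtain ⟨⟨h1, h2, h3, h4, h5, h6⟩, hr⟩ := hker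
  have hb : ∀ x, |th x| ≤ 2 := fun x => by rw [abs_of_nonneg (h2 x)]; exact h5 x
  have hB0 : 0 < B := by linarith
  have e1 : R / (8 * B) * mm μ (B / R) g 1 = ∫ p : ℝ × ℝ,
      ({p : ℝ × ℝ | |g.act p.1 - (1 : Aff).act p.2| ≤ B / R}).indicator
        (fun _ => R / (8 * B)) p ∂(μ.prod μ) := by
    rw [integral_indicator_const _ (measurableSet_mm _ _ _), smul_eq_mul, mul_comm]
    rfl
  rw [e1]
  unfold rich_M
  refine integral_mono_ae ?_ (rich_int h1 hb _ _ _) ?_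
  · exact (integrable_const _).indicator (measurableSet_mm _ _ _)
  · have h01 : ∀ᵐ a ∂μ, a ∈ Icc (0 : ℝ) 1 := by
      rw [ae_iff]; exact hμ
    have h02 : ∀ᵐ p : ℝ × ℝ ∂(μ.prod μ), p.1 ∈ Icc (0 : ℝ) 1 :=
      Measure.quasiMeasurePreserving_fst.ae h01
    filter_upwards [h02] with p hp
    by_cases hpm : p ∈ {p : ℝ × ℝ | |g.act p.1 - (1 : Aff).act p.2| ≤ B / R}
    · rw [indicator_of_mem hpm]
      have h7 : |g.act p.1 - (1 : Aff).act p.2| ≤ B / R := hpm
      rw [act_one] at h7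
      unfold sc
      have h8 : 1 ≤ th (R / (8 * B) * (p.2 - l * p.1 - τ)) := by
        apply h4
        rw [abs_mul, abs_of_pos (by positivity : 0 < R / (8 * B))]
        have h9 : |p.2 - l * p.1 - τ| ≤ 2 * (B / R) := by
          have e2 : p.2 - l * p.1 - τ = -(g.act p.1 - p.2) - ((l - g.s) * p.1 + (τ - g.t)) := by
            unfold Aff.act; ring
          rw [e2]
          have h10 : |(l - g.s) * p.1| ≤ 1 / (2 * B * R) := by
            rw [abs_mul]
            have h11 : |p.1| ≤ 1 := by rw [abs_le]; constructor <;> linarith [hp.1, hp.2]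
            calc |l - g.s| * |p.1| ≤ 1 / (2 * B * R) * 1 :=
                  mul_le_mul hl h11 (abs_nonneg _) (by positivity)
              _ = _ := mul_one _
          have h12 : 1 / (2 * B * R) + 1 / (2 * B * R) ≤ B / R := by
            have h13 : 1 / (2 * B * R) + 1 / (2 * B * R) = B⁻¹ / R := by field_simp; ring
            rw [h13]
            apply div_le_div_of_nonneg_right _ hR.le
            exact (inv_le_one_of_one_le₀ hB).trans hB
          calc |-(g.act p.1 - p.2) - ((l - g.s) * p.1 + (τ - g.t))|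
              ≤ |-(g.act p.1 - p.2)| + |(l - g.s) * p.1 + (τ - g.t)| := abs_sub _ _
            _ ≤ |-(g.act p.1 - p.2)| + (|(l - g.s) * p.1| + |τ - g.t|) := by
                gcongr; exact abs_add_le _ _
            _ ≤ B / R + (1 / (2 * B * R) + 1 / (2 * B * R)) := by
                rw [abs_neg]; gcongr
            _ ≤ 2 * (B / R) := by linarith
        calc R / (8 * B) * |p.2 - l * p.1 - τ| ≤ R / (8 * B) * (2 * (B / R)) := by gcongr
          _ = 1 / 4 := by field_simp; norm_num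
      have h9 : 0 < R / (8 * B) := by positivity
      nlinarith
    · rw [indicator_of_notMem hpm]
      unfold sc
      exact mul_nonneg (by positivity) (h2 _)

lemma rich_strip [IsProbabilityMeasure μ] {K s δ r : ℝ} (hF : Fro μ K s δ) (hr : δ ≤ r)
    (l τ : ℝ) : (μ.prod μ).real {p : ℝ × ℝ | |p.2 - l * p.1 - τ| ≤ r} ≤ K * r ^ s := by
  have hm : MeasurableSet {p : ℝ × ℝ | |p.2 - l * p.1 - τ| ≤ r} := by
    apply IsClosed.measurableSet
    apply isClosed_le _ continuous_const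
    fun_prop
  have h0 : 0 ≤ K * r ^ s := le_trans measureReal_nonneg (hF 0 r hr)
  rw [measureReal_def]
  apply ENNReal.toReal_le_of_le_ofReal h0
  rw [Measure.prod_apply hm]
  calc ∫⁻ x, μ (Prod.mk x ⁻¹' {p : ℝ × ℝ | |p.2 - l * p.1 - τ| ≤ r}) ∂μ
      ≤ ∫⁻ _x, ENNReal.ofReal (K * r ^ s) ∂μ := by
        apply lintegral_mono
        intro x
        have e1 : Prod.mk x ⁻¹' {p : ℝ × ℝ | |p.2 - l * p.1 - τ| ≤ r} =
            Metric.closedBall (l * x + τ) r := by
          ext b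
          simp only [mem_preimage, mem_ofPred_eq, Metric.mem_closedBall, Real.dist_eq]
          rw [show b - l * x - τ = b - (l * x + τ) by ring]
        show μ (Prod.mk x ⁻¹' {p : ℝ × ℝ | |p.2 - l * p.1 - τ| ≤ r}) ≤ ENNReal.ofReal (K * r ^ s)
        rw [e1, ← ofReal_measureReal]
        exact ENNReal.ofReal_le_ofReal (hF _ r hr)
    _ = ENNReal.ofReal (K * r ^ s) := by
        rw [lintegral_const, measure_univ, mul_one]

lemma rich_upper [IsProbabilityMeasure μ] (hker : ClaimKer) {K s δ : ℝ} (hL : 0 < L)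
    (hF : Fro μ K s δ) (hδ : δ ≤ 1 / (2 * L)) (l τ : ℝ) :
    rich_M th L μ l τ ≤ 2 * L * (K * (1 / (2 * L)) ^ s) := by
  obtain ⟨⟨h1, h2, h3, h4, h5, h6⟩, hr⟩ := hker
  have hb : ∀ x, |th x| ≤ 2 := fun x => by rw [abs_of_nonneg (h2 x)]; exact h5 x
  have hm : MeasurableSet {p : ℝ × ℝ | |p.2 - l * p.1 - τ| ≤ 1 / (2 * L)} := by
    apply IsClosed.measurableSet
    apply isClosed_le _ continuous_const
    fun_prop
  calc rich_M th L μ l τ ≤ ∫ p : ℝ × ℝ, ({p : ℝ × ℝ | |p.2 - l * p.1 - τ| ≤ 1 / (2 * L)}).indicator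
        (fun _ => 2 * L) p ∂(μ.prod μ) := by
        unfold rich_M
        refine integral_mono (rich_int h1 hb _ _ _) ((integrable_const _).indicator hm) ?_
        intro p
        show sc L th (p.2 - l * p.1 - τ) ≤ _
        by_cases hp : p ∈ {p : ℝ × ℝ | |p.2 - l * p.1 - τ| ≤ 1 / (2 * L)}
        · rw [indicator_of_mem hp]
          unfold sc
          have := h5 (L * (p.2 - l * p.1 - τ))
          nlinarith
        · rw [indicator_of_notMem hp]
          unfold sc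
          rw [h3, mul_zero]
          have hp' : 1 / (2 * L) < |p.2 - l * p.1 - τ| := not_le.mp hp
          rw [abs_mul, abs_of_pos hL]
          have : L * (1 / (2 * L)) = 1 / 2 := by field_simp
          nlinarith
    _ = (μ.prod μ).real {p : ℝ × ℝ | |p.2 - l * p.1 - τ| ≤ 1 / (2 * L)} * (2 * L) := by
        rw [integral_indicator_const _ hm, smul_eq_mul]
    _ ≤ (K * (1 / (2 * L)) ^ s) * (2 * L) := by
        refine mul_le_mul_of_nonneg_right (rich_strip hF hδ l τ) (by positivity)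
    _ = _ := by ring

end Basics

/-! ### The energy inequality -/

/-- Indicator of the open square of half side `h` around `g`. -/
noncomputable def rich_ind (h : ℝ) (g : Aff) (l τ : ℝ) : ℝ≥0∞ :=
  (Ioo (g.s - h) (g.s + h)).indicator 1 l * (Ioo (g.t - h) (g.t + h)).indicator 1 τ

lemma rich_ind_one {h : ℝ} {g : Aff} {l τ : ℝ} (h1 : |l - g.s| < h) (h2 : |τ - g.t| < h) :
    rich_ind h g l τ = 1 := by
  rw [abs_lt] at h1 h2
  unfold rich_ind
  rw [indicator_of_mem, indicator_of_mem]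
  · simp
  · exact ⟨by linarith [h2.1], by linarith [h2.2]⟩
  · exact ⟨by linarith [h1.1], by linarith [h1.2]⟩

lemma rich_ind_zero {h : ℝ} {g : Aff} {l τ : ℝ} (h0 : ¬ (|l - g.s| < h ∧ |τ - g.t| < h)) :
    rich_ind h g l τ = 0 := by
  unfold rich_ind
  by_cases h6 : |l - g.s| < h
  · have h7 : τ ∉ Ioo (g.t - h) (g.t + h) := by
      intro h8
      refine h0 ⟨h6, ?_⟩
      rw [abs_lt]
      constructor <;> linarith [h8.1, h8.2]
    rw [indicator_of_notMem h7, mul_zero]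
  · have h7 : l ∉ Ioo (g.s - h) (g.s + h) := by
      intro h8
      refine h6 ?_
      rw [abs_lt]
      constructor <;> linarith [h8.1, h8.2]
    rw [indicator_of_notMem h7, zero_mul]

lemma rich_pt {h : ℝ} (Q : Finset Aff) (hsep : Sep (2 * h) Q) (c : ℝ≥0∞) (F : ℝ≥0∞)
    (l τ : ℝ) (hF : ∀ g ∈ Q, |l - g.s| < h → |τ - g.t| < h → c ≤ F) :
    ∑ g ∈ Q, c * rich_ind h g l τ ≤ F := by
  classical
  by_cases hex : ∃ g ∈ Q, |l - g.s| < h ∧ |τ - g.t| < h
  · obtain ⟨g, hg, h1, h2⟩ := hex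
    have h3 : ∑ g' ∈ Q, c * rich_ind h g' l τ = c * rich_ind h g l τ := by
      refine Finset.sum_eq_single_of_mem g hg (fun g' hg' hne => ?_)
      have h4 := hsep g hg g' hg' hne.symm
      rw [rich_ind_zero, mul_zero]
      rintro ⟨h6, h7⟩
      have h8 : g.ad g' < 2 * h := by
        unfold Aff.ad
        refine max_lt ?_ ?_
        · calc |g.s - g'.s| = |(l - g'.s) - (l - g.s)| := by ring_nf
            _ ≤ |l - g'.s| + |l - g.s| := abs_sub _ _
            _ < 2 * h := by linarith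
        · calc |g.t - g'.t| = |(τ - g'.t) - (τ - g.t)| := by ring_nf
            _ ≤ |τ - g'.t| + |τ - g.t| := abs_sub _ _
            _ < 2 * h := by linarith
      linarith
    rw [h3, rich_ind_one h1 h2, mul_one]
    exact hF g hg h1 h2
  · have h3 : ∑ g' ∈ Q, c * rich_ind h g' l τ = 0 := by
      refine Finset.sum_eq_zero (fun g' hg' => ?_)
      rw [rich_ind_zero, mul_zero]
      intro h4
      exact hex ⟨g', hg', h4⟩
    rw [h3]
    exact zero_le

lemma rich_ind_meas (h : ℝ) (g : Aff) (l : ℝ) : Measurable (fun τ => rich_ind h g l τ) := by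
  unfold rich_ind
  exact (measurable_one.indicator measurableSet_Ioo).const_mul _

lemma rich_ind_int (h : ℝ) (g : Aff) (l : ℝ) : ∫⁻ τ, rich_ind h g l τ =
    ENNReal.ofReal (2 * h) * (Ioo (g.s - h) (g.s + h)).indicator 1 l := by
  unfold rich_ind
  rw [lintegral_const_mul _ (measurable_one.indicator measurableSet_Ioo),
    lintegral_indicator_one measurableSet_Ioo, Real.volume_Ioo,
    show g.t + h - (g.t - h) = 2 * h by ring, mul_comm]

lemma rich_left {h l0 w : ℝ} (Q : Finset Aff) (hQl : ∀ g ∈ Q, |g.s - l0| ≤ w) (hhw : h ≤ w)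
    (c : ℝ≥0∞) :
    ∫⁻ l in Icc (l0 - 2 * w) (l0 + 2 * w), (∫⁻ τ, ∑ g ∈ Q, c * rich_ind h g l τ) =
      (Q.card : ℝ≥0∞) * (c * (ENNReal.ofReal (2 * h)) ^ 2) := by
  have e1 : ∀ l, ∫⁻ τ, ∑ g ∈ Q, c * rich_ind h g l τ =
      ∑ g ∈ Q, c * (ENNReal.ofReal (2 * h) * (Ioo (g.s - h) (g.s + h)).indicator 1 l) := by
    intro l
    rw [lintegral_finsetSum Q (fun g _ => (rich_ind_meas h g l).const_mul c)]
    refine Finset.sum_congr rfl (fun g _ => ?_)
    rw [lintegral_const_mul _ (rich_ind_meas h g l), rich_ind_int]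
  rw [lintegral_congr e1]
  have hm : ∀ g : Aff, Measurable (fun l : ℝ =>
      c * (ENNReal.ofReal (2 * h) * (Ioo (g.s - h) (g.s + h)).indicator 1 l)) :=
    fun g => ((measurable_one.indicator measurableSet_Ioo).const_mul _).const_mul _
  rw [lintegral_finsetSum Q (fun g _ => hm g)]
  have e2 : ∀ g ∈ Q, ∫⁻ l in Icc (l0 - 2 * w) (l0 + 2 * w),
      c * (ENNReal.ofReal (2 * h) * (Ioo (g.s - h) (g.s + h)).indicator 1 l) =
      c * (ENNReal.ofReal (2 * h)) ^ 2 := by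
    intro g hg
    rw [lintegral_const_mul _ ((measurable_one.indicator measurableSet_Ioo).const_mul _),
      lintegral_const_mul _ (measurable_one.indicator measurableSet_Ioo),
      lintegral_indicator_one measurableSet_Ioo, Measure.restrict_apply measurableSet_Ioo]
    have h1 : Ioo (g.s - h) (g.s + h) ∩ Icc (l0 - 2 * w) (l0 + 2 * w) =
        Ioo (g.s - h) (g.s + h) := by
      apply inter_eq_left.mpr
      intro x hx
      have h2 := abs_le.mp (hQl g hg)
      constructor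
      · linarith [hx.1, h2.1]
      · linarith [hx.2, h2.2]
    rw [h1, Real.volume_Ioo, show g.s + h - (g.s - h) = 2 * h by ring, ← sq]
  rw [Finset.sum_congr rfl e2, Finset.sum_const, nsmul_eq_mul]

lemma rich_meas0 {μ : Measure ℝ} [IsProbabilityMeasure μ] {k : ℝ → ℝ} (hk : Continuous k)
    (L : ℝ) : Measurable (fun p : ℝ × ℝ => ENNReal.ofReal (rich_M k L μ p.1 p.2 ^ 2)) :=
  ENNReal.measurable_ofReal.comp ((rich_meas hk L).pow_const 2)

lemma rich_meas1 {μ : Measure ℝ} [IsProbabilityMeasure μ] {k : ℝ → ℝ} (hk : Continuous k)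
    (L l : ℝ) : Measurable (fun τ => ENNReal.ofReal (rich_M k L μ l τ ^ 2)) := by
  have h1 : Measurable (fun τ : ℝ => ((l, τ) : ℝ × ℝ)) := measurable_prodMk_left
  have h2 := (rich_meas0 hk (μ := μ) L).comp h1
  rw [Function.comp_def] at h2
  exact h2

lemma rich_meas2 {μ : Measure ℝ} [IsProbabilityMeasure μ] {k : ℝ → ℝ} (hk : Continuous k)
    (L : ℝ) : Measurable (fun l => ∫⁻ τ, ENNReal.ofReal (rich_M k L μ l τ ^ 2)) :=
  Measurable.lintegral_prod_right' (rich_meas0 hk L)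

lemma rich_one {μ : Measure ℝ} {k : ℝ → ℝ}
    {L E w l0 : ℝ} (hE : 0 ≤ E)
    (hup : ∀ l1, ∫⁻ l in Icc (l1 - w) (l1 + w),
      (∫⁻ τ, ENNReal.ofReal (rich_M k L μ l τ ^ 2)) ≤ ENNReal.ofReal E) :
    ∫⁻ l in Icc (l0 - 2 * w) (l0 + 2 * w), (∫⁻ τ, ENNReal.ofReal (rich_M k L μ l τ ^ 2)) ≤
      ENNReal.ofReal (2 * E) := by
  have h1 : Icc (l0 - 2 * w) (l0 + 2 * w) ⊆
      Icc ((l0 - w) - w) ((l0 - w) + w) ∪ Icc ((l0 + w) - w) ((l0 + w) + w) := by
    intro x hx
    rcases le_total x l0 with h2 | h2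
    · left; constructor <;> linarith [hx.1]
    · right; constructor <;> linarith [hx.2]
  have h2 := hup (l0 - w)
  have h3 := hup (l0 + w)
  have h4 : ENNReal.ofReal (2 * E) = ENNReal.ofReal E + ENNReal.ofReal E := by
    rw [← ENNReal.ofReal_add hE hE]; ring_nf
  rw [h4]
  refine le_trans (lintegral_mono_set h1) ?_
  refine le_trans (lintegral_union_le _ _ _) ?_
  exact add_le_add h2 h3

lemma rich_right {μ : Measure ℝ} [IsProbabilityMeasure μ] {k : ℝ → ℝ} (hk : Continuous k)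
    {q : ℕ} {L : ℕ → ℝ} {E w l0 : ℝ} (hE : 0 ≤ E)
    (hup : ∀ i ∈ Finset.range q, ∀ l1, ∫⁻ l in Icc (l1 - w) (l1 + w),
      (∫⁻ τ, ENNReal.ofReal (rich_M k (L i) μ l τ ^ 2)) ≤ ENNReal.ofReal E) :
    ∫⁻ l in Icc (l0 - 2 * w) (l0 + 2 * w), (∫⁻ τ, ∑ i ∈ Finset.range q,
      (q : ℝ≥0∞) * ENNReal.ofReal (rich_M k (L i) μ l τ ^ 2)) ≤ ENNReal.ofReal (2 * q ^ 2 * E) := by
  have e1 : ∀ l, ∫⁻ τ, ∑ i ∈ Finset.range q,
      (q : ℝ≥0∞) * ENNReal.ofReal (rich_M k (L i) μ l τ ^ 2) =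
      ∑ i ∈ Finset.range q, (q : ℝ≥0∞) *
      ∫⁻ τ, ENNReal.ofReal (rich_M k (L i) μ l τ ^ 2) := by
    intro l
    rw [lintegral_finsetSum _ (fun i _ => (rich_meas1 hk (L i) l).const_mul _)]
    refine Finset.sum_congr rfl (fun i _ => ?_)
    rw [lintegral_const_mul _ (rich_meas1 hk (L i) l)]
  rw [lintegral_congr e1,
    lintegral_finsetSum _ (fun i _ => (rich_meas2 hk (L i)).const_mul _)]
  have e2 : ∀ i ∈ Finset.range q, ∫⁻ l in Icc (l0 - 2 * w) (l0 + 2 * w), (q : ℝ≥0∞) *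
      ∫⁻ τ, ENNReal.ofReal (rich_M k (L i) μ l τ ^ 2) ≤ (q : ℝ≥0∞) * ENNReal.ofReal (2 * E) := by
    intro i hi
    rw [lintegral_const_mul _ (rich_meas2 hk (L i))]
    exact mul_le_mul_right (rich_one hE (hup i hi)) _
  refine (Finset.sum_le_sum e2).trans (le_of_eq ?_)
  have e3 : ENNReal.ofReal (2 * (q : ℝ) ^ 2 * E) = (q : ℝ≥0∞) * ((q : ℝ≥0∞) * ENNReal.ofReal (2 * E)) := by
    have e4 : 2 * (q : ℝ) ^ 2 * E = (q : ℝ) * ((q : ℝ) * (2 * E)) := by ring
    have hq : (0 : ℝ) ≤ q := Nat.cast_nonneg q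
    rw [e4, ENNReal.ofReal_mul hq, ENNReal.ofReal_mul hq, ENNReal.ofReal_natCast]
  rw [Finset.sum_const, Finset.card_range, nsmul_eq_mul, e3]

lemma rich_energy {μ : Measure ℝ} [IsProbabilityMeasure μ] {k : ℝ → ℝ} (hk : Continuous k)
    {q : ℕ} {L : ℕ → ℝ} {E m0 h w l0 : ℝ} (Q : Finset Aff) (hh : 0 < h) (hsep : Sep (2 * h) Q)
    (hQl : ∀ g ∈ Q, |g.s - l0| ≤ w) (hhw : h ≤ w) (hm0 : 0 ≤ m0) (hE : 0 ≤ E)
    (hlow : ∀ g ∈ Q, ∀ l τ, |l - g.s| < h → |τ - g.t| < h →
      m0 ≤ ∑ i ∈ Finset.range q, rich_M k (L i) μ l τ)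
    (hup : ∀ i ∈ Finset.range q, ∀ l1, ∫⁻ l in Icc (l1 - w) (l1 + w),
      (∫⁻ τ, ENNReal.ofReal (rich_M k (L i) μ l τ ^ 2)) ≤ ENNReal.ofReal E) :
    (Q.card : ℝ) * m0 ^ 2 * (2 * h) ^ 2 ≤ 2 * q ^ 2 * E := by
  have hF1 : ∀ l τ, ∀ g ∈ Q, |l - g.s| < h → |τ - g.t| < h → ENNReal.ofReal (m0 ^ 2) ≤
      ∑ i ∈ Finset.range q, (q : ℝ≥0∞) * ENNReal.ofReal (rich_M k (L i) μ l τ ^ 2) := by
    intro l τ g hg h1 h2
    have h3 := hlow g hg l τ h1 h2
    have h4 : m0 ^ 2 ≤ (∑ i ∈ Finset.range q, rich_M k (L i) μ l τ) ^ 2 :=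
      pow_le_pow_left₀ hm0 h3 2
    have h5 := h4.trans (sq_sum_le_card_mul_sum_sq (s := Finset.range q)
      (f := fun i => rich_M k (L i) μ l τ))
    rw [Finset.card_range] at h5
    refine (ENNReal.ofReal_le_ofReal h5).trans (le_of_eq ?_)
    rw [← Finset.mul_sum, ENNReal.ofReal_mul (Nat.cast_nonneg q), ENNReal.ofReal_natCast,
      ENNReal.ofReal_sum_of_nonneg (fun i _ => sq_nonneg _)]
  have hfin : (Q.card : ℝ≥0∞) * (ENNReal.ofReal (m0 ^ 2) * (ENNReal.ofReal (2 * h)) ^ 2) ≤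
      ENNReal.ofReal (2 * q ^ 2 * E) := by
    rw [← rich_left Q hQl hhw]
    refine le_trans ?_ (rich_right (l0 := l0) hk hE hup)
    refine lintegral_mono (fun l => lintegral_mono (fun τ => ?_))
    exact rich_pt Q hsep _ _ l τ (hF1 l τ)
  have e3 : (Q.card : ℝ≥0∞) * (ENNReal.ofReal (m0 ^ 2) * (ENNReal.ofReal (2 * h)) ^ 2) =
      ENNReal.ofReal ((Q.card : ℝ) * m0 ^ 2 * (2 * h) ^ 2) := by
    rw [← ENNReal.ofReal_natCast, ← ENNReal.ofReal_pow (by positivity),
      ← ENNReal.ofReal_mul (by positivity), ← ENNReal.ofReal_mul (by positivity)]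
    congr 1
    ring
  rw [e3] at hfin
  exact (ENNReal.ofReal_le_ofReal_iff (by positivity)).mp hfin

/-! ### Assembly -/

lemma rich_pow {s L1 L R : ℝ} (hs1 : s < 1) (hL1 : 0 < L1) (h1 : L1 ≤ L)
    (h2 : L ≤ R) : L ^ (1 - 2 * s) ≤ R ^ (1 - 2 * s) * (R / L1) := by
  have hL : 0 < L := hL1.trans_le h1
  have hR : 0 < R := hL.trans_le h2
  have e1 : L ^ (1 - 2 * s) = R ^ (1 - 2 * s) * (R / L) ^ (2 * s - 1) := by
    rw [Real.div_rpow hR.le hL.le, ← mul_div_assoc, ← Real.rpow_add hR]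
    have e2 : (1 - 2 * s) + (2 * s - 1) = 0 := by ring
    rw [e2, Real.rpow_zero, one_div, ← Real.rpow_neg hL.le]
    congr 1; ring
  rw [e1]
  refine mul_le_mul_of_nonneg_left ?_ (Real.rpow_nonneg hR.le _)
  have h3 : 1 ≤ R / L := by rw [le_div_iff₀ hL]; linarith
  calc (R / L) ^ (2 * s - 1) ≤ (R / L) ^ (1 : ℝ) :=
        Real.rpow_le_rpow_of_exponent_le h3 (by linarith)
    _ = R / L := Real.rpow_one _
    _ ≤ R / L1 := div_le_div_of_nonneg_left hR.le hL1 h1

/-- D3. Number of rich affine maps with slopes in a short interval. -/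
theorem claimRich (hQ : ClaimQ) (hker : ClaimKer) (hpack : ClaimPack) : ClaimRich := by
  intro s B hs0 hs1 hB
  obtain ⟨C0, hC0⟩ := hker.2.1
  have hk10 : ∫ x, k1 x = 0 := hker.2.2.1
  obtain ⟨C1, hC1, hQ1⟩ := hQ s C0 k1 hs0 hs1 hC0 hk10
  have hs : 0 < 1 - s := by linarith
  have hB0 : 0 < B := by linarith
  set a : ℝ := 1 / (1 - s) with ha
  have ha0 : 0 < a := by positivity
  have has : a * (1 - s) = 1 := by rw [ha]; field_simp
  set p0 : ℕ := ⌈2 * a⌉₊ with hp0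
  have hp0' : 2 * a ≤ (p0 : ℝ) := Nat.le_ceil _
  set D : ℝ := (32 * B) ^ a with hD
  have hD1 : 1 ≤ D := Real.one_le_rpow (by linarith) ha0.le
  have hB5 : 1 ≤ B ^ 5 := one_le_pow₀ hB
  refine ⟨32768 * B ^ 5 * C1 * D ^ 3, 4 + 3 * p0, ?_, ?_⟩
  · have h1 : 1 ≤ D ^ 3 := one_le_pow₀ hD1
    have h2 : 1 ≤ 32768 * B ^ 5 := by linarith
    have h3 : 1 ≤ 32768 * B ^ 5 * C1 := one_le_mul_of_one_le_of_one_le h2 hC1
    exact one_le_mul_of_one_le_of_one_le h3 h1
  intro K R w l0 μ Q hμ hK hR hw1 hw2 hμ01 hF hQb hsep hrich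
  have hK0 : 0 < K := by linarith
  have hR0 : 0 < R := by linarith
  have hw0 : 0 < w := lt_of_lt_of_le (by positivity) hw1
  have hX0 : 0 < w ^ (1 - s) := Real.rpow_pos_of_pos hw0 _
  set Λ : ℝ := D * K ^ p0 with hΛ
  have hKp : 1 ≤ K ^ p0 := one_le_pow₀ hK
  have hΛ1 : 1 ≤ Λ := one_le_mul_of_one_le_of_one_le hD1 hKp
  have hΛ0 : 0 < Λ := by linarith
  have hΛ2 : 32 * B * K ^ 2 ≤ Λ ^ (1 - s) := by
    rw [hΛ, Real.mul_rpow (by linarith) (by positivity)]
    have h1 : D ^ (1 - s) = 32 * B := by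
      rw [hD, ← Real.rpow_mul (by positivity), has, Real.rpow_one]
    have h2 : K ^ 2 ≤ (K ^ p0) ^ (1 - s) := by
      rw [← Real.rpow_natCast K p0, ← Real.rpow_mul hK0.le, ← Real.rpow_natCast K 2]
      apply Real.rpow_le_rpow_of_exponent_le hK
      push_cast
      calc (2 : ℝ) = 2 * (a * (1 - s)) := by rw [has]; ring
        _ = (2 * a) * (1 - s) := by ring
        _ ≤ (p0 : ℝ) * (1 - s) := mul_le_mul_of_nonneg_right hp0' hs.le
    rw [h1]
    exact mul_le_mul_of_nonneg_left h2 (by positivity)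
  obtain ⟨n, hn1, hn2⟩ := exists_nat_pow_near hΛ1 (one_lt_two : (1 : ℝ) < 2)
  set q : ℕ := n + 1 with hq
  have hq1 : Λ ≤ (2 : ℝ) ^ q := hn2.le
  have hq2 : (2 : ℝ) ^ q ≤ 2 * Λ := by
    rw [hq, pow_succ]; linarith
  have hq3 : (q : ℝ) ≤ 2 * Λ := by
    have h1 : (q : ℝ) ≤ (2 : ℝ) ^ q := by
      have := (Nat.lt_two_pow_self (n := q)).le
      exact_mod_cast this
    exact h1.trans hq2
  have h2q : (0 : ℝ) < 2 ^ q := by positivity
  set L1 : ℝ := R / (8 * B) / 2 ^ q with hL1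
  have hL1pos : 0 < L1 := by positivity
  have hRL1 : R / L1 = 8 * B * 2 ^ q := by rw [hL1]; field_simp
  have hRL2 : R / L1 ≤ 16 * B * Λ := by
    rw [hRL1]
    calc 8 * B * (2 : ℝ) ^ q ≤ 8 * B * (2 * Λ) := mul_le_mul_of_nonneg_left hq2 (by positivity)
      _ = _ := by ring
  have hgoal : 32768 * B ^ 5 * C1 * D ^ 3 * K ^ (4 + 3 * p0) * R * w ^ (1 - s) =
      32768 * B ^ 5 * C1 * K ^ 4 * Λ ^ 3 * (R * w ^ (1 - s)) := by
    rw [hΛ]; ring
  rw [hgoal]
  rcases lt_or_ge L1 1 with hcase | hcase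
  · -- small `R`: trivial packing
    have hR16 : R ≤ 16 * B * Λ := by
      have h1 : R = (R / L1) * L1 := by field_simp
      calc R = (R / L1) * L1 := h1
        _ ≤ (R / L1) * 1 := mul_le_mul_of_nonneg_left hcase.le (by positivity)
        _ ≤ 16 * B * Λ := by rw [mul_one]; exact hRL2
    have h1 := hpack (1 / (B * R)) (2 * w) B 0 (l0 - w) 0 Q (by positivity) (by positivity)
      hB0.le (by norm_num) hsep (fun g hg => by
        obtain ⟨h2, h3⟩ := hQb g hg
        rw [abs_le] at h3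
        refine ⟨by linarith [h3.1], by linarith [h3.2], ?_⟩
        simpa using h2.2.2)
    have hBR : 1 ≤ B * R := one_le_mul_of_one_le_of_one_le hB hR
    have hRw : 1 ≤ R * w := by
      rw [div_le_iff₀ hR0] at hw1; linarith
    have h2 : 2 * (2 * w) / (1 / (B * R)) + 1 ≤ 5 * (B * (R * w)) := by
      have e1 : 2 * (2 * w) / (1 / (B * R)) = 4 * (B * (R * w)) := by field_simp; norm_num
      have e2 : 1 ≤ B * (R * w) := one_le_mul_of_one_le_of_one_le hB hRw
      rw [e1]; linarith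
    have h3 : 4 * B / (1 / (B * R)) + 1 ≤ 5 * (B ^ 2 * R) := by
      have e1 : 4 * B / (1 / (B * R)) = 4 * (B ^ 2 * R) := by field_simp
      have e2 : 1 ≤ B ^ 2 * R := one_le_mul_of_one_le_of_one_le (one_le_pow₀ hB) hR
      rw [e1]; linarith
    have h4 : (Q.card : ℝ) ≤ 5 * (B * (R * w)) * (5 * (B ^ 2 * R)) :=
      h1.trans (mul_le_mul h2 h3 (by positivity) (by positivity))
    have h5 : w ≤ w ^ (1 - s) := by
      calc w = w ^ (1 : ℝ) := (Real.rpow_one w).symm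
        _ ≤ w ^ (1 - s) := Real.rpow_le_rpow_of_exponent_ge hw0 hw2 (by linarith)
    have h6 : 5 * (B * (R * w)) * (5 * (B ^ 2 * R)) ≤ 400 * B ^ 4 * Λ * (R * w ^ (1 - s)) := by
      calc 5 * (B * (R * w)) * (5 * (B ^ 2 * R)) = 25 * B ^ 3 * R * (R * w) := by ring
        _ ≤ 25 * B ^ 3 * (16 * B * Λ) * (R * w ^ (1 - s)) := by gcongr
        _ = _ := by ring
    refine h4.trans (h6.trans ?_)
    refine mul_le_mul_of_nonneg_right ?_ (by positivity)
    have h7 : Λ ≤ Λ ^ 3 := by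
      calc Λ = Λ ^ 1 := (pow_one _).symm
        _ ≤ Λ ^ 3 := pow_le_pow_right₀ hΛ1 (by norm_num)
    have h8 : 1 ≤ K ^ 4 := one_le_pow₀ hK
    have h9 : B ^ 4 ≤ B ^ 5 := pow_le_pow_right₀ hB (by norm_num)
    calc 400 * B ^ 4 * Λ ≤ 400 * B ^ 5 * Λ ^ 3 := by gcongr
      _ ≤ 32768 * B ^ 5 * Λ ^ 3 := by gcongr; norm_num
      _ = 32768 * B ^ 5 * 1 * 1 * Λ ^ 3 := by ring
      _ ≤ 32768 * B ^ 5 * C1 * K ^ 4 * Λ ^ 3 := by gcongr
  · -- main case
    have hL1R : ∀ i ∈ Finset.range q, 2 ^ i * L1 ≤ R := by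
      intro i hi
      have h1 : (2 : ℝ) ^ i ≤ 2 ^ q :=
        pow_le_pow_right₀ one_le_two (Finset.mem_range.mp hi).le
      calc (2 : ℝ) ^ i * L1 ≤ 2 ^ q * L1 := mul_le_mul_of_nonneg_right h1 hL1pos.le
        _ = R / (8 * B) := by rw [hL1]; field_simp
        _ ≤ R := by
            apply div_le_self hR0.le
            linarith
    have hL1i : ∀ i : ℕ, L1 ≤ 2 ^ i * L1 := fun i => by
      have h1 : (1 : ℝ) ≤ 2 ^ i := one_le_pow₀ one_le_two
      nlinarith
    set r1 : ℝ := R ^ (1 - s) with hr1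
    set r2 : ℝ := R ^ (1 - 2 * s) with hr2
    have hr1pos : 0 < r1 := Real.rpow_pos_of_pos hR0 _
    have hr2pos : 0 < r2 := Real.rpow_pos_of_pos hR0 _
    have hr12 : r1 ^ 2 = r2 * R := by
      rw [hr1, hr2, ← Real.rpow_natCast, ← Real.rpow_mul hR0.le]
      nth_rewrite 3 [← Real.rpow_one R]
      rw [← Real.rpow_add hR0]
      congr 1
      push_cast
      ring
    have hlow : ∀ g ∈ Q, ∀ l τ, |l - g.s| < 1 / (2 * B * R) → |τ - g.t| < 1 / (2 * B * R) →
        r1 / (16 * B * K) ≤ ∑ i ∈ Finset.range q, rich_M k1 (2 ^ i * L1) μ l τ := by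
      intro g hg l τ h1 h2
      have h3 := rich_lower (μ := μ) hker hB hR0 hμ01 g h1.le h2.le
      have h4 : R / (8 * B) = 2 ^ q * L1 := by rw [hL1]; field_simp
      have h5 : rich_M th (R / (8 * B)) μ l τ =
          rich_M th L1 μ l τ + ∑ i ∈ Finset.range q, rich_M k1 (2 ^ i * L1) μ l τ := by
        rw [h4]; exact rich_tele hker hL1pos q
      have h6 : rich_M th L1 μ l τ ≤ r1 / (16 * B * K) := by
        have h7 : 1 / R ≤ 1 / (2 * L1) := by
          apply one_div_le_one_div_of_le (by positivity)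
          have h8 : L1 ≤ R / (8 * B) := by
            rw [h4]
            exact hL1i q
          have h9 : R / (8 * B) ≤ R / 8 := by
            apply div_le_div_of_nonneg_left hR0.le (by norm_num)
            linarith
          linarith
        have h8 := rich_upper (μ := μ) hker hL1pos hF h7 l τ
        refine h8.trans ?_
        have h9 : (1 / (2 * L1)) ^ s ≤ (1 / L1) ^ s := by
          apply Real.rpow_le_rpow (by positivity) _ hs0.le
          apply one_div_le_one_div_of_le hL1pos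
          linarith
        have h10 : L1 * (1 / L1) ^ s = L1 ^ (1 - s) := by
          rw [one_div, Real.inv_rpow hL1pos.le, ← Real.rpow_neg hL1pos.le]
          nth_rewrite 1 [← Real.rpow_one L1]
          rw [← Real.rpow_add hL1pos]
          congr 1
        have h11 : L1 ^ (1 - s) ≤ r1 / (32 * B * K ^ 2) := by
          have h12 : L1 ≤ R / Λ := by
            rw [hL1, div_div]
            apply div_le_div_of_nonneg_left hR0.le hΛ0
            calc Λ ≤ 2 ^ q := hq1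
              _ = 1 * 2 ^ q := (one_mul _).symm
              _ ≤ 8 * B * 2 ^ q := by gcongr; linarith
          calc L1 ^ (1 - s) ≤ (R / Λ) ^ (1 - s) := Real.rpow_le_rpow hL1pos.le h12 hs.le
            _ = r1 / Λ ^ (1 - s) := by rw [Real.div_rpow hR0.le hΛ0.le]
            _ ≤ r1 / (32 * B * K ^ 2) :=
                div_le_div_of_nonneg_left hr1pos.le (by positivity) hΛ2
        calc 2 * L1 * (K * (1 / (2 * L1)) ^ s) ≤ 2 * L1 * (K * (1 / L1) ^ s) := by gcongr
          _ = 2 * K * (L1 * (1 / L1) ^ s) := by ring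
          _ = 2 * K * L1 ^ (1 - s) := by rw [h10]
          _ ≤ 2 * K * (r1 / (32 * B * K ^ 2)) := by gcongr
          _ = r1 / (16 * B * K) := by field_simp; norm_num
      have h7 : 2 * (r1 / (16 * B * K)) ≤ R / (8 * B) * mm μ (B / R) g 1 := by
        have h8 := hrich g hg
        have h9 : R * R ^ (-s) = r1 := by
          rw [hr1]
          nth_rewrite 1 [← Real.rpow_one R]
          rw [← Real.rpow_add hR0]
          congr 1
        calc 2 * (r1 / (16 * B * K)) = R / (8 * B) * (R ^ (-s) / K) := by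
              rw [← h9]; field_simp; norm_num
          _ ≤ _ := mul_le_mul_of_nonneg_left h8 (by positivity)
      linarith
    have hE0 : 0 ≤ C1 * K ^ 2 * w ^ (1 - s) * (r2 * (R / L1)) := by positivity
    have hup : ∀ i ∈ Finset.range q, ∀ l1, ∫⁻ l in Icc (l1 - w) (l1 + w),
        (∫⁻ τ, ENNReal.ofReal (rich_M k1 (2 ^ i * L1) μ l τ ^ 2)) ≤
        ENNReal.ofReal (C1 * K ^ 2 * w ^ (1 - s) * (r2 * (R / L1))) := by
      intro i hi l1
      have h1 := hQ1 K R (2 ^ i * L1) w l1 μ hμ hK (hcase.trans (hL1i i)) (hL1R i hi) hw0 hw2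
        hμ01 hF
      refine le_trans h1 (ENNReal.ofReal_le_ofReal ?_)
      exact mul_le_mul_of_nonneg_left (rich_pow hs1 hL1pos (hL1i i) (hL1R i hi)) (by positivity)
    have hsep' : Sep (2 * (1 / (2 * B * R))) Q := by
      have e1 : 2 * (1 / (2 * B * R)) = 1 / (B * R) := by field_simp
      rw [e1]; exact hsep
    have hhw : 1 / (2 * B * R) ≤ w := by
      refine le_trans ?_ hw1
      apply one_div_le_one_div_of_le hR0
      nlinarith
    have hfin := rich_energy (μ := μ) (l0 := l0) (L := fun i => 2 ^ i * L1) hC0.cont Q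
      (by positivity : 0 < 1 / (2 * B * R)) hsep' (fun g hg => (hQb g hg).2) hhw
      (by positivity : 0 ≤ r1 / (16 * B * K)) hE0 hlow hup
    have h1 : 2 * (q : ℝ) ^ 2 * (C1 * K ^ 2 * w ^ (1 - s) * (r2 * (R / L1))) ≤
        128 * B * C1 * K ^ 2 * w ^ (1 - s) * Λ ^ 3 * r2 := by
      calc 2 * (q : ℝ) ^ 2 * (C1 * K ^ 2 * w ^ (1 - s) * (r2 * (R / L1)))
          ≤ 2 * (2 * Λ) ^ 2 * (C1 * K ^ 2 * w ^ (1 - s) * (r2 * (16 * B * Λ))) := by
            gcongr
        _ = _ := by ring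
    have h2 : (Q.card : ℝ) * (r1 / (16 * B * K)) ^ 2 * (2 * (1 / (2 * B * R))) ^ 2 =
        (Q.card : ℝ) / (256 * B ^ 4 * K ^ 2 * R) * r2 := by
      have e1 : (Q.card : ℝ) * (r1 / (16 * B * K)) ^ 2 * (2 * (1 / (2 * B * R))) ^ 2 =
          (Q.card : ℝ) * (r1 ^ 2) / (256 * B ^ 4 * K ^ 2 * R ^ 2) := by
        field_simp; norm_num
      rw [e1, hr12]
      field_simp
    rw [h2] at hfin
    have h3 := le_of_mul_le_mul_right (hfin.trans h1) hr2pos
    rw [div_le_iff₀ (by positivity)] at h3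
    refine h3.trans (le_of_eq ?_)
    ring

end Pool.Agent.Work.MP_1151e3_an
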