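import Pool.Agent.Work.MP_1151e3_an.Basic

/-!
# Ring generation (D12)
-/

set_option autoImplicit false

namespace Pool.Agent.Work.MP_1151e3_an

open MeasureTheory Set Aff
open scoped ENNReal

/-- D12. Ring generation. -/
theorem claimRing (h0 : ClaimRing0) (h1 : ClaimRing1) : ClaimRing := by
  intro σ B c hσ hB hc hc1
  obtain ⟨k, C, p, hk, hC, H0⟩ := h0 σ B hσ hB
  obtain ⟨m, η, δ1, hη, hδ1, H1⟩ := h1 B c k hB hc hc1 hk
  have hC0 : (0 : ℝ) < C := by linarith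
  obtain ⟨e, he, he1, heη⟩ : ∃ e : ℝ, 0 < e ∧ e ≤ 1 ∧ e ≤ η :=
    ⟨min η 1, lt_min hη one_pos, min_le_right _ _, min_le_left _ _⟩
  have hp1 : (0 : ℝ) < 2 * ((p : ℝ) + 1) := by positivity
  refine ⟨m, e / (2 * ((p : ℝ) + 1)), min 1 (min δ1 ((1 / C) ^ (2 / e))), by positivity,
    lt_min one_pos (lt_min hδ1 (Real.rpow_pos_of_pos (by positivity) _)), ?_⟩
  intro δ K ρ D hδ hδ0 hK hKδ hprob hsupp hD hDB hfro
  have hδ1' : δ ≤ 1 := hδ0.trans (min_le_left _ _)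
  have hδδ1 : δ ≤ δ1 := (hδ0.trans (min_le_right _ _)).trans (min_le_left _ _)
  have hδC : δ ≤ (1 / C) ^ (2 / e) := (hδ0.trans (min_le_right _ _)).trans (min_le_right _ _)
  have hK0 : (0 : ℝ) < K := by linarith
  -- powers
  have hCe : C ≤ δ ^ (-(e / 2)) := by
    have h2 : δ ^ (e / 2) ≤ 1 / C := by
      calc δ ^ (e / 2) ≤ ((1 / C) ^ (2 / e)) ^ (e / 2) :=
            Real.rpow_le_rpow hδ.le hδC (by positivity)
        _ = 1 / C := by
            rw [← Real.rpow_mul (by positivity)]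
            have : 2 / e * (e / 2) = 1 := by field_simp
            rw [this, Real.rpow_one]
    rw [Real.rpow_neg hδ.le]
    have h3 : 0 < δ ^ (e / 2) := Real.rpow_pos_of_pos hδ _
    rw [le_inv_comm₀ hC0 h3]
    simpa using h2
  have hKp : K ^ p ≤ δ ^ (-(e / 2)) := by
    calc K ^ p ≤ (δ ^ (-(e / (2 * ((p : ℝ) + 1))))) ^ p := pow_le_pow_left₀ hK0.le hKδ p
      _ = δ ^ (-(e / (2 * ((p : ℝ) + 1))) * p) := by
          rw [Real.rpow_mul hδ.le, Real.rpow_natCast]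
      _ ≤ δ ^ (-(e / 2)) := by
          apply Real.rpow_le_rpow_of_exponent_ge hδ hδ1'
          have h3 : e / (2 * ((p : ℝ) + 1)) * p ≤ e / 2 := by
            rw [div_mul_eq_mul_div, div_le_div_iff₀ hp1 two_pos]
            nlinarith
          linarith
  have hCK : C * K ^ p ≤ δ ^ (-e) := by
    calc C * K ^ p ≤ δ ^ (-(e / 2)) * δ ^ (-(e / 2)) :=
          mul_le_mul hCe hKp (by positivity) (Real.rpow_nonneg hδ.le _)
      _ = δ ^ (-e) := by rw [← Real.rpow_add hδ]; congr 1; ring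
  have hCKpos : 0 < C * K ^ p := by positivity
  have hA : C * K ^ p * δ ≤ 1 := by
    calc C * K ^ p * δ ≤ δ ^ (-e) * δ := mul_le_mul_of_nonneg_right hCK hδ.le
      _ = δ ^ (1 - e) := by
          rw [sub_eq_add_neg, add_comm, Real.rpow_add hδ, Real.rpow_one]
      _ ≤ 1 := Real.rpow_le_one hδ.le hδ1' (by linarith)
  have hL : δ ^ η ≤ 1 / (C * K ^ p) := by
    calc δ ^ η ≤ δ ^ e := Real.rpow_le_rpow_of_exponent_ge hδ hδ1' heη
      _ = 1 / δ ^ (-e) := by rw [Real.rpow_neg hδ.le]; simp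
      _ ≤ 1 / (C * K ^ p) := one_div_le_one_div_of_le hCKpos hCK
  have hR : C * δ ≤ δ ^ (1 - η) := by
    calc C * δ ≤ δ ^ (-(e / 2)) * δ := mul_le_mul_of_nonneg_right hCe hδ.le
      _ = δ ^ (1 - e / 2) := by
          rw [sub_eq_add_neg, add_comm, Real.rpow_add hδ, Real.rpow_one]
      _ ≤ δ ^ (1 - η) := by
          apply Real.rpow_le_rpow_of_exponent_ge hδ hδ1'
          linarith
  obtain ⟨t, v0, ht, hv⟩ := H0 K δ ρ D hK hδ hA hprob hsupp hD hfro
  refine H1 δ (↑D : Set ℝ) hδ hδδ1 ?_ ⟨t, v0, ht, ?_⟩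
  · intro d hd
    have := hDB d (by simpa using hd)
    exact ⟨by linarith [this.1], this.2⟩
  · intro v hvI
    obtain ⟨x, hx, hxv⟩ := hv v ⟨hvI.1, hvI.2.trans (by linarith)⟩
    exact ⟨x, fun i => by simpa using hx i, hxv.trans hR⟩

end Pool.Agent.Work.MP_1151e3_an
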