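import Pool.Agent.Work.MP_1151e3_an.Basic

/-!
# Open intervals in shifted products: sums of random dilates cover an interval (item D10)
-/

set_option autoImplicit false

namespace Pool.Agent.Work.MP_1151e3_an

open MeasureTheory Set Aff
open scoped ENNReal

/-! ### The averaging measure -/

lemma ring0_Pm_univ : Pm univ = 1 := by
  have hc : Continuous fun t : ℝ => 6 * (t - 1) * (2 - t) := by fun_prop
  unfold Pm
  rw [withDensity_apply _ MeasurableSet.univ, Measure.restrict_univ,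
    ← ofReal_integral_eq_lintegral_ofReal]
  · rw [integral_Icc_eq_integral_Ioc, ← intervalIntegral.integral_of_le (by norm_num)]
    have : ∫ t in (1 : ℝ)..2, 6 * (t - 1) * (2 - t) = 1 := by
      have h : ∀ t ∈ Set.uIcc (1 : ℝ) 2, HasDerivAt
          (fun t : ℝ => -2 * t ^ 3 + 9 * t ^ 2 - 12 * t) (6 * (t - 1) * (2 - t)) t := by
        intro t _
        have h1 : HasDerivAt (fun t : ℝ => t ^ 3) (3 * t ^ 2) t := by
          simpa using hasDerivAt_pow 3 t
        have h2 : HasDerivAt (fun t : ℝ => t ^ 2) (2 * t) t := by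
          simpa using hasDerivAt_pow 2 t
        have h3 := ((h1.const_mul (-2)).add (h2.const_mul 9)).sub ((hasDerivAt_id t).const_mul 12)
        exact h3.congr_deriv (by ring)
      rw [intervalIntegral.integral_eq_sub_of_hasDerivAt h (hc.intervalIntegrable _ _)]
      norm_num
    rw [this, ENNReal.ofReal_one]
  · exact (hc.continuousOn.integrableOn_compact isCompact_Icc)
  · refine (ae_restrict_iff' measurableSet_Icc).mpr (Filter.Eventually.of_forall fun t ht => ?_)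
    have h1 : 0 ≤ t - 1 := by linarith [ht.1]
    have h2 : 0 ≤ 2 - t := by linarith [ht.2]
    simp only [Pi.zero_apply]
    positivity

instance ring0_Pm_prob : IsProbabilityMeasure Pm := ⟨ring0_Pm_univ⟩

lemma ring0_Pm_supp : Pm (Icc (1 : ℝ) 2)ᶜ = 0 := by
  unfold Pm
  refine withDensity_absolutelyContinuous _ _ ?_
  rw [Measure.restrict_apply measurableSet_Icc.compl]
  simp

lemma ring0_pi_ae {n : ℕ} {μ : Measure ℝ} [IsProbabilityMeasure μ] {S : Set ℝ}
    (h : μ Sᶜ = 0) : ∀ᵐ a ∂(Measure.pi fun _ : Fin n => μ), ∀ i, a i ∈ S := by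
  rw [ae_all_iff]
  intro i
  have h1 : ∀ᵐ x ∂μ, x ∈ S := h
  exact (measurePreserving_eval (fun _ : Fin n => μ) i).quasiMeasurePreserving.ae h1

/-- Joint measurability of the smoothed image measure. -/
lemma ring0_en_meas {k : ℝ → ℝ} (hk : Continuous k) {n : ℕ} {G : ℝ → ℝ → ℝ}
    (hG : Measurable (Function.uncurry G)) (μ : Measure ℝ) [IsProbabilityMeasure μ] :
    Measurable fun p : (Fin n → ℝ) × ℝ => en k n G μ p.1 p.2 := by
  unfold en
  refine StronglyMeasurable.measurable ?_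
  refine StronglyMeasurable.integral_prod_right (ν := Measure.pi fun _ : Fin n => μ)
    (f := fun (p : (Fin n → ℝ) × ℝ) (a : Fin n → ℝ) => k (p.2 - ∑ i, G (p.1 i) (a i))) ?_
  refine Measurable.stronglyMeasurable ?_
  unfold Function.uncurry
  refine hk.measurable.comp ?_
  refine (measurable_snd.comp measurable_fst).sub (Finset.measurable_sum _ fun i _ => ?_)
  exact hG.comp (Measurable.prodMk
    ((measurable_pi_apply i).comp (measurable_fst.comp measurable_fst))
    ((measurable_pi_apply i).comp measurable_snd))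

lemma ring0_en_meas_right {k : ℝ → ℝ} (hk : Continuous k) {n : ℕ} {G : ℝ → ℝ → ℝ}
    (hG : Measurable (Function.uncurry G)) (μ : Measure ℝ) [IsProbabilityMeasure μ]
    (t : Fin n → ℝ) : Measurable fun u : ℝ => en k n G μ t u :=
  (ring0_en_meas hk hG μ (n := n)).comp (measurable_prodMk_left (x := t))

/-- The energy as a function of the shifts is measurable. -/
lemma ring0_energy_meas {k : ℝ → ℝ} (hk : Continuous k) {n : ℕ} {G : ℝ → ℝ → ℝ}
    (hG : Measurable (Function.uncurry G)) (μ : Measure ℝ) [IsProbabilityMeasure μ] :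
    Measurable fun t : Fin n → ℝ => ∫⁻ u : ℝ, ENNReal.ofReal ((en k n G μ t u) ^ 2) := by
  have h := ((ring0_en_meas hk hG μ (n := n)).pow_const 2).ennreal_ofReal
  exact h.lintegral_prod_right'

/-- Choice of the shifts: one `t` which is good at all scales. -/
lemma ring0_choose {n : ℕ} (f : ℕ → (Fin n → ℝ) → ℝ≥0∞) (hf : ∀ i, Measurable (f i))
    (J : ℕ) (a b q A : ℝ) (ha : 0 < a) (hb : 0 < b) (hq : b * q < 1) (hq0 : 0 ≤ q)
    (hab : a * b = 1) (hA : 0 ≤ A)
    (h : ∀ i < J, ∫⁻ t, f i t ∂(Measure.pi fun _ : Fin n => Pm) ≤ ENNReal.ofReal (A * q ^ i)) :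
    ∃ t : Fin n → ℝ, (∀ i, t i ∈ Icc (1 : ℝ) 2) ∧
      ∀ i < J, f i t ≤ ENNReal.ofReal (A / (1 - b * q) * a ^ i) := by
  set P : Measure (Fin n → ℝ) := Measure.pi fun _ : Fin n => Pm with hP
  have hS : Measurable fun t => ∑ i ∈ Finset.range J, ENNReal.ofReal (b ^ i) * f i t :=
    Finset.measurable_sum _ fun i _ => (hf i).const_mul _
  have hN : P {t | ¬ ∀ i, t i ∈ Icc (1 : ℝ) 2} = 0 := ring0_pi_ae ring0_Pm_supp
  obtain ⟨t, ht, hle⟩ := exists_notMem_null_le_lintegral (μ := P) hS.aemeasurable hN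
  have hbq : 0 ≤ b * q := mul_nonneg hb.le hq0
  have hsum : ∫⁻ t, ∑ i ∈ Finset.range J, ENNReal.ofReal (b ^ i) * f i t ∂P ≤
      ENNReal.ofReal (A / (1 - b * q)) := by
    rw [lintegral_finsetSum _ fun i _ => (hf i).const_mul _]
    calc ∑ i ∈ Finset.range J, ∫⁻ t, ENNReal.ofReal (b ^ i) * f i t ∂P
        ≤ ∑ i ∈ Finset.range J, ENNReal.ofReal (A * (b * q) ^ i) := by
          refine Finset.sum_le_sum fun i hi => ?_
          rw [lintegral_const_mul _ (hf i)]
          calc ENNReal.ofReal (b ^ i) * ∫⁻ t, f i t ∂P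
              ≤ ENNReal.ofReal (b ^ i) * ENNReal.ofReal (A * q ^ i) := by
                gcongr
                exact h i (Finset.mem_range.mp hi)
            _ = ENNReal.ofReal (A * (b * q) ^ i) := by
                rw [← ENNReal.ofReal_mul (by positivity)]
                congr 1
                rw [mul_pow]; ring
      _ = ENNReal.ofReal (∑ i ∈ Finset.range J, A * (b * q) ^ i) :=
          (ENNReal.ofReal_sum_of_nonneg fun i _ => by positivity).symm
      _ ≤ ENNReal.ofReal (A / (1 - b * q)) := by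
          refine ENNReal.ofReal_le_ofReal ?_
          rw [← Finset.mul_sum, div_eq_mul_inv]
          refine mul_le_mul_of_nonneg_left ?_ hA
          rw [← tsum_geometric_of_lt_one hbq hq]
          exact (summable_geometric_of_lt_one hbq hq).sum_le_tsum _ fun i _ => by positivity
  refine ⟨t, by simpa using ht, fun i hi => ?_⟩
  have h1 : ENNReal.ofReal (b ^ i) * f i t ≤ ENNReal.ofReal (A / (1 - b * q)) := by
    refine le_trans ?_ (hle.trans hsum)
    exact Finset.single_le_sum (f := fun i => ENNReal.ofReal (b ^ i) * f i t)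
      (fun _ _ => zero_le) (Finset.mem_range.mpr hi)
  calc f i t = ENNReal.ofReal (a ^ i) * (ENNReal.ofReal (b ^ i) * f i t) := by
        rw [← mul_assoc, ← ENNReal.ofReal_mul (by positivity), ← mul_pow, hab, one_pow,
          ENNReal.ofReal_one, one_mul]
    _ ≤ ENNReal.ofReal (a ^ i) * ENNReal.ofReal (A / (1 - b * q)) := by gcongr
    _ = _ := by
        rw [← ENNReal.ofReal_mul (by positivity), mul_comm]

lemma ring0_bound {f h : ℝ → ℝ} (hf : Measurable f) (hh : Measurable h) {l A B : ℝ} (hl : 0 < l)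
    (hA0 : 0 ≤ A) (hB0 : 0 ≤ B)
    (hA : ∫⁻ v, ENNReal.ofReal ((f v) ^ 2) ≤ ENNReal.ofReal A)
    (hB : ∫⁻ v, ENNReal.ofReal ((h v) ^ 2) ≤ ENNReal.ofReal B) (u : ℝ) :
    |∫ v, f v * h (u - v)| ≤ (l * A + B / l) / 2 := by
  have h1 : ∫⁻ v, ENNReal.ofReal ‖f v * h (u - v)‖ ≤ ENNReal.ofReal ((l * A + B / l) / 2) := by
    calc ∫⁻ v, ENNReal.ofReal ‖f v * h (u - v)‖
        ≤ ∫⁻ v, (ENNReal.ofReal (l / 2) * ENNReal.ofReal ((f v) ^ 2) +
            ENNReal.ofReal (1 / (2 * l)) * ENNReal.ofReal ((h (u - v)) ^ 2)) := by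
          refine lintegral_mono fun v => ?_
          rw [← ENNReal.ofReal_mul (by positivity), ← ENNReal.ofReal_mul (by positivity),
            ← ENNReal.ofReal_add (by positivity) (by positivity)]
          refine ENNReal.ofReal_le_ofReal ?_
          rw [Real.norm_eq_abs, abs_mul]
          have h2 : 0 ≤ (l * |f v| - |h (u - v)|) ^ 2 := sq_nonneg _
          have h3 : l / 2 * f v ^ 2 + 1 / (2 * l) * h (u - v) ^ 2 - |f v| * |h (u - v)| =
              1 / (2 * l) * (l * |f v| - |h (u - v)|) ^ 2 := by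
            rw [← sq_abs (f v), ← sq_abs (h (u - v))]
            field_simp
            ring
          have h4 : 0 ≤ 1 / (2 * l) * (l * |f v| - |h (u - v)|) ^ 2 := by positivity
          linarith
      _ = ENNReal.ofReal (l / 2) * (∫⁻ v, ENNReal.ofReal ((f v) ^ 2)) +
            ENNReal.ofReal (1 / (2 * l)) * ∫⁻ v, ENNReal.ofReal ((h (u - v)) ^ 2) := by
          rw [lintegral_add_left (by fun_prop), lintegral_const_mul _ (by fun_prop),
            lintegral_const_mul _ (by fun_prop)]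
      _ = ENNReal.ofReal (l / 2) * (∫⁻ v, ENNReal.ofReal ((f v) ^ 2)) +
            ENNReal.ofReal (1 / (2 * l)) * ∫⁻ v, ENNReal.ofReal ((h v) ^ 2) := by
          rw [lintegral_sub_left_eq_self (fun v => ENNReal.ofReal ((h v) ^ 2)) u]
      _ ≤ ENNReal.ofReal (l / 2) * ENNReal.ofReal A +
            ENNReal.ofReal (1 / (2 * l)) * ENNReal.ofReal B := by gcongr
      _ = _ := by
          rw [← ENNReal.ofReal_mul (by positivity), ← ENNReal.ofReal_mul (by positivity),
            ← ENNReal.ofReal_add (by positivity) (by positivity)]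
          congr 1
          field_simp
  have h2 := norm_integral_le_lintegral_norm (μ := volume) (fun v => f v * h (u - v))
  rw [Real.norm_eq_abs] at h2
  refine h2.trans ?_
  refine ENNReal.toReal_le_of_le_ofReal (by positivity) h1

lemma ring0_ker_int {k : ℝ → ℝ} {C : ℝ} (hk : Ker k C) : Integrable k := by
  refine hk.cont.integrable_of_hasCompactSupport ?_
  refine HasCompactSupport.intro (isCompact_Icc (a := (-1 : ℝ)) (b := 1)) fun x hx => ?_
  refine hk.supp x ?_
  by_contra hcon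
  push Not at hcon
  exact hx ⟨by linarith [(abs_lt.mp hcon).1], by linarith [(abs_lt.mp hcon).2]⟩

lemma ring0_sc_int {k : ℝ → ℝ} {C R : ℝ} (hk : Ker k C) (hR : 0 < R) :
    Integrable (sc R k) := by
  unfold sc
  exact ((ring0_ker_int hk).comp_mul_left' hR.ne').const_mul R

lemma ring0_sc_cont {k : ℝ → ℝ} {R : ℝ} (hk : Continuous k) : Continuous (sc R k) := by
  unfold sc; fun_prop

/-- Convolution of two smoothed laws. -/
lemma ring0_conv {Ω₁ Ω₂ : Type*} [MeasurableSpace Ω₁] [MeasurableSpace Ω₂]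
    (P₁ : Measure Ω₁) (P₂ : Measure Ω₂) [IsProbabilityMeasure P₁] [IsProbabilityMeasure P₂]
    {X₁ : Ω₁ → ℝ} {X₂ : Ω₂ → ℝ} (h₁ : Measurable X₁) (h₂ : Measurable X₂)
    {k₁ k₂ : ℝ → ℝ} (c₁ : Continuous k₁) (c₂ : Continuous k₂) (i₁ : Integrable k₁)
    {C : ℝ} (b₂ : ∀ x, |k₂ x| ≤ C) (u : ℝ) :
    ∫ v, (∫ ω, k₁ (v - X₁ ω) ∂P₁) * (∫ ω, k₂ (u - v - X₂ ω) ∂P₂) =
      ∫ ω : Ω₁ × Ω₂, (∫ y, k₁ y * k₂ (u - X₁ ω.1 - X₂ ω.2 - y)) ∂(P₁.prod P₂) := by
  have e1 : ∀ v, (∫ ω, k₁ (v - X₁ ω) ∂P₁) * (∫ ω, k₂ (u - v - X₂ ω) ∂P₂) =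
      ∫ ω : Ω₁ × Ω₂, k₁ (v - X₁ ω.1) * k₂ (u - v - X₂ ω.2) ∂(P₁.prod P₂) := fun v =>
    (integral_prod_mul (fun ω => k₁ (v - X₁ ω)) (fun ω => k₂ (u - v - X₂ ω))).symm
  simp_rw [e1]
  have hm : Measurable fun p : ℝ × (Ω₁ × Ω₂) => k₁ (p.1 - X₁ p.2.1) * k₂ (u - p.1 - X₂ p.2.2) := by
    have a1 := c₁.measurable
    have a2 := c₂.measurable
    fun_prop
  have hC : 0 ≤ C := (abs_nonneg _).trans (b₂ 0)
  have hint : Integrable (fun p : ℝ × (Ω₁ × Ω₂) => k₁ (p.1 - X₁ p.2.1) * k₂ (u - p.1 - X₂ p.2.2))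
      (volume.prod (P₁.prod P₂)) := by
    have hsl : ∀ ω : Ω₁ × Ω₂, Integrable fun v => k₁ (v - X₁ ω.1) * k₂ (u - v - X₂ ω.2) := by
      intro ω
      refine (i₁.comp_sub_right (X₁ ω.1)).mul_bdd (c := C) ?_ ?_
      · exact (c₂.comp (by fun_prop)).aestronglyMeasurable
      · exact Filter.Eventually.of_forall fun v => by rw [Real.norm_eq_abs]; exact b₂ _
    rw [integrable_prod_iff' hm.aestronglyMeasurable]
    refine ⟨Filter.Eventually.of_forall hsl, ?_⟩
    have hmm : StronglyMeasurable fun ω : Ω₁ × Ω₂ =>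
        ∫ v, ‖k₁ (v - X₁ ω.1) * k₂ (u - v - X₂ ω.2)‖ :=
      (hm.norm.comp measurable_swap).stronglyMeasurable.integral_prod_right'
    refine Integrable.mono' (integrable_const (C * ∫ x, ‖k₁ x‖)) hmm.aestronglyMeasurable ?_
    refine Filter.Eventually.of_forall fun ω => ?_
    rw [Real.norm_of_nonneg (integral_nonneg fun _ => norm_nonneg _)]
    calc ∫ v, ‖k₁ (v - X₁ ω.1) * k₂ (u - v - X₂ ω.2)‖
        ≤ ∫ v, C * ‖k₁ (v - X₁ ω.1)‖ := by
          refine integral_mono (hsl ω).norm ((i₁.comp_sub_right _).norm.const_mul C) fun v => ?_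
          simp only [norm_mul, Real.norm_eq_abs]
          rw [mul_comm]
          exact mul_le_mul_of_nonneg_right (b₂ _) (abs_nonneg _)
      _ = C * ∫ x, ‖k₁ x‖ := by
          rw [integral_const_mul, integral_sub_right_eq_self (fun x => ‖k₁ x‖) (X₁ ω.1)]
  rw [integral_integral_swap hint]
  refine integral_congr_ae (Filter.Eventually.of_forall fun ω => ?_)
  simp only
  rw [← integral_sub_right_eq_self (fun y => k₁ y * k₂ (u - X₁ ω.1 - X₂ ω.2 - y)) (X₁ ω.1)]
  refine integral_congr_ae (Filter.Eventually.of_forall fun v => ?_)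
  simp only
  congr 2
  ring

lemma ring0_ph_lower (hK : ClaimKer) (x : ℝ) (hx : |x| ≤ 1 / 4) : 1 / 4 ≤ ph x := by
  obtain ⟨⟨hc, h0, hs, h1, h2, -⟩, -⟩ := hK
  unfold ph
  have hint : Integrable th := by
    refine hc.integrable_of_hasCompactSupport ?_
    refine HasCompactSupport.intro (isCompact_Icc (a := (-(1 / 2) : ℝ)) (b := 1 / 2))
      fun x hx => ?_
    refine hs x ?_
    by_contra hcon
    push Not at hcon
    exact hx ⟨by linarith [(abs_lt.mp hcon).1], by linarith [(abs_lt.mp hcon).2]⟩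
  have hint2 : Integrable fun y => th y * th (x - y) := by
    refine hint.mul_bdd (c := 2) (hc.comp (by fun_prop)).aestronglyMeasurable ?_
    exact Filter.Eventually.of_forall fun v => by
      rw [Real.norm_eq_abs, abs_of_nonneg (h0 _)]; exact h2 _
  set S : Set ℝ := Icc (x / 2 - 1 / 8) (x / 2 + 1 / 8) with hS
  have hSm : MeasurableSet S := measurableSet_Icc
  have hb := abs_le.mp hx
  calc (1 / 4 : ℝ) = ∫ y, S.indicator (fun _ => (1 : ℝ)) y := by
        rw [integral_indicator hSm, setIntegral_const]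
        simp only [measureReal_def, hS, Real.volume_Icc, smul_eq_mul, mul_one]
        rw [ENNReal.toReal_ofReal (by linarith)]
        ring
    _ ≤ ∫ y, th y * th (x - y) := by
        refine integral_mono ?_ hint2 fun y => ?_
        · rw [integrable_indicator_iff hSm]
          exact integrableOn_const (by simp [hS])
        · by_cases hy : y ∈ S
          · rw [indicator_of_mem hy]
            have a1 : 1 ≤ th y := h1 y (abs_le.mpr ⟨by linarith [hy.1], by linarith [hy.2]⟩)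
            have a2 : 1 ≤ th (x - y) :=
              h1 _ (abs_le.mpr ⟨by linarith [hy.2], by linarith [hy.1]⟩)
            nlinarith
          · rw [indicator_of_notMem hy]
            exact mul_nonneg (h0 _) (h0 _)

/-- Some short interval has large mass. -/
lemma ring0_pigeon {Ω : Type*} [MeasurableSpace Ω] (P : Measure Ω) [IsProbabilityMeasure P]
    {X : Ω → ℝ} {L R : ℝ} (hL : 1 ≤ L) (hR : 1 ≤ R)
    (hX : ∀ᵐ ω ∂P, X ω ∈ Icc 0 L) :
    ∃ v0 : ℝ, 1 / (6 * L * R) ≤ P.real (X ⁻¹' Icc v0 (v0 + 1 / (4 * R))) := by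
  by_contra hcon
  push Not at hcon
  set N : ℕ := ⌊4 * R * L⌋₊ + 1 with hN
  have hLR : 1 ≤ L * R := by nlinarith
  have hN1 : (N : ℝ) ≤ 5 * L * R := by
    rw [hN]; push_cast
    have := Nat.floor_le (show 0 ≤ 4 * R * L by nlinarith)
    nlinarith
  have hcov : ∀ᵐ ω ∂P, ω ∈ ⋃ m ∈ Finset.range N,
      X ⁻¹' Icc ((m : ℝ) / (4 * R)) ((m : ℝ) / (4 * R) + 1 / (4 * R)) := by
    filter_upwards [hX] with ω hω
    have h0 : 0 ≤ 4 * R * X ω := by have := hω.1; positivity
    simp only [mem_iUnion]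
    refine ⟨⌊4 * R * X ω⌋₊, Finset.mem_range.mpr ?_, ?_, ?_⟩
    · rw [hN]
      refine Nat.lt_succ_of_le (Nat.floor_le_floor ?_)
      exact mul_le_mul_of_nonneg_left hω.2 (by linarith)
    · rw [div_le_iff₀ (by positivity)]
      have := Nat.floor_le h0
      linarith
    · rw [← add_div, le_div_iff₀ (by positivity)]
      have := (Nat.lt_floor_add_one (4 * R * X ω)).le
      linarith
  have h1 : P.real (⋃ m ∈ Finset.range N,
      X ⁻¹' Icc ((m : ℝ) / (4 * R)) ((m : ℝ) / (4 * R) + 1 / (4 * R))) = 1 := by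
    rw [measureReal_def]
    have : P (⋃ m ∈ Finset.range N,
      X ⁻¹' Icc ((m : ℝ) / (4 * R)) ((m : ℝ) / (4 * R) + 1 / (4 * R))) = 1 := by
      rw [← measure_univ (μ := P)]
      exact measure_congr (Filter.eventuallyEq_univ.mpr hcov)
    rw [this, ENNReal.toReal_one]
  have h2 := measureReal_biUnion_finset_le (μ := P) (Finset.range N) fun m : ℕ =>
    X ⁻¹' Icc ((m : ℝ) / (4 * R)) ((m : ℝ) / (4 * R) + 1 / (4 * R))
  rw [h1] at h2
  have h3 : ∑ m ∈ Finset.range N, P.real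
      (X ⁻¹' Icc ((m : ℝ) / (4 * R)) ((m : ℝ) / (4 * R) + 1 / (4 * R))) ≤
      N * (1 / (6 * L * R)) := by
    calc _ ≤ ∑ m ∈ Finset.range N, 1 / (6 * L * R) :=
          Finset.sum_le_sum fun m _ => (hcon _).le
      _ = _ := by rw [Finset.sum_const, Finset.card_range, nsmul_eq_mul]
  have h4 : (N : ℝ) * (1 / (6 * L * R)) ≤ 5 / 6 := by
    rw [mul_one_div, div_le_iff₀ (by positivity)]
    nlinarith
  linarith

lemma ring0_bounded {k : ℝ → ℝ} (hc : Continuous k) (hs : ∀ x, 1 ≤ |x| → k x = 0) :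
    ∃ C : ℝ, ∀ x, ‖k x‖ ≤ C := by
  refine HasCompactSupport.exists_bound_of_continuous ?_ hc
  refine HasCompactSupport.intro (isCompact_Icc (a := (-1 : ℝ)) (b := 1)) fun x hx => ?_
  refine hs x ?_
  by_contra hcon
  push Not at hcon
  exact hx ⟨by linarith [(abs_lt.mp hcon).1], by linarith [(abs_lt.mp hcon).2]⟩

lemma ring0_sc_integrable {Ω : Type*} [MeasurableSpace Ω] (P : Measure Ω)
    [IsProbabilityMeasure P] {X : Ω → ℝ} (hX : Measurable X) {k : ℝ → ℝ} (hc : Continuous k)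
    (hs : ∀ x, 1 ≤ |x| → k x = 0) (R u : ℝ) : Integrable (fun ω => sc R k (u - X ω)) P := by
  obtain ⟨C, hC⟩ := ring0_bounded hc hs
  refine Integrable.mono' (integrable_const (|R| * C)) ?_
    (Filter.Eventually.of_forall fun ω => ?_)
  · have h1 := hc.measurable
    unfold sc
    exact (Measurable.aestronglyMeasurable (by fun_prop))
  · unfold sc
    rw [norm_mul, Real.norm_eq_abs]
    exact mul_le_mul_of_nonneg_left (hC _) (abs_nonneg _)

/-- The smoothed law at the scale `1 / R`. -/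
noncomputable def FF (n : ℕ) (ρ : Measure ℝ) (t t' : Fin n → ℝ) (R u : ℝ) : ℝ :=
  ∫ ω : (Fin n → ℝ) × (Fin n → ℝ), sc R ph (u - ((∑ i, mulG (t i) (ω.1 i)) +
    ∑ i, mulG (t' i) (ω.2 i))) ∂((Measure.pi fun _ : Fin n => ρ).prod
      (Measure.pi fun _ : Fin n => ρ))

lemma ring0_meas_sum {n : ℕ} (t : Fin n → ℝ) : Measurable fun a : Fin n → ℝ =>
    ∑ i, mulG (t i) (a i) := by
  unfold mulG; fun_prop

lemma ring0_FF_sub (hK : ClaimKer) {n : ℕ} (ρ : Measure ℝ) [IsProbabilityMeasure ρ]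
    (t t' : Fin n → ℝ) {R C1 C2 : ℝ} (hR : 0 < R) (hk1 : Ker k1 C1) (hk2 : Ker k2 C2)
    (hpc : Continuous ph) (hps : ∀ x, 1 ≤ |x| → ph x = 0) (u : ℝ) :
    FF n ρ t t' (2 * R) u - FF n ρ t t' R u =
      ∫ v, en (sc R k1) n mulG ρ t v * en (sc R k2) n mulG ρ t' (u - v) := by
  have hcv := hK.2.2.2.2.2.2.2.2.2.2.2.2.1
  have hdf := hK.2.2.2.2.2.2.2.2.2.2.2.2.2.1
  have m₁ := ring0_meas_sum t
  have m₂ := ring0_meas_sum t'
  have mX : Measurable fun ω : (Fin n → ℝ) × (Fin n → ℝ) =>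
      (∑ i, mulG (t i) (ω.1 i)) + ∑ i, mulG (t' i) (ω.2 i) :=
    (m₁.comp measurable_fst).add (m₂.comp measurable_snd)
  have h1 := ring0_conv (Measure.pi fun _ : Fin n => ρ) (Measure.pi fun _ : Fin n => ρ) m₁ m₂
    (ring0_sc_cont hk1.cont) (ring0_sc_cont hk2.cont)
      (ring0_sc_int hk1 hR) (C := |R| * C2) (fun x => by
        unfold sc
        rw [abs_mul]
        exact mul_le_mul_of_nonneg_left (hk2.bdd _) (abs_nonneg _)) u
  unfold FF en
  rw [h1, ← integral_sub (ring0_sc_integrable _ mX hpc hps _ _)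
      (ring0_sc_integrable _ mX hpc hps _ _)]
  refine integral_congr_ae (Filter.Eventually.of_forall fun ω => ?_)
  simp only
  rw [← hdf R _ hR, hcv R _ hR]
  refine integral_congr_ae (Filter.Eventually.of_forall fun v => ?_)
  simp only
  congr 2
  ring

lemma ring0_step (hK : ClaimKer) {n : ℕ} (ρ : Measure ℝ) [IsProbabilityMeasure ρ]
    (t t' : Fin n → ℝ) {R l A B : ℝ} (hR : 0 < R) (hl : 0 < l) (hA0 : 0 ≤ A) (hB0 : 0 ≤ B)
    (hA : ∫⁻ v, ENNReal.ofReal ((en (sc R k1) n mulG ρ t v) ^ 2) ≤ ENNReal.ofReal A)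
    (hB : ∫⁻ v, ENNReal.ofReal ((en (sc R k2) n mulG ρ t' v) ^ 2) ≤ ENNReal.ofReal B) (u : ℝ) :
    |FF n ρ t t' (2 * R) u - FF n ρ t t' R u| ≤ (l * A + B / l) / 2 := by
  obtain ⟨-, ⟨C1, hk1⟩, -, ⟨C2, hk2⟩, -, -, -, ⟨hpc, hp0, hps, -⟩, -⟩ := id hK
  have hG : Measurable (Function.uncurry mulG) := by unfold Function.uncurry mulG; fun_prop
  rw [ring0_FF_sub hK ρ t t' hR hk1 hk2 hpc hps u]
  have hf : Measurable fun v => en (sc R k1) n mulG ρ t v :=
    ring0_en_meas_right (ring0_sc_cont hk1.cont) hG ρ t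
  have hh : Measurable fun v => en (sc R k2) n mulG ρ t' v :=
    ring0_en_meas_right (ring0_sc_cont hk2.cont) hG ρ t'
  exact ring0_bound hf hh hl hA0 hB0 hA hB u

/-- D10. A sum of random dilates of a non concentrated set covers an interval. -/
theorem claimRing0 (hSM : ClaimSM) (hG : ClaimGood) (hK : ClaimKer) : ClaimRing0 := by
  intro σ B hσ hB
  obtain ⟨n, hn⟩ : ∃ n : ℕ, 2 / σ < n := exists_nat_gt _
  have hn2 : 2 < n * σ := by rwa [div_lt_iff₀ hσ] at hn
  have hn0 : (0 : ℝ) < n := lt_trans (by positivity) hn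
  have hn1 : 1 ≤ n := by exact_mod_cast (Nat.cast_pos.mp hn0)
  have hn1' : (1 : ℝ) ≤ n := by exact_mod_cast hn1
  obtain ⟨-, ⟨c1, hk1⟩, hk10, ⟨c2, hk2⟩, -, -, -, ⟨hpc, hp0, hps, -⟩, -⟩ := id hK
  have hGG := hG.2 B (by linarith)
  obtain ⟨C1, hC1, h1⟩ := hSM k1 c1 B mulG n σ hk1 hGG hn1 hσ
  obtain ⟨C2, hC2, h2⟩ := hSM k2 c2 B mulG n σ hk2 hGG hn1 hσ
  set Cs : ℝ := max C1 C2 with hCs
  have hCs1 : 1 ≤ Cs := hC1.trans (le_max_left _ _)
  set L : ℝ := 4 * n * B with hL
  have hL1 : 1 ≤ L := by nlinarith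
  set c0 : ℝ := 1 / (24 * L) with hc0
  have hc00 : 0 < c0 := by positivity
  -- the constant in front of `K ^ n` in the energy bounds
  set Q0 : ℝ := 60 * Cs / c0 with hQ0
  have hQ01 : 1 ≤ Q0 := by
    rw [hQ0, le_div_iff₀ hc00, one_mul, hc0, div_le_iff₀ (by positivity)]
    nlinarith
  set C : ℝ := 4 * (2 * Q0) ^ 7 with hC
  have hC1' : 4 ≤ C := by
    have : (1 : ℝ) ≤ (2 * Q0) ^ 7 := one_le_pow₀ (by linarith)
    linarith
  refine ⟨n + n, C, 7 * n, by omega, by linarith, ?_⟩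
  intro K δ ρ D hK1 hδ hCK hprob hsupp hD hFro
  have hK0 : (0 : ℝ) < K := by linarith
  have hKn : (1 : ℝ) ≤ K ^ n := one_le_pow₀ hK1
  -- scales
  have hKp : (1 : ℝ) ≤ K ^ (7 * n) := one_le_pow₀ hK1
  have hδ1 : C * K ^ (7 * n) ≤ 1 / δ := by rwa [le_div_iff₀ hδ]
  obtain ⟨J, hJ1, hJ2⟩ := exists_nat_pow_near (show (1 : ℝ) ≤ 1 / δ by nlinarith)
    (show (1 : ℝ) < 2 by norm_num)
  have hQK : 1 ≤ Q0 * K ^ n := by nlinarith
  obtain ⟨m, hm1, hm2⟩ := exists_nat_pow_near hQK (show (1 : ℝ) < 2 by norm_num)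
  set j1 : ℕ := 7 * (m + 1) with hj1
  have hR1 : (2 : ℝ) ^ j1 ≤ (2 * Q0) ^ 7 * K ^ (7 * n) := by
    calc (2 : ℝ) ^ j1 = (2 ^ (m + 1)) ^ 7 := by rw [hj1, ← pow_mul, mul_comm]
      _ ≤ (2 * (Q0 * K ^ n)) ^ 7 := by
          refine pow_le_pow_left₀ (by positivity) ?_ 7
          rw [pow_succ]; linarith
      _ = _ := by rw [← mul_assoc, mul_pow (2 * Q0) (K ^ n) 7, ← pow_mul, mul_comm n 7]
  have h4R : 4 * (2 : ℝ) ^ j1 ≤ C * K ^ (7 * n) := by rw [hC]; linarith
  have hjJ : j1 ≤ J := by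
    have : (2 : ℝ) ^ j1 < 2 ^ (J + 1) := by
      have : (0 : ℝ) < 2 ^ j1 := by positivity
      linarith
    have := (pow_lt_pow_iff_right₀ (show (1 : ℝ) < 2 by norm_num)).mp this
    omega
  -- energies
  set M : ℝ := 5 * Cs * K ^ n with hM
  have hM0 : 0 < M := by positivity
  have hGm : Measurable (Function.uncurry mulG) := hGG.meas
  have hsc : ∀ i < J, (1 : ℝ) ≤ 2 ^ i ∧ Fro ρ K σ (1 / 2 ^ i) := by
    intro i hi
    refine ⟨one_le_pow₀ (by norm_num), hFro.mono le_rfl ?_ (by positivity)⟩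
    rw [le_div_iff₀ (by positivity), mul_comm, ← le_div_iff₀ hδ]
    exact (pow_le_pow_right₀ (by norm_num) hi.le).trans hJ1
  obtain ⟨t, ht, hte⟩ := ring0_choose (n := n)
    (fun i t => ∫⁻ u : ℝ, ENNReal.ofReal ((en (sc (2 ^ i) k1) n mulG ρ t u) ^ 2))
    (fun i => ring0_energy_meas (ring0_sc_cont hk1.cont) hGm ρ) J (16 / 25) (25 / 16) (1 / 2)
    (Cs * K ^ n) (by norm_num) (by norm_num) (by norm_num) (by norm_num) (by norm_num)
    (by positivity) (fun i hi => by
      obtain ⟨a1, a2⟩ := hsc i hi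
      have := (h1 K (2 ^ i) ρ hK1 a1 hprob hsupp a2).2.1 hn2 hk10
      unfold EN at this
      refine this.trans (ENNReal.ofReal_le_ofReal ?_)
      rw [Real.rpow_neg_one, one_div, inv_pow]
      have := le_max_left C1 C2
      gcongr)
  obtain ⟨t', ht', hte'⟩ := ring0_choose (n := n)
    (fun i t => ∫⁻ u : ℝ, ENNReal.ofReal ((en (sc (2 ^ i) k2) n mulG ρ t u) ^ 2))
    (fun i => ring0_energy_meas (ring0_sc_cont hk2.cont) hGm ρ) J (81 / 64) (64 / 81) 1
    (Cs * K ^ n) (by norm_num) (by norm_num) (by norm_num) (by norm_num) (by norm_num)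
    (by positivity) (fun i hi => by
      obtain ⟨a1, a2⟩ := hsc i hi
      have := (h2 K (2 ^ i) ρ hK1 a1 hprob hsupp a2).2.2 (by linarith)
      unfold EN at this
      refine this.trans (ENNReal.ofReal_le_ofReal ?_)
      rw [one_pow, mul_one]
      have := le_max_right C1 C2
      gcongr)
  -- differences of consecutive scales
  have hstep : ∀ i < J, ∀ u, |FF n ρ t t' (2 * 2 ^ i) u - FF n ρ t t' (2 ^ i) u| ≤
      M * (9 / 10) ^ i := by
    intro i hi u
    have a1 : ∫⁻ v, ENNReal.ofReal ((en (sc (2 ^ i) k1) n mulG ρ t v) ^ 2) ≤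
        ENNReal.ofReal (M * (16 / 25) ^ i) := by
      refine (hte i hi).trans (ENNReal.ofReal_le_ofReal ?_)
      refine mul_le_mul_of_nonneg_right ?_ (by positivity)
      rw [hM, div_le_iff₀ (by norm_num)]
      nlinarith [mul_pos (show (0 : ℝ) < Cs by linarith) (show (0 : ℝ) < K ^ n by positivity)]
    have a2 : ∫⁻ v, ENNReal.ofReal ((en (sc (2 ^ i) k2) n mulG ρ t' v) ^ 2) ≤
        ENNReal.ofReal (M * (81 / 64) ^ i) := by
      refine (hte' i hi).trans (ENNReal.ofReal_le_ofReal ?_)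
      refine mul_le_mul_of_nonneg_right ?_ (by positivity)
      rw [hM, div_le_iff₀ (by norm_num)]
      nlinarith [mul_pos (show (0 : ℝ) < Cs by linarith) (show (0 : ℝ) < K ^ n by positivity)]
    refine (ring0_step hK ρ t t' (by positivity) (l := (45 / 32) ^ i) (by positivity)
      (by positivity) (by positivity) a1 a2 u).trans (le_of_eq ?_)
    have b1 : (45 / 32 : ℝ) ^ i * (M * (16 / 25) ^ i) = M * (9 / 10) ^ i := by
      rw [mul_left_comm, ← mul_pow]; norm_num
    have b2 : M * (81 / 64 : ℝ) ^ i / (45 / 32) ^ i = M * (9 / 10) ^ i := by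
      rw [mul_div_assoc, ← div_pow]; norm_num
    rw [b1, b2]; ring
  have htel : ∀ d : ℕ, j1 + d ≤ J → ∀ u, FF n ρ t t' (2 ^ j1) u - FF n ρ t t' (2 ^ (j1 + d)) u ≤
      10 * M * (9 / 10) ^ j1 * (1 - (9 / 10) ^ d) := by
    intro d
    induction d with
    | zero => intro _ u; simp
    | succ d ih =>
      intro hd u
      have a1 := ih (by omega) u
      have a2 := (abs_le.mp (hstep (j1 + d) (by omega) u)).1
      rw [show (2 : ℝ) * 2 ^ (j1 + d) = 2 ^ (j1 + (d + 1)) by rw [← pow_succ']; congr 1] at a2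
      rw [pow_add] at a2
      have : 10 * M * (9 / 10) ^ j1 * (1 - (9 / 10 : ℝ) ^ (d + 1)) =
          10 * M * (9 / 10) ^ j1 * (1 - (9 / 10) ^ d) + M * ((9 / 10) ^ j1 * (9 / 10) ^ d) := by
        rw [pow_succ]; ring
      rw [this]
      linarith
  -- large mass in a short interval
  set Pn := (Measure.pi fun _ : Fin n => ρ) with hPn
  set X : (Fin n → ℝ) × (Fin n → ℝ) → ℝ := fun ω => (∑ i, mulG (t i) (ω.1 i)) +
    ∑ i, mulG (t' i) (ω.2 i) with hX
  have mX : Measurable X := by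
    have m₁ := ring0_meas_sum t
    have m₂ := ring0_meas_sum t'
    rw [hX]; fun_prop
  have hae : ∀ {S : Set ℝ}, ρ Sᶜ = 0 → ∀ᵐ ω ∂(Pn.prod Pn),
      (∀ i, ω.1 i ∈ S) ∧ ∀ i, ω.2 i ∈ S := by
    intro S hS
    have h := ring0_pi_ae (n := n) hS
    exact (Measure.quasiMeasurePreserving_fst.ae h).and (Measure.quasiMeasurePreserving_snd.ae h)
  have hXL : ∀ᵐ ω ∂(Pn.prod Pn), X ω ∈ Icc 0 L := by
    filter_upwards [hae hsupp] with ω hω
    have hterm : ∀ (s : Fin n → ℝ) (a : Fin n → ℝ), (∀ i, s i ∈ Icc (1 : ℝ) 2) →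
        (∀ i, a i ∈ Icc 0 B) → 0 ≤ ∑ i, mulG (s i) (a i) ∧
          ∑ i, mulG (s i) (a i) ≤ 2 * n * B := by
      intro s a hs ha
      refine ⟨Finset.sum_nonneg fun i _ => mul_nonneg (by linarith [(hs i).1]) (ha i).1, ?_⟩
      calc ∑ i, mulG (s i) (a i) ≤ ∑ _i : Fin n, 2 * B := by
            refine Finset.sum_le_sum fun i _ => ?_
            exact mul_le_mul (hs i).2 (ha i).2 (ha i).1 (by norm_num)
        _ = 2 * n * B := by simp; ring
    obtain ⟨a1, a2⟩ := hterm t ω.1 ht hω.1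
    obtain ⟨a3, a4⟩ := hterm t' ω.2 ht' hω.2
    exact ⟨add_nonneg a1 a3, by rw [hX, hL]; simp only; linarith⟩
  obtain ⟨v0, hv0⟩ := ring0_pigeon (Pn.prod Pn) hL1
    (show (1 : ℝ) ≤ 2 ^ j1 from one_le_pow₀ (by norm_num)) hXL
  -- positivity of the smoothed law at the first scale
  have hlow : ∀ v ∈ Icc v0 (v0 + 1 / (4 * 2 ^ j1)), c0 ≤ FF n ρ t t' (2 ^ j1) v := by
    intro v hv
    set S := X ⁻¹' Icc v0 (v0 + 1 / (4 * 2 ^ j1)) with hS
    have hSm : MeasurableSet S := mX measurableSet_Icc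
    have hR0 : (0 : ℝ) < 2 ^ j1 := by positivity
    calc c0 ≤ ∫ ω, S.indicator (fun _ => (2 : ℝ) ^ j1 * (1 / 4)) ω ∂(Pn.prod Pn) := by
          rw [integral_indicator hSm, setIntegral_const, smul_eq_mul]
          refine le_trans (le_of_eq ?_) (mul_le_mul_of_nonneg_right hv0 (by positivity))
          rw [hc0]
          field_simp
          norm_num
      _ ≤ FF n ρ t t' (2 ^ j1) v := by
          refine integral_mono ?_ (ring0_sc_integrable _ mX hpc hps _ _) fun ω => ?_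
          · rw [integrable_indicator_iff hSm]
            exact integrableOn_const (measure_ne_top _ _)
          · by_cases hω : ω ∈ S
            · rw [indicator_of_mem hω]
              refine mul_le_mul_of_nonneg_left (ring0_ph_lower hK _ ?_) hR0.le
              rw [abs_mul, abs_of_pos hR0, mul_comm, ← le_div_iff₀ hR0, div_div]
              have b1 := (show X ω ∈ Icc v0 (v0 + 1 / (4 * 2 ^ j1)) from hω)
              exact abs_le.mpr ⟨by linarith [hv.1, b1.2], by linarith [hv.2, b1.1]⟩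
            · rw [indicator_of_notMem hω]
              exact mul_nonneg hR0.le (hp0 _)
  -- positivity at the last scale
  have hsmall : 10 * M * (9 / 10) ^ j1 < c0 := by
    have a1 : (9 / 10 : ℝ) ^ j1 ≤ (1 / 2) ^ (m + 1) := by
      rw [hj1, pow_mul]
      exact pow_le_pow_left₀ (by positivity) (by norm_num) _
    have a2 : Q0 * K ^ n * (1 / 2) ^ (m + 1) < 1 := by
      rw [one_div, inv_pow, ← div_eq_mul_inv, div_lt_one (by positivity)]
      exact hm2
    have a3 : 10 * M = 50 / 60 * c0 * (Q0 * K ^ n) := by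
      rw [hM, hQ0]; field_simp; ring
    calc 10 * M * (9 / 10) ^ j1 ≤ 10 * M * (1 / 2) ^ (m + 1) := by gcongr
      _ = 50 / 60 * c0 * (Q0 * K ^ n * (1 / 2) ^ (m + 1)) := by rw [a3]; ring
      _ < c0 := by nlinarith
  have hpos : ∀ v ∈ Icc v0 (v0 + 1 / (4 * 2 ^ j1)), 0 < FF n ρ t t' (2 ^ J) v := by
    intro v hv
    have a1 := htel (J - j1) (by omega) v
    rw [show j1 + (J - j1) = J by omega] at a1
    have a2 := hlow v hv
    have a3 : 10 * M * (9 / 10) ^ j1 * (1 - (9 / 10 : ℝ) ^ (J - j1)) ≤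
        10 * M * (9 / 10) ^ j1 := by
      have : (0 : ℝ) < (9 / 10) ^ (J - j1) := by positivity
      have : (0 : ℝ) < 10 * M * (9 / 10) ^ j1 := by positivity
      nlinarith
    linarith
  refine ⟨Fin.append t t', v0, ?_, ?_⟩
  · intro i
    refine Fin.addCases (fun i => ?_) (fun i => ?_) i
    · rw [Fin.append_left]; exact ht i
    · rw [Fin.append_right]; exact ht' i
  · intro v hv
    have hv' : v ∈ Icc v0 (v0 + 1 / (4 * 2 ^ j1)) := by
      refine ⟨hv.1, hv.2.trans ?_⟩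
      gcongr
    have h3 := hpos v hv'
    obtain ⟨ω, hω1, hω2⟩ : ∃ ω : (Fin n → ℝ) × (Fin n → ℝ),
        ((∀ i, ω.1 i ∈ (↑D : Set ℝ)) ∧ ∀ i, ω.2 i ∈ (↑D : Set ℝ)) ∧
          sc (2 ^ J) ph (v - X ω) ≠ 0 := by
      by_contra hcon
      push Not at hcon
      have : FF n ρ t t' (2 ^ J) v = 0 := by
        refine integral_eq_zero_of_ae ?_
        filter_upwards [hae hD] with ω hω
        exact hcon ω hω
      linarith
    refine ⟨Fin.append ω.1 ω.2, ?_, ?_⟩
    · intro i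
      refine Fin.addCases (fun i => ?_) (fun i => ?_) i
      · rw [Fin.append_left]; exact hω1.1 i
      · rw [Fin.append_right]; exact hω1.2 i
    · have hR0 : (0 : ℝ) < 2 ^ J := by positivity
      have e : ∑ i, Fin.append t t' i * Fin.append ω.1 ω.2 i = X ω := by
        rw [Fin.sum_univ_add]
        simp only [Fin.append_left, Fin.append_right]
        rfl
      rw [e, abs_sub_comm]
      have h5 : |2 ^ J * (v - X ω)| < 1 := by
        by_contra hcon
        push Not at hcon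
        apply hω2
        unfold sc
        rw [hps _ hcon, mul_zero]
      rw [abs_mul, abs_of_pos hR0] at h5
      have h6 : |v - X ω| < 1 / 2 ^ J := by rwa [lt_div_iff₀ hR0, mul_comm]
      have h7 : 1 / 2 ^ J ≤ 2 * δ := by
        rw [div_le_iff₀ hR0]
        rw [pow_succ, div_lt_iff₀ hδ] at hJ2
        linarith
      nlinarith

end Pool.Agent.Work.MP_1151e3_an
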