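import Pool.Agent.Work.MP_1151e3_an.Basic
import Pool.Agent.Work.MP_1151e3_an.Claims

set_option autoImplicit false

namespace Pool.Agent.Work.MP_1151e3_an

open MeasureTheory Set

/-! ### Elementary facts on `RD` -/

lemma ring1_one_mem (D : Set ℝ) (m : ℕ) : (1 : ℝ) ∈ RD D m := by
  induction m with
  | zero => exact Or.inr (Or.inl rfl)
  | succ m ih => exact ⟨1, ih, 1, ih, Or.inr (Or.inr (by norm_num))⟩

lemma ring1_zero_mem (D : Set ℝ) (m : ℕ) : (0 : ℝ) ∈ RD D m := by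
  induction m with
  | zero => exact Or.inl rfl
  | succ m ih => exact ⟨0, ih, 0, ih, Or.inl (by norm_num)⟩

lemma ring1_succ (D : Set ℝ) (m : ℕ) : RD D m ⊆ RD D (m + 1) := fun x hx =>
  ⟨x, hx, 1, ring1_one_mem D m, Or.inr (Or.inr (by ring))⟩

lemma ring1_mono (D : Set ℝ) {m n : ℕ} (h : m ≤ n) : RD D m ⊆ RD D n := by
  induction n, h using Nat.le_induction with
  | base => exact fun _ hx => hx
  | succ n _ ih => exact fun x hx => ring1_succ D n (ih hx)

lemma ring1_sub (D : Set ℝ) (m : ℕ) {x y : ℝ} (hx : x ∈ RD D m) (hy : y ∈ RD D m) :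
    x - y ∈ RD D (m + 1) := ⟨x, hx, y, hy, Or.inr (Or.inl rfl)⟩

lemma ring1_add (D : Set ℝ) (m : ℕ) {x y : ℝ} (hx : x ∈ RD D m) (hy : y ∈ RD D m) :
    x + y ∈ RD D (m + 1) := ⟨x, hx, y, hy, Or.inl rfl⟩

lemma ring1_mul (D : Set ℝ) (m : ℕ) {x y : ℝ} (hx : x ∈ RD D m) (hy : y ∈ RD D m) :
    x * y ∈ RD D (m + 1) := ⟨x, hx, y, hy, Or.inr (Or.inr rfl)⟩

/-- Bounds for the elements of `RD`. -/
noncomputable def ring1Bd (B : ℝ) : ℕ → ℝ
  | 0 => B
  | (m + 1) => 2 * (ring1Bd B m) ^ 2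

lemma ring1Bd_one_le {B : ℝ} (hB : 1 ≤ B) (m : ℕ) : 1 ≤ ring1Bd B m := by
  induction m with
  | zero => exact hB
  | succ m ih => simp only [ring1Bd]; nlinarith

lemma ring1_bd {B : ℝ} (hB : 1 ≤ B) {D : Set ℝ} (hD : D ⊆ Icc (-B) B) (m : ℕ) :
    ∀ x ∈ RD D m, |x| ≤ ring1Bd B m := by
  induction m with
  | zero =>
    rintro x (rfl | rfl | hx)
    · simp only [ring1Bd, abs_zero]; linarith
    · simp only [ring1Bd, abs_one]; linarith
    · exact abs_le.mpr (hD hx)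
  | succ m ih =>
    rintro z ⟨x, hx, y, hy, h⟩
    have h1 := ih x hx
    have h2 := ih y hy
    have hb := ring1Bd_one_le hB m
    simp only [ring1Bd]
    rcases h with rfl | rfl | rfl
    · calc |x + y| ≤ |x| + |y| := abs_add_le x y
        _ ≤ 2 * (ring1Bd B m) ^ 2 := by nlinarith
    · calc |x - y| ≤ |x| + |y| := abs_sub x y
        _ ≤ 2 * (ring1Bd B m) ^ 2 := by nlinarith
    · rw [abs_mul]
      nlinarith [abs_nonneg x, abs_nonneg y]

/-- `k` summands are dense in an interval. -/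
def ring1Dk (D : Set ℝ) (k m : ℕ) (d l : ℝ) : Prop :=
  ∃ (t : Fin k → ℝ) (v0 : ℝ), (∀ i, t i ∈ Icc (1 : ℝ) 2) ∧
    ∀ v ∈ Icc v0 (v0 + l), ∃ x : Fin k → ℝ, (∀ i, x i ∈ RD D m) ∧ |∑ i, t i * x i - v| ≤ d

/-- Density of `RD D m` in `[0,l]`. -/
def ring1D1 (D : Set ℝ) (m : ℕ) (r l : ℝ) : Prop := ∀ v ∈ Icc 0 l, ∃ z ∈ RD D m, |z - v| ≤ r

lemma ring1D1.mono {D : Set ℝ} {m m' : ℕ} {r r' l l' : ℝ} (h : ring1D1 D m r l) (hm : m ≤ m')
    (hr : r ≤ r') (hl : l' ≤ l) : ring1D1 D m' r' l' := by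
  intro v hv
  obtain ⟨z, hz, hz'⟩ := h v ⟨hv.1, hv.2.trans hl⟩
  exact ⟨z, ring1_mono D hm hz, hz'.trans hr⟩

lemma ring1Dk.mono {D : Set ℝ} {k m m' : ℕ} {r r' l l' : ℝ} (h : ring1Dk D k m r l) (hm : m ≤ m')
    (hr : r ≤ r') (hl : l' ≤ l) : ring1Dk D k m' r' l' := by
  obtain ⟨t, v0, ht, h⟩ := h
  refine ⟨t, v0, ht, fun v hv => ?_⟩
  obtain ⟨x, hx, hx'⟩ := h v ⟨hv.1, by linarith [hv.2]⟩
  exact ⟨x, fun i => ring1_mono D hm (hx i), hx'.trans hr⟩

/-- The base case. -/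
lemma ring1_base {D : Set ℝ} {m : ℕ} {d l : ℝ} (hd : 0 ≤ d) (hl : 0 ≤ l)
    (h : ring1Dk D 1 m d l) : ring1D1 D (m + 1) (2 * d) (l / 2) := by
  obtain ⟨t, v0, ht, h⟩ := h
  have ht0 := ht 0
  intro w hw
  obtain ⟨x, hx, hx'⟩ := h (v0 + t 0 * w) ⟨by nlinarith [ht0.1, hw.1], by nlinarith [ht0.2, hw.1, hw.2]⟩
  obtain ⟨y, hy, hy'⟩ := h v0 ⟨le_rfl, by linarith⟩
  refine ⟨x 0 - y 0, ring1_sub D m (hx 0) (hy 0), ?_⟩
  simp only [Fin.sum_univ_one] at hx' hy'
  have h1 : |t 0 * (x 0 - y 0 - w)| ≤ 2 * d := by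
    have : t 0 * (x 0 - y 0 - w) = (t 0 * x 0 - (v0 + t 0 * w)) - (t 0 * y 0 - v0) := by ring
    rw [this]
    calc _ ≤ |t 0 * x 0 - (v0 + t 0 * w)| + |t 0 * y 0 - v0| := abs_sub _ _
      _ ≤ 2 * d := by linarith
  rw [abs_mul, abs_of_nonneg (by linarith [ht0.1] : (0:ℝ) ≤ t 0)] at h1
  nlinarith [ht0.1, abs_nonneg (x 0 - y 0 - w)]

/-- Chains are dense. -/
lemma ring1_chain {D : Set ℝ} {m N : ℕ} {ρ l : ℝ} (hρ : 0 < ρ) (x : ℕ → ℝ)
    (hx : ∀ i, i ≤ N → x i ∈ RD D m) (hg : ∀ i, i < N → |x (i + 1) - x i| < ρ)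
    (hN : l ≤ |x N - x 0|) : ring1D1 D (m + 1) ρ l := by
  -- general discrete intermediate value statement
  have key : ∀ (y : ℕ → ℝ) (N : ℕ), y 0 = 0 → (∀ i, i < N → |y (i + 1) - y i| < ρ) →
      ∀ v, 0 ≤ v → v ≤ y N → ∃ i, i ≤ N ∧ |y i - v| ≤ ρ := by
    intro y N
    induction N with
    | zero =>
      intro h0 _ v hv hv'
      refine ⟨0, le_rfl, ?_⟩
      rw [h0] at hv' ⊢
      have : v = 0 := le_antisymm hv' hv
      subst this
      simpa using hρ.le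
    | succ N ih =>
      intro h0 hg v hv hv'
      by_cases hc : v ≤ y N
      · obtain ⟨i, hi, hi'⟩ := ih h0 (fun i hi => hg i (by omega)) v hv hc
        exact ⟨i, by omega, hi'⟩
      · refine ⟨N + 1, le_rfl, ?_⟩
        have := hg N (by omega)
        rw [abs_lt] at this
        rw [abs_le]
        push Not at hc
        constructor <;> linarith [this.1, this.2]
  intro v hv
  rcases le_total 0 (x N - x 0) with hs | hs
  · rw [abs_of_nonneg hs] at hN
    obtain ⟨i, hi, hi'⟩ := key (fun i => x i - x 0) N (by simp)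
      (fun i hi => by simpa using hg i hi) v hv.1 (by simpa using hv.2.trans hN)
    exact ⟨x i - x 0, ring1_sub D m (hx i hi) (hx 0 (by omega)), hi'⟩
  · rw [abs_of_nonpos hs] at hN
    obtain ⟨i, hi, hi'⟩ := key (fun i => x 0 - x i) N (by simp)
      (fun i hi => by
        have := hg i hi
        rw [abs_sub_comm] at this
        simpa using this) v hv.1 (by
          have := hv.2.trans hN
          linarith)
    exact ⟨x 0 - x i, ring1_sub D m (hx 0 (by omega)) (hx i hi), hi'⟩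

/-- The squaring step. -/
lemma ring1_square {D : Set ℝ} {m : ℕ} {r l : ℝ} (hr : 0 < r) (hl : 0 < l) (hl1 : l ≤ 1)
    (hrl : 3 * r ≤ l ^ 2) (h : ring1D1 D m r l) : ring1D1 D (m + 2) (4 * r ^ 2 / l) l := by
  have h3 : 3 * r / l ∈ Icc (0 : ℝ) l := by
    refine ⟨by positivity, ?_⟩
    rw [div_le_iff₀ hl]; nlinarith
  obtain ⟨z, hz, hz'⟩ := h _ h3
  rw [abs_le] at hz'
  have hrl' : r ≤ r / l := by
    rw [le_div_iff₀ hl]; nlinarith
  have e3 : 3 * r / l = 3 * (r / l) := by ring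
  rw [e3] at hz'
  have hz1 : 2 * (r / l) ≤ z := by linarith [hz'.1]
  have hz2 : z ≤ 4 * (r / l) := by linarith [hz'.2]
  have hrl0 : 0 < r / l := by positivity
  have hz0 : 0 < z := by linarith
  intro v hv
  obtain ⟨x, hx, hx1, hx2⟩ : ∃ x ∈ RD D m, 0 ≤ v - x ∧ v - x ≤ 2 * r := by
    rcases le_total r v with hrv | hrv
    · obtain ⟨x, hx, hx'⟩ := h (v - r) ⟨by linarith, by linarith [hv.2]⟩
      rw [abs_le] at hx'
      exact ⟨x, hx, by linarith [hx'.2], by linarith [hx'.1]⟩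
    · exact ⟨0, ring1_zero_mem D m, by linarith [hv.1], by linarith⟩
  obtain ⟨y, hy, hy'⟩ := h ((v - x) / z) ⟨by positivity, by
    rw [div_le_iff₀ hz0]
    have : l * (r / l) = r := by field_simp
    nlinarith⟩
  refine ⟨x + z * y, ring1_add D (m + 1) (ring1_succ D m hx) (ring1_mul D m hz hy), ?_⟩
  have e1 : x + z * y - v = z * (y - (v - x) / z) := by field_simp; ring
  rw [e1, abs_mul, abs_of_pos hz0]
  have e2 : 4 * r ^ 2 / l = 4 * (r / l) * r := by ring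
  rw [e2]
  exact mul_le_mul hz2 hy' (abs_nonneg _) (by positivity)

/-- Iterated squaring. -/
lemma ring1_iter {D : Set ℝ} {m : ℕ} {q l : ℝ} (hq : 0 < q) (hq1 : q ≤ 1) (hl : 0 < l)
    (hl1 : l ≤ 1) (hql : 3 * q ≤ 4 * l) (h : ring1D1 D m (l * q / 4) l) (J : ℕ) :
    ring1D1 D (m + 2 * J) (l * q ^ (2 ^ J) / 4) l := by
  induction J with
  | zero => simpa using h
  | succ J ih =>
    have hqJ : 0 < q ^ (2 ^ J) := by positivity
    have hqJ1 : q ^ (2 ^ J) ≤ q := by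
      calc q ^ (2 ^ J) ≤ q ^ 1 := pow_le_pow_of_le_one hq.le hq1 (Nat.one_le_two_pow)
        _ = q := pow_one q
    have := ring1_square (r := l * q ^ (2 ^ J) / 4) (by positivity) hl hl1 (by nlinarith) ih
    have e1 : 4 * (l * q ^ (2 ^ J) / 4) ^ 2 / l = l * q ^ (2 ^ (J + 1)) / 4 := by
      rw [pow_succ 2 J, pow_mul q]
      field_simp
    rw [e1] at this
    exact this

/-- The descent step. -/
lemma ring1_step {B : ℝ} (hB : 1 ≤ B) {D : Set ℝ} (hD : D ⊆ Icc (-B) B) {k m : ℕ} {d l ρ : ℝ}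
    (hd : 0 < d) (hl : 0 ≤ l) (hρ : 0 < ρ) (h : ring1Dk D (k + 1) m d l) :
    ring1Dk D k (m + 3) ((ring1Bd B (m + 1) + 3 * ring1Bd B m) * d) (ρ * l) ∨
    ring1D1 D (m + 1) ρ ((l - 3 * d) / (2 * (k + 1))) := by
  obtain ⟨t, v0, ht, h⟩ := h
  set N : ℕ := ⌊l / d⌋₊ with hNdef
  have hN1 : (N : ℝ) * d ≤ l := by
    have := Nat.floor_le (div_nonneg hl hd.le)
    rwa [le_div_iff₀ hd] at this
  have hN2 : l < (N + 1 : ℝ) * d := by
    have := Nat.lt_floor_add_one (l / d)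
    rwa [div_lt_iff₀ hd] at this
  have hch : ∀ i : ℕ, ∃ x : Fin (k + 1) → ℝ, i ≤ N →
      (∀ j, x j ∈ RD D m) ∧ |∑ j, t j * x j - (v0 + i * d)| ≤ d := by
    intro i
    by_cases hi : i ≤ N
    · have hi' : (i : ℝ) ≤ N := by exact_mod_cast hi
      obtain ⟨x, hx, hx'⟩ := h (v0 + i * d) ⟨by
        have : (0 : ℝ) ≤ i * d := by positivity
        linarith, by nlinarith⟩
      exact ⟨x, fun _ => ⟨hx, hx'⟩⟩
    · exact ⟨0, fun hc => absurd hc hi⟩
  choose x hx using hch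
  by_cases hcase : ∀ i, i < N → ∀ j, |x (i + 1) j - x i j| < ρ
  · right
    -- some coordinate moves a lot
    have hT : l - 3 * d ≤ ∑ j, t j * (x N j - x 0 j) := by
      have h1 := abs_le.mp (hx N le_rfl).2
      have h2 := abs_le.mp (hx 0 (Nat.zero_le _)).2
      have e : ∑ j, t j * (x N j - x 0 j) = ∑ j, t j * x N j - ∑ j, t j * x 0 j := by
        rw [← Finset.sum_sub_distrib]
        exact Finset.sum_congr rfl fun j _ => by ring
      rw [e]
      simp only [Nat.cast_zero, zero_mul, add_zero] at h2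
      linarith [h1.1, h2.2]
    obtain ⟨j, hj⟩ : ∃ j, (l - 3 * d) / (2 * (k + 1)) ≤ |x N j - x 0 j| := by
      by_contra hcon
      push Not at hcon
      have h3 : ∑ j, t j * (x N j - x 0 j) < ∑ _j : Fin (k + 1), (l - 3 * d) / (k + 1) := by
        apply Finset.sum_lt_sum_of_nonempty Finset.univ_nonempty
        intro j _
        have hj := hcon j
        have e : (l - 3 * d) / (k + 1) = 2 * ((l - 3 * d) / (2 * (k + 1))) := by
          field_simp
        rw [e]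
        calc t j * (x N j - x 0 j) ≤ t j * |x N j - x 0 j| :=
              mul_le_mul_of_nonneg_left (le_abs_self _) (by linarith [(ht j).1])
          _ ≤ 2 * |x N j - x 0 j| := mul_le_mul_of_nonneg_right (ht j).2 (abs_nonneg _)
          _ < _ := by linarith
      rw [Finset.sum_const, Finset.card_univ, Fintype.card_fin, nsmul_eq_mul] at h3
      push_cast at h3
      have e : ((k : ℝ) + 1) * ((l - 3 * d) / (k + 1)) = l - 3 * d := by field_simp
      rw [e] at h3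
      linarith
    exact ring1_chain hρ (fun i => x i j) (fun i hi => (hx i hi).1 j) (fun i hi => hcase i hi j) hj
  · left
    push Not at hcase
    obtain ⟨i, hi, j, hj⟩ := hcase
    set z : Fin (k + 1) → ℝ := fun p => x (i + 1) p - x i p with hz
    have hzm : ∀ p, z p ∈ RD D (m + 1) := fun p =>
      ring1_sub D m ((hx (i + 1) (by omega)).1 p) ((hx i (by omega)).1 p)
    have hTz : |∑ p, t p * z p| ≤ 3 * d := by
      have h1 := abs_le.mp (hx (i + 1) (by omega)).2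
      have h2 := abs_le.mp (hx i (by omega)).2
      have e : ∑ p, t p * z p = ∑ p, t p * x (i + 1) p - ∑ p, t p * x i p := by
        rw [← Finset.sum_sub_distrib]
        exact Finset.sum_congr rfl fun p _ => by simp only [hz]; ring
      rw [e]
      push_cast at h1
      rw [abs_le]
      constructor <;> nlinarith [h1.1, h1.2, h2.1, h2.2]
    -- the main construction
    have main : ∀ w ∈ Icc v0 (v0 + l), ∃ y : Fin k → ℝ, (∀ p, y p ∈ RD D (m + 3)) ∧
        |∑ p, t (j.succAbove p) * y p - z j * w| ≤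
          (ring1Bd B (m + 1) + 3 * ring1Bd B m) * d := by
      intro w hw
      obtain ⟨u, hu, hu'⟩ := h w hw
      refine ⟨fun p => z j * u (j.succAbove p) - z (j.succAbove p) * u j, fun p => ?_, ?_⟩
      · exact ring1_sub D (m + 2) (ring1_mul D (m + 1) (hzm j) (ring1_succ D m (hu _)))
          (ring1_mul D (m + 1) (hzm _) (ring1_succ D m (hu _)))
      · have e1 : ∑ p, t p * u p = t j * u j + ∑ p, t (j.succAbove p) * u (j.succAbove p) :=
          Fin.sum_univ_succAbove _ j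
        have e2 : ∑ p, t p * z p = t j * z j + ∑ p, t (j.succAbove p) * z (j.succAbove p) :=
          Fin.sum_univ_succAbove _ j
        have e3 : ∑ p, t (j.succAbove p) * (z j * u (j.succAbove p) - z (j.succAbove p) * u j) =
            z j * ∑ p, t (j.succAbove p) * u (j.succAbove p) -
            u j * ∑ p, t (j.succAbove p) * z (j.succAbove p) := by
          rw [Finset.mul_sum, Finset.mul_sum, ← Finset.sum_sub_distrib]
          exact Finset.sum_congr rfl fun p _ => by ring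
        have e4 : ∑ p, t (j.succAbove p) * (z j * u (j.succAbove p) - z (j.succAbove p) * u j) -
            z j * w = z j * (∑ p, t p * u p - w) - u j * ∑ p, t p * z p := by
          rw [e3, e1, e2]; ring
        rw [e4]
        have b1 := ring1_bd hB hD (m + 1) _ (hzm j)
        have b2 := ring1_bd hB hD m _ (hu j)
        calc |z j * (∑ p, t p * u p - w) - u j * ∑ p, t p * z p|
            ≤ |z j * (∑ p, t p * u p - w)| + |u j * ∑ p, t p * z p| := abs_sub _ _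
          _ = |z j| * |∑ p, t p * u p - w| + |u j| * |∑ p, t p * z p| := by rw [abs_mul, abs_mul]
          _ ≤ ring1Bd B (m + 1) * d + ring1Bd B m * (3 * d) := by
              apply add_le_add
              · exact mul_le_mul b1 hu' (abs_nonneg _) ((abs_nonneg _).trans b1)
              · exact mul_le_mul b2 hTz (abs_nonneg _) ((abs_nonneg _).trans b2)
          _ = _ := by ring
    have hzj : ρ ≤ |z j| := hj
    rcases le_total 0 (z j) with hs | hs
    · rw [abs_of_nonneg hs] at hzj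
      have hzp : 0 < z j := lt_of_lt_of_le hρ hzj
      refine ⟨fun p => t (j.succAbove p), z j * v0, fun p => ht _, fun v hv => ?_⟩
      obtain ⟨y, hy, hy'⟩ := main (v / z j) ⟨by rw [le_div_iff₀ hzp]; linarith [hv.1], by
        rw [div_le_iff₀ hzp]; nlinarith [hv.2]⟩
      refine ⟨y, hy, ?_⟩
      rwa [mul_div_cancel₀ _ hzp.ne'] at hy'
    · rw [abs_of_nonpos hs] at hzj
      have hzp : 0 < -z j := lt_of_lt_of_le hρ hzj
      refine ⟨fun p => t (j.succAbove p), z j * (v0 + l), fun p => ht _, fun v hv => ?_⟩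
      obtain ⟨y, hy, hy'⟩ := main (v / z j) ⟨by
        rw [← neg_div_neg_eq, le_div_iff₀ hzp]; nlinarith [hv.2], by
        rw [← neg_div_neg_eq, div_le_iff₀ hzp]; nlinarith [hv.1]⟩
      refine ⟨y, hy, ?_⟩
      have hz0 : z j ≠ 0 := by intro h0; rw [h0] at hzp; simp at hzp
      rwa [mul_div_cancel₀ _ hz0] at hy'

/-- Smallness of powers. -/
lemma ring1_small (C a : ℝ) (ha : 0 < a) :
    ∃ δ0 : ℝ, 0 < δ0 ∧ δ0 ≤ 1 ∧ ∀ δ : ℝ, 0 < δ → δ ≤ δ0 → C * δ ^ a ≤ 1 := by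
  refine ⟨((max C 1)⁻¹) ^ (1 / a), by positivity, ?_, fun δ hδ hδ' => ?_⟩
  · apply Real.rpow_le_one (by positivity)
    · exact inv_le_one_of_one_le₀ (le_max_right _ _)
    · positivity
  · have h1 : δ ^ a ≤ (max C 1)⁻¹ := by
      calc δ ^ a ≤ (((max C 1)⁻¹) ^ (1 / a)) ^ a := Real.rpow_le_rpow hδ.le hδ' ha.le
        _ = (max C 1)⁻¹ := by
          rw [← Real.rpow_mul (by positivity), one_div, inv_mul_cancel₀ ha.ne', Real.rpow_one]
    have hp : (0 : ℝ) < max C 1 := by positivity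
    calc C * δ ^ a ≤ max C 1 * δ ^ a :=
          mul_le_mul_of_nonneg_right (le_max_left _ _) (by positivity)
      _ ≤ max C 1 * (max C 1)⁻¹ := mul_le_mul_of_nonneg_left h1 hp.le
      _ = 1 := mul_inv_cancel₀ hp.ne'

/-- The chain case with parameters. -/
lemma ring1_chain_case {D : Set ℝ} {m : ℕ} {k : ℕ} {δ a c : ℝ} {J : ℕ} (hδ : 0 < δ) (hδ1 : δ ≤ 1)
    (ha : 0 < a) (hc : 0 < c) (hac : 2 * a ≤ c) (ha4 : a ≤ 1 / 4) (hJ : 1 ≤ a * 2 ^ J)
    (hs1 : 100 * (k + 1 : ℝ) ^ 2 * δ ^ a ≤ 1) (hs2 : 6 * δ ^ (1 / 2 : ℝ) ≤ 1)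
    (h : ring1D1 D m (δ ^ (3 * a)) ((δ ^ a - 3 * δ ^ (1 - a)) / (2 * (k + 1)))) :
    ring1D1 D (m + 2 * J) (δ ^ (1 - c)) (δ ^ c) := by
  set y := δ ^ a with hy
  have hy0 : 0 < y := by positivity
  have hk : (1 : ℝ) ≤ k + 1 := by
    have : (0 : ℝ) ≤ k := Nat.cast_nonneg k
    linarith
  have e3 : δ ^ (3 * a) = y ^ 3 := by
    rw [hy, ← Real.rpow_natCast, ← Real.rpow_mul hδ.le]; congr 1; push_cast; ring
  have h2 : 3 * δ ^ (1 - a) ≤ y / 2 := by
    have e : δ ^ (1 - a) = δ ^ (1 - 2 * a) * y := by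
      rw [hy, ← Real.rpow_add hδ]; congr 1; ring
    have e' : δ ^ (1 - 2 * a) ≤ δ ^ (1 / 2 : ℝ) :=
      Real.rpow_le_rpow_of_exponent_ge hδ hδ1 (by linarith)
    rw [e]
    nlinarith
  set l : ℝ := y / (4 * (k + 1)) with hl
  have hl0 : 0 < l := by positivity
  have hll : l ≤ (y - 3 * δ ^ (1 - a)) / (2 * (k + 1)) := by
    rw [hl, div_le_div_iff₀ (by positivity) (by positivity)]
    nlinarith
  have hyl : y = 4 * (k + 1) * l := by rw [hl]; field_simp
  have hy1 : y ≤ 1 := Real.rpow_le_one hδ.le hδ1 ha.le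
  have hk2 : (k + 1 : ℝ) ≤ (k + 1 : ℝ) ^ 2 := by nlinarith
  have hk3 : (k + 1 : ℝ) * y ≤ (k + 1 : ℝ) ^ 2 * y := mul_le_mul_of_nonneg_right hk2 hy0.le
  have hk4 : y ≤ (k + 1 : ℝ) * y := by nlinarith
  have hy100 : 100 * y ≤ 1 := by nlinarith
  have hl1 : l ≤ 1 := by
    rw [hl, div_le_one (by positivity)]; nlinarith
  -- q with l q / 4 = y^3
  set q : ℝ := 4 * y ^ 3 / l with hq
  have hq0 : 0 < q := by positivity
  have hq' : q = 16 * (k + 1) * y ^ 2 := by
    rw [hq, hl]; field_simp; ring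
  have hqy : q ≤ y := by
    rw [hq']
    have : 16 * (k + 1 : ℝ) * y ≤ 1 := by nlinarith
    nlinarith
  have hql : 3 * q ≤ 4 * l := by
    rw [hq', hl]
    have : 3 * (16 * ((k:ℝ) + 1) * y ^ 2) = y / (k + 1) * (48 * (k + 1) ^ 2 * y) := by
      field_simp; ring
    rw [this]
    have e4 : 4 * (y / (4 * ((k:ℝ) + 1))) = y / (k + 1) := by field_simp
    rw [e4]
    have h5 : 48 * ((k:ℝ) + 1) ^ 2 * y ≤ 1 := by nlinarith
    have h6 : 0 < y / ((k:ℝ) + 1) := by positivity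
    nlinarith
  have hD : ring1D1 D m (l * q / 4) l := by
    refine h.mono le_rfl ?_ hll
    rw [e3, hq]
    field_simp
    exact le_rfl
  have := ring1_iter hq0 (hqy.trans hy1) hl0 hl1 hql hD J
  refine this.mono le_rfl ?_ ?_
  · -- the density
    have h7 : q ^ (2 ^ J) ≤ δ := by
      calc q ^ (2 ^ J) ≤ y ^ (2 ^ J) := pow_le_pow_left₀ hq0.le hqy _
        _ = δ ^ (a * 2 ^ J) := by
          rw [hy, ← Real.rpow_natCast, ← Real.rpow_mul hδ.le]; push_cast; rfl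
        _ ≤ δ ^ (1 : ℝ) := Real.rpow_le_rpow_of_exponent_ge hδ hδ1 hJ
        _ = δ := Real.rpow_one δ
    have h8 : δ ≤ δ ^ (1 - c) := by
      calc δ = δ ^ (1 : ℝ) := (Real.rpow_one δ).symm
        _ ≤ δ ^ (1 - c) := Real.rpow_le_rpow_of_exponent_ge hδ hδ1 (by linarith)
    nlinarith
  · -- the length
    have h9 : δ ^ c ≤ y ^ 2 := by
      have : y ^ 2 = δ ^ (2 * a) := by
        rw [hy, ← Real.rpow_natCast, ← Real.rpow_mul hδ.le]; congr 1; push_cast; ring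
      rw [this]
      exact Real.rpow_le_rpow_of_exponent_ge hδ hδ1 hac
    refine h9.trans ?_
    rw [hl, le_div_iff₀ (by positivity)]
    have h10 : 4 * ((k:ℝ) + 1) * y ≤ 1 := by linarith
    calc y ^ 2 * (4 * ((k:ℝ) + 1)) = (4 * ((k:ℝ) + 1) * y) * y := by ring
      _ ≤ 1 * y := mul_le_mul_of_nonneg_right h10 hy0.le
      _ = y := one_mul y

lemma ring1_ind {B : ℝ} (hB : 1 ≤ B) {c : ℝ} (hc : 0 < c) (hc1 : c < 1) (k : ℕ) :
    ∀ m0 : ℕ, ∃ (m : ℕ) (η δ0 : ℝ), 0 < η ∧ 0 < δ0 ∧ ∀ (δ : ℝ) (D : Set ℝ), 0 < δ → δ ≤ δ0 →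
      D ⊆ Icc (-B) B → ring1Dk D (k + 1) m0 (δ ^ (1 - η)) (δ ^ η) →
      ring1D1 D m (δ ^ (1 - c)) (δ ^ c) := by
  induction k with
  | zero =>
    intro m0
    obtain ⟨δ0, hδ0, hδ01, hs⟩ := ring1_small 2 (c / 2) (by positivity)
    refine ⟨m0 + 1, c / 2, δ0, by positivity, hδ0, fun δ D hδ hδ' _ h => ?_⟩
    have h1 := ring1_base (by positivity) (by positivity) h
    have h2 := hs δ hδ hδ'
    refine h1.mono le_rfl ?_ ?_
    · have : δ ^ (1 - c / 2) = δ ^ (c / 2) * δ ^ (1 - c) := by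
        rw [← Real.rpow_add hδ]; congr 1; ring
      rw [this]
      have h3 : 0 < δ ^ (1 - c) := by positivity
      nlinarith
    · have : δ ^ c = δ ^ (c / 2) * δ ^ (c / 2) := by
        rw [← Real.rpow_add hδ]; congr 1; ring
      rw [this]
      have h3 : 0 < δ ^ (c / 2) := by positivity
      nlinarith
  | succ k ih =>
    intro m0
    obtain ⟨m', η', δ0', hη', hδ0', hP⟩ := ih (m0 + 3)
    set η : ℝ := min (η' / 4) (c / 4) with hηdef
    have hη : 0 < η := by positivity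
    have hη1 : η ≤ η' / 4 := min_le_left _ _
    have hη2 : η ≤ c / 4 := min_le_right _ _
    obtain ⟨J, hJ⟩ : ∃ J : ℕ, 1 ≤ η * 2 ^ J := by
      obtain ⟨J, hJ⟩ := pow_unbounded_of_one_lt (1 / η) (by norm_num : (1 : ℝ) < 2)
      refine ⟨J, ?_⟩
      rw [div_lt_iff₀ hη] at hJ
      linarith
    set C : ℝ := ring1Bd B (m0 + 1) + 3 * ring1Bd B m0 with hC
    obtain ⟨δ1, hδ1, hδ11, hs1⟩ := ring1_small C (η' - η) (by linarith)
    obtain ⟨δ2, hδ2, hδ21, hs2⟩ := ring1_small (100 * ((k + 1 : ℕ) + 1 : ℝ) ^ 2) η hη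
    obtain ⟨δ3, hδ3, hδ31, hs3⟩ := ring1_small 6 (1 / 2) (by norm_num)
    refine ⟨max m' (m0 + 1 + 2 * J), η, min δ0' (min δ1 (min δ2 δ3)), hη, by positivity,
      fun δ D hδ hδ' hD h => ?_⟩
    have g0 : δ ≤ δ0' := hδ'.trans (min_le_left _ _)
    have g1 : δ ≤ δ1 := hδ'.trans ((min_le_right _ _).trans (min_le_left _ _))
    have g2 : δ ≤ δ2 := hδ'.trans ((min_le_right _ _).trans ((min_le_right _ _).trans (min_le_left _ _)))
    have g3 : δ ≤ δ3 := hδ'.trans ((min_le_right _ _).trans ((min_le_right _ _).trans (min_le_right _ _)))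
    have hδ1' : δ ≤ 1 := g1.trans hδ11
    rcases ring1_step hB hD (ρ := δ ^ (3 * η)) (by positivity) (by positivity) (by positivity) h with h1 | h1
    · have h2 : ring1Dk D (k + 1) (m0 + 3) (δ ^ (1 - η')) (δ ^ η') := by
        refine h1.mono le_rfl ?_ ?_
        · have e : δ ^ (1 - η) = δ ^ (η' - η) * δ ^ (1 - η') := by
            rw [← Real.rpow_add hδ]; congr 1; ring
          rw [← hC, e]
          have h3 : 0 < δ ^ (1 - η') := by positivity
          have h4 := hs1 δ hδ g1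
          nlinarith
        · rw [← Real.rpow_add hδ]
          exact Real.rpow_le_rpow_of_exponent_ge hδ hδ1' (by linarith)
      exact (hP δ D hδ g0 hD h2).mono (le_max_left _ _) le_rfl le_rfl
    · have h2 := ring1_chain_case (k := k + 1) (J := J) hδ hδ1' hη hc (by linarith) (by linarith) hJ
        (hs2 δ hδ g2) (hs3 δ hδ g3) h1
      exact h2.mono (le_max_right _ _) le_rfl le_rfl

theorem claimRing1 : ClaimRing1 := by
  intro B c k hB hc hc1 hk
  obtain ⟨k, rfl⟩ : ∃ k', k = k' + 1 := ⟨k - 1, by omega⟩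
  obtain ⟨m, η, δ0, hη, hδ0, h⟩ := ring1_ind hB hc hc1 k 0
  refine ⟨m, η, δ0, hη, hδ0, fun δ D hδ hδ' hD ⟨t, v0, ht, hx⟩ => ?_⟩
  refine h δ D hδ hδ' hD ⟨t, v0, ht, fun v hv => ?_⟩
  obtain ⟨x, hx1, hx2⟩ := hx v hv
  exact ⟨x, fun i => Or.inr (Or.inr (hx1 i)), hx2⟩

end Pool.Agent.Work.MP_1151e3_an
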