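import Pool.Agent.Work.MP_1151e3_an.Basic

/-!
# Items B5 and B6: second moments, the two families
-/

set_option autoImplicit false

namespace Pool.Agent.Work.MP_1151e3_an

open MeasureTheory Set Aff
open scoped ENNReal

theorem claimGood : ClaimGood := by
  constructor
  · refine ⟨?_, 1 / 9, 6, -1, by norm_num, Or.inr rfl, ?_⟩
    · have : Function.uncurry logG = fun p : ℝ × ℝ => Real.log (p.1 + p.2) := rfl
      rw [this]
      exact Real.measurable_log.comp (measurable_fst.add measurable_snd)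
    · intro a ha b hb
      refine ⟨fun t => 1 / ((t + a) * (t + b)),
        fun t => -(2 * t + a + b) / ((t + a) * (t + b)) ^ 2, ?_, ?_⟩
      · apply ContinuousOn.div (by fun_prop) (by fun_prop)
        intro t ht
        have h1 : 0 < t + a := by linarith [ht.1, ha.1]
        have h2 : 0 < t + b := by linarith [ht.1, hb.1]
        positivity
      · intro t ht
        have h1 : 1 ≤ t + a := by linarith [ht.1, ha.1]
        have h2 : 1 ≤ t + b := by linarith [ht.1, hb.1]
        have h1' : t + a ≤ 3 := by linarith [ht.2, ha.2]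
        have h2' : t + b ≤ 3 := by linarith [ht.2, hb.2]
        have h10 : 0 < t + a := by linarith
        have h20 : 0 < t + b := by linarith
        have hp1 : 1 ≤ (t + a) * (t + b) := by nlinarith
        have hp9 : (t + a) * (t + b) ≤ 9 := by nlinarith
        have hda : HasDerivAt (fun t : ℝ => t + a) 1 t := (hasDerivAt_id t).add_const a
        have hdb : HasDerivAt (fun t : ℝ => t + b) 1 t := (hasDerivAt_id t).add_const b
        refine ⟨?_, ?_, ?_, ?_, ?_⟩
        · unfold logG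
          refine ((hda.log h10.ne').sub (hdb.log h20.ne')).congr_deriv ?_
          field_simp
          ring
        · have hm := hda.mul hdb
          have hi := hm.inv (by positivity)
          have he : (fun t : ℝ => 1 / ((t + a) * (t + b))) =
              fun t => ((t + a) * (t + b))⁻¹ := by
            funext t
            rw [one_div]
          rw [he]
          refine hi.congr_deriv ?_
          congr 1
          ring
        · exact one_div_le_one_div_of_le (by linarith) hp9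
        · have : 1 / ((t + a) * (t + b)) ≤ 1 := by
            rw [div_le_one (by linarith)]
            exact hp1
          linarith
        · rw [abs_div, abs_of_nonneg (sq_nonneg ((t + a) * (t + b))), abs_neg,
            abs_of_nonneg (by linarith : (0 : ℝ) ≤ 2 * t + a + b), div_le_iff₀ (by positivity)]
          nlinarith
  · intro B hB
    refine ⟨?_, 1, 1, 1, one_pos, Or.inl rfl, ?_⟩
    · have : Function.uncurry mulG = fun p : ℝ × ℝ => p.1 * p.2 := rfl
      rw [this]
      exact measurable_fst.mul measurable_snd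
    · intro a ha b hb
      refine ⟨fun _ => 1, fun _ => 0, continuousOn_const, ?_⟩
      intro t ht
      refine ⟨?_, hasDerivAt_const _ _, le_refl _, le_refl _, by simp⟩
      unfold mulG
      refine (((hasDerivAt_id t).mul_const a).sub ((hasDerivAt_id t).mul_const b)).congr_deriv ?_
      ring

lemma B5_ker_sc {k : ℝ → ℝ} {C0 R : ℝ} (hk : Ker k C0) (hR : 1 ≤ R) : Ker (sc R k) (R * C0) := by
  refine ⟨?_, ?_, ?_⟩
  · have := hk.cont
    unfold sc
    fun_prop
  · intro x hx
    unfold sc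
    rw [hk.supp, mul_zero]
    rw [abs_mul, abs_of_pos (by linarith : (0 : ℝ) < R)]
    nlinarith
  · intro x
    unfold sc
    rw [abs_mul, abs_of_pos (by linarith : (0 : ℝ) < R)]
    exact mul_le_mul_of_nonneg_left (hk.bdd _) (by linarith)

lemma B5_fin {n : ℕ} {μ : Measure ℝ} {C1 C2 X : ℝ} {f : (Fin n → ℝ) → (Fin n → ℝ) → ℝ}
    {E : ℝ≥0∞} (hC1 : 0 ≤ C1) (hX : 0 ≤ X)
    (h1 : E ≤ ∫⁻ a : Fin n → ℝ, (∫⁻ b : Fin n → ℝ, ENNReal.ofReal (C1 * f a b)
      ∂(Measure.pi fun _ : Fin n => μ)) ∂(Measure.pi fun _ : Fin n => μ))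
    (h2 : ∫⁻ a : Fin n → ℝ, (∫⁻ b : Fin n → ℝ, ENNReal.ofReal (f a b)
      ∂(Measure.pi fun _ : Fin n => μ)) ∂(Measure.pi fun _ : Fin n => μ) ≤
        ENNReal.ofReal (C2 * X)) :
    E ≤ ENNReal.ofReal ((C1 * C2 + 1) * X) := by
  have h3 : ∫⁻ a : Fin n → ℝ, (∫⁻ b : Fin n → ℝ, ENNReal.ofReal (C1 * f a b)
      ∂(Measure.pi fun _ : Fin n => μ)) ∂(Measure.pi fun _ : Fin n => μ) =
      ENNReal.ofReal C1 * ∫⁻ a : Fin n → ℝ, (∫⁻ b : Fin n → ℝ, ENNReal.ofReal (f a b)
      ∂(Measure.pi fun _ : Fin n => μ)) ∂(Measure.pi fun _ : Fin n => μ) := by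
    simp only [ENNReal.ofReal_mul hC1]
    rw [← lintegral_const_mul' _ _ ENNReal.ofReal_ne_top]
    congr 1
    funext a
    rw [lintegral_const_mul' _ _ ENNReal.ofReal_ne_top]
  rw [h3] at h1
  calc E ≤ _ := h1
    _ ≤ ENNReal.ofReal C1 * ENNReal.ofReal (C2 * X) := by gcongr
    _ = ENNReal.ofReal (C1 * (C2 * X)) := (ENNReal.ofReal_mul hC1).symm
    _ ≤ ENNReal.ofReal ((C1 * C2 + 1) * X) := by
        apply ENNReal.ofReal_le_ofReal
        nlinarith

theorem claimSM (h2 : ClaimIBP) (h3 : ClaimCorr) (h4 : ClaimDyad) : ClaimSM := by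
  intro k C0 B G n s hk hG hn hs
  obtain ⟨C1, hC1, hI⟩ := h2 k C0 B G hk hG
  obtain ⟨C2, hC2, hD⟩ := h4 n s hn hs
  refine ⟨C1 * C2 + 1, by nlinarith, ?_⟩
  intro K R μ hK hR hμ hB hF
  have hR0 : 0 < R := by linarith
  have hK0 : 0 < K := by linarith
  obtain ⟨hD1, hD2, hD3⟩ := hD K R μ hK hR hμ hF
  have hker := B5_ker_sc hk hR
  have hm1 : Measurable (fun d : ℝ => C1 * (R / (1 + (R * d) ^ 2))) := by fun_prop
  have hm2 : Measurable (fun d : ℝ => C1 * (R / (1 + R * d))) := by fun_prop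
  have hc1 : ∫ x, k x = 0 → EN (sc R k) n G μ ≤ ∫⁻ a : Fin n → ℝ, (∫⁻ b : Fin n → ℝ,
      ENNReal.ofReal (C1 * (R / (1 + (R * ‖a - b‖) ^ 2)))
      ∂(Measure.pi fun _ : Fin n => μ)) ∂(Measure.pi fun _ : Fin n => μ) := fun h0 =>
    h3 (sc R k) (R * C0) B G n _ μ hker hn hG.meas hm1 hμ hB
      (fun a ha b hb c => (hI R hR a ha b hb c).2 h0)
  have hc2 : EN (sc R k) n G μ ≤ ∫⁻ a : Fin n → ℝ, (∫⁻ b : Fin n → ℝ,
      ENNReal.ofReal (C1 * (R / (1 + R * ‖a - b‖)))
      ∂(Measure.pi fun _ : Fin n => μ)) ∂(Measure.pi fun _ : Fin n => μ) :=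
    h3 (sc R k) (R * C0) B G n _ μ hker hn hG.meas hm2 hμ hB
      (fun a ha b hb c => (hI R hR a ha b hb c).1)
  refine ⟨fun h5 h0 => ?_, fun h5 h0 => ?_, fun h5 => ?_⟩
  · have h6 := hD1 h5
    rw [mul_assoc] at h6 ⊢
    exact B5_fin hC1 (by positivity) (hc1 h0) h6
  · have h6 := hD2 h5
    rw [mul_assoc] at h6 ⊢
    exact B5_fin hC1 (by positivity) (hc1 h0) h6
  · exact B5_fin hC1 (by positivity) hc2 (hD3 h5)

end Pool.Agent.Work.MP_1151e3_an
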