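import Pool.Agent.Work.MP_1151e3_an.Basic

/-!
# Open intervals in shifted products: choice of the shifts (C6)
-/

set_option autoImplicit false

namespace Pool.Agent.Work.MP_1151e3_an

open MeasureTheory Set Filter
open scoped ENNReal

/-! ### The measure `Pm` -/

lemma Select_dens_le (t : ℝ) : 6 * (t - 1) * (2 - t) ≤ 3 / 2 := by
  nlinarith [sq_nonneg (t - 3 / 2)]

lemma Select_Pm_prob : IsProbabilityMeasure Pm := by
  refine ⟨?_⟩
  unfold Pm
  rw [withDensity_apply _ MeasurableSet.univ, Measure.restrict_univ,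
    ← ofReal_integral_eq_lintegral_ofReal]
  · rw [integral_Icc_eq_integral_Ioc, ← intervalIntegral.integral_of_le (by norm_num)]
    have h : ∫ t in (1 : ℝ)..2, 6 * (t - 1) * (2 - t) =
        (9 * (2 : ℝ) ^ 2 - 2 * 2 ^ 3 - 12 * 2) - (9 * (1 : ℝ) ^ 2 - 2 * 1 ^ 3 - 12 * 1) := by
      refine intervalIntegral.integral_eq_sub_of_hasDerivAt
        (f := fun t : ℝ => 9 * t ^ 2 - 2 * t ^ 3 - 12 * t) (fun x _ => ?_) ?_
      · have h1 := (((hasDerivAt_id x).pow 2).const_mul 9).sub (((hasDerivAt_id x).pow 3).const_mul 2)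
        have h2 := h1.sub ((hasDerivAt_id x).const_mul 12)
        refine h2.congr_deriv ?_
        simp only [id]
        ring
      · exact (Continuous.intervalIntegrable (by fun_prop) _ _)
    rw [h]
    norm_num
  · have : Continuous (fun t : ℝ => 6 * (t - 1) * (2 - t)) := by fun_prop
    exact this.continuousOn.integrableOn_compact isCompact_Icc
  · refine (ae_restrict_iff' measurableSet_Icc).mpr (Eventually.of_forall fun t ht => ?_)
    exact mul_nonneg (mul_nonneg (by norm_num) (by linarith [ht.1])) (by linarith [ht.2])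

lemma Select_Pm_le (f : ℝ → ℝ≥0∞) :
    ∫⁻ t, f t ∂Pm ≤ ENNReal.ofReal (3 / 2) * ∫⁻ t in Icc (1 : ℝ) 2, f t := by
  have h : Pm ≤ ENNReal.ofReal (3 / 2) • (volume.restrict (Icc (1 : ℝ) 2)) := by
    rw [← withDensity_const]
    unfold Pm
    refine withDensity_mono (Eventually.of_forall fun t => ?_)
    exact ENNReal.ofReal_le_ofReal (Select_dens_le t)
  refine (lintegral_mono' h le_rfl).trans (le_of_eq ?_)
  rw [lintegral_smul_measure, smul_eq_mul]

lemma Select_Pm_ae : ∀ᵐ t ∂Pm, t ∈ Icc (1 : ℝ) 2 := by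
  have h1 : Pm ≪ volume.restrict (Icc (1 : ℝ) 2) := withDensity_absolutelyContinuous _ _
  exact h1.ae_le (ae_restrict_mem measurableSet_Icc)

lemma Select_pi_ae (n : ℕ) :
    ∀ᵐ t ∂(Measure.pi fun _ : Fin n => Pm), ∀ i, t i ∈ Icc (1 : ℝ) 2 := by
  have := Select_Pm_prob
  rw [ae_all_iff]
  intro i
  exact (Measure.quasiMeasurePreserving_eval (fun _ : Fin n => Pm) i).ae Select_Pm_ae

/-! ### Splitting off the last coordinate -/

/-- The inverse of the splitting. -/
noncomputable def Select_join (N : ℕ) (p : ℝ × (Fin N → ℝ)) : Fin (N + 1) → ℝ :=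
  (MeasurableEquiv.piFinSuccAbove (fun _ : Fin (N + 1) => ℝ) (Fin.last N)).symm p

lemma Select_join_meas (N : ℕ) : Measurable (Select_join N) :=
  (MeasurableEquiv.piFinSuccAbove (fun _ : Fin (N + 1) => ℝ) (Fin.last N)).symm.measurable

lemma Select_join_last (N : ℕ) (τ : ℝ) (t' : Fin N → ℝ) :
    Select_join N (τ, t') (Fin.last N) = τ := by
  have h := (MeasurableEquiv.piFinSuccAbove (fun _ : Fin (N + 1) => ℝ) (Fin.last N)).apply_symm_apply
    (τ, t')
  exact congrArg Prod.fst h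

lemma Select_join_init (N : ℕ) (τ : ℝ) (t' : Fin N → ℝ) :
    Fin.init (Select_join N (τ, t')) = t' := by
  have h := (MeasurableEquiv.piFinSuccAbove (fun _ : Fin (N + 1) => ℝ) (Fin.last N)).apply_symm_apply
    (τ, t')
  have h2 := congrArg Prod.snd h
  funext i
  have h3 := congrFun h2 i
  have h4 : (Fin.last N).succAbove i = Fin.castSucc i := Fin.succAbove_last_apply i
  have h5 : Select_join N (τ, t') ((Fin.last N).succAbove i) = t' i := h3
  rw [h4] at h5
  exact h5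

lemma Select_fubini {N : ℕ} (F : (Fin (N + 1) → ℝ) → ℝ≥0∞) (hF : Measurable F) :
    ∫⁻ t, F t ∂(Measure.pi fun _ : Fin (N + 1) => Pm) =
      ∫⁻ t', (∫⁻ τ, F (Select_join N (τ, t')) ∂Pm) ∂(Measure.pi fun _ : Fin N => Pm) := by
  have := Select_Pm_prob
  have h := (measurePreserving_piFinSuccAbove (fun _ : Fin (N + 1) => Pm) (Fin.last N)).symm
  have h1 := h.lintegral_comp hF
  rw [← h1]
  have h2 := lintegral_prod_symm (μ := Pm) (ν := Measure.pi fun _ : Fin N => Pm)
    (fun p => F (Select_join N p)) (hF.comp (Select_join_meas N)).aemeasurable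
  exact h2

/-! ### Measurability of `en` -/

lemma Select_meas_en {k : ℝ → ℝ} (hk : Continuous k) (n : ℕ) {G : ℝ → ℝ → ℝ}
    (hG : Measurable (Function.uncurry G)) (μ : Measure ℝ) [IsProbabilityMeasure μ] :
    Measurable (fun p : (Fin n → ℝ) × ℝ => en k n G μ p.1 p.2) := by
  have h : StronglyMeasurable (Function.uncurry (fun (p : (Fin n → ℝ) × ℝ) (a : Fin n → ℝ) =>
      k (p.2 - ∑ i, G (p.1 i) (a i)))) := by
    refine Measurable.stronglyMeasurable ?_
    refine hk.measurable.comp ?_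
    refine (measurable_snd.comp measurable_fst).sub ?_
    refine Finset.measurable_sum _ (fun i _ => ?_)
    have hp : Measurable (fun q : ((Fin n → ℝ) × ℝ) × (Fin n → ℝ) => (q.1.1 i, q.2 i)) :=
      ((measurable_pi_apply i).comp (measurable_fst.comp measurable_fst)).prodMk
        ((measurable_pi_apply i).comp measurable_snd)
    exact hG.comp hp
  exact (h.integral_prod_right (ν := Measure.pi fun _ : Fin n => μ)).measurable

lemma Select_slice {n : ℕ} (g : (Fin n → ℝ) → ℝ → ℝ)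
    (hg : Measurable (fun p : (Fin n → ℝ) × ℝ => g p.1 p.2)) (t : Fin n → ℝ) :
    Measurable (fun v : ℝ => g t v) :=
  hg.comp (measurable_const.prodMk measurable_id)

lemma Select_sc_cont {k : ℝ → ℝ} (hk : Continuous k) (R : ℝ) : Continuous (sc R k) := by
  unfold sc
  fun_prop

/-- The inner energy. -/
noncomputable def Select_I (k : ℝ → ℝ) (n : ℕ) (μ : Measure ℝ) (t : Fin n → ℝ) : ℝ≥0∞ :=
  ∫⁻ u : ℝ, ENNReal.ofReal ((en k n logG μ t u) ^ 2)

lemma Select_I_meas {k : ℝ → ℝ} (hk : Continuous k) (n : ℕ)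
    (hG : Measurable (Function.uncurry logG)) (μ : Measure ℝ) [IsProbabilityMeasure μ] :
    Measurable (Select_I k n μ) := by
  unfold Select_I
  have h := ((Select_meas_en hk n hG μ).pow_const 2).ennreal_ofReal
  exact h.lintegral_prod_right'

/-! ### Markov and Borel-Cantelli -/

lemma Select_markov {α : Type*} [MeasurableSpace α] {P : Measure α} {f : α → ℝ≥0∞}
    (hf : Measurable f) {a c : ℝ} (ha : 0 < a) (hc : 0 ≤ c)
    (h : ∫⁻ t, f t ∂P ≤ ENNReal.ofReal (c * a)) :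
    P {t | ENNReal.ofReal a ≤ f t} ≤ ENNReal.ofReal c := by
  refine (meas_ge_le_lintegral_div hf.aemeasurable (by simpa using ha) ENNReal.ofReal_ne_top).trans ?_
  rw [ENNReal.div_le_iff (by simpa using ha) ENNReal.ofReal_ne_top, ← ENNReal.ofReal_mul hc]
  exact h

lemma Select_BC {α : Type*} [MeasurableSpace α] {P : Measure α} {S : ℕ → Set α} {C κ : ℝ}
    (hκ : 0 < κ) (j1 : ℕ)
    (h : ∀ j, j1 ≤ j → P (S j) ≤ ENNReal.ofReal (C * (2 : ℝ) ^ (-(κ * j)))) :
    ∀ᵐ t ∂P, ∀ᶠ j in atTop, t ∉ S j := by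
  have hs : Summable (fun j : ℕ => C * (2 : ℝ) ^ (-(κ * ((j + j1 : ℕ) : ℝ)))) := by
    have e : (fun j : ℕ => C * (2 : ℝ) ^ (-(κ * ((j + j1 : ℕ) : ℝ)))) =
        fun j : ℕ => (C * (2 : ℝ) ^ (-(κ * j1))) * ((2 : ℝ) ^ (-κ)) ^ j := by
      funext j
      rw [← Real.rpow_natCast, ← Real.rpow_mul (by norm_num), mul_assoc,
        ← Real.rpow_add (by norm_num)]
      congr 2
      push_cast
      ring
    rw [e]
    refine Summable.mul_left _ (summable_geometric_of_lt_one (by positivity) ?_)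
    exact Real.rpow_lt_one_of_one_lt_of_neg (by norm_num) (by linarith)
  have hsum : ∑' j, P (S (j + j1)) ≠ ∞ := by
    refine ne_top_of_le_ne_top hs.tsum_ofReal_ne_top (ENNReal.tsum_le_tsum fun j => ?_)
    exact h (j + j1) (Nat.le_add_left _ _)
  filter_upwards [ae_eventually_notMem hsum] with t ht
  rw [eventually_atTop] at ht ⊢
  obtain ⟨a, ha⟩ := ht
  refine ⟨a + j1, fun b hb => ?_⟩
  have := ha (b - j1) (by omega)
  rwa [Nat.sub_add_cancel (by omega)] at this

/-! ### The set of bad `u` -/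

/-- The measure of the set of bad `u`. -/
noncomputable def Select_W (n : ℕ) (μ : Measure ℝ) (R U x0 : ℝ) (t : Fin n → ℝ) : ℝ≥0∞ :=
  volume {u : ℝ | u ∈ Icc (-U) U ∧ x0 ≤ |en (sc R ps) n logG μ t u|}

lemma Select_W_meas (hps : Continuous ps) (hG : Measurable (Function.uncurry logG)) (n : ℕ)
    (μ : Measure ℝ) [IsProbabilityMeasure μ] (R U x0 : ℝ) : Measurable (Select_W n μ R U x0) := by
  have hS : MeasurableSet {p : (Fin n → ℝ) × ℝ | p.2 ∈ Icc (-U) U ∧
      x0 ≤ |en (sc R ps) n logG μ p.1 p.2|} := by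
    have h1 : MeasurableSet {p : (Fin n → ℝ) × ℝ | p.2 ∈ Icc (-U) U} :=
      measurable_snd measurableSet_Icc
    have h2 : MeasurableSet {p : (Fin n → ℝ) × ℝ | x0 ≤ |en (sc R ps) n logG μ p.1 p.2|} :=
      measurableSet_le measurable_const
        (continuous_abs.measurable.comp (Select_meas_en (Select_sc_cont hps R) n hG μ))
    exact h1.inter h2
  exact measurable_measure_prodMk_left hS

open Classical in
/-- `W` restricted to the good first coordinates. -/
noncomputable def Select_H (N : ℕ) (μ : Measure ℝ) (R U x0 A : ℝ) (t : Fin (N + 1) → ℝ) : ℝ≥0∞ :=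
  if Select_I (sc R k1) N μ (Fin.init t) < ENNReal.ofReal A then Select_W (N + 1) μ R U x0 t else 0

lemma Select_init_meas (N : ℕ) : Measurable (fun t : Fin (N + 1) → ℝ => (Fin.init t : Fin N → ℝ)) :=
  measurable_pi_lambda _ (fun i => measurable_pi_apply (Fin.castSucc i))

lemma Select_H_meas (hps : Continuous ps) (hk1 : Continuous k1)
    (hG : Measurable (Function.uncurry logG)) (N : ℕ)
    (μ : Measure ℝ) [IsProbabilityMeasure μ] (R U x0 A : ℝ) :
    Measurable (Select_H N μ R U x0 A) := by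
  unfold Select_H
  refine Measurable.ite ?_ (Select_W_meas hps hG (N + 1) μ R U x0) measurable_const
  exact measurableSet_lt ((Select_I_meas (Select_sc_cont hk1 R) N hG μ).comp (Select_init_meas N))
    measurable_const

lemma Select_prod (Q : ℝ → ℝ → Prop)
    (hm : MeasurableSet {p : ℝ × ℝ | p.1 ∈ Icc (1 : ℝ) 2 ∧ Q p.1 p.2}) :
    ∫⁻ τ in Icc (1 : ℝ) 2, volume {u : ℝ | Q τ u} =
      volume {p : ℝ × ℝ | p.1 ∈ Icc (1 : ℝ) 2 ∧ Q p.1 p.2} := by
  rw [Measure.volume_eq_prod, Measure.prod_apply hm, ← lintegral_indicator measurableSet_Icc]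
  refine lintegral_congr fun τ => ?_
  by_cases hτ : τ ∈ Icc (1 : ℝ) 2
  · have h1 : Prod.mk τ ⁻¹' {p : ℝ × ℝ | p.1 ∈ Icc (1 : ℝ) 2 ∧ Q p.1 p.2} = {u : ℝ | Q τ u} := by
      ext u
      exact ⟨fun h => h.2, fun h => ⟨hτ, h⟩⟩
    rw [indicator_of_mem hτ, h1]
  · have h1 : Prod.mk τ ⁻¹' {p : ℝ × ℝ | p.1 ∈ Icc (1 : ℝ) 2 ∧ Q p.1 p.2} = ∅ := by
      ext u
      exact ⟨fun h => hτ h.1, fun h => h.elim⟩
    rw [indicator_of_notMem hτ, h1, measure_empty]

lemma Select_T_meas {N : ℕ} (g : (Fin (N + 1) → ℝ) → ℝ → ℝ)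
    (hg : Measurable (fun p : (Fin (N + 1) → ℝ) × ℝ => g p.1 p.2)) (t' : Fin N → ℝ) :
    Measurable (fun p : ℝ × ℝ => g (Select_join N (p.1, t')) p.2) := by
  have h4 : Measurable (fun p : ℝ × ℝ => (Select_join N (p.1, t'), p.2)) :=
    ((Select_join_meas N).comp (measurable_fst.prodMk measurable_const)).prodMk measurable_snd
  exact hg.comp h4

lemma Select_key {N : ℕ} (g : (Fin (N + 1) → ℝ) → ℝ → ℝ)
    (hg : Measurable (fun p : (Fin (N + 1) → ℝ) × ℝ => g p.1 p.2)) (t' : Fin N → ℝ) (U x0 : ℝ) :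
    ∫⁻ τ in Icc (1 : ℝ) 2, volume {u : ℝ | u ∈ Icc (-U) U ∧ x0 ≤ |g (Select_join N (τ, t')) u|} =
      volume {p : ℝ × ℝ | p.1 ∈ Icc (1 : ℝ) 2 ∧ p.2 ∈ Icc (-U) U ∧
        x0 ≤ |g (Select_join N (p.1, t')) p.2|} := by
  refine Select_prod (fun τ u => u ∈ Icc (-U) U ∧ x0 ≤ |g (Select_join N (τ, t')) u|) ?_
  have h1 : MeasurableSet {p : ℝ × ℝ | p.1 ∈ Icc (1 : ℝ) 2} := measurable_fst measurableSet_Icc
  have h2 : MeasurableSet {p : ℝ × ℝ | p.2 ∈ Icc (-U) U} := measurable_snd measurableSet_Icc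
  have h3 : MeasurableSet {p : ℝ × ℝ | x0 ≤ |g (Select_join N (p.1, t')) p.2|} :=
    measurableSet_le measurable_const (Select_T_meas g hg t').abs
  exact h1.inter (h2.inter h3)

lemma Select_H_le (hFactor : ClaimFactor) (hps : Continuous ps) (hk1 : Continuous k1)
    (hG : Measurable (Function.uncurry logG)) {N : ℕ} {μ : Measure ℝ} [IsProbabilityMeasure μ]
    (hsupp : μ (Icc 0 1)ᶜ = 0) {R U x0 A v : ℝ} (hR : 1 ≤ R)
    (hbad : ∀ t' : Fin N → ℝ, Select_I (sc R k1) N μ t' < ENNReal.ofReal A →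
      volume {p : ℝ × ℝ | p.1 ∈ Icc (1 : ℝ) 2 ∧ p.2 ∈ Icc (-U) U ∧
        x0 ≤ |∫ v, en (sc R k1) N logG μ t' v * Vh μ R p v|} ≤ ENNReal.ofReal v) :
    ∫⁻ t, Select_H N μ R U x0 A t ∂(Measure.pi fun _ : Fin (N + 1) => Pm) ≤
      ENNReal.ofReal (3 / 2) * ENNReal.ofReal v := by
  have hPm := Select_Pm_prob
  rw [Select_fubini _ (Select_H_meas hps hk1 hG N μ R U x0 A)]
  have key : ∀ᵐ t' ∂(Measure.pi fun _ : Fin N => Pm),
      ∫⁻ τ, Select_H N μ R U x0 A (Select_join N (τ, t')) ∂Pm ≤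
        ENNReal.ofReal (3 / 2) * ENNReal.ofReal v := by
    filter_upwards [Select_pi_ae N] with t' ht'
    by_cases hg : Select_I (sc R k1) N μ t' < ENNReal.ofReal A
    · have e1 : ∀ τ, Select_H N μ R U x0 A (Select_join N (τ, t')) =
          Select_W (N + 1) μ R U x0 (Select_join N (τ, t')) := by
        intro τ
        unfold Select_H
        rw [Select_join_init, if_pos hg]
      simp only [e1]
      refine (Select_Pm_le _).trans (mul_le_mul_right ?_ _)
      refine le_trans (le_of_eq ?_) (hbad t' hg)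
      -- the two descriptions of the bad set
      have hT : {p : ℝ × ℝ | p.1 ∈ Icc (1 : ℝ) 2 ∧ p.2 ∈ Icc (-U) U ∧
          x0 ≤ |∫ v, en (sc R k1) N logG μ t' v * Vh μ R p v|} =
          {p : ℝ × ℝ | p.1 ∈ Icc (1 : ℝ) 2 ∧ p.2 ∈ Icc (-U) U ∧
          x0 ≤ |en (sc R ps) (N + 1) logG μ (Select_join N (p.1, t')) p.2|} := by
        ext p
        have hp : p.1 ∈ Icc (1 : ℝ) 2 → en (sc R ps) (N + 1) logG μ (Select_join N (p.1, t')) p.2 =
            ∫ v, en (sc R k1) N logG μ t' v * Vh μ R p v := by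
          intro h1
          have h2 := hFactor N μ R (Select_join N (p.1, t')) p.2 inferInstance hsupp hR ?_
          · rw [h2, Select_join_init, Select_join_last]
          · intro i
            refine Fin.lastCases ?_ (fun i => ?_) i
            · rw [Select_join_last]
              exact h1
            · have h3 : Select_join N (p.1, t') (Fin.castSucc i) = t' i :=
                congrFun (Select_join_init N p.1 t') i
              rw [h3]
              exact ht' i
        constructor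
        · rintro ⟨a, b, c⟩
          exact ⟨a, b, by rw [hp a]; exact c⟩
        · rintro ⟨a, b, c⟩
          exact ⟨a, b, by rw [← hp a]; exact c⟩
      rw [hT]
      exact Select_key (fun t u => en (sc R ps) (N + 1) logG μ t u)
        (Select_meas_en (Select_sc_cont hps R) (N + 1) hG μ) t' U x0
    · have e1 : ∀ τ, Select_H N μ R U x0 A (Select_join N (τ, t')) = 0 := by
        intro τ
        unfold Select_H
        rw [Select_join_init, if_neg hg]
      simp only [e1, lintegral_zero]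
      exact zero_le
  refine (lintegral_mono_ae key).trans (le_of_eq ?_)
  rw [lintegral_const, measure_univ, mul_one]

/-! ### The main argument -/

lemma Select_en_eq (k : ℝ → ℝ) (n : ℕ) (μ : Measure ℝ) :
    EN k n logG μ = ∫⁻ t, Select_I k n μ t ∂(Measure.pi fun _ : Fin n => Pm) := rfl

lemma Select_init_int {N : ℕ} (F : (Fin N → ℝ) → ℝ≥0∞) (hF : Measurable F) :
    ∫⁻ t : Fin (N + 1) → ℝ, F (Fin.init t) ∂(Measure.pi fun _ : Fin (N + 1) => Pm) =
      ∫⁻ t', F t' ∂(Measure.pi fun _ : Fin N => Pm) := by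
  have hPm := Select_Pm_prob
  rw [Select_fubini (fun t : Fin (N + 1) → ℝ => F (Fin.init t)) (hF.comp (Select_init_meas N))]
  refine lintegral_congr fun t' => ?_
  simp only [Select_join_init]
  rw [lintegral_const, measure_univ, mul_one]

/-- Monotonicity of the Frostman condition in the exponent. -/
lemma Select_fro {μ : Measure ℝ} [IsProbabilityMeasure μ] {Cμ s0 ε K R : ℝ} (hR : 1 ≤ R)
    (hs0 : 0 < s0) (hε : 0 ≤ ε) (hCμ : 1 ≤ Cμ) (hK : Cμ * R ^ ε ≤ K)
    (hfro : ∀ x r : ℝ, 0 < r → μ.real (Metric.closedBall x r) ≤ Cμ * r ^ (s0 - ε)) :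
    Fro μ K s0 (1 / R) := by
  intro x r hr
  have hR0 : 0 < R := by linarith
  have hr0 : 0 < r := lt_of_lt_of_le (by positivity) hr
  have hRε : 1 ≤ R ^ ε := Real.one_le_rpow hR hε
  have hK1 : 1 ≤ K := by nlinarith
  by_cases h1 : 1 ≤ r
  · have h2 : 1 ≤ r ^ s0 := Real.one_le_rpow h1 hs0.le
    have h3 : μ.real (Metric.closedBall x r) ≤ 1 := measureReal_le_one
    nlinarith
  · push Not at h1
    have h2 : r ^ (s0 - ε) ≤ r ^ s0 * R ^ ε := by
      rw [sub_eq_add_neg, Real.rpow_add hr0]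
      refine mul_le_mul_of_nonneg_left ?_ (by positivity)
      rw [Real.rpow_neg hr0.le, ← Real.inv_rpow hr0.le]
      refine Real.rpow_le_rpow (by positivity) ?_ hε
      rw [inv_le_comm₀ hr0 hR0, ← one_div]
      exact hr
    calc μ.real (Metric.closedBall x r) ≤ Cμ * r ^ (s0 - ε) := hfro x r hr0
      _ ≤ Cμ * (r ^ s0 * R ^ ε) := mul_le_mul_of_nonneg_left h2 (by linarith)
      _ = (Cμ * R ^ ε) * r ^ s0 := by ring
      _ ≤ K * r ^ s0 := mul_le_mul_of_nonneg_right hK (by positivity)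

theorem claimSelect (hBad : ClaimBad) (hSM : ClaimSM) (hGood : ClaimGood) (hKer : ClaimKer)
    (hFactor : ClaimFactor) (hSup : ClaimSup) : ClaimSelect := by
  intro N hN
  obtain ⟨-, ⟨Ck1, hk1⟩, hk1i, -, -, -, -, -, ⟨Cps, hps⟩, ⟨Cdps, hdps⟩, hdpsi, -⟩ := hKer
  have hN' : (2 : ℝ) ≤ N := by exact_mod_cast hN
  have hG : Measurable (Function.uncurry logG) := hGood.1.meas
  obtain ⟨s0, hs0⟩ : ∃ s0 : ℝ, s0 = 2 / ((N : ℝ) + 1) := ⟨_, rfl⟩
  have hs0p : 0 < s0 := by
    rw [hs0]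
    positivity
  have hs01 : s0 < 1 := by
    rw [hs0, div_lt_one (by positivity)]
    linarith
  have hns0 : ((N : ℝ) + 1) * s0 = 2 := by
    rw [hs0]
    field_simp
  obtain ⟨U, hU⟩ : ∃ U : ℝ, U = 2 * ((N + 1 : ℕ) : ℝ) + 3 := ⟨_, rfl⟩
  have hU1 : 1 ≤ U := by
    rw [hU]
    push_cast
    linarith
  obtain ⟨κB, R0, hκB, hR0, hB⟩ := hBad s0 U hs0p hs01 hU1
  obtain ⟨κ, hκ⟩ : ∃ κ : ℝ, κ = κB / 4 := ⟨_, rfl⟩
  have hκ0 : 0 < κ := by
    rw [hκ]
    positivity
  obtain ⟨ε, hε0, hε1, hε2⟩ : ∃ ε : ℝ, 0 < ε ∧ ((N : ℝ) + 1) * ε ≤ κ ∧ ((N : ℝ) + 1) * ε ≤ 1 := by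
    refine ⟨min κ 1 / ((N : ℝ) + 1), by positivity, ?_, ?_⟩
    · rw [mul_div_cancel₀ _ (by positivity)]
      exact min_le_left _ _
    · rw [mul_div_cancel₀ _ (by positivity)]
      exact min_le_right _ _
  have hεs : ε < s0 := by nlinarith
  have hεκ : ε ≤ κ := by nlinarith
  obtain ⟨C1, hC1, h1⟩ := hSM k1 Ck1 1 logG N (s0 - ε) hk1 hGood.1 (by omega) (by linarith)
  obtain ⟨C2, hC2, h2⟩ := hSM dps Cdps 1 logG (N + 1) (s0 - ε) hdps hGood.1 (by omega) (by linarith)
  refine ⟨ε, hε0, by rw [← hs0]; exact hεs, fun μ Cμ hμ hsupp hCμ hfro => ?_⟩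
  rw [← hs0] at hfro
  have hPm := Select_Pm_prob
  -- one scale
  have main : ∀ R : ℝ, 2 ≤ R → R0 ≤ R → Cμ ≤ R ^ (3 * κ) →
      (Measure.pi fun _ : Fin (N + 1) => Pm) {t | ENNReal.ofReal (R ^ (4 * κ + s0 - 1)) ≤
        Select_I (sc R k1) N μ (Fin.init t)} ≤ ENNReal.ofReal (C1 * Cμ ^ N * R ^ (-κ)) ∧
      (Measure.pi fun _ : Fin (N + 1) => Pm) {t | ENNReal.ofReal (R ^ (-1 - 3 * κ)) ≤
        Select_H N μ R U (1 / R ^ (4 * κ)) (R ^ (4 * κ + s0 - 1)) t} ≤
          ENNReal.ofReal (3 / 2 * R ^ (-κ)) ∧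
      (Measure.pi fun _ : Fin (N + 1) => Pm) {t | ENNReal.ofReal (R ^ (-1 + ((N : ℝ) + 1) * ε + κ)) ≤
        Select_I (sc R dps) (N + 1) μ t} ≤ ENNReal.ofReal (C2 * Cμ ^ (N + 1) * R ^ (-κ)) ∧
      ∀ t : Fin (N + 1) → ℝ, (∀ i, t i ∈ Icc (1 : ℝ) 2) →
        Select_I (sc R k1) N μ (Fin.init t) < ENNReal.ofReal (R ^ (4 * κ + s0 - 1)) →
        Select_H N μ R U (1 / R ^ (4 * κ)) (R ^ (4 * κ + s0 - 1)) t <
          ENNReal.ofReal (R ^ (-1 - 3 * κ)) →
        Select_I (sc R dps) (N + 1) μ t < ENNReal.ofReal (R ^ (-1 + ((N : ℝ) + 1) * ε + κ)) →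
        ∀ u, |en (sc R ps) (N + 1) logG μ t u| ≤ 3 * R ^ (-(κ / 2)) := by
    intro R hR2 hRR0 hRC
    have hR1 : 1 ≤ R := by linarith
    have hRp : 0 < R := by linarith
    have hfro' : Fro μ Cμ (s0 - ε) (1 / R) := fun x r hr => hfro x r (lt_of_lt_of_le (by positivity) hr)
    refine ⟨?_, ?_, ?_, ?_⟩
    · refine Select_markov ((Select_I_meas (Select_sc_cont hk1.cont R) N hG μ).comp
        (Select_init_meas N)) (by positivity) (by positivity) ?_
      have e := Select_init_int (Select_I (sc R k1) N μ)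
        (Select_I_meas (Select_sc_cont hk1.cont R) N hG μ)
      have h3 := (h1 Cμ R μ hCμ hR1 hμ hsupp hfro').1 (by nlinarith) hk1i
      rw [Select_en_eq, ← e] at h3
      refine h3.trans (ENNReal.ofReal_le_ofReal ?_)
      rw [mul_assoc (C1 * Cμ ^ N), ← Real.rpow_add hRp]
      refine mul_le_mul_of_nonneg_left ?_ (by positivity)
      refine Real.rpow_le_rpow_of_exponent_le hR1 ?_
      nlinarith
    · refine Select_markov (Select_H_meas hps.cont hk1.cont hG N μ R U _ _) (by positivity)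
        (by positivity) ?_
      have h3 := Select_H_le hFactor hps.cont hk1.cont hG (N := N) (μ := μ) hsupp (R := R) (U := U)
        (x0 := 1 / R ^ (4 * κ)) (A := R ^ (4 * κ + s0 - 1)) (v := 1 / (R * R ^ (4 * κ))) hR1 ?_
      · refine h3.trans (le_of_eq ?_)
        rw [← ENNReal.ofReal_mul (by norm_num)]
        congr 1
        rw [mul_assoc, ← Real.rpow_add hRp, one_div, mul_inv, ← Real.rpow_neg hRp.le,
          ← Real.rpow_neg_one R, ← Real.rpow_add hRp]
        congr 2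
        ring
      · intro t' ht'
        refine hB R (R ^ (4 * κ)) (R ^ (4 * κ + s0 - 1)) μ (fun v => en (sc R k1) N logG μ t' v)
          hRR0 (Real.one_le_rpow hR1 (by positivity)) ?_ hμ hsupp ?_ ?_ (by positivity) ?_ ?_
        · refine le_of_eq ?_
          rw [hκ]
          congr 1
          ring
        · refine Select_fro hR1 hs0p hε0.le hCμ ?_ hfro
          calc Cμ * R ^ ε ≤ R ^ (3 * κ) * R ^ κ := by
                refine mul_le_mul hRC (Real.rpow_le_rpow_of_exponent_le hR1 hεκ) (by positivity)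
                  (by positivity)
            _ = R ^ (4 * κ) := by
                rw [← Real.rpow_add hRp]
                congr 1
                ring
        · exact Select_slice (fun t u => en (sc R k1) N logG μ t u)
            (Select_meas_en (Select_sc_cont hk1.cont R) N hG μ) t'
        · exact ht'.le
        · rw [← Real.rpow_add hRp]
          refine le_of_eq ?_
          congr 1
          ring
    · refine Select_markov (Select_I_meas (Select_sc_cont hdps.cont R) (N + 1) hG μ)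
        (by positivity) (by positivity) ?_
      have h3 := (h2 Cμ R μ hCμ hR1 hμ hsupp hfro').1 (by push_cast; nlinarith) hdpsi
      rw [Select_en_eq] at h3
      refine h3.trans (ENNReal.ofReal_le_ofReal ?_)
      rw [mul_assoc (C2 * Cμ ^ (N + 1)), ← Real.rpow_add hRp]
      refine mul_le_mul_of_nonneg_left ?_ (by positivity)
      refine Real.rpow_le_rpow_of_exponent_le hR1 ?_
      push_cast
      nlinarith
    · intro t ht g1 g2 g3 u
      have e : Select_H N μ R U (1 / R ^ (4 * κ)) (R ^ (4 * κ + s0 - 1)) t =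
          Select_W (N + 1) μ R U (1 / R ^ (4 * κ)) t := by
        unfold Select_H
        rw [if_pos g1]
      rw [e] at g2
      have hv : R ^ (-1 - 3 * κ) < 1 / 2 := by
        have a1 : R ^ (-1 - 3 * κ) < R ^ (-1 : ℝ) :=
          Real.rpow_lt_rpow_of_exponent_lt (by linarith) (by linarith)
        have a2 : R ^ (-1 : ℝ) ≤ 1 / 2 := by
          rw [Real.rpow_neg_one, one_div]
          exact inv_anti₀ (by norm_num) hR2
        linarith
      have h3 := hSup (N + 1) U μ t R (1 / R ^ (4 * κ)) (R ^ (-1 - 3 * κ))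
        (R ^ (-1 + ((N : ℝ) + 1) * ε + κ)) (le_of_eq hU.symm) hμ hsupp ht hR1 (by positivity)
        (by positivity) hv (by positivity) g2.le g3.le u
      refine h3.trans ?_
      have b1 : 1 / R ^ (4 * κ) ≤ R ^ (-(κ / 2)) := by
        rw [one_div, ← Real.rpow_neg hRp.le]
        exact Real.rpow_le_rpow_of_exponent_le hR1 (by linarith)
      have b2 : 2 * R ^ (-1 - 3 * κ) * R ^ (-1 + ((N : ℝ) + 1) * ε + κ) ≤
          (2 * (R ^ (-1 : ℝ) * R ^ (-(κ / 2)))) ^ 2 := by
        rw [mul_assoc, ← Real.rpow_add hRp, ← Real.rpow_add hRp, mul_pow, ← Real.rpow_natCast,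
          ← Real.rpow_natCast (R ^ (-1 + -(κ / 2))), ← Real.rpow_mul hRp.le]
        have c1 : R ^ (-1 - 3 * κ + (-1 + ((N : ℝ) + 1) * ε + κ)) ≤
            R ^ ((-1 + -(κ / 2)) * ((2 : ℕ) : ℝ)) := by
          refine Real.rpow_le_rpow_of_exponent_le hR1 ?_
          push_cast
          nlinarith
        have c2 : 0 ≤ R ^ ((-1 + -(κ / 2)) * ((2 : ℕ) : ℝ)) := by positivity
        norm_num
        norm_num at c1 c2
        linarith
      have b3 : Real.sqrt (2 * R ^ (-1 - 3 * κ) * R ^ (-1 + ((N : ℝ) + 1) * ε + κ)) ≤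
          2 * (R ^ (-1 : ℝ) * R ^ (-(κ / 2))) := by
        refine (Real.sqrt_le_sqrt b2).trans (le_of_eq ?_)
        exact Real.sqrt_sq (by positivity)
      have b4 : R * Real.sqrt (2 * R ^ (-1 - 3 * κ) * R ^ (-1 + ((N : ℝ) + 1) * ε + κ)) ≤
          2 * R ^ (-(κ / 2)) := by
        refine (mul_le_mul_of_nonneg_left b3 hRp.le).trans (le_of_eq ?_)
        rw [Real.rpow_neg_one]
        field_simp
      linarith
  -- large scales
  have hlarge : ∀ᶠ j : ℕ in atTop, 2 ≤ (2 : ℝ) ^ j ∧ R0 ≤ (2 : ℝ) ^ j ∧ Cμ ≤ ((2 : ℝ) ^ j) ^ (3 * κ) := by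
    have hl : Tendsto (fun j : ℕ => (2 : ℝ) ^ j) atTop atTop :=
      tendsto_pow_atTop_atTop_of_one_lt (by norm_num)
    have hl2 : Tendsto (fun j : ℕ => ((2 : ℝ) ^ j) ^ (3 * κ)) atTop atTop :=
      (tendsto_rpow_atTop (by positivity)).comp hl
    filter_upwards [hl.eventually_ge_atTop 2, hl.eventually_ge_atTop R0,
      hl2.eventually_ge_atTop Cμ] with j a b c
    exact ⟨a, b, c⟩
  obtain ⟨j1, hj1⟩ := eventually_atTop.mp hlarge
  have hconv : ∀ (j : ℕ) (a : ℝ), ((2 : ℝ) ^ j) ^ (-a) = (2 : ℝ) ^ (-(a * j)) := by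
    intro j a
    rw [← Real.rpow_natCast, ← Real.rpow_mul (by norm_num)]
    congr 1
    ring
  have hb1 := Select_BC (P := Measure.pi fun _ : Fin (N + 1) => Pm)
    (S := fun j => {t | ENNReal.ofReal (((2 : ℝ) ^ j) ^ (4 * κ + s0 - 1)) ≤
        Select_I (sc ((2 : ℝ) ^ j) k1) N μ (Fin.init t)}) (C := C1 * Cμ ^ N) hκ0 j1 (by
      intro j hj
      obtain ⟨a, b, c⟩ := hj1 j hj
      have := (main _ a b c).1
      rw [hconv] at this
      exact this)
  have hb2 := Select_BC (P := Measure.pi fun _ : Fin (N + 1) => Pm)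
    (S := fun j => {t | ENNReal.ofReal (((2 : ℝ) ^ j) ^ (-1 - 3 * κ)) ≤
        Select_H N μ ((2 : ℝ) ^ j) U (1 / ((2 : ℝ) ^ j) ^ (4 * κ))
          (((2 : ℝ) ^ j) ^ (4 * κ + s0 - 1)) t}) (C := 3 / 2) hκ0 j1 (by
      intro j hj
      obtain ⟨a, b, c⟩ := hj1 j hj
      have := (main _ a b c).2.1
      rw [hconv] at this
      exact this)
  have hb3 := Select_BC (P := Measure.pi fun _ : Fin (N + 1) => Pm)
    (S := fun j => {t | ENNReal.ofReal (((2 : ℝ) ^ j) ^ (-1 + ((N : ℝ) + 1) * ε + κ)) ≤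
        Select_I (sc ((2 : ℝ) ^ j) dps) (N + 1) μ t}) (C := C2 * Cμ ^ (N + 1)) hκ0 j1 (by
      intro j hj
      obtain ⟨a, b, c⟩ := hj1 j hj
      have := (main _ a b c).2.2.1
      rw [hconv] at this
      exact this)
  obtain ⟨t, ht, t1, t2, t3⟩ :=
    ((Select_pi_ae (N + 1)).and (hb1.and (hb2.and hb3))).exists
  obtain ⟨j0, hj0⟩ := eventually_atTop.mp (t1.and (t2.and t3))
  refine ⟨t, 3, κ / 2, max j0 j1, ht, by positivity, fun j hj u => ?_⟩
  obtain ⟨a, b, c⟩ := hj1 j ((le_max_right _ _).trans hj)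
  obtain ⟨u1, u2, u3⟩ := hj0 j ((le_max_left _ _).trans hj)
  have := (main _ a b c).2.2.2 t ht (not_le.mp u1) (not_le.mp u2) (not_le.mp u3) u
  rw [hconv] at this
  exact this

end Pool.Agent.Work.MP_1151e3_an
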