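import Pool.Agent.Work.MP_1151e3_an.Basic

/-!
# Slopes of a hereditary set are not concentrated (D4b)
-/

set_option autoImplicit false

namespace Pool.Agent.Work.MP_1151e3_an

open MeasureTheory Set Aff
open scoped ENNReal

open Classical in
/-- A vertex of large degree. -/
lemma claimSlope_degree {V : Type*} (F : Finset V) (P : V → V → Prop) (A : ℝ) (hF : F.Nonempty)
    (h : (F.card : ℝ) ^ 2 ≤ A * (((F ×ˢ F).filter fun p => P p.1 p.2).card : ℝ)) :
    ∃ g ∈ F, (F.card : ℝ) ≤ A * ((F.filter fun k => P g k).card : ℝ) := by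
  by_contra hcon
  push Not at hcon
  have e : (((F ×ˢ F).filter fun p => P p.1 p.2).card : ℝ) =
      ∑ g ∈ F, ((F.filter fun k => P g k).card : ℝ) := by
    rw [← Nat.cast_sum]
    congr 1
    rw [Finset.card_filter, Finset.sum_product]
    refine Finset.sum_congr rfl fun g _ => ?_
    rw [Finset.card_filter]
  rw [e, Finset.mul_sum] at h
  have h2 : ∑ g ∈ F, A * ((F.filter fun k => P g k).card : ℝ) < ∑ g ∈ F, (F.card : ℝ) :=
    Finset.sum_lt_sum_of_nonempty hF hcon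
  rw [Finset.sum_const, nsmul_eq_mul] at h2
  nlinarith

lemma claimSlope_sep {B : ℝ} (hB : 1 ≤ B) {g h h' : Aff} (hg : g.bd B) (hh : h.bd B)
    (hh' : h'.bd B) : h.ad h' ≤ 16 * B ^ 12 * (h⁻¹ * g).ad (h'⁻¹ * g) := by
  have h0 : (0 : ℝ) < B := by linarith
  have hB2 : (1 : ℝ) ≤ B ^ 2 := one_le_pow₀ hB
  have hB3 : (1 : ℝ) ≤ B ^ 3 := one_le_pow₀ hB
  have e1 := ad_inv_le hB2 (bd_inv hB hh) (bd_inv hB hh')
  rw [inv_inv, inv_inv] at e1
  have hb : (h'⁻¹ * g).bd (2 * B ^ 3) := by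
    have := bd_mul hB2 hB (bd_inv hB hh') hg
    have e : 2 * B ^ 2 * B = 2 * B ^ 3 := by ring
    rwa [e] at this
  have hg' : g.bd (2 * B ^ 3) := bd_mono h0 (by nlinarith) hg
  have e2 := ad_le_of_mul_right (B := 2 * B ^ 3) (by linarith) (g := g) (h := h⁻¹) (h' := h'⁻¹) hg' hb
  calc h.ad h' ≤ 2 * (B ^ 2) ^ 3 * (h⁻¹).ad (h'⁻¹) := e1
    _ ≤ 2 * (B ^ 2) ^ 3 * (2 * (2 * B ^ 3) ^ 2 * (h⁻¹ * g).ad (h'⁻¹ * g)) :=
        mul_le_mul_of_nonneg_left e2 (by positivity)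
    _ = _ := by ring

open Classical in
/-- Covering the slopes by short intervals. -/
lemma claimSlope_cover (Q : Finset Aff) (w B M : ℝ) (hw : 0 < w) (hB : 1 ≤ B) (hM : 0 ≤ M)
    (hQ : ∀ q ∈ Q, |q.s - 1| ≤ 2 * B * w)
    (h : ∀ l0 : ℝ, ∀ Q' ⊆ Q, (∀ q ∈ Q', |q.s - l0| ≤ w) → (Q'.card : ℝ) ≤ M) :
    (Q.card : ℝ) ≤ (4 * B + 2) * M := by
  have h1 : Q.card ≤ ⌊M⌋₊ * (Finset.Icc ⌊-(2 * B)⌋ ⌊2 * B⌋).card := by
    refine Finset.card_le_mul_card_image_of_maps_to (f := fun q : Aff => ⌊(q.s - 1) / w⌋) ?_ _ ?_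
    · intro q hq
      have h2 := abs_le.mp (hQ q hq)
      rw [Finset.mem_Icc]
      constructor
      · apply Int.floor_le_floor
        rw [le_div_iff₀ hw]; linarith
      · apply Int.floor_le_floor
        rw [div_le_iff₀ hw]; linarith
    · intro j _
      apply Nat.le_floor
      refine h (1 + j * w) _ (Finset.filter_subset _ _) ?_
      intro q hq
      have h3 := (Finset.mem_filter.mp hq).2
      have h4 := Int.floor_le ((q.s - 1) / w)
      have h5 := Int.lt_floor_add_one ((q.s - 1) / w)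
      rw [h3, le_div_iff₀ hw] at h4
      rw [h3, div_lt_iff₀ hw] at h5
      rw [abs_le]
      constructor <;> nlinarith
  have h2 : ((Finset.Icc ⌊-(2 * B)⌋ ⌊2 * B⌋).card : ℝ) ≤ 4 * B + 2 := by
    rw [Int.card_Icc]
    have h3 : (0 : ℤ) ≤ ⌊2 * B⌋ + 1 - ⌊-(2 * B)⌋ := by
      have : ⌊-(2 * B)⌋ ≤ ⌊2 * B⌋ := Int.floor_le_floor (by linarith)
      linarith
    have h4 : (((⌊2 * B⌋ + 1 - ⌊-(2 * B)⌋).toNat : ℕ) : ℝ) = ((⌊2 * B⌋ + 1 - ⌊-(2 * B)⌋ : ℤ) : ℝ) := by
      exact_mod_cast congrArg (fun z : ℤ => (z : ℝ)) (Int.toNat_of_nonneg h3)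
    rw [h4]
    push_cast
    have h5 := Int.floor_le (2 * B)
    have h6 := Int.sub_one_lt_floor (-(2 * B))
    linarith
  calc (Q.card : ℝ) ≤ (⌊M⌋₊ : ℝ) * ((Finset.Icc ⌊-(2 * B)⌋ ⌊2 * B⌋).card : ℝ) := by
        exact_mod_cast h1
    _ ≤ M * (4 * B + 2) := mul_le_mul (Nat.floor_le hM) h2 (by positivity) hM
    _ = _ := by ring

/-- D4b. Slopes of a hereditary set are not concentrated. -/
theorem claimSlope (hG : ClaimGraph) (hR : ClaimRich) : ClaimSlope := by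
  classical
  intro s B hs hs1 hB
  have hB0 : (0 : ℝ) < B := by linarith
  obtain ⟨C1, hC1, G⟩ := hG s B hs hs1 hB
  have hpow : ∀ n : ℕ, (1 : ℝ) ≤ B ^ n := fun n => one_le_pow₀ hB
  have hB' : (1 : ℝ) ≤ 16 * B ^ 13 := by linarith [hpow 13]
  obtain ⟨C2, p, hC2, Rc⟩ := hR s (16 * B ^ 13) hs hs1 hB'
  have h2p : (1 : ℝ) ≤ 2 ^ p := one_le_pow₀ one_le_two
  refine ⟨C1 * ((4 * B + 2) * C2 * 2 ^ p), p + 2, ?_, ?_⟩
  · have h1 : (1 : ℝ) ≤ (4 * B + 2) * C2 * 2 ^ p :=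
      one_le_mul_of_one_le_of_one_le (one_le_mul_of_one_le_of_one_le (by linarith) hC2) h2p
    exact one_le_mul_of_one_le_of_one_le hC1 h1
  intro K R x w μ F hK hR1 hRw hw1 hH hx
  have hR0 : (0 : ℝ) < R := by linarith
  have hK0 : (0 : ℝ) < K := by linarith
  have hw0 : 0 < w := lt_of_lt_of_le (by positivity) hRw
  have hprob := hH.prob
  rcases F.eq_empty_or_nonempty with rfl | hF
  · simp only [Finset.card_empty, Nat.cast_zero]
    positivity
  obtain ⟨-, h2⟩ := G K R μ F hK hR1 hH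
  obtain ⟨g, hgF, hg⟩ := claimSlope_degree F
    (fun g h => R ^ (-s) / (2 * K) ≤ mm μ (B / R) g h) (C1 * K ^ 2) hF h2
  set H : Finset Aff := F.filter fun h => R ^ (-s) / (2 * K) ≤ mm μ (B / R) g h with hHdef
  have hHF : H ⊆ F := Finset.filter_subset _ _
  have hgB := hH.bd g hgF
  set Q : Finset Aff := H.image fun h => h⁻¹ * g with hQdef
  have hinj : Function.Injective fun h : Aff => h⁻¹ * g := by
    intro a b hab
    simpa using hab
  have hcard : Q.card = H.card := Finset.card_image_of_injective _ hinj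
  set M : ℝ := C2 * (2 * K) ^ p * R * w ^ (1 - s) with hM
  have hM0 : 0 ≤ M := by positivity
  have hQc : (Q.card : ℝ) ≤ (4 * B + 2) * M := by
    refine claimSlope_cover Q w B M hw0 hB hM0 ?_ ?_
    · intro q hq
      obtain ⟨h, hh, rfl⟩ := Finset.mem_image.mp hq
      have hhB := hH.bd h (hHF hh)
      have hhi : h.s⁻¹ ≤ B := by simpa using inv_anti₀ (inv_pos.mpr hB0) hhB.1
      have e : (h⁻¹ * g).s - 1 = h.s⁻¹ * (g.s - h.s) := by
        have := h.pos.ne'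
        simp only [mul_s, inv_s]
        field_simp
      have hd : |g.s - h.s| ≤ 2 * w := by
        have h3 := abs_le.mp (hx g hgF)
        have h4 := abs_le.mp (hx h (hHF hh))
        rw [abs_le]; constructor <;> linarith
      rw [e, abs_mul, abs_of_pos (inv_pos.mpr h.pos)]
      calc h.s⁻¹ * |g.s - h.s| ≤ B * (2 * w) := mul_le_mul hhi hd (abs_nonneg _) hB0.le
        _ = 2 * B * w := by ring
    · intro l0 Q' hQ' hsl
      refine Rc (2 * K) R w l0 μ Q' hprob (by linarith) hR1 hRw hw1 hH.supp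
        (hH.fro.mono (by linarith) le_rfl (by positivity)) ?_ ?_ ?_
      · intro q hq
        refine ⟨?_, hsl q hq⟩
        obtain ⟨h, hh, rfl⟩ := Finset.mem_image.mp (hQ' hq)
        have hhB := hH.bd h (hHF hh)
        refine bd_mono (B := 2 * B ^ 2 * B) (by positivity) ?_ (bd_mul (hpow 2) hB (bd_inv hB hhB) hgB)
        have h13 : B ^ 3 ≤ B ^ 13 := pow_le_pow_right₀ hB (by norm_num)
        have h30 : 0 ≤ B ^ 13 := by positivity
        calc 2 * B ^ 2 * B = 2 * B ^ 3 := by ring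
          _ ≤ 16 * B ^ 13 := by linarith
      · intro q hq q' hq' hne
        obtain ⟨h, hh, rfl⟩ := Finset.mem_image.mp (hQ' hq)
        obtain ⟨h', hh', rfl⟩ := Finset.mem_image.mp (hQ' hq')
        have hne' : h ≠ h' := by rintro rfl; exact hne rfl
        have h3 := hH.sep h (hHF hh) h' (hHF hh') hne'
        have h4 := claimSlope_sep hB hgB (hH.bd h (hHF hh)) (hH.bd h' (hHF hh'))
        have h5 : 1 / (B * R) ≤ 16 * B ^ 12 * (h⁻¹ * g).ad (h'⁻¹ * g) := h3.trans h4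
        rw [div_le_iff₀ (by positivity)] at h5 ⊢
        calc (1 : ℝ) ≤ 16 * B ^ 12 * (h⁻¹ * g).ad (h'⁻¹ * g) * (B * R) := h5
          _ = _ := by ring
      · intro q hq
        obtain ⟨h, hh, rfl⟩ := Finset.mem_image.mp (hQ' hq)
        have h3 : R ^ (-s) / (2 * K) ≤ mm μ (B / R) g h := (Finset.mem_filter.mp hh).2
        refine h3.trans ((mm_le_quot μ hB (hH.bd h (hHF hh))).trans (mm_mono μ ?_ _ _))
        have h13 : B ^ 2 ≤ B ^ 13 := pow_le_pow_right₀ hB (by norm_num)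
        have h30 : 0 ≤ B ^ 13 := by positivity
        calc B * (B / R) = B ^ 2 / R := by ring
          _ ≤ 16 * B ^ 13 / R := div_le_div_of_nonneg_right (by linarith) hR0.le
  calc (F.card : ℝ) ≤ C1 * K ^ 2 * (H.card : ℝ) := hg
    _ = C1 * K ^ 2 * (Q.card : ℝ) := by rw [hcard]
    _ ≤ C1 * K ^ 2 * ((4 * B + 2) * M) := mul_le_mul_of_nonneg_left hQc (by positivity)
    _ = C1 * ((4 * B + 2) * C2 * 2 ^ p) * K ^ (p + 2) * R * w ^ (1 - s) := by
        rw [hM, mul_pow]; ring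

end Pool.Agent.Work.MP_1151e3_an
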