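import Pool.Agent.Work.MP_1151e3_an.Basic
import Pool.Agent.Work.MP_1151e3_an.Claims

/-!
# From small measure of large values to a sup bound
-/

set_option autoImplicit false

namespace Pool.Agent.Work.MP_1151e3_an

open MeasureTheory Set Filter Topology
open scoped ENNReal

section Gen

variable {α : Type*} [MeasurableSpace α] (ν : Measure α) [IsProbabilityMeasure ν]

/-- Differentiation under the integral for translates of a smooth bounded kernel. -/
lemma sup_deriv (k dk : ℝ → ℝ) (C C' : ℝ) (hk : Continuous k) (hdk : Continuous dk)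
    (hC : ∀ x, |k x| ≤ C) (hC' : ∀ x, |dk x| ≤ C') (hd : ∀ x, HasDerivAt k (dk x) x)
    (S : α → ℝ) (hS : Measurable S) (u : ℝ) :
    HasDerivAt (fun u => ∫ a, k (u - S a) ∂ν) (∫ a, dk (u - S a) ∂ν) u := by
  have h1 : ∀ x : ℝ, AEStronglyMeasurable (fun a => k (x - S a)) ν := fun x =>
    (hk.measurable.comp (measurable_const.sub hS)).aestronglyMeasurable
  have h2 : ∀ x : ℝ, AEStronglyMeasurable (fun a => dk (x - S a)) ν := fun x =>
    (hdk.measurable.comp (measurable_const.sub hS)).aestronglyMeasurable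
  refine (hasDerivAt_integral_of_dominated_loc_of_deriv_le (F := fun x a => k (x - S a))
    (F' := fun x a => dk (x - S a)) (bound := fun _ => C') (s := Set.univ) univ_mem
    (Eventually.of_forall h1) ?_ (h2 u) ?_ (integrable_const _) ?_).2
  · exact Integrable.of_bound (h1 u) C (Eventually.of_forall fun a => hC _)
  · exact Eventually.of_forall fun a x _ => hC' _
  · refine Eventually.of_forall fun a x _ => ?_
    exact (hd (x - S a)).comp_sub_const x (S a)

lemma sup_cont (k : ℝ → ℝ) (C : ℝ) (hk : Continuous k) (hC : ∀ x, |k x| ≤ C)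
    (S : α → ℝ) (hS : Measurable S) : Continuous (fun u => ∫ a, k (u - S a) ∂ν) := by
  refine continuous_of_dominated (bound := fun _ => C) (fun x =>
    (hk.measurable.comp (measurable_const.sub hS)).aestronglyMeasurable)
    (fun x => Eventually.of_forall fun a => hC _) (integrable_const _)
    (Eventually.of_forall fun a => by fun_prop)

end Gen

lemma sup_cs (Y : ℝ → ℝ) (hY : Continuous Y) (a b : ℝ) (hab : a ≤ b) :
    (∫ x in a..b, Y x) ^ 2 ≤ (b - a) * ∫ x in a..b, (Y x) ^ 2 := by
  rcases hab.eq_or_lt with rfl | hab'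
  · simp
  have hpos : 0 < b - a := by linarith
  set I := ∫ x in a..b, Y x with hI
  set l := I / (b - a) with hl
  have h0 : 0 ≤ ∫ x in a..b, (Y x - l) ^ 2 :=
    intervalIntegral.integral_nonneg hab fun x _ => sq_nonneg _
  have h1 : ∫ x in a..b, (Y x - l) ^ 2 = (∫ x in a..b, (Y x) ^ 2) - 2 * l * I + l ^ 2 * (b - a) := by
    have e1 : ∀ x, (Y x - l) ^ 2 = (Y x) ^ 2 - 2 * l * Y x + l ^ 2 := fun x => by ring
    simp_rw [e1]
    rw [intervalIntegral.integral_add, intervalIntegral.integral_sub,
      intervalIntegral.integral_const_mul, intervalIntegral.integral_const]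
    · simp only [smul_eq_mul]
      rw [← hI]
      ring
    · exact (hY.pow 2).intervalIntegrable _ _
    · exact (continuous_const.mul hY).intervalIntegrable _ _
    · exact ((hY.pow 2).sub (continuous_const.mul hY)).intervalIntegrable _ _
    · exact continuous_const.intervalIntegrable _ _
  rw [h1] at h0
  have h2 : l * (b - a) = I := by
    rw [hl]
    field_simp
  have h3 : (b - a) * ((∫ x in a..b, (Y x) ^ 2) - 2 * l * I + l ^ 2 * (b - a)) =
      (b - a) * (∫ x in a..b, (Y x) ^ 2) - I ^ 2 := by
    rw [← h2]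
    ring
  nlinarith [mul_nonneg hpos.le h0]

lemma sup_ae {n : ℕ} (μ : Measure ℝ) [IsProbabilityMeasure μ] (h : μ (Icc 0 1)ᶜ = 0) :
    ∀ᵐ a : Fin n → ℝ ∂(Measure.pi fun _ : Fin n => μ), ∀ i, a i ∈ Icc (0 : ℝ) 1 := by
  rw [ae_all_iff]
  intro i
  exact (measurePreserving_eval (fun _ : Fin n => μ) i).quasiMeasurePreserving.ae
    (p := fun x => x ∈ Icc (0 : ℝ) 1) h

theorem claimSup (hK : ClaimKer) : ClaimSup := by
  intro n U μ t R x0 v0 A hU hμ hsupp ht hR hx0 hv0 hv0' hA hvol hen
  obtain ⟨-, -, -, -, -, -, -, -, ⟨C, hps⟩, ⟨C', hdps⟩, -, hder, -, -, -⟩ := hK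
  set ν : Measure (Fin n → ℝ) := Measure.pi fun _ : Fin n => μ with hν
  set S : (Fin n → ℝ) → ℝ := fun a => ∑ i, logG (t i) (a i) with hSdef
  have hS : Measurable S := by
    refine Finset.measurable_sum _ fun i _ => ?_
    unfold logG
    exact Real.measurable_log.comp (measurable_const.add (measurable_pi_apply i))
  set X : ℝ → ℝ := fun u => en (sc R ps) n logG μ t u with hX
  set Y : ℝ → ℝ := fun u => en (sc R dps) n logG μ t u with hY
  have hRpos : 0 < R := by linarith
  have hkc : Continuous (sc R ps) := by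
    unfold sc
    exact continuous_const.mul (hps.cont.comp (continuous_const.mul continuous_id))
  have hdkc : Continuous (sc R dps) := by
    unfold sc
    exact continuous_const.mul (hdps.cont.comp (continuous_const.mul continuous_id))
  have hkb : ∀ x, |sc R ps x| ≤ R * C := fun x => by
    unfold sc
    rw [abs_mul, abs_of_pos hRpos]
    exact mul_le_mul_of_nonneg_left (hps.bdd _) hRpos.le
  have hdkb : ∀ x, |sc R dps x| ≤ R * C' := fun x => by
    unfold sc
    rw [abs_mul, abs_of_pos hRpos]
    exact mul_le_mul_of_nonneg_left (hdps.bdd _) hRpos.le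
  have hder' : ∀ x, HasDerivAt (sc R ps) (R * sc R dps x) x := fun x => by
    unfold sc
    have h0 : HasDerivAt (fun y : ℝ => R * y) R x := by
      simpa using (hasDerivAt_id x).const_mul R
    have h1 : HasDerivAt (fun y : ℝ => ps (R * y)) (dps (R * x) * R) x :=
      HasDerivAt.comp x (hder (R * x)) h0
    exact (h1.const_mul R).congr_deriv (by ring)
  have hXder : ∀ u, HasDerivAt X (R * Y u) u := fun u => by
    have h1 := sup_deriv ν (sc R ps) (fun x => R * sc R dps x) (R * C) (R * (R * C')) hkc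
      (continuous_const.mul hdkc) hkb (fun x => by
        rw [abs_mul, abs_of_pos hRpos]
        exact mul_le_mul_of_nonneg_left (hdkb _) hRpos.le) hder' S hS u
    rw [integral_const_mul] at h1
    exact h1
  have hYc : Continuous Y := sup_cont ν (sc R dps) (R * C') hdkc hdkb S hS
  have hYsq : ∀ a b : ℝ, a ≤ b → ∫ x in a..b, (Y x) ^ 2 ≤ A := by
    intro a b hab
    rw [intervalIntegral.integral_of_le hab]
    have hint : Integrable (fun x => (Y x) ^ 2) (volume.restrict (Ioc a b)) :=
      ((hYc.pow 2).intervalIntegrable a b).1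
    rw [← ENNReal.ofReal_le_ofReal_iff hA,
      ofReal_integral_eq_lintegral_ofReal hint (Eventually.of_forall fun x => sq_nonneg _)]
    exact (setLIntegral_le_lintegral _ _).trans hen
  have hdiff : ∀ a b : ℝ, a ≤ b → |X b - X a| ≤ R * Real.sqrt ((b - a) * A) := by
    intro a b hab
    have h1 : ∫ x in a..b, R * Y x = X b - X a :=
      intervalIntegral.integral_eq_sub_of_hasDerivAt (fun x _ => hXder x)
        ((continuous_const.mul hYc).intervalIntegrable _ _)
    rw [← h1, intervalIntegral.integral_const_mul, abs_mul, abs_of_pos hRpos]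
    refine mul_le_mul_of_nonneg_left ?_ hRpos.le
    refine Real.abs_le_sqrt ((sup_cs Y hYc a b hab).trans ?_)
    exact mul_le_mul_of_nonneg_left (hYsq a b hab) (by linarith)
  have hout : ∀ u, u ∉ Icc (-1 : ℝ) (2 * n + 1) → X u = 0 := by
    intro u hu
    have h0 : (fun a : Fin n → ℝ => sc R ps (u - ∑ i, logG (t i) (a i))) =ᵐ[ν] fun _ => 0 := by
      filter_upwards [sup_ae (n := n) μ hsupp] with a ha
      have hlow : 0 ≤ ∑ i, logG (t i) (a i) := Finset.sum_nonneg fun i _ => by
        unfold logG
        exact Real.log_nonneg (by linarith [(ha i).1, (ht i).1])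
      have hup : ∑ i, logG (t i) (a i) ≤ 2 * n := by
        calc ∑ i, logG (t i) (a i) ≤ ∑ _i : Fin n, (2 : ℝ) := Finset.sum_le_sum fun i _ => by
              unfold logG
              have h3 : t i + a i ≤ 3 := by linarith [(ha i).2, (ht i).2]
              have h4 : 0 < t i + a i := by linarith [(ha i).1, (ht i).1]
              linarith [Real.log_le_sub_one_of_pos h4]
          _ = 2 * n := by simp [mul_comm]
      have hge : 1 ≤ |u - ∑ i, logG (t i) (a i)| := by
        rw [mem_Icc, not_and_or, not_le, not_le] at hu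
        rcases hu with hu | hu
        · rw [abs_sub_comm]
          exact (by linarith : (1 : ℝ) ≤ (∑ i, logG (t i) (a i)) - u).trans (le_abs_self _)
        · exact (by linarith : (1 : ℝ) ≤ u - ∑ i, logG (t i) (a i)).trans (le_abs_self _)
      show sc R ps (u - ∑ i, logG (t i) (a i)) = 0
      unfold sc
      rw [hps.supp, mul_zero]
      rw [abs_mul, abs_of_pos hRpos]
      nlinarith
    show ∫ a : Fin n → ℝ, sc R ps (u - ∑ i, logG (t i) (a i)) ∂ν = 0
    rw [integral_congr_ae h0]
    simp
  intro u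
  by_cases hu : u ∈ Icc (-1 : ℝ) (2 * n + 1)
  swap
  · have := hout u hu
    show |X u| ≤ _
    rw [this, abs_zero]
    positivity
  have key : ∀ e : ℝ, 0 < e → e ≤ 1 / 2 → |X u| ≤ x0 + R * Real.sqrt ((v0 + e) * A) := by
    intro e he he'
    have hex : ∃ u1 ∈ Icc u (u + (v0 + e)), |X u1| < x0 := by
      by_contra hcon
      push Not at hcon
      have hsub : Icc u (u + (v0 + e)) ⊆ {u : ℝ | u ∈ Icc (-U) U ∧ x0 ≤ |X u|} := by
        intro w hw
        refine ⟨⟨?_, ?_⟩, hcon w hw⟩
        · linarith [hw.1, hu.1, (Nat.cast_nonneg n : (0 : ℝ) ≤ n)]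
        · linarith [hw.2, hu.2]
      have h1 : volume (Icc u (u + (v0 + e))) ≤ ENNReal.ofReal v0 := (measure_mono hsub).trans hvol
      rw [Real.volume_Icc, ENNReal.ofReal_le_ofReal_iff hv0] at h1
      linarith
    obtain ⟨u1, hu1, hX1⟩ := hex
    have h2 := hdiff u u1 hu1.1
    have h3 : R * Real.sqrt ((u1 - u) * A) ≤ R * Real.sqrt ((v0 + e) * A) := by
      refine mul_le_mul_of_nonneg_left (Real.sqrt_le_sqrt ?_) hRpos.le
      exact mul_le_mul_of_nonneg_right (by linarith [hu1.2]) hA
    have h4 : |X u| ≤ |X u1| + |X u1 - X u| := by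
      have := abs_sub_abs_le_abs_sub (X u) (X u1)
      rw [abs_sub_comm (X u) (X u1)] at this
      linarith
    linarith
  have hlim : Tendsto (fun e : ℝ => x0 + R * Real.sqrt ((v0 + e) * A)) (𝓝[>] 0)
      (𝓝 (x0 + R * Real.sqrt ((v0 + 0) * A))) := by
    have hc : Continuous (fun e : ℝ => x0 + R * Real.sqrt ((v0 + e) * A)) := by fun_prop
    exact (hc.tendsto 0).mono_left nhdsWithin_le_nhds
  have hfin : |X u| ≤ x0 + R * Real.sqrt ((v0 + 0) * A) := by
    refine ge_of_tendsto hlim ?_
    have : Ioc (0 : ℝ) (1 / 2) ∈ 𝓝[>] (0 : ℝ) := Ioc_mem_nhdsGT (by norm_num)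
    filter_upwards [this] with e he using key e he.1 he.2
  refine hfin.trans ?_
  have : Real.sqrt ((v0 + 0) * A) ≤ Real.sqrt (2 * v0 * A) := by
    refine Real.sqrt_le_sqrt ?_
    exact mul_le_mul_of_nonneg_right (by linarith) hA
  nlinarith [this]

end Pool.Agent.Work.MP_1151e3_an
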