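import Pool.Agent.Work.MP_1151e3_an.Basic

/-!
# D9: words in popular elements
-/

set_option autoImplicit false

namespace Pool.Agent.Work.MP_1151e3_an

open MeasureTheory Set
open Aff

lemma D9_Wd_zero {S : Set Aff} {w : Aff} (hw : w ∈ Wd S 0) : w = 1 := by
  obtain ⟨L, hL, -, rfl⟩ := hw
  have : L = [] := List.eq_nil_of_length_eq_zero hL
  subst this
  rfl

lemma D9_Wd_succ {S : Set Aff} {l : ℕ} {w : Aff} (hw : w ∈ Wd S (l + 1)) :
    ∃ w' ∈ Wd S l, ∃ x ∈ S, w = w' * x := by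
  obtain ⟨L, hL, hLS, rfl⟩ := hw
  have hne : L ≠ [] := by
    intro h
    rw [h] at hL
    simp at hL
  refine ⟨L.dropLast.prod, ⟨L.dropLast, by simp [hL], fun x hx => hLS x
    (List.mem_of_mem_dropLast hx), rfl⟩, L.getLast hne, hLS _ (List.getLast_mem hne), ?_⟩
  conv_lhs => rw [← List.dropLast_append_getLast hne]
  rw [List.prod_append]
  simp

lemma D9_Wd_bd {B : ℝ} (hB : 1 ≤ B) {S : Set Aff} (hS : ∀ x ∈ S, x.bd B) (l : ℕ) :
    ∀ w ∈ Wd S l, w.bd ((2 * B) ^ l) := by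
  induction l with
  | zero =>
    intro w hw
    rw [D9_Wd_zero hw, pow_zero]
    exact bd_one le_rfl
  | succ l ih =>
    intro w hw
    obtain ⟨w', hw', x, hx, rfl⟩ := D9_Wd_succ hw
    have h1 := bd_mul (one_le_pow₀ (by linarith : (1 : ℝ) ≤ 2 * B)) hB (ih w' hw') (hS x hx)
    have e : (2 * B) ^ (l + 1) = 2 * (2 * B) ^ l * B := by ring
    rw [e]
    exact h1

/-- The elements `e⁻¹ w e'`. -/
def D9X (S : Set Aff) (E : Finset Aff) (l : ℕ) : Set Aff :=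
  {z | ∃ e ∈ E, ∃ w ∈ Wd S l, ∃ e' ∈ E, z = e⁻¹ * w * e'}

/-- Packing of a ball. -/
lemma D9_pack (hp : ClaimPack) {δ ρ : ℝ} (hδ : 0 < δ) (hρ : 0 ≤ ρ) {E : Finset Aff}
    (hE : Sep δ E) (g0 : Aff) (h : ∀ g ∈ E, g.ad g0 ≤ ρ * δ) :
    (E.card : ℝ) ≤ (4 * ρ + 1) ^ 2 := by
  have h0 : 0 ≤ ρ * δ := by positivity
  have key := hp δ (2 * (ρ * δ)) (ρ * δ) 0 (g0.s - ρ * δ) g0.t E hδ (by positivity) h0
    (by simp) hE (by
      intro g hg
      have h1 := abs_le.mp ((s_le_ad g g0).trans (h g hg))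
      have h2 := (t_le_ad g g0).trans (h g hg)
      refine ⟨by linarith [h1.1], by linarith [h1.2], ?_⟩
      rw [mul_zero, zero_add]
      exact h2)
  have e1 : 2 * (2 * (ρ * δ)) / δ + 1 = 4 * ρ + 1 := by field_simp; ring
  have e2 : 4 * (ρ * δ) / δ + 1 = 4 * ρ + 1 := by field_simp
  rw [e1, e2] at key
  calc (E.card : ℝ) ≤ (4 * ρ + 1) * (4 * ρ + 1) := key
    _ = _ := by ring

lemma D9_X_bd {B : ℝ} (hB : 1 ≤ B) {S : Set Aff} {E : Finset Aff} (hE : ∀ g ∈ E, g.bd B)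
    (hS : ∀ x ∈ S, x.bd B) (l : ℕ) : ∀ z ∈ D9X S E l, z.bd (4 * B ^ 3 * (2 * B) ^ l) := by
  rintro z ⟨e, he, w, hw, e', he', rfl⟩
  have hW : (1 : ℝ) ≤ (2 * B) ^ l := one_le_pow₀ (by linarith)
  have hB2 : (1 : ℝ) ≤ B ^ 2 := one_le_pow₀ hB
  have h1 := bd_mul hB2 hW (bd_inv hB (hE e he)) (D9_Wd_bd hB hS l w hw)
  have h2 := bd_mul (by nlinarith) hB h1 (hE e' he')
  have e : 4 * B ^ 3 * (2 * B) ^ l = 2 * (2 * B ^ 2 * (2 * B) ^ l) * B := by ring
  rw [e]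
  exact h2

open Classical in
lemma D9_main (hp : ClaimPack) {B : ℝ} (hB : 1 ≤ B) (l : ℕ) : ∃ C : ℝ, 1 ≤ C ∧
    ∀ (δ M γ : ℝ) (E : Finset Aff) (S : Set Aff), 0 < δ → δ ≤ 1 → 0 < M → 0 < γ → E.Nonempty →
    (∀ g ∈ E, g.bd B) → Sep δ E → Cnt δ (quo E) M →
    (∀ x ∈ S, x.bd B ∧ γ * (E.card : ℝ) ≤ pop (B * δ) E x) →
    Cnt (C * δ) (D9X S E l) (C * M ^ (l + 1) / (γ * (E.card : ℝ)) ^ l) := by
  induction l with
  | zero =>
    refine ⟨1, le_rfl, ?_⟩
    intro δ M γ E S hδ _ hM _ _ _ _ hcnt _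
    refine hcnt.mono (by linarith) (by simp) ?_
    rintro z ⟨e, he, w, hw, e', he', rfl⟩
    rw [D9_Wd_zero hw, mul_one]
    exact ⟨e', he', e, he, rfl⟩
  | succ l ih =>
    obtain ⟨Cl, hCl, hIH⟩ := ih
    set W : ℝ := (2 * B) ^ l with hW
    have hW1 : (1 : ℝ) ≤ W := one_le_pow₀ (by linarith)
    set D : ℝ := 16 * B ^ 6 * W with hD
    have hB0 : 0 < B := by linarith
    have hB2 : (1 : ℝ) ≤ B ^ 2 := one_le_pow₀ hB
    have hB3 : (1 : ℝ) ≤ B ^ 3 := one_le_pow₀ hB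
    have hB6 : (1 : ℝ) ≤ B ^ 6 := one_le_pow₀ hB
    have m1 : B ≤ B ^ 6 := le_self_pow₀ hB (by norm_num)
    have m2 : B ^ 2 ≤ B ^ 6 := pow_le_pow_right₀ hB (by norm_num)
    have m3 : B ^ 3 ≤ B ^ 6 := pow_le_pow_right₀ hB (by norm_num)
    have d0 : B ^ 6 ≤ B ^ 6 * W := le_mul_of_one_le_right (by positivity) hW1
    have d1 : B ≤ D := by rw [hD]; nlinarith
    have d2 : 2 * B ^ 2 * W ≤ D := by rw [hD]; nlinarith [mul_le_mul_of_nonneg_right m2 (by linarith : (0 : ℝ) ≤ W)]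
    have d3 : 4 * B ^ 3 * W ≤ D := by rw [hD]; nlinarith [mul_le_mul_of_nonneg_right m3 (by linarith : (0 : ℝ) ≤ W)]
    have d4 : 2 * B ^ 3 ≤ D := by rw [hD]; nlinarith
    have d5 : 2 * B * B ≤ D := by rw [hD]; nlinarith
    have d6 : B ^ 2 ≤ D := by rw [hD]; nlinarith
    have hD1 : 1 ≤ D := hB.trans d1
    have hD0 : 0 < D := by linarith
    set κ : ℝ := 4 * D ^ 2 * B + 2 * D * (Cl + 1) with hκ
    have hκ0 : 0 ≤ κ := by positivity
    set ρ : ℝ := 8 * D ^ 5 * Cl with hρ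
    have hρ0 : 0 ≤ ρ := by positivity
    set P : ℝ := (4 * ρ + 1) ^ 2 with hP
    have hP0 : 0 ≤ P := by positivity
    refine ⟨(2 * κ + 1) + P * P * Cl, ?_, ?_⟩
    · have : 0 ≤ P * P * Cl := by positivity
      linarith
    intro δ M γ E S hδ hδ1 hM hγ hne hbd hsep hcnt hS
    have hSb : ∀ x ∈ S, x.bd B := fun x hx => (hS x hx).1
    have hEc : 0 < (E.card : ℝ) := by exact_mod_cast hne.card_pos
    obtain ⟨N, hNX, -, hNcard, hNnet⟩ :=
      (hIH δ M γ E S hδ hδ1 hM hγ hne hbd hsep hcnt hS).exists_net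
    obtain ⟨N0, hN0X, -, hN0card, hN0net⟩ := hcnt.exists_net
    have net1 : ∀ x ∈ D9X S E l, ∃ g ∈ N, x.ad g ≤ Cl * δ := by
      intro x hx
      obtain ⟨g, hg, h | h⟩ := hNnet x hx
      · exact ⟨g, hg, h.le⟩
      · exact ⟨g, hg, by rw [h, ad_self]; positivity⟩
    have net0 : ∀ x ∈ quo E, ∃ g ∈ N0, x.ad g ≤ δ := by
      intro x hx
      obtain ⟨g, hg, h | h⟩ := hN0net x hx
      · exact ⟨g, hg, h.le⟩
      · exact ⟨g, hg, by rw [h, ad_self]; positivity⟩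
    choose! ν hνN hν using net1
    choose! ν0 hν0N hν0 using net0
    intro F hF hFsep
    have hdat : ∀ z ∈ F, ∃ e ∈ E, ∃ w ∈ Wd S l, ∃ x ∈ S, ∃ e' ∈ E, z = e⁻¹ * (w * x) * e' := by
      intro z hz
      obtain ⟨e, he, w, hw, e', he', rfl⟩ := hF z hz
      obtain ⟨w', hw', x, hx, rfl⟩ := D9_Wd_succ hw
      exact ⟨e, he, w', hw', x, hx, e', he', rfl⟩
    choose! e he w hw x hx e' he' hz using hdat
    -- bounds
    have b1 : ∀ z ∈ F, ((e z)⁻¹ * w z).bd D := fun z hzF =>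
      bd_mono (by positivity) d2 (bd_mul hB2 hW1 (bd_inv hB (hbd _ (he z hzF)))
        (D9_Wd_bd hB hSb l _ (hw z hzF)))
    have b2 : ∀ z ∈ F, ∀ h ∈ E, (x z * h).bd D := fun z hzF h hh =>
      bd_mono (by positivity) d5 (bd_mul hB hB (hSb _ (hx z hzF)) (hbd h hh))
    have memX : ∀ z ∈ F, ∀ h ∈ E, (e z)⁻¹ * w z * h ∈ D9X S E l := fun z hzF h hh =>
      ⟨e z, he z hzF, w z, hw z hzF, h, hh, rfl⟩
    have bX : ∀ y ∈ D9X S E l, y.bd D := fun y hy =>
      bd_mono (by positivity) d3 (D9_X_bd hB hbd hSb l y hy)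
    have memQ : ∀ z ∈ F, ∀ h ∈ E, h⁻¹ * e' z ∈ quo E := fun z hzF h hh =>
      ⟨e' z, he' z hzF, h, hh, rfl⟩
    have bQ : ∀ z ∈ F, ∀ h ∈ E, (h⁻¹ * e' z).bd D := fun z hzF h hh =>
      bd_mono (by positivity) (by nlinarith : 2 * B ^ 2 * B ≤ D)
        (bd_mul hB2 hB (bd_inv hB (hbd h hh)) (hbd _ (he' z hzF)))
    -- the approximate factorisation
    have near : ∀ z ∈ F, ∀ h ∈ E, ∀ h' ∈ E, (x z * h).ad h' ≤ B * δ →
        z.ad (ν ((e z)⁻¹ * w z * h') * ν0 (h⁻¹ * e' z)) ≤ κ * δ := by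
      intro z hzF h hh h' hh' hpair
      have s1 : ((e z)⁻¹ * w z * (x z * h)).ad ((e z)⁻¹ * w z * h') ≤ 2 * D * (B * δ) := by
        refine (ad_mul_le hD1 (b1 z hzF) (b2 z hzF h hh)).trans ?_
        rw [ad_self, zero_add]
        exact mul_le_mul_of_nonneg_left hpair (by positivity)
      have s2 : z.ad ((e z)⁻¹ * w z * h' * (h⁻¹ * e' z)) ≤ 2 * D * (2 * D * (B * δ)) := by
        have ez : z = (e z)⁻¹ * w z * (x z * h) * (h⁻¹ * e' z) := by
          conv_lhs => rw [hz z hzF]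
          group
        have key := ad_mul_le hD1 (g := (e z)⁻¹ * w z * (x z * h)) (h' := h⁻¹ * e' z)
          (bX _ (memX z hzF h' hh')) (bQ z hzF h hh)
        rw [← ez, ad_self, add_zero] at key
        exact key.trans (mul_le_mul_of_nonneg_left s1 (by positivity))
      have s3 : ((e z)⁻¹ * w z * h' * (h⁻¹ * e' z)).ad
          (ν ((e z)⁻¹ * w z * h') * ν0 (h⁻¹ * e' z)) ≤ 2 * D * (Cl * δ + δ) := by
        refine (ad_mul_le hD1 (bX _ (hNX _ (hνN _ (memX z hzF h' hh')))) (bQ z hzF h hh)).trans ?_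
        exact mul_le_mul_of_nonneg_left (add_le_add (hν _ (memX z hzF h' hh'))
          (hν0 _ (memQ z hzF h hh))) (by positivity)
      calc z.ad (ν ((e z)⁻¹ * w z * h') * ν0 (h⁻¹ * e' z)) ≤ _ :=
            ad_triangle z ((e z)⁻¹ * w z * h' * (h⁻¹ * e' z)) _
        _ ≤ 2 * D * (2 * D * (B * δ)) + 2 * D * (Cl * δ + δ) := add_le_add s2 s3
        _ = κ * δ := by rw [hκ]; ring
    -- the set of triples
    set T : Finset ((_ : Aff) × (Aff × Aff)) :=
      F.sigma (fun z => (E ×ˢ E).filter fun p => (x z * p.1).ad p.2 ≤ B * δ) with hT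
    have hTcard : (F.card : ℝ) * (γ * (E.card : ℝ)) ≤ (T.card : ℝ) := by
      rw [hT, Finset.card_sigma]
      push_cast
      calc (F.card : ℝ) * (γ * (E.card : ℝ)) = ∑ _z ∈ F, γ * (E.card : ℝ) := by
            rw [Finset.sum_const, nsmul_eq_mul]
        _ ≤ _ := Finset.sum_le_sum fun z hzF => (hS (x z) (hx z hzF)).2
    set φ : ((_ : Aff) × (Aff × Aff)) → Aff × Aff := fun q =>
      (ν ((e q.1)⁻¹ * w q.1 * q.2.2), ν0 (q.2.1⁻¹ * e' q.1)) with hφ
    have hmaps : ∀ q ∈ T, φ q ∈ N ×ˢ N0 := by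
      intro q hq
      rw [hT, Finset.mem_sigma, Finset.mem_filter, Finset.mem_product] at hq
      obtain ⟨hq1, ⟨hq2, hq3⟩, -⟩ := hq
      rw [Finset.mem_product]
      exact ⟨hνN _ (memX _ hq1 _ hq3), hν0N _ (memQ _ hq1 _ hq2)⟩
    have hfib : ∀ b ∈ N ×ˢ N0, ((T.filter fun q => φ q = b).card : ℝ) ≤ P * P := by
      intro b _
      rcases (T.filter fun q => φ q = b).eq_empty_or_nonempty with h0 | ⟨q0, hq0⟩
      · rw [h0]; simp; positivity
      have hmem : ∀ q ∈ T.filter (fun q => φ q = b), q.1 ∈ F ∧ q.2.1 ∈ E ∧ q.2.2 ∈ E ∧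
          (x q.1 * q.2.1).ad q.2.2 ≤ B * δ ∧ φ q = b := by
        intro q hq
        rw [Finset.mem_filter, hT, Finset.mem_sigma, Finset.mem_filter, Finset.mem_product] at hq
        exact ⟨hq.1.1, hq.1.2.1.1, hq.1.2.1.2, hq.1.2.2, hq.2⟩
      obtain ⟨f1, f2, f3, f4, f5⟩ := hmem q0 hq0
      have hkey : ∀ q ∈ T.filter (fun q => φ q = b), q.1 = q0.1 ∧
          q.2.1 ∈ E.filter (fun g => g.ad q0.2.1 ≤ ρ * δ) ∧
          q.2.2 ∈ E.filter (fun g => g.ad q0.2.2 ≤ ρ * δ) := by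
        intro q hq
        obtain ⟨g1, g2, g3, g4, g5⟩ := hmem q hq
        have hφeq : φ q = φ q0 := g5.trans f5.symm
        have hφ1 : ν ((e q.1)⁻¹ * w q.1 * q.2.2) = ν ((e q0.1)⁻¹ * w q0.1 * q0.2.2) :=
          congrArg Prod.fst hφeq
        have hφ2 : ν0 (q.2.1⁻¹ * e' q.1) = ν0 (q0.2.1⁻¹ * e' q0.1) :=
          congrArg Prod.snd hφeq
        have hz1 : q.1 = q0.1 := by
          by_contra hcon
          have h1 := hFsep _ g1 _ f1 hcon
          have h2 := near _ g1 _ g2 _ g3 g4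
          have h3 := near _ f1 _ f2 _ f3 f4
          rw [hφ1, hφ2] at h2
          have h4 := ad_triangle q.1 (ν ((e q0.1)⁻¹ * w q0.1 * q0.2.2) *
            ν0 (q0.2.1⁻¹ * e' q0.1)) q0.1
          rw [ad_comm (ν ((e q0.1)⁻¹ * w q0.1 * q0.2.2) *
            ν0 (q0.2.1⁻¹ * e' q0.1)) q0.1] at h4
          have h5 : ((2 * κ + 1) + P * P * Cl) * δ ≤ 2 * κ * δ := by linarith
          have h6 : 0 ≤ P * P * Cl * δ := by positivity
          nlinarith
        refine ⟨hz1, ?_, ?_⟩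
        · rw [Finset.mem_filter]
          refine ⟨g2, ?_⟩
          have h1 := hν0 _ (memQ _ g1 _ g2)
          have h2 := hν0 _ (memQ _ f1 _ f2)
          rw [hφ2] at h1
          have h3 := ad_triangle (q.2.1⁻¹ * e' q.1) (ν0 (q0.2.1⁻¹ * e' q0.1))
            (q0.2.1⁻¹ * e' q0.1)
          rw [ad_comm (ν0 (q0.2.1⁻¹ * e' q0.1)) (q0.2.1⁻¹ * e' q0.1)] at h3
          rw [hz1] at h3 h1
          have h4 : (q.2.1⁻¹ * e' q0.1).ad (q0.2.1⁻¹ * e' q0.1) ≤ 2 * δ := by linarith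
          have h5 := ad_le_of_mul_right hD1 (g := e' q0.1) (h := q.2.1⁻¹) (h' := q0.2.1⁻¹)
            (bd_mono hB0 d1 (hbd _ (he' _ f1))) (bQ _ f1 _ f2)
          have h6 : (q.2.1⁻¹).ad (q0.2.1⁻¹) ≤ 4 * D ^ 2 * δ := by
            have : 2 * D ^ 2 * (q.2.1⁻¹ * e' q0.1).ad (q0.2.1⁻¹ * e' q0.1) ≤
              2 * D ^ 2 * (2 * δ) := mul_le_mul_of_nonneg_left h4 (by positivity)
            linarith
          have h7 := ad_inv_le hD1 (g := q.2.1⁻¹) (h := q0.2.1⁻¹)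
            (bd_mono (by positivity) d6 (bd_inv hB (hbd _ g2)))
            (bd_mono (by positivity) d6 (bd_inv hB (hbd _ f2)))
          rw [inv_inv, inv_inv] at h7
          have h8 : 2 * D ^ 3 * (q.2.1⁻¹).ad (q0.2.1⁻¹) ≤ 2 * D ^ 3 * (4 * D ^ 2 * δ) :=
            mul_le_mul_of_nonneg_left h6 (by positivity)
          have h9 : 2 * D ^ 3 * (4 * D ^ 2 * δ) ≤ ρ * δ := by
            rw [hρ]
            have : 2 * D ^ 3 * (4 * D ^ 2 * δ) = 8 * D ^ 5 * δ * 1 := by ring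
            rw [this]
            have : 8 * D ^ 5 * Cl * δ = 8 * D ^ 5 * δ * Cl := by ring
            rw [this]
            exact mul_le_mul_of_nonneg_left hCl (by positivity)
          linarith
        · rw [Finset.mem_filter]
          refine ⟨g3, ?_⟩
          have h1 := hν _ (memX _ g1 _ g3)
          have h2 := hν _ (memX _ f1 _ f3)
          rw [hφ1] at h1
          have h3 := ad_triangle ((e q.1)⁻¹ * w q.1 * q.2.2)
            (ν ((e q0.1)⁻¹ * w q0.1 * q0.2.2)) ((e q0.1)⁻¹ * w q0.1 * q0.2.2)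
          rw [ad_comm (ν ((e q0.1)⁻¹ * w q0.1 * q0.2.2)) ((e q0.1)⁻¹ * w q0.1 * q0.2.2)] at h3
          rw [hz1] at h3 h1
          have h4 : ((e q0.1)⁻¹ * w q0.1 * q.2.2).ad ((e q0.1)⁻¹ * w q0.1 * q0.2.2) ≤
              2 * Cl * δ := by linarith
          have h5 := ad_le_of_mul_left hD1 (g := (e q0.1)⁻¹ * w q0.1) (h := q.2.2)
            (h' := q0.2.2) (b1 _ f1) (bX _ (memX _ f1 _ g3))
          have h6 : 2 * D ^ 2 * ((e q0.1)⁻¹ * w q0.1 * q.2.2).ad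
              ((e q0.1)⁻¹ * w q0.1 * q0.2.2) ≤ 2 * D ^ 2 * (2 * Cl * δ) :=
            mul_le_mul_of_nonneg_left h4 (by positivity)
          have h7 : 2 * D ^ 2 * (2 * Cl * δ) ≤ ρ * δ := by
            rw [hρ]
            have hD25 : D ^ 2 ≤ D ^ 5 := pow_le_pow_right₀ hD1 (by norm_num)
            have : 4 * Cl * δ * D ^ 2 ≤ 4 * Cl * δ * D ^ 5 :=
              mul_le_mul_of_nonneg_left hD25 (by positivity)
            have h' : 0 ≤ 4 * Cl * δ * D ^ 5 := by positivity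
            nlinarith
          linarith
      have hsub : (T.filter fun q => φ q = b) ⊆
          ((E.filter (fun g => g.ad q0.2.1 ≤ ρ * δ)) ×ˢ
            (E.filter (fun g => g.ad q0.2.2 ≤ ρ * δ))).image
            (fun p : Aff × Aff => (⟨q0.1, p⟩ : (_ : Aff) × (Aff × Aff))) := by
        intro q hq
        obtain ⟨k1, k2, k3⟩ := hkey q hq
        rw [Finset.mem_image]
        refine ⟨q.2, Finset.mem_product.mpr ⟨k2, k3⟩, ?_⟩
        rw [← k1]
      have hcard := Finset.card_le_card hsub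
      have hcard2 : ((T.filter fun q => φ q = b).card : ℝ) ≤
          ((E.filter (fun g => g.ad q0.2.1 ≤ ρ * δ)).card : ℝ) *
            ((E.filter (fun g => g.ad q0.2.2 ≤ ρ * δ)).card : ℝ) := by
        have := hcard.trans Finset.card_image_le
        rw [Finset.card_product] at this
        exact_mod_cast this
      have p1 : ((E.filter (fun g => g.ad q0.2.1 ≤ ρ * δ)).card : ℝ) ≤ P :=
        D9_pack hp hδ hρ0 (hsep.subset (Finset.filter_subset _ _)) q0.2.1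
          (fun g hg => (Finset.mem_filter.mp hg).2)
      have p2 : ((E.filter (fun g => g.ad q0.2.2 ≤ ρ * δ)).card : ℝ) ≤ P :=
        D9_pack hp hδ hρ0 (hsep.subset (Finset.filter_subset _ _)) q0.2.2
          (fun g hg => (Finset.mem_filter.mp hg).2)
      exact hcard2.trans (mul_le_mul p1 p2 (Nat.cast_nonneg _) hP0)
    have hTle : (T.card : ℝ) ≤ (N.card : ℝ) * (N0.card : ℝ) * (P * P) := by
      rw [Finset.card_eq_sum_card_fiberwise hmaps, Nat.cast_sum]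
      calc ∑ b ∈ N ×ˢ N0, ((T.filter fun q => φ q = b).card : ℝ) ≤
          ∑ _b ∈ N ×ˢ N0, P * P := Finset.sum_le_sum hfib
        _ = _ := by
          rw [Finset.sum_const, nsmul_eq_mul, Finset.card_product, Nat.cast_mul]
    have hge : 0 < γ * (E.card : ℝ) := by positivity
    have hfin : (F.card : ℝ) * (γ * (E.card : ℝ)) ≤
        (Cl * M ^ (l + 1) / (γ * (E.card : ℝ)) ^ l) * M * (P * P) := by
      refine hTcard.trans (hTle.trans ?_)
      apply mul_le_mul_of_nonneg_right _ (by positivity)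
      exact mul_le_mul hNcard hN0card (by positivity) (by positivity)
    have h1 : (F.card : ℝ) ≤ (P * P * Cl) * (M ^ (l + 1 + 1) / (γ * (E.card : ℝ)) ^ (l + 1)) := by
      have e : (P * P * Cl) * (M ^ (l + 1 + 1) / (γ * (E.card : ℝ)) ^ (l + 1)) *
          (γ * (E.card : ℝ)) = (Cl * M ^ (l + 1) / (γ * (E.card : ℝ)) ^ l) * M * (P * P) := by
        have := hge.ne'
        rw [pow_succ (γ * (E.card : ℝ)) l, pow_succ M (l + 1)]
        field_simp
      rw [← e] at hfin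
      exact le_of_mul_le_mul_right hfin hge
    have h2 : 0 ≤ M ^ (l + 1 + 1) / (γ * (E.card : ℝ)) ^ (l + 1) := by positivity
    calc (F.card : ℝ) ≤ _ := h1
      _ ≤ (2 * κ + 1 + P * P * Cl) * (M ^ (l + 1 + 1) / (γ * (E.card : ℝ)) ^ (l + 1)) := by
          apply mul_le_mul_of_nonneg_right _ h2
          linarith
      _ = _ := by rw [mul_div_assoc]

open Classical in
/-- D9. Words in popular elements. -/
theorem claimWords (hp : ClaimPack) : ClaimWords := by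
  intro B l hB
  obtain ⟨C, hC, h⟩ := D9_main hp hB l
  have hB0 : 0 < B := by linarith
  have hW1 : (1 : ℝ) ≤ (2 * B) ^ l := one_le_pow₀ (by linarith)
  set D : ℝ := 4 * B ^ 3 * (2 * B) ^ l with hD
  have hB3 : B ≤ B ^ 3 := le_self_pow₀ hB (by norm_num)
  have hBD : B ≤ D := by
    rw [hD]
    have : B ^ 3 ≤ B ^ 3 * (2 * B) ^ l := le_mul_of_one_le_right (by positivity) hW1
    nlinarith
  have hD1 : 1 ≤ D := hB.trans hBD
  refine ⟨2 * D * C, by nlinarith, ?_⟩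
  intro δ M γ E S hδ hδ1 hM hγ hne hbd hsep hcnt hS
  have hcl := h δ M γ E S hδ hδ1 hM hγ hne hbd hsep hcnt hS
  have hSb : ∀ x ∈ S, x.bd B := fun x hx => (hS x hx).1
  obtain ⟨e0, he0⟩ := hne
  have hEc : 0 < (E.card : ℝ) := by exact_mod_cast Finset.card_pos.mpr ⟨e0, he0⟩
  intro F hF hFsep
  have hinj : Function.Injective (fun z : Aff => e0⁻¹ * z) := mul_right_injective _
  have hmem : ∀ z ∈ F, e0⁻¹ * z ∈ D9X S E l := by
    intro z hz
    obtain ⟨w, hw, e, he, rfl⟩ := hF z hz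
    exact ⟨e0, he0, w, hw, e, he, by group⟩
  have h1 := hcl (F.image (fun z : Aff => e0⁻¹ * z)) (by
    intro g hg
    obtain ⟨z, hz, rfl⟩ := Finset.mem_image.mp hg
    exact hmem z hz) (by
    intro g hg g' hg' hne'
    obtain ⟨z, hz, rfl⟩ := Finset.mem_image.mp hg
    obtain ⟨z', hz', rfl⟩ := Finset.mem_image.mp hg'
    have hzz : z ≠ z' := fun hh => hne' (by rw [hh])
    have h2 := hFsep z hz z' hz' hzz
    have h3 := ad_mul_le hD1 (g := e0) (g' := e0) (h := e0⁻¹ * z) (h' := e0⁻¹ * z')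
      (bd_mono hB0 hBD (hbd e0 he0)) (D9_X_bd hB hbd hSb l _ (hmem z hz))
    rw [ad_self, zero_add, mul_inv_cancel_left, mul_inv_cancel_left] at h3
    have h4 : 2 * D * (C * δ) ≤ 2 * D * (e0⁻¹ * z).ad (e0⁻¹ * z') := by
      calc 2 * D * (C * δ) = 2 * D * C * δ := by ring
        _ ≤ _ := h2.trans h3
    exact le_of_mul_le_mul_left h4 (by positivity))
  rw [Finset.card_image_of_injective _ hinj] at h1
  refine h1.trans ?_
  have h5 : 0 ≤ M ^ (l + 1) / (γ * (E.card : ℝ)) ^ l := by positivity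
  rw [mul_div_assoc, mul_div_assoc]
  apply mul_le_mul_of_nonneg_right _ h5
  nlinarith

end Pool.Agent.Work.MP_1151e3_an
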