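import Pool.Agent.Work.MP_1151e3_an.Basic

/-!
# Open intervals in shifted products: commutators, and slopes acting on translations (D13)
-/

set_option autoImplicit false

namespace Pool.Agent.Work.MP_1151e3_an

open MeasureTheory Set Aff

lemma act_wd_mul {S : Set Aff} {a b : ℕ} {w v : Aff} (hw : w ∈ Wd S a) (hv : v ∈ Wd S b) :
    w * v ∈ Wd S (a + b) := by
  obtain ⟨L, h1, h2, rfl⟩ := hw
  obtain ⟨M, h3, h4, rfl⟩ := hv
  refine ⟨L ++ M, by rw [List.length_append, h1, h3], ?_, by rw [List.prod_append]⟩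
  intro x hx
  rcases List.mem_append.mp hx with h | h
  · exact h2 x h
  · exact h4 x h

lemma act_wd_one {S : Set Aff} (h1 : (1 : Aff) ∈ S) (a : ℕ) : (1 : Aff) ∈ Wd S a := by
  refine ⟨List.replicate a 1, List.length_replicate, ?_, by simp⟩
  intro x hx
  rw [List.eq_of_mem_replicate hx]; exact h1

lemma act_wd_mono {S : Set Aff} (h1 : (1 : Aff) ∈ S) {a b : ℕ} (hab : a ≤ b) {w : Aff}
    (hw : w ∈ Wd S a) : w ∈ Wd S b := by
  have := act_wd_mul hw (act_wd_one h1 (b - a))
  rw [mul_one, Nat.add_sub_cancel' hab] at this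
  exact this

lemma act_wd_inv {S : Set Aff} (hi : ∀ x ∈ S, x⁻¹ ∈ S) {a : ℕ} {w : Aff} (hw : w ∈ Wd S a) :
    w⁻¹ ∈ Wd S a := by
  obtain ⟨L, h1, h2, rfl⟩ := hw
  refine ⟨(L.map (fun x => x⁻¹)).reverse, by simp [h1], ?_, by rw [List.prod_inv_reverse]⟩
  intro x hx
  rw [List.mem_reverse, List.mem_map] at hx
  obtain ⟨y, hy, rfl⟩ := hx
  exact hi y (h2 y hy)

lemma act_wd_single {S : Set Aff} {x : Aff} (hx : x ∈ S) : x ∈ Wd S 1 :=
  ⟨[x], rfl, by simpa using hx, by simp⟩

theorem claimAct : ClaimAct := by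
  constructor
  · intro S hi x hx y hy
    refine ⟨[x, y, x⁻¹, y⁻¹], rfl, ?_, ?_⟩
    · intro w hw
      simp only [List.mem_cons, List.not_mem_nil, or_false] at hw
      rcases hw with rfl | rfl | rfl | rfl
      · exact hx
      · exact hy
      · exact hi _ hx
      · exact hi _ hy
    · have h1 := x.pos.ne'
      have h2 := y.pos.ne'
      simp only [List.prod_cons, List.prod_nil, mul_one]
      ext
      · simp only [tr_s, mul_s, inv_s]
        field_simp
      · simp only [tr_t, mul_t, inv_t, inv_s]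
        field_simp
        ring
  · intro m
    induction m with
    | zero =>
      intro l
      refine ⟨l + 2, ?_⟩
      intro S h1 hi y hy z hz
      rcases hz with rfl | rfl | ⟨x, hx, rfl⟩
      · rw [zero_mul]
        have e : tr 0 = 1 := by ext <;> simp
        rw [e]
        exact act_wd_one h1 _
      · rw [one_mul]
        exact act_wd_mono h1 (Nat.le_add_right _ _) hy
      · rw [← conj_tr]
        have := act_wd_mul (act_wd_mul (act_wd_single hx) hy) (act_wd_single (hi x hx))
        have e : 1 + l + 1 = l + 2 := by omega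
        rwa [e] at this
    | succ m ih =>
      intro l
      obtain ⟨l1, h1⟩ := ih l
      obtain ⟨l2, h2⟩ := ih l1
      refine ⟨l1 + l1 + l2, ?_⟩
      intro S h1S hi y hy z hz
      obtain ⟨a, ha, b, hb, h3⟩ := hz
      have wa := h1 S h1S hi y hy a ha
      have wb := h1 S h1S hi y hy b hb
      rcases h3 with rfl | rfl | rfl
      · rw [add_mul, ← tr_mul_tr]
        exact act_wd_mono h1S (Nat.le_add_right _ _) (act_wd_mul wa wb)
      · rw [sub_mul, sub_eq_add_neg, ← tr_mul_tr, ← tr_inv]
        exact act_wd_mono h1S (Nat.le_add_right _ _) (act_wd_mul wa (act_wd_inv hi wb))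
      · rw [mul_assoc]
        exact act_wd_mono h1S (Nat.le_add_left _ _) (h2 S h1S hi (b * y) wb a ha)

end Pool.Agent.Work.MP_1151e3_an
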