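import Pool.Agent.Work.MP_1151e3_an.Claims

/-!
# Open intervals in shifted products: basic lemmas
-/

set_option autoImplicit false

namespace Pool.Agent.Work.MP_1151e3_an

open MeasureTheory Set
open scoped ENNReal

namespace Aff

lemma ad_comm (g h : Aff) : g.ad h = h.ad g := by
  unfold ad; rw [abs_sub_comm g.s, abs_sub_comm g.t]

lemma ad_self (g : Aff) : g.ad g = 0 := by simp [ad]

lemma ad_nonneg (g h : Aff) : 0 ≤ g.ad h := le_max_of_le_left (abs_nonneg _)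

lemma ad_triangle (g h k : Aff) : g.ad k ≤ g.ad h + h.ad k := by
  unfold ad
  refine max_le ?_ ?_
  · calc |g.s - k.s| = |(g.s - h.s) + (h.s - k.s)| := by ring_nf
      _ ≤ |g.s - h.s| + |h.s - k.s| := abs_add_le _ _
      _ ≤ _ := add_le_add (le_max_left _ _) (le_max_left _ _)
  · calc |g.t - k.t| = |(g.t - h.t) + (h.t - k.t)| := by ring_nf
      _ ≤ |g.t - h.t| + |h.t - k.t| := abs_add_le _ _
      _ ≤ _ := add_le_add (le_max_right _ _) (le_max_right _ _)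

lemma s_le_ad (g h : Aff) : |g.s - h.s| ≤ g.ad h := le_max_left _ _
lemma t_le_ad (g h : Aff) : |g.t - h.t| ≤ g.ad h := le_max_right _ _

lemma ad_le {g h : Aff} {r : ℝ} (h1 : |g.s - h.s| ≤ r) (h2 : |g.t - h.t| ≤ r) : g.ad h ≤ r :=
  max_le h1 h2

lemma eq_of_ad_eq_zero {g h : Aff} (H : g.ad h = 0) : g = h := by
  have h1 : |g.s - h.s| ≤ 0 := H ▸ s_le_ad g h
  have h2 : |g.t - h.t| ≤ 0 := H ▸ t_le_ad g h
  ext
  · linarith [abs_nonpos_iff.mp h1]
  · linarith [abs_nonpos_iff.mp h2]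

lemma bd_mono {B B' : ℝ} (hB : 0 < B) (hBB : B ≤ B') {g : Aff} (hg : g.bd B) : g.bd B' :=
  ⟨(inv_anti₀ hB hBB).trans hg.1, hg.2.1.trans hBB, hg.2.2.trans hBB⟩

lemma bd_one {B : ℝ} (hB : 1 ≤ B) : (1 : Aff).bd B :=
  ⟨by simpa using inv_le_one_of_one_le₀ hB, by simpa using hB, by simp; linarith⟩

lemma bd_mul {B B' : ℝ} (hB : 1 ≤ B) (hB' : 1 ≤ B') {g h : Aff} (hg : g.bd B) (hh : h.bd B') :
    (g * h).bd (2 * B * B') := by
  have h0 : (0 : ℝ) < B := by linarith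
  have h0' : (0 : ℝ) < B' := by linarith
  refine ⟨?_, ?_, ?_⟩
  · have : B⁻¹ * B'⁻¹ ≤ g.s * h.s := mul_le_mul hg.1 hh.1 (by positivity) g.pos.le
    calc (2 * B * B')⁻¹ ≤ B⁻¹ * B'⁻¹ := by
          rw [← mul_inv]
          exact inv_anti₀ (by positivity) (by nlinarith [mul_pos h0 h0'])
      _ ≤ _ := this
  · have : g.s * h.s ≤ B * B' := mul_le_mul hg.2.1 hh.2.1 h.pos.le h0.le
    simp only [mul_s]; nlinarith [mul_pos h0 h0']
  · have h1 : |g.s * h.t| ≤ B * B' := by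
      rw [abs_mul, abs_of_pos g.pos]
      exact mul_le_mul hg.2.1 hh.2.2 (abs_nonneg _) h0.le
    calc |(g * h).t| = |g.s * h.t + g.t| := rfl
      _ ≤ |g.s * h.t| + |g.t| := abs_add_le _ _
      _ ≤ B * B' + B := add_le_add h1 hg.2.2
      _ ≤ 2 * B * B' := by nlinarith [mul_pos h0 h0']

lemma bd_inv {B : ℝ} (hB : 1 ≤ B) {g : Aff} (hg : g.bd B) : (g⁻¹).bd (B ^ 2) := by
  have h0 : (0 : ℝ) < B := by linarith
  have hBB : B ≤ B ^ 2 := by nlinarith
  have h1 : g.s⁻¹ ≤ B := by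
    have := inv_anti₀ (inv_pos.mpr h0) hg.1
    simpa using this
  have h2 : B⁻¹ ≤ g.s⁻¹ := inv_anti₀ g.pos hg.2.1
  refine ⟨?_, h1.trans hBB, ?_⟩
  · exact (inv_anti₀ h0 hBB).trans h2
  · simp only [inv_t, abs_neg, abs_mul, abs_of_pos (inv_pos.mpr g.pos)]
    calc g.s⁻¹ * |g.t| ≤ B * B := mul_le_mul h1 hg.2.2 (abs_nonneg _) h0.le
      _ = B ^ 2 := by ring

lemma ad_mul_le {B : ℝ} (hB : 1 ≤ B) {g g' h h' : Aff} (hg' : g'.bd B) (hh : h.bd B) :
    (g * h).ad (g' * h') ≤ 2 * B * (g.ad g' + h.ad h') := by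
  have h0 : (0 : ℝ) < B := by linarith
  have hs := s_le_ad g g'
  have ht := t_le_ad g g'
  have hs' := s_le_ad h h'
  have ht' := t_le_ad h h'
  have n1 := ad_nonneg g g'
  have n2 := ad_nonneg h h'
  have hhs : |h.s| ≤ B := by rw [abs_of_pos h.pos]; exact hh.2.1
  have hgs : |g'.s| ≤ B := by rw [abs_of_pos g'.pos]; exact hg'.2.1
  refine ad_le ?_ ?_
  · calc |(g * h).s - (g' * h').s| = |(g.s - g'.s) * h.s + g'.s * (h.s - h'.s)| := by
          simp only [mul_s]; ring_nf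
      _ ≤ |(g.s - g'.s) * h.s| + |g'.s * (h.s - h'.s)| := abs_add_le _ _
      _ ≤ g.ad g' * B + B * h.ad h' := by
          rw [abs_mul, abs_mul]
          exact add_le_add (mul_le_mul hs hhs (abs_nonneg _) n1)
            (mul_le_mul hgs hs' (abs_nonneg _) h0.le)
      _ ≤ _ := by nlinarith
  · calc |(g * h).t - (g' * h').t| =
        |(g.s - g'.s) * h.t + g'.s * (h.t - h'.t) + (g.t - g'.t)| := by
          simp only [mul_t]; ring_nf
      _ ≤ |(g.s - g'.s) * h.t + g'.s * (h.t - h'.t)| + |g.t - g'.t| := abs_add_le _ _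
      _ ≤ |(g.s - g'.s) * h.t| + |g'.s * (h.t - h'.t)| + |g.t - g'.t| := by
          gcongr; exact abs_add_le _ _
      _ ≤ g.ad g' * B + B * h.ad h' + g.ad g' := by
          rw [abs_mul, abs_mul]
          exact add_le_add (add_le_add (mul_le_mul hs hh.2.2 (abs_nonneg _) n1)
            (mul_le_mul hgs ht' (abs_nonneg _) h0.le)) ht
      _ ≤ _ := by nlinarith

lemma ad_inv_le {B : ℝ} (hB : 1 ≤ B) {g h : Aff} (hg : g.bd B) (hh : h.bd B) :
    (g⁻¹).ad (h⁻¹) ≤ 2 * B ^ 3 * g.ad h := by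
  have h0 : (0 : ℝ) < B := by linarith
  have hgi : g.s⁻¹ ≤ B := by simpa using inv_anti₀ (inv_pos.mpr h0) hg.1
  have hhi : h.s⁻¹ ≤ B := by simpa using inv_anti₀ (inv_pos.mpr h0) hh.1
  have pg : 0 < g.s⁻¹ := inv_pos.mpr g.pos
  have phh : 0 < h.s⁻¹ := inv_pos.mpr h.pos
  have n1 := ad_nonneg g h
  have key : |g.s⁻¹ - h.s⁻¹| ≤ B ^ 2 * g.ad h := by
    have e : g.s⁻¹ - h.s⁻¹ = g.s⁻¹ * h.s⁻¹ * (h.s - g.s) := by
      have := g.pos.ne'; have := h.pos.ne'; field_simp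
    rw [e, abs_mul, abs_of_pos (mul_pos pg phh), abs_sub_comm]
    calc g.s⁻¹ * h.s⁻¹ * |g.s - h.s| ≤ (B * B) * g.ad h :=
          mul_le_mul (mul_le_mul hgi hhi phh.le h0.le) (s_le_ad g h) (abs_nonneg _) (by positivity)
      _ = _ := by ring
  have hB2 : (1 : ℝ) ≤ B ^ 2 := one_le_pow₀ hB
  have hB3 : B ^ 2 ≤ B ^ 3 := by nlinarith
  refine ad_le ?_ ?_
  · simp only [inv_s]; nlinarith
  · simp only [inv_t]
    have e : -(g.s⁻¹ * g.t) - -(h.s⁻¹ * h.t) = -((g.s⁻¹ - h.s⁻¹) * g.t + h.s⁻¹ * (g.t - h.t)) := by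
      ring
    rw [e, abs_neg]
    calc |(g.s⁻¹ - h.s⁻¹) * g.t + h.s⁻¹ * (g.t - h.t)| ≤
        |(g.s⁻¹ - h.s⁻¹) * g.t| + |h.s⁻¹ * (g.t - h.t)| := abs_add_le _ _
      _ ≤ (B ^ 2 * g.ad h) * B + B * g.ad h := by
          rw [abs_mul, abs_mul, abs_of_pos phh]
          exact add_le_add (mul_le_mul key hg.2.2 (abs_nonneg _) (by positivity))
            (mul_le_mul hhi (t_le_ad g h) (abs_nonneg _) h0.le)
      _ ≤ 2 * B ^ 3 * g.ad h := by
          have : B * g.ad h ≤ B ^ 3 * g.ad h := by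
            apply mul_le_mul_of_nonneg_right _ n1; nlinarith
          nlinarith

/-- Left cancellation. -/
lemma ad_le_of_mul_left {B : ℝ} (hB : 1 ≤ B) {g h h' : Aff} (hg : g.bd B) (hgh : (g * h).bd B) :
    h.ad h' ≤ 2 * B ^ 2 * (g * h).ad (g * h') := by
  have hBB : B ≤ B ^ 2 := by nlinarith
  have e1 : g⁻¹ * (g * h) = h := by group
  have e2 : g⁻¹ * (g * h') = h' := by group
  have := ad_mul_le (B := B ^ 2) (by nlinarith) (g := g⁻¹) (g' := g⁻¹) (h := g * h) (h' := g * h')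
    (bd_inv hB hg) (bd_mono (by linarith) hBB hgh)
  rw [e1, e2, ad_self] at this
  simpa using this

/-- Right cancellation. -/
lemma ad_le_of_mul_right {B : ℝ} (hB : 1 ≤ B) {g h h' : Aff} (hg : g.bd B) (hgh : (h' * g).bd B) :
    h.ad h' ≤ 2 * B ^ 2 * (h * g).ad (h' * g) := by
  have hBB : B ≤ B ^ 2 := by nlinarith
  have e1 : (h * g) * g⁻¹ = h := by group
  have e2 : (h' * g) * g⁻¹ = h' := by group
  have := ad_mul_le (B := B ^ 2) (by nlinarith) (g := h * g) (g' := h' * g) (h := g⁻¹) (h' := g⁻¹)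
    (bd_mono (by linarith) hBB hgh) (bd_inv hB hg)
  rw [e1, e2, ad_self] at this
  simpa using this

lemma act_mul (g h : Aff) (x : ℝ) : (g * h).act x = g.act (h.act x) := by
  simp [act]; ring

lemma act_one (x : ℝ) : (1 : Aff).act x = x := by simp [act]

lemma act_inv_act (g : Aff) (x : ℝ) : (g⁻¹).act (g.act x) = x := by
  rw [← act_mul, inv_mul_cancel, act_one]

lemma act_act_inv (g : Aff) (x : ℝ) : g.act ((g⁻¹).act x) = x := by
  rw [← act_mul, mul_inv_cancel, act_one]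

lemma act_sub (g : Aff) (x y : ℝ) : g.act x - g.act y = g.s * (x - y) := by
  simp [act]; ring

lemma abs_act_sub_le (g h : Aff) (x : ℝ) : |g.act x - h.act x| ≤ (|x| + 1) * g.ad h := by
  have e : g.act x - h.act x = (g.s - h.s) * x + (g.t - h.t) := by simp [act]; ring
  rw [e]
  calc |(g.s - h.s) * x + (g.t - h.t)| ≤ |(g.s - h.s) * x| + |g.t - h.t| := abs_add_le _ _
    _ ≤ g.ad h * |x| + g.ad h := by
        rw [abs_mul]
        exact add_le_add (mul_le_mul_of_nonneg_right (s_le_ad g h) (abs_nonneg _)) (t_le_ad g h)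
    _ = _ := by ring

@[simp] lemma tr_s (y : ℝ) : (tr y).s = 1 := rfl
@[simp] lemma tr_t (y : ℝ) : (tr y).t = y := rfl

lemma tr_mul_tr (x y : ℝ) : tr x * tr y = tr (x + y) := by
  ext <;> simp; ring

lemma tr_inv (x : ℝ) : (tr x)⁻¹ = tr (-x) := by
  ext <;> simp

lemma conj_tr (g : Aff) (y : ℝ) : g * tr y * g⁻¹ = tr (g.s * y) := by
  have := g.pos.ne'
  ext
  · simp [this]
  · simp; field_simp; ring

end Aff

open Aff

lemma Sep.mono {δ δ' : ℝ} (h : δ' ≤ δ) {E : Finset Aff} (hE : Sep δ E) : Sep δ' E :=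
  fun g hg k hk hne => h.trans (hE g hg k hk hne)

lemma Sep.subset {δ : ℝ} {E F : Finset Aff} (hE : Sep δ E) (hF : F ⊆ E) : Sep δ F :=
  fun g hg k hk hne => hE g (hF hg) k (hF hk) hne

lemma Cnt.mono {δ δ' M M' : ℝ} {X Y : Set Aff} (h : Cnt δ X M) (hδ : δ ≤ δ') (hM : M ≤ M')
    (hXY : Y ⊆ X) : Cnt δ' Y M' :=
  fun F hF hs => (h F (fun g hg => hXY (hF g hg)) (hs.mono hδ)).trans hM

lemma Fro.mono {μ : Measure ℝ} {K K' s δ δ' : ℝ} (h : Fro μ K s δ) (hK : K ≤ K') (hδ : δ ≤ δ')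
    (h0 : 0 < δ') : Fro μ K' s δ' := fun x r hr =>
  (h x r (hδ.trans hr)).trans
    (mul_le_mul_of_nonneg_right hK (Real.rpow_nonneg (h0.le.trans hr) s))

/-- Existence of a maximal separated finite subset (a net). -/
lemma Cnt.exists_net {δ M : ℝ} {X : Set Aff} (h : Cnt δ X M) :
    ∃ F : Finset Aff, (∀ g ∈ F, g ∈ X) ∧ Sep δ F ∧ (F.card : ℝ) ≤ M ∧
      ∀ x ∈ X, ∃ g ∈ F, x.ad g < δ ∨ x = g := by
  classical
  -- choose a separated subset of maximal cardinality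
  let P : ℕ → Prop := fun n => ∃ F : Finset Aff, (∀ g ∈ F, g ∈ X) ∧ Sep δ F ∧ F.card = n
  have hb : ∀ n, P n → n ≤ ⌊M⌋₊ := by
    rintro n ⟨F, h1, h2, rfl⟩
    exact Nat.le_floor (h F h1 h2)
  have h0 : P 0 := ⟨∅, by simp, by intro g hg; simp at hg, by simp⟩
  let n := Nat.findGreatest P ⌊M⌋₊
  have hn : P n := Nat.findGreatest_spec (Nat.zero_le _) h0
  obtain ⟨F, h1, h2, h3⟩ := hn
  refine ⟨F, h1, h2, h F h1 h2, fun x hx => ?_⟩
  by_contra hcon
  push Not at hcon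
  have hxF : x ∉ F := fun hxF => (hcon x hxF).2 rfl
  have : P (n + 1) := by
    refine ⟨insert x F, ?_, ?_, ?_⟩
    · intro g hg
      rcases Finset.mem_insert.mp hg with rfl | hg
      · exact hx
      · exact h1 g hg
    · intro g hg k hk hne
      rcases Finset.mem_insert.mp hg with hg1 | hg1 <;>
        rcases Finset.mem_insert.mp hk with hk1 | hk1
      · exact absurd (hg1.trans hk1.symm) hne
      · subst hg1; exact (hcon k hk1).1
      · subst hk1; rw [ad_comm]; exact (hcon g hg1).1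
      · exact h2 g hg1 k hk1 hne
    · rw [Finset.card_insert_of_notMem hxF, h3]
  have h4 : n + 1 ≤ ⌊M⌋₊ := hb _ this
  have := Nat.le_findGreatest h4 this
  simp only [n] at this
  omega

lemma measurableSet_mm (ρ : ℝ) (g h : Aff) :
    MeasurableSet {p : ℝ × ℝ | |g.act p.1 - h.act p.2| ≤ ρ} := by
  apply IsClosed.measurableSet
  apply isClosed_le _ continuous_const
  unfold Aff.act
  fun_prop

lemma mm_nonneg (μ : Measure ℝ) (ρ : ℝ) (g h : Aff) : 0 ≤ mm μ ρ g h := measureReal_nonneg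

lemma mm_mono (μ : Measure ℝ) [IsFiniteMeasure μ] {ρ ρ' : ℝ} (hρ : ρ ≤ ρ') (g h : Aff) :
    mm μ ρ g h ≤ mm μ ρ' g h :=
  measureReal_mono (fun _ hp => le_trans hp hρ)

lemma mm_symm (μ : Measure ℝ) [SFinite μ] (ρ : ℝ) (g h : Aff) : mm μ ρ g h = mm μ ρ h g := by
  unfold mm
  have e : {p : ℝ × ℝ | |g.act p.1 - h.act p.2| ≤ ρ} =
      Prod.swap ⁻¹' {p : ℝ × ℝ | |h.act p.1 - g.act p.2| ≤ ρ} := by
    ext p; simp [abs_sub_comm]
  rw [e, measureReal_def, measureReal_def]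
  congr 1
  have hs : MeasurePreserving Prod.swap (μ.prod μ) (μ.prod μ) := Measure.measurePreserving_swap
  exact hs.measure_preimage (measurableSet_mm ρ h g).nullMeasurableSet

/-- The pairs for `(g, h)` are pairs for the quotient `h⁻¹ g`. -/
lemma mm_le_quot (μ : Measure ℝ) [IsFiniteMeasure μ] {B ρ : ℝ} (hB : 1 ≤ B) {g h : Aff}
    (hh : h.bd B) : mm μ ρ g h ≤ mm μ (B * ρ) (h⁻¹ * g) 1 := by
  refine measureReal_mono (fun p hp => ?_)
  have h0 : (0 : ℝ) < B := by linarith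
  have hhi : h.s⁻¹ ≤ B := by simpa using inv_anti₀ (inv_pos.mpr h0) hh.1
  simp only [mem_setOf_eq] at hp ⊢
  have e : (h⁻¹ * g).act p.1 - (1 : Aff).act p.2 = h.s⁻¹ * (g.act p.1 - h.act p.2) := by
    have := h.pos.ne'
    simp [Aff.act]; field_simp; ring
  rw [e, abs_mul, abs_of_pos (inv_pos.mpr h.pos)]
  exact mul_le_mul hhi hp (abs_nonneg _) h0.le

lemma Hered.subset {μ : Measure ℝ} {s B K R : ℝ} {E F : Finset Aff} (h : Hered μ s B K R E)
    (hF : F ⊆ E) : Hered μ s B K R F where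
  prob := h.prob
  supp := h.supp
  fro := h.fro
  bd := fun g hg => h.bd g (hF hg)
  sep := h.sep.subset hF
  her := fun F' hF' => h.her F' (hF'.trans hF)

lemma Hered.mono {μ : Measure ℝ} {s B K R B' K' : ℝ} {E : Finset Aff} (h : Hered μ s B K R E)
    (hB0 : 0 < B) (hB : B ≤ B') (hK0 : 0 < K) (hK : K ≤ K') (hR : 0 < R) :
    Hered μ s B' K' R E := by
  have := h.prob
  refine ⟨h.prob, h.supp, h.fro.mono hK le_rfl (by positivity), fun g hg => bd_mono hB0 hB (h.bd g hg),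
    h.sep.mono ?_, fun F hF => ?_⟩
  · exact one_div_le_one_div_of_le (by positivity) (mul_le_mul_of_nonneg_right hB hR.le)
  · refine le_trans ?_ ((h.her F hF).trans ?_)
    · apply mul_le_mul_of_nonneg_right _ (by positivity)
      exact div_le_div_of_nonneg_left (Real.rpow_nonneg hR.le _) hK0 hK
    · refine Finset.sum_le_sum fun g _ => Finset.sum_le_sum fun k _ => mm_mono μ ?_ g k
      exact div_le_div_of_nonneg_right hB hR.le

end Pool.Agent.Work.MP_1151e3_an
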