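import Pool.Agent.Work.MP_1151e3_an.Basic

/-!
# Positive content of a unit piece
-/

set_option autoImplicit false

namespace Pool.Agent.Work.MP_1151e3_an

open MeasureTheory Set Filter Topology
open scoped ENNReal NNReal

lemma contPos_diam (s : ℝ) (m : ℕ) (k : ℤ) :
    (Metric.ediam (dy m k)) ^ s = ENNReal.ofReal ((2 : ℝ) ^ (-(s * m))) := by
  have e : ((k : ℝ) + 1) / 2 ^ m - (k : ℝ) / 2 ^ m = (2 : ℝ) ^ (-(m : ℝ)) := by
    rw [Real.rpow_neg (by norm_num), Real.rpow_natCast]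
    field_simp
    ring
  rw [dy, Real.ediam_Ico, e, ENNReal.ofReal_rpow_of_pos (by positivity), ← Real.rpow_mul (by norm_num)]
  congr 2
  ring

lemma contPos_null {s : ℝ} (hs : 0 < s) {X : Set ℝ} (h : cont s X = 0) : μH[s] X = 0 := by
  have h1 : ∀ n : ℕ, ∃ Q : ℕ → Option (ℕ × ℤ),
      X ⊆ (⋃ i, (match Q i with | none => ∅ | some q => dy q.1 q.2)) ∧
      ∑' i, (match Q i with | none => 0 | some q => ENNReal.ofReal ((2 : ℝ) ^ (-(s * q.1)))) <
        ((n : ℝ≥0∞) + 1)⁻¹ ^ s := by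
    intro n
    have hpos : cont s X < ((n : ℝ≥0∞) + 1)⁻¹ ^ s := by
      rw [h]
      apply ENNReal.rpow_pos
      · exact ENNReal.inv_pos.mpr (by simp)
      · exact ENNReal.inv_ne_top.mpr (by simp)
    rw [cont, iInf_lt_iff] at hpos
    obtain ⟨Q, hQ⟩ := hpos
    rw [iInf_lt_iff] at hQ
    obtain ⟨hQ1, hQ2⟩ := hQ
    exact ⟨Q, hQ1, hQ2⟩
  choose Q hQ1 hQ2 using h1
  set t : ℕ → ℕ → Set ℝ := fun n i => (match Q n i with | none => ∅ | some q => dy q.1 q.2) with ht
  have hterm : ∀ n i, (Metric.ediam (t n i)) ^ s =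
      (match Q n i with | none => 0 | some q => ENNReal.ofReal ((2 : ℝ) ^ (-(s * q.1)))) := by
    intro n i
    simp only [ht]
    rcases Q n i with _ | q
    · simp [hs]
    · exact contPos_diam s q.1 q.2
  have hr : Tendsto (fun n : ℕ => ((n : ℝ≥0∞) + 1)⁻¹) atTop (𝓝 0) := by
    have := (tendsto_add_atTop_iff_nat 1).mpr ENNReal.tendsto_inv_nat_nhds_zero
    refine this.congr fun n => ?_
    push_cast
    rfl
  have key := Measure.hausdorffMeasure_le_liminf_tsum (X := ℝ) (ι := fun _ : ℕ => ℕ) s X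
    (fun n : ℕ => ((n : ℝ≥0∞) + 1)⁻¹) hr t ?_ (Eventually.of_forall fun n => hQ1 n)
  · have h2 : Tendsto (fun n : ℕ => ∑' i, (Metric.ediam (t n i)) ^ s) atTop (𝓝 0) := by
      have h3 : Tendsto (fun n : ℕ => ((n : ℝ≥0∞) + 1)⁻¹ ^ s) atTop (𝓝 0) := by
        have := ((ENNReal.continuous_rpow_const (y := s)).tendsto 0).comp hr
        rw [ENNReal.zero_rpow_of_pos hs] at this
        exact this
      refine tendsto_of_tendsto_of_tendsto_of_le_of_le tendsto_const_nhds h3 (fun _ => zero_le) ?_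
      intro n
      simp only
      rw [tsum_congr (hterm n)]
      exact (hQ2 n).le
    rw [h2.liminf_eq] at key
    exact le_antisymm key zero_le
  · refine Eventually.of_forall fun n i => ?_
    have h4 : (Metric.ediam (t n i)) ^ s ≤ ((n : ℝ≥0∞) + 1)⁻¹ ^ s := by
      rw [hterm n i]
      exact (ENNReal.le_tsum i).trans (hQ2 n).le
    exact (ENNReal.rpow_le_rpow_iff hs).mp h4

/-- A1. Positive dimension excess gives positive content of a unit piece. -/
theorem claimContPos : ClaimContPos := by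
  intro A s hs hA
  by_contra hcon
  push Not at hcon
  have h0 : ∀ k : ℤ, μH[s] (A ∩ dy 0 k) = 0 := fun k =>
    contPos_null hs (le_antisymm (hcon k) zero_le)
  have hAu : A ⊆ ⋃ k : ℤ, A ∩ dy 0 k := by
    intro x hx
    refine mem_iUnion.mpr ⟨⌊x⌋, hx, ?_⟩
    simp only [dy, pow_zero, div_one, mem_Ico]
    exact ⟨Int.floor_le x, Int.lt_floor_add_one x⟩
  have h1 : μH[s] A = 0 := measure_mono_null hAu (measure_iUnion_null h0)
  have h2 : dimH A ≤ (s.toNNReal : ℝ≥0∞) := by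
    apply dimH_le_of_hausdorffMeasure_ne_top
    rw [Real.coe_toNNReal s hs.le, h1]
    exact ENNReal.zero_ne_top
  exact absurd hA (not_lt.mpr h2)

end Pool.Agent.Work.MP_1151e3_an
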