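import Mathlib

/-!
# Open intervals in shifted products of fractal sets: definitions and basic facts
-/

set_option autoImplicit false

namespace Pool.Agent.Work.MP_1151e3_an

open MeasureTheory Set
open scoped ENNReal

/-- The shifted product set `(t_1 + A) ... (t_n + A)`. -/
def shiftedProd {n : ℕ} (t : Fin n → ℝ) (A : Set ℝ) : Set ℝ :=
  {x | ∃ a : Fin n → ℝ, (∀ i, a i ∈ A) ∧ x = ∏ i, (t i + a i)}

/-! ### Orientation preserving affine maps of the line -/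

/-- The affine map `x ↦ s x + t` with `s > 0`. -/
@[ext] structure Aff where
  s : ℝ
  t : ℝ
  pos : 0 < s

namespace Aff

instance : Mul Aff := ⟨fun g h => ⟨g.s * h.s, g.s * h.t + g.t, mul_pos g.pos h.pos⟩⟩
instance : One Aff := ⟨⟨1, 0, one_pos⟩⟩
noncomputable instance : Inv Aff := ⟨fun g => ⟨g.s⁻¹, -(g.s⁻¹ * g.t), inv_pos.mpr g.pos⟩⟩

@[simp] lemma mul_s (g h : Aff) : (g * h).s = g.s * h.s := rfl
@[simp] lemma mul_t (g h : Aff) : (g * h).t = g.s * h.t + g.t := rfl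
@[simp] lemma one_s : (1 : Aff).s = 1 := rfl
@[simp] lemma one_t : (1 : Aff).t = 0 := rfl
@[simp] lemma inv_s (g : Aff) : (g⁻¹).s = g.s⁻¹ := rfl
@[simp] lemma inv_t (g : Aff) : (g⁻¹).t = -(g.s⁻¹ * g.t) := rfl

noncomputable instance : Group Aff :=
  Group.ofLeftAxioms
    (fun a b c => by ext <;> simp <;> ring)
    (fun a => by ext <;> simp)
    (fun a => by
      have := a.pos.ne'
      ext
      · simp [this]
      · simp)

/-- The action on the line. -/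
def act (g : Aff) (x : ℝ) : ℝ := g.s * x + g.t

/-- The sup distance of the coefficients. -/
noncomputable def ad (g h : Aff) : ℝ := max |g.s - h.s| |g.t - h.t|

/-- Bounded coefficients. -/
def bd (B : ℝ) (g : Aff) : Prop := B⁻¹ ≤ g.s ∧ g.s ≤ B ∧ |g.t| ≤ B

/-- The translation by `y`. -/
def tr (y : ℝ) : Aff := ⟨1, y, one_pos⟩

end Aff

open Aff

/-- A `δ`-separated finite set of affine maps. -/
def Sep (δ : ℝ) (E : Finset Aff) : Prop := ∀ g ∈ E, ∀ h ∈ E, g ≠ h → δ ≤ g.ad h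

/-- `Cnt δ X M`: every `δ`-separated finite subset of `X` has at most `M` elements. -/
def Cnt (δ : ℝ) (X : Set Aff) (M : ℝ) : Prop :=
  ∀ F : Finset Aff, (∀ g ∈ F, g ∈ X) → Sep δ F → (F.card : ℝ) ≤ M

/-- The quotients `h⁻¹ g` of a finite set. -/
def quo (E : Finset Aff) : Set Aff := {q | ∃ g ∈ E, ∃ h ∈ E, q = h⁻¹ * g}

open Classical in
/-- Number of pairs `(g, h)` of `E` with `x g` within `ρ` of `h`. -/
noncomputable def pop (ρ : ℝ) (E : Finset Aff) (x : Aff) : ℕ :=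
  ((E ×ˢ E).filter fun p => (x * p.1).ad p.2 ≤ ρ).card

/-- Products of exactly `l` elements of `S`. -/
def Wd (S : Set Aff) (l : ℕ) : Set Aff :=
  {w | ∃ L : List Aff, L.length = l ∧ (∀ x ∈ L, x ∈ S) ∧ w = L.prod}

/-- Elements of complexity `m` of the ring generated by `D`. -/
def RD (D : Set ℝ) : ℕ → Set ℝ
  | 0 => {z | z = 0 ∨ z = 1 ∨ z ∈ D}
  | (m + 1) => {z | ∃ x ∈ RD D m, ∃ y ∈ RD D m, z = x + y ∨ z = x - y ∨ z = x * y}

/-- Frostman condition at the scales `≥ δ`. -/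
def Fro (μ : Measure ℝ) (K s δ : ℝ) : Prop :=
  ∀ x r : ℝ, δ ≤ r → μ.real (Metric.closedBall x r) ≤ K * r ^ s

/-- The mass of the pairs `(a, b)` with `|g a - h b| ≤ ρ`. -/
noncomputable def mm (μ : Measure ℝ) (ρ : ℝ) (g h : Aff) : ℝ :=
  (μ.prod μ).real {p : ℝ × ℝ | |g.act p.1 - h.act p.2| ≤ ρ}

/-- The hereditary situation of the key theorem. -/
structure Hered (μ : Measure ℝ) (s B K R : ℝ) (E : Finset Aff) : Prop where
  prob : IsProbabilityMeasure μ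
  supp : μ (Icc 0 1)ᶜ = 0
  fro : Fro μ K s (1 / R)
  bd : ∀ g ∈ E, g.bd B
  sep : Sep (1 / (B * R)) E
  her : ∀ F ⊆ E, R ^ (-s) / K * (F.card : ℝ) ^ 2 ≤ ∑ g ∈ F, ∑ h ∈ F, mm μ (B / R) g h

/-! ### Kernels -/

/-- Continuous kernels supported in `[-1,1]` and bounded by `C`. -/
structure Ker (k : ℝ → ℝ) (C : ℝ) : Prop where
  cont : Continuous k
  supp : ∀ x, 1 ≤ |x| → k x = 0
  bdd : ∀ x, |k x| ≤ C

/-- Scaling. -/
noncomputable def sc (R : ℝ) (k : ℝ → ℝ) (x : ℝ) : ℝ := R * k (R * x)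

/-- Autocorrelation. -/
noncomputable def Th (k : ℝ → ℝ) (y : ℝ) : ℝ := ∫ x, k x * k (x + y)

/-- The basic bump: `C¹`, nonnegative, supported in `[-1/2,1/2]`, integral one. -/
noncomputable def th (x : ℝ) : ℝ := 30 * (max 0 (1 / 4 - x ^ 2)) ^ 2

noncomputable def k1 (x : ℝ) : ℝ := 2 * th (2 * x) - th x
noncomputable def k2 (x : ℝ) : ℝ := 2 * th (2 * x) + th x
noncomputable def ph (x : ℝ) : ℝ := ∫ y, th y * th (x - y)
noncomputable def ps (x : ℝ) : ℝ := 2 * ph (2 * x) - ph x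
noncomputable def dps (x : ℝ) : ℝ := deriv ps x

/-- The density `6 (t-1) (2-t)` on `[1,2]`. -/
noncomputable def Pm : Measure ℝ :=
  (volume.restrict (Icc (1 : ℝ) 2)).withDensity fun t => ENNReal.ofReal (6 * (t - 1) * (2 - t))

/-- The smoothed image measure. -/
noncomputable def en (k : ℝ → ℝ) (n : ℕ) (G : ℝ → ℝ → ℝ) (μ : Measure ℝ) (t : Fin n → ℝ)
    (u : ℝ) : ℝ :=
  ∫ a : Fin n → ℝ, k (u - ∑ i, G (t i) (a i)) ∂(Measure.pi fun _ : Fin n => μ)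

/-- The averaged energy. -/
noncomputable def EN (k : ℝ → ℝ) (n : ℕ) (G : ℝ → ℝ → ℝ) (μ : Measure ℝ) : ℝ≥0∞ :=
  ∫⁻ t : Fin n → ℝ, (∫⁻ u : ℝ, ENNReal.ofReal ((en k n G μ t u) ^ 2))
    ∂(Measure.pi fun _ : Fin n => Pm)

/-- The two families of functions used: `log (t + a)` and `t a`. -/
structure GoodG (G : ℝ → ℝ → ℝ) (B : ℝ) : Prop where
  meas : Measurable (Function.uncurry G)
  der : ∃ q0 Q0 e : ℝ, 0 < q0 ∧ (e = 1 ∨ e = -1) ∧
    ∀ a ∈ Icc (0 : ℝ) B, ∀ b ∈ Icc (0 : ℝ) B, ∃ q q' : ℝ → ℝ, ContinuousOn q' (Icc 1 2) ∧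
      ∀ t ∈ Icc (1 : ℝ) 2, HasDerivAt (fun t => G t a - G t b) (e * (a - b) * q t) t ∧
        HasDerivAt q (q' t) t ∧ q0 ≤ q t ∧ q t ≤ Q0 ∧ |q' t| ≤ Q0

noncomputable def logG (t a : ℝ) : ℝ := Real.log (t + a)
def mulG (t a : ℝ) : ℝ := t * a

/-- The smoothed law of `u - log (t + a)`. -/
noncomputable def Vh (μ : Measure ℝ) (R : ℝ) (p : ℝ × ℝ) (v : ℝ) : ℝ :=
  ∫ a, sc R k2 (p.2 - v - logG p.1 a) ∂μ

/-- The affine map `x ↦ e^{-u} (t + x)`. -/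
noncomputable def toAff (p : ℝ × ℝ) : Aff := ⟨Real.exp (-p.2), Real.exp (-p.2) * p.1, Real.exp_pos _⟩

end Pool.Agent.Work.MP_1151e3_an
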