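import Pool.Agent.Work.MP_1151e3_an.Claims

/-!
# A4. Frostman measure on a compact set of positive dyadic content
-/

set_option autoImplicit false

namespace Pool.Agent.Work.MP_1151e3_an

open MeasureTheory Set Filter Topology
open scoped ENNReal

/-! ### Elementary properties of the content -/

lemma FC_cont_mono (s : ℝ) {X Y : Set ℝ} (h : X ⊆ Y) : cont s X ≤ cont s Y := by
  unfold cont
  refine iInf_mono fun Q => ?_
  exact le_iInf fun hY => iInf_le _ (h.trans hY)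

lemma FC_cont_le (s : ℝ) {X : Set ℝ} (Q : ℕ → Option (ℕ × ℤ))
    (hQ : X ⊆ ⋃ i, (match Q i with | none => ∅ | some q => dy q.1 q.2)) :
    cont s X ≤ ∑' i, (match Q i with
      | none => 0 | some q => ENNReal.ofReal ((2 : ℝ) ^ (-(s * q.1)))) := by
  unfold cont
  exact iInf₂_le Q hQ

lemma FC_cont_dy (s : ℝ) (X : Set ℝ) (m : ℕ) (k : ℤ) :
    cont s (X ∩ dy m k) ≤ ENNReal.ofReal ((2 : ℝ) ^ (-(s * m))) := by
  refine (FC_cont_le s (fun i => if i = 0 then some (m, k) else none) ?_).trans ?_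
  · intro x hx
    exact mem_iUnion.2 ⟨0, by simpa using hx.2⟩
  · rw [tsum_eq_single 0]
    · simp
    · intro i hi
      simp [hi]

lemma FC_cont_empty (s : ℝ) : cont s ∅ = 0 := by
  have h := FC_cont_le s (X := ∅) (fun _ => none) (empty_subset _)
  simpa using h

lemma FC_cont_union (s : ℝ) (X Y : Set ℝ) : cont s (X ∪ Y) ≤ cont s X + cont s Y := by
  refine ENNReal.le_of_forall_pos_le_add fun ε hε hfin => ?_
  have hX : cont s X < ⊤ := lt_of_le_of_lt le_self_add hfin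
  have hY : cont s Y < ⊤ := lt_of_le_of_lt le_add_self hfin
  have hε2 : ((ε / 2 : NNReal) : ℝ≥0∞) ≠ 0 := by
    have : 0 < ε / 2 := half_pos hε
    exact_mod_cast this.ne'
  have hX' : cont s X < cont s X + ((ε / 2 : NNReal) : ℝ≥0∞) := ENNReal.lt_add_right hX.ne hε2
  have hY' : cont s Y < cont s Y + ((ε / 2 : NNReal) : ℝ≥0∞) := ENNReal.lt_add_right hY.ne hε2
  rw [cont] at hX' hY'
  obtain ⟨Q1, hQ1⟩ := iInf_lt_iff.1 hX'
  obtain ⟨c1, hQ1⟩ := iInf_lt_iff.1 hQ1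
  obtain ⟨Q2, hQ2⟩ := iInf_lt_iff.1 hY'
  obtain ⟨c2, hQ2⟩ := iInf_lt_iff.1 hQ2
  rw [← cont] at hQ1 hQ2
  let Q : ℕ → Option (ℕ × ℤ) := fun n => if n % 2 = 0 then Q1 (n / 2) else Q2 (n / 2)
  have e1 : ∀ k, Q (2 * k) = Q1 k := by intro k; simp [Q]
  have e2 : ∀ k, Q (2 * k + 1) = Q2 k := by
    intro k
    have h1 : (2 * k + 1) % 2 ≠ 0 := by omega
    have h2 : (2 * k + 1) / 2 = k := by omega
    simp only [Q, h2, if_neg h1]
  have hc : X ∪ Y ⊆ ⋃ i, (match Q i with | none => ∅ | some q => dy q.1 q.2) := by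
    rintro x (hx | hx)
    · obtain ⟨i, hi⟩ := mem_iUnion.1 (c1 hx)
      exact mem_iUnion.2 ⟨2 * i, by rw [e1]; exact hi⟩
    · obtain ⟨i, hi⟩ := mem_iUnion.1 (c2 hx)
      exact mem_iUnion.2 ⟨2 * i + 1, by rw [e2]; exact hi⟩
  refine (FC_cont_le s Q hc).trans ?_
  rw [← tsum_even_add_odd ENNReal.summable ENNReal.summable]
  simp only [e1, e2]
  refine (add_le_add hQ1.le hQ2.le).trans (le_of_eq ?_)
  have : (ε : ℝ≥0∞) = ((ε / 2 : NNReal) : ℝ≥0∞) + ((ε / 2 : NNReal) : ℝ≥0∞) := by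
    rw [← ENNReal.coe_add, add_halves]
  rw [this]
  ring

lemma FC_dy_split (m : ℕ) (k : ℕ) :
    dy m (k : ℤ) = dy (m + 1) ((2 * k : ℕ) : ℤ) ∪ dy (m + 1) ((2 * k + 1 : ℕ) : ℤ) := by
  have h2 : (0 : ℝ) < 2 ^ m := by positivity
  have e1 : (((2 * k : ℕ) : ℤ) : ℝ) / 2 ^ (m + 1) = (((k : ℤ) : ℝ)) / 2 ^ m := by
    push_cast; rw [pow_succ]; field_simp
  have e2 : ((((2 * k : ℕ) : ℤ) : ℝ) + 1) / 2 ^ (m + 1) =
      (((2 * k + 1 : ℕ) : ℤ) : ℝ) / 2 ^ (m + 1) := by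
    push_cast; ring
  have e3 : ((((2 * k + 1 : ℕ) : ℤ) : ℝ) + 1) / 2 ^ (m + 1) = (((k : ℤ) : ℝ) + 1) / 2 ^ m := by
    push_cast; rw [pow_succ]; field_simp; ring
  unfold dy
  rw [e1, e2, e3, Ico_union_Ico_eq_Ico]
  · push_cast
    rw [pow_succ, div_le_div_iff₀ h2 (by positivity)]
    nlinarith
  · push_cast
    rw [pow_succ, div_le_div_iff₀ (by positivity) h2]
    nlinarith

/-! ### From masses of dyadic intervals to a measure -/

section mass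

variable {s : ℝ} {ν : ℕ → ℕ → ℝ}

/-- The mass of the first `j` intervals of generation `m`. -/
noncomputable def FC_N (ν : ℕ → ℕ → ℝ) (m j : ℕ) : ℝ := ∑ k ∈ Finset.range j, ν m k

noncomputable def FC_Fm (ν : ℕ → ℕ → ℝ) (m : ℕ) (x : ℝ) : ℝ := FC_N ν m ⌊(2 : ℝ) ^ m * x⌋₊

noncomputable def FC_F (ν : ℕ → ℕ → ℝ) (x : ℝ) : ℝ := ⨆ m, FC_Fm ν m x

lemma FC_N_mono (h0 : ∀ m k, 0 ≤ ν m k) (m : ℕ) {i j : ℕ} (hij : i ≤ j) :
    FC_N ν m i ≤ FC_N ν m j :=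
  Finset.sum_le_sum_of_subset_of_nonneg (Finset.range_mono hij) (fun k _ _ => h0 m k)

lemma FC_N_nonneg (h0 : ∀ m k, 0 ≤ ν m k) (m j : ℕ) : 0 ≤ FC_N ν m j :=
  Finset.sum_nonneg fun k _ => h0 m k

lemma FC_N_succ (m j : ℕ) : FC_N ν m (j + 1) = FC_N ν m j + ν m j := by
  unfold FC_N; rw [Finset.sum_range_succ]

lemma FC_N_double (hs : ∀ m k, ν m k = ν (m + 1) (2 * k) + ν (m + 1) (2 * k + 1)) (m j : ℕ) :
    FC_N ν (m + 1) (2 * j) = FC_N ν m j := by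
  induction j with
  | zero => simp [FC_N]
  | succ j ih =>
    rw [FC_N_succ, show 2 * (j + 1) = 2 * j + 1 + 1 by ring, FC_N_succ, FC_N_succ, ih, hs m j]
    ring

lemma FC_N_pow (hs : ∀ m k, ν m k = ν (m + 1) (2 * k) + ν (m + 1) (2 * k + 1)) (m d j : ℕ) :
    FC_N ν (m + d) (2 ^ d * j) = FC_N ν m j := by
  induction d with
  | zero => simp
  | succ d ih =>
    rw [show m + (d + 1) = (m + d) + 1 by ring, show 2 ^ (d + 1) * j = 2 * (2 ^ d * j) by ring,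
      FC_N_double hs, ih]

lemma FC_floor_le (d : ℕ) (y : ℝ) : 2 ^ d * ⌊y⌋₊ ≤ ⌊(2 : ℝ) ^ d * y⌋₊ := by
  rcases le_or_gt 0 y with hy | hy
  · apply Nat.le_floor
    push_cast
    exact mul_le_mul_of_nonneg_left (Nat.floor_le hy) (by positivity)
  · rw [Nat.floor_of_nonpos hy.le]; simp

lemma FC_floor_ge (d : ℕ) (y : ℝ) : ⌊(2 : ℝ) ^ d * y⌋₊ ≤ 2 ^ d * (⌊y⌋₊ + 1) := by
  apply Nat.floor_le_of_le
  push_cast
  exact mul_le_mul_of_nonneg_left (Nat.lt_floor_add_one y).le (by positivity)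

lemma FC_Fm_le_add (h0 : ∀ m k, 0 ≤ ν m k)
    (hs : ∀ m k, ν m k = ν (m + 1) (2 * k) + ν (m + 1) (2 * k + 1)) (m d : ℕ) (x : ℝ) :
    FC_Fm ν m x ≤ FC_Fm ν (m + d) x := by
  unfold FC_Fm
  rw [← FC_N_pow hs m d]
  apply FC_N_mono h0
  have := FC_floor_le d ((2 : ℝ) ^ m * x)
  rwa [← mul_assoc, ← pow_add, add_comm d m] at this

lemma FC_Fm_add_le (h0 : ∀ m k, 0 ≤ ν m k)
    (hs : ∀ m k, ν m k = ν (m + 1) (2 * k) + ν (m + 1) (2 * k + 1)) (m d : ℕ) (x : ℝ) :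
    FC_Fm ν (m + d) x ≤ FC_N ν m (⌊(2 : ℝ) ^ m * x⌋₊ + 1) := by
  unfold FC_Fm
  rw [← FC_N_pow hs m d]
  apply FC_N_mono h0
  have := FC_floor_ge d ((2 : ℝ) ^ m * x)
  rwa [← mul_assoc, ← pow_add, add_comm d m] at this

lemma FC_Fm_le (h0 : ∀ m k, 0 ≤ ν m k)
    (hs : ∀ m k, ν m k = ν (m + 1) (2 * k) + ν (m + 1) (2 * k + 1)) (m m' : ℕ) (x : ℝ) :
    FC_Fm ν m' x ≤ FC_N ν m (⌊(2 : ℝ) ^ m * x⌋₊ + 1) := by
  rcases le_total m m' with h | h
  · obtain ⟨d, rfl⟩ := Nat.exists_eq_add_of_le h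
    exact FC_Fm_add_le h0 hs m d x
  · obtain ⟨d, rfl⟩ := Nat.exists_eq_add_of_le h
    exact (FC_Fm_le_add h0 hs m' d x).trans (FC_N_mono h0 _ (Nat.le_succ _))

lemma FC_bdd (h0 : ∀ m k, 0 ≤ ν m k)
    (hs : ∀ m k, ν m k = ν (m + 1) (2 * k) + ν (m + 1) (2 * k + 1)) (x : ℝ) :
    BddAbove (range fun m => FC_Fm ν m x) :=
  ⟨_, by rintro _ ⟨m, rfl⟩; exact FC_Fm_le h0 hs 0 m x⟩

lemma FC_F_ge (h0 : ∀ m k, 0 ≤ ν m k)
    (hs : ∀ m k, ν m k = ν (m + 1) (2 * k) + ν (m + 1) (2 * k + 1)) (m : ℕ) (x : ℝ) :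
    FC_Fm ν m x ≤ FC_F ν x := le_ciSup (FC_bdd h0 hs x) m

lemma FC_F_le (h0 : ∀ m k, 0 ≤ ν m k)
    (hs : ∀ m k, ν m k = ν (m + 1) (2 * k) + ν (m + 1) (2 * k + 1)) (m : ℕ) (x : ℝ) :
    FC_F ν x ≤ FC_N ν m (⌊(2 : ℝ) ^ m * x⌋₊ + 1) := ciSup_le fun m' => FC_Fm_le h0 hs m m' x

lemma FC_F_mono (h0 : ∀ m k, 0 ≤ ν m k)
    (hs : ∀ m k, ν m k = ν (m + 1) (2 * k) + ν (m + 1) (2 * k + 1)) : Monotone (FC_F ν) := by
  intro x y hxy
  refine ciSup_le fun m => le_trans ?_ (FC_F_ge h0 hs m y)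
  apply FC_N_mono h0
  exact Nat.floor_mono (mul_le_mul_of_nonneg_left hxy (by positivity))

lemma FC_F_close (h0 : ∀ m k, 0 ≤ ν m k)
    (hs : ∀ m k, ν m k = ν (m + 1) (2 * k) + ν (m + 1) (2 * k + 1))
    (hb : ∀ m k, ν m k ≤ (2 : ℝ) ^ (-(s * m))) (m : ℕ) {x y : ℝ}
    (hy : y ≤ x + ((2 : ℝ) ^ m)⁻¹) : FC_F ν y ≤ FC_F ν x + 2 * (2 : ℝ) ^ (-(s * m)) := by
  have h2 : (0 : ℝ) < 2 ^ m := by positivity
  have hfl : ⌊(2 : ℝ) ^ m * y⌋₊ ≤ ⌊(2 : ℝ) ^ m * x⌋₊ + 1 := by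
    have h1 : (2 : ℝ) ^ m * y ≤ (2 : ℝ) ^ m * x + 1 := by
      have := mul_le_mul_of_nonneg_left hy h2.le
      rw [mul_add, mul_inv_cancel₀ h2.ne'] at this
      exact this
    rcases le_or_gt 0 ((2 : ℝ) ^ m * x) with hx | hx
    · calc ⌊(2 : ℝ) ^ m * y⌋₊ ≤ ⌊(2 : ℝ) ^ m * x + 1⌋₊ := Nat.floor_mono h1
        _ = _ := Nat.floor_add_one hx
    · have : (2 : ℝ) ^ m * y < 1 := by linarith
      rw [Nat.floor_eq_zero.2 this]; omega
  calc FC_F ν y ≤ FC_N ν m (⌊(2 : ℝ) ^ m * y⌋₊ + 1) := FC_F_le h0 hs m y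
    _ ≤ FC_N ν m (⌊(2 : ℝ) ^ m * x⌋₊ + 1 + 1) := FC_N_mono h0 m (by omega)
    _ = FC_Fm ν m x + ν m ⌊(2 : ℝ) ^ m * x⌋₊ + ν m (⌊(2 : ℝ) ^ m * x⌋₊ + 1) := by
      rw [FC_N_succ, FC_N_succ]; rfl
    _ ≤ FC_F ν x + (2 : ℝ) ^ (-(s * m)) + (2 : ℝ) ^ (-(s * m)) :=
      add_le_add (add_le_add (FC_F_ge h0 hs m x) (hb _ _)) (hb _ _)
    _ = _ := by ring

lemma FC_F_dyadic (h0 : ∀ m k, 0 ≤ ν m k)
    (hs : ∀ m k, ν m k = ν (m + 1) (2 * k) + ν (m + 1) (2 * k + 1)) (m j : ℕ) :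
    FC_F ν ((j : ℝ) / 2 ^ m) = FC_N ν m j := by
  have h2 : (0 : ℝ) < 2 ^ m := by positivity
  have e : ∀ d : ℕ, FC_Fm ν (m + d) ((j : ℝ) / 2 ^ m) = FC_N ν m j := by
    intro d
    unfold FC_Fm
    have : (2 : ℝ) ^ (m + d) * ((j : ℝ) / 2 ^ m) = ((2 ^ d * j : ℕ) : ℝ) := by
      push_cast; rw [pow_add]; field_simp
    rw [this, Nat.floor_natCast, FC_N_pow hs]
  apply le_antisymm
  · refine ciSup_le fun m' => ?_
    rcases le_total m m' with h | h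
    · obtain ⟨d, rfl⟩ := Nat.exists_eq_add_of_le h
      exact (e d).le
    · obtain ⟨d, hd⟩ := Nat.exists_eq_add_of_le h
      have := FC_Fm_le_add h0 hs m' d ((j : ℝ) / 2 ^ m)
      rw [← hd] at this
      exact this.trans (e 0).le
  · have := FC_F_ge h0 hs m ((j : ℝ) / 2 ^ m)
    rwa [show FC_Fm ν m ((j : ℝ) / 2 ^ m) = FC_N ν m j from e 0] at this

lemma FC_F_cont (hs0 : 0 < s) (h0 : ∀ m k, 0 ≤ ν m k)
    (hs : ∀ m k, ν m k = ν (m + 1) (2 * k) + ν (m + 1) (2 * k + 1))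
    (hb : ∀ m k, ν m k ≤ (2 : ℝ) ^ (-(s * m))) : Continuous (FC_F ν) := by
  rw [Metric.continuous_iff]
  intro x ε hε
  have hq : (2 : ℝ) ^ (-s) < 1 := Real.rpow_lt_one_of_one_lt_of_neg one_lt_two (by linarith)
  have hq0 : 0 < (2 : ℝ) ^ (-s) := Real.rpow_pos_of_pos two_pos _
  obtain ⟨m, hm⟩ := exists_pow_lt_of_lt_one (half_pos hε) hq
  have e : (2 : ℝ) ^ (-(s * m)) = ((2 : ℝ) ^ (-s)) ^ m := by
    rw [← Real.rpow_natCast, ← Real.rpow_mul two_pos.le]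
    congr 1; ring
  refine ⟨((2 : ℝ) ^ m)⁻¹, by positivity, fun y hy => ?_⟩
  rw [Real.dist_eq, abs_lt] at hy
  rw [Real.dist_eq, abs_lt]
  have h1 := FC_F_close h0 hs hb m (x := x) (y := y) (by linarith [hy.2])
  have h2 := FC_F_close h0 hs hb m (x := y) (y := x) (by linarith [hy.1])
  rw [e] at h1 h2
  constructor <;> linarith

lemma FC_measure (hs0 : 0 < s) (hs1 : s ≤ 1) (h0 : ∀ m k, 0 ≤ ν m k)
    (hs : ∀ m k, ν m k = ν (m + 1) (2 * k) + ν (m + 1) (2 * k + 1))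
    (hb : ∀ m k, ν m k ≤ (2 : ℝ) ^ (-(s * m))) (hz : ∀ k, 2 ≤ k → ν 0 k = 0)
    (hpos : 0 < FC_N ν 0 2) :
    ∃ μ : Measure ℝ, IsProbabilityMeasure μ ∧ μ (Iio 0) = 0 ∧
      (∀ m k : ℕ, ν m k = 0 → μ (dy m (k : ℤ)) = 0) ∧
      ∃ C : ℝ, 1 ≤ C ∧ ∀ x r : ℝ, 0 < r → μ.real (Metric.closedBall x r) ≤ C * r ^ s := by
  have hcont := FC_F_cont hs0 h0 hs hb
  have hmono := FC_F_mono h0 hs
  set T := FC_N ν 0 2 with hT
  have hTj : ∀ j, 2 ≤ j → FC_N ν 0 j = T := by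
    intro j hj
    induction j, hj using Nat.le_induction with
    | base => rfl
    | succ j hj ih => rw [FC_N_succ, ih, hz j hj, add_zero]
  let G : StieltjesFunction ℝ :=
    { toFun := FC_F ν
      mono' := hmono
      right_continuous' := fun x => hcont.continuousWithinAt }
  have hG : ∀ x, G x = FC_F ν x := fun x => rfl
  have hleft : ∀ x, Function.leftLim G x = FC_F ν x := fun x =>
    ((hcont.continuousAt (x := x)).continuousWithinAt (s := Iic x)).leftLim_eq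
  have hF0 : ∀ x, x ≤ 0 → FC_F ν x = 0 := by
    intro x hx
    have h1 : FC_F ν 0 = 0 := by
      have := FC_F_dyadic h0 hs 0 0
      simpa [FC_N] using this
    have h2 := FC_F_ge h0 hs 0 x
    have h3 : 0 ≤ FC_Fm ν 0 x := FC_N_nonneg h0 _ _
    have h4 := hmono hx
    linarith
  have hFT : ∀ x, 2 ≤ x → FC_F ν x = T := by
    intro x hx
    have h2 : 2 ≤ ⌊(2 : ℝ) ^ 0 * x⌋₊ := Nat.le_floor (by simpa using hx)
    apply le_antisymm
    · refine (FC_F_le h0 hs 0 x).trans (le_of_eq (hTj _ (by omega)))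
    · refine le_trans (le_of_eq (hTj _ h2).symm) (FC_F_ge h0 hs 0 x)
  have hbot : Tendsto G atBot (𝓝 0) := by
    refine tendsto_const_nhds.congr' ?_
    filter_upwards [eventually_le_atBot (0 : ℝ)] with x hx
    rw [hG, hF0 x hx]
  have htop : Tendsto G atTop (𝓝 T) := by
    refine tendsto_const_nhds.congr' ?_
    filter_upwards [eventually_ge_atTop (2 : ℝ)] with x hx
    rw [hG, hFT x hx]
  have huniv : G.measure univ = ENNReal.ofReal T := by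
    rw [G.measure_univ hbot htop, sub_zero]
  have hT0 : ENNReal.ofReal T ≠ 0 := by
    rw [Ne, ENNReal.ofReal_eq_zero, not_le]; exact hpos
  have hTt : ENNReal.ofReal T ≠ ⊤ := ENNReal.ofReal_ne_top
  refine ⟨(ENNReal.ofReal T)⁻¹ • G.measure, ⟨?_⟩, ?_, ?_, ?_⟩
  · rw [Measure.smul_apply, huniv, smul_eq_mul, ENNReal.inv_mul_cancel hT0 hTt]
  · rw [Measure.smul_apply, G.measure_Iio hbot, hleft, hF0 0 le_rfl]
    simp
  · intro m k hk
    rw [Measure.smul_apply, dy, G.measure_Ico, hleft, hleft]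
    have e1 : FC_F ν ((((k : ℤ) : ℝ) + 1) / 2 ^ m) = FC_N ν m (k + 1) := by
      rw [← FC_F_dyadic h0 hs m (k + 1)]
      push_cast; rfl
    have e2 : FC_F ν (((k : ℤ) : ℝ) / 2 ^ m) = FC_N ν m k := by
      rw [← FC_F_dyadic h0 hs m k]
      push_cast; rfl
    rw [e1, e2, FC_N_succ, hk]
    simp
  · have hreal : ∀ x r : ℝ, 0 < r → ((ENNReal.ofReal T)⁻¹ • G.measure).real
        (Metric.closedBall x r) = T⁻¹ * (FC_F ν (x + r) - FC_F ν (x - r)) := by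
      intro x r hr
      rw [Real.closedBall_eq_Icc, measureReal_ennreal_smul_apply, Measure.real, G.measure_Icc,
        hleft, hG, ENNReal.toReal_ofReal (sub_nonneg.2 (hmono (by linarith))),
        ENNReal.toReal_inv, ENNReal.toReal_ofReal hpos.le]
    refine ⟨max 1 (8 / T + 2), le_max_left _ _, fun x r hr => ?_⟩
    rw [hreal x r hr]
    have hrs : 0 < r ^ s := Real.rpow_pos_of_pos hr s
    refine le_trans ?_ (mul_le_mul_of_nonneg_right (le_max_right _ _) hrs.le)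
    rw [inv_mul_le_iff₀ hpos]
    have hFb : FC_F ν (x + r) - FC_F ν (x - r) ≤ T := by
      have h1 : FC_F ν (x + r) ≤ T := by
        rw [← hFT (max 2 (x + r)) (le_max_left _ _)]
        exact hmono (le_max_right _ _)
      have h2 : 0 ≤ FC_F ν (x - r) := by
        rw [← hF0 (min 0 (x - r)) (min_le_left _ _)]
        exact hmono (min_le_right _ _)
      linarith
    rcases le_or_gt (1 / 2) r with h | h
    · have h2 : (1 : ℝ) ≤ 2 * r ^ s := by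
        have h3 : (1 / 2 : ℝ) ≤ (1 / 2) ^ s := by
          have := Real.rpow_le_rpow_of_exponent_ge (by norm_num : (0 : ℝ) < 1 / 2)
            (by norm_num : (1 / 2 : ℝ) ≤ 1) hs1
          rwa [Real.rpow_one] at this
        have h4 : (1 / 2 : ℝ) ^ s ≤ r ^ s := Real.rpow_le_rpow (by norm_num) h hs0.le
        linarith
      calc FC_F ν (x + r) - FC_F ν (x - r) ≤ T := hFb
        _ ≤ T * (2 * r ^ s) := le_mul_of_one_le_right hpos.le h2
        _ ≤ T * ((8 / T + 2) * r ^ s) := by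
          apply mul_le_mul_of_nonneg_left _ hpos.le
          apply mul_le_mul_of_nonneg_right _ hrs.le
          have : 0 ≤ 8 / T := by positivity
          linarith
    · obtain ⟨m, hm1, hm2⟩ := exists_nat_pow_near_of_lt_one (x := 2 * r) (y := (2 : ℝ)⁻¹)
        (by linarith) (by linarith) (by norm_num) (by norm_num)
      rw [inv_pow] at hm1 hm2
      have h1 := FC_F_close h0 hs hb m (x := x - r) (y := x + r) (by linarith)
      have e : (2 : ℝ) ^ (-(s * m)) = 2 ^ s * ((((2 : ℝ) ^ (m + 1))⁻¹) ^ s) := by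
        rw [← Real.rpow_natCast, ← Real.rpow_neg two_pos.le, ← Real.rpow_mul two_pos.le,
          ← Real.rpow_add two_pos]
        congr 1
        push_cast
        ring
      have h2 : (((2 : ℝ) ^ (m + 1))⁻¹) ^ s ≤ (2 * r) ^ s :=
        Real.rpow_le_rpow (by positivity) hm1.le hs0.le
      have h3 : (2 * r) ^ s = 2 ^ s * r ^ s := Real.mul_rpow two_pos.le hr.le
      have h4 : (2 : ℝ) ^ s ≤ 2 := by
        have := Real.rpow_le_rpow_of_exponent_le one_le_two hs1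
        rwa [Real.rpow_one] at this
      have h5 : 0 < (2 : ℝ) ^ s := Real.rpow_pos_of_pos two_pos s
      have h6 : (2 : ℝ) ^ (-(s * m)) ≤ 4 * r ^ s := by
        rw [e]
        calc (2 : ℝ) ^ s * ((((2 : ℝ) ^ (m + 1))⁻¹) ^ s) ≤ 2 ^ s * (2 ^ s * r ^ s) := by
              rw [← h3]; exact mul_le_mul_of_nonneg_left h2 h5.le
          _ = (2 ^ s * 2 ^ s) * r ^ s := by ring
          _ ≤ 4 * r ^ s := by
              apply mul_le_mul_of_nonneg_right _ hrs.le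
              nlinarith
      calc FC_F ν (x + r) - FC_F ν (x - r) ≤ 8 * r ^ s := by linarith
        _ ≤ T * ((8 / T + 2) * r ^ s) := by
          have : T * ((8 / T + 2) * r ^ s) = 8 * r ^ s + 2 * (T * r ^ s) := by
            field_simp
          rw [this]
          have : 0 ≤ T * r ^ s := by positivity
          linarith

end mass

/-! ### The masses -/

/-- The content of the part of `Kc` in a dyadic interval. -/
noncomputable def FC_f (s : ℝ) (Kc : Set ℝ) (m k : ℕ) : ℝ := (cont s (Kc ∩ dy m (k : ℤ))).toReal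

/-- The masses. -/
noncomputable def FC_nu (s : ℝ) (Kc : Set ℝ) : ℕ → ℕ → ℝ
  | 0, k => FC_f s Kc 0 k
  | m + 1, k => FC_nu s Kc m (k / 2) * (FC_f s Kc (m + 1) k /
      (FC_f s Kc (m + 1) (2 * (k / 2)) + FC_f s Kc (m + 1) (2 * (k / 2) + 1)))

lemma FC_fin (s : ℝ) (Kc : Set ℝ) (m : ℕ) (k : ℤ) : cont s (Kc ∩ dy m k) ≠ ⊤ :=
  ((FC_cont_dy s Kc m k).trans_lt ENNReal.ofReal_lt_top).ne

lemma FC_f_nonneg (s : ℝ) (Kc : Set ℝ) (m k : ℕ) : 0 ≤ FC_f s Kc m k := ENNReal.toReal_nonneg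

lemma FC_f_le (s : ℝ) (Kc : Set ℝ) (m k : ℕ) : FC_f s Kc m k ≤ (2 : ℝ) ^ (-(s * m)) := by
  unfold FC_f
  exact ENNReal.toReal_le_of_le_ofReal (Real.rpow_nonneg two_pos.le _) (FC_cont_dy s Kc m k)

lemma FC_f_split (s : ℝ) (Kc : Set ℝ) (m k : ℕ) :
    FC_f s Kc m k ≤ FC_f s Kc (m + 1) (2 * k) + FC_f s Kc (m + 1) (2 * k + 1) := by
  unfold FC_f
  rw [← ENNReal.toReal_add (FC_fin _ _ _ _) (FC_fin _ _ _ _)]
  apply ENNReal.toReal_mono
  · exact ENNReal.add_ne_top.2 ⟨FC_fin _ _ _ _, FC_fin _ _ _ _⟩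
  · rw [FC_dy_split, inter_union_distrib_left]
    exact FC_cont_union _ _ _

lemma FC_nu_bounds (s : ℝ) (Kc : Set ℝ) (m k : ℕ) :
    0 ≤ FC_nu s Kc m k ∧ FC_nu s Kc m k ≤ FC_f s Kc m k := by
  induction m generalizing k with
  | zero => exact ⟨FC_f_nonneg _ _ _ _, le_rfl⟩
  | succ m ih =>
    obtain ⟨i1, i2⟩ := ih (k / 2)
    set D := FC_f s Kc (m + 1) (2 * (k / 2)) + FC_f s Kc (m + 1) (2 * (k / 2) + 1) with hD
    have hD0 : 0 ≤ D := add_nonneg (FC_f_nonneg _ _ _ _) (FC_f_nonneg _ _ _ _)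
    have hDf : FC_f s Kc m (k / 2) ≤ D := FC_f_split _ _ _ _
    have hf0 := FC_f_nonneg s Kc (m + 1) k
    constructor
    · exact mul_nonneg i1 (div_nonneg hf0 hD0)
    · show FC_nu s Kc m (k / 2) * (FC_f s Kc (m + 1) k / D) ≤ FC_f s Kc (m + 1) k
      rcases hD0.eq_or_lt with h | h
      · rw [← h, div_zero, mul_zero]; exact hf0
      · rw [← mul_div_assoc, div_le_iff₀ h, mul_comm]
        exact mul_le_mul_of_nonneg_left (i2.trans hDf) hf0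

lemma FC_nu_split (s : ℝ) (Kc : Set ℝ) (m k : ℕ) :
    FC_nu s Kc m k = FC_nu s Kc (m + 1) (2 * k) + FC_nu s Kc (m + 1) (2 * k + 1) := by
  have h1 : 2 * k / 2 = k := by omega
  have h2 : (2 * k + 1) / 2 = k := by omega
  have e1 : FC_nu s Kc (m + 1) (2 * k) = FC_nu s Kc m k * (FC_f s Kc (m + 1) (2 * k) /
      (FC_f s Kc (m + 1) (2 * k) + FC_f s Kc (m + 1) (2 * k + 1))) := by
    show FC_nu s Kc m (2 * k / 2) * _ = _
    rw [h1]
  have e2 : FC_nu s Kc (m + 1) (2 * k + 1) = FC_nu s Kc m k * (FC_f s Kc (m + 1) (2 * k + 1) /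
      (FC_f s Kc (m + 1) (2 * k) + FC_f s Kc (m + 1) (2 * k + 1))) := by
    show FC_nu s Kc m ((2 * k + 1) / 2) * _ = _
    rw [h2]
  rw [e1, e2, ← mul_add, ← add_div]
  set D := FC_f s Kc (m + 1) (2 * k) + FC_f s Kc (m + 1) (2 * k + 1) with hD
  have hD0 : 0 ≤ D := add_nonneg (FC_f_nonneg _ _ _ _) (FC_f_nonneg _ _ _ _)
  rcases hD0.eq_or_lt with h | h
  · have h3 := (FC_nu_bounds s Kc m k).2
    have h4 := (FC_nu_bounds s Kc m k).1
    have h5 : FC_f s Kc m k ≤ D := FC_f_split _ _ _ _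
    rw [← h, div_zero, mul_zero]
    linarith
  · rw [div_self h.ne', mul_one]

theorem claimFroCompact : ClaimFroCompact := by
  intro s Kc hs0 hs1 hK hK1 hpos
  have hfz : ∀ m k : ℕ, Kc ∩ dy m (k : ℤ) = ∅ → FC_nu s Kc m k = 0 := by
    intro m k h
    have h1 : FC_f s Kc m k = 0 := by
      unfold FC_f; rw [h, FC_cont_empty]; rfl
    have := FC_nu_bounds s Kc m k
    linarith [this.1, this.2]
  have hz : ∀ k, 2 ≤ k → FC_nu s Kc 0 k = 0 := by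
    intro k hk
    apply hfz
    rw [eq_empty_iff_forall_notMem]
    rintro x ⟨hx, hx2⟩
    have h1 := (hK1 hx).2
    have h2 := hx2.1
    rw [pow_zero, div_one] at h2
    have h3 : (2 : ℝ) ≤ ((k : ℤ) : ℝ) := by exact_mod_cast hk
    linarith
  have hN : 0 < FC_N (FC_nu s Kc) 0 2 := by
    have h1 : FC_N (FC_nu s Kc) 0 2 = FC_f s Kc 0 0 + FC_f s Kc 0 1 := by
      simp [FC_N, Finset.sum_range_succ, FC_nu]
    rw [h1]
    unfold FC_f
    rw [← ENNReal.toReal_add (FC_fin _ _ _ _) (FC_fin _ _ _ _)]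
    apply ENNReal.toReal_pos
    · have h2 : cont s Kc ≤ cont s (Kc ∩ dy 0 ((0 : ℕ) : ℤ)) + cont s (Kc ∩ dy 0 ((1 : ℕ) : ℤ)) := by
        refine le_trans (FC_cont_mono s ?_) (FC_cont_union _ _ _)
        intro x hx
        have hx1 := hK1 hx
        rcases lt_or_ge x 1 with h | h
        · exact Or.inl ⟨hx, by simpa [dy] using ⟨hx1.1, h⟩⟩
        · refine Or.inr ⟨hx, ?_⟩
          simp only [dy, Nat.cast_one, Int.cast_one, pow_zero, div_one]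
          exact ⟨h, by linarith [hx1.2]⟩
      exact (hpos.trans_le h2).ne'
    · exact ENNReal.add_ne_top.2 ⟨FC_fin _ _ _ _, FC_fin _ _ _ _⟩
  obtain ⟨μ, hμ, hμ0, hμz, hC⟩ := FC_measure hs0 hs1 (fun m k => (FC_nu_bounds s Kc m k).1)
    (FC_nu_split s Kc) (fun m k => (FC_nu_bounds s Kc m k).2.trans (FC_f_le s Kc m k)) hz hN
  refine ⟨μ, hμ, ?_, hC⟩
  have hcov : Kcᶜ ⊆ Iio 0 ∪ ⋃ q : {q : ℕ × ℕ // Kc ∩ dy q.1 (q.2 : ℤ) = ∅},
      dy q.1.1 (q.1.2 : ℤ) := by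
    intro x hx
    rcases lt_or_ge x 0 with h | h
    · exact Or.inl h
    · right
      obtain ⟨ε, hε, hball⟩ := Metric.isOpen_iff.1 hK.isClosed.isOpen_compl x hx
      obtain ⟨m, hm⟩ := exists_pow_lt_of_lt_one hε (by norm_num : (2 : ℝ)⁻¹ < 1)
      have h2 : (0 : ℝ) < 2 ^ m := by positivity
      have hfl := Nat.floor_le (mul_nonneg h2.le h)
      have hfl2 := Nat.lt_floor_add_one ((2 : ℝ) ^ m * x)
      have hmem : x ∈ dy m ((⌊(2 : ℝ) ^ m * x⌋₊ : ℕ) : ℤ) := by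
        unfold dy
        push_cast
        rw [mem_Ico, div_le_iff₀ h2, lt_div_iff₀ h2, mul_comm x]
        exact ⟨hfl, hfl2⟩
      refine mem_iUnion.2 ⟨⟨(m, ⌊(2 : ℝ) ^ m * x⌋₊), ?_⟩, hmem⟩
      rw [eq_empty_iff_forall_notMem]
      rintro y ⟨hy, hy2⟩
      refine hball ?_ hy
      rw [Metric.mem_ball, Real.dist_eq]
      have h3 := hmem
      unfold dy at hy2 h3
      have h4 : |y - x| ≤ ((2 : ℝ) ^ m)⁻¹ := by
        have e : ((((⌊(2 : ℝ) ^ m * x⌋₊ : ℕ) : ℤ) : ℝ) + 1) / 2 ^ m =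
            (((⌊(2 : ℝ) ^ m * x⌋₊ : ℕ) : ℤ) : ℝ) / 2 ^ m + ((2 : ℝ) ^ m)⁻¹ := by
          rw [add_div, one_div]
        rw [e] at hy2 h3
        rw [abs_le]
        constructor <;> linarith [hy2.1, hy2.2, h3.1, h3.2]
      rw [inv_pow] at hm
      exact h4.trans_lt hm
  refine measure_mono_null hcov (measure_union_null hμ0 ?_)
  rw [measure_iUnion_null_iff]
  rintro ⟨⟨m, k⟩, hq⟩
  exact hμz m k (hfz m k hq)

end Pool.Agent.Work.MP_1151e3_an
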