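import Pool.Agent.Work.MP_1151e3_an.Basic

/-!
# Item D2: the energy of the law of `b - l a - τ` over slopes `l` in a short interval

Fubini turns the energy into an integral over `(a, b, a', b')` of the oscillating integral
`∫ W(l) T((b' - b) - l (a' - a)) dl`, `T` the autocorrelation of the scaled kernel, `W` a weight;
one integration by parts, then the Frostman condition for `b'` and for `a'` (dyadic).
-/

set_option autoImplicit false

namespace Pool.Agent.Work.MP_1151e3_an

open MeasureTheory Set Aff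
open scoped ENNReal

/-! ### The autocorrelation -/

theorem claimQ_kint (C0 : ℝ) (k : ℝ → ℝ) (hk : Ker k C0) : Integrable k := by
  apply hk.cont.integrable_of_hasCompactSupport
  apply HasCompactSupport.intro (K := Icc (-1 : ℝ) 1) isCompact_Icc
  intro x hx
  apply hk.supp
  by_contra h
  push Not at h
  exact hx ⟨(abs_lt.1 h).1.le, (abs_lt.1 h).2.le⟩

theorem claimQ_Th_cont (C0 : ℝ) (k : ℝ → ℝ) (hk : Ker k C0) : Continuous (Th k) := by
  unfold Th
  have hki := claimQ_kint C0 k hk
  apply continuous_of_dominated (bound := fun x => C0 * |k x|)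
  · intro y
    exact (hk.cont.mul (hk.cont.comp (continuous_id.add continuous_const))).aestronglyMeasurable
  · intro y
    refine Filter.Eventually.of_forall fun x => ?_
    rw [Real.norm_eq_abs, abs_mul, mul_comm]
    exact mul_le_mul_of_nonneg_right (hk.bdd _) (abs_nonneg _)
  · exact hki.abs.const_mul C0
  · refine Filter.Eventually.of_forall fun x => ?_
    exact continuous_const.mul (hk.cont.comp (continuous_const.add continuous_id))

theorem claimQ_Th_supp (C0 : ℝ) (k : ℝ → ℝ) (hk : Ker k C0) (y : ℝ) (hy : 2 ≤ |y|) :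
    Th k y = 0 := by
  unfold Th
  have h1 : ∀ x, k x * k (x + y) = 0 := by
    intro x
    rcases le_or_gt 1 |x| with h | h
    · rw [hk.supp x h, zero_mul]
    · rw [hk.supp (x + y), mul_zero]
      have := abs_sub_abs_le_abs_sub y (-x)
      rw [abs_neg, sub_neg_eq_add, add_comm y x] at this
      linarith
  simp [h1]

theorem claimQ_Th_int (C0 : ℝ) (k : ℝ → ℝ) (hk : Ker k C0) (h0 : ∫ x, k x = 0) :
    ∫ y, Th k y = 0 := by
  have hki := claimQ_kint C0 k hk
  have h1 : ∀ y, Th k y = (MeasureTheory.convolution (fun x => k (-x)) k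
      (ContinuousLinearMap.mul ℝ ℝ) volume) y := by
    intro y
    unfold Th MeasureTheory.convolution
    rw [← integral_neg_eq_self]
    apply integral_congr_ae
    refine Filter.Eventually.of_forall fun x => ?_
    simp only [ContinuousLinearMap.mul_apply']
    congr 2
    ring
  simp only [h1]
  rw [MeasureTheory.integral_convolution _ hki.comp_neg hki, h0]
  simp

theorem claimQ_Th_sc (k : ℝ → ℝ) (L y : ℝ) (hL : 0 < L) : Th (sc L k) y = L * Th k (L * y) := by
  unfold Th sc
  have h1 := Measure.integral_comp_mul_left (fun u => k u * k (u + L * y)) L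
  have h2 : ∀ x, L * k (L * x) * (L * k (L * (x + y))) =
      L ^ 2 * (k (L * x) * k (L * x + L * y)) := by
    intro x
    rw [mul_add]; ring
  simp only [h2]
  rw [integral_const_mul, h1, abs_of_pos (inv_pos.2 hL), smul_eq_mul]
  field_simp

/-- The primitive of the autocorrelation. -/
noncomputable def claimQ_Gam (k : ℝ → ℝ) (y : ℝ) : ℝ := ∫ x in (-2 : ℝ)..y, Th k x

theorem claimQ_Gam_deriv (C0 : ℝ) (k : ℝ → ℝ) (hk : Ker k C0) (y : ℝ) :
    HasDerivAt (claimQ_Gam k) (Th k y) y := by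
  have hc := claimQ_Th_cont C0 k hk
  exact intervalIntegral.integral_hasDerivAt_right (hc.intervalIntegrable _ _)
    (hc.stronglyMeasurableAtFilter _ _) hc.continuousAt

theorem claimQ_Gam_supp (C0 : ℝ) (k : ℝ → ℝ) (hk : Ker k C0) (h0 : ∫ x, k x = 0) (y : ℝ)
    (hy : 2 ≤ |y|) : claimQ_Gam k y = 0 := by
  have hc := claimQ_Th_cont C0 k hk
  unfold claimQ_Gam
  rcases le_total 0 y with h | h
  · rw [abs_of_nonneg h] at hy
    rw [intervalIntegral.integral_of_le (by linarith)]
    rw [← claimQ_Th_int C0 k hk h0]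
    apply setIntegral_eq_integral_of_forall_compl_eq_zero
    intro x hx
    apply claimQ_Th_supp C0 k hk
    rw [mem_Ioc, not_and_or, not_lt, not_le] at hx
    rcases hx with h1 | h1
    · rw [abs_of_nonpos (by linarith)]; linarith
    · rw [abs_of_nonneg (by linarith)]; linarith
  · rw [abs_of_nonpos h] at hy
    apply intervalIntegral.integral_zero_ae
    refine Filter.Eventually.of_forall fun x hx => ?_
    rw [uIoc_of_ge (by linarith)] at hx
    apply claimQ_Th_supp C0 k hk
    rw [abs_of_nonpos (by linarith [hx.2])]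
    linarith [hx.2]

theorem claimQ_consts (C0 : ℝ) (k : ℝ → ℝ) (hk : Ker k C0) (h0 : ∫ x, k x = 0) :
    ∃ C1 C2 : ℝ, 0 ≤ C1 ∧ 0 ≤ C2 ∧ (∀ y, |Th k y| ≤ C1) ∧ Integrable (fun y => |claimQ_Gam k y|) ∧
      ∫ y, |claimQ_Gam k y| ≤ C2 := by
  have hc := claimQ_Th_cont C0 k hk
  have hs : HasCompactSupport (Th k) := by
    apply HasCompactSupport.intro (K := Icc (-2 : ℝ) 2) isCompact_Icc
    intro x hx
    apply claimQ_Th_supp C0 k hk
    by_contra h
    push Not at h
    exact hx ⟨(abs_lt.1 h).1.le, (abs_lt.1 h).2.le⟩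
  obtain ⟨C1, hC1⟩ := hc.bounded_above_of_compact_support hs
  have hG : Continuous (claimQ_Gam k) := by
    rw [continuous_iff_continuousAt]
    intro y
    exact (claimQ_Gam_deriv C0 k hk y).continuousAt
  have hGs : HasCompactSupport (claimQ_Gam k) := by
    apply HasCompactSupport.intro (K := Icc (-2 : ℝ) 2) isCompact_Icc
    intro x hx
    apply claimQ_Gam_supp C0 k hk h0
    by_contra h
    push Not at h
    exact hx ⟨(abs_lt.1 h).1.le, (abs_lt.1 h).2.le⟩
  refine ⟨C1, ∫ y, |claimQ_Gam k y|, (abs_nonneg _).trans (hC1 0),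
    integral_nonneg fun y => abs_nonneg _, hC1, ?_, le_rfl⟩
  exact (hG.integrable_of_hasCompactSupport hGs).abs

/-! ### The weight -/

/-- The weight: a polynomial which is `≥ 1` on `[l0 - w, l0 + w]` and vanishes at `l0 ± 2 w`. -/
noncomputable def claimQ_W (l0 w l : ℝ) : ℝ := (4 - ((l - l0) / w) ^ 2) ^ 2 / 9

/-- Its derivative. -/
noncomputable def claimQ_W' (l0 w l : ℝ) : ℝ :=
  2 * (4 - ((l - l0) / w) ^ 2) * (-(2 * ((l - l0) / w) * (1 / w))) / 9

theorem claimQ_W_deriv (l0 w l : ℝ) : HasDerivAt (claimQ_W l0 w) (claimQ_W' l0 w l) l := by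
  unfold claimQ_W claimQ_W'
  have h1 : HasDerivAt (fun l : ℝ => (l - l0) / w) (1 / w) l :=
    ((hasDerivAt_id l).sub_const l0).div_const w
  have h2 := ((((h1.pow 2).const_sub 4).pow 2).div_const 9)
  refine h2.congr_deriv ?_
  simp only [Pi.pow_apply]
  push_cast
  ring

theorem claimQ_W_cont (l0 w : ℝ) : Continuous (claimQ_W l0 w) := by
  unfold claimQ_W; fun_prop

theorem claimQ_W'_cont (l0 w : ℝ) : Continuous (claimQ_W' l0 w) := by
  unfold claimQ_W'; fun_prop

theorem claimQ_W_nonneg (l0 w l : ℝ) : 0 ≤ claimQ_W l0 w l := by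
  unfold claimQ_W; positivity

theorem claimQ_W_ge (l0 w l : ℝ) (hw : 0 < w) (hl : |l - l0| ≤ w) : 1 ≤ claimQ_W l0 w l := by
  have h1 : ((l - l0) / w) ^ 2 ≤ 1 := by
    rw [div_pow, div_le_one (by positivity), ← sq_abs (l - l0)]
    exact pow_le_pow_left₀ (abs_nonneg _) hl 2
  unfold claimQ_W
  have h2 : 3 ≤ 4 - ((l - l0) / w) ^ 2 := by linarith
  have h3 : (3 : ℝ) ^ 2 ≤ (4 - ((l - l0) / w) ^ 2) ^ 2 := pow_le_pow_left₀ (by norm_num) h2 2
  linarith

theorem claimQ_W_le (l0 w l : ℝ) (hw : 0 < w) (hl : |l - l0| ≤ 2 * w) : claimQ_W l0 w l ≤ 2 := by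
  have h1 : ((l - l0) / w) ^ 2 ≤ 4 := by
    rw [div_pow, div_le_iff₀ (by positivity), ← sq_abs (l - l0)]
    calc |l - l0| ^ 2 ≤ (2 * w) ^ 2 := pow_le_pow_left₀ (abs_nonneg _) hl 2
      _ = 4 * w ^ 2 := by ring
  unfold claimQ_W
  have h0 : 0 ≤ ((l - l0) / w) ^ 2 := sq_nonneg _
  have h3 : (4 - ((l - l0) / w) ^ 2) ^ 2 ≤ (4 : ℝ) ^ 2 :=
    pow_le_pow_left₀ (by linarith) (by linarith) 2
  linarith

theorem claimQ_W'_le (l0 w l : ℝ) (hw : 0 < w) (hl : |l - l0| ≤ 2 * w) :
    |claimQ_W' l0 w l| ≤ 4 / w := by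
  have h1 : |(l - l0) / w| ≤ 2 := by
    rw [abs_div, abs_of_pos hw, div_le_iff₀ hw]; exact hl
  have h2 : ((l - l0) / w) ^ 2 ≤ 4 := by
    rw [← sq_abs]
    calc |(l - l0) / w| ^ 2 ≤ 2 ^ 2 := pow_le_pow_left₀ (abs_nonneg _) h1 2
      _ = 4 := by norm_num
  have h0 : 0 ≤ ((l - l0) / w) ^ 2 := sq_nonneg _
  unfold claimQ_W'
  rw [abs_div, abs_mul, abs_mul, abs_neg, abs_mul, abs_mul, abs_of_pos (one_div_pos.2 hw)]
  have h3 : |4 - ((l - l0) / w) ^ 2| ≤ 4 := by
    rw [abs_le]; constructor <;> linarith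
  rw [abs_of_pos (by norm_num : (0 : ℝ) < 2), abs_of_pos (by norm_num : (0 : ℝ) < 9)]
  have h4 : 0 ≤ |4 - ((l - l0) / w) ^ 2| := abs_nonneg _
  have h5 : 0 ≤ |(l - l0) / w| := abs_nonneg _
  have h6 : |4 - ((l - l0) / w) ^ 2| * |(l - l0) / w| ≤ 4 * 2 :=
    mul_le_mul h3 h1 h5 (by norm_num)
  calc 2 * |4 - ((l - l0) / w) ^ 2| * (2 * |(l - l0) / w| * (1 / w)) / 9
      = (|4 - ((l - l0) / w) ^ 2| * |(l - l0) / w|) * (4 / 9 * (1 / w)) := by ring
    _ ≤ (4 * 2) * (4 / 9 * (1 / w)) := mul_le_mul_of_nonneg_right h6 (by positivity)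
    _ ≤ 4 / w := by
        rw [div_eq_mul_one_div 4 w]
        have : 0 < 1 / w := by positivity
        nlinarith

theorem claimQ_W_end1 (l0 w : ℝ) (hw : 0 < w) : claimQ_W l0 w (l0 - 2 * w) = 0 := by
  unfold claimQ_W
  have : (l0 - 2 * w - l0) / w = -2 := by field_simp; ring
  rw [this]; norm_num

theorem claimQ_W_end2 (l0 w : ℝ) (hw : 0 < w) : claimQ_W l0 w (l0 + 2 * w) = 0 := by
  unfold claimQ_W
  have : (l0 + 2 * w - l0) / w = 2 := by field_simp; ring
  rw [this]; norm_num

/-! ### The oscillating integral -/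

/-- The integral over the slopes. -/
noncomputable def claimQ_Psi (k : ℝ → ℝ) (L l0 w al be : ℝ) : ℝ :=
  ∫ l in (l0 - 2 * w)..(l0 + 2 * w), claimQ_W l0 w l * Th (sc L k) (be - l * al)

theorem claimQ_Psi_trivial (C1 : ℝ) (k : ℝ → ℝ) (hC1 : ∀ y, |Th k y| ≤ C1)
    (L l0 w al be : ℝ) (hL : 0 < L) (hw : 0 < w) :
    |claimQ_Psi k L l0 w al be| ≤ 8 * C1 * (w * L) := by
  unfold claimQ_Psi
  have h1 : ∀ l ∈ uIoc (l0 - 2 * w) (l0 + 2 * w),
      ‖claimQ_W l0 w l * Th (sc L k) (be - l * al)‖ ≤ 2 * (L * C1) := by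
    intro l hl
    rw [uIoc_of_le (by linarith)] at hl
    have hl' : |l - l0| ≤ 2 * w := by
      rw [abs_le]; constructor <;> linarith [hl.1, hl.2]
    rw [Real.norm_eq_abs, abs_mul, abs_of_nonneg (claimQ_W_nonneg _ _ _), claimQ_Th_sc k L _ hL,
      abs_mul, abs_of_pos hL]
    apply mul_le_mul (claimQ_W_le _ _ _ hw hl') _ (by positivity) (by norm_num)
    exact mul_le_mul_of_nonneg_left (hC1 _) hL.le
  have h2 := intervalIntegral.norm_integral_le_of_norm_le_const h1
  rw [Real.norm_eq_abs] at h2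
  refine h2.trans (le_of_eq ?_)
  rw [show l0 + 2 * w - (l0 - 2 * w) = 4 * w by ring, abs_of_pos (by linarith)]
  ring

theorem claimQ_Psi_supp (C0 : ℝ) (k : ℝ → ℝ) (hk : Ker k C0)
    (L l0 w al be : ℝ) (hL : 0 < L) (hw : 0 < w) (h : 2 * w * |al| + 2 / L < |be - l0 * al|) :
    claimQ_Psi k L l0 w al be = 0 := by
  unfold claimQ_Psi
  apply intervalIntegral.integral_zero_ae
  refine Filter.Eventually.of_forall fun l hl => ?_
  rw [uIoc_of_le (by linarith)] at hl
  have hl' : |l - l0| ≤ 2 * w := by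
    rw [abs_le]; constructor <;> linarith [hl.1, hl.2]
  rw [claimQ_Th_sc k L _ hL, claimQ_Th_supp C0 k hk, mul_zero, mul_zero]
  rw [abs_mul, abs_of_pos hL]
  have h1 : |be - l0 * al| ≤ |be - l * al| + |l - l0| * |al| := by
    rw [← abs_mul]
    have := abs_add_le (be - l * al) ((l - l0) * al)
    rwa [show be - l * al + (l - l0) * al = be - l0 * al by ring] at this
  have h2 : |l - l0| * |al| ≤ 2 * w * |al| := mul_le_mul_of_nonneg_right hl' (abs_nonneg _)
  have h3 : 2 / L ≤ |be - l * al| := by linarith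
  rw [div_le_iff₀ hL] at h3
  linarith

theorem claimQ_Psi_parts (C0 C2 : ℝ) (k : ℝ → ℝ) (hk : Ker k C0)
    (hG : Integrable (fun y => |claimQ_Gam k y|)) (hC2 : ∫ y, |claimQ_Gam k y| ≤ C2)
    (L l0 w al be : ℝ) (hL : 0 < L) (hw : 0 < w) (hal : al ≠ 0) :
    |claimQ_Psi k L l0 w al be| ≤ 4 * C2 / (w * L * al ^ 2) := by
  have hΓ : ∀ l, HasDerivAt (fun l => -(claimQ_Gam k (L * (be - l * al)) / al))
      (Th (sc L k) (be - l * al)) l := by
    intro l
    have h1 : HasDerivAt (fun l => L * (be - l * al)) (L * -al) l := by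
      have := (((hasDerivAt_id l).mul_const al).const_sub be).const_mul L
      simpa using this
    have h2 := ((claimQ_Gam_deriv C0 k hk (L * (be - l * al))).comp l h1).div_const al |>.neg
    refine h2.congr_deriv ?_
    rw [claimQ_Th_sc k L _ hL]
    field_simp
  have hTc : Continuous fun l => Th (sc L k) (be - l * al) := by
    have h1 : ∀ l, Th (sc L k) (be - l * al) = L * Th k (L * (be - l * al)) :=
      fun l => claimQ_Th_sc k L _ hL
    simp only [h1]
    have := claimQ_Th_cont C0 k hk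
    fun_prop
  have hparts := intervalIntegral.integral_mul_deriv_eq_deriv_mul (a := l0 - 2 * w)
    (b := l0 + 2 * w) (fun l _ => claimQ_W_deriv l0 w l) (fun l _ => hΓ l)
    ((claimQ_W'_cont l0 w).intervalIntegrable _ _) (hTc.intervalIntegrable _ _)
  rw [claimQ_W_end1 l0 w hw, claimQ_W_end2 l0 w hw, zero_mul, zero_mul, sub_zero, zero_sub] at hparts
  unfold claimQ_Psi
  rw [hparts, abs_neg]
  have hGc : Continuous (claimQ_Gam k) := by
    rw [continuous_iff_continuousAt]
    intro y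
    exact (claimQ_Gam_deriv C0 k hk y).continuousAt
  have hGi : Integrable fun l => |claimQ_Gam k (L * (be - l * al))| := by
    have h1 := (hG.comp_add_left (L * be)).comp_mul_left' (R := -(L * al)) (by
      simp [hL.ne', hal])
    refine h1.congr (Filter.Eventually.of_forall fun l => ?_)
    simp only
    congr 2
    ring
  have hGint : ∫ l, |claimQ_Gam k (L * (be - l * al))| = |(L * al)⁻¹| * ∫ y, |claimQ_Gam k y| := by
    have h1 := Measure.integral_comp_mul_left (fun y => |claimQ_Gam k (L * be + y)|) (-(L * al))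
    have h2 := integral_add_left_eq_self (fun y => |claimQ_Gam k y|) (L * be) (μ := volume)
    rw [h2, inv_neg, abs_neg, smul_eq_mul] at h1
    rw [← h1]
    apply integral_congr_ae
    refine Filter.Eventually.of_forall fun l => ?_
    simp only
    congr 2
    ring
  calc |∫ l in (l0 - 2 * w)..(l0 + 2 * w), claimQ_W' l0 w l *
        -(claimQ_Gam k (L * (be - l * al)) / al)|
      ≤ ∫ l in (l0 - 2 * w)..(l0 + 2 * w), |claimQ_W' l0 w l *
        -(claimQ_Gam k (L * (be - l * al)) / al)| :=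
        intervalIntegral.abs_integral_le_integral_abs (by linarith)
    _ ≤ ∫ l in (l0 - 2 * w)..(l0 + 2 * w), 4 / w * |al|⁻¹ * |claimQ_Gam k (L * (be - l * al))| := by
        apply intervalIntegral.integral_mono_on (by linarith)
        · apply Continuous.intervalIntegrable
          have := claimQ_W'_cont l0 w
          fun_prop
        · exact (hGi.const_mul _).intervalIntegrable
        · intro l hl
          have hl' : |l - l0| ≤ 2 * w := by
            rw [abs_le]; constructor <;> linarith [hl.1, hl.2]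
          rw [abs_mul, abs_neg, abs_div]
          have := claimQ_W'_le l0 w l hw hl'
          calc |claimQ_W' l0 w l| * (|claimQ_Gam k (L * (be - l * al))| / |al|)
              ≤ 4 / w * (|claimQ_Gam k (L * (be - l * al))| / |al|) :=
                mul_le_mul_of_nonneg_right this (by positivity)
            _ = _ := by rw [div_eq_mul_inv _ |al|]; ring
    _ ≤ ∫ l, 4 / w * |al|⁻¹ * |claimQ_Gam k (L * (be - l * al))| := by
        rw [intervalIntegral.integral_of_le (by linarith)]
        apply setIntegral_le_integral (hGi.const_mul _)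
        refine Filter.Eventually.of_forall fun l => ?_
        show 0 ≤ 4 / w * |al|⁻¹ * |claimQ_Gam k (L * (be - l * al))|
        positivity
    _ = 4 / w * |al|⁻¹ * (|(L * al)⁻¹| * ∫ y, |claimQ_Gam k y|) := by
        rw [integral_const_mul, hGint]
    _ ≤ 4 / w * |al|⁻¹ * (|(L * al)⁻¹| * C2) := by
        apply mul_le_mul_of_nonneg_left _ (by positivity)
        exact mul_le_mul_of_nonneg_left hC2 (abs_nonneg _)
    _ = 4 * C2 / (w * L * al ^ 2) := by
        rw [abs_inv, abs_mul, abs_of_pos hL, ← sq_abs al]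
        have : |al| ≠ 0 := abs_ne_zero.2 hal
        field_simp

theorem claimQ_Psi_bound (C0 C1 C2 : ℝ) (k : ℝ → ℝ) (hk : Ker k C0) (hC10 : 0 ≤ C1)
    (hC20 : 0 ≤ C2) (hC1 : ∀ y, |Th k y| ≤ C1)
    (hG : Integrable (fun y => |claimQ_Gam k y|)) (hC2 : ∫ y, |claimQ_Gam k y| ≤ C2)
    (L l0 w al be : ℝ) (hL : 0 < L) (hw : 0 < w) :
    |claimQ_Psi k L l0 w al be| ≤ (32 * C1 + 16 * C2) * (w * L) / (1 + |al| * (w * L)) ^ 2 := by
  have hv : 0 < w * L := mul_pos hw hL
  have hx : 0 ≤ |al| * (w * L) := mul_nonneg (abs_nonneg _) hv.le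
  rw [le_div_iff₀ (by positivity)]
  rcases le_or_gt (|al| * (w * L)) 1 with h | h
  · have h1 := claimQ_Psi_trivial C1 k hC1 L l0 w al be hL hw
    have h2 : (1 + |al| * (w * L)) ^ 2 ≤ 4 := by
      calc (1 + |al| * (w * L)) ^ 2 ≤ 2 ^ 2 := pow_le_pow_left₀ (by linarith) (by linarith) 2
        _ = 4 := by norm_num
    calc |claimQ_Psi k L l0 w al be| * (1 + |al| * (w * L)) ^ 2
        ≤ (8 * C1 * (w * L)) * 4 := mul_le_mul h1 h2 (by positivity) (by positivity)
      _ ≤ _ := by nlinarith [mul_nonneg hC20 hv.le]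
  · have hal : al ≠ 0 := by
      rintro rfl
      simp at h
      linarith
    have h1 := claimQ_Psi_parts C0 C2 k hk hG hC2 L l0 w al be hL hw hal
    have h2 : (1 + |al| * (w * L)) ^ 2 ≤ 4 * (|al| * (w * L)) ^ 2 := by
      calc (1 + |al| * (w * L)) ^ 2 ≤ (2 * (|al| * (w * L))) ^ 2 :=
            pow_le_pow_left₀ (by linarith) (by linarith) 2
        _ = _ := by ring
    have h3 : 0 < |al| := abs_pos.2 hal
    calc |claimQ_Psi k L l0 w al be| * (1 + |al| * (w * L)) ^ 2
        ≤ (4 * C2 / (w * L * al ^ 2)) * (4 * (|al| * (w * L)) ^ 2) :=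
          mul_le_mul h1 h2 (by positivity) (by positivity)
      _ = 16 * C2 * (w * L) := by
          rw [← sq_abs al]
          field_simp
          ring
      _ ≤ _ := by nlinarith [mul_nonneg hC10 hv.le]

/-! ### The final summation -/

theorem claimQ_ball (μ : Measure ℝ) (K s R x r : ℝ) (hμ : IsProbabilityMeasure μ)
    (hf : Fro μ K s (1 / R)) (hr : 1 / R ≤ r) :
    μ (Metric.closedBall x r) ≤ ENNReal.ofReal (K * r ^ s) := by
  have h1 := hf x r hr
  rw [← ENNReal.ofReal_toReal (measure_ne_top μ (Metric.closedBall x r))]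
  exact ENNReal.ofReal_le_ofReal h1

theorem claimQ_tail (s : ℝ) (hs0 : 0 < s) (hs1 : s < 1) (μ : Measure ℝ) (K R v a : ℝ)
    (hμ : IsProbabilityMeasure μ) (hK : 1 ≤ K) (hv : 0 < v) (hvR : v ≤ R)
    (hf : Fro μ K s (1 / R)) :
    ∫⁻ a', ENNReal.ofReal ((1 + |a' - a| * v) ^ (s - 2)) ∂μ ≤
      ENNReal.ofReal (K * (2 / v) ^ s * (1 - 2 ^ (2 * s - 2))⁻¹) := by
  have hρ0 : (0 : ℝ) < 2 ^ (2 * s - 2) := Real.rpow_pos_of_pos two_pos _
  have hρ1 : (2 : ℝ) ^ (2 * s - 2) < 1 :=
    Real.rpow_lt_one_of_one_lt_of_neg one_lt_two (by linarith)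
  calc ∫⁻ a', ENNReal.ofReal ((1 + |a' - a| * v) ^ (s - 2)) ∂μ
      ≤ ∫⁻ a', ∑' q : ℕ, (Metric.closedBall a (2 ^ (q + 1) / v)).indicator
          (fun _ => ENNReal.ofReal (((2 : ℝ) ^ q) ^ (s - 2))) a' ∂μ := by
        apply lintegral_mono
        intro a'
        have hx : 1 ≤ 1 + |a' - a| * v := by
          have : 0 ≤ |a' - a| * v := by positivity
          linarith
        obtain ⟨q, hq1, hq2⟩ := exists_nat_pow_near hx one_lt_two
        refine le_trans ?_ (ENNReal.le_tsum q)
        rw [Set.indicator_of_mem]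
        · apply ENNReal.ofReal_le_ofReal
          exact Real.rpow_le_rpow_of_nonpos (by positivity) hq1 (by linarith)
        · rw [Metric.mem_closedBall, Real.dist_eq, le_div_iff₀ hv]
          linarith
    _ = ∑' q : ℕ, ∫⁻ a', (Metric.closedBall a (2 ^ (q + 1) / v)).indicator
          (fun _ => ENNReal.ofReal (((2 : ℝ) ^ q) ^ (s - 2))) a' ∂μ := by
        apply lintegral_tsum
        intro q
        exact (measurable_const.indicator Metric.isClosed_closedBall.measurableSet).aemeasurable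
    _ ≤ ∑' q : ℕ, ENNReal.ofReal (K * (2 / v) ^ s * (2 ^ (2 * s - 2)) ^ q) := by
        apply ENNReal.tsum_le_tsum
        intro q
        rw [lintegral_indicator_const Metric.isClosed_closedBall.measurableSet]
        have h1 : 1 / R ≤ 2 ^ (q + 1) / v := by
          rw [div_le_div_iff₀ (by linarith) hv]
          have : (1 : ℝ) ≤ 2 ^ (q + 1) := one_le_pow₀ one_le_two
          nlinarith
        refine (mul_le_mul_right (claimQ_ball μ K s R a _ hμ hf h1) _).trans ?_
        rw [← ENNReal.ofReal_mul (by positivity)]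
        apply ENNReal.ofReal_le_ofReal
        apply le_of_eq
        have e1 : ((2 : ℝ) ^ (q + 1) / v) ^ s = ((2 : ℝ) ^ q) ^ s * (2 / v) ^ s := by
          rw [← Real.mul_rpow (by positivity) (by positivity)]
          congr 1
          rw [pow_succ]; ring
        have e2 : ((2 : ℝ) ^ q) ^ (s - 2) * ((2 : ℝ) ^ q) ^ s = (2 ^ (2 * s - 2)) ^ q := by
          rw [← Real.rpow_add (by positivity), ← Real.rpow_natCast 2 q, ← Real.rpow_mul two_pos.le,
            ← Real.rpow_natCast _ q, ← Real.rpow_mul two_pos.le]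
          congr 1; ring
        rw [e1, ← e2]
        ring
    _ = ENNReal.ofReal (K * (2 / v) ^ s * (1 - 2 ^ (2 * s - 2))⁻¹) := by
        rw [← ENNReal.ofReal_tsum_of_nonneg]
        · congr 1
          rw [tsum_mul_left, tsum_geometric_of_lt_one hρ0.le hρ1]
        · intro q
          have := Real.rpow_nonneg (show 0 ≤ 2 / v by positivity) s
          positivity
        · exact (summable_geometric_of_lt_one hρ0.le hρ1).mul_left _

theorem claimQ_double (s C0 C1 C2 : ℝ) (hs0 : 0 < s) (hs1 : s < 1) (k : ℝ → ℝ) (hk : Ker k C0)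
    (hC10 : 0 ≤ C1) (hC20 : 0 ≤ C2) (hC1 : ∀ y, |Th k y| ≤ C1)
    (hG : Integrable (fun y => |claimQ_Gam k y|)) (hC2 : ∫ y, |claimQ_Gam k y| ≤ C2)
    (K R L w l0 : ℝ) (μ : Measure ℝ) (hμ : IsProbabilityMeasure μ) (hK : 1 ≤ K) (hL : 1 ≤ L)
    (hLR : L ≤ R) (hw : 0 < w) (hw1 : w ≤ 1) (hf : Fro μ K s (1 / R)) :
    ∫⁻ z : (ℝ × ℝ) × (ℝ × ℝ), ENNReal.ofReal
      |claimQ_Psi k L l0 w (z.2.1 - z.1.1) (z.2.2 - z.1.2)| ∂((μ.prod μ).prod (μ.prod μ)) ≤
    ENNReal.ofReal ((32 * C1 + 16 * C2) * 4 ^ s * (1 - 2 ^ (2 * s - 2))⁻¹ *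
      K ^ 2 * w ^ (1 - s) * L ^ (1 - 2 * s)) := by
  have hL0 : 0 < L := by linarith
  set v : ℝ := w * L with hv
  have hv0 : 0 < v := mul_pos hw hL0
  have hvR : v ≤ R := by
    have : w * L ≤ 1 * L := mul_le_mul_of_nonneg_right hw1 hL0.le
    linarith
  set C3 : ℝ := 32 * C1 + 16 * C2 with hC3
  have hC30 : 0 ≤ C3 := by positivity
  have hinner : ∀ p : ℝ × ℝ, ∫⁻ q : ℝ × ℝ, ENNReal.ofReal
      |claimQ_Psi k L l0 w (q.1 - p.1) (q.2 - p.2)| ∂(μ.prod μ) ≤
      ENNReal.ofReal (C3 * v * (K * (2 / L) ^ s)) *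
        ENNReal.ofReal (K * (2 / v) ^ s * (1 - 2 ^ (2 * s - 2))⁻¹) := by
    intro p
    calc _ ≤ ∫⁻ a', ∫⁻ b', ENNReal.ofReal
          |claimQ_Psi k L l0 w (a' - p.1) (b' - p.2)| ∂μ ∂μ := lintegral_prod_le _
      _ ≤ ∫⁻ a', ENNReal.ofReal (C3 * v * (K * (2 / L) ^ s)) *
            ENNReal.ofReal ((1 + |a' - p.1| * v) ^ (s - 2)) ∂μ := by
          apply lintegral_mono
          intro a'
          set x : ℝ := |a' - p.1| * v with hx
          have hx0 : 0 ≤ x := by positivity
          have h1x : 0 < 1 + x := by linarith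
          calc ∫⁻ b', ENNReal.ofReal |claimQ_Psi k L l0 w (a' - p.1) (b' - p.2)| ∂μ
              ≤ ∫⁻ b', (Metric.closedBall (p.2 + l0 * (a' - p.1)) (2 / L * (1 + x))).indicator
                  (fun _ => ENNReal.ofReal (C3 * v / (1 + x) ^ 2)) b' ∂μ := by
                apply lintegral_mono
                intro b'
                show ENNReal.ofReal |claimQ_Psi k L l0 w (a' - p.1) (b' - p.2)| ≤ _
                by_cases hb : b' ∈ Metric.closedBall (p.2 + l0 * (a' - p.1)) (2 / L * (1 + x))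
                · rw [Set.indicator_of_mem hb]
                  apply ENNReal.ofReal_le_ofReal
                  exact claimQ_Psi_bound C0 C1 C2 k hk hC10 hC20 hC1 hG hC2 L l0 w _ _ hL0 hw
                · rw [Set.indicator_of_notMem hb, claimQ_Psi_supp C0 k hk L l0 w _ _ hL0 hw]
                  · simp
                  · rw [Metric.mem_closedBall, Real.dist_eq, not_le] at hb
                    rw [show b' - p.2 - l0 * (a' - p.1) = b' - (p.2 + l0 * (a' - p.1)) by ring]
                    refine lt_of_le_of_lt (le_of_eq ?_) hb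
                    rw [hx, hv]
                    field_simp
                    ring
            _ = ENNReal.ofReal (C3 * v / (1 + x) ^ 2) *
                  μ (Metric.closedBall (p.2 + l0 * (a' - p.1)) (2 / L * (1 + x))) :=
                lintegral_indicator_const Metric.isClosed_closedBall.measurableSet _
            _ ≤ ENNReal.ofReal (C3 * v / (1 + x) ^ 2) *
                  ENNReal.ofReal (K * (2 / L * (1 + x)) ^ s) := by
                apply mul_le_mul_right
                apply claimQ_ball μ K s R _ _ hμ hf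
                rw [div_le_iff₀ (by linarith)]
                have h2 : 2 / L * R ≥ 2 := by
                  rw [ge_iff_le, div_mul_eq_mul_div, le_div_iff₀ hL0]
                  linarith
                nlinarith
            _ = ENNReal.ofReal (C3 * v * (K * (2 / L) ^ s)) *
                  ENNReal.ofReal ((1 + x) ^ (s - 2)) := by
                rw [← ENNReal.ofReal_mul (by positivity), ← ENNReal.ofReal_mul (by positivity)]
                congr 1
                rw [Real.mul_rpow (by positivity) h1x.le, Real.rpow_sub h1x]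
                have : (1 + x) ^ (2 : ℝ) = (1 + x) ^ 2 := Real.rpow_natCast _ 2
                rw [this]
                field_simp
      _ = ENNReal.ofReal (C3 * v * (K * (2 / L) ^ s)) *
            ∫⁻ a', ENNReal.ofReal ((1 + |a' - p.1| * v) ^ (s - 2)) ∂μ :=
          lintegral_const_mul' _ _ ENNReal.ofReal_ne_top
      _ ≤ _ := mul_le_mul_right (claimQ_tail s hs0 hs1 μ K R v p.1 hμ hK hv0 hvR hf) _
  calc _ ≤ ∫⁻ p : ℝ × ℝ, ∫⁻ q : ℝ × ℝ, ENNReal.ofReal
        |claimQ_Psi k L l0 w (q.1 - p.1) (q.2 - p.2)| ∂(μ.prod μ) ∂(μ.prod μ) :=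
        lintegral_prod_le _
    _ ≤ ∫⁻ _ : ℝ × ℝ, ENNReal.ofReal (C3 * v * (K * (2 / L) ^ s)) *
        ENNReal.ofReal (K * (2 / v) ^ s * (1 - 2 ^ (2 * s - 2))⁻¹) ∂(μ.prod μ) :=
        lintegral_mono hinner
    _ = ENNReal.ofReal (C3 * v * (K * (2 / L) ^ s)) *
        ENNReal.ofReal (K * (2 / v) ^ s * (1 - 2 ^ (2 * s - 2))⁻¹) := by
        rw [lintegral_const, measure_univ, mul_one]
    _ = _ := by
        rw [← ENNReal.ofReal_mul (by positivity)]
        congr 1
        rw [Real.div_rpow two_pos.le hL0.le, Real.div_rpow two_pos.le hv0.le, hv,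
          Real.mul_rpow hw.le hL0.le, Real.rpow_sub hw, Real.rpow_one,
          show 1 - 2 * s = 1 - s - s by ring, Real.rpow_sub hL0, Real.rpow_sub hL0, Real.rpow_one,
          show (4 : ℝ) = 2 * 2 by norm_num, Real.mul_rpow two_pos.le two_pos.le]
        have h1 := (Real.rpow_pos_of_pos hL0 s).ne'
        have h2 := (Real.rpow_pos_of_pos hw s).ne'
        field_simp

/-! ### Fubini -/

theorem claimQ_energy (ν : Measure (ℝ × ℝ)) (hν : IsProbabilityMeasure ν) (c : ℝ × ℝ → ℝ)
    (hc : Continuous c) (g : ℝ → ℝ) (Cg : ℝ) (hg : Continuous g) (hgi : Integrable g)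
    (hgb : ∀ x, |g x| ≤ Cg) :
    0 ≤ ∫ z : (ℝ × ℝ) × (ℝ × ℝ), Th g (c z.2 - c z.1) ∂(ν.prod ν) ∧
    ∫⁻ τ, ENNReal.ofReal ((∫ p, g (c p - τ) ∂ν) ^ 2) =
      ENNReal.ofReal (∫ z : (ℝ × ℝ) × (ℝ × ℝ), Th g (c z.2 - c z.1) ∂(ν.prod ν)) := by
  have hcont : Continuous (Function.uncurry fun (τ : ℝ) (z : (ℝ × ℝ) × (ℝ × ℝ)) =>
      g (c z.1 - τ) * g (c z.2 - τ)) := by
    unfold Function.uncurry
    fun_prop
  have hCg : 0 ≤ Cg := (abs_nonneg _).trans (hgb 0)
  have hint : Integrable (Function.uncurry fun (τ : ℝ) (z : (ℝ × ℝ) × (ℝ × ℝ)) =>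
      g (c z.1 - τ) * g (c z.2 - τ)) (volume.prod (ν.prod ν)) := by
    rw [integrable_prod_iff' hcont.aestronglyMeasurable]
    have hz : ∀ z : (ℝ × ℝ) × (ℝ × ℝ), Integrable (fun τ => g (c z.1 - τ) * g (c z.2 - τ)) := by
      intro z
      refine (hgi.comp_sub_left (c z.1)).mul_bdd (c := Cg) ?_ ?_
      · exact (hg.comp (continuous_const.sub continuous_id)).aestronglyMeasurable
      · exact Filter.Eventually.of_forall fun τ => hgb _
    constructor
    · exact Filter.Eventually.of_forall hz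
    · refine Integrable.of_bound (C := Cg * ∫ x, |g x|) ?_ ?_
      · exact (hcont.norm.aestronglyMeasurable (μ := (ν.prod ν).prod volume
          |>.map Prod.swap)).comp_measurable measurable_swap |>.integral_prod_right'
      · refine Filter.Eventually.of_forall fun z => ?_
        rw [Real.norm_eq_abs, abs_of_nonneg (integral_nonneg fun _ => norm_nonneg _)]
        calc ∫ τ, ‖g (c z.1 - τ) * g (c z.2 - τ)‖ ≤ ∫ τ, Cg * |g (c z.1 - τ)| := by
              apply integral_mono (hz z).norm ((hgi.comp_sub_left (c z.1)).abs.const_mul Cg)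
              intro τ
              show ‖g (c z.1 - τ) * g (c z.2 - τ)‖ ≤ Cg * |g (c z.1 - τ)|
              rw [Real.norm_eq_abs, abs_mul, mul_comm]
              exact mul_le_mul_of_nonneg_right (hgb _) (abs_nonneg _)
          _ = Cg * ∫ x, |g x| := by
              rw [integral_const_mul, integral_sub_left_eq_self (fun x => |g x|) volume (c z.1)]
  have hsq : ∀ τ, (∫ p, g (c p - τ) ∂ν) ^ 2 =
      ∫ z : (ℝ × ℝ) × (ℝ × ℝ), g (c z.1 - τ) * g (c z.2 - τ) ∂(ν.prod ν) := by
    intro τ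
    rw [sq, ← integral_prod_mul]
  have hTh : ∀ z : (ℝ × ℝ) × (ℝ × ℝ), ∫ τ, g (c z.1 - τ) * g (c z.2 - τ) =
      Th g (c z.2 - c z.1) := by
    intro z
    unfold Th
    rw [← integral_sub_left_eq_self (fun x => g x * g (x + (c z.2 - c z.1))) volume (c z.1)]
    apply integral_congr_ae
    refine Filter.Eventually.of_forall fun τ => ?_
    simp only
    congr 2
    ring
  have hswap : ∫ τ, (∫ p, g (c p - τ) ∂ν) ^ 2 =
      ∫ z : (ℝ × ℝ) × (ℝ × ℝ), Th g (c z.2 - c z.1) ∂(ν.prod ν) := by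
    simp only [hsq, ← hTh]
    exact integral_integral_swap hint
  have hFi : Integrable (fun τ => (∫ p, g (c p - τ) ∂ν) ^ 2) := by
    simp only [hsq]
    exact hint.integral_prod_left
  rw [← hswap]
  refine ⟨integral_nonneg fun τ => sq_nonneg _, ?_⟩
  rw [ofReal_integral_eq_lintegral_ofReal hFi (Filter.Eventually.of_forall fun τ => sq_nonneg _)]

/-- D2. The energy of the law of `b - l a - τ` over slopes in an interval of length `2 w`. -/
theorem claimQ : ClaimQ := by
  intro s C0 k hs0 hs1 hk hk0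
  obtain ⟨C1, C2, hC10, hC20, hC1, hG, hC2⟩ := claimQ_consts C0 k hk hk0
  refine ⟨max 1 ((32 * C1 + 16 * C2) * 4 ^ s * (1 - 2 ^ (2 * s - 2))⁻¹), le_max_left _ _, ?_⟩
  intro K R L w l0 μ hμ hK hL hLR hw hw1 hsupp hf
  have hL0 : 0 < L := by linarith
  set ν := μ.prod μ with hν
  have hgc : Continuous (sc L k) := by
    unfold sc
    have := hk.cont
    fun_prop
  have hgi : Integrable (sc L k) := by
    have h1 := (claimQ_kint C0 k hk).comp_mul_left' hL0.ne'
    exact h1.const_mul L
  have hgb : ∀ x, |sc L k x| ≤ L * C0 := by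
    intro x
    unfold sc
    rw [abs_mul, abs_of_pos hL0]
    exact mul_le_mul_of_nonneg_left (hk.bdd _) hL0.le
  set Φ : ℝ → ℝ := fun l => ∫ z : (ℝ × ℝ) × (ℝ × ℝ),
    Th (sc L k) ((z.2.2 - l * z.2.1) - (z.1.2 - l * z.1.1)) ∂(ν.prod ν) with hΦ
  have hen : ∀ l, 0 ≤ Φ l ∧ ∫⁻ τ, ENNReal.ofReal ((∫ p : ℝ × ℝ,
      sc L k (p.2 - l * p.1 - τ) ∂ν) ^ 2) = ENNReal.ofReal (Φ l) := by
    intro l
    exact claimQ_energy ν inferInstance (fun p => p.2 - l * p.1) (by fun_prop) (sc L k) (L * C0)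
      hgc hgi hgb
  have hThc : Continuous (Th (sc L k)) := by
    have h1 : Th (sc L k) = fun y => L * Th k (L * y) := by
      funext y; exact claimQ_Th_sc k L y hL0
    rw [h1]
    have := claimQ_Th_cont C0 k hk
    fun_prop
  have hThb : ∀ y, |Th (sc L k) y| ≤ L * C1 := by
    intro y
    rw [claimQ_Th_sc k L y hL0, abs_mul, abs_of_pos hL0]
    exact mul_le_mul_of_nonneg_left (hC1 _) hL0.le
  set ρ := volume.restrict (Ioc (l0 - 2 * w) (l0 + 2 * w)) with hρ
  have hWc := claimQ_W_cont l0 w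
  have hcont : Continuous (Function.uncurry fun (l : ℝ) (z : (ℝ × ℝ) × (ℝ × ℝ)) =>
      claimQ_W l0 w l * Th (sc L k) ((z.2.2 - l * z.2.1) - (z.1.2 - l * z.1.1))) := by
    unfold Function.uncurry
    fun_prop
  have hint : Integrable (Function.uncurry fun (l : ℝ) (z : (ℝ × ℝ) × (ℝ × ℝ)) =>
      claimQ_W l0 w l * Th (sc L k) ((z.2.2 - l * z.2.1) - (z.1.2 - l * z.1.1)))
      (ρ.prod (ν.prod ν)) := by
    rw [integrable_prod_iff hcont.aestronglyMeasurable]
    constructor
    · refine Filter.Eventually.of_forall fun l => ?_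
      refine Integrable.of_bound (C := claimQ_W l0 w l * (L * C1)) ?_ ?_
      · exact (hcont.comp (continuous_const.prodMk continuous_id)).aestronglyMeasurable
      · refine Filter.Eventually.of_forall fun z => ?_
        simp only [Function.uncurry_apply_pair]
        rw [Real.norm_eq_abs, abs_mul, abs_of_nonneg (claimQ_W_nonneg _ _ _)]
        exact mul_le_mul_of_nonneg_left (hThb _) (claimQ_W_nonneg _ _ _)
    · refine Integrable.of_bound (C := 2 * (L * C1)) ?_ ?_
      · exact hcont.norm.aestronglyMeasurable.integral_prod_right'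
      · rw [hρ, ae_restrict_iff' measurableSet_Ioc]
        refine Filter.Eventually.of_forall fun l hl => ?_
        have hl' : |l - l0| ≤ 2 * w := by
          rw [abs_le]; constructor <;> linarith [hl.1, hl.2]
        rw [Real.norm_eq_abs, abs_of_nonneg (integral_nonneg fun _ => norm_nonneg _)]
        calc _ ≤ ∫ _ : (ℝ × ℝ) × (ℝ × ℝ), 2 * (L * C1) ∂(ν.prod ν) := by
              apply integral_mono_of_nonneg
              · exact Filter.Eventually.of_forall fun _ => norm_nonneg _
              · exact integrable_const _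
              · refine Filter.Eventually.of_forall fun z => ?_
                simp only [Function.uncurry_apply_pair]
                rw [Real.norm_eq_abs, abs_mul, abs_of_nonneg (claimQ_W_nonneg _ _ _)]
                exact mul_le_mul (claimQ_W_le _ _ _ hw hl') (hThb _) (abs_nonneg _) (by norm_num)
          _ = 2 * (L * C1) := by
              rw [integral_const]
              simp
  have hWΦ : ∀ l, claimQ_W l0 w l * Φ l = ∫ z : (ℝ × ℝ) × (ℝ × ℝ),
      claimQ_W l0 w l * Th (sc L k) ((z.2.2 - l * z.2.1) - (z.1.2 - l * z.1.1)) ∂(ν.prod ν) := by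
    intro l
    rw [integral_const_mul]
  have hΨ : ∀ z : (ℝ × ℝ) × (ℝ × ℝ), ∫ l, claimQ_W l0 w l *
      Th (sc L k) ((z.2.2 - l * z.2.1) - (z.1.2 - l * z.1.1)) ∂ρ =
      claimQ_Psi k L l0 w (z.2.1 - z.1.1) (z.2.2 - z.1.2) := by
    intro z
    unfold claimQ_Psi
    rw [intervalIntegral.integral_of_le (by linarith)]
    apply integral_congr_ae
    refine Filter.Eventually.of_forall fun l => ?_
    simp only
    congr 2
    ring
  calc ∫⁻ l in Icc (l0 - w) (l0 + w), (∫⁻ τ : ℝ,
        ENNReal.ofReal ((∫ p : ℝ × ℝ, sc L k (p.2 - l * p.1 - τ) ∂ν) ^ 2))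
      = ∫⁻ l in Icc (l0 - w) (l0 + w), ENNReal.ofReal (Φ l) := by
        apply lintegral_congr
        intro l
        exact (hen l).2
    _ ≤ ∫⁻ l in Icc (l0 - w) (l0 + w), ENNReal.ofReal (claimQ_W l0 w l * Φ l) := by
        apply setLIntegral_mono' measurableSet_Icc
        intro l hl
        apply ENNReal.ofReal_le_ofReal
        apply le_mul_of_one_le_left (hen l).1
        apply claimQ_W_ge l0 w l hw
        rw [abs_le]; constructor <;> linarith [hl.1, hl.2]
    _ ≤ ∫⁻ l in Ioc (l0 - 2 * w) (l0 + 2 * w), ENNReal.ofReal (claimQ_W l0 w l * Φ l) := by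
        apply lintegral_mono_set
        intro l hl
        constructor <;> linarith [hl.1, hl.2]
    _ = ENNReal.ofReal (∫ l, claimQ_W l0 w l * Φ l ∂ρ) := by
        rw [ofReal_integral_eq_lintegral_ofReal]
        · simp only [hWΦ]
          exact hint.integral_prod_left
        · exact Filter.Eventually.of_forall fun l => mul_nonneg (claimQ_W_nonneg _ _ _) (hen l).1
    _ = ENNReal.ofReal (∫ z : (ℝ × ℝ) × (ℝ × ℝ),
          claimQ_Psi k L l0 w (z.2.1 - z.1.1) (z.2.2 - z.1.2) ∂(ν.prod ν)) := by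
        congr 1
        simp only [hWΦ, ← hΨ]
        exact integral_integral_swap hint
    _ ≤ ∫⁻ z : (ℝ × ℝ) × (ℝ × ℝ), ENNReal.ofReal
          |claimQ_Psi k L l0 w (z.2.1 - z.1.1) (z.2.2 - z.1.2)| ∂(ν.prod ν) := by
        refine (ENNReal.ofReal_le_ofReal (le_abs_self _)).trans ?_
        rw [← Real.enorm_eq_ofReal_abs]
        refine (enorm_integral_le_lintegral_enorm _).trans (le_of_eq ?_)
        apply lintegral_congr
        intro z
        rw [Real.enorm_eq_ofReal_abs]
    _ ≤ _ := claimQ_double s C0 C1 C2 hs0 hs1 k hk hC10 hC20 hC1 hG hC2 K R L w l0 μ hμ hK hL hLR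
        hw hw1 hf
    _ ≤ _ := by
        apply ENNReal.ofReal_le_ofReal
        have h1 : 0 ≤ w ^ (1 - s) := Real.rpow_nonneg hw.le _
        have h2 : 0 ≤ L ^ (1 - 2 * s) := Real.rpow_nonneg hL0.le _
        apply mul_le_mul_of_nonneg_right _ h2
        apply mul_le_mul_of_nonneg_right _ h1
        apply mul_le_mul_of_nonneg_right (le_max_right _ _) (by positivity)

end Pool.Agent.Work.MP_1151e3_an
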