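import Pool.Agent.Work.MP_1151e3_an.Basic

/-!
# Open intervals in shifted products: almost commuting elements fix a point (D14)
-/

set_option autoImplicit false

namespace Pool.Agent.Work.MP_1151e3_an

open MeasureTheory Set Aff

theorem claimStab : ClaimStab := by
  intro θ r E P hθ hr hPE hex hcomm
  classical
  obtain ⟨q', hq', hq'θ⟩ := hex
  have hx' : θ ≤ |1 - (q'.2 * q'.1⁻¹).s| := by rwa [abs_sub_comm]
  have hne : 1 - (q'.2 * q'.1⁻¹).s ≠ 0 := by
    intro h; rw [h, abs_zero] at hx'; linarith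
  let x0 : ℝ := (q'.2 * q'.1⁻¹).t / (1 - (q'.2 * q'.1⁻¹).s)
  have hfix : ∀ q ∈ P, |(q.2 * q.1⁻¹).act x0 - x0| ≤ r / θ := by
    intro q hq
    have h1 := hcomm q hq q' hq'
    have e1 : (q.2 * q.1⁻¹).act x0 - x0 =
        ((1 - (q'.2 * q'.1⁻¹).s) * (q.2 * q.1⁻¹).t -
          (1 - (q.2 * q.1⁻¹).s) * (q'.2 * q'.1⁻¹).t) / (1 - (q'.2 * q'.1⁻¹).s) := by
      rw [eq_div_iff hne]
      have e2 : x0 * (1 - (q'.2 * q'.1⁻¹).s) = (q'.2 * q'.1⁻¹).t := div_mul_cancel₀ _ hne
      unfold Aff.act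
      linear_combination ((q.2 * q.1⁻¹).s - 1) * e2
    rw [e1, abs_div]
    exact div_le_div₀ hr h1 hθ hx'
  have hEne : E.Nonempty := ⟨q'.1, (Finset.mem_product.mp (hPE hq')).1⟩
  obtain ⟨g0, hg0, hmax⟩ := Finset.exists_max_image E
    (fun g => (P.filter (fun q => q.1 = g)).card) hEne
  refine ⟨x0, (g0⁻¹).act x0, (P.filter (fun q => q.1 = g0)).image Prod.snd, ?_, ?_, ?_⟩
  · intro h hh
    obtain ⟨q, hq, rfl⟩ := Finset.mem_image.mp hh
    exact (Finset.mem_product.mp (hPE (Finset.mem_filter.mp hq).1)).2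
  · have hc1 : P.card = ∑ g ∈ E, (P.filter (fun q => q.1 = g)).card :=
      Finset.card_eq_sum_card_fiberwise fun q hq => (Finset.mem_product.mp (hPE hq)).1
    have hc2 : ((P.filter (fun q => q.1 = g0)).image Prod.snd).card =
        (P.filter (fun q => q.1 = g0)).card := by
      apply Finset.card_image_of_injOn
      intro a ha b hb hab
      have ha' := (Finset.mem_filter.mp ha).2
      have hb' := (Finset.mem_filter.mp hb).2
      exact Prod.ext (ha'.trans hb'.symm) hab
    have hc3 : P.card ≤ E.card * (P.filter (fun q => q.1 = g0)).card := by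
      rw [hc1]
      calc ∑ g ∈ E, (P.filter (fun q => q.1 = g)).card ≤
          ∑ _g ∈ E, (P.filter (fun q => q.1 = g0)).card := Finset.sum_le_sum fun g hg => hmax g hg
        _ = _ := by rw [Finset.sum_const, smul_eq_mul]
    rw [hc2]
    have : (P.card : ℝ) ≤ (E.card : ℝ) * ((P.filter (fun q => q.1 = g0)).card : ℝ) := by
      exact_mod_cast hc3
    linarith
  · intro g hg
    obtain ⟨q, hq, rfl⟩ := Finset.mem_image.mp hg
    obtain ⟨hqP, hq0⟩ := Finset.mem_filter.mp hq
    have := hfix q hqP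
    rw [act_mul, hq0] at this
    exact this

end Pool.Agent.Work.MP_1151e3_an
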